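import Pool.Agent.P.MP_6c3c64_gt.Defs

/-! Row A0. Closure properties of finite rank, approximable and invertible operators.
`HasInv.perturb`: Neumann series for `1 + S (T - C)`. `FI0.of_approx`: write `T - C = K0 + K1` with
`K0` of finite rank and `‖K1‖ * M ≤ 1 / 2`; then `C + K1` is invertible.
-/

set_option autoImplicit false

open Real BoundedContinuousFunction MeasureTheory Set Filter Topology
open scoped NNReal ENNReal

noncomputable section

namespace Pool.Agent.PS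

variable {V V' V'' : Type} [NormedAddCommGroup V] [NormedSpace ℝ V] [NormedAddCommGroup V']
  [NormedSpace ℝ V'] [NormedAddCommGroup V''] [NormedSpace ℝ V'']


theorem A0_of_mem {K : V →L[ℝ] V'} (U : Submodule ℝ V') [FiniteDimensional ℝ U]
    (h : ∀ v, K v ∈ U) : FinRk K := by
  have hle : LinearMap.range K.toLinearMap ≤ U := by
    rintro _ ⟨v, rfl⟩
    exact h v
  exact Submodule.finiteDimensional_of_le hle

theorem A0_small {η c : ℝ} (hη : 0 < η) (hc : 0 ≤ c) : c * (η / (c + 1)) ≤ η := by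
  rw [← mul_div_assoc, div_le_iff₀ (by positivity)]
  nlinarith

theorem FinRk.zero : FinRk (0 : V →L[ℝ] V') :=
  A0_of_mem ⊥ fun _ => Submodule.zero_mem _
theorem FinRk.add {K L : V →L[ℝ] V'} (hK : FinRk K) (hL : FinRk L) : FinRk (K + L) := by
  have h1 : FiniteDimensional ℝ (LinearMap.range K.toLinearMap) := hK
  have h2 : FiniteDimensional ℝ (LinearMap.range L.toLinearMap) := hL
  exact A0_of_mem (LinearMap.range K.toLinearMap ⊔ LinearMap.range L.toLinearMap) fun v =>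
    Submodule.add_mem_sup ⟨v, rfl⟩ ⟨v, rfl⟩
theorem FinRk.smul {K : V →L[ℝ] V'} (hK : FinRk K) (c : ℝ) : FinRk (c • K) := by
  have h1 : FiniteDimensional ℝ (LinearMap.range K.toLinearMap) := hK
  exact A0_of_mem (LinearMap.range K.toLinearMap) fun v => Submodule.smul_mem _ c ⟨v, rfl⟩
theorem FinRk.comp_left {K : V →L[ℝ] V'} (hK : FinRk K) (A : V' →L[ℝ] V'') : FinRk (A ∘L K) := by
  have h1 : FiniteDimensional ℝ (LinearMap.range K.toLinearMap) := hK
  exact A0_of_mem ((LinearMap.range K.toLinearMap).map A.toLinearMap) fun v =>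
    ⟨K v, ⟨v, rfl⟩, rfl⟩
theorem FinRk.comp_right {K : V' →L[ℝ] V''} (hK : FinRk K) (A : V →L[ℝ] V') : FinRk (K ∘L A) := by
  have h1 : FiniteDimensional ℝ (LinearMap.range K.toLinearMap) := hK
  exact A0_of_mem (LinearMap.range K.toLinearMap) fun v => ⟨A v, rfl⟩
theorem FinRk.sum {ι : Type} (s : Finset ι) {K : ι → V →L[ℝ] V'} (h : ∀ i ∈ s, FinRk (K i)) :
    FinRk (∑ i ∈ s, K i) :=
  Finset.sum_induction K FinRk (fun _ _ => FinRk.add) FinRk.zero h
theorem finRk_smulRight (f : V →L[ℝ] ℝ) (e : V') : FinRk (f.smulRight e) :=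
  A0_of_mem (Submodule.span ℝ {e}) fun v =>
    Submodule.smul_mem _ (f v) (Submodule.mem_span_singleton_self e)
theorem FinRk.approx {K : V →L[ℝ] V'} (hK : FinRk K) : Approx K :=
  fun η hη => ⟨K, hK, by rw [sub_self, norm_zero]; exact hη.le⟩
theorem Approx.zero : Approx (0 : V →L[ℝ] V') := FinRk.zero.approx
theorem Approx.add {K L : V →L[ℝ] V'} (hK : Approx K) (hL : Approx L) : Approx (K + L) := by
  intro η hη
  obtain ⟨K0, h1, h2⟩ := hK (η / 2) (half_pos hη)
  obtain ⟨L0, h3, h4⟩ := hL (η / 2) (half_pos hη)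
  refine ⟨K0 + L0, h1.add h3, ?_⟩
  rw [add_sub_add_comm]
  exact (norm_add_le _ _).trans (by linarith)
theorem Approx.smul {K : V →L[ℝ] V'} (hK : Approx K) (c : ℝ) : Approx (c • K) := by
  intro η hη
  obtain ⟨K0, h1, h2⟩ := hK (η / (‖c‖ + 1)) (by positivity)
  refine ⟨c • K0, h1.smul c, ?_⟩
  rw [← smul_sub, norm_smul]
  exact (mul_le_mul_of_nonneg_left h2 (norm_nonneg _)).trans (A0_small hη (norm_nonneg _))
theorem Approx.neg {K : V →L[ℝ] V'} (hK : Approx K) : Approx (-K) := by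
  rw [← neg_one_smul ℝ K]
  exact hK.smul (-1)
theorem Approx.sub {K L : V →L[ℝ] V'} (hK : Approx K) (hL : Approx L) : Approx (K - L) := by
  rw [sub_eq_add_neg]
  exact hK.add hL.neg
theorem Approx.comp_left {K : V →L[ℝ] V'} (hK : Approx K) (A : V' →L[ℝ] V'') :
    Approx (A ∘L K) := by
  intro η hη
  obtain ⟨K0, h1, h2⟩ := hK (η / (‖A‖ + 1)) (by positivity)
  refine ⟨A ∘L K0, h1.comp_left A, ?_⟩
  rw [← ContinuousLinearMap.comp_sub]
  exact (ContinuousLinearMap.opNorm_comp_le _ _).trans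
    ((mul_le_mul_of_nonneg_left h2 (norm_nonneg _)).trans (A0_small hη (norm_nonneg _)))
theorem Approx.comp_right {K : V' →L[ℝ] V''} (hK : Approx K) (A : V →L[ℝ] V') :
    Approx (K ∘L A) := by
  intro η hη
  obtain ⟨K0, h1, h2⟩ := hK (η / (‖A‖ + 1)) (by positivity)
  refine ⟨K0 ∘L A, h1.comp_right A, ?_⟩
  rw [← ContinuousLinearMap.sub_comp]
  refine (ContinuousLinearMap.opNorm_comp_le _ _).trans ?_
  rw [mul_comm]
  exact (mul_le_mul_of_nonneg_left h2 (norm_nonneg _)).trans (A0_small hη (norm_nonneg _))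
theorem Approx.prod {K : V →L[ℝ] V'} {L : V →L[ℝ] V''} (hK : Approx K) (hL : Approx L) :
    Approx (K.prod L) := by
  have e : K.prod L = ContinuousLinearMap.inl ℝ V' V'' ∘L K +
      ContinuousLinearMap.inr ℝ V' V'' ∘L L := by
    ext v <;> simp
  rw [e]
  exact (hK.comp_left _).add (hL.comp_left _)
theorem Approx.of_forall {K : V →L[ℝ] V'}
    (h : ∀ η > 0, ∃ K' : V →L[ℝ] V', Approx K' ∧ ‖K - K'‖ ≤ η) : Approx K := by
  intro η hη
  obtain ⟨K1, h1, h2⟩ := h (η / 2) (half_pos hη)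
  obtain ⟨K0, h3, h4⟩ := h1 (η / 2) (half_pos hη)
  refine ⟨K0, h3, ?_⟩
  rw [← sub_add_sub_cancel K K1 K0]
  exact (norm_add_le _ _).trans (by linarith)
theorem Approx.sum {ι : Type} (s : Finset ι) {K : ι → V →L[ℝ] V'} (h : ∀ i ∈ s, Approx (K i)) :
    Approx (∑ i ∈ s, K i) :=
  Finset.sum_induction K Approx (fun _ _ => Approx.add) Approx.zero h
theorem Approx.hasSum {ι : Type} {K : ι → V →L[ℝ] V'} {S : V →L[ℝ] V'} (hs : HasSum K S)
    (h : ∀ i, Approx (K i)) : Approx S := by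
  refine Approx.of_forall fun η hη => ?_
  have h1 : Tendsto (fun s : Finset ι => ∑ i ∈ s, K i) atTop (𝓝 S) := hs
  obtain ⟨s, h2⟩ := (h1.eventually (Metric.closedBall_mem_nhds S hη)).exists
  refine ⟨∑ i ∈ s, K i, Approx.sum s fun i _ => h i, ?_⟩
  rw [← dist_eq_norm, dist_comm]
  exact h2
theorem HasInv.mul {S T : V →L[ℝ] V} {M M' : ℝ} (hS : HasInv S M) (hT : HasInv T M') :
    HasInv (S * T) (M' * M) := by
  obtain ⟨A, a1, a2, a3⟩ := hS
  obtain ⟨B, b1, b2, b3⟩ := hT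
  refine ⟨B * A, ?_, ?_, ?_⟩
  · rw [mul_assoc, ← mul_assoc A, a1, one_mul, b1]
  · rw [mul_assoc, ← mul_assoc T, b2, one_mul, a2]
  · exact (norm_mul_le _ _).trans
      (mul_le_mul b3 a3 (norm_nonneg _) ((norm_nonneg _).trans b3))
theorem HasInv.smul {S : V →L[ℝ] V} {M c : ℝ} (hS : HasInv S M) (hc : c ≠ 0) :
    HasInv (c • S) (M / |c|) := by
  obtain ⟨A, a1, a2, a3⟩ := hS
  refine ⟨c⁻¹ • A, ?_, ?_, ?_⟩
  · rw [smul_mul_smul_comm, inv_mul_cancel₀ hc, a1, one_smul]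
  · rw [smul_mul_smul_comm, mul_inv_cancel₀ hc, a2, one_smul]
  · rw [norm_smul, norm_inv, Real.norm_eq_abs, div_eq_inv_mul]
    exact mul_le_mul_of_nonneg_left a3 (by positivity)
theorem HasInv.perturb [CompleteSpace V] {C T : V →L[ℝ] V} {M : ℝ} (hC : HasInv C M)
    (h : ‖T - C‖ * M ≤ 1 / 2) : HasInv T (2 * M) := by
  obtain ⟨S, a1, a2, a3⟩ := hC
  have hX : ‖-(S * (T - C))‖ ≤ 1 / 2 := by
    rw [norm_neg]
    refine (norm_mul_le _ _).trans ?_
    rw [mul_comm]
    exact (mul_le_mul_of_nonneg_left a3 (norm_nonneg _)).trans h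
  set X := -(S * (T - C)) with hXd
  have hX1 : ‖X‖ < 1 := by linarith
  have e : 1 - X = S * T := by rw [hXd, sub_neg_eq_add, mul_sub, a1, add_sub_cancel]
  have g1 := geom_series_mul_neg X hX1
  have g2 := mul_neg_geom_series X hX1
  have g3 := tsum_geometric_le_of_norm_lt_one X hX1
  rw [e] at g1 g2
  set G := ∑' i : ℕ, X ^ i
  have g4 : T * G = C := by
    calc T * G = C * S * T * G := by rw [a2, one_mul]
      _ = C * (S * T * G) := by simp only [mul_assoc]
      _ = C := by rw [g2, mul_one]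
  have g5 : ‖(1 : V →L[ℝ] V)‖ ≤ 1 := ContinuousLinearMap.norm_id_le
  have g6 : (1 - ‖X‖)⁻¹ ≤ 2 := by
    rw [inv_le_comm₀ (by linarith) two_pos]
    linarith
  refine ⟨G * S, by rw [mul_assoc, g1], by rw [← mul_assoc, g4, a2], ?_⟩
  exact (norm_mul_le _ _).trans (mul_le_mul (by linarith) a3 (norm_nonneg _) zero_le_two)
theorem FI0.of_approx [CompleteSpace V] {C T : V →L[ℝ] V} {M : ℝ} (hC : HasInv C M)
    (h : Approx (T - C)) : FI0 T := by
  have hM : 0 ≤ M := by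
    obtain ⟨S, -, -, a3⟩ := hC
    exact (norm_nonneg _).trans a3
  obtain ⟨K0, h1, h2⟩ := h (1 / 2 / (M + 1)) (by positivity)
  refine ⟨T - K0, 2 * M, hC.perturb ?_, by rwa [sub_sub_cancel]⟩
  rw [sub_right_comm, mul_comm]
  exact (mul_le_mul_of_nonneg_left h2 hM).trans (A0_small (by norm_num) hM)
theorem hasInv_mulY (a : Y0) {c : ℝ} (hc : 0 < c) (h : ∀ x, c ≤ a x) :
    HasInv (mulY a) (1 / c) := by
  have ha : ∀ x, 0 < a x := fun x => hc.trans_le (h x)
  have hb : ∀ x, ‖(a x)⁻¹‖ ≤ 1 / c := fun x => by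
    rw [Real.norm_eq_abs, abs_of_pos (inv_pos.2 (ha x)), one_div]
    exact inv_anti₀ hc (h x)
  let b : Y0 := ofNormedAddCommGroup (fun x => (a x)⁻¹)
    (a.continuous.inv₀ fun x => (ha x).ne') (1 / c) hb
  have hbx : ∀ x, b x = (a x)⁻¹ := fun x => rfl
  refine ⟨mulY b, ?_, ?_, (norm_mulY b).trans ((norm_le (by positivity)).2 hb)⟩
  · ext y x
    change b x * (a x * y x) = y x
    rw [hbx, inv_mul_cancel_left₀ (ha x).ne']
  · ext y x
    change a x * (b x * y x) = y x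
    rw [hbx, mul_inv_cancel_left₀ (ha x).ne']

end Pool.Agent.PS
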