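import Pool.Agent.P.MP_6c3c64_gt.A0

/-! Row A1. Criterion for approximability.
Fix `η`, take `X` from `CauchyEnds`, `δ` from `LEC` on `[-X, X]`, nodes `x i = -X + i * δ / 2`
(finitely many, covering `[-X, X]`), `cl x = max (-X) (min x X)`,
`ψ i x = max 0 (δ - |cl x - x i|)`, `S = ∑ ψ i ≥ δ / 2`, and the finite rank operator
`v ↦ ∑ i, T v (cl (x i)) • (ψ i / S)`. It differs from `T v x` by at most `2 η ‖v‖`.
The second statement: `AN T` gives `CauchyEnds (ext ∘L T)`, and `T = res ∘L ext ∘L T`.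
The third: `F v` is Lipschitz with constant `‖F1‖ ‖v‖` and Cauchy at both ends because `eps` is
integrable (`abs_integral_eps_le`, `eps_neg`); `eps * F1 v` is Lipschitz and tends to zero
(`eps_le_exp`).
-/

set_option autoImplicit false

open Real BoundedContinuousFunction MeasureTheory Set Filter Topology
open scoped NNReal ENNReal

noncomputable section

namespace Pool.Agent.PS

variable {V V' V'' : Type} [NormedAddCommGroup V] [NormedSpace ℝ V] [NormedAddCommGroup V']
  [NormedSpace ℝ V'] [NormedAddCommGroup V''] [NormedSpace ℝ V'']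


theorem A1_weights {X δ : ℝ} (hX : 0 ≤ X) (hδ : 0 < δ) :
    ∃ (t : Finset ℝ) (W : ℝ → E0), (∀ y ∈ t, |y| ≤ X) ∧ (∀ y x, 0 ≤ W y x) ∧
      (∀ x, ∑ y ∈ t, W y x = 1) ∧ ∀ y x, W y x ≠ 0 → |max (-X) (min x X) - y| ≤ δ := by
  obtain ⟨t, ht, hfin, hcov⟩ := finite_cover_balls_of_compact (isCompact_Icc (a := -X) (b := X)) hδ
  obtain ⟨t, rfl⟩ := hfin.exists_finset_coe
  obtain ⟨ψ, hψ⟩ : ∃ ψ : ℝ → ℝ → ℝ, ∀ y x, ψ y x = max 0 (δ - |max (-X) (min x X) - y|) :=
    ⟨_, fun _ _ => rfl⟩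
  have h0 : ∀ y x, 0 ≤ ψ y x := fun y x => by rw [hψ]; exact le_max_left _ _
  have hc : ∀ y, Continuous (ψ y) := fun y => by
    rw [show ψ y = fun x => max 0 (δ - |max (-X) (min x X) - y|) from funext (hψ y)]
    fun_prop
  have hS : ∀ x, 0 < ∑ y ∈ t, ψ y x := by
    intro x
    have hx : max (-X) (min x X) ∈ Icc (-X) X :=
      ⟨le_max_left _ _, max_le (by linarith) (min_le_right _ _)⟩
    obtain ⟨y, hy, hb⟩ := mem_iUnion₂.1 (hcov hx)
    refine Finset.sum_pos' (fun y _ => h0 y x) ⟨y, hy, ?_⟩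
    rw [hψ]
    rw [Metric.mem_ball, Real.dist_eq] at hb
    exact lt_max_of_lt_right (by linarith)
  have hcS : Continuous fun x => ∑ y ∈ t, ψ y x := continuous_finsetSum _ fun y _ => hc y
  have hb : ∀ y x, |(if y ∈ t then ψ y x else 0) / ∑ y ∈ t, ψ y x| ≤ 1 := by
    intro y x
    split_ifs with hy
    · rw [abs_of_nonneg (div_nonneg (h0 y x) (hS x).le), div_le_one (hS x)]
      exact Finset.single_le_sum (fun y _ => h0 y x) hy
    · simp
  refine ⟨t, fun y => mkB (fun x => (if y ∈ t then ψ y x else 0) / ∑ y ∈ t, ψ y x)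
    (Continuous.div (by split_ifs; exacts [hc y, continuous_const]) hcS fun x => (hS x).ne') 1
    (hb y), fun y hy => abs_le.2 (ht hy), fun y x => ?_, fun x => ?_, fun y x h => ?_⟩
  · rw [mkB_apply]
    refine div_nonneg ?_ (hS x).le
    split_ifs
    exacts [h0 y x, le_rfl]
  · simp only [mkB_apply]
    rw [← Finset.sum_div, div_eq_one_iff_eq (hS x).ne']
    exact Finset.sum_congr rfl fun y hy => if_pos hy
  · rw [mkB_apply] at h
    by_contra hc'
    refine h ?_
    rw [hψ, max_eq_left (by linarith [not_le.1 hc'])]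
    simp

theorem approx_of_LEC (T : V →L[ℝ] E0) (h1 : LEC T) (h2 : CauchyEnds T) : Approx T := by
  intro η hη
  obtain ⟨X0, hX0⟩ := h2 (η / 2) (by linarith)
  obtain ⟨X, hX, hXX⟩ : ∃ X : ℝ, 0 ≤ X ∧ X0 ≤ X := ⟨max 0 X0, le_max_left _ _, le_max_right _ _⟩
  obtain ⟨δ, hδ, hL⟩ := h1 X (η / 2) (by linarith)
  obtain ⟨t, W, ht, hW0, hW1, hWδ⟩ := A1_weights hX hδ
  refine ⟨∑ y ∈ t, ((evalCLM ℝ y).comp T).smulRight (W y),
    FinRk.sum t fun y _ => finRk_smulRight _ _, ?_⟩
  refine ContinuousLinearMap.opNorm_le_bound _ hη.le fun v => norm_le_of_abs fun x => ?_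
  have hv : 0 ≤ η / 2 * ‖v‖ := by positivity
  obtain ⟨c, hc⟩ : ∃ c, c = max (-X) (min x X) := ⟨_, rfl⟩
  have hcX : |c| ≤ X := by
    rw [hc]
    exact abs_le.2 ⟨le_max_left _ _, max_le (by linarith) (min_le_right _ _)⟩
  have e1 : |T v x - T v c| ≤ η / 2 * ‖v‖ := by
    rcases le_total X x with h | h
    · rw [hc, min_eq_right h, max_eq_right (by linarith)]
      exact hX0 v x X (Or.inl ⟨by linarith, hXX⟩)
    · rcases le_total x (-X) with h' | h'
      · rw [hc, min_eq_left h, max_eq_left h']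
        exact hX0 v x (-X) (Or.inr ⟨by linarith, by linarith⟩)
      · rw [hc, min_eq_left h, max_eq_right h', sub_self, abs_zero]
        exact hv
  have e2 : (T - ∑ y ∈ t, ((evalCLM ℝ y).comp T).smulRight (W y)) v x =
      (T v x - T v c) + ∑ y ∈ t, (T v c - T v y) * W y x := by
    have : (∑ y ∈ t, ((evalCLM ℝ y).comp T).smulRight (W y)) v x = ∑ y ∈ t, T v y * W y x := by
      rw [_root_.sum_apply, BoundedContinuousFunction.sum_apply]
      rfl
    rw [_root_.sub_apply, BoundedContinuousFunction.sub_apply, this]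
    simp only [sub_mul, Finset.sum_sub_distrib]
    rw [← Finset.mul_sum, hW1]
    ring
  have e3 : |∑ y ∈ t, (T v c - T v y) * W y x| ≤ η / 2 * ‖v‖ := by
    refine (Finset.abs_sum_le_sum_abs _ _).trans ?_
    calc ∑ y ∈ t, |(T v c - T v y) * W y x| ≤ ∑ y ∈ t, η / 2 * ‖v‖ * W y x := by
          refine Finset.sum_le_sum fun y hy => ?_
          rw [abs_mul, abs_of_nonneg (hW0 y x)]
          by_cases h0 : W y x = 0
          · rw [h0, mul_zero, mul_zero]
          · exact mul_le_mul_of_nonneg_right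
              (hL v c y hcX (ht y hy) (hc ▸ hWδ y x h0)) (hW0 y x)
      _ = η / 2 * ‖v‖ := by rw [← Finset.mul_sum, hW1, mul_one]
  rw [e2]
  refine (abs_add_le _ _).trans ?_
  linarith

theorem approx_of_AN (T : V →L[ℝ] Y0) (h1 : LEC (ext ∘L T)) (h2 : AN T) : Approx T := by
  have h3 : CauchyEnds (ext ∘L T) := by
    intro η hη
    obtain ⟨X, hX⟩ := h2 (η / 2) (by linarith)
    refine ⟨X, fun v x x' h => ?_⟩
    have hx : X ≤ |x| ∧ X ≤ |x'| := by
      rcases h with h | h
      · exact ⟨h.1.trans (le_abs_self _), h.2.trans (le_abs_self _)⟩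
      · exact ⟨by linarith [neg_le_abs x, h.1], by linarith [neg_le_abs x', h.2]⟩
    have a1 := hX v ⟨|x|, abs_nonneg x⟩ hx.1
    have a2 := hX v ⟨|x'|, abs_nonneg x'⟩ hx.2
    refine (abs_sub _ _).trans ?_
    have : |T v ⟨|x|, abs_nonneg x⟩| + |T v ⟨|x'|, abs_nonneg x'⟩| ≤ η * ‖v‖ := by linarith
    exact this
  have h4 := (approx_of_LEC _ h1 h3).comp_left res
  have e : res ∘L ext ∘L T = T := ContinuousLinearMap.ext fun v => res_ext (T v)
  rwa [e] at h4

theorem A1_lip {f g : ℝ → ℝ} {C : ℝ} (h : ∀ x, HasDerivAt f (g x) x) (hC : ∀ x, |g x| ≤ C)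
    (x y : ℝ) : |f x - f y| ≤ C * |x - y| :=
  convex_univ.norm_image_sub_le_of_norm_hasDerivWithin_le (f := f) (f' := g)
    (fun x _ => (h x).hasDerivWithinAt) (fun x _ => hC x) (mem_univ y) (mem_univ x)

theorem A1_LEC (T : V →L[ℝ] E0) {C : ℝ} (hC : 0 ≤ C)
    (h : ∀ v x x', |T v x - T v x'| ≤ C * ‖v‖ * |x - x'|) : LEC T := by
  intro X η hη
  refine ⟨η / (C + 1), by positivity, fun v x x' _ _ hd => (h v x x').trans ?_⟩
  rw [le_div_iff₀ (by positivity)] at hd
  have := mul_le_mul_of_nonneg_left hd (norm_nonneg v)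
  nlinarith [mul_nonneg (norm_nonneg v) (abs_nonneg (x - x'))]

theorem A1_small (C : ℝ) {η : ℝ} (hη : 0 < η) :
    ∃ X : ℝ, 0 ≤ X ∧ ∀ x, X ≤ x → C * exp (-(gam * x)) ≤ η := by
  have h : Tendsto (fun x : ℝ => C * exp (-(gam * x))) atTop (𝓝 0) := by
    simpa using (tendsto_exp_neg_atTop_nhds_zero.comp
      (tendsto_id.const_mul_atTop gam_pos)).const_mul C
  obtain ⟨X, hX⟩ := eventually_atTop.1 (h.eventually (gt_mem_nhds hη))
  exact ⟨max 0 X, le_max_left _ _, fun x hx => (hX x (le_of_max_le_right hx)).le⟩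

theorem A1_bd (G : V →L[ℝ] E0) (v : V) (x : ℝ) : |G v x| ≤ ‖G‖ * ‖v‖ :=
  (abs_le_norm _ _).trans (G.le_opNorm v)

theorem A1_eps_mul {g C : ℝ} (x : ℝ) (h : |g| ≤ C) : |eps x * g| ≤ C := by
  rw [abs_mul, abs_of_pos (eps_pos x)]
  nlinarith [eps_le_one x, eps_pos x, abs_nonneg g]

theorem IsJet.approx {F F1 F2 : V →L[ℝ] E0} (h : IsJet F F1 F2) :
    Approx F ∧ Approx (mulL epsB ∘L F1) := by
  obtain ⟨h1, h2, h3⟩ := h
  constructor
  · refine approx_of_LEC F (A1_LEC F (norm_nonneg F1) fun v =>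
      A1_lip (h1 v) fun x => A1_eps_mul x (A1_bd F1 v x)) fun η hη => ?_
    obtain ⟨X, hX0, hX⟩ := A1_small (200 * ‖F1‖) hη
    have key : ∀ v x x', X ≤ x → x ≤ x' → |F v x' - F v x| ≤ η * ‖v‖ := by
      intro v x x' hx hxx
      have hc : Continuous fun s => eps s * F1 v s := continuous_eps.mul (F1 v).continuous
      rw [← intervalIntegral.integral_eq_sub_of_hasDerivAt (fun s _ => h1 v s)
        (hc.intervalIntegrable _ _)]
      refine (intervalIntegral.abs_integral_le_integral_abs hxx).trans ?_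
      have a1 : ∫ s in x..x', |eps s * F1 v s| ≤ ∫ s in x..x', eps s * (‖F1‖ * ‖v‖) := by
        refine intervalIntegral.integral_mono_on hxx (hc.abs.intervalIntegrable _ _)
          ((continuous_eps.mul continuous_const).intervalIntegrable _ _) fun s _ => ?_
        rw [abs_mul, abs_of_pos (eps_pos s)]
        exact mul_le_mul_of_nonneg_left (A1_bd F1 v s) (eps_pos s).le
      rw [intervalIntegral.integral_mul_const] at a1
      have a2 := mul_le_mul_of_nonneg_right (abs_integral_eps_le x x' (hX0.trans hx) hxx)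
        (mul_nonneg (norm_nonneg F1) (norm_nonneg v))
      have a3 := mul_le_mul_of_nonneg_right (hX x hx) (norm_nonneg v)
      linarith
    have key' : ∀ v x x', X ≤ x → X ≤ x' → |F v x - F v x'| ≤ η * ‖v‖ := by
      intro v x x' hx hx'
      rcases le_total x x' with hxx | hxx
      · rw [abs_sub_comm]; exact key v x x' hx hxx
      · exact key v x' x hx' hxx
    refine ⟨X, fun v x x' hx => ?_⟩
    rcases hx with hx | hx
    · exact key' v x x' hx.1 hx.2
    · rw [← h3 v x, ← h3 v x']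
      exact key' v _ _ (by linarith [hx.1]) (by linarith [hx.2])
  · refine approx_of_LEC _ (A1_LEC _ (C := ‖F2‖ + ‖F1‖) (by positivity) fun v =>
      A1_lip (h2 v) fun x => A1_eps_mul x ?_) fun η hη => ?_
    · refine (abs_add_le _ _).trans ?_
      rw [abs_mul, add_mul]
      have := A1_bd F1 v x
      nlinarith [A1_bd F2 v x, abs_tanh_le_one x, abs_nonneg (tanh x), abs_nonneg (F1 v x)]
    · obtain ⟨X, hX0, hX⟩ := A1_small (2 * ‖F1‖) (half_pos hη)
      have key : ∀ v x, X ≤ |x| → |eps x * F1 v x| ≤ η / 2 * ‖v‖ := by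
        intro v x hx
        rw [abs_mul, abs_of_pos (eps_pos x)]
        have a1 := mul_le_mul (eps_le_exp x) (A1_bd F1 v x) (abs_nonneg _) (by positivity)
        have a3 := mul_le_mul_of_nonneg_right (hX _ hx) (norm_nonneg v)
        linarith
      refine ⟨X, fun v x x' h => ?_⟩
      have hx : X ≤ |x| ∧ X ≤ |x'| := by
        rcases h with h | h
        · exact ⟨h.1.trans (le_abs_self _), h.2.trans (le_abs_self _)⟩
        · exact ⟨by linarith [neg_le_abs x, h.1], by linarith [neg_le_abs x', h.2]⟩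
      refine (abs_sub _ _).trans ?_
      have : |eps x * F1 v x| + |eps x' * F1 v x'| ≤ η * ‖v‖ := by
        linarith [key v x hx.1, key v x' hx.2]
      exact this

end Pool.Agent.PS
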