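import Pool.Agent.Lib.ZpIndex.Action

/-! Row A2, first part: the chain level Borsuk-Ulam theorem for the antipodal action. -/

set_option autoImplicit false

noncomputable section

namespace Pool.Agent.PS

open Finsupp Pool.Agent.Lib.ZpIndex

variable {E : Type} [NormedAddCommGroup E] [NormedSpace ℝ E]

/-- the sign character -/
def A2sg (s : ZMod 2) : ℝ := if s = 0 then 1 else -1

theorem A2sg_zero : A2sg 0 = 1 := by simp [A2sg]

theorem A2_cases (s : ZMod 2) : s = 0 ∨ s = 1 := by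
  revert s; decide

theorem A2sg_one : A2sg 1 = -1 := by
  have : (1 : ZMod 2) ≠ 0 := by decide
  simp [A2sg, this]

theorem A2sg_add (s t : ZMod 2) : A2sg (s + t) = A2sg s * A2sg t := by
  have h : (1 + 1 : ZMod 2) = 0 := by decide
  rcases A2_cases s with rfl | rfl <;> rcases A2_cases t with rfl | rfl <;>
    simp [A2sg_zero, A2sg_one, h]

theorem A2sg_abs (s : ZMod 2) : |A2sg s| = 1 := by
  rcases A2_cases s with rfl | rfl <;> simp [A2sg_zero, A2sg_one]

/-- the antipodal action -/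
def A2sh (s : ZMod 2) (x : E) : E := A2sg s • x

theorem A2sh_add (s t : ZMod 2) (x : E) : A2sh (s + t) x = A2sh s (A2sh t x) := by
  simp [A2sh, A2sg_add, mul_smul]

theorem A2sh_zero (x : E) : A2sh 0 x = x := by simp [A2sh, A2sg_zero]

theorem A2sh_one (x : E) : A2sh 1 x = -x := by simp [A2sh, A2sg_one]

theorem A2sh_cont (s : ZMod 2) : Continuous (A2sh s : E → E) :=
  continuous_const.smul continuous_id

/-- the antipodal action as an `Act` -/
def A2act (E : Type) [NormedAddCommGroup E] [NormedSpace ℝ E] : Act 2 E :=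
  ⟨A2sh, A2sh_zero, A2sh_add⟩

/-- lists lying in one convex piece, with small diameter -/
def A2Good (S : Set E) (d : ℝ) (l : List E) : Prop :=
  (∃ K, Convex ℝ K ∧ K ⊆ S ∧ ∀ x ∈ l, x ∈ K) ∧ ∀ x ∈ l, ∀ y ∈ l, dist x y ≤ d

/-- barycentre of a list -/
def A2bary (l : List E) : E := (l.length : ℝ)⁻¹ • l.sum

theorem A2bary_map (s : ZMod 2) (l : List E) : A2bary (l.map (A2sh s)) = A2sh s (A2bary l) := by
  have : (l.map (A2sh s)).sum = A2sh s l.sum := by
    induction l with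
    | nil => simp [A2sh]
    | cons a l ih => simp only [List.map_cons, List.sum_cons, ih]; simp [A2sh]
  simp only [A2bary, List.length_map, this]
  simp only [A2sh]
  rw [smul_comm]

theorem A2bary_eq (l : List E) :
    A2bary l = ∑ i : Fin l.length, (l.length : ℝ)⁻¹ • l[i.1] := by
  rw [← Finset.smul_sum, Fin.sum_univ_getElem, A2bary]

theorem A2bary_mem {K : Set E} (hK : Convex ℝ K) {l : List E} (hl : l ≠ [])
    (h : ∀ x ∈ l, x ∈ K) : A2bary l ∈ K := by
  rw [A2bary_eq]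
  have hpos : (l.length : ℝ) ≠ 0 := by
    simpa using hl
  refine hK.sum_mem (fun i _ => by positivity) ?_ (fun i _ => h _ (List.getElem_mem _))
  simp [hpos]

theorem A2dist_bary {N : ℕ} {d : ℝ} {l : List E} (hlen : l.length ≤ N)
    (h : ∀ x ∈ l, ∀ y ∈ l, dist x y ≤ d) {x : E} (hx : x ∈ l) :
    dist (A2bary l) x ≤ (1 - (N : ℝ)⁻¹) * d := by
  obtain ⟨k, hk, rfl⟩ := List.getElem_of_mem hx
  have hd : 0 ≤ d := by simpa using h _ hx _ hx
  have hn : (0 : ℝ) < l.length := by exact_mod_cast (Nat.zero_lt_of_lt hk)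
  have e : A2bary l - l[k] = ∑ i : Fin l.length, (l.length : ℝ)⁻¹ • (l[i.1] - l[k]) := by
    simp only [smul_sub, Finset.sum_sub_distrib, ← A2bary_eq, Finset.sum_const, Finset.card_univ,
      Fintype.card_fin]
    rw [← Nat.cast_smul_eq_nsmul ℝ, smul_smul, mul_inv_cancel₀ hn.ne', one_smul]
  rw [dist_eq_norm, e]
  have hle : ∀ i : Fin l.length, ‖(l.length : ℝ)⁻¹ • (l[i.1] - l[k])‖ ≤
      (l.length : ℝ)⁻¹ * d - (if i = ⟨k, hk⟩ then (l.length : ℝ)⁻¹ * d else 0) := by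
    intro i
    split_ifs with hi
    · subst hi
      simp
    · rw [norm_smul, Real.norm_eq_abs, abs_of_pos (inv_pos.2 hn), sub_zero, ← dist_eq_norm]
      exact mul_le_mul_of_nonneg_left (h _ (List.getElem_mem _) _ hx) (inv_pos.2 hn).le
  refine (norm_sum_le _ _).trans ((Finset.sum_le_sum fun i _ => hle i).trans ?_)
  simp only [Finset.sum_sub_distrib, Finset.sum_const, Finset.card_univ, Fintype.card_fin,
    Finset.sum_ite_eq', Finset.mem_univ, if_true, nsmul_eq_mul]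
  rw [← mul_assoc, mul_inv_cancel₀ hn.ne', sub_mul]
  have : (N : ℝ)⁻¹ ≤ (l.length : ℝ)⁻¹ := inv_anti₀ hn (by exact_mod_cast hlen)
  nlinarith

/-- a system of chains -/
def A2Sys (S : Set E) (d : ℝ) (n : ℕ) (c : ℕ → Ch (ZMod 2) E) : Prop :=
  (∀ k ≤ n, c k ∈ Supp (ZMod 2) (fun l => l.length = k + 1 ∧ A2Good S d l)) ∧
    bd (c 0) = single [] 1 ∧ ∀ k < n, bd (c (k + 1)) = (A2act E).θ k (c k)

theorem A2sys_step {S : Set E} {d : ℝ} {n N : ℕ} (hn : n + 1 ≤ N) {c : ℕ → Ch (ZMod 2) E}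
    (h : A2Sys S d n c) : A2Sys S ((1 - (N : ℝ)⁻¹) * d) n (fun k => sd A2bary (k + 1) (c k)) := by
  obtain ⟨h1, h2, h3⟩ := h
  refine ⟨fun k hk => ?_, ?_, fun k hk => ?_⟩
  · refine Supp_and (sd_length _ _ _) ?_
    refine map_mem _ _ (fun l hl => ?_) (h1 k hk)
    have := sd_carrier (R := ZMod 2) A2bary
      (fun l m => (∀ K : Set E, Convex ℝ K → (∀ x ∈ l, x ∈ K) → ∀ y ∈ m, y ∈ K) ∧
        (l.length ≤ N → (∀ x ∈ l, ∀ y ∈ l, dist x y ≤ d) →
          ∀ x ∈ m, ∀ y ∈ m, dist x y ≤ (1 - (N : ℝ)⁻¹) * d))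
      (fun l => by simp) (fun l l' m hf hq => ?_) (k + 1) l
    · refine Supp_mono (fun m hm => ?_) this
      obtain ⟨hl1, ⟨K, hK, hKS, hj⟩, hl3⟩ := hl
      exact ⟨⟨K, hK, hKS, hm.1 K hK hj⟩, hm.2 (by omega) hl3⟩
    · have hne : l ≠ [] := by
        rintro rfl
        have := hf.2
        simp at this
      have hK : ∀ K : Set E, Convex ℝ K → (∀ x ∈ l, x ∈ K) →
          ∀ y ∈ A2bary l :: m, y ∈ K := by
        intro K hK hx y hy
        rcases List.mem_cons.1 hy with rfl | hy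
        · exact A2bary_mem hK hne hx
        · exact hq.1 K hK (fun x hx' => hx x (hf.1.subset hx')) y hy
      refine ⟨hK, fun hlen hd => ?_⟩
      have hb : ∀ y ∈ A2bary l :: m, dist y (A2bary l) ≤ (1 - (N : ℝ)⁻¹) * d :=
        hK (Metric.closedBall (A2bary l) ((1 - (N : ℝ)⁻¹) * d)) (convex_closedBall _ _)
          (fun x hx => by rw [Metric.mem_closedBall, dist_comm]; exact A2dist_bary hlen hd hx)
      intro x hx y hy
      rcases List.mem_cons.1 hy with rfl | hy'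
      · exact hb x hx
      rcases List.mem_cons.1 hx with rfl | hx'
      · rw [dist_comm]; exact hb y hy
      exact hq.2 (by have := hf.2; omega)
        (fun x hx y hy => hd x (hf.1.subset hx) y (hf.1.subset hy)) x hx' y hy'
  · simp only [zero_add, bd_sd, h2, sd_zero_single]
  · simp only [bd_sd, h3 k hk]
    refine (A2act E).comm_θ (A2act E) _ _ (fun s => ?_) k
    exact sd_cmap A2bary (A2sh s) (A2sh s) (fun _ => True) (fun _ _ _ _ => trivial)
      (fun l _ _ => A2bary_map s l) _ (mem_top _)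

/-- action on signed indices -/
def A2Y : Act 2 (ℕ × ZMod 2) := ⟨fun s b => (b.1, b.2 + s), by simp, fun s t a => by
    simp only [Prod.mk.injEq, true_and]; ring⟩

/-- the coarse chains (hemispheres) -/
def A2c0 : ℕ → Ch (ZMod 2) (ℕ × ZMod 2)
  | 0 => single [(0, 0)] 1
  | k + 1 => cone (k + 1, 0) (A2Y.θ k (A2c0 k))

theorem A2c0_mem (k : ℕ) : A2c0 k ∈ Supp (ZMod 2) (fun l => l.length = k + 1 ∧
    ∃ σ : ℕ → ZMod 2, ∀ a ∈ l, a.1 ≤ k ∧ a.2 = σ a.1) := by
  induction k with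
  | zero => exact single_mem ⟨rfl, fun _ => 0, by simp⟩
  | succ k ih =>
    refine map_mem (cone (k + 1, 0)) _ (fun l hl => ?_)
      (A2Y.θ_mem (P := fun l => l.length = k + 1 ∧
        ∃ σ : ℕ → ZMod 2, ∀ a ∈ l, a.1 ≤ k ∧ a.2 = σ a.1) (fun s l hl => ?_) k ih)
    · rw [cone_single]
      obtain ⟨h1, σ, hσ⟩ := hl
      refine single_mem ⟨by simp [h1], Function.update σ (k + 1) 0, fun a ha => ?_⟩
      rcases List.mem_cons.1 ha with rfl | ha
      · simp
      · have := hσ a ha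
        refine ⟨by omega, ?_⟩
        rw [Function.update_of_ne (by omega)]
        exact this.2
    · obtain ⟨h1, σ, hσ⟩ := hl
      refine ⟨by simpa using h1, fun i => σ i + s, fun a ha => ?_⟩
      obtain ⟨b, hb, rfl⟩ := List.mem_map.1 ha
      have := hσ b hb
      exact ⟨this.1, by simp only [A2Y]; rw [this.2]⟩

theorem A2bd_c0 (k : ℕ) : bd (A2c0 (k + 1)) = A2Y.θ k (A2c0 k) := by
  have hc : ∀ k c, bd (A2Y.θ k c) = A2Y.θ k (bd c) := fun k c =>
    A2Y.comm_θ A2Y bd c (fun s => (cmap_bd _ c).symm) k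
  induction k with
  | zero =>
    simp [A2c0, Act.θ, Act.tau_apply, Act.T, bdL]
  | succ k ih =>
    rw [A2c0, bd_cone, hc, ih, Act.θ_θ]
    simp

theorem A2sys_init {S : Set E} {n : ℕ} (v : ℕ → E) (hv : ∀ i, ‖v i‖ ≤ 1)
    (hK : ∀ σ : ℕ → ZMod 2, ∃ K, Convex ℝ K ∧ K ⊆ S ∧ ∀ i ≤ n, A2sh (σ i) (v i) ∈ K) :
    A2Sys S 2 n (fun k => cmap (fun a : ℕ × ZMod 2 => A2sh a.2 (v a.1)) (A2c0 k)) := by
  refine ⟨fun k hk => ?_, ?_, fun k hk => ?_⟩
  · refine map_mem _ _ (fun l hl => ?_) (A2c0_mem k)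
    rw [cmap_single]
    obtain ⟨h1, σ, hσ⟩ := hl
    refine single_mem ⟨by simpa using h1, ?_, ?_⟩
    · obtain ⟨K, k1, k2, k3⟩ := hK σ
      refine ⟨K, k1, k2, fun x hx => ?_⟩
      obtain ⟨a, ha, rfl⟩ := List.mem_map.1 hx
      rw [(hσ a ha).2]
      exact k3 _ ((hσ a ha).1.trans hk)
    · intro x hx y hy
      obtain ⟨i, -, rfl⟩ := List.mem_map.1 hx
      obtain ⟨j, -, rfl⟩ := List.mem_map.1 hy
      have hn : ∀ a : ℕ × ZMod 2, ‖A2sh a.2 (v a.1)‖ ≤ 1 := fun a => by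
        rw [A2sh, norm_smul, Real.norm_eq_abs, A2sg_abs, one_mul]; exact hv _
      rw [dist_eq_norm]
      have := norm_sub_le (A2sh i.2 (v i.1)) (A2sh j.2 (v j.1))
      linarith [hn i, hn j]
  · simp [A2c0, bdL]
  · simp only [← cmap_bd, A2bd_c0]
    refine A2Y.comm_θ (A2act E) _ _ (fun s => ?_) k
    simp only [Act.T, cmap_cmap]
    have : ((fun a : ℕ × ZMod 2 => A2sh a.2 (v a.1)) ∘ A2Y.act s) =
        ((A2act E).act s ∘ fun a : ℕ × ZMod 2 => A2sh a.2 (v a.1)) := by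
      funext a
      simp only [Function.comp, A2Y, A2act]
      rw [add_comm, A2sh_add]
    rw [this]

theorem A2sys_small {S : Set E} {n : ℕ} (v : ℕ → E) (hv : ∀ i, ‖v i‖ ≤ 1)
    (hK : ∀ σ : ℕ → ZMod 2, ∃ K, Convex ℝ K ∧ K ⊆ S ∧ ∀ i ≤ n, A2sh (σ i) (v i) ∈ K)
    {δ : ℝ} (hδ : 0 < δ) :
    ∃ d < δ, ∃ c : ℕ → Ch (ZMod 2) E, A2Sys S d n c := by
  have hp : (0 : ℝ) < ((n + 1 : ℕ) : ℝ) := by exact_mod_cast Nat.succ_pos n
  have h : ∀ M : ℕ, ∃ c : ℕ → Ch (ZMod 2) E,
      A2Sys S ((1 - ((n + 1 : ℕ) : ℝ)⁻¹) ^ M * 2) n c := by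
    intro M
    induction M with
    | zero => exact ⟨_, by rw [pow_zero, one_mul]; exact A2sys_init v hv hK⟩
    | succ M ih =>
      obtain ⟨c, hc⟩ := ih
      exact ⟨_, by rw [pow_succ', mul_assoc]; exact A2sys_step le_rfl hc⟩
  obtain ⟨M, hM⟩ := exists_pow_lt_of_lt_one (half_pos hδ)
    (show 1 - ((n + 1 : ℕ) : ℝ)⁻¹ < 1 by linarith [inv_pos.2 hp])
  exact ⟨_, by linarith, h M⟩

theorem A2length_le {C : Type} (l : List (ℕ × C)) (M : ℕ)
    (h1 : l.Pairwise (fun z y => y.1 < z.1 ∨ y = z)) (h2 : l.IsChain (· ≠ ·))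
    (h3 : ∀ y ∈ l, y.1 < M) : l.length ≤ M := by
  induction l generalizing M with
  | nil => simp
  | cons a l ih =>
    have ha := h3 a (by simp)
    rw [List.pairwise_cons] at h1
    have : l.length ≤ a.1 := by
      refine ih _ h1.2 h2.tail ?_
      cases l with
      | nil => simp
      | cons b l =>
        have hab : a ≠ b := (List.isChain_cons_cons.1 h2).1
        have hb : b.1 < a.1 := (h1.1 b (by simp)).resolve_right hab.symm
        intro y hy
        rcases List.mem_cons.1 hy with rfl | hy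
        · exact hb
        · rcases (List.pairwise_cons.1 h1.2).1 y hy with h | rfl
          · exact h.trans hb
          · exact hb
    simp only [List.length_cons]
    omega

/-- the covering form of the Borsuk-Ulam theorem -/
theorem A2cover {S : Set E} (hS : IsCompact S) {m : ℕ} (v : ℕ → E) (hv : ∀ i, ‖v i‖ ≤ 1)
    (hK : ∀ σ : ℕ → ZMod 2, ∃ K, Convex ℝ K ∧ K ⊆ S ∧ ∀ i ≤ m, A2sh (σ i) (v i) ∈ K)
    (V : ℕ → Set E) (hV1 : ∀ i, IsOpen (V i))
    (hV2 : ∀ i y s, y ∈ V i → A2sh s y ∈ V i → s = 0)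
    (hV3 : ∀ y ∈ S, ∃ i < m, ∃ s, A2sh s y ∈ V i) : False := by
  classical
  obtain ⟨δ, hδ, hleb⟩ := lebesgue_number_lemma_of_metric hS
    (c := fun q : {i // i < m} × ZMod 2 => A2sh q.2 ⁻¹' V q.1.1)
    (fun q => (hV1 _).preimage (A2sh_cont _)) (fun y hy => by
      obtain ⟨i, hi, s, hs⟩ := hV3 y hy
      exact Set.mem_iUnion.2 ⟨(⟨i, hi⟩, s), hs⟩)
  obtain ⟨d, hd, c, hc1, hc2, hc3⟩ := A2sys_small v hv hK hδ
  let Fits : List E → ℕ → ZMod 2 → Prop := fun l i s => ∀ x ∈ l, A2sh (-s) x ∈ V i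
  let P : List E → Prop := fun l => l ≠ [] → ∃ i < m, ∃ s, Fits l i s
  have hgood : ∀ l, A2Good S d l → P l := by
    intro l hl hne
    obtain ⟨x, hx⟩ := List.exists_mem_of_ne_nil l hne
    obtain ⟨⟨K, -, hKS, hj⟩, hl2⟩ := hl
    obtain ⟨q, hq⟩ := hleb x (hKS (hj x hx))
    refine ⟨q.1.1, q.1.2, -q.2, fun y hy => ?_⟩
    rw [neg_neg]
    exact hq (Metric.mem_ball.2 ((hl2 y hy x hx).trans_lt hd))
  have hP : ∀ l l', Facet l' l → P l → P l' := by
    intro l l' hf hl _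
    have hne : l ≠ [] := by
      rintro rfl
      have := hf.2
      simp at this
    obtain ⟨i, hi, s, hs⟩ := hl hne
    exact ⟨i, hi, s, fun x hx => hs x (hf.1.subset hx)⟩
  have huniq : ∀ l i s t, l ≠ [] → Fits l i s → Fits l i t → s = t := by
    intro l i s t hne hs ht
    obtain ⟨x, hx⟩ := List.exists_mem_of_ne_nil l hne
    have := hV2 i _ (s - t) (hs x hx) (by
      rw [← A2sh_add, show s - t + -s = -t by ring]; exact ht x hx)
    exact sub_eq_zero.1 this
  have hex : ∀ l : List E, ∃ b : ℕ × ZMod 2, (∃ i, ∃ s, Fits l i s) →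
      Fits l b.1 b.2 ∧ ∀ i s, Fits l i s → b.1 ≤ i := by
    intro l
    by_cases h : ∃ i, ∃ s, Fits l i s
    · obtain ⟨s, hs⟩ := Nat.find_spec h
      exact ⟨(Nat.find h, s), fun _ => ⟨hs, fun i s hs => Nat.find_min' h ⟨s, hs⟩⟩⟩
    · exact ⟨(0, 0), fun h' => absurd h' h⟩
  choose β hβ using hex
  have hfm : ∀ l i s t, Fits (l.map (A2sh t)) i (s + t) ↔ Fits l i s := by
    intro l i s t
    simp only [Fits, List.mem_map, forall_exists_index, and_imp, forall_apply_eq_imp_iff₂,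
      ← A2sh_add, show -(s + t) + t = -s by ring]
  have hequi : ∀ t l, l ≠ [] → P l → β (l.map (A2sh t)) = A2Y.act t (β l) := by
    intro t l hne hl
    obtain ⟨i, -, s, hs⟩ := hl hne
    obtain ⟨a1, a2⟩ := hβ l ⟨i, s, hs⟩
    obtain ⟨b1, b2⟩ := hβ (l.map (A2sh t)) ⟨i, s + t, (hfm l i s t).2 hs⟩
    have e1 : (β (l.map (A2sh t))).1 = (β l).1 := by
      apply le_antisymm
      · exact b2 _ _ ((hfm l _ _ t).2 a1)
      · refine a2 _ ((β (l.map (A2sh t))).2 - t) ((hfm l _ _ t).1 ?_)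
        rw [sub_add_cancel]
        exact b1
    refine Prod.ext e1 ?_
    rw [e1] at b1
    exact huniq _ _ _ _ (by simpa using hne) b1 ((hfm l _ _ t).2 a1)
  have hPc : ∀ k ≤ m, c k ∈ Supp (ZMod 2) P := fun k hk =>
    Supp_mono (fun l hl => hgood l hl.2) (hc1 k hk)
  have key := A2Y.no_system (sg := Prod.snd) (fun s a => rfl) (fun k => sd β (k + 1) (c k)) m
    (fun k => sd_length _ _ _) (fun k hk => by
      simp only [bd_sd, hc3 k hk]
      refine (A2act E).comm_θ A2Y _ _ (fun s => ?_) k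
      exact sd_cmap β (A2sh s) (A2Y.act s) P hP (hequi s) _ (hPc k hk.le)) ?_
  · simp only [zero_add, bd_sd, hc2, sd_zero_single, nrm_single, List.isChain_nil, if_true] at key
    exact one_ne_zero (Finsupp.single_eq_zero.1 key)
  · have h1 : sd β (m + 1) (c m) ∈ Supp (ZMod 2) (fun l : List (ℕ × ZMod 2) =>
        l.Pairwise (fun z y => y.1 < z.1 ∨ y = z) ∧ ∀ y ∈ l, y.1 < m) := by
      refine map_mem _ _ (fun l hl => ?_) (hPc m le_rfl)
      have := sd_carrier (R := ZMod 2) β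
        (fun l m' => P l → m'.Pairwise (fun z y => y.1 < z.1 ∨ y = z) ∧
          ∀ y ∈ m', l ≠ [] ∧ (y.1 < (β l).1 ∨ y = β l))
        (fun l _ => by simp) (fun l l' m' hf hq hl => ?_) (m + 1) l
      · refine Supp_mono (fun m' hm' => ⟨(hm' hl).1, fun y hy => ?_⟩) this
        obtain ⟨hne, hy⟩ := (hm' hl).2 y hy
        obtain ⟨i, hi, s, hs⟩ := hl hne
        have := (hβ l ⟨i, s, hs⟩).2 i s hs
        rcases hy with hy | rfl <;> omega
      · have hne : l ≠ [] := by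
          rintro rfl
          have := hf.2
          simp at this
        obtain ⟨q1, q2⟩ := hq (hP l l' hf hl)
        obtain ⟨i, hi, s, hs⟩ := hl hne
        obtain ⟨a1, a2⟩ := hβ l ⟨i, s, hs⟩
        have a1' : Fits l' (β l).1 (β l).2 := fun x hx => a1 x (hf.1.subset hx)
        obtain ⟨b1, b2⟩ := hβ l' ⟨_, _, a1'⟩
        have hall : ∀ y ∈ m', y.1 < (β l).1 ∨ y = β l := by
          intro y hy
          obtain ⟨hne', hy⟩ := q2 y hy
          rcases (b2 _ _ a1').lt_or_eq with hlt | heq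
          · left
            rcases hy with hy | rfl
            · exact hy.trans hlt
            · exact hlt
          · have : β l' = β l := Prod.ext heq (huniq l' _ _ _ hne' (heq ▸ b1) a1')
            rwa [this] at hy
        refine ⟨List.pairwise_cons.2 ⟨hall, q1⟩, fun y hy => ⟨hne, ?_⟩⟩
        rcases List.mem_cons.1 hy with rfl | hy
        · exact Or.inr rfl
        · exact hall y hy
    refine map_eq nrm 0 (fun l hl => ?_) (Supp_and h1 (sd_length β (m + 1) (c m)))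
    rw [nrm_single, if_neg]
    · rfl
    · intro hch
      have := A2length_le l m hl.1.1 hch hl.1.2
      have := hl.2
      omega

end Pool.Agent.PS
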