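import Pool.Agent.P.MP_6c3c64_gt.Defs
import Pool.Agent.P.MP_6c3c64_gt.A2_a

/-! Row A2. The Borsuk-Ulam theorem for odd maps.
The library `Pool.Agent.Lib.ZpIndex` (files `Chains`, `Action`, `BU`) has the chain level argument
(`no_system`, subdivision `sd`, `nrm`); `BU.lean` does it for the shift action of `ZMod p` on a
simplex boundary and can be adapted to `p = 2` acting by `x ↦ -x` on the boundary of the cross
polytope in `Fin (n + 1) → ℝ` (hemispheres give the initial system; a zero free odd map to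
`Fin n → ℝ` labels a fine subdivision by `± i`, `i : Fin n`, with no antipodal labels on an edge).
Any other proof is fine. Reduce general norms and radii by radial rescaling.
-/

set_option autoImplicit false

open Real BoundedContinuousFunction MeasureTheory Set Filter Topology
open scoped NNReal ENNReal

noncomputable section

namespace Pool.Agent.PS

theorem A2_cross {N m : ℕ} (h : m < N) (G : (Fin N → ℝ) → Fin m → ℝ)
    (hG : ContinuousOn G {x | x ≠ 0}) (hodd : ∀ x, x ≠ 0 → G (-x) = -G x) :
    ∃ x, x ≠ 0 ∧ G x = 0 := by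
  classical
  by_contra hcon
  push Not at hcon
  let S : Set (Fin N → ℝ) := {x | ∑ i, |x i| = 1}
  have hS0 : ∀ x ∈ S, x ≠ 0 := by
    rintro x hx rfl
    simp [S] at hx
  have hS : IsCompact S := by
    refine Metric.isCompact_of_isClosed_isBounded ?_ ?_
    · exact isClosed_eq (by fun_prop) continuous_const
    · refine (Metric.isBounded_closedBall (x := (0 : Fin N → ℝ)) (r := 1)).subset fun x hx => ?_
      rw [mem_closedBall_zero_iff, pi_norm_le_iff_of_nonneg zero_le_one]
      intro i
      have hx' : ∑ i, |x i| = 1 := hx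
      rw [Real.norm_eq_abs, ← hx']
      exact Finset.single_le_sum (f := fun i => |x i|) (fun j _ => abs_nonneg _) (Finset.mem_univ i)
  let v : ℕ → Fin N → ℝ := fun i j => if j.1 = i then 1 else 0
  let H : (Fin N → ℝ) → ℕ → ℝ := fun x i => if hi : i < m then G x ⟨i, hi⟩ else 0
  have hopen : IsOpen {x : Fin N → ℝ | x ≠ 0} := isOpen_ne
  refine A2cover (m := m) hS v (fun i => ?_) (fun σ => ?_)
    (fun i => {x | x ≠ 0} ∩ (fun x => H x i) ⁻¹' Ioi 0) (fun i => ?_) ?_ ?_
  · rw [pi_norm_le_iff_of_nonneg zero_le_one]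
    intro j
    simp only [v]
    split_ifs <;> simp
  · refine ⟨{x | (∀ j, 0 ≤ A2sg (σ j.1) * x j) ∧ ∑ j, A2sg (σ j.1) * x j = 1}, ?_, ?_, ?_⟩
    · intro x hx y hy a b ha hb hab
      refine ⟨fun j => ?_, ?_⟩
      · have h1 := mul_nonneg ha (hx.1 j)
        have h2 := mul_nonneg hb (hy.1 j)
        simp only [Pi.add_apply, Pi.smul_apply, smul_eq_mul]
        nlinarith
      · have : ∀ j : Fin N, A2sg (σ j.1) * (a • x + b • y) j =
            a * (A2sg (σ j.1) * x j) + b * (A2sg (σ j.1) * y j) := fun j => by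
          simp only [Pi.add_apply, Pi.smul_apply, smul_eq_mul]; ring
        simp only [this, Finset.sum_add_distrib, ← Finset.mul_sum, hx.2, hy.2]
        linarith
    · intro x hx
      change ∑ i, |x i| = 1
      rw [← hx.2]
      refine Finset.sum_congr rfl fun j _ => ?_
      rw [← abs_of_nonneg (hx.1 j), abs_mul, A2sg_abs, one_mul]
    · intro i hi
      have hsq : ∀ s, A2sg s * A2sg s = 1 := fun s => by
        rw [← abs_mul_abs_self, A2sg_abs, one_mul]
      have e : ∀ j : Fin N, A2sg (σ j.1) * (A2sh (σ i) (v i)) j =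
          if j = ⟨i, by omega⟩ then 1 else 0 := by
        intro j
        simp only [A2sh, v, Pi.smul_apply, smul_eq_mul, Fin.ext_iff]
        split_ifs with hj
        · rw [hj, mul_one, hsq]
        · simp
      refine ⟨fun j => ?_, ?_⟩
      · rw [e]; split_ifs <;> simp
      · simp only [e]
        simp
  · refine ContinuousOn.isOpen_inter_preimage ?_ hopen isOpen_Ioi
    simp only [H]
    split_ifs with hi
    · exact (continuous_apply _).comp_continuousOn hG
    · exact continuousOn_const
  · rintro i y s ⟨hy0, hy⟩ ⟨-, hs⟩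
    rcases A2_cases s with rfl | rfl
    · rfl
    · exfalso
      rw [A2sh_one] at hs
      simp only [H, mem_preimage, mem_Ioi] at hy hs
      split_ifs at hy hs with hi
      · rw [hodd y hy0, Pi.neg_apply] at hs
        linarith
      · exact lt_irrefl _ hy
  · intro y hy
    have hy0 := hS0 y hy
    obtain ⟨i, hi⟩ := Function.ne_iff.1 (hcon y hy0)
    rcases lt_or_gt_of_ne hi with hlt | hgt
    · refine ⟨i.1, i.2, 1, ?_, ?_⟩
      · rw [A2sh_one]; exact neg_ne_zero.2 hy0
      · simp only [A2sh_one, H, mem_preimage, mem_Ioi, i.2, dif_pos]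
        rw [hodd y hy0, Pi.neg_apply]
        have : G y i < 0 := hlt
        simpa using this
    · refine ⟨i.1, i.2, 0, ?_, ?_⟩
      · rw [A2sh_zero]; exact hy0
      · simp only [A2sh_zero, H, mem_preimage, mem_Ioi, i.2, dif_pos]
        exact hgt

theorem borsuk_ulam {E F : Type} [NormedAddCommGroup E] [NormedSpace ℝ E] [FiniteDimensional ℝ E]
    [NormedAddCommGroup F] [NormedSpace ℝ F] [FiniteDimensional ℝ F]
    (h : Module.finrank ℝ F < Module.finrank ℝ E) (f : E → F) {r : ℝ} (hr : 0 < r)
    (hf : ContinuousOn f (Metric.sphere 0 r))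
    (hodd : ∀ x ∈ Metric.sphere (0 : E) r, f (-x) = -f x) :
    ∃ x ∈ Metric.sphere (0 : E) r, f x = 0 := by
  let φ : (Fin (Module.finrank ℝ E) → ℝ) ≃L[ℝ] E :=
    (Module.finBasis ℝ E).equivFun.symm.toContinuousLinearEquiv
  let e : F ≃L[ℝ] (Fin (Module.finrank ℝ F) → ℝ) :=
    (Module.finBasis ℝ F).equivFun.toContinuousLinearEquiv
  let ρ : (Fin (Module.finrank ℝ E) → ℝ) → E := fun x => (r * ‖φ x‖⁻¹) • φ x
  have hφ : ∀ x, x ≠ 0 → ‖φ x‖ ≠ 0 := fun x hx => by
    rw [norm_ne_zero_iff]
    intro h0
    exact hx (φ.injective (by rw [h0, map_zero]))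
  have hρ : ∀ x, x ≠ 0 → ρ x ∈ Metric.sphere (0 : E) r := fun x hx => by
    rw [mem_sphere_zero_iff_norm]
    simp only [ρ]
    rw [norm_smul, Real.norm_eq_abs, abs_of_nonneg (by positivity), mul_assoc,
      inv_mul_cancel₀ (hφ x hx), mul_one]
  have hρc : ContinuousOn ρ {x | x ≠ 0} := by
    refine ContinuousOn.smul (continuousOn_const.mul ?_) φ.continuous.continuousOn
    exact (φ.continuous.norm.continuousOn).inv₀ hφ
  obtain ⟨x, hx0, hx⟩ := A2_cross h (fun x => e (f (ρ x)))
    (e.continuous.comp_continuousOn (hf.comp hρc hρ)) (fun x hx => by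
      have : ρ (-x) = -ρ x := by simp [ρ]
      simp only [this, hodd _ (hρ x hx), map_neg])
  exact ⟨ρ x, hρ x hx0, e.injective (by rw [map_zero]; exact hx)⟩

end Pool.Agent.PS
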