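import Pool.Agent.P.MP_6c3c64_gt.A0
import Pool.Agent.P.MP_6c3c64_gt.A2

/-! Row A3. Small zeros of odd maps whose linear part is Fredholm of index one.
Write `L (ξ, y) = ξ • e + C y + K y`, `C` invertible with inverse `S`, `K` of finite rank,
`N = Φ - L` (odd, `N 0 = 0`, `η`-Lipschitz on the ball of radius `ρ ≤ ρ0`, `η * M ≤ 1 / 2`).
Let `U = range K ⊔ span {e}`. For `(ξ, v) ∈ ℝ × U` of norm `r` (small) the contraction
`y ↦ -S (v + N (ξ, y))` of the closed ball of radius `ρ` has a unique fixed point `y (ξ, v)`,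
Lipschitz and odd in `(ξ, v)`. The odd map `(ξ, v) ↦ K (y (ξ, v)) + ξ • e - v ∈ U` has a zero on
the sphere (`borsuk_ulam`); there `Φ (ξ, y) = 0`, and `(ξ, y) = 0` would force `v = 0`.
-/

set_option autoImplicit false

open Real BoundedContinuousFunction MeasureTheory Set Filter Topology
open scoped NNReal ENNReal

noncomputable section

namespace Pool.Agent.PS

theorem A3_fix {Y : Type} [NormedAddCommGroup Y] [CompleteSpace Y] (G : Y → Y) {ρ : ℝ}
    (hρ : 0 ≤ ρ) (hmap : ∀ y, ‖y‖ ≤ ρ → ‖G y‖ ≤ ρ)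
    (hlip : ∀ y y', ‖y‖ ≤ ρ → ‖y'‖ ≤ ρ → ‖G y - G y'‖ ≤ 1 / 2 * ‖y - y'‖) :
    ∃ y, ‖y‖ ≤ ρ ∧ G y = y := by
  have hsf : MapsTo G (Metric.closedBall (0 : Y) ρ) (Metric.closedBall 0 ρ) := fun y hy => by
    rw [mem_closedBall_zero_iff] at hy ⊢
    exact hmap y hy
  have hc : ContractingWith (1 / 2 : ℝ≥0) (hsf.restrict G _ _) := by
    refine ⟨by norm_num, LipschitzWith.of_dist_le_mul fun a b => ?_⟩
    rw [Subtype.dist_eq, Subtype.dist_eq, dist_eq_norm, dist_eq_norm]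
    have := hlip a b (mem_closedBall_zero_iff.1 a.2) (mem_closedBall_zero_iff.1 b.2)
    simpa using this
  obtain ⟨y, hy, hfix, -⟩ := ContractingWith.exists_fixedPoint'
    Metric.isClosed_closedBall.isComplete hsf hc (x := 0) (Metric.mem_closedBall_self hρ)
    (edist_ne_top _ _)
  exact ⟨y, mem_closedBall_zero_iff.1 hy, hfix⟩

theorem A3_param {Y : Type} [NormedAddCommGroup Y] [NormedSpace ℝ Y] [CompleteSpace Y]
    (N : ℝ × Y → Y) (S : Y →L[ℝ] Y) {M ρ : ℝ} (hM : 1 ≤ M) (hS : ‖S‖ ≤ M) (hρ : 0 < ρ)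
    (hodd : ∀ z, N (-z) = -N z)
    (hN : ∀ z z', ‖z‖ ≤ ρ → ‖z'‖ ≤ ρ → ‖N z - N z'‖ ≤ 1 / (2 * M) * ‖z - z'‖) :
    ∃ y : ℝ × Y → Y, (∀ p, ‖p‖ ≤ ρ / (2 * M) → ‖y p‖ ≤ ρ ∧ -S (p.2 + N (p.1, y p)) = y p) ∧
      ContinuousOn y (Metric.closedBall 0 (ρ / (2 * M))) ∧
      ∀ p, ‖p‖ ≤ ρ / (2 * M) → y (-p) = -y p := by
  have hM0 : 0 < M := by linarith
  have hN0 : N 0 = 0 := by
    have h := hodd 0
    rw [neg_zero] at h
    have h2 : (2 : ℝ) • N 0 = 0 := by rw [two_smul]; nth_rewrite 1 [h]; simp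
    simpa using h2
  have hr : ρ / (2 * M) ≤ ρ := div_le_self hρ.le (by linarith)
  have hpair : ∀ (p : ℝ × Y) (y : Y), ‖p‖ ≤ ρ / (2 * M) → ‖y‖ ≤ ρ → ‖(p.1, y)‖ ≤ ρ :=
    fun p y hp hy => by
      rw [Prod.norm_def]
      exact max_le ((norm_fst_le p).trans (hp.trans hr)) hy
  have hSle : ∀ w : Y, ‖S w‖ ≤ M * ‖w‖ := fun w =>
    (S.le_opNorm w).trans (mul_le_mul_of_nonneg_right hS (norm_nonneg _))
  have hest : ∀ (p p' : ℝ × Y) (y y' : Y), ‖p‖ ≤ ρ / (2 * M) → ‖p'‖ ≤ ρ / (2 * M) → ‖y‖ ≤ ρ →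
      ‖y'‖ ≤ ρ → ‖-S (p.2 + N (p.1, y)) - -S (p'.2 + N (p'.1, y'))‖ ≤
        (M + 1 / 2) * ‖p - p'‖ + 1 / 2 * ‖y - y'‖ := fun p p' y y' hp hp' hy hy' => by
    have h1 := hN _ _ (hpair p y hp hy) (hpair p' y' hp' hy')
    have h2 : ‖((p.1, y) : ℝ × Y) - (p'.1, y')‖ ≤ ‖p - p'‖ + ‖y - y'‖ := by
      rw [Prod.norm_def]
      refine max_le ?_ ?_
      · have := norm_fst_le (p - p')
        simp only [Prod.fst_sub] at this ⊢
        linarith [norm_nonneg (y - y')]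
      · simp only [Prod.snd_sub]
        linarith [norm_nonneg (p - p')]
    have h3 : ‖p.2 - p'.2‖ ≤ ‖p - p'‖ := norm_snd_le (p - p')
    have e1 : -S (p.2 + N (p.1, y)) - -S (p'.2 + N (p'.1, y')) =
        -S ((p.2 - p'.2) + (N (p.1, y) - N (p'.1, y'))) := by
      simp only [map_add, map_sub]
      abel
    rw [e1, norm_neg]
    refine (hSle _).trans ?_
    have h4 : ‖(p.2 - p'.2) + (N (p.1, y) - N (p'.1, y'))‖ ≤
        ‖p - p'‖ + 1 / (2 * M) * (‖p - p'‖ + ‖y - y'‖) :=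
      (norm_add_le _ _).trans (add_le_add h3
        (h1.trans (mul_le_mul_of_nonneg_left h2 (by positivity))))
    refine (mul_le_mul_of_nonneg_left h4 hM0.le).trans (le_of_eq ?_)
    field_simp
    ring
  have hex : ∀ p : ℝ × Y, ∃ y : Y, ‖p‖ ≤ ρ / (2 * M) →
      ‖y‖ ≤ ρ ∧ -S (p.2 + N (p.1, y)) = y := fun p => by
    by_cases hp : ‖p‖ ≤ ρ / (2 * M)
    · obtain ⟨y, hy, hfix⟩ := A3_fix (fun y => -S (p.2 + N (p.1, y))) hρ.le (fun y hy => by
        have h1 := hN _ 0 (hpair p y hp hy) (by simpa using hρ.le)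
        rw [hN0, sub_zero, sub_zero] at h1
        have h2 := hpair p y hp hy
        have h3 : ‖p.2‖ ≤ ρ / (2 * M) := (norm_snd_le p).trans hp
        have h4 : ‖p.2 + N (p.1, y)‖ ≤ ρ / (2 * M) + 1 / (2 * M) * ρ :=
          (norm_add_le _ _).trans (add_le_add h3
            (h1.trans (mul_le_mul_of_nonneg_left h2 (by positivity))))
        rw [norm_neg]
        refine (hSle _).trans ((mul_le_mul_of_nonneg_left h4 hM0.le).trans (le_of_eq ?_))
        field_simp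
        ring) (fun y y' hy hy' => by
        have := hest p p y y' hp hp hy hy'
        simpa using this)
      exact ⟨y, fun _ => ⟨hy, hfix⟩⟩
    · exact ⟨0, fun h => absurd h hp⟩
  choose y hy using hex
  have hlip : ∀ (p p' : ℝ × Y) (a a' : Y), ‖p‖ ≤ ρ / (2 * M) → ‖p'‖ ≤ ρ / (2 * M) → ‖a‖ ≤ ρ →
      ‖a'‖ ≤ ρ → -S (p.2 + N (p.1, a)) = a → -S (p'.2 + N (p'.1, a')) = a' →
      ‖a - a'‖ ≤ (2 * M + 1) * ‖p - p'‖ := fun p p' a a' hp hp' ha ha' e e' => by
    have := hest p p' a a' hp hp' ha ha'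
    rw [e, e'] at this
    linarith
  refine ⟨y, hy, ?_, fun p hp => ?_⟩
  · have : LipschitzOnWith (Real.toNNReal (2 * M + 1)) y (Metric.closedBall 0 (ρ / (2 * M))) := by
      refine LipschitzOnWith.of_dist_le_mul fun p hp p' hp' => ?_
      rw [mem_closedBall_zero_iff] at hp hp'
      rw [dist_eq_norm, dist_eq_norm, Real.coe_toNNReal _ (by positivity)]
      exact hlip p p' _ _ hp hp' (hy p hp).1 (hy p' hp').1 (hy p hp).2 (hy p' hp').2
    exact this.continuousOn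
  · have hp' : ‖-p‖ ≤ ρ / (2 * M) := by rwa [norm_neg]
    have e : -S ((-p).2 + N ((-p).1, -y p)) = -y p := by
      have h1 : N ((-p).1, -y p) = -N (p.1, y p) := hodd (p.1, y p)
      rw [h1, Prod.snd_neg, ← neg_add, map_neg, (hy p hp).2]
    have := hlip (-p) (-p) _ _ hp' hp' (hy _ hp').1 (by rw [norm_neg]; exact (hy p hp).1)
      (hy _ hp').2 e
    rw [sub_self, norm_zero, mul_zero] at this
    exact sub_eq_zero.1 (norm_le_zero_iff.1 this)

theorem exists_small_zero {Y : Type} [NormedAddCommGroup Y] [NormedSpace ℝ Y] [CompleteSpace Y]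
    (Φ : ℝ × Y → Y) (L : ℝ × Y →L[ℝ] Y) (hL : FI0 (L ∘L ContinuousLinearMap.inr ℝ ℝ Y))
    (hodd : ∀ z, Φ (-z) = -Φ z)
    (hN : ∀ η > 0, ∃ ρ > 0, ∀ z z', ‖z‖ ≤ ρ → ‖z'‖ ≤ ρ →
      ‖Φ z - Φ z' - L (z - z')‖ ≤ η * ‖z - z'‖) :
    ∀ ρ0 > 0, ∃ z, z ≠ 0 ∧ ‖z‖ ≤ ρ0 ∧ Φ z = 0 := by
  intro ρ0 hρ0
  obtain ⟨C, M0, ⟨S, -, hCS, -⟩, hK⟩ := hL
  set K := L ∘L ContinuousLinearMap.inr ℝ ℝ Y - C with hKdef
  set e : Y := L (1, 0) with he
  have hLeq : ∀ (ξ : ℝ) (y : Y), L (ξ, y) = ξ • e + C y + K y := fun ξ y => by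
    have h1 : ((ξ, y) : ℝ × Y) = ξ • ((1 : ℝ), (0 : Y)) + (0, y) := by simp
    rw [h1, map_add, map_smul, hKdef]
    simp [he]
  set M := ‖S‖ + 1 with hMdef
  have hM : 1 ≤ M := by linarith [norm_nonneg S]
  obtain ⟨ρ1, hρ1, h1⟩ := hN (1 / (2 * M)) (by positivity)
  set ρ := min ρ1 ρ0 with hρdef
  have hρ : 0 < ρ := lt_min hρ1 hρ0
  obtain ⟨y, hy, hyc, hyo⟩ := A3_param (fun z => Φ z - L z) S hM (by linarith) hρ
    (fun z => by simp only [hodd, map_neg]; abel)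
    (fun z z' hz hz' => by
      have := h1 z z' (hz.trans (min_le_left _ _)) (hz'.trans (min_le_left _ _))
      rw [map_sub] at this
      have e1 : Φ z - L z - (Φ z' - L z') = Φ z - Φ z' - (L z - L z') := by abel
      simpa only [e1] using this)
  let U : Submodule ℝ Y := LinearMap.range K.toLinearMap ⊔ Submodule.span ℝ {e}
  have : FiniteDimensional ℝ (LinearMap.range K.toLinearMap) := hK
  have : FiniteDimensional ℝ U := Submodule.finiteDimensional_sup _ _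
  have hmem : ∀ (ξ : ℝ) (w : Y), K w + ξ • e ∈ U := fun ξ w =>
    Submodule.add_mem_sup (LinearMap.mem_range_self K.toLinearMap w)
      (Submodule.smul_mem _ _ (Submodule.mem_span_singleton_self e))
  let j : ℝ × U → ℝ × Y := fun p => (p.1, (p.2 : Y))
  have hj : ∀ p, ‖j p‖ = ‖p‖ := fun p => rfl
  have hjc : Continuous j := by fun_prop
  have hr : 0 < ρ / (2 * M) := by positivity
  let f : ℝ × U → U := fun p => ⟨K (y (j p)) + p.1 • e, hmem _ _⟩ - p.2
  have hsph : ∀ p ∈ Metric.sphere (0 : ℝ × U) (ρ / (2 * M)), ‖j p‖ ≤ ρ / (2 * M) := fun p hp => by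
    rw [hj, mem_sphere_zero_iff_norm.1 hp]
  obtain ⟨p, hp, hfp⟩ := borsuk_ulam (E := ℝ × U) (F := U) (by simp) f hr (by
      refine ContinuousOn.sub ?_ continuous_snd.continuousOn
      rw [Topology.IsInducing.subtypeVal.continuousOn_iff]
      refine ContinuousOn.add (K.continuous.comp_continuousOn
        (hyc.comp hjc.continuousOn fun p hp => mem_closedBall_zero_iff.2 (hsph p hp))) ?_
      exact (continuous_fst.smul continuous_const).continuousOn)
    (fun p hp => by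
      have h2 : y (j (-p)) = -y (j p) := hyo (j p) (hsph p hp)
      apply Subtype.ext
      simp only [f, h2, map_neg, Prod.fst_neg, Prod.snd_neg, AddSubgroupClass.coe_sub,
        NegMemClass.coe_neg, neg_smul]
      abel)
  have hv : K (y (j p)) + p.1 • e = (p.2 : Y) := by
    have := congrArg Subtype.val hfp
    simpa only [f, AddSubgroupClass.coe_sub, ZeroMemClass.coe_zero, sub_eq_zero] using this
  obtain ⟨hyb, hfix⟩ := hy (j p) (hsph p hp)
  refine ⟨(p.1, y (j p)), fun h0 => ?_, ?_, ?_⟩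
  · have h2 : p.1 = 0 := congrArg Prod.fst h0
    have h3 : y (j p) = 0 := congrArg Prod.snd h0
    have h4 : p.2 = 0 := by
      apply Subtype.ext
      rw [← hv, h2, h3]
      simp
    have h5 : p = 0 := Prod.ext h2 h4
    rw [h5, mem_sphere_zero_iff_norm, norm_zero] at hp
    exact hr.ne hp
  · rw [Prod.norm_def]
    refine max_le ?_ (hyb.trans (min_le_right _ _))
    refine ((norm_fst_le (j p)).trans (hsph p hp)).trans ?_
    exact (div_le_self hρ.le (by linarith)).trans (min_le_right _ _)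
  · have h2 : C (y (j p)) = -((p.2 : Y) + (Φ (p.1, y (j p)) - L (p.1, y (j p)))) := by
      have h3 := congrArg C hfix
      rw [map_neg] at h3
      have h4 : ∀ w, C (S w) = w := fun w => by
        have := congrArg (fun T : Y →L[ℝ] Y => T w) hCS
        simpa using this
      rw [h4] at h3
      exact h3.symm
    have h5 := hLeq p.1 (y (j p))
    rw [h2, ← hv] at h5
    have h6 : Φ (p.1, y (j p)) = L (p.1, y (j p)) - (p.1 • e +
        -(K (y (j p)) + p.1 • e + (Φ (p.1, y (j p)) - L (p.1, y (j p)))) + K (y (j p))) := by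
      abel
    rw [← h5, sub_self] at h6
    exact h6

end Pool.Agent.PS
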