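import Pool.Agent.P.MP_6c3c64_gt.A0

/-! Row A4. Diagonal operators on `ℓ¹`, and inversion by renorming.
`FI0_diag`: `‖Sj j‖ ≤ ‖S‖`. Put `C j = Sj j` for `j ≥ j0` and the invertible part of `Sj j` for
`j < j0`; uniformly bounded families define diagonal operators on `YY` (`exists_diag`);
`S - diag C = ∑ j < j0, single j ∘ (Sj j - C j) ∘ eval j` has finite rank.
`renorm`: reduce to `0 ≤ κ, ϱ, C, C0`; with `N y = ‖y‖ + Λ q y`, `ϱ + C / Λ < 1`, one has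
`N (T y) ≤ θ N y`, `θ = max κ (ϱ + C / Λ)`, so `‖T ^ k‖ ≤ (1 + Λ C0) θ ^ k` and
`∑ (-T) ^ k` inverts `1 + T`.
-/

set_option autoImplicit false

open Real BoundedContinuousFunction MeasureTheory Set Filter Topology
open scoped NNReal ENNReal

noncomputable section

namespace Pool.Agent.PS

theorem A4_hasSum (y : YY) : HasSum (fun j => ‖y j‖) ‖y‖ := by
  simpa using lp.hasSum_norm (p := 1) (by simp) y

theorem A4_summ {T : ℕ → Y0 →L[ℝ] Y0} {M : ℝ} (h : ∀ j, ‖T j‖ ≤ M) (y : YY) :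
    Summable fun j => ‖T j (y j)‖ :=
  Summable.of_nonneg_of_le (fun _ => norm_nonneg _) (fun j => (T j).le_of_opNorm_le (h j) _)
    ((A4_hasSum y).summable.mul_left M)

def A4_lin (T : ℕ → Y0 →L[ℝ] Y0) {M : ℝ} (h : ∀ j, ‖T j‖ ≤ M) : YY →ₗ[ℝ] YY where
  toFun y := ⟨fun j => T j (y j), memℓp_gen (by simpa using A4_summ h y)⟩
  map_add' y z := lp.ext (funext fun j => (T j).map_add (y j) (z j))
  map_smul' c y := lp.ext (funext fun j => (T j).map_smul c (y j))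

theorem exists_diag (T : ℕ → Y0 →L[ℝ] Y0) (M : ℝ) (h : ∀ j, ‖T j‖ ≤ M) :
    ∃ S : YY →L[ℝ] YY, (∀ y j, S y j = T j (y j)) ∧ ‖S‖ ≤ M := by
  have hb : ∀ y, ‖A4_lin T h y‖ ≤ M * ‖y‖ := fun y =>
    hasSum_le (fun j => (T j).le_of_opNorm_le (h j) (y j)) (A4_hasSum (A4_lin T h y))
      ((A4_hasSum y).mul_left M)
  exact ⟨(A4_lin T h).mkContinuous M hb, fun _ _ => rfl,
    LinearMap.mkContinuous_norm_le _ ((T 0).opNorm_nonneg.trans (h 0)) hb⟩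

theorem A4_bound {a : ℕ → ℝ} (ha : ∀ j, 0 ≤ a j) {j0 : ℕ} {M : ℝ} (h : ∀ j, j0 ≤ j → a j ≤ M)
    (j : ℕ) : a j ≤ |M| + ∑ i ∈ Finset.range j0, a i := by
  have h0 : 0 ≤ ∑ i ∈ Finset.range j0, a i := Finset.sum_nonneg fun i _ => ha i
  by_cases hj : j0 ≤ j
  · linarith [h j hj, le_abs_self M]
  · have := Finset.single_le_sum (fun i _ => ha i) (Finset.mem_range.2 (not_le.1 hj))
    linarith [abs_nonneg M]

theorem FI0_diag (S : YY →L[ℝ] YY) (Sj : ℕ → Y0 →L[ℝ] Y0) (h : ∀ y j, S y j = Sj j (y j))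
    (h1 : ∀ j, FI0 (Sj j)) (j0 : ℕ) (M : ℝ) (h2 : ∀ j, j0 ≤ j → HasInv (Sj j) M) : FI0 S := by
  have hS : ∀ j, ‖Sj j‖ ≤ ‖S‖ := by
    intro j
    refine ContinuousLinearMap.opNorm_le_bound _ S.opNorm_nonneg fun v => ?_
    have e : Sj j v = S (lp.single 1 j v) j := by
      rw [h, lp.single_apply_self]
    rw [e]
    refine (lp.norm_apply_le_norm one_ne_zero _ j).trans ((S.le_opNorm _).trans ?_)
    rw [lp.norm_single one_pos]
  have hex : ∀ j, ∃ C D : Y0 →L[ℝ] Y0, D * C = 1 ∧ C * D = 1 ∧ FinRk (Sj j - C) ∧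
      (j0 ≤ j → C = Sj j ∧ ‖D‖ ≤ M) := by
    intro j
    by_cases hj : j0 ≤ j
    · obtain ⟨D, a, b, c⟩ := h2 j hj
      have e : Sj j - Sj j = 0 := ContinuousLinearMap.ext fun v => sub_self (Sj j v)
      exact ⟨Sj j, D, a, b, by rw [e]; exact FinRk.zero, fun _ => ⟨rfl, c⟩⟩
    · obtain ⟨C, M', ⟨D, a, b, -⟩, c⟩ := h1 j
      exact ⟨C, D, a, b, c, fun h' => absurd h' hj⟩
  choose C D hDC hCD hF hj using hex
  obtain ⟨SC, hSC, -⟩ := exists_diag C _ (A4_bound (fun j => (C j).opNorm_nonneg) (j0 := j0)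
    (M := ‖S‖) fun j hj' => by rw [(hj j hj').1]; exact hS j)
  obtain ⟨SD, hSD, -⟩ := exists_diag D _ (A4_bound (fun j => (D j).opNorm_nonneg) (j0 := j0)
    (M := M) fun j hj' => (hj j hj').2)
  refine ⟨SC, ‖SD‖, ⟨SD, ?_, ?_, le_rfl⟩, ?_⟩
  · refine ContinuousLinearMap.ext fun y => lp.ext (funext fun j => ?_)
    show SD (SC y) j = y j
    rw [hSD, hSC]
    exact congrArg (fun A : Y0 →L[ℝ] Y0 => A (y j)) (hDC j)
  · refine ContinuousLinearMap.ext fun y => lp.ext (funext fun j => ?_)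
    show SC (SD y) j = y j
    rw [hSC, hSD]
    exact congrArg (fun A : Y0 →L[ℝ] Y0 => A (y j)) (hCD j)
  · have e : S - SC = ∑ i ∈ Finset.range j0,
        lp.singleContinuousLinearMap ℝ (fun _ : ℕ => Y0) 1 i ∘L
          ((Sj i - C i) ∘L lp.evalCLM ℝ (fun _ : ℕ => Y0) 1 i) := by
      refine ContinuousLinearMap.ext fun y => lp.ext (funext fun j => ?_)
      rw [_root_.sum_apply, lp.coeFn_sum, Finset.sum_apply]
      have e1 : ∀ i, ((lp.singleContinuousLinearMap ℝ (fun _ : ℕ => Y0) 1 i ∘L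
          ((Sj i - C i) ∘L lp.evalCLM ℝ (fun _ : ℕ => Y0) 1 i)) y) j =
          (Pi.single i (Sj i (y i) - C i (y i)) : ℕ → Y0) j := fun i => rfl
      have e2 : (S - SC) y j = Sj j (y j) - C j (y j) := by
        rw [← h, ← hSC]; rfl
      simp only [e1, e2, Finset.sum_pi_single, Finset.mem_range]
      split_ifs with hlt
      · rfl
      · rw [(hj j (not_lt.1 hlt)).1, sub_self]
    rw [e]
    exact FinRk.sum _ fun i _ => ((hF i).comp_right _).comp_left _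

theorem renorm (κ ϱ C C0 : ℝ) (hκ : κ < 1) (hϱ : ϱ < 1) : ∃ M : ℝ, ∀ (V : Type)
    [NormedAddCommGroup V] [NormedSpace ℝ V] [CompleteSpace V] (q : Seminorm ℝ V)
    (T : V →L[ℝ] V), (∀ y, q y ≤ C0 * ‖y‖) → (∀ y, ‖T y‖ ≤ κ * ‖y‖ + C * q y) →
    (∀ y, q (T y) ≤ ϱ * q y) → HasInv (1 + T) M := by
  obtain ⟨θ, hθ0, hθ1, hθκ, hθϱ⟩ : ∃ θ : ℝ, 0 ≤ θ ∧ θ < 1 ∧ κ ≤ θ ∧ (1 + ϱ) / 2 ≤ θ :=
    ⟨max 0 (max κ ((1 + ϱ) / 2)), le_max_left _ _,
      max_lt one_pos (max_lt hκ (by linarith)), (le_max_left _ _).trans (le_max_right _ _),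
      (le_max_right _ _).trans (le_max_right _ _)⟩
  obtain ⟨Λ, hΛ0, hΛ⟩ : ∃ Λ : ℝ, 0 ≤ Λ ∧ C + Λ * ϱ ≤ θ * Λ := by
    have h1 : 0 < 1 - ϱ := by linarith
    refine ⟨2 * |C| / (1 - ϱ), by positivity, ?_⟩
    have h2 : 2 * |C| / (1 - ϱ) * (1 - ϱ) = 2 * |C| := div_mul_cancel₀ _ h1.ne'
    have h3 : 0 ≤ 2 * |C| / (1 - ϱ) := by positivity
    have h4 := mul_le_mul_of_nonneg_right hθϱ h3
    nlinarith [le_abs_self C]
  refine ⟨(1 + Λ * |C0|) * (1 - θ)⁻¹, fun V _ _ _ q T h0 h1 h2 => ?_⟩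
  have hN : ∀ y, ‖T y‖ + Λ * q (T y) ≤ θ * (‖y‖ + Λ * q y) := by
    intro y
    have a1 := mul_le_mul_of_nonneg_left (h2 y) hΛ0
    have a2 := mul_le_mul_of_nonneg_right hΛ (apply_nonneg q y)
    have a3 := mul_le_mul_of_nonneg_right hθκ (norm_nonneg y)
    nlinarith [h1 y]
  have hk : ∀ (k : ℕ) y, ‖((-T) ^ k) y‖ + Λ * q (((-T) ^ k) y) ≤ θ ^ k * (‖y‖ + Λ * q y) := by
    intro k y
    induction k with
    | zero => simp
    | succ k ih =>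
      have e : ((-T) ^ (k + 1)) y = -T (((-T) ^ k) y) := by rw [pow_succ']; rfl
      rw [e, norm_neg, map_neg_eq_map, pow_succ', mul_assoc]
      exact (hN _).trans (mul_le_mul_of_nonneg_left ih hθ0)
  have hb : ∀ k : ℕ, ‖(-T) ^ k‖ ≤ (1 + Λ * |C0|) * θ ^ k := by
    intro k
    refine ContinuousLinearMap.opNorm_le_bound _ (by positivity) fun y => ?_
    have a1 : 0 ≤ Λ * q (((-T) ^ k) y) := mul_nonneg hΛ0 (apply_nonneg q _)
    have a2 : q y ≤ |C0| * ‖y‖ :=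
      (h0 y).trans (mul_le_mul_of_nonneg_right (le_abs_self _) (norm_nonneg _))
    have a3 := mul_le_mul_of_nonneg_left a2 hΛ0
    have a4 := mul_le_mul_of_nonneg_left a3 (pow_nonneg hθ0 k)
    nlinarith [hk k y]
  have hg := (hasSum_geometric_of_lt_one hθ0 hθ1).mul_left (1 + Λ * |C0|)
  have hs : Summable fun k : ℕ => (-T) ^ k := Summable.of_norm_bounded hg.summable hb
  refine ⟨∑' k : ℕ, (-T) ^ k, ?_, ?_, tsum_of_norm_bounded hg hb⟩
  · simpa using hs.tsum_pow_mul_one_sub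
  · simpa using hs.one_sub_mul_tsum_pow

end Pool.Agent.PS
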