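import Pool.Agent.P.MP_6c3c64_gt.ADefs

/-! The gauge of a smooth strictly convex body. -/

set_option autoImplicit false

namespace Pool.Agent.MMO

open Set
open scoped RealInnerProductSpace

/-- `V` is a positive 1-homogeneous function with gradient `y`, strictly convex across rays -/
structure Gauge (V : E3 → ℝ) (y : E3 → E3) : Prop where
  cont : Continuous V
  hom : ∀ c : ℝ, 0 ≤ c → ∀ x, V (c • x) = c * V x
  pos : ∀ x, x ≠ 0 → 0 < V x
  grad : ∀ x, x ≠ 0 → HasGradientAt V (y x) x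
  smooth : ContDiffOn ℝ 1 y {0}ᶜ
  conv : ∀ x, x ≠ 0 → ∀ w, w ≠ 0 → ⟪w, x⟫ = 0 → 0 < ⟪fderiv ℝ y x w, w⟫

variable {V : E3 → ℝ} {y : E3 → E3}

theorem aconv_dV (h : Gauge V y) {γ : ℝ → E3} {γ' : E3} {t : ℝ} (hγ : HasDerivAt γ γ' t)
    (h0 : γ t ≠ 0) : HasDerivAt (fun s => V (γ s)) ⟪y (γ t), γ'⟫ t := by
  have h1 := (hasGradientAt_iff_hasFDerivAt.1 (h.grad _ h0)).comp_hasDerivAt t hγ
  simpa [Function.comp_def] using h1

theorem aconv_diffy (h : Gauge V y) {x : E3} (hx : x ≠ 0) : DifferentiableAt ℝ y x :=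
  (h.smooth.contDiffAt (isOpen_compl_singleton.mem_nhds hx)).differentiableAt (by norm_num)

theorem aconv_dy (h : Gauge V y) {γ : ℝ → E3} {γ' : E3} {t : ℝ} (hγ : HasDerivAt γ γ' t)
    (h0 : γ t ≠ 0) : HasDerivAt (fun s => y (γ s)) (fderiv ℝ y (γ t) γ') t :=
  (aconv_diffy h h0).hasFDerivAt.comp_hasDerivAt t hγ

theorem aconv_ray (x : E3) (t : ℝ) : HasDerivAt (fun s : ℝ => s • x) x t := by
  simpa using (hasDerivAt_id t).smul_const x

theorem aconv_line (x w : E3) (t : ℝ) : HasDerivAt (fun s : ℝ => x + s • w) w t := by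
  simpa using (aconv_ray w t).const_add x

theorem aconv_zero (h : Gauge V y) : V 0 = 0 := by
  have := h.hom 0 le_rfl 0
  simpa using this

theorem aconv_nonneg (h : Gauge V y) (z : E3) : 0 ≤ V z := by
  by_cases hz : z = 0
  · rw [hz, aconv_zero h]
  · exact (h.pos z hz).le

theorem Gauge.euler (h : Gauge V y) (x : E3) (hx : x ≠ 0) : ⟪y x, x⟫ = V x := by
  have h1 := aconv_dV h (aconv_ray x 1) (by simpa using hx)
  have h2 : (fun s : ℝ => V (s • x)) =ᶠ[nhds 1] fun s => s * V x := by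
    filter_upwards [Ioi_mem_nhds (zero_lt_one' ℝ)] with s hs
    exact h.hom s (le_of_lt hs) x
  have h3 : HasDerivAt (fun s : ℝ => s * V x) (V x) 1 := by
    simpa using (hasDerivAt_id (1 : ℝ)).mul_const (V x)
  simpa using h1.unique (h3.congr_of_eventuallyEq h2)

theorem aconv_hom0 (h : Gauge V y) {c : ℝ} (hc : 0 < c) {x : E3} (hx : x ≠ 0) :
    y (c • x) = y x := by
  apply ext_inner_right ℝ
  intro w
  have h1 : HasDerivAt (fun s : ℝ => c • (x + s • w)) (c • w) 0 := (aconv_line x w 0).const_smul c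
  have h2 := aconv_dV h h1 (by simpa using ⟨hc.ne', hx⟩)
  have h3 := (aconv_dV h (aconv_line x w 0) (by simpa using hx)).const_mul c
  have h4 : (fun s : ℝ => V (c • (x + s • w))) = fun s : ℝ => c * V (x + s • w) := by
    funext s
    exact h.hom c hc.le _
  rw [h4] at h2
  have h5 := h2.unique h3
  simp only [zero_smul, add_zero, real_inner_smul_right] at h5
  exact mul_left_cancel₀ hc.ne' h5

theorem aconv_rad (h : Gauge V y) {x : E3} (hx : x ≠ 0) : fderiv ℝ y x x = 0 := by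
  have h1 := aconv_dy h (aconv_ray x 1) (by simpa using hx)
  have h2 : (fun s : ℝ => y (s • x)) =ᶠ[nhds 1] fun _ => y x := by
    filter_upwards [Ioi_mem_nhds (zero_lt_one' ℝ)] with s hs
    exact aconv_hom0 h hs hx
  have h3 := (hasDerivAt_const (1 : ℝ) (y x)).congr_of_eventuallyEq h2
  simpa using h1.unique h3

theorem aconv_tan (h : Gauge V y) {x : E3} (hx : x ≠ 0) (w : E3) : ⟪fderiv ℝ y x w, x⟫ = 0 := by
  have hl := aconv_line x w 0
  have h0 : x + (0 : ℝ) • w ≠ 0 := by simpa using hx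
  have h1 := (aconv_dy h hl h0).inner ℝ hl
  have h2 := aconv_dV h hl h0
  have h3 : (fun s : ℝ => ⟪y (x + s • w), x + s • w⟫) =ᶠ[nhds 0] fun s : ℝ => V (x + s • w) := by
    filter_upwards [hl.continuousAt.eventually_ne h0] with s hs
    exact h.euler _ hs
  have h4 := h1.unique (h2.congr_of_eventuallyEq h3)
  simp only [zero_smul, add_zero] at h4
  linarith

theorem aconv_psd (h : Gauge V y) {x : E3} (hx : x ≠ 0) (w : E3) : 0 ≤ ⟪fderiv ℝ y x w, w⟫ := by
  have hxx : ⟪x, x⟫ ≠ 0 := by simpa using hx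
  obtain ⟨c, hc⟩ : ∃ c : ℝ, c = ⟪w, x⟫ / ⟪x, x⟫ := ⟨_, rfl⟩
  obtain ⟨u, hu⟩ : ∃ u : E3, u = w - c • x := ⟨_, rfl⟩
  have hw : w = u + c • x := by rw [hu]; abel
  have hux : ⟪u, x⟫ = 0 := by
    rw [hu, inner_sub_left, real_inner_smul_left, hc, div_mul_cancel₀ _ hxx, sub_self]
  have e1 : fderiv ℝ y x w = fderiv ℝ y x u := by
    rw [hw, map_add, map_smul, aconv_rad h hx, smul_zero, add_zero]
  have e2 : ⟪fderiv ℝ y x u, w⟫ = ⟪fderiv ℝ y x u, u⟫ := by
    rw [hw, inner_add_right, real_inner_smul_right, aconv_tan h hx, mul_zero, add_zero]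
  rw [e1, e2]
  by_cases hu0 : u = 0
  · simp [hu0]
  · exact (h.conv x hx u hu0 hux).le

theorem Gauge.support (h : Gauge V y) (x : E3) (hx : x ≠ 0) (z : E3) : ⟪y x, z⟫ ≤ V z := by
  by_cases hseg : ∃ s ∈ Icc (0 : ℝ) 1, x + s • (z - x) = 0
  · obtain ⟨s, ⟨hs0, hs1⟩, hs⟩ := hseg
    have hspos : 0 < s := by
      rcases hs0.eq_or_lt with h0 | h0
      · rw [← h0] at hs
        exact absurd (by simpa using hs) hx
      · exact h0
    have h1 : ⟪y x, x + s • (z - x)⟫ = 0 := by rw [hs, inner_zero_right]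
    rw [inner_add_right, real_inner_smul_right, inner_sub_right, h.euler x hx] at h1
    have h2 := h.pos x hx
    have h3 := aconv_nonneg h z
    have h4 : s * ⟪y x, z⟫ ≤ 0 := by nlinarith
    have h5 : ⟪y x, z⟫ ≤ 0 := by
      by_contra h6
      have := mul_pos hspos (not_le.1 h6)
      linarith
    linarith
  · have hne : ∀ s ∈ Icc (0 : ℝ) 1, x + s • (z - x) ≠ 0 := fun s hs h0 => hseg ⟨s, hs, h0⟩
    have d1 : ∀ s ∈ Icc (0 : ℝ) 1, HasDerivAt (fun s : ℝ => V (x + s • (z - x)))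
        ⟪y (x + s • (z - x)), z - x⟫ s := fun s hs => aconv_dV h (aconv_line x (z - x) s) (hne s hs)
    have d2 : ∀ s ∈ Icc (0 : ℝ) 1, HasDerivAt (fun s : ℝ => ⟪y (x + s • (z - x)), z - x⟫)
        ⟪fderiv ℝ y (x + s • (z - x)) (z - x), z - x⟫ s := by
      intro s hs
      have := (aconv_dy h (aconv_line x (z - x) s) (hne s hs)).inner ℝ (hasDerivAt_const s (z - x))
      simpa using this
    obtain ⟨ξ, hξ, e1⟩ := exists_hasDerivAt_eq_slope (fun s : ℝ => V (x + s • (z - x)))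
      (fun s => ⟪y (x + s • (z - x)), z - x⟫) zero_lt_one
      (fun s hs => (d1 s hs).continuousAt.continuousWithinAt)
      (fun s hs => d1 s (Ioo_subset_Icc_self hs))
    have hsub : Icc (0 : ℝ) ξ ⊆ Icc (0 : ℝ) 1 := Icc_subset_Icc_right hξ.2.le
    obtain ⟨η, hη, e2⟩ := exists_hasDerivAt_eq_slope (fun s : ℝ => ⟪y (x + s • (z - x)), z - x⟫)
      (fun s => ⟪fderiv ℝ y (x + s • (z - x)) (z - x), z - x⟫) hξ.1
      (fun s hs => (d2 s (hsub hs)).continuousAt.continuousWithinAt)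
      (fun s hs => d2 s (hsub (Ioo_subset_Icc_self hs)))
    have h1 := aconv_psd h (hne η (hsub (Ioo_subset_Icc_self hη))) (z - x)
    rw [e2, sub_zero, le_div_iff₀ hξ.1, zero_mul, e1] at h1
    simp only [zero_smul, add_zero, one_smul, add_sub_cancel, sub_zero, div_one] at h1
    rw [inner_sub_right, h.euler x hx] at h1
    linarith

theorem Gauge.isCompact (h : Gauge V y) : IsCompact {x | V x ≤ 1} := by
  have hcl : IsClosed {x | V x ≤ 1} := isClosed_le h.cont continuous_const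
  have hne : (Metric.sphere (0 : E3) 1).Nonempty := NormedSpace.sphere_nonempty.2 zero_le_one
  obtain ⟨u, hu, hmin⟩ := (isCompact_sphere (0 : E3) 1).exists_isMinOn hne h.cont.continuousOn
  have hu0 : u ≠ 0 := by
    rintro rfl
    simp at hu
  have hm := h.pos u hu0
  refine Metric.isCompact_of_isClosed_isBounded hcl ?_
  refine (Metric.isBounded_closedBall (x := (0 : E3)) (r := (V u)⁻¹)).subset ?_
  intro x hx
  rw [mem_closedBall_zero_iff]
  by_cases hx0 : x = 0
  · rw [hx0, norm_zero]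
    positivity
  · have hn : 0 < ‖x‖ := norm_pos_iff.2 hx0
    have h1 : ‖x‖⁻¹ • x ∈ Metric.sphere (0 : E3) 1 := by
      rw [mem_sphere_zero_iff_norm, norm_smul, norm_inv, norm_norm, inv_mul_cancel₀ hn.ne']
    have h2 : V u ≤ V (‖x‖⁻¹ • x) := hmin h1
    rw [h.hom _ (inv_nonneg.2 hn.le)] at h2
    have h3 : V x ≤ 1 := hx
    have h4 : V u ≤ ‖x‖⁻¹ := h2.trans (mul_le_of_le_one_right (inv_nonneg.2 hn.le) h3)
    exact (le_inv_comm₀ hn hm).2 h4

theorem Gauge.convex (h : Gauge V y) : Convex ℝ {x | V x ≤ 1} := by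
  intro p hp q hq a b ha hb hab
  have hp1 : V p ≤ 1 := hp
  have hq1 : V q ≤ 1 := hq
  show V (a • p + b • q) ≤ 1
  by_cases hm : a • p + b • q = 0
  · rw [hm, aconv_zero h]
    exact zero_le_one
  · have h1 := h.euler _ hm
    have h2 := h.support _ hm p
    have h3 := h.support _ hm q
    rw [← h1]
    generalize y (a • p + b • q) = n at h2 h3
    rw [inner_add_right, real_inner_smul_right, real_inner_smul_right]
    have h4 := mul_le_mul_of_nonneg_left (h2.trans hp1) ha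
    have h5 := mul_le_mul_of_nonneg_left (h3.trans hq1) hb
    linarith

theorem Gauge.mem_interior (h : Gauge V y) (z : E3) : z ∈ interior {x | V x ≤ 1} ↔ V z < 1 := by
  constructor
  · intro hz
    have h1 : ∀ᶠ s : ℝ in nhds 1, s • z ∈ {x | V x ≤ 1} := by
      apply (aconv_ray z 1).continuousAt.eventually_mem
      rw [one_smul]
      exact mem_interior_iff_mem_nhds.1 hz
    obtain ⟨s, hs1, hs2⟩ :=
      ((h1.filter_mono (nhdsWithin_le_nhds (s := Ioi 1))).and self_mem_nhdsWithin).exists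
    have hs3 : 1 < s := hs2
    have hs4 : V (s • z) ≤ 1 := hs1
    rw [h.hom s (by linarith)] at hs4
    by_contra h5
    have h6 := not_lt.1 h5
    nlinarith
  · intro hz
    have ho : IsOpen {x | V x < 1} := isOpen_lt h.cont continuous_const
    exact interior_maximal (fun x (hx : V x < 1) => (hx.le : V x ≤ 1)) ho hz

/-- the restriction of `V` to a great circle, and the field `y` along it -/
theorem Gauge.circle (h : Gauge V y) (g : O3) :
    ContDiff ℝ 2 (fun θ => V (g (circ θ))) ∧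
    (∀ θ, 0 < V (g (circ θ)) + deriv (deriv fun θ => V (g (circ θ))) θ) ∧
    ContDiff ℝ 1 (fun θ => g.symm (y (g (circ θ)))) ∧
    (∀ θ, g.symm (y (g (circ θ))) 0 =
        V (g (circ θ)) * Real.cos θ - deriv (fun θ => V (g (circ θ))) θ * Real.sin θ ∧
      g.symm (y (g (circ θ))) 1 =
        V (g (circ θ)) * Real.sin θ + deriv (fun θ => V (g (circ θ))) θ * Real.cos θ) ∧
    Gfun y g = ∫ θ in (0 : ℝ)..2 * Real.pi, g.symm (y (g (circ θ))) 2 *
      (V (g (circ θ)) * (V (g (circ θ)) + deriv (deriv fun θ => V (g (circ θ))) θ)) *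
      (√(V (g (circ θ)) ^ 2 + deriv (fun θ => V (g (circ θ))) θ ^ 2))⁻¹ ^ 3 := by
  obtain ⟨a, ha⟩ : ∃ a : E3, a = g (EuclideanSpace.single 0 1) := ⟨_, rfl⟩
  obtain ⟨b, hb⟩ : ∃ b : E3, b = g (EuclideanSpace.single 1 1) := ⟨_, rfl⟩
  have hc : ∀ θ, g (circ θ) = Real.cos θ • a + Real.sin θ • b := by
    intro θ
    rw [ha, hb, ← map_smul, ← map_smul, ← map_add]
    congr 1
    ext i
    fin_cases i <;> simp [circ]
  have c0 : ∀ w : E3, g.symm w 0 = ⟪w, a⟫ := by
    intro w
    rw [ha, ← g.symm.inner_map_map, g.symm_apply_apply, EuclideanSpace.inner_single_right]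
    simp
  have c1 : ∀ w : E3, g.symm w 1 = ⟪w, b⟫ := by
    intro w
    rw [hb, ← g.symm.inner_map_map, g.symm_apply_apply, EuclideanSpace.inner_single_right]
    simp
  have haa : ⟪a, a⟫ = 1 := by rw [← c0, ha, g.symm_apply_apply]; simp
  have hbb : ⟪b, b⟫ = 1 := by rw [← c1, hb, g.symm_apply_apply]; simp
  have hab : ⟪a, b⟫ = 0 := by rw [← c1, ha, g.symm_apply_apply]; simp
  have hba : ⟪b, a⟫ = 0 := by rw [real_inner_comm, hab]
  obtain ⟨τ, hτ⟩ : ∃ τ : ℝ → E3, τ = fun θ => (-Real.sin θ) • a + Real.cos θ • b := ⟨_, rfl⟩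
  have hτθ : ∀ θ, τ θ = (-Real.sin θ) • a + Real.cos θ • b := fun θ => by rw [hτ]
  have hcf : (fun θ => g (circ θ)) = fun θ => Real.cos θ • a + Real.sin θ • b := funext hc
  have dc : ∀ θ, HasDerivAt (fun θ => g (circ θ)) (τ θ) θ := by
    intro θ
    rw [hcf, hτθ]
    exact ((Real.hasDerivAt_cos θ).smul_const a).add ((Real.hasDerivAt_sin θ).smul_const b)
  have dτ : ∀ θ, HasDerivAt τ (-g (circ θ)) θ := by
    intro θ
    have e : -g (circ θ) = (-Real.cos θ) • a + (-Real.sin θ) • b := by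
      rw [hc, neg_add, neg_smul, neg_smul]
    rw [hτ, e]
    exact ((Real.hasDerivAt_sin θ).neg.smul_const a).add ((Real.hasDerivAt_cos θ).smul_const b)
  have hne : ∀ θ, g (circ θ) ≠ 0 := by
    intro θ h0
    have e : ⟪g (circ θ), g (circ θ)⟫ = 1 := by
      rw [hc]
      simp only [inner_add_left, inner_add_right, real_inner_smul_left, real_inner_smul_right,
        haa, hbb, hab, hba]
      nlinarith [Real.sin_sq_add_cos_sq θ]
    rw [h0, inner_zero_left] at e
    exact zero_ne_one e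
  have hτne : ∀ θ, τ θ ≠ 0 := by
    intro θ h0
    have e : ⟪τ θ, τ θ⟫ = 1 := by
      rw [hτθ]
      simp only [inner_add_left, inner_add_right, real_inner_smul_left, real_inner_smul_right,
        haa, hbb, hab, hba]
      nlinarith [Real.sin_sq_add_cos_sq θ]
    rw [h0, inner_zero_left] at e
    exact zero_ne_one e
  have hτc : ∀ θ, ⟪τ θ, g (circ θ)⟫ = 0 := by
    intro θ
    rw [hτθ, hc]
    simp only [inner_add_left, inner_add_right, real_inner_smul_left, real_inner_smul_right,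
      haa, hbb, hab, hba]
    ring
  have sc : ContDiff ℝ 1 (fun θ => g (circ θ)) := by
    rw [hcf]
    exact (Real.contDiff_cos.smul contDiff_const).add (Real.contDiff_sin.smul contDiff_const)
  have sτ : ContDiff ℝ 1 τ := by
    rw [hτ]
    exact (Real.contDiff_sin.neg.smul contDiff_const).add (Real.contDiff_cos.smul contDiff_const)
  have sy : ContDiff ℝ 1 (fun θ => y (g (circ θ))) := h.smooth.comp_contDiff sc hne
  have dv : ∀ θ, HasDerivAt (fun θ => V (g (circ θ))) ⟪y (g (circ θ)), τ θ⟫ θ :=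
    fun θ => aconv_dV h (dc θ) (hne θ)
  have ev : deriv (fun θ => V (g (circ θ))) = fun θ => ⟪y (g (circ θ)), τ θ⟫ :=
    funext fun θ => (dv θ).deriv
  have dy : ∀ θ, HasDerivAt (fun θ => y (g (circ θ))) (fderiv ℝ y (g (circ θ)) (τ θ)) θ :=
    fun θ => aconv_dy h (dc θ) (hne θ)
  have ev2 : ∀ θ, V (g (circ θ)) + deriv (deriv fun θ => V (g (circ θ))) θ =
      ⟪fderiv ℝ y (g (circ θ)) (τ θ), τ θ⟫ := by
    intro θ
    rw [ev, ((dy θ).inner ℝ (dτ θ)).deriv, inner_neg_right, h.euler _ (hne θ)]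
    ring
  have dY : ∀ θ, deriv (fun θ => g.symm (y (g (circ θ)))) θ =
      g.symm (fderiv ℝ y (g (circ θ)) (τ θ)) := fun θ =>
    (g.symm.toContinuousLinearEquiv.hasFDerivAt.comp_hasDerivAt θ (dy θ)).deriv
  have co : ∀ θ, g.symm (y (g (circ θ))) 0 =
        V (g (circ θ)) * Real.cos θ - deriv (fun θ => V (g (circ θ))) θ * Real.sin θ ∧
      g.symm (y (g (circ θ))) 1 =
        V (g (circ θ)) * Real.sin θ + deriv (fun θ => V (g (circ θ))) θ * Real.cos θ := by
    intro θ
    have e1 := h.euler _ (hne θ)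
    rw [c0, c1, (dv θ).deriv, ← e1, hτθ]
    generalize y (g (circ θ)) = n
    rw [hc]
    simp only [inner_add_right, real_inner_smul_right]
    have := Real.sin_sq_add_cos_sq θ
    constructor
    · linear_combination (-⟪n, a⟫) * this
    · linear_combination (-⟪n, b⟫) * this
  refine ⟨?_, ?_, ?_, co, ?_⟩
  · have e : (2 : WithTop ℕ∞) = 1 + 1 := by norm_num
    rw [e, contDiff_succ_iff_deriv]
    refine ⟨fun θ => (dv θ).differentiableAt, by simp, ?_⟩
    rw [ev]
    exact sy.inner ℝ sτ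
  · intro θ
    rw [ev2]
    exact h.conv _ (hne θ) _ (hτne θ) (hτc θ)
  · exact g.symm.toContinuousLinearEquiv.contDiff.comp sy
  · unfold Gfun circInt
    refine intervalIntegral.integral_congr fun θ _ => ?_
    have e0 := (co θ).1
    have e1 := (co θ).2
    have e2 := ev2 θ
    have e3 := aconv_tan h (hne θ) (τ θ)
    have hs := Real.sin_sq_add_cos_sq θ
    beta_reduce
    rw [dY, c0 (fderiv ℝ y (g (circ θ)) (τ θ)), c1 (fderiv ℝ y (g (circ θ)) (τ θ)), e0, e1, e2]
    generalize fderiv ℝ y (g (circ θ)) (τ θ) = n at e3 ⊢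
    generalize deriv (fun θ => V (g (circ θ))) θ = v1
    generalize V (g (circ θ)) = v
    generalize g.symm (y (g (circ θ))) 2 = σ
    rw [hc] at e3
    rw [hτθ]
    simp only [inner_add_right, real_inner_smul_right] at e3 ⊢
    have e4 : (v * Real.cos θ - v1 * Real.sin θ) ^ 2 + (v * Real.sin θ + v1 * Real.cos θ) ^ 2 =
        v ^ 2 + v1 ^ 2 := by linear_combination (v ^ 2 + v1 ^ 2) * hs
    have e5 : (v * Real.cos θ - v1 * Real.sin θ) * ⟪n, b⟫ -
        (v * Real.sin θ + v1 * Real.cos θ) * ⟪n, a⟫ =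
        v * (-Real.sin θ * ⟪n, a⟫ + Real.cos θ * ⟪n, b⟫) := by linear_combination (-v1) * e3
    rw [e4, e5]

end Pool.Agent.MMO
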