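import Pool.Agent.P.MP_6c3c64_gt.Pol

/-! The derivative of the perimeter of the central section, as an integral over a great circle. -/

set_option autoImplicit false

namespace Pool.Agent.MMO

noncomputable section

/-- the equator -/
def circ (θ : ℝ) : E3 := !₂[Real.cos θ, Real.sin θ, 0]

/-- the north pole -/
def e3 : E3 := !₂[0, 0, 1]

/-- the integral of the form `σ (y₀ dy₁ - y₁ dy₀) / ρ^3` along the curve `c = (y₀, y₁, σ)` -/
def circInt (c : ℝ → E3) : ℝ :=
  ∫ θ in (0 : ℝ)..2 * Real.pi,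
    c θ 2 * (c θ 0 * deriv c θ 1 - c θ 1 * deriv c θ 0) * (√(c θ 0 ^ 2 + c θ 1 ^ 2))⁻¹ ^ 3

/-- `circInt` of the field `y` along the great circle orthogonal to `g e3`, in the frame `g` -/
def Gfun (y : E3 → E3) (g : O3) : ℝ := circInt fun θ => g.symm (y (g (circ θ)))

/-- determinant of three vectors -/
def det3 (a b c : E3) : ℝ :=
  a 0 * (b 1 * c 2 - b 2 * c 1) - a 1 * (b 0 * c 2 - b 2 * c 0) + a 2 * (b 0 * c 1 - b 1 * c 0)

/-- the first variation of `circInt` at `c` in the direction `η` -/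
def varInt (c η : ℝ → E3) : ℝ :=
  -∫ θ in (0 : ℝ)..2 * Real.pi,
    det3 (c θ) (η θ) (deriv c θ) * (√(c θ 0 ^ 2 + c θ 1 ^ 2))⁻¹ ^ 3

end

end Pool.Agent.MMO
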