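import Pool.Agent.P.MP_6c3c64_gt.ADefs

/-! Lower bound for the Hausdorff measure of an injective C1 curve; the normal angle. -/

set_option autoImplicit false

namespace Pool.Agent.MMO

open Set MeasureTheory

private theorem aLower_chord (x : ℝ → E3) (hx : Continuous x) (t u : ℝ) (htu : t ≤ u)
    (g : StrongDual ℝ E3) (hg : ‖g‖ ≤ 1) :
    ENNReal.ofReal (g (x u) - g (x t)) ≤ Measure.hausdorffMeasure (1 : ℝ) (x '' Ico t u) := by
  have hL : LipschitzWith 1 g := by
    refine g.lipschitz.weaken ?_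
    exact_mod_cast hg
  have h1 := hL.hausdorffMeasure_image_le (d := 1) zero_le_one (x '' Ico t u)
  have h2 : Ico (g (x t)) (g (x u)) ⊆ g '' (x '' Ico t u) := by
    rw [image_image]
    exact intermediate_value_Ico htu (f := fun s => g (x s)) (by fun_prop)
  calc ENNReal.ofReal (g (x u) - g (x t)) = volume (Ico (g (x t)) (g (x u))) := by
        rw [Real.volume_Ico]
    _ ≤ volume (g '' (x '' Ico t u)) := measure_mono h2
    _ = Measure.hausdorffMeasure (1 : ℝ) (g '' (x '' Ico t u)) := by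
        rw [hausdorffMeasure_real]
    _ ≤ _ := by simpa using h1

private theorem aLower_local (x : ℝ → E3) (hx : ContDiff ℝ 1 x) (t ε : ℝ) (hε : 0 < ε) :
    ∃ δ > 0, ∀ u, t ≤ u → u < t + δ →
      ENNReal.ofReal (∫ θ in t..u, (‖deriv x θ‖ - ε)) ≤
        Measure.hausdorffMeasure (1 : ℝ) (x '' Ico t u) := by
  have hc : Continuous (deriv x) := hx.continuous_deriv le_rfl
  have hd : Differentiable ℝ x := hx.differentiable one_ne_zero
  obtain ⟨δ, hδ, h⟩ := Metric.continuous_iff.1 hc t (ε / 2) (by positivity)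
  obtain ⟨g, hg, hgt⟩ := exists_dual_vector'' ℝ (deriv x t)
  refine ⟨δ, hδ, fun u htu hu => le_trans (ENNReal.ofReal_le_ofReal ?_)
    (aLower_chord x hx.continuous t u htu g hg)⟩
  have e : ∫ θ in t..u, g (deriv x θ) = g (x u) - g (x t) := by
    refine intervalIntegral.integral_eq_sub_of_hasDerivAt (f := fun s => g (x s)) ?_ ?_
    · intro s _
      exact g.hasFDerivAt.comp_hasDerivAt s (hd s).hasDerivAt
    · exact (g.continuous.comp hc).intervalIntegrable _ _
  rw [← e]
  refine intervalIntegral.integral_mono_on htu ?_ ?_ ?_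
  · exact (hc.norm.sub continuous_const).intervalIntegrable _ _
  · exact (g.continuous.comp hc).intervalIntegrable _ _
  · intro s hs
    have h1 : ‖deriv x s - deriv x t‖ < ε / 2 := by
      rw [← dist_eq_norm]
      refine h s ?_
      rw [Real.dist_eq, abs_lt]
      constructor <;> linarith [hs.1, hs.2]
    have h2 : |g (deriv x s - deriv x t)| ≤ ‖deriv x s - deriv x t‖ := by
      have := g.le_opNorm (deriv x s - deriv x t)
      rw [Real.norm_eq_abs] at this
      nlinarith [norm_nonneg (deriv x s - deriv x t)]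
    have h3 : ‖deriv x s‖ - ‖deriv x t‖ ≤ ‖deriv x s - deriv x t‖ := norm_sub_norm_le _ _
    rw [map_sub, hgt, abs_le] at h2
    have h4 := h2.1
    simp only [RCLike.ofReal_real_eq_id, id] at h4
    linarith

private theorem aLower_eps (x : ℝ → E3) (hx : ContDiff ℝ 1 x) (a b : ℝ) (hab : a ≤ b)
    (hinj : InjOn x (Ico a b)) (ε : ℝ) (hε : 0 < ε) :
    ENNReal.ofReal (∫ θ in a..b, (‖deriv x θ‖ - ε)) ≤
      Measure.hausdorffMeasure (1 : ℝ) (x '' Ico a b) := by
  have hc : Continuous fun θ => ‖deriv x θ‖ - ε :=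
    (hx.continuous_deriv le_rfl).norm.sub continuous_const
  set F : ℝ → ℝ := fun u => ∫ θ in a..u, (‖deriv x θ‖ - ε) with hF
  set G : ℝ → ENNReal := fun u => Measure.hausdorffMeasure (1 : ℝ) (x '' Ico a u) with hG
  have hFc : Continuous F :=
    intervalIntegral.continuous_primitive (fun _ _ => hc.intervalIntegrable _ _) a
  have hGm : Monotone G := fun u u' h => measure_mono (image_mono (Ico_subset_Ico_right h))
  have hleft : ∀ t, a ≤ t → (∀ u, a ≤ u → u < t → ENNReal.ofReal (F u) ≤ G u) →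
      ENNReal.ofReal (F t) ≤ G t := by
    intro t hat h
    rcases hat.eq_or_lt with rfl | hlt
    · simp [hF]
    · have h1 : Filter.Tendsto (fun u => ENNReal.ofReal (F u)) (nhdsWithin t (Iio t))
          (nhds (ENNReal.ofReal (F t))) :=
        ((ENNReal.continuous_ofReal.comp hFc).tendsto t).mono_left nhdsWithin_le_nhds
      refine le_of_tendsto h1 ?_
      filter_upwards [Ioo_mem_nhdsLT hlt] with u hu
      exact (h u hu.1.le hu.2).trans (hGm hu.2.le)
  set s : Set ℝ := {t | ∀ u, a ≤ u → u < t → ENNReal.ofReal (F u) ≤ G u} with hs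
  have hcl : IsClosed s := by
    have : s = ⋂ u ∈ {u | a ≤ u ∧ ¬ ENNReal.ofReal (F u) ≤ G u}, Iic u := by
      ext t
      simp only [hs, mem_ofPred_eq, mem_iInter, mem_Iic]
      constructor
      · intro h u hu
        by_contra hlt
        exact hu.2 (h u hu.1 (not_le.1 hlt))
      · intro h u hu hut
        by_contra hn
        exact absurd (h u ⟨hu, hn⟩) (not_le.2 hut)
    rw [this]
    exact isClosed_biInter fun _ _ => isClosed_Iic
  have hb : b ∈ s := by
    refine (hcl.inter isClosed_Icc).mem_of_ge_of_forall_exists_gt ?_ hab ?_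
    · intro u h1 h2
      exact absurd h2 (not_lt.2 h1)
    · rintro t ⟨hts, hat, htb⟩
      have hP := hleft t hat hts
      obtain ⟨δ, hδ, hloc⟩ := aLower_local x hx t ε hε
      refine ⟨min b (t + δ), ?_, lt_min htb (by linarith), min_le_left _ _⟩
      intro u hau hu
      rcases lt_or_ge u t with h | h
      · exact hts u hau h
      have hub : u < b := hu.trans_le (min_le_left _ _)
      have hl := hloc u h (hu.trans_le (min_le_right _ _))
      have e1 : F u = F t + ∫ θ in t..u, (‖deriv x θ‖ - ε) :=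
        (intervalIntegral.integral_add_adjacent_intervals (hc.intervalIntegrable _ _)
          (hc.intervalIntegrable _ _)).symm
      have hsub : Ico t u ⊆ Ico a b := Ico_subset_Ico hat hub.le
      have hm : MeasurableSet (x '' Ico t u) :=
        measurableSet_Ico.image_of_continuousOn_injOn hx.continuous.continuousOn (hinj.mono hsub)
      have hdis : Disjoint (x '' Ico a t) (x '' Ico t u) := by
        rw [Set.disjoint_left]
        rintro _ ⟨p, hp, rfl⟩ ⟨q, hq, hpq⟩
        have := hinj (hsub hq) (Ico_subset_Ico_right htb.le hp) hpq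
        linarith [hp.2, hq.1]
      have e2 : G u = G t + Measure.hausdorffMeasure (1 : ℝ) (x '' Ico t u) := by
        simp only [hG]
        rw [← measure_union hdis hm, ← image_union, Ico_union_Ico_eq_Ico hat h]
      rw [e1, e2]
      exact ENNReal.ofReal_add_le.trans (add_le_add hP hl)
  exact hleft b hab hb


theorem length_lower (x : ℝ → E3) (hx : ContDiff ℝ 1 x) (a b : ℝ) (hab : a ≤ b)
    (hinj : InjOn x (Ico a b)) :
    ENNReal.ofReal (∫ θ in a..b, ‖deriv x θ‖) ≤
      Measure.hausdorffMeasure (1 : ℝ) (x '' Ico a b) := by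
  have hc : Continuous fun θ => ‖deriv x θ‖ := (hx.continuous_deriv le_rfl).norm
  have h1 : Filter.Tendsto (fun ε : ℝ => ENNReal.ofReal ((∫ θ in a..b, ‖deriv x θ‖) - (b - a) * ε))
      (nhdsWithin 0 (Ioi 0)) (nhds (ENNReal.ofReal (∫ θ in a..b, ‖deriv x θ‖))) := by
    have h2 : Continuous fun ε : ℝ =>
        ENNReal.ofReal ((∫ θ in a..b, ‖deriv x θ‖) - (b - a) * ε) :=
      ENNReal.continuous_ofReal.comp (by fun_prop)
    have h3 := (h2.tendsto 0).mono_left (nhdsWithin_le_nhds (s := Ioi 0))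
    simpa using h3
  refine le_of_tendsto h1 ?_
  filter_upwards [self_mem_nhdsWithin] with ε hε
  have h4 := aLower_eps x hx a b hab hinj ε hε
  rwa [intervalIntegral.integral_sub (hc.intervalIntegrable _ _)
    (continuous_const.intervalIntegrable _ _), intervalIntegral.integral_const, smul_eq_mul] at h4

theorem angle_lemma (v σ : ℝ → ℝ) (hv : ContDiff ℝ 2 v)
    (hper : Function.Periodic v (2 * Real.pi)) (hpos : ∀ θ, 0 < v θ)
    (hcv : ∀ θ, 0 < v θ + deriv (deriv v) θ) (hσ : Continuous σ)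
    (hG : ∫ θ in (0 : ℝ)..2 * Real.pi, σ θ * (v θ * (v θ + deriv (deriv v) θ)) *
      (√(v θ ^ 2 + deriv v θ ^ 2))⁻¹ ^ 3 = 0) (t : ℝ) :
    ∃ (a : ℝ) (b ϑ : ℝ → ℝ), Continuous b ∧
      (∀ α, √(v (ϑ α) ^ 2 + deriv v (ϑ α) ^ 2) * Real.cos α =
          v (ϑ α) * Real.cos (ϑ α) - deriv v (ϑ α) * Real.sin (ϑ α) ∧
        √(v (ϑ α) ^ 2 + deriv v (ϑ α) ^ 2) * Real.sin α =
          v (ϑ α) * Real.sin (ϑ α) + deriv v (ϑ α) * Real.cos (ϑ α) ∧
        b α * √(v (ϑ α) ^ 2 + deriv v (ϑ α) ^ 2) = 1 - σ (ϑ α) * t) ∧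
      ∫ α in a..a + 2 * Real.pi, b α =
        ∫ θ in (0 : ℝ)..2 * Real.pi, √(v θ ^ 2 + deriv v θ ^ 2) / v θ ^ 2 := by
  have hd1 : Differentiable ℝ v := hv.differentiable two_ne_zero
  have hv1 : ContDiff ℝ 1 (deriv v) := by
    have : ContDiff ℝ (1 + 1) v := by
      rw [one_add_one_eq_two]; exact hv
    exact this.deriv'
  have hd2 : Differentiable ℝ (deriv v) := hv1.differentiable one_ne_zero
  have hc0 : Continuous v := hv.continuous
  have hc1 : Continuous (deriv v) := hv1.continuous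
  have hc2 : Continuous (deriv (deriv v)) := hv1.continuous_deriv le_rfl
  have hper1 : deriv v (2 * Real.pi) = deriv v 0 := by
    have e : (fun θ => v (θ + 2 * Real.pi)) = v := funext hper
    have := deriv_comp_add_const v (2 * Real.pi) 0
    rw [e, zero_add] at this
    exact this.symm
  have hper0 : v (2 * Real.pi) = v 0 := by simpa using hper 0
  have hS : ∀ θ, 0 < v θ ^ 2 + deriv v θ ^ 2 := fun θ => by
    have := hpos θ
    positivity
  set ρ : ℝ → ℝ := fun θ => √(v θ ^ 2 + deriv v θ ^ 2) with hρ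
  have hρ0 : ∀ θ, 0 < ρ θ := fun θ => Real.sqrt_pos.2 (hS θ)
  have hρ2 : ∀ θ, ρ θ ^ 2 = v θ ^ 2 + deriv v θ ^ 2 := fun θ => Real.sq_sqrt (hS θ).le
  have hρc : Continuous ρ := by simp only [hρ]; fun_prop
  set al : ℝ → ℝ := fun θ => θ + Real.arctan (deriv v θ / v θ) with hal
  set al' : ℝ → ℝ := fun θ => v θ * (v θ + deriv (deriv v) θ) / ρ θ ^ 2 with hal'
  have hder : ∀ θ, HasDerivAt al (al' θ) θ := by
    intro θ
    have h1 := ((hd2 θ).hasDerivAt.fun_div (hd1 θ).hasDerivAt (hpos θ).ne').arctan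
    refine ((hasDerivAt_id' θ).fun_add h1).congr_deriv ?_
    have h2 := (hpos θ).ne'
    have h3 := (hS θ).ne'
    simp only [hal', hρ2]
    field_simp
    ring
  have hal'c : Continuous al' :=
    (hc0.mul (hc0.add hc2)).div (hρc.pow 2) fun θ => pow_ne_zero _ (hρ0 θ).ne'
  have halc : Continuous al := continuous_iff_continuousAt.2 fun θ => (hder θ).continuousAt
  have hmono : StrictMono al := by
    refine strictMono_of_deriv_pos fun θ => ?_
    rw [(hder θ).deriv]
    exact div_pos (mul_pos (hpos θ) (hcv θ)) (pow_pos (hρ0 θ) 2)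
  have hsurj : Function.Surjective al := by
    refine halc.surjective ?_ ?_
    · refine Filter.tendsto_atTop_mono (f := fun θ => θ + -(Real.pi / 2)) (fun θ => ?_)
        (Filter.tendsto_atTop_add_const_right _ _ Filter.tendsto_id)
      have := Real.neg_pi_div_two_lt_arctan (deriv v θ / v θ)
      simp only [hal]; linarith
    · refine Filter.tendsto_atBot_mono (f := fun θ => θ + Real.pi / 2) (fun θ => ?_)
        (Filter.tendsto_atBot_add_const_right _ _ Filter.tendsto_id)
      have := Real.arctan_lt_pi_div_two (deriv v θ / v θ)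
      simp only [hal]; linarith
  set E := hmono.orderIsoOfSurjective al hsurj with hE
  have hϑ1 : ∀ α, al (E.symm α) = α := fun α => E.apply_symm_apply α
  have hϑ2 : ∀ θ, E.symm (al θ) = θ := fun θ => E.symm_apply_apply θ
  have hϑc : Continuous E.symm := E.symm.continuous
  have hρe : ∀ θ, ρ θ = v θ * √(1 + (deriv v θ / v θ) ^ 2) := by
    intro θ
    have h2 := hpos θ
    rw [← Real.sqrt_sq h2.le, ← Real.sqrt_mul (sq_nonneg _), Real.sqrt_sq h2.le]
    simp only [hρ]
    congr 1
    field_simp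
  have htrig : ∀ θ, ρ θ * Real.cos (al θ) = v θ * Real.cos θ - deriv v θ * Real.sin θ ∧
      ρ θ * Real.sin (al θ) = v θ * Real.sin θ + deriv v θ * Real.cos θ := by
    intro θ
    have h2 := (hpos θ).ne'
    have h3 : √(1 + (deriv v θ / v θ) ^ 2) ≠ 0 := (Real.sqrt_pos.2 (by positivity)).ne'
    simp only [hal]
    rw [Real.cos_add, Real.sin_add, Real.cos_arctan, Real.sin_arctan, hρe]
    generalize √(1 + (deriv v θ / v θ) ^ 2) = w at h3
    constructor <;> field_simp
  have hb0 : Continuous fun θ => (1 - σ θ * t) / ρ θ :=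
    (continuous_const.sub (hσ.mul continuous_const)).div hρc fun θ => (hρ0 θ).ne'
  refine ⟨al 0, fun α => (1 - σ (E.symm α) * t) / ρ (E.symm α), E.symm, hb0.comp hϑc, ?_, ?_⟩
  · intro α
    have h := htrig (E.symm α)
    rw [hϑ1] at h
    exact ⟨h.1, h.2, div_mul_cancel₀ _ (hρ0 _).ne'⟩
  · have e0 : al 0 + 2 * Real.pi = al (2 * Real.pi) := by
      simp only [hal, hper0, hper1]; ring
    have hbc : Continuous fun α => (1 - σ (E.symm α) * t) / ρ (E.symm α) := hb0.comp hϑc
    rw [e0, ← intervalIntegral.integral_comp_mul_deriv (fun θ _ => hder θ) hal'c.continuousOn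
      hbc]
    have hρd : ∀ θ, HasDerivAt ρ
        ((2 * v θ * deriv v θ + 2 * deriv v θ * deriv (deriv v) θ) / (2 * ρ θ)) θ := by
      intro θ
      have h1 := (((hd1 θ).hasDerivAt.fun_pow 2).fun_add ((hd2 θ).hasDerivAt.fun_pow 2)).sqrt
        (hS θ).ne'
      refine h1.congr_deriv ?_
      simp [hρ]
    have hA : Continuous fun θ => v θ * (v θ + deriv (deriv v) θ) * (ρ θ)⁻¹ ^ 3 :=
      (hc0.mul (hc0.add hc2)).mul ((hρc.inv₀ fun θ => (hρ0 θ).ne').pow 3)
    have hB : Continuous fun θ => ρ θ / v θ ^ 2 :=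
      hρc.div (hc0.pow 2) fun θ => pow_ne_zero _ (hpos θ).ne'
    have hC : Continuous fun θ => σ θ * (v θ * (v θ + deriv (deriv v) θ)) * (ρ θ)⁻¹ ^ 3 :=
      (hσ.mul (hc0.mul (hc0.add hc2))).mul ((hρc.inv₀ fun θ => (hρ0 θ).ne').pow 3)
    have e1 : ∫ θ in (0 : ℝ)..2 * Real.pi,
        (v θ * (v θ + deriv (deriv v) θ) * (ρ θ)⁻¹ ^ 3 - ρ θ / v θ ^ 2) = 0 := by
      rw [intervalIntegral.integral_eq_sub_of_hasDerivAt
        (f := fun θ => deriv v θ / (v θ * ρ θ)) ?_ ((hA.fun_sub hB).intervalIntegrable _ _)]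
      · simp only [hρ, hper0, hper1, sub_self]
      · intro θ _
        have h1 := (hd2 θ).hasDerivAt.fun_div ((hd1 θ).hasDerivAt.fun_mul (hρd θ))
          (mul_pos (hpos θ) (hρ0 θ)).ne'
        refine h1.congr_deriv ?_
        have h2 := (hpos θ).ne'
        have h3 := (hρ0 θ).ne'
        have h4 := hρ2 θ
        generalize ρ θ = r at h3 h4 ⊢
        generalize deriv (deriv v) θ = w2
        generalize deriv v θ = w1 at h4 ⊢
        generalize v θ = w0 at h2 h4 ⊢
        field_simp
        linear_combination (w0 * w2 + r ^ 2 + w0 ^ 2) * h4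
    rw [intervalIntegral.integral_sub (hA.intervalIntegrable _ _) (hB.intervalIntegrable _ _),
      sub_eq_zero] at e1
    have e2 : ∀ θ, ((fun α => (1 - σ (E.symm α) * t) / ρ (E.symm α)) ∘ al) θ * al' θ =
        v θ * (v θ + deriv (deriv v) θ) * (ρ θ)⁻¹ ^ 3 -
          t * (σ θ * (v θ * (v θ + deriv (deriv v) θ)) * (ρ θ)⁻¹ ^ 3) := by
      intro θ
      have h3 := (hρ0 θ).ne'
      simp only [Function.comp, hϑ2, hal']
      field_simp
    simp only [e2]
    rw [intervalIntegral.integral_sub (hA.intervalIntegrable _ _)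
      ((continuous_const.fun_mul hC).intervalIntegrable _ _), intervalIntegral.integral_const_mul, hG,
      e1]
    simp [hρ]

end Pool.Agent.MMO
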