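import Pool.Agent.P.MP_6c3c64_gt.AUpper
import Pool.Agent.P.MP_6c3c64_gt.ALower
import Pool.Agent.P.MP_6c3c64_gt.AConv

/-! A non even gauge with vanishing `Gfun` is a counterexample. -/

set_option autoImplicit false

namespace Pool.Agent.MMO

open Set MeasureTheory
open scoped RealInnerProductSpace

theorem amain_inner (a b : E3) : ⟪a, b⟫ = a 0 * b 0 + a 1 * b 1 + a 2 * b 2 := by
  simp only [PiLp.inner_apply, Fin.sum_univ_three, RCLike.inner_apply, conj_trivial]
  ring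

theorem amain_inner_g (g : O3) (a b : E3) : ⟪a, b⟫ =
    g.symm a 0 * g.symm b 0 + g.symm a 1 * g.symm b 1 + g.symm a 2 * g.symm b 2 := by
  rw [← amain_inner, LinearIsometryEquiv.inner_map_map]

theorem amain_e3 (g : O3) (a : E3) : ⟪a, g e3⟫ = g.symm a 2 := by
  rw [amain_inner_g g, LinearIsometryEquiv.symm_apply_apply]
  simp [e3]

theorem amain_circ (g : O3) (a : E3) (α : ℝ) :
    ⟪a, g (circ α)⟫ = g.symm a 0 * Real.cos α + g.symm a 1 * Real.sin α := by
  rw [amain_inner_g g, LinearIsometryEquiv.symm_apply_apply]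
  simp [circ]

theorem amain_norm_circ (θ : ℝ) : ‖circ θ‖ = 1 := by
  have : ‖circ θ‖ ^ 2 = 1 := by
    rw [← real_inner_self_eq_norm_sq, amain_inner]
    simp [circ]
    nlinarith [Real.sin_sq_add_cos_sq θ]
  have h0 := norm_nonneg (circ θ)
  nlinarith

theorem amain_circ_ne (g : O3) (θ : ℝ) : g (circ θ) ≠ 0 := by
  intro h
  have := g.norm_map (circ θ)
  rw [h, amain_norm_circ, norm_zero] at this
  exact zero_ne_one this

theorem amain_circ_eq (θ : ℝ) :
    circ θ = Real.cos θ • (!₂[1, 0, 0] : E3) + Real.sin θ • (!₂[0, 1, 0] : E3) := by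
  ext i
  fin_cases i <;> simp [circ]

theorem amain_circ_smooth : ContDiff ℝ 1 circ := by
  have : circ = fun θ =>
      Real.cos θ • (!₂[1, 0, 0] : E3) + Real.sin θ • (!₂[0, 1, 0] : E3) := funext amain_circ_eq
  rw [this]
  exact (Real.contDiff_cos.smul contDiff_const).add (Real.contDiff_sin.smul contDiff_const)

theorem amain_circ_deriv (θ : ℝ) :
    HasDerivAt circ (!₂[-Real.sin θ, Real.cos θ, 0] : E3) θ := by
  have : circ = fun θ =>
      Real.cos θ • (!₂[1, 0, 0] : E3) + Real.sin θ • (!₂[0, 1, 0] : E3) := funext amain_circ_eq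
  rw [this]
  have h := ((Real.hasDerivAt_cos θ).smul_const (!₂[1, 0, 0] : E3)).fun_add
    ((Real.hasDerivAt_sin θ).smul_const (!₂[0, 1, 0] : E3))
  refine h.congr_deriv ?_
  ext i
  fin_cases i <;> simp

theorem amain_V0 {V : E3 → ℝ} {y : E3 → E3} (h : Gauge V y) : V 0 = 0 := by
  have := h.hom 0 le_rfl 0
  simpa using this

theorem amain_lower {V : E3 → ℝ} {y : E3 → E3} (h : Gauge V y) (g : O3) :
    ENNReal.ofReal (∫ θ in (0 : ℝ)..2 * Real.pi,
      √(V (g (circ θ)) ^ 2 + deriv (fun θ => V (g (circ θ))) θ ^ 2) / V (g (circ θ)) ^ 2) ≤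
    Measure.hausdorffMeasure (1 : ℝ) {x : E3 | V x ≤ 1 ∧ ⟪x, g e3⟫ = 0 ∧
      ∀ ε : ℝ, 0 < ε → ∃ w : E3, ⟪w, g e3⟫ = 0 ∧ dist w x < ε ∧ ¬ V w ≤ 1} := by
  obtain ⟨hv, -, -, -, -⟩ := h.circle g
  set v : ℝ → ℝ := fun θ => V (g (circ θ)) with hvdef
  have hpos : ∀ θ, 0 < v θ := fun θ => h.pos _ (amain_circ_ne g θ)
  set x : ℝ → E3 := fun θ => (v θ)⁻¹ • g (circ θ) with hx
  have hgc : ContDiff ℝ 1 fun θ => g (circ θ) := g.contDiff.comp amain_circ_smooth
  have hv1 : ContDiff ℝ 1 v := hv.of_le (by norm_num)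
  have hxs : ContDiff ℝ 1 x := (hv1.inv fun θ => (hpos θ).ne').smul hgc
  have hder : ∀ θ, ‖deriv x θ‖ = √(v θ ^ 2 + deriv v θ ^ 2) / v θ ^ 2 := by
    intro θ
    have h1 : HasDerivAt v (deriv v θ) θ := (hv1.differentiable (by norm_num) θ).hasDerivAt
    have h2 : HasDerivAt (fun θ => g (circ θ)) (g (!₂[-Real.sin θ, Real.cos θ, 0] : E3)) θ :=
      g.toContinuousLinearEquiv.toContinuousLinearMap.hasFDerivAt.comp_hasDerivAt θ
        (amain_circ_deriv θ)
    have h3 := (h1.fun_inv (hpos θ).ne').fun_smul h2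
    rw [h3.deriv, ← map_smul, ← map_smul, ← map_add, g.norm_map]
    have hp := hpos θ
    rw [eq_div_iff (by positivity), ← Real.sqrt_sq (norm_nonneg _),
      ← Real.sqrt_sq (show 0 ≤ v θ ^ 2 by positivity), ← Real.sqrt_mul (by positivity),
      Real.sqrt_sq (show 0 ≤ v θ ^ 2 by positivity)]
    congr 1
    rw [← real_inner_self_eq_norm_sq, amain_inner]
    simp [circ]
    field_simp
    have := Real.sin_sq_add_cos_sq θ
    linear_combination (v θ ^ 2 + deriv v θ ^ 2) * this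
  have hinj : InjOn x (Ico 0 (2 * Real.pi)) := by
    intro a ha b hb hab
    have hn : ∀ θ, ‖x θ‖ = (v θ)⁻¹ := by
      intro θ
      rw [hx]
      simp only [norm_smul, g.norm_map, amain_norm_circ, mul_one]
      exact Real.norm_of_nonneg (inv_pos.mpr (hpos θ)).le
    have hvv : (v a)⁻¹ = (v b)⁻¹ := by rw [← hn, ← hn, hab]
    have hc : circ a = circ b := by
      have h1 : (v a)⁻¹ • g (circ a) = (v b)⁻¹ • g (circ b) := hab
      rw [hvv] at h1
      exact g.injective (smul_right_injective _ (inv_pos.mpr (hpos b)).ne' h1)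
    have hcos : Real.cos a = Real.cos b := by
      have := congrArg (fun z : E3 => z 0) hc
      simpa [circ] using this
    have hsin : Real.sin a = Real.sin b := by
      have := congrArg (fun z : E3 => z 1) hc
      simpa [circ] using this
    obtain ⟨k, hk⟩ := Real.Angle.angle_eq_iff_two_pi_dvd_sub.mp (Real.Angle.cos_sin_inj hcos hsin)
    have hpi := Real.pi_pos
    have hk1 : (k : ℝ) < 1 := by
      by_contra hcon
      have : (1 : ℝ) ≤ k := not_lt.mp hcon
      nlinarith [ha.2, hb.1]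
    have hk2 : (-1 : ℝ) < k := by
      by_contra hcon
      have : (k : ℝ) ≤ -1 := not_lt.mp hcon
      nlinarith [ha.1, hb.2]
    have hk3 : k < 1 := by exact_mod_cast hk1
    have hk4 : -1 < k := by exact_mod_cast hk2
    have hk0 : k = 0 := by omega
    rw [hk0] at hk
    simpa [sub_eq_zero] using hk
  have hl := length_lower x hxs 0 (2 * Real.pi) (by positivity) hinj
  simp only [hder] at hl
  refine hl.trans (measure_mono ?_)
  rintro _ ⟨θ, -, rfl⟩
  have hV : V (x θ) = 1 := by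
    rw [hx]
    simp only
    rw [h.hom _ (inv_pos.mpr (hpos θ)).le]
    exact inv_mul_cancel₀ (hpos θ).ne'
  have h0 : ⟪x θ, g e3⟫ = 0 := by
    rw [hx]
    simp only
    rw [inner_smul_left, LinearIsometryEquiv.inner_map_map, amain_inner]
    simp [circ, e3]
  refine ⟨hV.le, h0, fun ε hε => ?_⟩
  have hn := norm_nonneg (x θ)
  set η : ℝ := ε / (‖x θ‖ + 1) with hη
  have hη0 : 0 < η := by positivity
  refine ⟨(1 + η) • x θ, by rw [inner_smul_left, h0, mul_zero], ?_, ?_⟩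
  · rw [dist_eq_norm, add_smul, one_smul, add_sub_cancel_left, norm_smul,
      Real.norm_of_nonneg hη0.le, hη, div_mul_eq_mul_div, div_lt_iff₀ (by positivity)]
    nlinarith
  · rw [h.hom _ (by positivity), hV]
    linarith

theorem amain_upper {V : E3 → ℝ} {y : E3 → E3} (h : Gauge V y) (g : O3) (hG : Gfun y g = 0)
    (t : ℝ) (z : E3) (hz : V z < 1) (hzt : ⟪z, g e3⟫ = t) :
    Measure.hausdorffMeasure (1 : ℝ) {x : E3 | V x ≤ 1 ∧ ⟪x, g e3⟫ = t ∧
      ∀ ε : ℝ, 0 < ε → ∃ w : E3, ⟪w, g e3⟫ = t ∧ dist w x < ε ∧ ¬ V w ≤ 1} ≤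
    ENNReal.ofReal (∫ θ in (0 : ℝ)..2 * Real.pi,
      √(V (g (circ θ)) ^ 2 + deriv (fun θ => V (g (circ θ))) θ ^ 2) / V (g (circ θ)) ^ 2) := by
  obtain ⟨hv, hcv, hc, hco, hGf⟩ := h.circle g
  set v : ℝ → ℝ := fun θ => V (g (circ θ)) with hvdef
  have hpos : ∀ θ, 0 < v θ := fun θ => h.pos _ (amain_circ_ne g θ)
  have hper : Function.Periodic v (2 * Real.pi) := by
    intro θ
    simp [hvdef, circ]
  have hσ : Continuous fun θ => g.symm (y (g (circ θ))) 2 :=
    (EuclideanSpace.proj (2 : Fin 3) : E3 →L[ℝ] ℝ).continuous.comp hc.continuous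
  obtain ⟨a, b, ϑ, hb, hab, hint⟩ := angle_lemma v (fun θ => g.symm (y (g (circ θ))) 2) hv hper
    hpos hcv hσ (hGf ▸ hG) t
  rw [← hint]
  refine perim_upper g t {x | V x ≤ 1 ∧ ⟪x, g e3⟫ = t} _ ?_ ⟨z, hz.le, hzt⟩ (fun x hx => hx.2)
    (fun x hx => ⟨hx.1, hx.2.1⟩) ?_ b hb ?_ a
  · exact h.isCompact.inter_right (isClosed_eq (by fun_prop) continuous_const)
  · rintro x ⟨hx1, hxt, hxb⟩
    have hVx : V x = 1 := by
      by_contra hne
      have hlt : V x < 1 := lt_of_le_of_ne hx1 hne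
      have hi := (h.mem_interior x).mpr hlt
      obtain ⟨ε, hε, hball⟩ := Metric.mem_nhds_iff.mp (mem_interior_iff_mem_nhds.mp hi)
      obtain ⟨w, -, hw, hw'⟩ := hxb ε hε
      exact hw' (hball hw)
    have hx0 : x ≠ 0 := by
      rintro rfl
      rw [amain_V0 h] at hVx
      exact zero_ne_one hVx
    have he := h.euler x hx0
    rw [hVx, amain_inner_g g, ← amain_e3 g x, hxt] at he
    have hs : ∀ w, ⟪w, g e3⟫ = t → g.symm (y x) 0 * g.symm w 0 + g.symm (y x) 1 * g.symm w 1 +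
        g.symm (y x) 2 * t ≤ V w := by
      intro w hw
      have := h.support x hx0 w
      rwa [amain_inner_g g, ← amain_e3 g w, hw] at this
    set p0 := g.symm (y x) 0
    set p1 := g.symm (y x) 1
    set c : ℂ := ⟨p0, p1⟩ with hcdef
    have hc0 : c ≠ 0 := by
      intro h0
      have h1 : p0 = 0 := by simpa [hcdef] using congrArg Complex.re h0
      have h2 : p1 = 0 := by simpa [hcdef] using congrArg Complex.im h0
      have := hs z hzt
      rw [h1, h2] at this he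
      linarith
    have hr : 0 < ‖c‖ := norm_pos_iff.mpr hc0
    have h1 : p0 = ‖c‖ * Real.cos c.arg := by
      rw [Complex.cos_arg hc0]; field_simp; rfl
    have h2 : p1 = ‖c‖ * Real.sin c.arg := by
      rw [Complex.sin_arg]; field_simp; rfl
    refine ⟨c.arg, fun w hw => ?_⟩
    rw [amain_circ, amain_circ]
    have h3 := (hs w hw.2).trans hw.1
    refine le_of_mul_le_mul_left ?_ hr
    have e1 : ∀ q : E3, ‖c‖ * (q 0 * Real.cos c.arg + q 1 * Real.sin c.arg) =
        p0 * q 0 + p1 * q 1 := by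
      intro q
      linear_combination (-(q 0)) * h1 - q 1 * h2
    rw [e1, e1]
    linarith
  · intro α w hw
    obtain ⟨h1, h2, h3⟩ := hab α
    have hs := (h.support _ (amain_circ_ne g (ϑ α)) w).trans hw.1
    rw [amain_inner_g g, ← amain_e3 g w, hw.2, (hco (ϑ α)).1, (hco (ϑ α)).2] at hs
    have hp := hpos (ϑ α)
    have hr : 0 < √(v (ϑ α) ^ 2 + deriv v (ϑ α) ^ 2) := Real.sqrt_pos.mpr (by positivity)
    rw [amain_circ]
    refine le_of_mul_le_mul_right ?_ hr
    rw [h3]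
    have hs' : (v (ϑ α) * Real.cos (ϑ α) - deriv v (ϑ α) * Real.sin (ϑ α)) * g.symm w 0 +
        (v (ϑ α) * Real.sin (ϑ α) + deriv v (ϑ α) * Real.cos (ϑ α)) * g.symm w 1 +
        g.symm (y (g (circ (ϑ α)))) 2 * t ≤ 1 := hs
    rw [← h1, ← h2] at hs'
    linarith

theorem geometry (V : E3 → ℝ) (y : E3 → E3) (h : Gauge V y) (hG : ∀ g : O3, Gfun y g = 0)
    (hns : ∃ x, V (-x) ≠ V x) :
    ¬ (∀ n : ℕ, 3 ≤ n →
    ∀ K : Set (EuclideanSpace ℝ (Fin n)),
      IsCompact K → Convex ℝ K → (0 : EuclideanSpace ℝ (Fin n)) ∈ interior K →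
      (∀ u : EuclideanSpace ℝ (Fin n), ‖u‖ = 1 → ∀ t : ℝ,
        (∃ z ∈ interior K, inner ℝ z u = t) →
        MeasureTheory.Measure.hausdorffMeasure ((n : ℝ) - 2)
          {x : EuclideanSpace ℝ (Fin n) | x ∈ K ∧ inner ℝ x u = t ∧
            ∀ ε : ℝ, 0 < ε → ∃ y : EuclideanSpace ℝ (Fin n),
              inner ℝ y u = t ∧ dist y x < ε ∧ y ∉ K}
        ≤ MeasureTheory.Measure.hausdorffMeasure ((n : ℝ) - 2)
          {x : EuclideanSpace ℝ (Fin n) | x ∈ K ∧ inner ℝ x u = 0 ∧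
            ∀ ε : ℝ, 0 < ε → ∃ y : EuclideanSpace ℝ (Fin n),
              inner ℝ y u = 0 ∧ dist y x < ε ∧ y ∉ K}) →
      ∀ x ∈ K, -x ∈ K) := by
  intro hall
  obtain ⟨x, hx⟩ := hns
  have hsym := hall 3 le_rfl {x | V x ≤ 1} h.isCompact h.convex
    ((h.mem_interior 0).mpr (by rw [amain_V0 h]; exact one_pos)) (by
      rintro u hu t ⟨z, hz, hzt⟩
      have he : ‖e3‖ = ‖u‖ := by
        have : ‖e3‖ ^ 2 = 1 := by
          rw [← real_inner_self_eq_norm_sq, amain_inner]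
          simp [e3]
        have h0 := norm_nonneg e3
        rw [hu]
        nlinarith
      obtain ⟨g, rfl⟩ : ∃ g : O3, g e3 = u := ⟨_, Submodule.reflection_sub he⟩
      have h1 : ((3 : ℕ) : ℝ) - 2 = 1 := by norm_num
      rw [h1]
      exact (amain_upper h g (hG g) t z ((h.mem_interior z).mp hz) hzt).trans (amain_lower h g))
  have key : ∀ w, V (-w) ≤ V w := by
    intro w
    by_cases hw : w = 0
    · rw [hw, neg_zero]
    have hp := h.pos w hw
    have h1 : V ((V w)⁻¹ • w) ≤ 1 := by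
      rw [h.hom _ (inv_pos.mpr hp).le, inv_mul_cancel₀ hp.ne']
    have h2 : V (-((V w)⁻¹ • w)) ≤ 1 := hsym _ h1
    rw [← smul_neg, h.hom _ (inv_pos.mpr hp).le, inv_mul_le_iff₀ hp, mul_one] at h2
    exact h2
  have h2 := key (-x)
  rw [neg_neg] at h2
  exact hx (le_antisymm (key x) h2)

end Pool.Agent.MMO
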