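import Pool.Agent.P.MP_6c3c64_gt.ADefs

/-! Upper bound for the length of the boundary of a plane convex set by the integral of a
majorant of its support function. -/

set_option autoImplicit false

namespace Pool.Agent.MMO

open Set MeasureTheory
open scoped RealInnerProductSpace

/-- normal component -/
noncomputable def aup_p (u v α : ℝ) : ℝ := u * Real.cos α + v * Real.sin α
/-- tangential component -/
noncomputable def aup_q (u v α : ℝ) : ℝ := v * Real.cos α - u * Real.sin α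

theorem aup_three (u v β1 β2 m : ℝ) : Real.sin (β2 - β1) * aup_q u v m =
    Real.cos (m - β1) * aup_p u v β2 - Real.cos (β2 - m) * aup_p u v β1 := by
  simp only [aup_p, aup_q, Real.sin_sub, Real.cos_sub]; ring

theorem aup_rot (u v β m : ℝ) : aup_q u v m =
    Real.cos (m - β) * aup_q u v β - Real.sin (m - β) * aup_p u v β := by
  simp only [aup_p, aup_q, Real.sin_sub, Real.cos_sub]
  linear_combination (u * Real.sin m - v * Real.cos m) * Real.sin_sq_add_cos_sq β

theorem aup_diff (u v α h : ℝ) : aup_q u v (α - h) - aup_q u v (α + h) =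
    2 * Real.sin h * aup_p u v α := by
  simp only [aup_p, aup_q, Real.sin_sub, Real.cos_sub, Real.sin_add, Real.cos_add]; ring

theorem aup_sq (u v β : ℝ) : aup_p u v β ^ 2 + aup_q u v β ^ 2 = u ^ 2 + v ^ 2 := by
  simp only [aup_p, aup_q]
  linear_combination (u ^ 2 + v ^ 2) * Real.sin_sq_add_cos_sq β

theorem aup_p_sub (u v u' v' α : ℝ) :
    aup_p (u - u') (v - v') α = aup_p u v α - aup_p u' v' α := by
  simp only [aup_p]; ring

theorem aup_q_sub (u v u' v' α : ℝ) :
    aup_q (u - u') (v - v') α = aup_q u v α - aup_q u' v' α := by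
  simp only [aup_q]; ring

theorem aup_cos_nonneg {x h : ℝ} (hh : h < Real.pi / 2) (h1 : -h ≤ x) (h2 : x ≤ h) :
    0 ≤ Real.cos x :=
  Real.cos_nonneg_of_neg_pi_div_two_le_of_le (by linarith) (by linarith)

theorem aup_sign (u v m h β1 β2 : ℝ) (hh : h < Real.pi / 2) (h1 : m - h ≤ β1) (h12 : β1 < β2)
    (h2 : β2 ≤ m + h) (hp2 : 0 ≤ aup_p u v β2) (hp1 : aup_p u v β1 ≤ 0) : 0 ≤ aup_q u v m := by
  have hs : 0 < Real.sin (β2 - β1) :=
    Real.sin_pos_of_pos_of_lt_pi (by linarith) (by linarith)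
  have c1 : 0 ≤ Real.cos (m - β1) := aup_cos_nonneg hh (by linarith) (by linarith)
  have c2 : 0 ≤ Real.cos (β2 - m) := aup_cos_nonneg hh (by linarith) (by linarith)
  have e := aup_three u v β1 β2 m
  have : 0 ≤ Real.sin (β2 - β1) * aup_q u v m := by
    rw [e]
    have := mul_nonneg c1 hp2
    have := mul_nonneg c2 (neg_nonneg.2 hp1)
    linarith
  exact (mul_nonneg_iff_of_pos_left hs).1 this

theorem aup_anti (u v m h β1 β2 : ℝ) (hh : h < Real.pi / 2) (h1 : β1 ∈ Icc (m - h) (m + h))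
    (h2 : β2 ∈ Icc (m - h) (m + h)) (hp2 : 0 ≤ aup_p u v β2) (hp1 : aup_p u v β1 ≤ 0) :
    Real.cos h ^ 2 * (u ^ 2 + v ^ 2) ≤ aup_q u v m ^ 2 := by
  have hc : ContinuousOn (aup_p u v) (Icc (m - h) (m + h)) := by
    unfold aup_p; fun_prop
  obtain ⟨β, hβ, hβ0⟩ := isPreconnected_Icc.intermediate_value h1 h2 hc ⟨hp1, hp2⟩
  have e := aup_rot u v β m
  have e2 := aup_sq u v β
  rw [hβ0] at e e2
  have hh0 : 0 ≤ h := by linarith [hβ.1, hβ.2]
  have hcos : Real.cos h ≤ Real.cos (m - β) := by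
    rw [← Real.cos_abs (m - β)]
    exact Real.cos_le_cos_of_nonneg_of_le_pi (abs_nonneg _) (by linarith [Real.pi_pos])
      (abs_le.2 ⟨by linarith [hβ.2], by linarith [hβ.1]⟩)
  have hc0 : 0 ≤ Real.cos h := aup_cos_nonneg hh (by linarith) le_rfl
  have h3 : Real.cos h ^ 2 ≤ Real.cos (m - β) ^ 2 := pow_le_pow_left₀ hc0 hcos 2
  rw [e, ← e2]
  have : (Real.cos (m - β) * aup_q u v β - Real.sin (m - β) * 0) ^ 2
      = Real.cos (m - β) ^ 2 * (0 ^ 2 + aup_q u v β ^ 2) := by ring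
  rw [this]
  exact mul_le_mul_of_nonneg_right h3 (by positivity)

theorem aup_meas (D : Set E3) (f : E3 → ℝ) (K lo hi : ℝ) (hK : 0 ≤ K)
    (h : ∀ x ∈ D, ∀ y ∈ D, dist x y ≤ K * dist (f x) (f y)) (hI : ∀ x ∈ D, f x ∈ Icc lo hi) :
    Measure.hausdorffMeasure (1 : ℝ) D ≤ ENNReal.ofReal (K * (hi - lo)) := by
  have hinj : InjOn f D := fun x hx y hy e => by
    have := h x hx y hy
    rw [e, dist_self, mul_zero] at this
    exact dist_le_zero.1 this
  have hL : LipschitzOnWith ⟨K, hK⟩ (Function.invFunOn f D) (f '' D) := by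
    refine LipschitzOnWith.of_dist_le_mul ?_
    rintro _ ⟨x, hx, rfl⟩ _ ⟨y, hy, rfl⟩
    rw [hinj.leftInvOn_invFunOn hx, hinj.leftInvOn_invFunOn hy]
    exact h x hx y hy
  have h1 := hL.hausdorffMeasure_image_le (d := 1) zero_le_one
  rw [hinj.invFunOn_image Subset.rfl, ENNReal.rpow_one, hausdorffMeasure_real] at h1
  refine h1.trans ?_
  rw [ENNReal.ofReal_mul hK, ← Real.volume_Icc]
  refine mul_le_mul' (le_of_eq ?_) (measure_mono ?_)
  · exact (ENNReal.ofReal_eq_coe_nnreal hK).symm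
  · rintro _ ⟨x, hx, rfl⟩
    exact hI x hx

theorem aup_choice (C : Set E3) (hC : IsCompact C) (hCne : C.Nonempty) (u v : E3 → ℝ)
    (hu : Continuous u) (hv : Continuous v) :
    ∃ c : ℝ → E3, (∀ α, c (α + 2 * Real.pi) = c α) ∧ ∀ α, c α ∈ C ∧
      (∀ z ∈ C, aup_p (u z) (v z) α ≤ aup_p (u (c α)) (v (c α)) α) ∧
      ∀ x ∈ C, (∀ z ∈ C, aup_p (u z) (v z) α ≤ aup_p (u x) (v x) α) →
        aup_q (u (c α)) (v (c α)) α ≤ aup_q (u x) (v x) α := by
  have key : ∀ s t : ℝ, ∃ c ∈ C, (∀ z ∈ C, u z * s + v z * t ≤ u c * s + v c * t) ∧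
      ∀ x ∈ C, (∀ z ∈ C, u z * s + v z * t ≤ u x * s + v x * t) →
        v c * s - u c * t ≤ v x * s - u x * t := by
    intro s t
    obtain ⟨x0, hx0, hmax⟩ := hC.exists_isMaxOn hCne
      (f := fun z => u z * s + v z * t) (by fun_prop)
    have hcl : IsClosed {x | u x0 * s + v x0 * t ≤ u x * s + v x * t} :=
      isClosed_le continuous_const (by fun_prop)
    obtain ⟨c, hc, hmin⟩ := (hC.inter_right hcl).exists_isMinOn ⟨x0, hx0, le_refl (u x0 * s + v x0 * t)⟩
      (f := fun z => v z * s - u z * t) (by fun_prop)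
    refine ⟨c, hc.1, fun z hz => (hmax hz).trans hc.2, fun x hx hx' => ?_⟩
    exact hmin ⟨hx, hx' x0 hx0⟩
  choose c h1 h2 h3 using key
  refine ⟨fun α => c (Real.cos α) (Real.sin α), fun α => ?_, fun α => ⟨h1 _ _, h2 _ _, h3 _ _⟩⟩
  simp only [Real.cos_add_two_pi, Real.sin_add_two_pi]

theorem aup_main (C D : Set E3) (hC : IsCompact C) (hCne : C.Nonempty) (u v : E3 → ℝ)
    (hu : Continuous u) (hv : Continuous v)
    (hd : ∀ x ∈ C, ∀ y ∈ C, dist x y ^ 2 = (u x - u y) ^ 2 + (v x - v y) ^ 2) (hD : D ⊆ C)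
    (hn : ∀ x ∈ D, ∃ α : ℝ, ∀ z ∈ C, aup_p (u z) (v z) α ≤ aup_p (u x) (v x) α)
    (b : ℝ → ℝ) (hbC : ∀ α, ∀ z ∈ C, aup_p (u z) (v z) α ≤ b α) (a h : ℝ) (n : ℕ)
    (h0 : 0 < h) (hh : h < Real.pi / 2) (hn2 : n * h = Real.pi) :
    Measure.hausdorffMeasure (1 : ℝ) D ≤
      ENNReal.ofReal ((Real.cos h)⁻¹ * (2 * h * ∑ i ∈ Finset.range n, b (a + i * (2 * h)))) := by
  obtain ⟨c, hper, hc⟩ := aup_choice C hC hCne u v hu hv
  have hcos : 0 < Real.cos h := Real.cos_pos_of_mem_Ioo ⟨by linarith, hh⟩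
  set A : ℕ → ℝ := fun i => a + i * (2 * h) with hA
  have hAs : ∀ i, A (i + 1) = A i + 2 * h := fun i => by simp only [hA]; push_cast; ring
  set Di : ℕ → Set E3 := fun i => {x | x ∈ C ∧ ∃ α ∈ Ico (A i) (A (i + 1)),
    ∀ z ∈ C, aup_p (u z) (v z) α ≤ aup_p (u x) (v x) α} with hDi
  set len : ℕ → ℝ := fun i => aup_q (u (c (A (i + 1)))) (v (c (A (i + 1)))) (A i + h)
    - aup_q (u (c (A i))) (v (c (A i))) (A i + h) with hlen
  have hcover : D ⊆ ⋃ i ∈ Finset.range n, Di i := by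
    intro x hx
    obtain ⟨α, hα⟩ := hn x hx
    have hβ := toIcoMod_mem_Ico Real.two_pi_pos a α
    have hβ2 := toIcoMod_add_toIcoDiv_zsmul Real.two_pi_pos a α
    set β := toIcoMod Real.two_pi_pos a α
    have hcs : ∀ p q, aup_p p q α = aup_p p q β := fun p q => by
      rw [← hβ2, zsmul_eq_mul]
      simp only [aup_p, Real.cos_add_int_mul_two_pi, Real.sin_add_int_mul_two_pi]
    have hq0 : 0 ≤ (β - a) / (2 * h) := div_nonneg (by linarith [hβ.1]) (by linarith)
    have hf1 := Nat.floor_le hq0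
    have hf2 := Nat.lt_floor_add_one ((β - a) / (2 * h))
    rw [le_div_iff₀ (by linarith)] at hf1
    rw [div_lt_iff₀ (by linarith)] at hf2
    refine mem_iUnion₂.2 ⟨⌊(β - a) / (2 * h)⌋₊, ?_, hD hx, β, ⟨?_, ?_⟩, fun z hz => ?_⟩
    · rw [Finset.mem_range, Nat.floor_lt hq0, div_lt_iff₀ (by linarith)]
      linarith [hβ.2]
    · simp only [hA]; linarith
    · simp only [hA]; push_cast; linarith
    · rw [← hcs, ← hcs]; exact hα z hz
  have hpiece : ∀ i, Measure.hausdorffMeasure (1 : ℝ) (Di i) ≤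
      ENNReal.ofReal ((Real.cos h)⁻¹ * len i) := by
    intro i
    have hs := hAs i
    refine aup_meas (Di i) (fun x => aup_q (u x) (v x) (A i + h)) _ _ _ (by positivity) ?_ ?_
    · rintro x ⟨hx, α, hα, hx'⟩ y ⟨hy, β, hβ, hy'⟩
      have h1 := aup_anti (u x - u y) (v x - v y) (A i + h) h β α hh
        ⟨by linarith [hβ.1], by linarith [hβ.2]⟩ ⟨by linarith [hα.1], by linarith [hα.2]⟩
        (by rw [aup_p_sub]; linarith [hx' y hy]) (by rw [aup_p_sub]; linarith [hy' x hx])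
      rw [← hd x hx y hy, aup_q_sub, ← mul_pow, ← sq_abs (_ - _), ← Real.dist_eq] at h1
      have h2 := le_of_sq_le_sq h1 dist_nonneg
      rw [inv_mul_eq_div, le_div_iff₀ hcos]
      linarith
    · rintro x ⟨hx, α, hα, hx'⟩
      obtain ⟨c1, c2, c3⟩ := hc (A i)
      obtain ⟨d1, d2, -⟩ := hc (A (i + 1))
      constructor
      · rw [← sub_nonneg, ← aup_q_sub]
        rcases eq_or_lt_of_le hα.1 with e | e
        · rw [← e] at hx'
          have h1 := c3 x hx hx'
          have h2 : aup_p (u x - u (c (A i))) (v x - v (c (A i))) (A i) = 0 := by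
            rw [aup_p_sub]; linarith [hx' _ c1, c2 x hx]
          rw [aup_rot _ _ (A i), h2, mul_zero, sub_zero, add_sub_cancel_left, aup_q_sub]
          exact mul_nonneg hcos.le (by linarith)
        · exact aup_sign _ _ _ h (A i) α hh (by linarith) e (by linarith [hα.2])
            (by rw [aup_p_sub]; linarith [hx' _ c1]) (by rw [aup_p_sub]; linarith [c2 x hx])
      · rw [← sub_nonneg, ← aup_q_sub]
        exact aup_sign _ _ _ h α (A (i + 1)) hh (by linarith [hα.1]) hα.2 (by linarith)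
          (by rw [aup_p_sub]; linarith [d2 x hx]) (by rw [aup_p_sub]; linarith [hx' _ d1])
  have hlen0 : ∀ i, 0 ≤ len i := by
    intro i
    have hs := hAs i
    obtain ⟨c1, c2, -⟩ := hc (A i)
    obtain ⟨d1, d2, -⟩ := hc (A (i + 1))
    simp only [hlen]
    rw [← aup_q_sub]
    exact aup_sign _ _ _ h (A i) (A (i + 1)) hh (by linarith) (by linarith) (by linarith)
      (by rw [aup_p_sub]; linarith [d2 _ c1]) (by rw [aup_p_sub]; linarith [c2 _ d1])
  have hsum : ∑ i ∈ Finset.range n, len i =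
      2 * Real.sin h * ∑ i ∈ Finset.range n, aup_p (u (c (A i))) (v (c (A i))) (A i) := by
    set F : ℕ → ℝ := fun i => aup_q (u (c (A i))) (v (c (A i))) (A i - h) with hF
    have e1 : ∀ i, len i = (F (i + 1) - F i)
        + 2 * Real.sin h * aup_p (u (c (A i))) (v (c (A i))) (A i) := fun i => by
      have e : A (i + 1) - h = A i + h := by rw [hAs]; ring
      simp only [hlen, hF]
      rw [← aup_diff, e]; ring
    have e2 : F n = F 0 := by
      have e : A n = A 0 + 2 * Real.pi := by simp only [hA]; rw [← hn2]; push_cast; ring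
      have e' : A 0 + 2 * Real.pi - h = A 0 - h + 2 * Real.pi := by ring
      simp only [hF]
      rw [e, hper, e']
      simp only [aup_q, Real.cos_add_two_pi, Real.sin_add_two_pi]
    rw [Finset.sum_congr rfl fun i _ => e1 i, Finset.sum_add_distrib, Finset.sum_range_sub, e2,
      sub_self, zero_add, Finset.mul_sum]
  have hsin : 0 < Real.sin h := Real.sin_pos_of_pos_of_lt_pi h0 (by linarith [Real.pi_pos])
  have hS0 : 0 ≤ ∑ i ∈ Finset.range n, aup_p (u (c (A i))) (v (c (A i))) (A i) := by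
    have : 0 ≤ ∑ i ∈ Finset.range n, len i := Finset.sum_nonneg fun i _ => hlen0 i
    rw [hsum] at this
    exact (mul_nonneg_iff_of_pos_left (by positivity)).1 this
  have hS1 : ∑ i ∈ Finset.range n, aup_p (u (c (A i))) (v (c (A i))) (A i) ≤
      ∑ i ∈ Finset.range n, b (A i) := Finset.sum_le_sum fun i _ => hbC _ _ (hc (A i)).1
  calc Measure.hausdorffMeasure (1 : ℝ) D
      ≤ Measure.hausdorffMeasure (1 : ℝ) (⋃ i ∈ Finset.range n, Di i) := measure_mono hcover
    _ ≤ ∑ i ∈ Finset.range n, Measure.hausdorffMeasure (1 : ℝ) (Di i) :=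
        measure_biUnion_finset_le _ _
    _ ≤ ∑ i ∈ Finset.range n, ENNReal.ofReal ((Real.cos h)⁻¹ * len i) :=
        Finset.sum_le_sum fun i _ => hpiece i
    _ = ENNReal.ofReal (∑ i ∈ Finset.range n, (Real.cos h)⁻¹ * len i) :=
        (ENNReal.ofReal_sum_of_nonneg fun i _ => mul_nonneg (by positivity) (hlen0 i)).symm
    _ ≤ _ := by
        refine ENNReal.ofReal_le_ofReal ?_
        rw [← Finset.mul_sum, hsum]
        refine mul_le_mul_of_nonneg_left ?_ (by positivity)
        have := Real.sin_le h0.le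
        nlinarith

theorem aup_average (b : ℝ → ℝ) (hb : Continuous b) (a δ : ℝ) (n : ℕ) (hδ : 0 < δ) :
    ∃ s : ℝ, δ * ∑ i ∈ Finset.range n, b (s + i * δ) = ∫ α in a..a + n * δ, b α := by
  have hc : Continuous fun s => ∑ i ∈ Finset.range n, b (s + i * δ) := by fun_prop
  obtain ⟨s, -, hs⟩ := exists_eq_interval_average (a := a) (b := a + δ) (by linarith)
    hc.continuousOn
  refine ⟨s, ?_⟩
  rw [hs, interval_average_eq_div, add_sub_cancel_left, mul_div_cancel₀ _ hδ.ne',
    intervalIntegral.integral_finset_sum fun (i : ℕ) _ =>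
      (by fun_prop : Continuous fun s => b (s + i * δ)).intervalIntegrable _ _]
  have := intervalIntegral.sum_integral_adjacent_intervals (f := b) (μ := volume)
    (a := fun i : ℕ => a + i * δ) (n := n) fun k _ => hb.intervalIntegrable _ _
  simp only [Nat.cast_zero, zero_mul, add_zero] at this
  rw [← this]
  refine Finset.sum_congr rfl fun i _ => ?_
  rw [intervalIntegral.integral_comp_add_right]
  congr 1
  push_cast; ring

theorem aup_inner (g : O3) (x : E3) (α : ℝ) :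
    ⟪x, g (circ α)⟫ = aup_p (g.symm x 0) (g.symm x 1) α := by
  rw [← g.symm.inner_map_map, g.symm_apply_apply]
  simp [circ, aup_p, PiLp.inner_apply, Fin.sum_univ_three]
  ring

theorem aup_inner3 (g : O3) (x : E3) : ⟪x, g e3⟫ = g.symm x 2 := by
  rw [← g.symm.inner_map_map, g.symm_apply_apply]
  simp [e3, PiLp.inner_apply, Fin.sum_univ_three]

theorem perim_upper (g : O3) (t : ℝ) (C D : Set E3) (hC : IsCompact C) (hCne : C.Nonempty)
    (hplane : ∀ x ∈ C, ⟪x, g e3⟫ = t) (hD : D ⊆ C)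
    (hn : ∀ x ∈ D, ∃ α : ℝ, ∀ z ∈ C, ⟪z, g (circ α)⟫ ≤ ⟪x, g (circ α)⟫)
    (b : ℝ → ℝ) (hb : Continuous b) (hbC : ∀ α, ∀ z ∈ C, ⟪z, g (circ α)⟫ ≤ b α) (a : ℝ) :
    Measure.hausdorffMeasure (1 : ℝ) D ≤ ENNReal.ofReal (∫ α in a..a + 2 * Real.pi, b α) := by
  simp only [aup_inner] at hn hbC
  simp only [aup_inner3] at hplane
  have hd : ∀ x ∈ C, ∀ y ∈ C, dist x y ^ 2 =
      (g.symm x 0 - g.symm y 0) ^ 2 + (g.symm x 1 - g.symm y 1) ^ 2 := by
    intro x hx y hy
    rw [← g.symm.dist_map, EuclideanSpace.dist_sq_eq, Fin.sum_univ_three, hplane x hx, hplane y hy,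
      dist_self, Real.dist_eq, Real.dist_eq, sq_abs, sq_abs]
    ring
  have key : ∀ n : ℕ, 3 ≤ n → Measure.hausdorffMeasure (1 : ℝ) D ≤
      ENNReal.ofReal ((Real.cos (Real.pi / n))⁻¹ * ∫ α in a..a + 2 * Real.pi, b α) := by
    intro n hn3
    have hn' : (3 : ℝ) ≤ n := by exact_mod_cast hn3
    have hpi := Real.pi_pos
    have h0 : 0 < Real.pi / n := by positivity
    have hh : Real.pi / n < Real.pi / 2 := div_lt_div_of_pos_left hpi (by norm_num) (by linarith)
    have hn2 : n * (Real.pi / n) = Real.pi := by field_simp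
    obtain ⟨s, hs⟩ := aup_average b hb a (2 * (Real.pi / n)) n (by positivity)
    have e : (n : ℝ) * (2 * (Real.pi / n)) = 2 * Real.pi := by field_simp
    rw [e] at hs
    rw [← hs]
    exact aup_main C D hC hCne (fun x => g.symm x 0) (fun x => g.symm x 1) (by fun_prop)
      (by fun_prop) hd hD hn b hbC s _ n h0 hh hn2
  have h1 : Filter.Tendsto (fun n : ℕ => Real.pi / n) Filter.atTop (nhds 0) :=
    tendsto_const_div_atTop_nhds_zero_nat _
  have h2 : ContinuousAt
      (fun x => ENNReal.ofReal ((Real.cos x)⁻¹ * ∫ α in a..a + 2 * Real.pi, b α)) 0 := by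
    refine ENNReal.continuous_ofReal.continuousAt.comp ?_
    exact (Real.continuous_cos.continuousAt.inv₀ (by simp)).mul continuousAt_const
  have h3 := h2.tendsto.comp h1
  simp only [Real.cos_zero, inv_one, one_mul] at h3
  exact ge_of_tendsto h3 (Filter.eventually_atTop.2 ⟨3, key⟩)

end Pool.Agent.MMO
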