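import Pool.Agent.P.MP_6c3c64_gt.ADefs

/-! First variation of `circInt`, and invariance of `varInt` under an elliptic
reparametrisation of the circle. -/

set_option autoImplicit false

namespace Pool.Agent.MMO

open MeasureTheory Set Filter Topology

theorem avar_param (F F' : ℝ × ℝ → ℝ) (U : Set (ℝ × ℝ)) (hU : IsOpen U) (a b : ℝ)
    (h0 : ∀ θ, ((0 : ℝ), θ) ∈ U) (hF : ContinuousOn F U) (hF' : ContinuousOn F' U)
    (hd : ∀ z ∈ U, HasDerivAt (fun ε => F (ε, z.2)) (F' z) z.1) :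
    HasDerivAt (fun ε => ∫ θ in a..b, F (ε, θ)) (∫ θ in a..b, F' (0, θ)) 0 := by
  have hev : ∀ᶠ ε in 𝓝 (0 : ℝ), ∀ θ ∈ uIcc a b, (ε, θ) ∈ U :=
    isCompact_uIcc.eventually_forall_of_forall_eventually fun θ _ => hU.mem_nhds (h0 θ)
  obtain ⟨δ, hδ, hsub⟩ := Metric.nhds_basis_closedBall.eventually_iff.1 hev
  have hK : IsCompact (Metric.closedBall (0 : ℝ) δ ×ˢ uIcc a b) :=
    (isCompact_closedBall _ _).prod isCompact_uIcc
  have hKU : Metric.closedBall (0 : ℝ) δ ×ˢ uIcc a b ⊆ U := fun z hz => hsub hz.1 z.2 hz.2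
  obtain ⟨C, hC⟩ := hK.exists_bound_of_continuousOn (hF'.mono hKU)
  have hsl : ∀ (G : ℝ × ℝ → ℝ), ContinuousOn G U → ∀ ε, (∀ θ ∈ uIcc a b, (ε, θ) ∈ U) →
      ContinuousOn (fun θ => G (ε, θ)) (uIcc a b) := fun G hG ε hε =>
    hG.comp (Continuous.prodMk_right ε).continuousOn hε
  refine (intervalIntegral.hasDerivAt_integral_of_dominated_loc_of_deriv_le
    (F := fun ε θ => F (ε, θ)) (F' := fun ε θ => F' (ε, θ)) (bound := fun _ => C)
    (Metric.closedBall_mem_nhds 0 hδ) ?_ ?_ ?_ ?_ ?_ ?_).2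
  · filter_upwards [hev] with ε hε
    exact ((hsl F hF ε hε).mono uIoc_subset_uIcc).aestronglyMeasurable measurableSet_uIoc
  · exact (hsl F hF 0 fun θ _ => h0 θ).intervalIntegrable
  · exact ((hsl F' hF' 0 fun θ _ => h0 θ).mono uIoc_subset_uIcc).aestronglyMeasurable
      measurableSet_uIoc
  · exact Eventually.of_forall fun θ hθ ε hε => hC (ε, θ) ⟨hε, uIoc_subset_uIcc hθ⟩
  · exact intervalIntegrable_const
  · exact Eventually.of_forall fun θ hθ ε hε => hd (ε, θ) (hKU ⟨hε, uIoc_subset_uIcc hθ⟩)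

theorem avar_rho {u v : ℝ → ℝ} {u' v' x : ℝ} (hu : HasDerivAt u u' x) (hv : HasDerivAt v v' x)
    (h : 0 < u x ^ 2 + v x ^ 2) :
    HasDerivAt (fun x => (√(u x ^ 2 + v x ^ 2))⁻¹ ^ 3)
      (-3 * (u x * u' + v x * v') * (√(u x ^ 2 + v x ^ 2))⁻¹ ^ 5) x := by
  have h1 : HasDerivAt (fun x => u x ^ 2 + v x ^ 2) (2 * (u x * u' + v x * v')) x := by
    refine ((hu.fun_pow 2).fun_add (hv.fun_pow 2)).congr_deriv ?_
    simp only [Nat.cast_ofNat, Nat.add_one_sub_one, pow_one]; ring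
  have hs : 0 < √(u x ^ 2 + v x ^ 2) := Real.sqrt_pos.2 h
  have h2 := ((h1.sqrt h.ne').fun_inv hs.ne').fun_pow 3
  refine h2.congr_deriv ?_
  simp only [Nat.cast_ofNat, Nat.add_one_sub_one]
  generalize √(u x ^ 2 + v x ^ 2) = r at *
  field_simp

theorem avar_coord {c : ℝ → E3} {c' : E3} {x : ℝ} (h : HasDerivAt c c' x) (i : Fin 3) :
    HasDerivAt (fun θ => c θ i) (c' i) x :=
  (EuclideanSpace.proj (𝕜 := ℝ) i).hasFDerivAt.comp_hasDerivAt x h

theorem hasDerivAt_circInt (c η : ℝ → E3) (hc : ContDiff ℝ 1 c) (hη : ContDiff ℝ 1 η)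
    (hcp : c (2 * Real.pi) = c 0) (hηp : η (2 * Real.pi) = η 0)
    (hρ : ∀ θ, 0 < c θ 0 ^ 2 + c θ 1 ^ 2) :
    HasDerivAt (fun ε : ℝ => circInt fun θ => c θ + ε • η θ) (varInt c η) 0 := by
  have dc : ∀ θ, HasDerivAt c (deriv c θ) θ := fun θ =>
    (hc.differentiable one_ne_zero θ).hasDerivAt
  have dη : ∀ θ, HasDerivAt η (deriv η θ) θ := fun θ =>
    (hη.differentiable one_ne_zero θ).hasDerivAt
  have cc : Continuous c := hc.continuous
  have cη : Continuous η := hη.continuous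
  have cc' : Continuous (deriv c) := hc.continuous_deriv le_rfl
  have cη' : Continuous (deriv η) := hη.continuous_deriv le_rfl
  let u : Fin 3 → ℝ × ℝ → ℝ := fun i z => c z.2 i + z.1 * η z.2 i
  let w : Fin 3 → ℝ × ℝ → ℝ := fun i z => deriv c z.2 i + z.1 * deriv η z.2 i
  have cu : ∀ i, Continuous (u i) := fun i => by simp only [u]; fun_prop
  have cw : ∀ i, Continuous (w i) := fun i => by simp only [w]; fun_prop
  let U : Set (ℝ × ℝ) := {z | 0 < u 0 z ^ 2 + u 1 z ^ 2}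
  have hU : IsOpen U := isOpen_lt continuous_const (((cu 0).pow 2).add ((cu 1).pow 2))
  let R : ℝ × ℝ → ℝ := fun z => (√(u 0 z ^ 2 + u 1 z ^ 2))⁻¹
  have cR : ContinuousOn R U :=
    (((cu 0).pow 2).add ((cu 1).pow 2)).sqrt.continuousOn.inv₀ fun z hz =>
      (Real.sqrt_pos.2 hz).ne'
  let F : ℝ × ℝ → ℝ := fun z => u 2 z * (u 0 z * w 1 z - u 1 z * w 0 z) * R z ^ 3
  let F' : ℝ × ℝ → ℝ := fun z =>
    (η z.2 2 * (u 0 z * w 1 z - u 1 z * w 0 z) + u 2 z * (η z.2 0 * w 1 z + u 0 z * deriv η z.2 1 -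
      (η z.2 1 * w 0 z + u 1 z * deriv η z.2 0))) * R z ^ 3 +
    u 2 z * (u 0 z * w 1 z - u 1 z * w 0 z) *
      (-3 * (u 0 z * η z.2 0 + u 1 z * η z.2 1) * R z ^ 5)
  have cF : ContinuousOn F U :=
    ((cu 2).mul (((cu 0).mul (cw 1)).sub ((cu 1).mul (cw 0)))).continuousOn.mul (cR.pow 3)
  have cF' : ContinuousOn F' U := by
    have c0 := cu 0
    have c1 := cu 1
    have c2 := cu 2
    have d0 := cw 0
    have d1 := cw 1
    refine (ContinuousOn.mul (Continuous.continuousOn (by fun_prop)) (cR.pow 3)).add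
      (ContinuousOn.mul (Continuous.continuousOn (by fun_prop))
        (ContinuousOn.mul (Continuous.continuousOn (by fun_prop)) (cR.pow 5)))
  have h0 : ∀ θ, ((0 : ℝ), θ) ∈ U := fun θ => by
    simpa [U, u] using hρ θ
  have hd : ∀ z ∈ U, HasDerivAt (fun ε => F (ε, z.2)) (F' z) z.1 := by
    intro z hz
    have du : ∀ i, HasDerivAt (fun ε => u i (ε, z.2)) (η z.2 i) z.1 := fun i => by
      simpa [u] using ((hasDerivAt_id z.1).mul_const (η z.2 i)).const_add (c z.2 i)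
    have dw : ∀ i, HasDerivAt (fun ε => w i (ε, z.2)) (deriv η z.2 i) z.1 := fun i => by
      simpa [w] using ((hasDerivAt_id z.1).mul_const (deriv η z.2 i)).const_add (deriv c z.2 i)
    exact ((du 2).fun_mul (((du 0).fun_mul (dw 1)).fun_sub ((du 1).fun_mul (dw 0)))).fun_mul
      (avar_rho (du 0) (du 1) hz)
  have key := avar_param F F' U hU 0 (2 * Real.pi) h0 cF cF' hd
  have e1 : (fun ε : ℝ => circInt fun θ => c θ + ε • η θ) =
      fun ε => ∫ θ in (0 : ℝ)..2 * Real.pi, F (ε, θ) := by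
    funext ε
    unfold circInt
    congr 1
    funext θ
    have : deriv (fun θ => c θ + ε • η θ) θ = deriv c θ + ε • deriv η θ :=
      ((dc θ).fun_add ((dη θ).fun_const_smul ε)).deriv
    rw [this]
    simp only [F, R, u, w, PiLp.add_apply, PiLp.smul_apply, smul_eq_mul]
  rw [e1]
  refine key.congr_deriv ?_
  -- the exact term
  let B : ℝ → ℝ := fun θ =>
    c θ 2 * (c θ 0 * η θ 1 - c θ 1 * η θ 0) * (√(c θ 0 ^ 2 + c θ 1 ^ 2))⁻¹ ^ 3
  let D : ℝ → ℝ := fun θ =>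
    det3 (c θ) (η θ) (deriv c θ) * (√(c θ 0 ^ 2 + c θ 1 ^ 2))⁻¹ ^ 3
  have cF0 : Continuous fun θ => F' (0, θ) :=
    cF'.comp_continuous (Continuous.prodMk_right 0) h0
  have cR0 : Continuous fun θ => (√(c θ 0 ^ 2 + c θ 1 ^ 2))⁻¹ :=
    Continuous.inv₀ (by fun_prop) fun θ => (Real.sqrt_pos.2 (hρ θ)).ne'
  have cD : Continuous D := by
    refine Continuous.mul ?_ (cR0.pow 3)
    unfold det3; fun_prop
  have dB : ∀ θ, HasDerivAt B (F' (0, θ) + D θ) θ := by
    intro θ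
    have a := fun i => avar_coord (dc θ) i
    have b := fun i => avar_coord (dη θ) i
    have h := ((a 2).fun_mul (((a 0).fun_mul (b 1)).fun_sub ((a 1).fun_mul (b 0)))).fun_mul
      (avar_rho (a 0) (a 1) (hρ θ))
    refine HasDerivAt.congr_deriv (f := B) h ?_
    simp only [F', D, R, u, w, det3, zero_mul, add_zero]
    have hs : √(c θ 0 ^ 2 + c θ 1 ^ 2) ^ 2 = c θ 0 ^ 2 + c θ 1 ^ 2 := Real.sq_sqrt (hρ θ).le
    have hp : 0 < √(c θ 0 ^ 2 + c θ 1 ^ 2) := Real.sqrt_pos.2 (hρ θ)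
    have hr : (c θ 0 ^ 2 + c θ 1 ^ 2) * (√(c θ 0 ^ 2 + c θ 1 ^ 2))⁻¹ ^ 2 = 1 := by
      rw [← hs]
      simp only [Real.sqrt_sq hp.le]
      field_simp
    generalize (√(c θ 0 ^ 2 + c θ 1 ^ 2))⁻¹ = r at hr ⊢
    linear_combination (3 * c θ 2 * (deriv c θ 1 * η θ 0 - deriv c θ 0 * η θ 1) * r ^ 3) * hr
  have hint := intervalIntegral.integral_eq_sub_of_hasDerivAt (a := 0) (b := 2 * Real.pi)
    (fun θ _ => dB θ) ((cF0.add cD).intervalIntegrable _ _)
  rw [intervalIntegral.integral_add (cF0.intervalIntegrable _ _) (cD.intervalIntegrable _ _)]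
    at hint
  have hB : B (2 * Real.pi) = B 0 := by simp only [B, hcp, hηp]
  have hv : varInt c η = -∫ θ in (0 : ℝ)..2 * Real.pi, D θ := rfl
  rw [hv]
  linarith

theorem avar_circ_smooth : ContDiff ℝ 1 circ := by
  unfold circ
  rw [contDiff_euclidean]
  intro i
  fin_cases i
  · simpa using Real.contDiff_cos
  · simpa using Real.contDiff_sin
  · simpa using contDiff_const

theorem avar_circ_ne (θ : ℝ) : circ θ ∈ ({0}ᶜ : Set E3) := by
  intro h
  have h0 : circ θ 0 = 0 := by rw [mem_singleton_iff.1 h]; rfl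
  have h1 : circ θ 1 = 0 := by rw [mem_singleton_iff.1 h]; rfl
  simp only [circ, Matrix.cons_val_zero, Matrix.cons_val_one] at h0 h1
  have := Real.sin_sq_add_cos_sq θ
  rw [h0, h1] at this
  norm_num at this

theorem avar_den (q : ℝ) (hq : 0 < q) (θ : ℝ) : 0 < q * Real.cos θ ^ 2 + Real.sin θ ^ 2 := by
  have h := Real.sin_sq_add_cos_sq θ
  rcases eq_or_ne (Real.cos θ) 0 with h0 | h0
  · rw [h0] at h ⊢; nlinarith
  · positivity

theorem avar_reparam (q : ℝ) (hq : 0 < q) : ∃ p : ℝ → ℝ, ContDiff ℝ 1 p ∧ p 0 = 0 ∧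
    p (2 * Real.pi) = 2 * Real.pi ∧
    ∀ θ, ∃ l : ℝ, 0 < l ∧ circ (p θ) = l • (!₂[q * Real.cos θ, Real.sin θ, 0] : E3) := by
  refine ⟨fun θ => θ + Real.arctan ((1 - q) * (Real.sin θ * Real.cos θ) /
    (q * Real.cos θ ^ 2 + Real.sin θ ^ 2)), ?_, by simp, by simp, fun θ => ?_⟩
  · refine contDiff_id.add (ContDiff.arctan (ContDiff.div ?_ ?_ fun θ => (avar_den q hq θ).ne'))
    · exact contDiff_const.mul (Real.contDiff_sin.mul Real.contDiff_cos)
    · exact (contDiff_const.mul (Real.contDiff_cos.pow 2)).add (Real.contDiff_sin.pow 2)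
  · have hD := avar_den q hq θ
    have h := Real.sin_sq_add_cos_sq θ
    beta_reduce
    set T := (1 - q) * (Real.sin θ * Real.cos θ) / (q * Real.cos θ ^ 2 + Real.sin θ ^ 2) with hT
    have hS : 0 < √(1 + T ^ 2) := Real.sqrt_pos.2 (by positivity)
    have hTD : T * (q * Real.cos θ ^ 2 + Real.sin θ ^ 2) = (1 - q) * (Real.sin θ * Real.cos θ) := by
      rw [hT]; field_simp
    clear_value T
    refine ⟨((q * Real.cos θ ^ 2 + Real.sin θ ^ 2) * √(1 + T ^ 2))⁻¹, by positivity, ?_⟩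
    ext i
    fin_cases i
    · simp only [circ, Real.cos_add, Real.cos_arctan, Real.sin_arctan, Fin.zero_eta,
        PiLp.smul_apply, smul_eq_mul, Matrix.cons_val_zero]
      generalize √(1 + T ^ 2) = S at hS
      obtain ⟨D, hD'⟩ : ∃ D, D = q * Real.cos θ ^ 2 + Real.sin θ ^ 2 := ⟨_, rfl⟩
      rw [← hD'] at hD hTD ⊢
      field_simp
      linear_combination (-Real.sin θ) * hTD + q * Real.cos θ * h + Real.cos θ * hD'
    · simp only [circ, Real.sin_add, Real.cos_arctan, Real.sin_arctan, Fin.mk_one,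
        PiLp.smul_apply, smul_eq_mul, Matrix.cons_val_one, Matrix.cons_val_zero]
      generalize √(1 + T ^ 2) = S at hS
      obtain ⟨D, hD'⟩ : ∃ D, D = q * Real.cos θ ^ 2 + Real.sin θ ^ 2 := ⟨_, rfl⟩
      rw [← hD'] at hD hTD ⊢
      field_simp
      linear_combination (Real.cos θ) * hTD + Real.sin θ * h + Real.sin θ * hD'
    · simp [circ]

theorem varInt_reparam (y η : E3 → E3) (hy : ContDiffOn ℝ 1 y {0}ᶜ) (hη : ContinuousOn η {0}ᶜ)
    (hyh : ∀ c : ℝ, 0 < c → ∀ x, y (c • x) = y x) (hηh : ∀ c : ℝ, 0 < c → ∀ x, η (c • x) = η x)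
    (hρ : ∀ θ, 0 < y (circ θ) 0 ^ 2 + y (circ θ) 1 ^ 2) (q : ℝ) (hq : 0 < q) :
    varInt (fun θ => y (circ θ)) (fun θ => η (circ θ)) =
      varInt (fun θ => y !₂[q * Real.cos θ, Real.sin θ, 0])
        (fun θ => η !₂[q * Real.cos θ, Real.sin θ, 0]) := by
  obtain ⟨p, hp, hp0, hp1, hl⟩ := avar_reparam q hq
  have hY : ContDiff ℝ 1 fun θ => y (circ θ) := hy.comp_contDiff avar_circ_smooth avar_circ_ne
  have hH : Continuous fun θ => η (circ θ) :=
    hη.comp_continuous avar_circ_smooth.continuous avar_circ_ne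
  have e1 : (fun θ => y !₂[q * Real.cos θ, Real.sin θ, 0]) = fun θ => y (circ (p θ)) := by
    funext θ
    obtain ⟨l, hl0, hl1⟩ := hl θ
    rw [hl1, hyh l hl0]
  have e2 : (fun θ => η !₂[q * Real.cos θ, Real.sin θ, 0]) = fun θ => η (circ (p θ)) := by
    funext θ
    obtain ⟨l, hl0, hl1⟩ := hl θ
    rw [hl1, hηh l hl0]
  rw [e1, e2]
  generalize hYY : (fun θ => y (circ θ)) = Y at hY
  have hYa : ∀ θ, y (circ θ) = Y θ := fun θ => by rw [← hYY]
  generalize hHH : (fun θ => η (circ θ)) = H at hH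
  have hHa : ∀ θ, η (circ θ) = H θ := fun θ => by rw [← hHH]
  simp only [hYa, hHa] at hρ ⊢
  have cY : Continuous Y := hY.continuous
  have cY' : Continuous (deriv Y) := hY.continuous_deriv le_rfl
  let g : ℝ → ℝ := fun θ =>
    det3 (Y θ) (H θ) (deriv Y θ) * (√(Y θ 0 ^ 2 + Y θ 1 ^ 2))⁻¹ ^ 3
  have cR0 : Continuous fun θ => (√(Y θ 0 ^ 2 + Y θ 1 ^ 2))⁻¹ :=
    Continuous.inv₀ (by fun_prop) fun θ => (Real.sqrt_pos.2 (hρ θ)).ne'
  have cg : Continuous g := by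
    refine Continuous.mul ?_ (cR0.pow 3)
    unfold det3; fun_prop
  have dp : ∀ θ, HasDerivAt p (deriv p θ) θ := fun θ =>
    (hp.differentiable one_ne_zero θ).hasDerivAt
  have key := intervalIntegral.integral_comp_mul_deriv (a := 0) (b := 2 * Real.pi)
    (fun θ _ => dp θ) (hp.continuous_deriv le_rfl).continuousOn cg
  rw [hp0, hp1] at key
  unfold varInt
  congr 1
  refine key.symm.trans ?_
  congr 1
  funext θ
  have hd : deriv (fun θ => Y (p θ)) θ = deriv p θ • deriv Y (p θ) :=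
    ((hY.differentiable one_ne_zero (p θ)).hasDerivAt.scomp θ (dp θ)).deriv
  rw [hd]
  simp only [g, Function.comp, det3, PiLp.smul_apply, smul_eq_mul]
  ring

end Pool.Agent.MMO
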