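import Mathlib

/-! Scalars, bounded continuous functions and elementary operators. -/

set_option autoImplicit false

open Real BoundedContinuousFunction MeasureTheory Set Filter Topology
open scoped NNReal

noncomputable section

namespace Pool.Agent.PS

/-- bounded continuous functions on the line -/
abbrev E0 : Type := ℝ →ᵇ ℝ
/-- bounded continuous functions on the half-line -/
abbrev Y0 : Type := ℝ≥0 →ᵇ ℝ

def gam : ℝ := 1 / 100
def RR : ℝ := 21 / 20
def bet : ℝ := 1 / 1000
def sech (x : ℝ) : ℝ := (cosh x)⁻¹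
/-- the slowly decaying weight `cosh x ^ (-1/100)` -/
def eps (x : ℝ) : ℝ := cosh x ^ (-gam)
/-- the frequencies 3, 9, 15, ... -/
def mm (j : ℕ) : ℕ := 6 * j + 3

theorem gam_pos : 0 < gam := by norm_num [gam]
theorem three_le_mm (j : ℕ) : 3 ≤ mm j := by unfold mm; omega
theorem mm_pos (j : ℕ) : (0 : ℝ) < mm j := by
  have := three_le_mm j; exact_mod_cast (by omega : 0 < mm j)
theorem one_le_mm (j : ℕ) : (1 : ℝ) ≤ mm j := by
  have := three_le_mm j; exact_mod_cast (by omega : 1 ≤ mm j)
theorem odd_mm (j : ℕ) : Odd (mm j) := ⟨3 * j + 1, by unfold mm; omega⟩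
theorem mm_injective : Function.Injective mm := fun a b h => by unfold mm at h; omega

theorem sech_pos (x : ℝ) : 0 < sech x := inv_pos.2 (cosh_pos x)
theorem sech_le_one (x : ℝ) : sech x ≤ 1 := inv_le_one_of_one_le₀ (one_le_cosh x)
theorem sech_neg (x : ℝ) : sech (-x) = sech x := by simp [sech]
theorem sech_mul_cosh (x : ℝ) : sech x * cosh x = 1 := inv_mul_cancel₀ (cosh_pos x).ne'
theorem continuous_sech : Continuous sech :=
  continuous_cosh.inv₀ fun x => (cosh_pos x).ne'
theorem tanh_eq (x : ℝ) : tanh x = sinh x * sech x := by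
  rw [tanh_eq_sinh_div_cosh, div_eq_mul_inv, sech]
theorem tanh_sq_add_sech_sq (x : ℝ) : tanh x ^ 2 + sech x ^ 2 = 1 := by
  have h := cosh_sq x
  have h1 := sech_mul_cosh x
  rw [tanh_eq]
  have : (sinh x ^ 2 + 1) * sech x ^ 2 = 1 := by rw [← h]; nlinarith
  nlinarith
theorem abs_tanh_le_one (x : ℝ) : |tanh x| ≤ 1 := by
  have := tanh_sq_add_sech_sq x
  exact abs_le_one_iff_mul_self_le_one.2 (by nlinarith [sq_nonneg (sech x)])
theorem continuous_tanh' : Continuous tanh := by
  have : tanh = fun x => sinh x * sech x := funext tanh_eq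
  rw [this]; exact continuous_sinh.mul continuous_sech
theorem hasDerivAt_sech (x : ℝ) : HasDerivAt sech (-(tanh x * sech x)) x := by
  have h := (hasDerivAt_cosh x).inv (cosh_pos x).ne'
  refine HasDerivAt.congr_deriv (f := sech) h ?_
  have := (cosh_pos x).ne'
  rw [tanh_eq, sech]; field_simp
theorem hasDerivAt_tanh' (x : ℝ) : HasDerivAt tanh (sech x ^ 2) x := by
  have e : tanh = fun x => sinh x * sech x := funext tanh_eq
  have h := (hasDerivAt_sinh x).mul (hasDerivAt_sech x)
  have h' : HasDerivAt tanh (cosh x * sech x + sinh x * -(tanh x * sech x)) x := by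
    conv => arg 1; rw [e]
    exact h
  refine h'.congr_deriv ?_
  have h1 := sech_mul_cosh x
  have h2 := tanh_sq_add_sech_sq x
  rw [tanh_eq] at h2 ⊢
  nlinarith

theorem eps_pos (x : ℝ) : 0 < eps x := rpow_pos_of_pos (cosh_pos x) _
theorem eps_le_one (x : ℝ) : eps x ≤ 1 :=
  rpow_le_one_of_one_le_of_nonpos (one_le_cosh x) (by linarith [gam_pos])
theorem eps_neg (x : ℝ) : eps (-x) = eps x := by simp [eps]
theorem eps_zero : eps 0 = 1 := by simp [eps]
theorem sech_le_eps (x : ℝ) : sech x ≤ eps x := by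
  rw [sech, eps, ← rpow_neg_one]
  exact rpow_le_rpow_of_exponent_le (one_le_cosh x) (by norm_num [gam])
theorem hasDerivAt_eps (x : ℝ) : HasDerivAt eps (-(gam * tanh x * eps x)) x := by
  have h := (hasDerivAt_cosh x).rpow_const (p := -gam) (Or.inl (cosh_pos x).ne')
  refine HasDerivAt.congr_deriv (f := eps) h ?_
  rw [rpow_sub_one (cosh_pos x).ne', tanh_eq, sech, eps]
  have := (cosh_pos x).ne'
  field_simp
theorem continuous_eps : Continuous eps :=
  continuous_iff_continuousAt.2 fun x => (hasDerivAt_eps x).continuousAt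
theorem eps_le_exp (x : ℝ) : eps x ≤ 2 * exp (-(gam * |x|)) := by
  have h1 : exp |x| / 2 ≤ cosh x := by
    rw [← cosh_abs, cosh_eq]; have := exp_pos (-|x|); linarith
  have h2 : eps x ≤ (exp |x| / 2) ^ (-gam) :=
    rpow_le_rpow_of_nonpos (by positivity) h1 (by linarith [gam_pos])
  refine h2.trans ?_
  rw [div_rpow (exp_pos _).le (by norm_num), ← exp_mul, rpow_neg (by norm_num), div_inv_eq_mul,
    mul_comm]
  have h3 : (2 : ℝ) ^ gam ≤ 2 := by
    calc (2 : ℝ) ^ gam ≤ 2 ^ (1 : ℝ) :=
          rpow_le_rpow_of_exponent_le (by norm_num) (by norm_num [gam])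
      _ = 2 := rpow_one 2
  have e : |x| * -gam = -(gam * |x|) := by ring
  rw [e]
  exact mul_le_mul_of_nonneg_right h3 (exp_pos _).le

theorem abs_integral_eps_le (a b : ℝ) (ha : 0 ≤ a) (hab : a ≤ b) :
    ∫ s in a..b, eps s ≤ 200 * exp (-(gam * a)) := by
  have h1 : ∫ s in a..b, eps s ≤ ∫ s in a..b, 2 * exp (-(gam * s)) := by
    refine intervalIntegral.integral_mono_on hab (continuous_eps.intervalIntegrable _ _)
      (Continuous.intervalIntegrable (by fun_prop) _ _) fun s hs => ?_
    have := eps_le_exp s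
    rwa [abs_of_nonneg (ha.trans hs.1)] at this
  have h2 : ∫ s in a..b, 2 * exp (-(gam * s)) =
      -200 * exp (-(gam * b)) - -200 * exp (-(gam * a)) := by
    refine intervalIntegral.integral_eq_sub_of_hasDerivAt (f := fun s => -200 * exp (-(gam * s)))
      (fun s _ => ?_) (Continuous.intervalIntegrable (by fun_prop) _ _)
    have := (((hasDerivAt_id s).const_mul gam).neg.exp).const_mul (-200)
    refine HasDerivAt.congr_deriv (f := fun s => -200 * exp (-(gam * s))) this ?_
    simp only [gam, id, Pi.neg_apply]; ring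
  have := exp_pos (-(gam * b))
  linarith

/-- bundle a continuous function with a bound -/
def mkB (f : ℝ → ℝ) (hf : Continuous f) (C : ℝ) (hC : ∀ x, |f x| ≤ C) : E0 :=
  ofNormedAddCommGroup f hf C hC

@[simp] theorem mkB_apply (f : ℝ → ℝ) (hf : Continuous f) (C : ℝ) (hC : ∀ x, |f x| ≤ C) (x : ℝ) :
    mkB f hf C hC x = f x := rfl

theorem norm_le_of_abs {f : E0} {C : ℝ} (h : ∀ x, |f x| ≤ C) : ‖f‖ ≤ C :=
  (norm_le ((abs_nonneg _).trans (h 0))).2 h

theorem abs_le_norm (f : E0) (x : ℝ) : |f x| ≤ ‖f‖ := f.norm_coe_le_norm x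

def epsB : E0 := mkB eps continuous_eps 1 fun x => by
  rw [abs_of_pos (eps_pos x)]; exact eps_le_one x
def tanhB : E0 := mkB tanh continuous_tanh' 1 abs_tanh_le_one
def sechB : E0 := mkB sech continuous_sech 1 fun x => by
  rw [abs_of_pos (sech_pos x)]; exact sech_le_one x
/-- `sech ^ 2 / eps` -/
def s2eB : E0 := mkB (fun x => sech x ^ 2 / eps x)
  ((continuous_sech.pow 2).div continuous_eps fun x => (eps_pos x).ne') 1 fun x => by
    have h0 := sech_pos x
    have h1 := eps_pos x
    rw [abs_of_pos (by positivity), div_le_one h1]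
    nlinarith [sech_le_one x, sech_le_eps x]

@[simp] theorem epsB_apply (x : ℝ) : epsB x = eps x := rfl
@[simp] theorem tanhB_apply (x : ℝ) : tanhB x = tanh x := rfl
@[simp] theorem sechB_apply (x : ℝ) : sechB x = sech x := rfl
@[simp] theorem s2eB_apply (x : ℝ) : s2eB x = sech x ^ 2 / eps x := rfl
theorem norm_epsB : ‖epsB‖ ≤ 1 := norm_le_of_abs fun x => by
  rw [epsB_apply, abs_of_pos (eps_pos x)]; exact eps_le_one x
theorem norm_tanhB : ‖tanhB‖ ≤ 1 := norm_le_of_abs abs_tanh_le_one
theorem norm_sechB : ‖sechB‖ ≤ 1 := norm_le_of_abs fun x => by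
  rw [sechB_apply, abs_of_pos (sech_pos x)]; exact sech_le_one x
theorem norm_s2eB : ‖s2eB‖ ≤ 1 := norm_le_of_abs fun x => by
  have h0 := sech_pos x
  have h1 := eps_pos x
  rw [s2eB_apply, abs_of_pos (by positivity), div_le_one h1]
  nlinarith [sech_le_one x, sech_le_eps x]

/-- `alpB m n = m - 2 n tanh` -/
def alpB (m n : ℝ) : E0 := m • (1 : E0) - (2 * n) • tanhB
@[simp] theorem alpB_apply (m n x : ℝ) : alpB m n x = m - 2 * n * tanh x := by
  simp [alpB]
theorem norm_alpB (m n : ℝ) : ‖alpB m n‖ ≤ |m| + 2 * |n| := norm_le_of_abs fun x => by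
  rw [alpB_apply]
  have h := abs_tanh_le_one x
  calc |m - 2 * n * tanh x| ≤ |m| + |2 * n * tanh x| := abs_sub _ _
    _ = |m| + 2 * |n| * |tanh x| := by rw [abs_mul, abs_mul, abs_two]
    _ ≤ |m| + 2 * |n| := by nlinarith [abs_nonneg n]
/-- the sum of two consecutive `alpB` -/
def abB (m n : ℝ) : E0 := alpB m n + alpB m (n - 1)
@[simp] theorem abB_apply (m n x : ℝ) : abB m n x = 2 * m - (4 * n - 2) * tanh x := by
  simp [abB]; ring

/-- multiplication operator on the line -/
def mulL (a : E0) : E0 →L[ℝ] E0 := ContinuousLinearMap.mul ℝ E0 a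
@[simp] theorem mulL_apply (a c : E0) : mulL a c = a * c := rfl
theorem norm_mulL (a : E0) : ‖mulL a‖ ≤ ‖a‖ := ContinuousLinearMap.opNorm_mul_apply_le ℝ E0 a
/-- multiplication operator on the half-line -/
def mulY (a : Y0) : Y0 →L[ℝ] Y0 := ContinuousLinearMap.mul ℝ Y0 a
@[simp] theorem mulY_apply (a c : Y0) : mulY a c = a * c := rfl
theorem norm_mulY (a : Y0) : ‖mulY a‖ ≤ ‖a‖ := ContinuousLinearMap.opNorm_mul_apply_le ℝ Y0 a

/-- reflection `f ↦ f (-·)` -/
def refl : E0 →L[ℝ] E0 := compContinuousCLM ℝ ℝ ⟨fun x : ℝ => -x, continuous_neg⟩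
@[simp] theorem refl_apply (f : E0) (x : ℝ) : refl f x = f (-x) := rfl
theorem norm_refl : ‖refl‖ ≤ 1 := norm_compContinuousCLM_le_one _
/-- even extension -/
def ext : Y0 →L[ℝ] E0 :=
  compContinuousCLM ℝ ℝ ⟨fun x : ℝ => (⟨|x|, abs_nonneg x⟩ : ℝ≥0), by fun_prop⟩
@[simp] theorem ext_apply (y : Y0) (x : ℝ) : ext y x = y ⟨|x|, abs_nonneg x⟩ := rfl
theorem norm_ext : ‖ext‖ ≤ 1 := norm_compContinuousCLM_le_one _
/-- restriction to the half-line -/
def res : E0 →L[ℝ] Y0 := compContinuousCLM ℝ ℝ ⟨fun x : ℝ≥0 => (x : ℝ), NNReal.continuous_coe⟩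
@[simp] theorem res_apply (f : E0) (x : ℝ≥0) : res f x = f x := rfl
theorem norm_res : ‖res‖ ≤ 1 :=
  res.opNorm_le_bound zero_le_one fun f => by
    rw [one_mul]; exact (norm_le (norm_nonneg _)).2 fun x => f.norm_coe_le_norm _
theorem ext_coe (y : Y0) (x : ℝ≥0) : ext y x = y x := by
  have h : (⟨|(x : ℝ)|, abs_nonneg _⟩ : ℝ≥0) = x := NNReal.eq (abs_of_nonneg x.2)
  rw [ext_apply, h]
theorem res_ext (y : Y0) : res (ext y) = y := by
  ext x; exact ext_coe y x
theorem ext_neg (y : Y0) (x : ℝ) : ext y (-x) = ext y x := by simp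
theorem ext_res (f : E0) (x : ℝ) : ext (res f) x = f |x| := rfl
theorem norm_ext_apply (y : Y0) : ‖ext y‖ = ‖y‖ := by
  refine le_antisymm (norm_le_of_abs fun x => y.norm_coe_le_norm _) ?_
  refine (norm_le (norm_nonneg _)).2 fun x => ?_
  rw [← ext_coe]; exact (ext y).norm_coe_le_norm _

theorem abs_prim_le (p : E0) (x : ℝ) : |∫ s in (0 : ℝ)..x, eps s * p s| ≤ 200 * ‖p‖ := by
  have key : ∀ (q : E0) (x : ℝ), 0 ≤ x → |∫ s in (0 : ℝ)..x, eps s * q s| ≤ 200 * ‖q‖ := by
    intro q x hx
    have h1 : |∫ s in (0 : ℝ)..x, eps s * q s| ≤ ∫ s in (0 : ℝ)..x, eps s * ‖q‖ := by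
      refine (intervalIntegral.abs_integral_le_integral_abs hx).trans ?_
      refine intervalIntegral.integral_mono_on hx
        ((continuous_eps.mul q.continuous).abs.intervalIntegrable _ _)
        ((continuous_eps.mul continuous_const).intervalIntegrable _ _) fun s _ => ?_
      rw [abs_mul, abs_of_pos (eps_pos s)]
      exact mul_le_mul_of_nonneg_left (abs_le_norm q s) (eps_pos s).le
    rw [intervalIntegral.integral_mul_const] at h1
    have h2 := abs_integral_eps_le 0 x le_rfl hx
    simp only [mul_zero, neg_zero, exp_zero, mul_one] at h2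
    exact h1.trans (mul_le_mul_of_nonneg_right h2 (norm_nonneg _))
  rcases le_total 0 x with hx | hx
  · exact key p x hx
  · have h := key (refl p) (-x) (by linarith)
    have e : ∫ s in (0 : ℝ)..(-x), eps s * refl p s = -∫ s in (0 : ℝ)..x, eps s * p s := by
      have := intervalIntegral.integral_comp_neg (a := 0) (b := -x) (fun s => eps s * p s)
      simp only [eps_neg, neg_neg, neg_zero] at this
      rw [intervalIntegral.integral_symm x 0, neg_neg, ← this]
      rfl
    rw [e, abs_neg] at h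
    refine h.trans (mul_le_mul_of_nonneg_left ?_ (by norm_num))
    exact (refl.le_opNorm p).trans (by nlinarith [norm_refl, norm_nonneg p])

theorem hasDerivAt_prim (p : E0) (x : ℝ) :
    HasDerivAt (fun x => ∫ s in (0 : ℝ)..x, eps s * p s) (eps x * p x) x :=
  ((continuous_eps.mul p.continuous).integral_hasStrictDerivAt 0 x).hasDerivAt

/-- the primitive `p ↦ ∫_0^x eps * p` -/
def primL : E0 →L[ℝ] E0 :=
  LinearMap.mkContinuous
    { toFun := fun p => mkB (fun x => ∫ s in (0 : ℝ)..x, eps s * p s)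
        (continuous_iff_continuousAt.2 fun x => (hasDerivAt_prim p x).continuousAt)
        (200 * ‖p‖) (abs_prim_le p)
      map_add' := fun p q => by
        ext x
        simp only [mkB_apply, BoundedContinuousFunction.add_apply, mul_add]
        exact intervalIntegral.integral_add
          ((continuous_eps.mul p.continuous).intervalIntegrable _ _)
          ((continuous_eps.mul q.continuous).intervalIntegrable _ _)
      map_smul' := fun c p => by
        ext x
        simp only [mkB_apply, BoundedContinuousFunction.smul_apply, smul_eq_mul, RingHom.id_apply]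
        rw [← intervalIntegral.integral_const_mul]
        congr 1; ext s; ring }
    200 fun p => norm_le_of_abs (abs_prim_le p)

theorem primL_apply (p : E0) (x : ℝ) : primL p x = ∫ s in (0 : ℝ)..x, eps s * p s := rfl
theorem norm_primL : ‖primL‖ ≤ 200 := LinearMap.mkContinuous_norm_le _ (by norm_num) _
theorem hasDerivAt_primL (p : E0) (x : ℝ) : HasDerivAt (primL p) (eps x * p x) x :=
  hasDerivAt_prim p x
theorem primL_zero (p : E0) : primL p 0 = 0 := by simp [primL_apply]

/-- `R` solves `v' = a v + c` on the line -/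
def IsRes (a : E0) (R : E0 →L[ℝ] E0) : Prop :=
  ∀ c x, HasDerivAt (R c) (a x * R c x + c x) x

/-- coefficients of `(1 - q) ^ (-3/2)` -/
def cc : ℕ → ℝ
  | 0 => 1
  | n + 1 => cc n * (n + 3 / 2) / (n + 1)

end Pool.Agent.PS
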