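import Pool.Agent.P.MP_6c3c64_gt.Defs

/-! Row Circ. The gauge along a great circle. Chain rule with `hasDerivAt_xc`, then algebra with
`sinh_xc`, `cosh_xc_sq`, `rho_sq`, `tanh_eq`, `sech_mul_cosh`, `cosh x * dxc = -a sin ψ`.
`gv_lower`: `n * sech = X * (rho cos ψ * sech) + Y * (sin ψ * sech)` and the coefficient vector
is a unit vector. In `curve_facts`: `re (P conj W) = 1` is the same identity; differentiate `Pc`
directly; `im (conj P * P') = rho / n ^ 2`; `cross_eq` and `Good.hess` give the sign.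
-/

set_option autoImplicit false

open Real BoundedContinuousFunction MeasureTheory Set Filter Topology
open scoped NNReal ENNReal

noncomputable section

namespace Pool.Agent.PS

theorem Circ_frame_deriv (a ψ : ℝ) {v1 v2 v3 : ℝ → ℝ} {d1 d2 d3 : ℝ}
    (h1 : HasDerivAt v1 (d1 + v2 ψ) ψ) (h2 : HasDerivAt v2 (d2 - v1 ψ) ψ)
    (h3 : HasDerivAt v3 d3 ψ) :
    HasDerivAt (fun θ => frame a θ (v1 θ, v2 θ, v3 θ)) (frame a ψ (d1, d2, d3)) ψ := by
  have hc := hasDerivAt_cos ψ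
  have hs := hasDerivAt_sin ψ
  have e1 : HasDerivAt (fun θ => v1 θ * cos θ - v2 θ * sin θ) (d1 * cos ψ - d2 * sin ψ) ψ :=
    ((h1.mul hc).sub (h2.mul hs)).congr_deriv (by ring)
  have e2 : HasDerivAt (fun θ => v1 θ * sin θ + v2 θ * cos θ) (d1 * sin ψ + d2 * cos ψ) ψ :=
    ((h1.mul hs).add (h2.mul hc)).congr_deriv (by ring)
  exact ((e1.add (h3.const_mul a)).div_const (rho a)).prodMk
    (e2.prodMk (((e1.const_mul a).neg.add h3).div_const (rho a)))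

theorem Circ_dxc (a ψ : ℝ) : dxc a ψ = -(a * sin ψ) * sech (xc a ψ) := by
  rw [dxc, sech, div_eq_mul_inv]

theorem Circ_tanh (a ψ : ℝ) : tanh (xc a ψ) = a * cos ψ * sech (xc a ψ) := by
  rw [tanh_eq, sinh_xc]

theorem Circ_xc_per (a ψ : ℝ) : xc a (ψ + 2 * π) = xc a ψ := by
  rw [xc, xc, cos_add_two_pi]

theorem Circ_dxc_per (a ψ : ℝ) : dxc a (ψ + 2 * π) = dxc a ψ := by
  rw [dxc, dxc, Circ_xc_per, sin_add_two_pi]

theorem Circ_frame_per (a ψ : ℝ) (v : ℝ × ℝ × ℝ) : frame a (ψ + 2 * π) v = frame a ψ v := by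
  simp only [frame, cos_add_two_pi, sin_add_two_pi]

theorem Circ_curve (a α ψ : ℝ) :
    HasDerivAt (fun θ => ((θ + α, xc a θ) : ℝ × ℝ)) (1, dxc a ψ) ψ :=
  ((hasDerivAt_id ψ).add_const α).prodMk (hasDerivAt_xc a ψ)

theorem Circ_comp {F : ℝ × ℝ → ℝ} {p q a α ψ : ℝ}
    (h : HasFDerivAt F (p • ContinuousLinearMap.fst ℝ ℝ ℝ + q • ContinuousLinearMap.snd ℝ ℝ ℝ)
      (ψ + α, xc a ψ)) :
    HasDerivAt (fun θ => F (θ + α, xc a θ)) (p + q * dxc a ψ) ψ :=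
  (h.comp_hasDerivAt ψ (Circ_curve a α ψ)).congr_deriv (by simp)

theorem Circ_cont {F : ℝ × ℝ → ℝ} (h : Continuous F) (a α : ℝ) :
    Continuous fun θ => F (θ + α, xc a θ) :=
  h.comp ((continuous_id.add continuous_const).prodMk (continuous_xc a))

namespace RJ

variable (g : RJ)

theorem Circ_dn (h : g.IsC2) (a α ψ : ℝ) : HasDerivAt (fun θ => g.n (θ + α) (xc a θ))
    (g.b (ψ + α) (xc a ψ) + g.a (ψ + α) (xc a ψ) * dxc a ψ) ψ := Circ_comp (h.dn _ _)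

theorem hasDerivAt_gv (h : g.IsC2) (a α ψ : ℝ) : HasDerivAt (g.gv a α) (g.gd a α ψ) ψ := by
  have hn := g.Circ_dn h a α ψ
  have ha : HasDerivAt (fun θ => g.a (θ + α) (xc a θ)) _ ψ := Circ_comp (h.da (ψ + α) (xc a ψ))
  have hb : HasDerivAt (fun θ => g.b (θ + α) (xc a θ)) _ ψ := Circ_comp (h.db (ψ + α) (xc a ψ))
  have ht : HasDerivAt (fun θ => tanh (xc a θ)) _ ψ :=
    (hasDerivAt_tanh' (xc a ψ)).comp ψ (hasDerivAt_xc a ψ)
  have hs : HasDerivAt (fun θ => sech (xc a θ)) _ ψ :=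
    (hasDerivAt_sech (xc a ψ)).comp ψ (hasDerivAt_xc a ψ)
  have e := tanh_sq_add_sech_sq (xc a ψ)
  refine Circ_frame_deriv a ψ
    (v1 := fun θ => g.n (θ + α) (xc a θ) - tanh (xc a θ) * g.a (θ + α) (xc a θ))
    (v2 := fun θ => g.b (θ + α) (xc a θ))
    (v3 := fun θ => sech (xc a θ) * g.a (θ + α) (xc a θ)) ?_ ?_ ?_
  · refine (hn.sub (ht.mul ha)).congr_deriv ?_
    linear_combination (-(g.a (ψ + α) (xc a ψ) * dxc a ψ)) * e
  · exact hb.congr_deriv (by ring)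
  · exact (hs.mul ha).congr_deriv (by ring)

theorem continuous_gd (h : g.IsC2) (a α : ℝ) : Continuous (g.gd a α) := by
  have hl : Continuous fun θ => g.l (θ + α) (xc a θ) := Circ_cont h.cl a α
  have hr : Continuous fun θ => g.r (θ + α) (xc a θ) := Circ_cont h.cr a α
  have hu : Continuous fun θ => g.u (θ + α) (xc a θ) := Circ_cont h.cu a α
  have ht : Continuous fun θ => tanh (xc a θ) := continuous_tanh'.comp (continuous_xc a)
  have hs : Continuous fun θ => sech (xc a θ) := continuous_sech.comp (continuous_xc a)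
  have hd := continuous_dxc a
  have h1 := (ht.mul (hl.add (hu.mul hd))).neg
  have h2 := hr.add (hl.mul hd)
  have h3 := hs.mul (hl.add (hu.mul hd))
  have e1 := (h1.mul continuous_cos).sub (h2.mul continuous_sin)
  exact ((e1.add (continuous_const.mul h3)).div_const (rho a)).prodMk
    (((h1.mul continuous_sin).add (h2.mul continuous_cos)).prodMk
      (((continuous_const.mul e1).neg.add h3).div_const (rho a)))

theorem periodic_gv (h : g.IsC2) (a α : ℝ) : Function.Periodic (g.gv a α) (2 * π) := by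
  intro ψ
  simp only [gv, nv, Circ_frame_per, Circ_xc_per, add_right_comm ψ (2 * π) α, h.pn, h.pa, h.pb]

theorem periodic_gd (h : g.IsC2) (a α : ℝ) : Function.Periodic (g.gd a α) (2 * π) := by
  intro ψ
  simp only [gd, nd, Circ_frame_per, Circ_xc_per, Circ_dxc_per, add_right_comm ψ (2 * π) α, h.pl,
    h.pr, h.pu]

theorem Circ_n_eq (a α ψ : ℝ) :
    rho a * cos ψ * (g.gv a α ψ).1 + sin ψ * (g.gv a α ψ).2.1 = g.n (ψ + α) (xc a ψ) := by
  have hρ := (rho_pos a).ne'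
  have e := sin_sq_add_cos_sq ψ
  simp only [gv, frame, nv]
  rw [mul_comm (rho a), mul_assoc, mul_div_cancel₀ _ hρ, Circ_tanh]
  linear_combination (g.n (ψ + α) (xc a ψ) -
    a * cos ψ * sech (xc a ψ) * g.a (ψ + α) (xc a ψ)) * e

theorem Circ_dn_eq (a α ψ : ℝ) :
    -(rho a * sin ψ * (g.gv a α ψ).1) + cos ψ * (g.gv a α ψ).2.1 =
      g.b (ψ + α) (xc a ψ) + g.a (ψ + α) (xc a ψ) * dxc a ψ := by
  have hρ := (rho_pos a).ne'
  have e := sin_sq_add_cos_sq ψ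
  simp only [gv, frame, nv]
  rw [mul_comm (rho a), mul_assoc, mul_div_cancel₀ _ hρ, Circ_dxc]
  linear_combination g.b (ψ + α) (xc a ψ) * e

theorem gv_lower (a α ψ : ℝ) : (g.n (ψ + α) (xc a ψ) * sech (xc a ψ)) ^ 2 ≤
    (g.gv a α ψ).1 ^ 2 + (g.gv a α ψ).2.1 ^ 2 := by
  have e1 : (rho a * cos ψ * sech (xc a ψ)) ^ 2 + (sin ψ * sech (xc a ψ)) ^ 2 = 1 := by
    have h1 := rho_sq a
    have h2 := cosh_xc_sq a ψ
    have h3 := sech_mul_cosh (xc a ψ)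
    have h4 := sin_sq_add_cos_sq ψ
    linear_combination (cos ψ * sech (xc a ψ)) ^ 2 * h1 + sech (xc a ψ) ^ 2 * h4 -
      sech (xc a ψ) ^ 2 * h2 + (sech (xc a ψ) * cosh (xc a ψ) + 1) * h3
  rw [← g.Circ_n_eq a α ψ]
  generalize (g.gv a α ψ).1 = X
  generalize (g.gv a α ψ).2.1 = Y
  have e2 := sq_nonneg (X * (sin ψ * sech (xc a ψ)) - Y * (rho a * cos ψ * sech (xc a ψ)))
  have e3 : ((rho a * cos ψ * X + sin ψ * Y) * sech (xc a ψ)) ^ 2 +
      (X * (sin ψ * sech (xc a ψ)) - Y * (rho a * cos ψ * sech (xc a ψ))) ^ 2 = X ^ 2 + Y ^ 2 := by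
    linear_combination (X ^ 2 + Y ^ 2) * e1
  linarith

theorem cross_eq (a α ψ : ℝ) :
    (g.gv a α ψ).1 * (g.gd a α ψ).2.1 - (g.gv a α ψ).2.1 * (g.gd a α ψ).1 =
      g.n (ψ + α) (xc a ψ) / rho a * (g.r (ψ + α) (xc a ψ) + 2 * g.l (ψ + α) (xc a ψ) * dxc a ψ
        + g.u (ψ + α) (xc a ψ) * dxc a ψ ^ 2) := by
  have hρ := (rho_pos a).ne'
  have e := sin_sq_add_cos_sq ψ
  simp only [gv, gd, frame, nv, nd]
  rw [Circ_tanh, Circ_dxc]
  generalize g.n (ψ + α) (xc a ψ) = N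
  generalize g.a (ψ + α) (xc a ψ) = A
  generalize g.b (ψ + α) (xc a ψ) = B
  generalize g.l (ψ + α) (xc a ψ) = L
  generalize g.r (ψ + α) (xc a ψ) = R
  generalize g.u (ψ + α) (xc a ψ) = U
  generalize sech (xc a ψ) = s
  linear_combination (rho a)⁻¹ * ((N - a * cos ψ * s * A) * (R + L * (-(a * sin ψ) * s)) +
    B * (a * cos ψ * s * (L + U * (-(a * sin ψ) * s)))) * e

theorem Circ_n_pos (hg : g.Good) (φ x : ℝ) : 0 < g.n φ x :=
  (mul_pos_iff_of_pos_right (sech_pos x)).1 (lt_of_lt_of_le (by norm_num) (hg.lower φ x))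

theorem Circ_quad {r l u d : ℝ} (hr : 0 ≤ r) (hu : 0 ≤ u) (h : l ^ 2 ≤ r * u) :
    0 ≤ r + 2 * l * d + u * d ^ 2 := by
  have h1 : 0 ≤ r + u * d ^ 2 := by positivity
  have h2 : (2 * l * d) ^ 2 ≤ (r + u * d ^ 2) ^ 2 := by
    nlinarith [sq_nonneg (r - u * d ^ 2), mul_le_mul_of_nonneg_right h (sq_nonneg d)]
  have h3 := (abs_le_of_sq_le_sq' h2 h1).1
  linarith

theorem Circ_re (p q x y : ℝ) : ((⟨p, q⟩ : ℂ) * (starRingEnd ℂ) (⟨x, y⟩ : ℂ)).re = p * x + q * y := by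
  simp

theorem Circ_im (p q x y : ℝ) : ((starRingEnd ℂ) (⟨p, q⟩ : ℂ) * (⟨x, y⟩ : ℂ)).im = p * y - q * x := by
  simp [sub_eq_add_neg]

theorem Circ_Pc (a α ψ : ℝ) : g.Pc a α ψ = ⟨(g.n (ψ + α) (xc a ψ))⁻¹ * (rho a * cos ψ),
    (g.n (ψ + α) (xc a ψ))⁻¹ * sin ψ⟩ := by
  rw [Pc]
  apply Complex.ext
  · rw [Complex.re_ofReal_mul]
  · rw [Complex.im_ofReal_mul]

theorem Circ_mk_deriv {f h : ℝ → ℝ} {f' h' ψ : ℝ} (hf : HasDerivAt f f' ψ)
    (hh : HasDerivAt h h' ψ) : HasDerivAt (fun θ => (⟨f θ, h θ⟩ : ℂ)) ⟨f', h'⟩ ψ := by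
  have := Complex.equivRealProdCLM.symm.toContinuousLinearMap.hasFDerivAt.comp_hasDerivAt ψ
    (hf.prodMk hh)
  exact this

theorem Circ_mk_cont {f h : ℝ → ℝ} (hf : Continuous f) (hh : Continuous h) :
    Continuous fun θ => (⟨f θ, h θ⟩ : ℂ) :=
  Complex.equivRealProdCLM.symm.continuous.comp (hf.prodMk hh)

theorem curve_facts (h : g.IsC2) (hg : g.Good) (a α : ℝ) : ∃ Pd : ℝ → ℂ,
    (∀ ψ, HasDerivAt (g.Pc a α) (Pd ψ) ψ) ∧ (∀ ψ, HasDerivAt (g.Wc a α) (g.Wd a α ψ) ψ) ∧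
    Continuous Pd ∧ Continuous (g.Wd a α) ∧
    Function.Periodic (g.Pc a α) (2 * π) ∧ Function.Periodic (g.Wc a α) (2 * π) ∧
    (∀ ψ, (g.Pc a α ψ * (starRingEnd ℂ) (g.Wc a α ψ)).re = 1) ∧
    (∀ ψ, (Pd ψ * (starRingEnd ℂ) (g.Wc a α ψ)).re = 0) ∧
    (∀ ψ : ℝ, 0 < (g.Pc a α ψ * Complex.exp (-(Complex.I * ψ))).re) ∧
    (∀ ψ, 0 ≤ ((starRingEnd ℂ) (g.Wc a α ψ) * g.Wd a α ψ).im) ∧
    (∀ ψ, 0 < ((starRingEnd ℂ) (g.Pc a α ψ) * Pd ψ).im) := by
  set N : ℝ → ℝ := fun θ => g.n (θ + α) (xc a θ) with hN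
  set N' : ℝ → ℝ := fun θ => g.b (θ + α) (xc a θ) + g.a (θ + α) (xc a θ) * dxc a θ with hN'
  have hpos : ∀ θ, 0 < N θ := fun θ => g.Circ_n_pos hg _ _
  have hdN : ∀ θ, HasDerivAt N (N' θ) θ := fun θ => g.Circ_dn h a α θ
  have hcN : Continuous N := continuous_iff_continuousAt.2 fun θ => (hdN θ).continuousAt
  have hca : Continuous fun p : ℝ × ℝ => g.a p.1 p.2 :=
    continuous_iff_continuousAt.2 fun p => (h.da p.1 p.2).continuousAt
  have hcb : Continuous fun p : ℝ × ℝ => g.b p.1 p.2 :=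
    continuous_iff_continuousAt.2 fun p => (h.db p.1 p.2).continuousAt
  have hcN' : Continuous N' :=
    (Circ_cont hcb a α).add ((Circ_cont hca a α).mul (continuous_dxc a))
  have hci : Continuous fun θ => (N θ)⁻¹ := hcN.inv₀ fun θ => (hpos θ).ne'
  have hcd : Continuous fun θ => -N' θ / N θ ^ 2 :=
    hcN'.neg.div (hcN.pow 2) fun θ => pow_ne_zero 2 (hpos θ).ne'
  have hP : g.Pc a α = fun θ => (⟨(N θ)⁻¹ * (rho a * cos θ), (N θ)⁻¹ * sin θ⟩ : ℂ) :=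
    funext fun θ => g.Circ_Pc a α θ
  have hρ := rho_pos a
  refine ⟨fun θ => ⟨-N' θ / N θ ^ 2 * (rho a * cos θ) + (N θ)⁻¹ * (rho a * -sin θ),
    -N' θ / N θ ^ 2 * sin θ + (N θ)⁻¹ * cos θ⟩, fun ψ => ?_, fun ψ => ?_, ?_, ?_, fun ψ => ?_,
    fun ψ => ?_, fun ψ => ?_, fun ψ => ?_, fun ψ => ?_, fun ψ => ?_, fun ψ => ?_⟩
  · rw [hP]
    have hi := (hdN ψ).inv (hpos ψ).ne'
    exact Circ_mk_deriv (hi.mul ((hasDerivAt_cos ψ).const_mul (rho a))) (hi.mul (hasDerivAt_sin ψ))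
  · have h0 := g.hasDerivAt_gv h a α ψ
    exact Circ_mk_deriv h0.fst h0.snd.fst
  · exact Circ_mk_cont
      ((hcd.mul (continuous_const.mul continuous_cos)).add
        (hci.mul (continuous_const.mul continuous_sin.neg)))
      ((hcd.mul continuous_sin).add (hci.mul continuous_cos))
  · have h0 := g.continuous_gd h a α
    exact Circ_mk_cont h0.fst h0.snd.fst
  · simp only [Pc, Circ_xc_per, add_right_comm ψ (2 * π) α, h.pn, cos_add_two_pi, sin_add_two_pi]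
  · simp only [Wc, g.periodic_gv h a α ψ]
  · have e : _ = N ψ := g.Circ_n_eq a α ψ
    have hne := (hpos ψ).ne'
    rw [hP, Wc, Circ_re]
    linear_combination (N ψ)⁻¹ * e + inv_mul_cancel₀ hne
  · have e : _ = N ψ := g.Circ_n_eq a α ψ
    have e' : _ = N' ψ := g.Circ_dn_eq a α ψ
    have hne := (hpos ψ).ne'
    have e'' : -N' ψ / N ψ ^ 2 * N ψ + (N ψ)⁻¹ * N' ψ = 0 := by
      field_simp
      ring
    rw [Wc, Circ_re]
    linear_combination (-N' ψ / N ψ ^ 2) * e + (N ψ)⁻¹ * e' + e''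
  · have e : Complex.exp (-(Complex.I * ψ)) = (starRingEnd ℂ) (⟨cos ψ, sin ψ⟩ : ℂ) := by
      rw [show -(Complex.I * (ψ : ℂ)) = ((-ψ : ℝ) : ℂ) * Complex.I by push_cast; ring]
      apply Complex.ext
      · rw [Complex.exp_ofReal_mul_I_re, cos_neg, Complex.conj_re]
      · rw [Complex.exp_ofReal_mul_I_im, sin_neg, Complex.conj_im]
    rw [hP, e, Circ_re]
    have h1 : 1 ≤ rho a := by nlinarith [rho_sq a, sq_nonneg a]
    have h2 : 0 < rho a * cos ψ ^ 2 + sin ψ ^ 2 := by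
      nlinarith [sin_sq_add_cos_sq ψ, mul_le_mul_of_nonneg_right h1 (sq_nonneg (cos ψ))]
    have h3 := mul_pos (inv_pos.2 (hpos ψ)) h2
    linarith
  · rw [Wc, Wd, Circ_im, cross_eq]
    exact mul_nonneg (div_pos (hpos ψ) hρ).le
      (Circ_quad (hg.r_nonneg _ _) (hg.u_nonneg _ _) (hg.hess _ _))
  · rw [hP, Circ_im]
    have h1 := mul_pos (pow_pos (inv_pos.2 (hpos ψ)) 2) hρ
    have e := sin_sq_add_cos_sq ψ
    have e2 : (N ψ)⁻¹ * (rho a * cos ψ) * (-N' ψ / N ψ ^ 2 * sin ψ + (N ψ)⁻¹ * cos ψ) -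
        (N ψ)⁻¹ * sin ψ * (-N' ψ / N ψ ^ 2 * (rho a * cos ψ) + (N ψ)⁻¹ * (rho a * -sin ψ)) =
        (N ψ)⁻¹ ^ 2 * rho a := by
      linear_combination (N ψ)⁻¹ ^ 2 * rho a * e
    rw [e2]
    exact h1

theorem injOn_Pc (hg : g.Good) (a α : ℝ) : InjOn (g.Pc a α) (Ico 0 (2 * π)) := by
  intro ψ hψ θ hθ he
  rw [Circ_Pc, Circ_Pc, Complex.mk.injEq] at he
  have hp := inv_pos.2 (g.Circ_n_pos hg (ψ + α) (xc a ψ))
  have hq := inv_pos.2 (g.Circ_n_pos hg (θ + α) (xc a θ))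
  generalize (g.n (ψ + α) (xc a ψ))⁻¹ = p at he hp
  generalize (g.n (θ + α) (xc a θ))⁻¹ = q at he hq
  have h1 : p * cos ψ = q * cos θ :=
    mul_left_cancel₀ (rho_pos a).ne' (by linear_combination he.1)
  have h2 := he.2
  have h3 : p ^ 2 = q ^ 2 := by
    linear_combination (p * cos ψ + q * cos θ) * h1 + (p * sin ψ + q * sin θ) * h2 -
      p ^ 2 * sin_sq_add_cos_sq ψ + q ^ 2 * sin_sq_add_cos_sq θ
  have h4 : p = q := (pow_left_inj₀ hp.le hq.le two_ne_zero).1 h3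
  subst h4
  have h5 := Real.Angle.cos_sin_inj (mul_left_cancel₀ hp.ne' h1) (mul_left_cancel₀ hp.ne' h2)
  obtain ⟨k, hk⟩ := Real.Angle.angle_eq_iff_two_pi_dvd_sub.1 h5
  have hπ := two_pi_pos
  have h6 : (k : ℝ) < 1 := by
    by_contra hc
    nlinarith [hψ.2, hθ.1, not_lt.1 hc]
  have h7 : (-1 : ℝ) < k := by
    by_contra hc
    nlinarith [hψ.1, hθ.2, not_lt.1 hc]
  have h8 : k < 1 := by exact_mod_cast h6
  have h9 : -1 < k := by exact_mod_cast h7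
  have h10 : k = 0 := by omega
  rw [h10, Int.cast_zero, mul_zero] at hk
  exact sub_eq_zero.1 hk

theorem plane_Pc (a α ψ : ℝ) :
    plane (f1vec a α) (f2vec α) (uvec a α) 0 (g.Pc a α ψ) = g.Pvec (ψ + α) (xc a ψ) := by
  have hρ := mul_inv_cancel₀ (rho_pos a).ne'
  rw [Circ_Pc, Pvec, sinh_xc]
  generalize (g.n (ψ + α) (xc a ψ))⁻¹ = p
  ext i
  fin_cases i
  · simp [plane, f1vec, f2vec, cos_add]
    linear_combination p * cos ψ * cos α * hρ
  · simp [plane, f1vec, f2vec, sin_add]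
    linear_combination p * cos ψ * sin α * hρ
  · simp [plane, f1vec, f2vec]
    linear_combination p * cos ψ * a * hρ

theorem inner_plane (a α ψ t : ℝ) (y : ℂ) :
    inner ℝ (plane (f1vec a α) (f2vec α) (uvec a α) t y) (g.nvec (ψ + α) (xc a ψ)) =
      t * (g.gv a α ψ).2.2 + (y * (starRingEnd ℂ) (g.Wc a α ψ)).re := by
  have e := sin_sq_add_cos_sq α
  rw [Wc, gv, nvec]
  generalize g.nv (ψ + α) (xc a ψ) = v
  simp [plane, f1vec, f2vec, uvec, frame, EuclideanSpace.inner_eq_star_dotProduct, dotProduct,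
    Fin.sum_univ_three, cos_add, sin_add]
  linear_combination ((rho a)⁻¹ * (y.re - t * a) * (v.1 * cos ψ - v.2.1 * sin ψ) +
    y.im * (v.1 * sin ψ + v.2.1 * cos ψ)) * e

end RJ

theorem orthonormal_frame (a α : ℝ) : Orthonormal ℝ ![f1vec a α, f2vec α, uvec a α] := by
  have e := sin_sq_add_cos_sq α
  have hρ : (rho a)⁻¹ ^ 2 * (1 + a ^ 2) = 1 := by
    rw [← rho_sq, ← mul_pow, inv_mul_cancel₀ (rho_pos a).ne', one_pow]
  rw [orthonormal_iff_ite]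
  intro i j
  rw [EuclideanSpace.inner_eq_star_dotProduct, dotProduct, Fin.sum_univ_three]
  fin_cases i <;> fin_cases j <;> simp [f1vec, f2vec, uvec]
  · linear_combination (rho a)⁻¹ ^ 2 * e + hρ
  · ring
  · linear_combination -((rho a)⁻¹ ^ 2 * a) * e
  · ring
  · linear_combination e
  · ring
  · linear_combination -((rho a)⁻¹ ^ 2 * a) * e
  · ring
  · linear_combination (rho a)⁻¹ ^ 2 * a ^ 2 * e + hρ

theorem exists_uvec (u : E3) (hu : ‖u‖ = 1) (h : 0 < u 2) : ∃ a α : ℝ, u = uvec a α := by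
  let z : ℂ := ⟨-(u 0 / u 2), -(u 1 / u 2)⟩
  have h1 : ‖z‖ * cos z.arg = -(u 0 / u 2) := Complex.norm_mul_cos_arg z
  have h2 : ‖z‖ * sin z.arg = -(u 1 / u 2) := Complex.norm_mul_sin_arg z
  have h3 : u 0 ^ 2 + u 1 ^ 2 + u 2 ^ 2 = 1 := by
    have := EuclideanSpace.real_norm_sq_eq u
    rw [hu, Fin.sum_univ_three] at this
    linarith
  have h4 : ‖z‖ ^ 2 = (u 0 / u 2) ^ 2 + (u 1 / u 2) ^ 2 := by
    linear_combination (‖z‖ * cos z.arg - u 0 / u 2) * h1 + (‖z‖ * sin z.arg - u 1 / u 2) * h2 -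
      ‖z‖ ^ 2 * sin_sq_add_cos_sq z.arg
  have h5 : rho ‖z‖ = (u 2)⁻¹ := by
    refine (pow_left_inj₀ (rho_pos _).le (inv_pos.2 h).le two_ne_zero).1 ?_
    rw [rho_sq, h4]
    field_simp
    linarith
  refine ⟨‖z‖, z.arg, ?_⟩
  rw [uvec, h1, h2, h5, inv_inv]
  have hne := h.ne'
  ext i
  fin_cases i
  · simp
    field_simp
  · simp
    field_simp
  · simp

end Pool.Agent.PS
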