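import Mathlib

/-! Weighted Wiener algebras over `ℤ × ℤ` with coefficients in a commutative normed algebra. -/

set_option autoImplicit false

open Set Filter Topology UniformSpace

noncomputable section

namespace Pool.Agent.PS

/-- a submultiplicative weight -/
structure Wt where
  w : ℤ × ℤ → ℝ
  one_le : ∀ k, 1 ≤ w k
  w_zero : w 0 = 1
  submul : ∀ k l, w (k + l) ≤ w k * w l

theorem Wt.nonneg (ω : Wt) (k : ℤ × ℤ) : 0 ≤ ω.w k := zero_le_one.trans (ω.one_le k)

/-- finitely supported families -/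
def W0 (_ω : Wt) (E : Type) [NormedCommRing E] : Type := AddMonoidAlgebra E (ℤ × ℤ)

namespace W0

variable {ω : Wt} {E : Type} [NormedCommRing E]

instance : CommRing (W0 ω E) := inferInstanceAs (CommRing (AddMonoidAlgebra E (ℤ × ℤ)))
instance [NormedAlgebra ℝ E] : Algebra ℝ (W0 ω E) :=
  inferInstanceAs (Algebra ℝ (AddMonoidAlgebra E (ℤ × ℤ)))

def co (a : W0 ω E) : ℤ × ℤ →₀ E := (show AddMonoidAlgebra E (ℤ × ℤ) from a).coeff
def sg (ω : Wt) (k : ℤ × ℤ) (e : E) : W0 ω E := AddMonoidAlgebra.single k e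

theorem co_add (a b : W0 ω E) : (a + b).co = a.co + b.co := rfl
theorem co_zero : (0 : W0 ω E).co = 0 := rfl
theorem co_neg (a : W0 ω E) : (-a).co = -a.co := rfl
theorem co_sg (k : ℤ × ℤ) (e : E) : (sg ω k e).co = Finsupp.single k e := rfl
theorem sum_sg (a : W0 ω E) : ∑ k ∈ a.co.support, sg ω k (a.co k) = a :=
  AddMonoidAlgebra.sum_coeff_single (show AddMonoidAlgebra E (ℤ × ℤ) from a)
theorem sg_mul (k l : ℤ × ℤ) (a b : E) : sg ω k a * sg ω l b = sg ω (k + l) (a * b) :=
  AddMonoidAlgebra.single_mul_single k l a b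

def nrm (a : W0 ω E) : ℝ := a.co.sum fun k e => ω.w k * ‖e‖

theorem nrm_eq (a : W0 ω E) (s : Finset (ℤ × ℤ)) (hs : a.co.support ⊆ s) :
    a.nrm = ∑ k ∈ s, ω.w k * ‖a.co k‖ :=
  Finsupp.sum_of_support_subset _ hs _ fun _ _ => by simp

def sem (ω : Wt) (E : Type) [NormedCommRing E] : AddGroupSeminorm (W0 ω E) where
  toFun := nrm
  map_zero' := by simp [nrm, co_zero]
  add_le' a b := by
    classical
    rw [nrm_eq (a + b) (a.co.support ∪ b.co.support) (by rw [co_add]; exact Finsupp.support_add),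
      nrm_eq a _ (Finset.subset_union_left (s₂ := b.co.support)),
      nrm_eq b _ (Finset.subset_union_right (s₁ := a.co.support)), ← Finset.sum_add_distrib]
    refine Finset.sum_le_sum fun k _ => ?_
    rw [← mul_add, co_add]
    exact mul_le_mul_of_nonneg_left (norm_add_le _ _) (ω.nonneg k)
  neg' a := by
    rw [nrm_eq (-a) a.co.support (by rw [co_neg, Finsupp.support_neg]), nrm_eq a _ subset_rfl]
    simp [co_neg]

instance : SeminormedAddCommGroup (W0 ω E) := (sem ω E).toSeminormedAddCommGroup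

theorem norm_eq (a : W0 ω E) : ‖a‖ = ∑ k ∈ a.co.support, ω.w k * ‖a.co k‖ := rfl
theorem norm_sg (k : ℤ × ℤ) (e : E) : ‖sg ω k e‖ = ω.w k * ‖e‖ := by
  change (Finsupp.single k e).sum (fun k e => ω.w k * ‖e‖) = _
  rw [Finsupp.sum_single_index]; simp

theorem norm_mul_le' (a b : W0 ω E) : ‖a * b‖ ≤ ‖a‖ * ‖b‖ := by
  conv_lhs => rw [← sum_sg a, ← sum_sg b, Finset.sum_mul_sum]
  rw [norm_eq a, norm_eq b, Finset.sum_mul_sum]
  refine (norm_sum_le _ _).trans (Finset.sum_le_sum fun k _ =>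
    (norm_sum_le _ _).trans (Finset.sum_le_sum fun l _ => ?_))
  rw [sg_mul, norm_sg]
  calc ω.w (k + l) * ‖a.co k * b.co l‖ ≤ (ω.w k * ω.w l) * (‖a.co k‖ * ‖b.co l‖) :=
        mul_le_mul (ω.submul k l) (norm_mul_le _ _) (norm_nonneg _)
          (mul_nonneg (ω.nonneg k) (ω.nonneg l))
    _ = _ := by ring

instance : SeminormedCommRing (W0 ω E) where
  __ : SeminormedAddCommGroup (W0 ω E) := inferInstance
  __ : CommRing (W0 ω E) := inferInstance
  norm_mul_le := norm_mul_le'

variable [NormedAlgebra ℝ E]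

theorem co_smul (r : ℝ) (a : W0 ω E) : (r • a).co = r • a.co := rfl

instance : NormedAlgebra ℝ (W0 ω E) where
  norm_smul_le r a := by
    change nrm (r • a) ≤ _
    rw [nrm_eq (r • a) a.co.support (by rw [co_smul]; exact Finsupp.support_smul), norm_eq,
      Finset.mul_sum]
    refine Finset.sum_le_sum fun k _ => ?_
    rw [co_smul, Finsupp.smul_apply, norm_smul]
    exact le_of_eq (by ring)

def sgL (ω : Wt) (k : ℤ × ℤ) : E →ₗ[ℝ] W0 ω E := AddMonoidAlgebra.lsingle k

def lft {V : Type} [NormedAddCommGroup V] [NormedSpace ℝ V] (ω : Wt) (T : ℤ × ℤ → E →L[ℝ] V) :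
    W0 ω E →ₗ[ℝ] V :=
  (Finsupp.lsum ℝ fun k => (T k).toLinearMap) ∘ₗ
    (AddMonoidAlgebra.coeffLinearEquiv ℝ).toLinearMap

theorem lft_apply {V : Type} [NormedAddCommGroup V] [NormedSpace ℝ V] (T : ℤ × ℤ → E →L[ℝ] V)
    (a : W0 ω E) : lft ω T a = ∑ k ∈ a.co.support, T k (a.co k) := rfl

theorem lft_sg {V : Type} [NormedAddCommGroup V] [NormedSpace ℝ V] (T : ℤ × ℤ → E →L[ℝ] V)
    (k : ℤ × ℤ) (e : E) : lft ω T (sg ω k e) = T k e := by
  change (Finsupp.single k e).sum (fun k e => T k e) = _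
  rw [Finsupp.sum_single_index]; simp

theorem norm_lft {V : Type} [NormedAddCommGroup V] [NormedSpace ℝ V] (T : ℤ × ℤ → E →L[ℝ] V)
    {C : ℝ} (h : ∀ k, ‖T k‖ ≤ C * ω.w k) (a : W0 ω E) : ‖lft ω T a‖ ≤ C * ‖a‖ := by
  rw [lft_apply, norm_eq, Finset.mul_sum]
  refine (norm_sum_le _ _).trans (Finset.sum_le_sum fun k _ => ?_)
  rw [← mul_assoc]
  exact ((T k).le_opNorm _).trans (mul_le_mul_of_nonneg_right (h k) (norm_nonneg _))

end W0

/-- the weighted Wiener algebra -/
def W (ω : Wt) (E : Type) [NormedCommRing E] : Type := Completion (W0 ω E)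

namespace W

variable {ω : Wt} {E : Type} [NormedCommRing E]

instance : NormedCommRing (W ω E) := inferInstanceAs (NormedCommRing (Completion (W0 ω E)))
instance : CompleteSpace (W ω E) := inferInstanceAs (CompleteSpace (Completion (W0 ω E)))

variable [NormedAlgebra ℝ E]

instance : NormedAlgebra ℝ (W ω E) := inferInstanceAs (NormedAlgebra ℝ (Completion (W0 ω E)))

def emb : W0 ω E →ₗ[ℝ] W ω E :=
  (Completion.toComplₗᵢ : W0 ω E →ₗᵢ[ℝ] Completion (W0 ω E)).toLinearMap

theorem norm_emb (a : W0 ω E) : ‖(emb a : W ω E)‖ = ‖a‖ := Completion.norm_coe a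
theorem dense_emb : DenseRange (emb : W0 ω E →ₗ[ℝ] W ω E) := Completion.denseRange_coe

/-- the element `e * X ^ k` -/
def single (ω : Wt) (k : ℤ × ℤ) : E →L[ℝ] W ω E :=
  LinearMap.mkContinuous (emb ∘ₗ W0.sgL ω k) (ω.w k) fun e =>
    ((norm_emb _).trans (W0.norm_sg k e)).le

theorem single_eq (k : ℤ × ℤ) (e : E) : single ω k e = emb (W0.sg ω k e) := rfl
theorem norm_single (k : ℤ × ℤ) (e : E) : ‖single ω k e‖ = ω.w k * ‖e‖ :=
  (norm_emb _).trans (W0.norm_sg k e)
theorem opNorm_single (k : ℤ × ℤ) : ‖(single ω k : E →L[ℝ] W ω E)‖ ≤ ω.w k :=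
  LinearMap.mkContinuous_norm_le _ (ω.nonneg k) _
theorem single_mul_single (k l : ℤ × ℤ) (a b : E) :
    single ω k a * single ω l b = single ω (k + l) (a * b) := by
  rw [single_eq, single_eq, single_eq, ← W0.sg_mul]
  exact (Completion.coe_mul _ _).symm
theorem single_zero_one : single ω 0 (1 : E) = 1 := Completion.coe_one (W0 ω E)

/-- closed additive properties that hold on the monomials hold everywhere -/
theorem induction {P : W ω E → Prop} (hc : IsClosed {a | P a}) (h0 : P 0)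
    (hs : ∀ k e, P (single ω k e)) (hadd : ∀ a b, P a → P b → P (a + b)) (a : W ω E) : P a := by
  refine dense_emb.induction_on a hc fun b => ?_
  rw [← W0.sum_sg b, map_sum]
  exact Finset.sum_induction _ P hadd h0 fun k _ => hs k _

variable {V : Type} [NormedAddCommGroup V] [NormedSpace ℝ V]

theorem clm_ext {f g : W ω E →L[ℝ] V} (h : ∀ k e, f (single ω k e) = g (single ω k e)) :
    f = g := by
  ext a
  exact induction (P := fun a => f a = g a) (isClosed_eq f.continuous g.continuous) (by simp) h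
    (fun a b ha hb => by rw [map_add, map_add, ha, hb]) a

/-- the continuous linear map that acts as `T k` on the `k`-th coefficient -/
def lift [CompleteSpace V] (ω : Wt) (T : ℤ × ℤ → E →L[ℝ] V) : W ω E →L[ℝ] V :=
  (W0.lft ω T).extendOfNorm emb

theorem lift_single [CompleteSpace V] {T : ℤ × ℤ → E →L[ℝ] V} {C : ℝ}
    (h : ∀ k, ‖T k‖ ≤ C * ω.w k) (k : ℤ × ℤ) (e : E) : lift ω T (single ω k e) = T k e := by
  rw [single_eq, lift, LinearMap.extendOfNorm_eq dense_emb
    ⟨C, fun a => by rw [norm_emb]; exact W0.norm_lft T h a⟩, W0.lft_sg]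

theorem norm_lift [CompleteSpace V] {T : ℤ × ℤ → E →L[ℝ] V} {C : ℝ}
    (h : ∀ k, ‖T k‖ ≤ C * ω.w k) : ‖lift ω T‖ ≤ C := by
  have hC : 0 ≤ C := by
    have := (norm_nonneg _).trans (h 0)
    rwa [ω.w_zero, mul_one] at this
  exact LinearMap.opNorm_extendOfNorm_le dense_emb hC
    fun a => by rw [norm_emb]; exact W0.norm_lft T h a

/-- a continuous linear map that is multiplicative on monomials is multiplicative -/
theorem map_mul_of_single {A : Type} [NormedRing A] [NormedSpace ℝ A] (f : W ω E →L[ℝ] A)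
    (h : ∀ k l a b, f (single ω (k + l) (a * b)) = f (single ω k a) * f (single ω l b))
    (a b : W ω E) : f (a * b) = f a * f b := by
  refine induction (P := fun a => f (a * b) = f a * f b) (isClosed_eq (by fun_prop) (by fun_prop))
    (by simp) (fun k e => ?_) (fun a a' ha ha' => by
      rw [add_mul, map_add, map_add, add_mul, ha, ha']) a
  refine induction (P := fun b => f (single ω k e * b) = f (single ω k e) * f b)
    (isClosed_eq (by fun_prop) (by fun_prop)) (by simp) (fun l e' => ?_) (fun a a' ha ha' => by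
      rw [mul_add, map_add, map_add, mul_add, ha, ha']) b
  rw [single_mul_single, h]

theorem summable_single {ι : Type} (k : ι → ℤ × ℤ) (e : ι → E)
    (h : Summable fun i => ω.w (k i) * ‖e i‖) : Summable fun i => single ω (k i) (e i) :=
  Summable.of_norm (by simpa only [norm_single] using h)

end W

/-- the weight `(1 + |m| / N) ^ s * ρ ^ |n|` -/
def wt (N : ℝ) (s : ℕ) (ρ : ℝ) (hN : 0 < N) (hρ : 1 ≤ ρ) : Wt where
  w k := (1 + |(k.1 : ℝ)| / N) ^ s * ρ ^ k.2.natAbs
  one_le k := one_le_mul_of_one_le_of_one_le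
    (one_le_pow₀ (le_add_of_nonneg_right (by positivity))) (one_le_pow₀ hρ)
  w_zero := by simp
  submul k l := by
    have h1 : 1 + |((k + l).1 : ℝ)| / N ≤ (1 + |(k.1 : ℝ)| / N) * (1 + |(l.1 : ℝ)| / N) := by
      have h : |((k + l).1 : ℝ)| ≤ |(k.1 : ℝ)| + |(l.1 : ℝ)| := by
        rw [Prod.fst_add, Int.cast_add]; exact abs_add_le _ _
      have h2 : |((k + l).1 : ℝ)| / N ≤ |(k.1 : ℝ)| / N + |(l.1 : ℝ)| / N := by
        rw [← add_div]; exact div_le_div_of_nonneg_right h hN.le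
      have h3 : 0 ≤ |(k.1 : ℝ)| / N * (|(l.1 : ℝ)| / N) := by positivity
      nlinarith
    have h2 : ρ ^ (k + l).2.natAbs ≤ ρ ^ k.2.natAbs * ρ ^ l.2.natAbs := by
      rw [← pow_add]
      exact pow_le_pow_right₀ hρ (Int.natAbs_add_le _ _)
    have h0 : 0 ≤ ρ := zero_le_one.trans hρ
    calc _ ≤ ((1 + |(k.1 : ℝ)| / N) * (1 + |(l.1 : ℝ)| / N)) ^ s *
          (ρ ^ k.2.natAbs * ρ ^ l.2.natAbs) :=
          mul_le_mul (pow_le_pow_left₀ (by positivity) h1 s) h2 (by positivity) (by positivity)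
      _ = _ := by rw [mul_pow]; ring

end Pool.Agent.PS
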