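import Pool.Agent.P.MP_6c3c64_gt.E1
import Pool.Agent.P.MP_6c3c64_gt.W

/-! Great circles in Mercator coordinates, the integrals `Imn`, and evaluation maps. -/

set_option autoImplicit false

open Real BoundedContinuousFunction MeasureTheory Set Filter Topology
open scoped NNReal

noncomputable section

namespace Pool.Agent.PS

def rho (a : ℝ) : ℝ := √(1 + a ^ 2)
/-- Mercator height along the great circle `sinh x = a cos ψ` -/
def xc (a ψ : ℝ) : ℝ := arsinh (a * cos ψ)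
def dxc (a ψ : ℝ) : ℝ := -(a * sin ψ) / cosh (xc a ψ)
/-- the square of the unit tangent of the great circle -/
def wc (a ψ : ℝ) : ℂ :=
  (((cosh (xc a ψ) : ℝ) - Complex.I * (a * sin ψ : ℝ)) / (rho a : ℝ)) ^ 2
def ee (m : ℤ) (φ : ℝ) : ℂ := Complex.exp (Complex.I * (m * φ))

theorem rho_pos (a : ℝ) : 0 < rho a := sqrt_pos.2 (by positivity)
theorem rho_sq (a : ℝ) : rho a ^ 2 = 1 + a ^ 2 := sq_sqrt (by positivity)
theorem sinh_xc (a ψ : ℝ) : sinh (xc a ψ) = a * cos ψ := sinh_arsinh _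
theorem cosh_xc_sq (a ψ : ℝ) : cosh (xc a ψ) ^ 2 = 1 + (a * cos ψ) ^ 2 := by
  rw [cosh_sq, sinh_xc, add_comm]
theorem continuous_xc (a : ℝ) : Continuous (xc a) :=
  continuous_arsinh.comp (by fun_prop)
theorem continuous_dxc (a : ℝ) : Continuous (dxc a) :=
  Continuous.div (by fun_prop) (continuous_cosh.comp (continuous_xc a))
    fun _ => (cosh_pos _).ne'
theorem hasDerivAt_xc (a ψ : ℝ) : HasDerivAt (xc a) (dxc a ψ) ψ := by
  have h := (hasDerivAt_arsinh (a * cos ψ)).comp ψ ((hasDerivAt_cos ψ).const_mul a)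
  refine HasDerivAt.congr_deriv (f := xc a) h ?_
  rw [dxc, xc, cosh_arsinh]; ring
theorem continuous_wc (a : ℝ) : Continuous (wc a) := by
  have := continuous_xc a
  unfold wc; fun_prop
theorem norm_wc (a ψ : ℝ) : ‖wc a ψ‖ = 1 := by
  have h : ‖((cosh (xc a ψ) : ℝ) : ℂ) - Complex.I * (a * sin ψ : ℝ)‖ ^ 2 = rho a ^ 2 := by
    rw [Complex.sq_norm, Complex.normSq_apply, rho_sq]
    simp only [Complex.sub_re, Complex.ofReal_re, Complex.mul_re, Complex.I_re, Complex.I_im,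
      Complex.ofReal_im, Complex.sub_im, Complex.mul_im]
    nlinarith [cosh_xc_sq a ψ, sin_sq_add_cos_sq ψ]
  rw [wc, norm_pow, norm_div, div_pow, h, Complex.norm_real, Real.norm_eq_abs, sq_abs]
  exact div_self (pow_pos (rho_pos a) 2).ne'
theorem wc_ne_zero (a ψ : ℝ) : wc a ψ ≠ 0 := by
  rw [← norm_ne_zero_iff, norm_wc]; exact one_ne_zero
theorem norm_ee (m : ℤ) (φ : ℝ) : ‖ee m φ‖ = 1 := by
  rw [ee, show Complex.I * ((m : ℂ) * φ) = ((m * φ : ℝ) : ℂ) * Complex.I by push_cast; ring]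
  exact Complex.norm_exp_ofReal_mul_I _
theorem continuous_ee (m : ℤ) : Continuous (ee m) := by unfold ee; fun_prop
theorem ee_add (m m' : ℤ) (φ : ℝ) : ee (m + m') φ = ee m φ * ee m' φ := by
  rw [ee, ee, ee, ← Complex.exp_add]; congr 1; push_cast; ring
theorem ee_add_arg (m : ℤ) (φ φ' : ℝ) : ee m (φ + φ') = ee m φ * ee m φ' := by
  rw [ee, ee, ee, ← Complex.exp_add]; congr 1; push_cast; ring
theorem ee_zero (φ : ℝ) : ee 0 φ = 1 := by simp [ee]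
theorem ee_eq (m : ℤ) (φ : ℝ) :
    ee m φ = (cos (m * φ) : ℝ) + Complex.I * (sin (m * φ) : ℝ) := by
  rw [ee, mul_comm, show ((m : ℂ) * φ) = ((m * φ : ℝ) : ℂ) by push_cast; ring, Complex.exp_mul_I,
    Complex.ofReal_cos, Complex.ofReal_sin, mul_comm Complex.I]

/-- `∮ c(x) w ^ n e ^ (i m ψ) dψ` along the great circle -/
def Imn (m n : ℤ) (a : ℝ) (c : ℝ → ℝ) : ℂ :=
  ∫ ψ in (0 : ℝ)..2 * π, (c (xc a ψ) : ℂ) * wc a ψ ^ n * ee m ψ

theorem continuous_Imn_integrand (m n : ℤ) (a : ℝ) {c : ℝ → ℝ} (hc : Continuous c) :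
    Continuous fun ψ => (c (xc a ψ) : ℂ) * wc a ψ ^ n * ee m ψ :=
  ((Complex.continuous_ofReal.comp (hc.comp (continuous_xc a))).mul
    ((continuous_wc a).zpow₀ n fun ψ => Or.inl (wc_ne_zero a ψ))).mul (continuous_ee m)

def ImnL (m n : ℤ) (a : ℝ) : E0 →L[ℝ] ℂ :=
  LinearMap.mkContinuous
    { toFun := fun c => Imn m n a c
      map_add' := fun c d => by
        unfold Imn
        rw [← intervalIntegral.integral_add
          ((continuous_Imn_integrand m n a c.continuous).intervalIntegrable _ _)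
          ((continuous_Imn_integrand m n a d.continuous).intervalIntegrable _ _)]
        congr 1; ext ψ; simp only [BoundedContinuousFunction.add_apply]; push_cast; ring
      map_smul' := fun r c => by
        unfold Imn
        rw [RingHom.id_apply, ← intervalIntegral.integral_smul]
        congr 1; ext ψ
        simp only [BoundedContinuousFunction.smul_apply, smul_eq_mul, Complex.real_smul]
        push_cast; ring } (2 * π) fun c => by
      have h := intervalIntegral.norm_integral_le_of_norm_le_const (a := 0) (b := 2 * π)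
        (f := fun ψ => (c (xc a ψ) : ℂ) * wc a ψ ^ n * ee m ψ) (C := ‖c‖) fun ψ _ => by
          rw [norm_mul, norm_mul, norm_zpow, norm_wc, norm_ee, one_zpow, mul_one, mul_one,
            Complex.norm_real]
          exact c.norm_coe_le_norm _
      rw [sub_zero, abs_of_pos two_pi_pos, mul_comm ‖c‖] at h
      exact h

theorem ImnL_apply (m n : ℤ) (a : ℝ) (c : E0) : ImnL m n a c = Imn m n a c := rfl
theorem norm_ImnL (m n : ℤ) (a : ℝ) : ‖ImnL m n a‖ ≤ 2 * π :=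
  LinearMap.mkContinuous_norm_le _ two_pi_pos.le _

instance : NormOneClass E1 := ⟨by rw [E1.norm_def]; simp⟩
instance (ω : Wt) (E : Type) [NormedCommRing E] [NormedAlgebra ℝ E] [NormOneClass E] :
    NormOneClass (W ω E) := ⟨by rw [← W.single_zero_one, W.norm_single, ω.w_zero]; simp⟩

section ev

variable {E : Type} [NormedCommRing E] [NormedAlgebra ℝ E]

/-- evaluation `e * X ^ (m, n) ↦ χ e * exp (i m φ) * w ^ n` -/
def evE (χ : E →L[ℝ] ℝ) (ω : Wt) (φ : ℝ) (w : ℂ) : W ω E →L[ℝ] ℂ :=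
  W.lift ω fun k => (ee k.1 φ * w ^ k.2) • (Complex.ofRealCLM ∘L χ)

theorem evE_bound {χ : E →L[ℝ] ℝ} (hχ : ‖χ‖ ≤ 1) (ω : Wt) (φ : ℝ) {w : ℂ} (hw : ‖w‖ = 1)
    (k : ℤ × ℤ) : ‖(ee k.1 φ * w ^ k.2) • (Complex.ofRealCLM ∘L χ)‖ ≤ 1 * ω.w k := by
  refine ContinuousLinearMap.opNorm_le_bound _ (by simpa using ω.nonneg k) fun e => ?_
  rw [_root_.smul_apply, norm_smul, norm_mul, norm_ee, norm_zpow, hw, one_zpow, one_mul, one_mul,
    one_mul, ContinuousLinearMap.comp_apply, Complex.ofRealCLM_apply, Complex.norm_real]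
  exact (χ.le_opNorm e).trans
    (mul_le_mul_of_nonneg_right (hχ.trans (ω.one_le k)) (norm_nonneg _))

theorem evE_single {χ : E →L[ℝ] ℝ} (hχ : ‖χ‖ ≤ 1) (ω : Wt) (φ : ℝ) {w : ℂ} (hw : ‖w‖ = 1)
    (k : ℤ × ℤ) (e : E) : evE χ ω φ w (W.single ω k e) = (χ e : ℂ) * w ^ k.2 * ee k.1 φ := by
  rw [evE, W.lift_single (evE_bound hχ ω φ hw)]
  simp only [_root_.smul_apply, ContinuousLinearMap.comp_apply, Complex.ofRealCLM_apply,
    smul_eq_mul]
  ring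

theorem norm_evE {χ : E →L[ℝ] ℝ} (hχ : ‖χ‖ ≤ 1) (ω : Wt) (φ : ℝ) {w : ℂ} (hw : ‖w‖ = 1) :
    ‖evE χ ω φ w‖ ≤ 1 := W.norm_lift (evE_bound hχ ω φ hw)

theorem evE_mul {χ : E →L[ℝ] ℝ} (hχ : ‖χ‖ ≤ 1) (hm : ∀ a b, χ (a * b) = χ a * χ b) (ω : Wt)
    (φ : ℝ) {w : ℂ} (hw : ‖w‖ = 1) (a b : W ω E) :
    evE χ ω φ w (a * b) = evE χ ω φ w a * evE χ ω φ w b := by
  have hw0 : w ≠ 0 := by rw [← norm_ne_zero_iff, hw]; exact one_ne_zero
  refine W.map_mul_of_single _ (fun k l a b => ?_) a b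
  rw [evE_single hχ ω φ hw, evE_single hχ ω φ hw, evE_single hχ ω φ hw, hm, Prod.fst_add,
    Prod.snd_add, ee_add, zpow_add₀ hw0]
  push_cast; ring

end ev

/-- value at `x` -/
def chi0 (x : ℝ) : E0 →L[ℝ] ℝ := evalCLM ℝ x
def chi1 (x : ℝ) : E1 →L[ℝ] ℝ := chi0 x ∘L fstL
@[simp] theorem chi0_apply (x : ℝ) (e : E0) : chi0 x e = e x := rfl
@[simp] theorem chi1_apply (x : ℝ) (e : E1) : chi1 x e = fstL e x := rfl
theorem norm_chi0 (x : ℝ) : ‖chi0 x‖ ≤ 1 :=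
  ContinuousLinearMap.opNorm_le_bound _ zero_le_one fun e => by
    rw [one_mul]; exact e.norm_coe_le_norm x
theorem norm_chi1 (x : ℝ) : ‖chi1 x‖ ≤ 1 :=
  ContinuousLinearMap.opNorm_le_bound _ zero_le_one fun e => by
    rw [one_mul]; exact ((fstL e).norm_coe_le_norm x).trans (norm_fstL_le e)

def ev0 (ω : Wt) (φ x : ℝ) (w : ℂ) : W ω E0 →L[ℝ] ℂ := evE (chi0 x) ω φ w
def ev1 (ω : Wt) (φ x : ℝ) (w : ℂ) : W ω E1 →L[ℝ] ℂ := evE (chi1 x) ω φ w

theorem ev0_single (ω : Wt) (φ x : ℝ) {w : ℂ} (hw : ‖w‖ = 1) (k : ℤ × ℤ) (e : E0) :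
    ev0 ω φ x w (W.single ω k e) = (e x : ℂ) * w ^ k.2 * ee k.1 φ :=
  evE_single (norm_chi0 x) ω φ hw k e
theorem ev1_single (ω : Wt) (φ x : ℝ) {w : ℂ} (hw : ‖w‖ = 1) (k : ℤ × ℤ) (e : E1) :
    ev1 ω φ x w (W.single ω k e) = (fstL e x : ℂ) * w ^ k.2 * ee k.1 φ :=
  evE_single (norm_chi1 x) ω φ hw k e
theorem norm_ev0 (ω : Wt) (φ x : ℝ) {w : ℂ} (hw : ‖w‖ = 1) : ‖ev0 ω φ x w‖ ≤ 1 :=
  norm_evE (norm_chi0 x) ω φ hw
theorem norm_ev1 (ω : Wt) (φ x : ℝ) {w : ℂ} (hw : ‖w‖ = 1) : ‖ev1 ω φ x w‖ ≤ 1 :=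
  norm_evE (norm_chi1 x) ω φ hw
theorem ev0_mul (ω : Wt) (φ x : ℝ) {w : ℂ} (hw : ‖w‖ = 1) (a b : W ω E0) :
    ev0 ω φ x w (a * b) = ev0 ω φ x w a * ev0 ω φ x w b :=
  evE_mul (norm_chi0 x) (fun _ _ => rfl) ω φ hw a b
theorem ev1_mul (ω : Wt) (φ x : ℝ) {w : ℂ} (hw : ‖w‖ = 1) (a b : W ω E1) :
    ev1 ω φ x w (a * b) = ev1 ω φ x w a * ev1 ω φ x w b :=
  evE_mul (norm_chi1 x) (fun _ _ => rfl) ω φ hw a b
theorem ev0_one (ω : Wt) (φ x : ℝ) {w : ℂ} (hw : ‖w‖ = 1) : ev0 ω φ x w 1 = 1 := by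
  rw [← W.single_zero_one, ev0_single ω φ x hw]; simp [ee_zero]
theorem ev1_one (ω : Wt) (φ x : ℝ) {w : ℂ} (hw : ‖w‖ = 1) : ev1 ω φ x w 1 = 1 := by
  rw [← W.single_zero_one, ev1_single ω φ x hw]; simp [ee_zero]

/-- forget the derivative in every coefficient -/
def pi1 (ω : Wt) : W ω E1 →L[ℝ] W ω E0 := W.lift ω fun k => W.single ω k ∘L fstL

theorem pi1_bound (ω : Wt) (k : ℤ × ℤ) :
    ‖(W.single ω k ∘L fstL : E1 →L[ℝ] W ω E0)‖ ≤ 1 * ω.w k := by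
  refine ContinuousLinearMap.opNorm_le_bound _ (by simpa using ω.nonneg k) fun e => ?_
  rw [ContinuousLinearMap.comp_apply, W.norm_single, one_mul]
  exact mul_le_mul_of_nonneg_left (norm_fstL_le e) (ω.nonneg k)
theorem pi1_single (ω : Wt) (k : ℤ × ℤ) (e : E1) :
    pi1 ω (W.single ω k e) = W.single ω k (fstL e) := W.lift_single (pi1_bound ω) k e
theorem norm_pi1 (ω : Wt) : ‖pi1 ω‖ ≤ 1 := W.norm_lift (pi1_bound ω)
theorem pi1_mul (ω : Wt) (a b : W ω E1) : pi1 ω (a * b) = pi1 ω a * pi1 ω b :=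
  W.map_mul_of_single _ (fun k l a b => by
    rw [pi1_single, pi1_single, pi1_single, W.single_mul_single, fstL_mul]) a b
theorem ev0_pi1 (ω : Wt) (φ x : ℝ) {w : ℂ} (hw : ‖w‖ = 1) (a : W ω E1) :
    ev0 ω φ x w (pi1 ω a) = ev1 ω φ x w a := by
  have : ev0 ω φ x w ∘L pi1 ω = ev1 ω φ x w := W.clm_ext fun k e => by
    rw [ContinuousLinearMap.comp_apply, pi1_single, ev0_single ω φ x hw, ev1_single ω φ x hw]
  exact DFunLike.congr_fun this a

end Pool.Agent.PS
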