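import Pool.Agent.P.MP_6c3c64_gt.Circle

/-! Definitions shared by all parts of the counterexample. -/

set_option autoImplicit false

open Real BoundedContinuousFunction MeasureTheory Set Filter Topology
open scoped NNReal ENNReal

noncomputable section

namespace Pool.Agent.PS

/-! ### Abstract operator notions -/

section abstract

variable {V V' : Type} [NormedAddCommGroup V] [NormedSpace ℝ V] [NormedAddCommGroup V']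
  [NormedSpace ℝ V']

/-- finite rank -/
def FinRk (K : V →L[ℝ] V') : Prop := FiniteDimensional ℝ (LinearMap.range K.toLinearMap)
/-- norm limit of finite rank operators -/
def Approx (K : V →L[ℝ] V') : Prop := ∀ η > 0, ∃ K0 : V →L[ℝ] V', FinRk K0 ∧ ‖K - K0‖ ≤ η
/-- invertible, with a bound for the inverse -/
def HasInv (T : V →L[ℝ] V) (M : ℝ) : Prop :=
  ∃ S : V →L[ℝ] V, S * T = 1 ∧ T * S = 1 ∧ ‖S‖ ≤ M
/-- invertible plus finite rank -/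
def FI0 (T : V →L[ℝ] V) : Prop := ∃ (C : V →L[ℝ] V) (M : ℝ), HasInv C M ∧ FinRk (T - C)
/-- asymptotically null at infinity -/
def AN (T : V →L[ℝ] Y0) : Prop :=
  ∀ η > 0, ∃ X : ℝ, ∀ (v : V) (x : ℝ≥0), X ≤ x → |T v x| ≤ η * ‖v‖
/-- locally equicontinuous -/
def LEC (T : V →L[ℝ] E0) : Prop :=
  ∀ X : ℝ, ∀ η > 0, ∃ δ > 0, ∀ (v : V) (x x' : ℝ), |x| ≤ X → |x'| ≤ X → |x - x'| ≤ δ →
    |T v x - T v x'| ≤ η * ‖v‖
/-- uniformly Cauchy at both ends -/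
def CauchyEnds (T : V →L[ℝ] E0) : Prop :=
  ∀ η > 0, ∃ X : ℝ, ∀ (v : V) (x x' : ℝ), (X ≤ x ∧ X ≤ x') ∨ (x ≤ -X ∧ x' ≤ -X) →
    |T v x - T v x'| ≤ η * ‖v‖
/-- `F` is even, `F' = eps * F1` and `F'' - tanh * F' = eps * F2` -/
def IsJet (F F1 F2 : V →L[ℝ] E0) : Prop :=
  (∀ v x, HasDerivAt (F v) (eps x * F1 v x) x) ∧
  (∀ v x, HasDerivAt (fun x => eps x * F1 v x) (eps x * (F2 v x + tanh x * F1 v x)) x) ∧
  (∀ v x, F v (-x) = F v x)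

end abstract

/-- ordered products `Z 1 * Z 2 * ... * Z n` -/
def chainOf {A : Type} [Monoid A] (Z : ℕ → A) : ℕ → A
  | 0 => 1
  | n + 1 => chainOf Z n * Z (n + 1)

/-- localised quadratic form -/
def loc (I : Set ℝ) (σ x0 : ℝ) (y : ℝ → ℝ) : ℝ := σ * ∫ x in I, sech (σ * (x - x0)) * y x ^ 2

/-- `q` is the uniformly local `L²` seminorm on `I` at scale `1 / σ` -/
def IsQ (I : Set ℝ) (σ : ℝ) (q : Seminorm ℝ E0) : Prop :=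
  (∀ y, q y ≤ 2 * ‖y‖) ∧ (∀ (y : E0) (x0 : ℝ), loc I σ x0 y ≤ q y ^ 2) ∧
  (∀ (y : E0) (B : ℝ), 0 ≤ B → (∀ x0, loc I σ x0 y ≤ B ^ 2) → q y ≤ B)

/-! ### Chains on the line -/

/-- one step `1 + (α + β) R` -/
def Zst (R : E0 →L[ℝ] E0) (m n : ℝ) : E0 →L[ℝ] E0 := 1 + mulL (abB m n) * R
/-- chain of steps -/
def che (Re : ℕ → ℕ → E0 →L[ℝ] E0) (j : ℕ) : ℕ → E0 →L[ℝ] E0 :=
  chainOf fun n => Zst (Re j n) (mm j) n

structure ChainData where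
  Re : ℕ → ℕ → E0 →L[ℝ] E0
  ch1 : ℕ → ℕ → E1 →L[ℝ] E1
  cor : ℕ → ℕ → E0 →L[ℝ] E0
  C : ℝ
  isRes : ∀ j n : ℕ, 1 ≤ n → IsRes (alpB (mm j) n + gam • tanhB) (Re j n)
  snd_ch1 : ∀ j n c, sndL (ch1 j n c) = che Re j n (sndL c) + cor j n (fstL c)
  imn : ∀ (j n : ℕ) (a : ℝ) (c : E1), Imn (mm j) n a (fstL c) = Imn (mm j) 0 a (fstL (ch1 j n c))
  norm_ch1 : ∀ j n, ‖ch1 j n‖ ≤ C * (107 / 20) ^ n
  norm_che : ∀ j n, ‖che Re j n‖ ≤ C * (107 / 20) ^ n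
  norm_cor : ∀ j n, ‖cor j n‖ ≤ C * (107 / 20) ^ n / mm j

/-- specification of the resolvent of step `n` at frequency `m`, conjugation parameter `g` -/
def StepRes (m n : ℕ) (g : ℝ) (R : E0 →L[ℝ] E0) : Prop :=
  IsRes (alpB m n + g • tanhB) R ∧
  (m < 2 * n → ∀ x, tanh x = m / (2 * n) → ∀ c, R c x = 0) ∧
  ‖R‖ ≤ 5 * (1 + 2 * n) / m ∧
  ‖Zst R m n‖ ≤ if 441 ≤ |(m : ℤ) - 2 * n| then 53 / 10 else 16

/-! ### The algebras and the output maps -/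

def wJ (J : ℕ) : Wt := wt (mm J) 3 (27 / 5) (mm_pos J) (by norm_num)
def wZ : Wt := wt 1 2 (107 / 20) one_pos (by norm_num)
abbrev A1 (J : ℕ) : Type := W (wJ J) E1
abbrev A0 (J : ℕ) : Type := W (wJ J) E0
abbrev ZZ : Type := W wZ E1
abbrev YY : Type := lp (fun _ : ℕ => Y0) 1

def GamC (J : ℕ) : A1 J →L[ℝ] ZZ := W.lift (wJ J) fun k => W.single wZ k
def GamP (J : ℕ) : A0 J →L[ℝ] ZZ := W.lift (wJ J) fun k => W.single wZ k ∘L prim k.1 k.2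
/-- integration along the great circle `(a, α)` -/
def II (a α : ℝ) : ZZ →L[ℝ] ℂ := W.lift wZ fun k => ee k.1 α • (ImnL k.1 k.2 a ∘L fstL)

def jOf (m : ℤ) : ℕ := ((m - 3) / 6).toNat
def coutK (Z : ChainData) (j : ℕ) (n : ℤ) : E1 →L[ℝ] E1 :=
  Z.ch1 j n.natAbs ∘L (if n < 0 then mir else 1)
def outK (Z : ChainData) (j : ℕ) (n : ℤ) : E1 →L[ℝ] Y0 :=
  ((mm j : ℝ) ^ 2) • (res ∘L (1 + refl) ∘L sndL ∘L coutK Z j n)
def Out (Z : ChainData) : ZZ →L[ℝ] YY :=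
  W.lift wZ fun k => if k.1 = mm (jOf k.1) then
    lp.singleContinuousLinearMap ℝ (fun _ : ℕ => Y0) 1 (jOf k.1) ∘L outK Z (jOf k.1) k.2 else 0

/-! ### The symmetric base body -/

def n0f (x : ℝ) : ℝ := RR + cosh x + bet * eps x
def a0f (x : ℝ) : ℝ := sinh x - bet * gam * tanh x * eps x
def N0f (x : ℝ) : ℝ := 1 + (RR + bet * eps x) * sech x
def eta0f (x : ℝ) : ℝ := tanh x * (1 - bet * gam * eps x * sech x)
def nu0f (x : ℝ) : ℝ := RR + sech x + bet * eps x * (1 + gam * tanh x ^ 2)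
def Nt0f (x : ℝ) : ℝ := -(tanh x * (RR + bet * (1 + gam) * eps x))
def mu0f (x : ℝ) : ℝ := sech x / eps x + bet * gam * ((1 + gam) * tanh x ^ 2 - sech x ^ 2)
def rr (x : ℝ) : ℝ :=
  (√(1 + (Nt0f x / N0f x) ^ 2) - 1) / (√(1 + (Nt0f x / N0f x) ^ 2) + 1)
def kser (r : ℝ) (n : ℕ) : ℝ := ∑' j, cc j * cc (j + n) * r ^ (2 * j + n)
def r0 : ℝ := 9 / 49
def ginf (n : ℕ) : ℝ := RR * ((1 - r0) ^ 3 * kser r0 n)

structure Base0 where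
  N0 : E1
  Ninv : E1
  eta0 : E1
  nu0 : E1
  Nt0 : E1
  tE : E1
  sE : E1
  rE : E1
  mu0 : E0
  hh : E0
  hN0 : ∀ x, fstL N0 x = N0f x
  hNinv : ∀ x, fstL Ninv x = (N0f x)⁻¹
  heta0 : ∀ x, fstL eta0 x = eta0f x
  hnu0 : ∀ x, fstL nu0 x = nu0f x
  hNt0 : ∀ x, fstL Nt0 x = Nt0f x
  htE : ∀ x, fstL tE x = tanh x
  hsE : ∀ x, fstL sE x = sech x
  hrE : ∀ x, fstL rE x = rr x
  hmu0 : ∀ x, mu0 x = mu0f x
  hhh : ∀ x, hh x = mu0f x / nu0f x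

structure Base extends Base0 where
  kc : ℤ → E1
  qc : ℤ → E1
  kc_neg : ∀ n, kc (-n) = kc n
  hkc : ∀ (n : ℕ) (x : ℝ), fstL (kc n) x = (N0f x)⁻¹ ^ 3 * (1 - rr x) ^ 3 * kser (rr x) n
  sum_kc : Summable fun n : ℤ => (27 / 5 : ℝ) ^ n.natAbs * ‖kc n‖
  sum_qc : Summable fun n : ℤ => (27 / 5 : ℝ) ^ n.natAbs * ‖qc n‖
  ev_kc : ∀ (x : ℝ) (w : ℂ), ‖w‖ = 1 → HasSum (fun n : ℤ => (fstL (kc n) x : ℂ) * w ^ n)
    ((√(N0f x ^ 2 + Nt0f x ^ 2 * ((1 - w.re) / 2)) ^ 3)⁻¹ : ℝ)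
  ev_qc : ∀ (x : ℝ) (w : ℂ), ‖w‖ = 1 → HasSum (fun n : ℤ => (fstL (qc n) x : ℂ) * w ^ n)
    ((N0f x ^ 2 + Nt0f x ^ 2 * ((1 - w.re) / 2))⁻¹ : ℝ)

/-- the principal multipliers -/
def Base.g (B : Base) (n : ℕ) : E0 := fstL (B.kc n) * fstL B.nu0 * fstL B.N0

/-! ### Mode data -/

/-- weighted norm of one mode -/
def nuM (m : ℝ) (F F1 F2 : E0) : ℝ := m ^ 2 * (m ^ 2 * ‖F‖ + m * ‖epsB * F1‖ + ‖F1‖ + ‖F2‖)

structure Jets (X : Type) [NormedAddCommGroup X] [NormedSpace ℝ X] where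
  F : ℕ → X →L[ℝ] E0
  F1 : ℕ → X →L[ℝ] E0
  F2 : ℕ → X →L[ℝ] E0
  isJet : ∀ j, IsJet (F j) (F1 j) (F2 j)
  C : ℝ
  bound : ∀ (z : X) (s : Finset ℕ), ∑ j ∈ s, nuM (mm j) (F j z) (F1 j z) (F2 j z) ≤ C * ‖z‖

/-- raw 2-jet of a gauge: `n`, `a = n_x`, `b = n_φ`, `l = n_xφ`, `r = n - tanh * n_x + n_φφ`,
`u = n_xx - tanh * n_x` -/
structure RJ where
  n : ℝ → ℝ → ℝ
  a : ℝ → ℝ → ℝ
  b : ℝ → ℝ → ℝ
  l : ℝ → ℝ → ℝ
  r : ℝ → ℝ → ℝ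
  u : ℝ → ℝ → ℝ

namespace Jets

variable {X : Type} [NormedAddCommGroup X] [NormedSpace ℝ X] (T : Jets X)

def nu (j : ℕ) (z : X) : ℝ := nuM (mm j) (T.F j z) (T.F1 j z) (T.F2 j z)
/-- `F` in `E1` -/
def JF (j : ℕ) : X →L[ℝ] E1 := E1.mkL (T.F j) (T.F1 j) (T.isJet j).1
/-- `F'` in `E1` -/
def JD (j : ℕ) : X →L[ℝ] E1 :=
  E1.mkL (mulL epsB ∘L T.F1 j) (T.F2 j + mulL tanhB ∘L T.F1 j) (T.isJet j).2.1

/-- the gauge `n0 + ∑ s j * F j * cos (m j φ)` -/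
def jet (s : ℕ → ℝ) (z : X) : RJ where
  n φ x := n0f x + ∑' j, s j * T.F j z x * cos (mm j * φ)
  a φ x := a0f x + ∑' j, s j * (eps x * T.F1 j z x) * cos (mm j * φ)
  b φ x := ∑' j, -(s j * mm j * T.F j z x * sin (mm j * φ))
  l φ x := ∑' j, -(s j * mm j * (eps x * T.F1 j z x) * sin (mm j * φ))
  r φ x := nu0f x + ∑' j, s j * (T.F j z x - tanh x * (eps x * T.F1 j z x)
    - (mm j : ℝ) ^ 2 * T.F j z x) * cos (mm j * φ)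
  u φ x := eps x * mu0f x + ∑' j, s j * (eps x * T.F2 j z x) * cos (mm j * φ)

end Jets

/-! ### Geometry of a gauge -/

/-- cylindrical components to components in the frame of the great circle -/
def frame (a ψ : ℝ) (v : ℝ × ℝ × ℝ) : ℝ × ℝ × ℝ :=
  ((v.1 * cos ψ - v.2.1 * sin ψ + a * v.2.2) / rho a, v.1 * sin ψ + v.2.1 * cos ψ,
    (-(a * (v.1 * cos ψ - v.2.1 * sin ψ)) + v.2.2) / rho a)
def om (p q : ℝ × ℝ × ℝ) : ℝ :=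
  p.2.2 * (p.1 * q.2.1 - p.2.1 * q.1) / √(p.1 ^ 2 + p.2.1 ^ 2) ^ 3
def det3 (p q r : ℝ × ℝ × ℝ) : ℝ :=
  p.1 * (q.2.1 * r.2.2 - q.2.2 * r.2.1) - p.2.1 * (q.1 * r.2.2 - q.2.2 * r.1)
    + p.2.2 * (q.1 * r.2.1 - q.2.1 * r.1)

abbrev E3 : Type := EuclideanSpace ℝ (Fin 3)

namespace RJ

variable (g : RJ)

/-- gradient of the gauge in cylindrical components -/
def nv (φ x : ℝ) : ℝ × ℝ × ℝ := (g.n φ x - tanh x * g.a φ x, g.b φ x, sech x * g.a φ x)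
/-- its derivative along a curve of slope `x'` -/
def nd (φ x x' : ℝ) : ℝ × ℝ × ℝ :=
  (-(tanh x * (g.l φ x + g.u φ x * x')), g.r φ x + g.l φ x * x', sech x * (g.l φ x + g.u φ x * x'))
def gv (a α ψ : ℝ) : ℝ × ℝ × ℝ := frame a ψ (g.nv (ψ + α) (xc a ψ))
def gd (a α ψ : ℝ) : ℝ × ℝ × ℝ := frame a ψ (g.nd (ψ + α) (xc a ψ) (dxc a ψ))
/-- minus the derivative of the perimeter of parallel sections -/
def FF (a α : ℝ) : ℝ := ∫ ψ in (0 : ℝ)..2 * π, om (g.gv a α ψ) (g.gd a α ψ)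

/-- the six functions are the stated derivatives -/
structure IsC2 : Prop where
  dn : ∀ φ x, HasFDerivAt (fun p : ℝ × ℝ => g.n p.1 p.2)
    (g.b φ x • ContinuousLinearMap.fst ℝ ℝ ℝ + g.a φ x • ContinuousLinearMap.snd ℝ ℝ ℝ) (φ, x)
  da : ∀ φ x, HasFDerivAt (fun p : ℝ × ℝ => g.a p.1 p.2)
    (g.l φ x • ContinuousLinearMap.fst ℝ ℝ ℝ
      + (g.u φ x + tanh x * g.a φ x) • ContinuousLinearMap.snd ℝ ℝ ℝ) (φ, x)
  db : ∀ φ x, HasFDerivAt (fun p : ℝ × ℝ => g.b p.1 p.2)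
    ((g.r φ x - (g.n φ x - tanh x * g.a φ x)) • ContinuousLinearMap.fst ℝ ℝ ℝ
      + g.l φ x • ContinuousLinearMap.snd ℝ ℝ ℝ) (φ, x)
  cl : Continuous fun p : ℝ × ℝ => g.l p.1 p.2
  cr : Continuous fun p : ℝ × ℝ => g.r p.1 p.2
  cu : Continuous fun p : ℝ × ℝ => g.u p.1 p.2
  pn : ∀ φ x, g.n (φ + 2 * π) x = g.n φ x
  pa : ∀ φ x, g.a (φ + 2 * π) x = g.a φ x
  pb : ∀ φ x, g.b (φ + 2 * π) x = g.b φ x
  pl : ∀ φ x, g.l (φ + 2 * π) x = g.l φ x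
  pr : ∀ φ x, g.r (φ + 2 * π) x = g.r φ x
  pu : ∀ φ x, g.u (φ + 2 * π) x = g.u φ x

/-- positivity, boundedness and convexity -/
structure Good : Prop where
  lower : ∀ φ x, 1 / 2 ≤ g.n φ x * sech x
  bnu : ∀ φ x, |g.n φ x - tanh x * g.a φ x| ≤ 3
  bb : ∀ φ x, |g.b φ x| ≤ 3
  beta : ∀ φ x, |sech x * g.a φ x| ≤ 3
  r_nonneg : ∀ φ x, 0 ≤ g.r φ x
  u_nonneg : ∀ φ x, 0 ≤ g.u φ x
  hess : ∀ φ x, g.l φ x ^ 2 ≤ g.r φ x * g.u φ x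

def nvec (φ x : ℝ) : E3 :=
  !₂[(g.nv φ x).1 * cos φ - (g.nv φ x).2.1 * sin φ, (g.nv φ x).1 * sin φ + (g.nv φ x).2.1 * cos φ,
    (g.nv φ x).2.2]
def Pvec (φ x : ℝ) : E3 := (g.n φ x)⁻¹ • !₂[cos φ, sin φ, sinh x]
/-- the body -/
def Kset : Set E3 := {X | ∀ φ x, inner ℝ X (g.nvec φ x) ≤ 1}
/-- the central section as a plane curve -/
def Pc (a α ψ : ℝ) : ℂ := ((g.n (ψ + α) (xc a ψ))⁻¹ : ℝ) * (⟨rho a * cos ψ, sin ψ⟩ : ℂ)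
/-- the projected gradient as a plane curve -/
def Wc (a α ψ : ℝ) : ℂ := ⟨(g.gv a α ψ).1, (g.gv a α ψ).2.1⟩
def Wd (a α ψ : ℝ) : ℂ := ⟨(g.gd a α ψ).1, (g.gd a α ψ).2.1⟩

end RJ

def uvec (a α : ℝ) : E3 := (rho a)⁻¹ • !₂[-(a * cos α), -(a * sin α), 1]
def f1vec (a α : ℝ) : E3 := (rho a)⁻¹ • !₂[cos α, sin α, a]
def f2vec (α : ℝ) : E3 := !₂[-sin α, cos α, 0]
def plane (f1 f2 u : E3) (t : ℝ) (y : ℂ) : E3 := t • u + y.re • f1 + y.im • f2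
/-- perimeter of a section -/
def Per (K : Set E3) (u : E3) (t : ℝ) : ℝ≥0∞ :=
  Measure.hausdorffMeasure 1 {x : E3 | x ∈ K ∧ inner ℝ x u = t ∧
    ∀ ε : ℝ, 0 < ε → ∃ y : E3, inner ℝ y u = t ∧ dist y x < ε ∧ y ∉ K}
/-- support function of a plane set -/
def supp (C : Set ℂ) (θ : ℝ) : ℝ :=
  sSup ((fun y : ℂ => (y * Complex.exp (-(Complex.I * θ))).re) '' C)

/-! ### The nonlinear map -/

structure BV (A : Type) where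
  N0 : A
  eta0 : A
  nu0 : A
  Nt0 : A
  t : A
  s : A
  k0 : A
  q0 : A
  w : A
  wi : A

section generic

variable {A A' : Type} [NormedCommRing A] [NormedAlgebra ℝ A] [NormedCommRing A']
  [NormedAlgebra ℝ A']

/-- `(1 - q) ^ (-3/2)` -/
def binom (q : A) : A := ∑' j, cc j • q ^ j

namespace BV

variable (b : BV A) (u : Fin 5 → A)

def Bdd (M : ℝ) : Prop :=
  ‖b.N0‖ ≤ M ∧ ‖b.eta0‖ ≤ M ∧ ‖b.nu0‖ ≤ M ∧ ‖b.Nt0‖ ≤ M ∧ ‖b.t‖ ≤ M ∧ ‖b.s‖ ≤ M ∧ ‖b.k0‖ ≤ M ∧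
    ‖b.q0‖ ≤ M ∧ ‖b.w‖ ≤ M ∧ ‖b.wi‖ ≤ M
def NN : A := b.N0 + b.s * u 0
def ET : A := b.eta0 + b.s * u 1
def RH : A := b.nu0 + u 0 - b.t * u 1 + u 4
def NT : A := b.Nt0 + u 1 - b.t * u 0
def QQ : A := b.NN u ^ 2 + b.NT u ^ 2 * ((1 / 4 : ℝ) • (2 - b.w - b.wi))
  + b.NT u * u 2 * ((1 / 2 : ℝ) • (b.w - b.wi)) - u 2 ^ 2 * ((1 / 4 : ℝ) • (2 + b.w + b.wi))
def dq : A := -((b.QQ u - b.QQ 0) * b.q0)
def kk : A := b.k0 * binom (b.dq u)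
def cC (D0 D1 T : A) : A :=
  b.kk u * (b.RH u * (b.NN u * D1 - b.ET u * D0) + b.NN u * T - b.s * u 2 * u 3 * D0)
def cP (p : A →L[ℝ] A') (lh mh D0 D1 Dt : A') : A' :=
  p (b.kk u) * (lh * (p (b.NN u) * D1 - p (b.ET u) * D0)
    - mh * (p (b.NN u) * Dt - p (b.s * u 2) * D0))

end BV

end generic

section modes

variable {E : Type} [NormedCommRing E] [NormedAlgebra ℝ E]

/-- `e * cos (m φ)` -/
def cosE (ω : Wt) (m : ℤ) : E →L[ℝ] W ω E :=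
  (1 / 2 : ℝ) • (W.single ω (m, 0) + W.single ω (-m, 0))
/-- `e * i * sin (m φ)` -/
def sinE (ω : Wt) (m : ℤ) : E →L[ℝ] W ω E :=
  (1 / 2 : ℝ) • (W.single ω (m, 0) - W.single ω (-m, 0))

end modes

def Base.bv (B : Base) (ω : Wt) : BV (W ω E1) where
  N0 := W.single ω 0 B.N0
  eta0 := W.single ω 0 B.eta0
  nu0 := W.single ω 0 B.nu0
  Nt0 := W.single ω 0 B.Nt0
  t := W.single ω 0 B.tE
  s := W.single ω 0 B.sE
  k0 := ∑' n : ℤ, W.single ω (0, n) (B.kc n)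
  q0 := ∑' n : ℤ, W.single ω (0, n) (B.qc n)
  w := W.single ω (0, 1) 1
  wi := W.single ω (0, -1) 1

/-- switch on the modes one at a time -/
def sw (J : ℕ) (τ : ℝ) (j : ℕ) : ℝ := if j < J then 1 else if j = J then τ else 0

namespace Jets

variable {X : Type} [NormedAddCommGroup X] [NormedSpace ℝ X] (T : Jets X)

def uu (J : ℕ) (τ : ℝ) (z : X) : Fin 5 → A1 J :=
  ![∑ j ∈ Finset.range (J + 1), sw J τ j • cosE (wJ J) (mm j) (T.JF j z),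
    ∑ j ∈ Finset.range (J + 1), sw J τ j • cosE (wJ J) (mm j) (T.JD j z),
    ∑ j ∈ Finset.range (J + 1), (sw J τ j * mm j) • sinE (wJ J) (mm j) (T.JF j z),
    ∑ j ∈ Finset.range (J + 1), (sw J τ j * mm j) • sinE (wJ J) (mm j) (T.JD j z),
    -∑ j ∈ Finset.range (J + 1), (sw J τ j * (mm j : ℝ) ^ 2) • cosE (wJ J) (mm j) (T.JF j z)]
def lh (J : ℕ) (τ : ℝ) (z : X) : A0 J :=
  ∑ j ∈ Finset.range (J + 1), (sw J τ j * mm j) • sinE (wJ J) (mm j) (T.F1 j z)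
def mh (B : Base) (J : ℕ) (τ : ℝ) (z : X) : A0 J :=
  W.single (wJ J) 0 B.mu0 + ∑ j ∈ Finset.range (J + 1), sw J τ j • cosE (wJ J) (mm j) (T.F2 j z)
def hC (B : Base) (J : ℕ) (τ : ℝ) (z' z : X) : A1 J :=
  (B.bv (wJ J)).cC (T.uu J τ z') (cosE (wJ J) (mm J) (T.JF J z)) (cosE (wJ J) (mm J) (T.JD J z))
    (T.uu J τ z' 3 * (mm J : ℝ) • sinE (wJ J) (mm J) (T.JF J z))
def hP (B : Base) (J : ℕ) (τ : ℝ) (z' z : X) : A0 J :=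
  (B.bv (wJ J)).cP (T.uu J τ z') (pi1 (wJ J)) (T.lh J τ z') (T.mh B J τ z')
    (cosE (wJ J) (mm J) (T.F J z)) (cosE (wJ J) (mm J) (epsB * T.F1 J z))
    ((mm J : ℝ) • sinE (wJ J) (mm J) (T.F J z))
/-- derivative of the functional at the gauge `(J, τ, z')` in the direction of mode `J` of `z` -/
def HH (B : Base) (J : ℕ) (τ : ℝ) (z' z : X) : ZZ :=
  GamC J (T.hC B J τ z' z) + GamP J (T.hP B J τ z' z)
def DD (B : Base) (z : X) : ZZ := ∑' J, ∫ τ in (0 : ℝ)..1, T.HH B J τ z z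

end Jets

/-! ### Linear operators -/

def wt0 : ℕ → ℝ
  | 0 => 1 / 2
  | _ + 1 => 1

/-- coefficient of `w ^ n` of the linearised functional, for `f = F`, `d = F'` -/
def Base.chat (B : Base) (j n : ℕ) (f d : E1) : E1 :=
  B.kc n * B.nu0 * (B.N0 * d - B.eta0 * f)
    - (mm j : ℝ) • prim (mm j) n (fstL (B.kc n) * B.mu0 * fstL B.N0 * fstL f)

/-- principal part -/
def Pr (B : Base) (Z : ChainData) (j : ℕ) : E0 →L[ℝ] Y0 :=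
  ∑' n, wt0 n • (res ∘L (1 + refl) ∘L che Z.Re j n ∘L mulL (B.g n))

/-- constant coefficient resolvents on the half-line -/
structure HRes where
  R : ℝ → Y0 →L[ℝ] Y0
  deriv : ∀ a, a ≠ 0 → ∀ c x, 0 < x → HasDerivAt (ext (R a c)) (a * ext (R a c) x + ext c x) x
  zero : ∀ a, a < 0 → ∀ c, R a c 0 = 0
  norm : ∀ a, a ≠ 0 → ‖R a‖ ≤ 1 / |a|

namespace HRes

variable (H : HRes)

def ZR (j n : ℕ) : Y0 →L[ℝ] Y0 :=
  1 + (2 * (mm j : ℝ) - (4 * n - 2)) • H.R (mm j - 2 * n + gam)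
def ZL (j n : ℕ) : Y0 →L[ℝ] Y0 :=
  1 + (-(2 * (mm j : ℝ) + (4 * n - 2))) • H.R (-(mm j + 2 * n - gam))
def CR (j : ℕ) : ℕ → Y0 →L[ℝ] Y0 := chainOf (H.ZR j)
def CL (j : ℕ) : ℕ → Y0 →L[ℝ] Y0 := chainOf (H.ZL j)
/-- the model operator at infinity -/
def Sc (j : ℕ) : Y0 →L[ℝ] Y0 :=
  ginf 0 • (1 : Y0 →L[ℝ] Y0) + ∑' n, ginf (n + 1) • (H.CR j (n + 1) + H.CL j (n + 1))
def ww : Y0 →L[ℝ] Y0 :=
  (50 / 81 : ℝ) • (H.R (gam - 1 / 7) * (1 + (5 / 3 : ℝ) • H.R (gam - 10 / 3)))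
def UU : Y0 →L[ℝ] Y0 :=
  (50 / 81 : ℝ) • ((1 + (-(8 / 7) : ℝ) • H.R (gam - 1 / 7)) * (1 + (5 / 3 : ℝ) • H.R (gam - 10 / 3)))

end HRes

def thinf : ℝ := ginf 0 + 2 * ∑' n, ginf (n + 1)
/-- total multiplier divided by its limit -/
def Base.thq (B : Base) : Y0 := thinf⁻¹ • res (B.g 0 + (2 : ℝ) • ∑' n, B.g (n + 1))

end Pool.Agent.PS
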