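import Pool.Agent.P.MP_6c3c64_gt.Basic

/-! The Banach algebra `E1` of pairs `(f, g)` of bounded continuous functions with `f' = eps * g`. -/

set_option autoImplicit false

open Real BoundedContinuousFunction MeasureTheory Set Filter Topology TrivSqZeroExt
open scoped NNReal

noncomputable section

namespace Pool.Agent.PS

def E1sub : Subalgebra ℝ (DualNumber E0) where
  carrier := {a | ∀ x, HasDerivAt a.fst (eps x * a.snd x) x}
  mul_mem' := by
    intro a b ha hb x
    have h := (ha x).mul (hb x)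
    refine HasDerivAt.congr_deriv (f := ⇑(a * b).fst) h ?_
    simp only [DualNumber.snd_mul, BoundedContinuousFunction.add_apply,
      BoundedContinuousFunction.mul_apply]
    ring
  add_mem' := by
    intro a b ha hb x
    have h := (ha x).add (hb x)
    refine HasDerivAt.congr_deriv (f := ⇑(a + b).fst) h ?_
    simp only [snd_add, BoundedContinuousFunction.add_apply]
    ring
  algebraMap_mem' := by
    intro r x
    have h : HasDerivAt (fun _ : ℝ => r) 0 x := hasDerivAt_const x r
    have e : ⇑(algebraMap ℝ (DualNumber E0) r).fst = fun _ => r := by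
      ext y; simp [Algebra.algebraMap_eq_smul_one]
    have e2 : (algebraMap ℝ (DualNumber E0) r).snd = 0 := by
      simp [Algebra.algebraMap_eq_smul_one]
    rw [e, e2]; simpa using h

/-- pairs `(f, g)` with `f' = eps * g` -/
def E1 : Type := E1sub

instance : NormedCommRing E1 := inferInstanceAs (NormedCommRing E1sub)
instance : Algebra ℝ E1 := inferInstanceAs (Algebra ℝ E1sub)
instance : NormedAlgebra ℝ E1 where
  norm_smul_le r a := norm_smul_le r (show E1sub from a).1

namespace E1

def val (a : E1) : DualNumber E0 := (show E1sub from a).1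

theorem norm_val (a : E1) : ‖a‖ = ‖a.val.fst‖ + ‖a.val.snd‖ := TrivSqZeroExt.norm_def a.val

end E1

/-- the function -/
def fstL : E1 →L[ℝ] E0 :=
  LinearMap.mkContinuous
    { toFun := fun a => a.val.fst, map_add' := fun _ _ => rfl, map_smul' := fun _ _ => rfl } 1
    fun a => by rw [one_mul, E1.norm_val]; exact le_add_of_nonneg_right (norm_nonneg _)
/-- the derivative divided by `eps` -/
def sndL : E1 →L[ℝ] E0 :=
  LinearMap.mkContinuous
    { toFun := fun a => a.val.snd, map_add' := fun _ _ => rfl, map_smul' := fun _ _ => rfl } 1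
    fun a => by rw [one_mul, E1.norm_val]; exact le_add_of_nonneg_left (norm_nonneg _)

theorem norm_fstL : ‖fstL‖ ≤ 1 := LinearMap.mkContinuous_norm_le _ zero_le_one _
theorem norm_sndL : ‖sndL‖ ≤ 1 := LinearMap.mkContinuous_norm_le _ zero_le_one _
theorem E1.norm_def (a : E1) : ‖a‖ = ‖fstL a‖ + ‖sndL a‖ := E1.norm_val a
theorem norm_fstL_le (a : E1) : ‖fstL a‖ ≤ ‖a‖ := by
  rw [E1.norm_def]; exact le_add_of_nonneg_right (norm_nonneg _)
theorem norm_sndL_le (a : E1) : ‖sndL a‖ ≤ ‖a‖ := by
  rw [E1.norm_def]; exact le_add_of_nonneg_left (norm_nonneg _)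
theorem E1.hasDerivAt (a : E1) (x : ℝ) : HasDerivAt (fstL a) (eps x * sndL a x) x :=
  (show E1sub from a).2 x
@[simp] theorem fstL_mul (a b : E1) : fstL (a * b) = fstL a * fstL b := rfl
@[simp] theorem sndL_mul (a b : E1) : sndL (a * b) = fstL a * sndL b + sndL a * fstL b :=
  DualNumber.snd_mul a.val b.val
@[simp] theorem fstL_one : fstL 1 = 1 := rfl
@[simp] theorem sndL_one : sndL 1 = 0 := rfl
theorem fstL_pow (a : E1) (n : ℕ) : fstL (a ^ n) = fstL a ^ n := by
  induction n with
  | zero => simp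
  | succ n ih => rw [pow_succ, fstL_mul, ih, pow_succ]

theorem E1.ext' {a b : E1} (h1 : fstL a = fstL b) (h2 : sndL a = sndL b) : a = b :=
  Subtype.ext (TrivSqZeroExt.ext h1 h2)
/-- an element of `E1` is determined by its function -/
theorem E1.ext {a b : E1} (h : fstL a = fstL b) : a = b := by
  refine E1.ext' h ?_
  ext x
  have h1 := a.hasDerivAt x
  rw [h] at h1
  exact mul_left_cancel₀ (eps_pos x).ne' (h1.unique (b.hasDerivAt x))

def E1.mk (f g : E0) (h : ∀ x, HasDerivAt f (eps x * g x) x) : E1 :=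
  (⟨(f, g), h⟩ : E1sub)
@[simp] theorem fstL_mk (f g : E0) (h : ∀ x, HasDerivAt f (eps x * g x) x) :
    fstL (E1.mk f g h) = f := rfl
@[simp] theorem sndL_mk (f g : E0) (h : ∀ x, HasDerivAt f (eps x * g x) x) :
    sndL (E1.mk f g h) = g := rfl

/-- a continuous linear map into `E1` from its two components -/
def E1.mkL {V : Type} [NormedAddCommGroup V] [NormedSpace ℝ V] (F G : V →L[ℝ] E0)
    (h : ∀ v x, HasDerivAt (F v) (eps x * G v x) x) : V →L[ℝ] E1 :=
  LinearMap.mkContinuous
    { toFun := fun v => E1.mk (F v) (G v) (h v)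
      map_add' := fun v w => E1.ext (by simp)
      map_smul' := fun c v => E1.ext (by simp) } (‖F‖ + ‖G‖)
    fun v => by
      rw [E1.norm_def, add_mul]
      exact add_le_add (F.le_opNorm v) (G.le_opNorm v)
@[simp] theorem fstL_mkL {V : Type} [NormedAddCommGroup V] [NormedSpace ℝ V] (F G : V →L[ℝ] E0)
    (h : ∀ v x, HasDerivAt (F v) (eps x * G v x) x) (v : V) : fstL (E1.mkL F G h v) = F v := rfl
@[simp] theorem sndL_mkL {V : Type} [NormedAddCommGroup V] [NormedSpace ℝ V] (F G : V →L[ℝ] E0)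
    (h : ∀ v x, HasDerivAt (F v) (eps x * G v x) x) (v : V) : sndL (E1.mkL F G h v) = G v := rfl
theorem norm_mkL {V : Type} [NormedAddCommGroup V] [NormedSpace ℝ V] (F G : V →L[ℝ] E0)
    (h : ∀ v x, HasDerivAt (F v) (eps x * G v x) x) : ‖E1.mkL F G h‖ ≤ ‖F‖ + ‖G‖ :=
  LinearMap.mkContinuous_norm_le _ (by positivity) _

instance : CompleteSpace E1 := by
  refine Metric.complete_of_cauchySeq_tendsto fun u hu => ?_
  obtain ⟨f, hf⟩ := cauchySeq_tendsto_of_complete (fstL.uniformContinuous.comp_cauchySeq hu)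
  obtain ⟨g, hg⟩ := cauchySeq_tendsto_of_complete (sndL.uniformContinuous.comp_cauchySeq hu)
  have hg' : Tendsto (fun n => epsB * sndL (u n)) atTop (𝓝 (epsB * g)) := hg.const_mul epsB
  have h : ∀ x, HasDerivAt f (eps x * g x) x := fun x =>
    hasDerivAt_of_tendstoUniformly (f := fun n => ⇑(fstL (u n)))
      (f' := fun n => ⇑(epsB * sndL (u n))) (g' := ⇑(epsB * g)) (l := atTop)
      (BoundedContinuousFunction.tendsto_iff_tendstoUniformly.1 hg')
      (Eventually.of_forall fun n y => (u n).hasDerivAt y)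
      (fun y => ((evalCLM ℝ y).continuous.tendsto f).comp hf) x
  refine ⟨E1.mk f g h, ?_⟩
  rw [tendsto_iff_norm_sub_tendsto_zero] at hf hg ⊢
  have := hf.add hg
  rw [add_zero] at this
  refine this.congr fun n => ?_
  rw [E1.norm_def, map_sub, map_sub]; rfl

/-- `f ↦ -f(-·)` on `E1` -/
def mir : E1 →L[ℝ] E1 :=
  E1.mkL (-(refl ∘L fstL)) (refl ∘L sndL) fun a x => by
    have h := ((a.hasDerivAt (-x)).comp x (hasDerivAt_neg x)).neg
    refine HasDerivAt.congr_deriv (f := ⇑((-(refl ∘L fstL)) a)) h ?_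
    simp [eps_neg]
theorem fstL_mir (a : E1) (x : ℝ) : fstL (mir a) x = -fstL a (-x) := rfl
theorem sndL_mir (a : E1) (x : ℝ) : sndL (mir a) x = sndL a (-x) := rfl
theorem norm_mir : ‖mir‖ ≤ 1 := by
  refine mir.opNorm_le_bound zero_le_one fun a => ?_
  rw [one_mul, E1.norm_def, E1.norm_def a]
  refine add_le_add (norm_le_of_abs fun x => ?_) (norm_le_of_abs fun x => ?_)
  · rw [fstL_mir, abs_neg]; exact abs_le_norm _ _
  · rw [sndL_mir]; exact abs_le_norm _ _

/-- `p ↦ (m - 2 n tanh) * ∫_0^x eps * p` as an element of `E1` -/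
def prim (m n : ℝ) : E0 →L[ℝ] E1 :=
  E1.mkL (mulL (alpB m n) ∘L primL) (mulL (alpB m n) - (2 * n) • (mulL s2eB ∘L primL))
    fun p x => by
      have h1 : HasDerivAt (fun x => m - 2 * n * tanh x) (-(2 * n * sech x ^ 2)) x :=
        ((hasDerivAt_tanh' x).const_mul (2 * n)).const_sub m
      have h := h1.mul (hasDerivAt_primL p x)
      have e : ⇑((mulL (alpB m n) ∘L primL) p) = (fun x => m - 2 * n * tanh x) * ⇑(primL p) := by
        ext y; simp
      rw [e]
      refine h.congr_deriv ?_
      have := (eps_pos x).ne'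
      simp only [_root_.sub_apply, _root_.smul_apply,
        ContinuousLinearMap.comp_apply, mulL_apply, BoundedContinuousFunction.sub_apply,
        BoundedContinuousFunction.smul_apply, BoundedContinuousFunction.mul_apply, alpB_apply,
        s2eB_apply, smul_eq_mul]
      field_simp
      ring
theorem fstL_prim (m n : ℝ) (p : E0) : fstL (prim m n p) = alpB m n * primL p := rfl
theorem sndL_prim (m n : ℝ) (p : E0) :
    sndL (prim m n p) = alpB m n * p - (2 * n) • (s2eB * primL p) := rfl
theorem norm_prim (m n : ℝ) : ‖prim m n‖ ≤ 1000 * (|m| + |n|) := by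
  refine (prim m n).opNorm_le_bound (by positivity) fun p => ?_
  have h0 : ‖primL p‖ ≤ 200 * ‖p‖ :=
    (primL.le_opNorm p).trans (mul_le_mul_of_nonneg_right norm_primL (norm_nonneg _))
  have ha := norm_alpB m n
  have hm := abs_nonneg m
  have hn := abs_nonneg n
  have hp := norm_nonneg p
  have h1 : ‖alpB m n * primL p‖ ≤ (|m| + 2 * |n|) * (200 * ‖p‖) :=
    (norm_mul_le _ _).trans (mul_le_mul ha h0 (norm_nonneg _) (by positivity))
  have h2 : ‖alpB m n * p‖ ≤ (|m| + 2 * |n|) * ‖p‖ :=
    (norm_mul_le _ _).trans (mul_le_mul_of_nonneg_right ha hp)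
  have h3 : ‖(2 * n) • (s2eB * primL p)‖ ≤ 2 * |n| * (1 * (200 * ‖p‖)) := by
    rw [norm_smul, Real.norm_eq_abs, abs_mul, abs_two]
    exact mul_le_mul_of_nonneg_left ((norm_mul_le _ _).trans
      (mul_le_mul norm_s2eB h0 (norm_nonneg _) zero_le_one)) (by positivity)
  rw [E1.norm_def, fstL_prim, sndL_prim]
  have h4 := norm_sub_le (alpB m n * p) ((2 * n) • (s2eB * primL p))
  nlinarith [mul_nonneg hm hp, mul_nonneg hn hp]

end Pool.Agent.PS
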