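import Mathlib

/-! Abstract Hilbert space part: Schur complements with respect to a finite dimensional subspace. -/

set_option autoImplicit false

namespace Pool.Agent.MMO

noncomputable section

variable {X : Type*} [NormedAddCommGroup X] [InnerProductSpace ℝ X]

/-- `W` is invariant under `T` -/
def Inv (W : Submodule ℝ X) (T : X →L[ℝ] X) : Prop := ∀ h ∈ W, T h ∈ W

/-- `T` on `W`, the identity on the orthogonal complement of `W` -/
def cut (W : Submodule ℝ X) [W.HasOrthogonalProjection] (T : X →L[ℝ] X) : X →L[ℝ] X :=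
  T ∘L W.starProjection + (1 - W.starProjection)

/-- `P + (1 - P) T`, with `P` the orthogonal projection onto `V` -/
def Sop (V : Submodule ℝ X) [V.HasOrthogonalProjection] (T : X →L[ℝ] X) : X →L[ℝ] X :=
  V.starProjection + (1 - V.starProjection) ∘L T

/-- the Schur complement `P T (P + (1 - P) T)⁻¹` on `V` -/
def schur (V : Submodule ℝ X) [V.HasOrthogonalProjection] (T : X →L[ℝ] X) : V →L[ℝ] V :=
  V.orthogonalProjectionOnto ∘L T ∘L Ring.inverse (Sop V T) ∘L V.subtypeL

/-- the determinant of the Schur complement -/
def sdet (V : Submodule ℝ X) [V.HasOrthogonalProjection] (T : X →L[ℝ] X) : ℝ :=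
  LinearMap.det (schur V T : V →ₗ[ℝ] V)

end

end Pool.Agent.MMO
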