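import Pool.Agent.P.MP_6c3c64_gt.ELax

/-! Finite dimensional bifurcation from a sign change of the determinant. -/

set_option autoImplicit false

namespace Pool.Agent.MMO

open Set

open Filter Topology in
theorem edeg_lin {V : Type*} [NormedAddCommGroup V] [InnerProductSpace ℝ V]
    (G : V → V) (e : V ≃L[ℝ] V) (h0 : G 0 = 0) (h : HasFDerivAt G (e : V →L[ℝ] V) 0) :
    ∃ ε : ℝ, 0 < ε ∧ ∀ ξ : V, ξ ≠ 0 → ‖ξ‖ < ε → ∀ s : ℝ, 0 ≤ s → s ≤ 1 →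
      e ξ + s • (G ξ - e ξ) ≠ 0 := by
  have h1 := (h.isLittleO.trans_isBigO (e.isBigO_comp_rev (fun x : V => x - 0) (𝓝 0))).def
    (c := 1 / 2) (by norm_num)
  obtain ⟨ε, hε, h2⟩ := Metric.eventually_nhds_iff_ball.1 h1
  refine ⟨ε, hε, fun ξ hξ hξε s hs0 hs1 h3 => hξ ?_⟩
  have h4 := h2 ξ (mem_ball_zero_iff.2 hξε)
  simp only [h0, sub_zero, ContinuousLinearEquiv.coe_coe] at h4
  have h5 : ‖e ξ‖ = s * ‖G ξ - e ξ‖ := by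
    rw [eq_neg_of_add_eq_zero_left h3, norm_neg, norm_smul, Real.norm_of_nonneg hs0,
      ← eq_neg_of_add_eq_zero_left h3]
  have h6 : ‖e ξ‖ = 0 := by
    nlinarith [norm_nonneg (e ξ), norm_nonneg (G ξ - e ξ)]
  exact e.map_eq_zero_iff.1 (norm_eq_zero.1 h6)

open Filter Topology in
theorem bif_fin {V : Type*} [NormedAddCommGroup V] [InnerProductSpace ℝ V]
    [FiniteDimensional ℝ V] (F : ℝ × V → V) (μ₁ μ₂ δ : ℝ) (hδ : 0 < δ) (O : Set (ℝ × V))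
    (hO : IsOpen O) (hF : ContDiffOn ℝ 1 F O) (hsub : uIcc μ₁ μ₂ ×ˢ Metric.ball (0 : V) δ ⊆ O)
    (h0 : ∀ μ ∈ uIcc μ₁ μ₂, F (μ, 0) = 0) (A₁ A₂ : V →L[ℝ] V)
    (h₁ : HasFDerivAt (fun ξ => F (μ₁, ξ)) A₁ 0) (h₂ : HasFDerivAt (fun ξ => F (μ₂, ξ)) A₂ 0)
    (hdet : LinearMap.det (A₁ : V →ₗ[ℝ] V) * LinearMap.det (A₂ : V →ₗ[ℝ] V) < 0) :
    ∃ μ ∈ uIcc μ₁ μ₂, ∃ ξ : V, ξ ≠ 0 ∧ ‖ξ‖ < δ ∧ F (μ, ξ) = 0 := by
  by_contra hcon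
  have hno : ∀ μ ∈ uIcc μ₁ μ₂, ∀ ξ : V, ξ ≠ 0 → ‖ξ‖ < δ → F (μ, ξ) ≠ 0 :=
    fun μ hμ ξ a b c => hcon ⟨μ, hμ, ξ, a, b, c⟩
  obtain ⟨e₁, rfl⟩ : ∃ e : V ≃L[ℝ] V, (e : V →L[ℝ] V) = A₁ :=
    ⟨A₁.toContinuousLinearEquivOfDetNeZero (left_ne_zero_of_mul hdet.ne),
      A₁.coe_toContinuousLinearEquivOfDetNeZero _⟩
  obtain ⟨e₂, rfl⟩ : ∃ e : V ≃L[ℝ] V, (e : V →L[ℝ] V) = A₂ :=
    ⟨A₂.toContinuousLinearEquivOfDetNeZero (right_ne_zero_of_mul hdet.ne),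
      A₂.coe_toContinuousLinearEquivOfDetNeZero _⟩
  obtain ⟨ε₁, hε₁, k₁⟩ := edeg_lin _ e₁ (h0 μ₁ left_mem_uIcc) h₁
  obtain ⟨ε₂, hε₂, k₂⟩ := edeg_lin _ e₂ (h0 μ₂ right_mem_uIcc) h₂
  obtain ⟨ε, hε, hεδ, hε1, hε2⟩ : ∃ ε : ℝ, 0 < ε ∧ ε ≤ δ ∧ ε ≤ ε₁ ∧ ε ≤ ε₂ :=
    ⟨min δ (min ε₁ ε₂), by positivity, min_le_left _ _,
      (min_le_right _ _).trans (min_le_left _ _), (min_le_right _ _).trans (min_le_right _ _)⟩
  obtain ⟨ρ, hρ, hρ5, hρ1⟩ : ∃ ρ : V → ℝ, ContDiff ℝ 1 ρ ∧ (∀ ξ, ε ≤ ‖ξ‖ → 5 ≤ ρ ξ) ∧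
      ∀ ξ, ‖ξ‖ < ε / 3 → ρ ξ ≤ 1 := by
    refine ⟨fun ξ => 5 / ε ^ 2 * ‖ξ‖ ^ 2, contDiff_const.mul (contDiff_norm_sq ℝ),
      fun ξ h => ?_, fun ξ h => ?_⟩
    · show 5 ≤ 5 / ε ^ 2 * ‖ξ‖ ^ 2
      rw [div_mul_eq_mul_div, le_div_iff₀ (by positivity)]
      nlinarith
    · show 5 / ε ^ 2 * ‖ξ‖ ^ 2 ≤ 1
      rw [div_mul_eq_mul_div, div_le_one (by positivity)]
      nlinarith [norm_nonneg ξ]
  have hlt : ∀ ξ, ρ ξ < 5 → ‖ξ‖ < ε := fun ξ h => lt_of_not_ge fun h' => not_le.2 h (hρ5 ξ h')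
  obtain ⟨σ, hσ, hσ0, hσ1, hz, ho⟩ : ∃ σ : ℝ → V → ℝ, (∀ a, ContDiff ℝ 1 (σ a)) ∧
      (∀ a ξ, 0 ≤ σ a ξ) ∧ (∀ a ξ, σ a ξ ≤ 1) ∧ (∀ a ξ, ρ ξ ≤ a → σ a ξ = 0) ∧
      ∀ a ξ, a + 1 ≤ ρ ξ → σ a ξ = 1 :=
    ⟨fun a ξ => Real.smoothTransition (ρ ξ - a),
      fun a => (Real.smoothTransition.contDiff (n := 1)).comp (hρ.sub contDiff_const),
      fun _ _ => Real.smoothTransition.nonneg _, fun _ _ => Real.smoothTransition.le_one _,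
      fun a ξ h => Real.smoothTransition.zero_of_nonpos (by linarith),
      fun a ξ h => Real.smoothTransition.one_of_one_le (by linarith)⟩
  have hm : ∀ ξ, μ₁ + σ 2 ξ * (μ₂ - μ₁) ∈ uIcc μ₁ μ₂ := by
    intro ξ
    rw [← segment_eq_uIcc]
    refine ⟨1 - σ 2 ξ, σ 2 ξ, sub_nonneg.2 (hσ1 _ _), hσ0 _ _, by ring, ?_⟩
    simp only [smul_eq_mul]
    ring
  have hT : ContDiff ℝ 1 fun ξ => (σ 1 ξ - σ 3 ξ) • F (μ₁ + σ 2 ξ * (μ₂ - μ₁), ξ) := by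
    refine contDiff_iff_contDiffAt.2 fun ξ => ?_
    rcases lt_or_ge ‖ξ‖ δ with h | h
    · refine ((hσ 1).sub (hσ 3)).contDiffAt.smul ?_
      exact (hF.contDiffAt (hO.mem_nhds (hsub ⟨hm ξ, mem_ball_zero_iff.2 h⟩))).comp ξ
        ((contDiff_const.add ((hσ 2).mul contDiff_const)).prodMk contDiff_id).contDiffAt
    · have h1 : ∀ᶠ η in 𝓝 ξ, 4 < ρ η :=
        hρ.continuous.continuousAt.eventually
          (lt_mem_nhds (by linarith [hρ5 ξ (hεδ.trans h)]))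
      refine (contDiffAt_const (c := (0 : V))).congr_of_eventuallyEq ?_
      filter_upwards [h1] with η hη
      rw [ho 1 η (by linarith), ho 3 η (by linarith), sub_self, zero_smul]
  refine lax_false (fun ξ => e₂.symm ((1 - σ 1 ξ) • e₁ ξ + σ 3 ξ • e₂ ξ +
      (σ 1 ξ - σ 3 ξ) • F (μ₁ + σ 2 ξ * (μ₂ - μ₁), ξ)))
    (e₂.symm.contDiff.comp ((((contDiff_const.sub (hσ 1)).smul e₁.contDiff).add
      ((hσ 3).smul e₂.contDiff)).add hT)) ε (fun ξ h => ?_)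
    ((e₂.symm : V →L[ℝ] V).comp (e₁ : V →L[ℝ] V)) (ε / 3) (by positivity) (fun ξ h => ?_) ?_
    (fun ξ hξ h => ?_)
  · have h1 := hρ5 ξ h
    simp only [ho 1 ξ (by linarith), ho 3 ξ (by linarith), sub_self, zero_smul, one_smul, zero_add,
      add_zero, ContinuousLinearEquiv.symm_apply_apply]
  · have h1 := hρ1 ξ h
    simp only [hz 1 ξ h1, hz 3 ξ (by linarith), sub_zero, zero_smul, one_smul, add_zero,
      ContinuousLinearMap.comp_apply, ContinuousLinearEquiv.coe_coe]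
  · have h1 : LinearMap.det ((e₂.symm : V →L[ℝ] V) : V →ₗ[ℝ] V) *
        LinearMap.det ((e₂ : V →L[ℝ] V) : V →ₗ[ℝ] V) = 1 := by
      rw [← LinearMap.det_comp, ← LinearMap.det_id (A := ℝ) (M := V)]
      exact congrArg _ (LinearMap.ext fun x => e₂.symm_apply_apply x)
    have h4 : (((e₂.symm : V →L[ℝ] V).comp (e₁ : V →L[ℝ] V) : V →L[ℝ] V) : V →ₗ[ℝ] V) =
        ((e₂.symm : V →L[ℝ] V) : V →ₗ[ℝ] V) ∘ₗ ((e₁ : V →L[ℝ] V) : V →ₗ[ℝ] V) := rfl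
    rw [h4, LinearMap.det_comp]
    generalize LinearMap.det ((e₂.symm : V →L[ℝ] V) : V →ₗ[ℝ] V) = d at h1 ⊢
    generalize LinearMap.det ((e₂ : V →L[ℝ] V) : V →ₗ[ℝ] V) = d₂ at h1 hdet
    generalize LinearMap.det ((e₁ : V →L[ℝ] V) : V →ₗ[ℝ] V) = d₁ at hdet ⊢
    have h2 : d ≠ 0 := left_ne_zero_of_mul_eq_one h1
    have h3 : d * d₁ = d ^ 2 * (d₁ * d₂) := by linear_combination (-(d * d₁)) * h1
    rw [h3]
    exact mul_neg_of_pos_of_neg (by positivity) hdet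
  · have h1 := e₂.symm.map_eq_zero_iff.1 h
    rcases le_total (ρ ξ) 2 with c2 | c2
    · rw [hz 2 ξ c2, hz 3 ξ (by linarith), zero_mul, add_zero μ₁] at h1
      refine k₁ ξ hξ ((hlt ξ (by linarith)).trans_le hε1) _ (hσ0 1 ξ) (hσ1 1 ξ) ?_
      rw [← h1]
      module
    · rw [ho 1 ξ (by linarith)] at h1
      rcases le_total (ρ ξ) 3 with c3 | c3
      · rw [hz 3 ξ c3] at h1
        refine hno _ (hm ξ) ξ hξ ((hlt ξ (by linarith)).trans_le hεδ) ?_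
        rw [← h1]
        module
      · rw [ho 2 ξ (by linarith), one_mul, add_sub_cancel] at h1
        rcases le_total (ρ ξ) 4 with c4 | c4
        · refine k₂ ξ hξ ((hlt ξ (by linarith)).trans_le hε2) (1 - σ 3 ξ)
            (sub_nonneg.2 (hσ1 3 ξ)) (sub_le_self _ (hσ0 3 ξ)) ?_
          rw [← h1]
          module
        · rw [ho 3 ξ (by linarith)] at h1
          refine hξ (e₂.map_eq_zero_iff.1 ?_)
          rw [← h1]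
          module

end Pool.Agent.MMO
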