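import Pool.Agent.P.MP_6c3c64_gt.EDefs

/-! The bordered system: solvability, and the sign of the Schur determinant. -/

set_option autoImplicit false

namespace Pool.Agent.MMO

open Set

variable {X : Type*} [NormedAddCommGroup X] [InnerProductSpace ℝ X] [CompleteSpace X]

section block

variable {U U' : Type*} [AddCommGroup U] [Module ℝ U] [FiniteDimensional ℝ U]
  [AddCommGroup U'] [Module ℝ U'] [FiniteDimensional ℝ U']

theorem eext_det_upper (f : U × U' →ₗ[ℝ] U × U') (A : U →ₗ[ℝ] U) (D : U' →ₗ[ℝ] U')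
    (h1 : ∀ x, f (x, 0) = (A x, 0)) (h2 : ∀ y, (f (0, y)).2 = D y) :
    LinearMap.det f = LinearMap.det A * LinearMap.det D := by
  classical
  let b := Module.finBasis ℝ U
  let b' := Module.finBasis ℝ U'
  have h : LinearMap.toMatrix (b.prod b') (b.prod b') f =
      Matrix.fromBlocks (LinearMap.toMatrix b b A)
        (LinearMap.toMatrix b' b (LinearMap.fst ℝ U U' ∘ₗ f ∘ₗ LinearMap.inr ℝ U U')) 0
        (LinearMap.toMatrix b' b' D) := by
    ext (i | i) (j | j) <;> simp [LinearMap.toMatrix_apply, h1, h2]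
  rw [← LinearMap.det_toMatrix (b.prod b'), h, Matrix.det_fromBlocks_zero₂₁,
    LinearMap.det_toMatrix, LinearMap.det_toMatrix]

theorem eext_det_lower (f : U × U' →ₗ[ℝ] U × U') (A : U →ₗ[ℝ] U) (D : U' →ₗ[ℝ] U')
    (h1 : ∀ x, (f (x, 0)).1 = A x) (h2 : ∀ y, f (0, y) = (0, D y)) :
    LinearMap.det f = LinearMap.det A * LinearMap.det D := by
  classical
  let b := Module.finBasis ℝ U
  let b' := Module.finBasis ℝ U'
  have h : LinearMap.toMatrix (b.prod b') (b.prod b') f =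
      Matrix.fromBlocks (LinearMap.toMatrix b b A) 0
        (LinearMap.toMatrix b b' (LinearMap.snd ℝ U U' ∘ₗ f ∘ₗ LinearMap.inl ℝ U U'))
        (LinearMap.toMatrix b' b' D) := by
    ext (i | i) (j | j) <;> simp [LinearMap.toMatrix_apply, h1, h2]
  rw [← LinearMap.det_toMatrix (b.prod b'), h, Matrix.det_fromBlocks_zero₁₂,
    LinearMap.det_toMatrix, LinearMap.det_toMatrix]

end block

/-- linear combinations of three vectors -/
noncomputable def eextK (k : Fin 3 → X) : (Fin 3 → ℝ) →L[ℝ] X :=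
  ∑ i, (ContinuousLinearMap.proj i : (Fin 3 → ℝ) →L[ℝ] ℝ).smulRight (k i)

omit [CompleteSpace X] in
theorem eextK_apply (k : Fin 3 → X) (c : Fin 3 → ℝ) : eextK k c = ∑ i, c i • k i := by
  simp [eextK]

/-- the solution of the projected system -/
noncomputable def eextH (V : Submodule ℝ X) [FiniteDimensional ℝ V] (S : X →L[ℝ] X)
    (k : Fin 3 → X) : V × (Fin 3 → ℝ) →L[ℝ] X :=
  Ring.inverse (Sop V S) ∘L (V.subtypeL ∘L ContinuousLinearMap.fst ℝ V (Fin 3 → ℝ) -
    (1 - V.starProjection) ∘L eextK k ∘L ContinuousLinearMap.snd ℝ V (Fin 3 → ℝ))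

/-- the bordered map -/
noncomputable def eextB (V : Submodule ℝ X) [FiniteDimensional ℝ V] (S : X →L[ℝ] X)
    (k : Fin 3 → X) (E : X →L[ℝ] (Fin 3 → ℝ)) : V × (Fin 3 → ℝ) →L[ℝ] V × (Fin 3 → ℝ) :=
  ContinuousLinearMap.inl ℝ V (Fin 3 → ℝ) ∘L V.orthogonalProjectionOnto ∘L
      (S ∘L eextH V S k + eextK k ∘L ContinuousLinearMap.snd ℝ V (Fin 3 → ℝ)) +
    ContinuousLinearMap.inr ℝ V (Fin 3 → ℝ) ∘L E ∘L eextH V S k

omit [CompleteSpace X] in
theorem eextB_apply (V : Submodule ℝ X) [FiniteDimensional ℝ V] (S : X →L[ℝ] X)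
    (k : Fin 3 → X) (E : X →L[ℝ] (Fin 3 → ℝ)) (p : V × (Fin 3 → ℝ)) :
    eextB V S k E p = (V.orthogonalProjectionOnto (S (eextH V S k p) + eextK k p.2),
      E (eextH V S k p)) := by
  simp [eextB]

omit [CompleteSpace X] in
theorem eextH_apply (V : Submodule ℝ X) [FiniteDimensional ℝ V] (S : X →L[ℝ] X)
    (k : Fin 3 → X) (p : V × (Fin 3 → ℝ)) :
    eextH V S k p = Ring.inverse (Sop V S)
      ((p.1 : X) - (eextK k p.2 - V.starProjection (eextK k p.2))) := rfl

omit [CompleteSpace X] in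
theorem eext_Sop (V : Submodule ℝ X) [FiniteDimensional ℝ V] (S : X →L[ℝ] X) (h : X) :
    Sop V S h = V.starProjection h + (S h - V.starProjection (S h)) := rfl

omit [CompleteSpace X] in
theorem eext_key (V : Submodule ℝ X) [FiniteDimensional ℝ V] {S : X →L[ℝ] X}
    (hU : IsUnit (Sop V S)) (k : Fin 3 → X) (p : V × (Fin 3 → ℝ)) :
    V.starProjection (eextH V S k p) = p.1 ∧ S (eextH V S k p) + eextK k p.2 =
      V.starProjection (S (eextH V S k p) + eextK k p.2) := by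
  have h1 : Sop V S (eextH V S k p) = (p.1 : X) - (eextK k p.2 - V.starProjection (eextK k p.2)) := by
    rw [eextH_apply, ← mul_apply_eq_comp, Ring.mul_inverse_cancel _ hU,
      one_apply_eq_self]
  generalize eextH V S k p = h at h1 ⊢
  rw [eext_Sop] at h1
  have hpp : ∀ x, V.starProjection (V.starProjection x) = V.starProjection x := fun x =>
    Submodule.starProjection_eq_self_iff.mpr (V.starProjection_apply_mem x)
  have h2 := congrArg V.starProjection h1
  simp only [map_add, map_sub, hpp, sub_self, add_zero, sub_zero,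
    Submodule.starProjection_mem_subspace_eq_self] at h2
  refine ⟨h2, ?_⟩
  rw [h2] at h1
  rw [map_add]
  linear_combination (norm := module) h1

omit [CompleteSpace X] in
theorem eext_uniq (V : Submodule ℝ X) [FiniteDimensional ℝ V] {S : X →L[ℝ] X}
    (hU : IsUnit (Sop V S)) (k : Fin 3 → X) {h : X} {c : Fin 3 → ℝ} (hc : S h + eextK k c = 0) :
    eextH V S k (V.orthogonalProjectionOnto h, c) = h := by
  have h1 : eextK k c = -S h := eq_neg_of_add_eq_zero_right hc
  have h2 : ((V.orthogonalProjectionOnto h : V) : X) - (eextK k c - V.starProjection (eextK k c)) =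
      Sop V S h := by
    rw [eext_Sop, h1, map_neg, Submodule.coe_orthogonalProjectionOnto_apply]
    abel
  rw [eextH_apply, h2, ← mul_apply_eq_comp, Ring.inverse_mul_cancel _ hU,
    one_apply_eq_self]

omit [CompleteSpace X] in
theorem eext_cut (W : Submodule ℝ X) [W.HasOrthogonalProjection] (T : X →L[ℝ] X) {h : X}
    (hh : h ∈ W) : cut W T h = T h := by
  change T (W.starProjection h) + (h - W.starProjection h) = T h
  rw [Submodule.starProjection_eq_self_iff.mpr hh, sub_self, add_zero]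

omit [CompleteSpace X] in
theorem eext_sol (V W : Submodule ℝ X) [FiniteDimensional ℝ V] [W.HasOrthogonalProjection]
    {T : X →L[ℝ] X} (hT : Inv W T) (hU : IsUnit (Sop V (cut W T))) {k : Fin 3 → X}
    (hk : ∀ i, k i ∈ W) (E : X →L[ℝ] (Fin 3 → ℝ)) {p : V × (Fin 3 → ℝ)} {a : Fin 3 → ℝ}
    (hp : eextB V (cut W T) k E p = (0, a)) :
    ∃ h ∈ W, V.starProjection h = p.1 ∧ T h + ∑ i, p.2 i • k i = 0 ∧ E h = a := by
  obtain ⟨h1, h2⟩ := eext_key V hU k p
  rw [eextB_apply, Prod.mk.injEq] at hp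
  obtain ⟨h3, h4⟩ := hp
  generalize eextH V (cut W T) k p = h at h1 h2 h3 h4
  rw [← Submodule.coe_orthogonalProjectionOnto_apply, h3, Submodule.coe_zero, eextK_apply] at h2
  have h5 : ∑ i, p.2 i • k i ∈ W := W.sum_mem fun i _ => W.smul_mem _ (hk i)
  have h6 : h ∈ W := by
    have h7 : h = W.starProjection h - (T (W.starProjection h) + ∑ i, p.2 i • k i) := by
      have h8 : cut W T h = T (W.starProjection h) + (h - W.starProjection h) := rfl
      rw [h8] at h2
      linear_combination (norm := module) h2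
    rw [h7]
    exact W.sub_mem (W.starProjection_apply_mem h)
      (W.add_mem (hT _ (W.starProjection_apply_mem h)) h5)
  rw [eext_cut W T h6] at h2
  exact ⟨h, h6, h1, h2, h4⟩

omit [CompleteSpace X] in
theorem eext_inj (V W : Submodule ℝ X) [FiniteDimensional ℝ V] [W.HasOrthogonalProjection]
    {T : X →L[ℝ] X} (hT : Inv W T) (hU : IsUnit (Sop V (cut W T))) {k : Fin 3 → X}
    (hk : ∀ i, k i ∈ W) (e : Fin 3 → X →L[ℝ] ℝ)
    (hinj : ∀ h ∈ W, ∀ c : Fin 3 → ℝ, T h + ∑ i, c i • k i = 0 → (∀ i, e i h = 0) →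
      h = 0 ∧ c = 0) :
    Function.Injective (eextB V (cut W T) k (ContinuousLinearMap.pi e)) := by
  refine (injective_iff_map_eq_zero _).mpr fun p hp => ?_
  obtain ⟨h, h1, h2, h3, h4⟩ := eext_sol V W hT hU hk _ (a := 0) hp
  obtain ⟨h5, h6⟩ := hinj h h1 p.2 h3 fun i => congrFun h4 i
  rw [h5, map_zero] at h2
  exact Prod.ext (Subtype.ext h2.symm) h6

omit [CompleteSpace X] in
theorem eext_det (V W : Submodule ℝ X) [FiniteDimensional ℝ V] [W.HasOrthogonalProjection]
    {T : X →L[ℝ] X} (hU : IsUnit (Sop V (cut W T))) (k : Fin 3 → X) (e : Fin 3 → X →L[ℝ] ℝ)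
    (h : Fin 3 → X) (c : Matrix (Fin 3) (Fin 3) ℝ)
    (hh : ∀ a, h a ∈ W ∧ T (h a) + ∑ i, c i a • k i = 0 ∧
      ∀ i, e i (h a) = (Pi.single a 1 : Fin 3 → ℝ) i) :
    (eextB V (cut W T) k (ContinuousLinearMap.pi e)).det * c.det = sdet V (cut W T) := by
  let E : V × (Fin 3 → ℝ) →ₗ[ℝ] V × (Fin 3 → ℝ) :=
    (LinearMap.fst ℝ _ _ + (V.orthogonalProjectionOnto ∘L eextK h).toLinearMap ∘ₗ
      LinearMap.snd ℝ _ _).prod (Matrix.toLin' c ∘ₗ LinearMap.snd ℝ _ _)
  have hE : ∀ x a, E (x, a) =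
      (x + V.orthogonalProjectionOnto (eextK h a), Matrix.toLin' c a) := fun _ _ => rfl
  have h1 : LinearMap.det E = c.det := by
    rw [eext_det_upper E LinearMap.id (Matrix.toLin' c) (fun x => by simp [hE])
      (fun y => by rw [hE]), LinearMap.det_id, one_mul, LinearMap.det_toLin']
  have h2 : ∀ a, cut W T (eextK h a) + eextK k (Matrix.toLin' c a) = 0 := by
    intro a
    have h3 : eextK k (Matrix.toLin' c a) = ∑ j, a j • ∑ i, c i j • k i := by
      simp only [eextK_apply, Matrix.toLin'_apply, Matrix.mulVec, dotProduct, Finset.sum_smul,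
        Finset.smul_sum, smul_smul]
      rw [Finset.sum_comm]
      simp only [mul_comm]
    rw [h3, eextK_apply, map_sum, ← Finset.sum_add_distrib]
    refine Finset.sum_eq_zero fun j _ => ?_
    rw [map_smul, ← smul_add, eext_cut W T (hh j).1, (hh j).2.1, smul_zero]
  have h4 : LinearMap.det ((eextB V (cut W T) k (ContinuousLinearMap.pi e)).toLinearMap ∘ₗ E) =
      sdet V (cut W T) := by
    rw [eext_det_lower _ (schur V (cut W T) : V →ₗ[ℝ] V) LinearMap.id, LinearMap.det_id, mul_one,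
      sdet]
    · intro x
      rw [LinearMap.comp_apply, hE, ContinuousLinearMap.coe_coe, eextB_apply, eextH_apply]
      simp [schur]
    · intro a
      rw [LinearMap.comp_apply, hE, ContinuousLinearMap.coe_coe, eextB_apply, zero_add,
        eext_uniq V hU k (h2 a), h2, map_zero]
      refine Prod.ext rfl (funext fun i => ?_)
      simp only [ContinuousLinearMap.pi_apply, eextK_apply, map_sum, map_smul, (hh _).2.2,
        LinearMap.id_apply]
      simp [Pi.single_apply]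
  rw [← h4, LinearMap.det_comp, h1]

theorem eext_cont (V W : Submodule ℝ X) [FiniteDimensional ℝ V] [W.HasOrthogonalProjection]
    {Y : Type*} [TopologicalSpace Y] {K : Set Y} {T : Y → X →L[ℝ] X} (hTc : ContinuousOn T K)
    (hU : ∀ y ∈ K, IsUnit (Sop V (cut W (T y)))) (k : Fin 3 → X) (E : X →L[ℝ] (Fin 3 → ℝ)) :
    ContinuousOn (fun y => (eextB V (cut W (T y)) k E).det) K := by
  have h1 : ContinuousOn (fun y => cut W (T y)) K :=
    (hTc.clm_comp continuousOn_const).add continuousOn_const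
  have h2 : ContinuousOn (fun y => Sop V (cut W (T y))) K :=
    continuousOn_const.add (continuousOn_const.clm_comp h1)
  have h3 : ContinuousOn (fun y => Ring.inverse (Sop V (cut W (T y)))) K := by
    intro y hy
    obtain ⟨u, hu⟩ := hU y hy
    have h4 := NormedRing.inverse_continuousAt u
    rw [hu] at h4
    exact ContinuousAt.comp_continuousWithinAt (f := fun y => Sop V (cut W (T y))) h4 (h2 y hy)
  have h5 : ContinuousOn (fun y => eextH V (cut W (T y)) k) K := h3.clm_comp continuousOn_const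
  refine ContinuousLinearMap.continuous_det.comp_continuousOn ?_
  exact (continuousOn_const.clm_comp (continuousOn_const.clm_comp
    ((h1.clm_comp h5).add continuousOn_const))).add
    (continuousOn_const.clm_comp (continuousOn_const.clm_comp h5))

theorem ext_exists (V W : Submodule ℝ X) [FiniteDimensional ℝ V] [W.HasOrthogonalProjection]
    (T : X →L[ℝ] X) (hT : Inv W T) (hP : Inv W V.starProjection)
    (hU : IsUnit (Sop V (cut W T))) (k : Fin 3 → X) (hk : ∀ i, k i ∈ W)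
    (e : Fin 3 → X →L[ℝ] ℝ)
    (hinj : ∀ h ∈ W, ∀ c : Fin 3 → ℝ, T h + ∑ i, c i • k i = 0 → (∀ i, e i h = 0) →
      h = 0 ∧ c = 0) (a : Fin 3 → ℝ) :
    ∃ h ∈ W, ∃ c : Fin 3 → ℝ, T h + ∑ i, c i • k i = 0 ∧ ∀ i, e i h = a i := by
  have h1 := eext_inj V W hT hU hk e hinj
  obtain ⟨p, hp⟩ := (LinearMap.injective_iff_surjective
    (f := (eextB V (cut W T) k (ContinuousLinearMap.pi e)).toLinearMap)).mp h1 (0, a)
  obtain ⟨h, h2, -, h3, h4⟩ := eext_sol V W hT hU hk _ hp
  exact ⟨h, h2, p.2, h3, fun i => congrFun h4 i⟩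

theorem ext_sign (V W : Submodule ℝ X) [FiniteDimensional ℝ V] [W.HasOrthogonalProjection]
    {Y : Type*} [TopologicalSpace Y] (K : Set Y) (hK : IsPreconnected K)
    (T : Y → X →L[ℝ] X) (hTc : ContinuousOn T K) (hT : ∀ y ∈ K, Inv W (T y))
    (hP : Inv W V.starProjection) (hU : ∀ y ∈ K, IsUnit (Sop V (cut W (T y))))
    (k : Fin 3 → X) (hk : ∀ i, k i ∈ W) (e : Fin 3 → X →L[ℝ] ℝ)
    (hinj : ∀ y ∈ K, ∀ h ∈ W, ∀ c : Fin 3 → ℝ, T y h + ∑ i, c i • k i = 0 → (∀ i, e i h = 0) →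
      h = 0 ∧ c = 0)
    (y₁ y₂ : Y) (hy₁ : y₁ ∈ K) (hy₂ : y₂ ∈ K) (h₁ h₂ : Fin 3 → X)
    (c₁ c₂ : Matrix (Fin 3) (Fin 3) ℝ)
    (hh₁ : ∀ a, h₁ a ∈ W ∧ T y₁ (h₁ a) + ∑ i, c₁ i a • k i = 0 ∧
      ∀ i, e i (h₁ a) = (Pi.single a 1 : Fin 3 → ℝ) i)
    (hh₂ : ∀ a, h₂ a ∈ W ∧ T y₂ (h₂ a) + ∑ i, c₂ i a • k i = 0 ∧
      ∀ i, e i (h₂ a) = (Pi.single a 1 : Fin 3 → ℝ) i)
    (hneg : c₁.det * c₂.det < 0) :
    sdet V (cut W (T y₁)) * sdet V (cut W (T y₂)) < 0 := by
  have hc := eext_cont V W hTc hU k (ContinuousLinearMap.pi e)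
  have hne : ∀ y ∈ K, (eextB V (cut W (T y)) k (ContinuousLinearMap.pi e)).det ≠ 0 := by
    intro y hy h0
    have h1 := eext_inj V W (hT y hy) (hU y hy) hk e (hinj y hy)
    exact LinearMap.det_eq_zero_iff_ker_ne_bot.mp h0 (LinearMap.ker_eq_bot.mpr h1)
  rw [← eext_det V W (hU y₁ hy₁) k e h₁ c₁ hh₁, ← eext_det V W (hU y₂ hy₂) k e h₂ c₂ hh₂,
    mul_mul_mul_comm]
  refine mul_neg_of_pos_of_neg ?_ hneg
  rcases lt_or_gt_of_ne (hne y₁ hy₁) with a1 | a1 <;>
    rcases lt_or_gt_of_ne (hne y₂ hy₂) with a2 | a2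
  · exact mul_pos_of_neg_of_neg a1 a2
  · obtain ⟨y, hy, h0⟩ := hK.intermediate_value hy₁ hy₂ hc ⟨a1.le, a2.le⟩
    exact absurd h0 (hne y hy)
  · obtain ⟨y, hy, h0⟩ := hK.intermediate_value hy₂ hy₁ hc ⟨a2.le, a1.le⟩
    exact absurd h0 (hne y hy)
  · exact mul_pos a1 a2

end Pool.Agent.MMO
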