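import Pool.Agent.P.MP_6c3c64_gt.ELaxAux2

/-! A C1 map equal to the identity near infinity, vanishing only at 0 and linear near 0 has
nonnegative determinant at 0 (homotopy invariance of the degree). -/

set_option autoImplicit false

namespace Pool.Agent.MMO

open Set Metric Filter Topology in
theorem lax_false {V : Type*} [NormedAddCommGroup V] [InnerProductSpace ℝ V]
    [FiniteDimensional ℝ V] (Φ : V → V) (hΦ : ContDiff ℝ 1 Φ) (R : ℝ)
    (hR : ∀ x, R ≤ ‖x‖ → Φ x = x) (B : V →L[ℝ] V) (r : ℝ) (hr : 0 < r)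
    (hB : ∀ x, ‖x‖ < r → Φ x = B x) (hdet : LinearMap.det (B : V →ₗ[ℝ] V) < 0)
    (hne : ∀ x, x ≠ 0 → Φ x ≠ 0) : False := by
  have hρ : 0 < max R r := lt_max_of_lt_right hr
  have hΦ0 : Φ 0 = 0 := by rw [hB 0 (by simpa using hr), map_zero]
  have hc := hΦ.continuous
  have hid : (ContinuousLinearMap.id ℝ V).det = 1 := LinearMap.det_id
  have hBd : B.det < 0 := hdet
  have key := LaxDeg.deg_eq (Ω := ball (0 : V) (max R r))
    (H := fun τ x => (1 - τ) • x + τ • Φ x) (F₀ := {0}) (F₁ := {0})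
    (D₀ := fun _ => ContinuousLinearMap.id ℝ V) (D₁ := fun _ => B) isOpen_ball isBounded_ball
    (Continuous.continuousOn (by fun_prop)) ?_ ?_ ?_ ?_ ?_
  · simp [LaxDeg.sgn, hid, hBd.not_gt] at key
  · intro τ _ x hx
    have h1 : ‖x‖ = max R r := by simpa using frontier_ball_subset_sphere hx
    have h2 : Φ x = x := hR x (h1 ▸ le_max_left _ _)
    have h3 : (1 - τ) • x + τ • Φ x = x := by rw [h2, ← add_smul]; simp
    show (1 - τ) • x + τ • Φ x ≠ 0
    rw [h3]
    exact norm_pos_iff.1 (h1 ▸ hρ)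
  · intro x
    simp only [Finset.mem_singleton, sub_zero, one_smul, zero_smul, add_zero]
    exact ⟨fun h => ⟨h ▸ mem_ball_self hρ, h⟩, fun h => h.2⟩
  · intro x
    simp only [Finset.mem_singleton, sub_self, one_smul, zero_smul, zero_add]
    exact ⟨fun h => ⟨h ▸ mem_ball_self hρ, h ▸ hΦ0⟩, fun h => by_contra fun h' => hne x h' h.2⟩
  · intro x _
    refine ⟨?_, by rw [hid]; exact one_ne_zero⟩
    simp only [sub_zero, one_smul, zero_smul, add_zero]
    exact hasFDerivAt_id x
  · intro x hx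
    refine ⟨?_, hBd.ne⟩
    simp only [sub_self, one_smul, zero_smul, zero_add]
    rw [Finset.mem_singleton.1 hx]
    refine B.hasFDerivAt.congr_of_eventuallyEq ?_
    filter_upwards [ball_mem_nhds (0 : V) hr] with y hy
    exact hB y (by simpa using hy)

end Pool.Agent.MMO
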