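import Mathlib

/-! Degree theory, part 1 (copy of the null Lagrangian file of the team degree theory). -/

set_option autoImplicit false

open Set Filter Topology Metric

namespace Pool.Agent.MMO.LaxDeg

open MeasureTheory

open Classical in
/-- The sign of the determinant. -/
noncomputable def sgn {E : Type*} [NormedAddCommGroup E] [NormedSpace ℝ E] (D : E →L[ℝ] E) : ℤ :=
  if 0 < D.det then 1 else -1

theorem weights_nulllag (n : ℕ) (s₀ : ℝ) : ∃ w : ℕ → ℝ, ∀ q : Polynomial ℝ, q.natDegree ≤ n →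
    q.eval 0 = ∑ j ∈ Finset.range (n + 1), w j * q.eval (s₀ + j) := by
  refine ⟨fun j => (Lagrange.basis (Finset.range (n + 1)) (fun j : ℕ => s₀ + j) j).eval 0,
    fun q hq => ?_⟩
  have h := Lagrange.eq_interpolate (s := Finset.range (n + 1)) (v := fun j : ℕ => s₀ + j) (f := q)
    (fun a _ b _ h => by simpa using h) (by
      rw [Finset.card_range]
      exact Polynomial.degree_le_natDegree.trans_lt (by exact_mod_cast Nat.lt_succ_of_le hq))
  conv_lhs => rw [h, Lagrange.interpolate_apply, Polynomial.eval_finsetSum]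
  refine Finset.sum_congr rfl fun j _ => ?_
  rw [Polynomial.eval_mul, Polynomial.eval_C, mul_comm]

theorem det_zero_nulllag {n : ℕ} (hn : 0 < n) :
    (0 : (Fin n → ℝ) →L[ℝ] (Fin n → ℝ)).det = 0 := by
  have : Nonempty (Fin n) := ⟨⟨0, hn⟩⟩
  exact LinearMap.det_zero' (Pi.basisFun ℝ (Fin n))

theorem vol_nulllag {n : ℕ} {F : (Fin n → ℝ) → Fin n → ℝ} (hF : ContDiff ℝ 1 F) {C : NNReal}
    (hC : LipschitzWith C F) {B : Set (Fin n → ℝ)} (hB : MeasurableSet B)
    (hs : ∀ x, x ∉ B → F x = 0) {t : ℝ} (ht : 0 ≤ t) (htC : t * C ≤ 1 / 2) :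
    ∫ x in B, |(1 + t • fderiv ℝ F x).det| = ∫ _x in B, (1 : ℝ) := by
  set φ : (Fin n → ℝ) → Fin n → ℝ := fun x => x + t • F x with hφ
  have hl : ∀ x y, ‖t • F x - t • F y‖ ≤ 1 / 2 * ‖x - y‖ := fun x y => by
    rw [← smul_sub, norm_smul, Real.norm_of_nonneg ht]
    have h1 := hC.norm_sub_le x y
    calc t * ‖F x - F y‖ ≤ t * (C * ‖x - y‖) := mul_le_mul_of_nonneg_left h1 ht
      _ = t * C * ‖x - y‖ := by ring
      _ ≤ _ := mul_le_mul_of_nonneg_right htC (norm_nonneg _)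
  have hinj : Function.Injective φ := fun x y h => by
    have h1 : t • F x - t • F y = -(x - y) := by
      have : x + t • F x = y + t • F y := h
      linear_combination (exp := 1) this
    have h2 := hl x y
    rw [h1, norm_neg] at h2
    exact sub_eq_zero.1 (norm_le_zero_iff.1 (by linarith))
  have hsur : ∀ y, ∃ x, φ x = y := fun y => by
    have hc : ContractingWith (1 / 2) fun x => y - t • F x := by
      refine ⟨by norm_num, LipschitzWith.of_dist_le_mul fun a b => ?_⟩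
      rw [dist_sub_left, dist_eq_norm, dist_eq_norm]
      simpa using hl a b
    refine ⟨hc.fixedPoint, ?_⟩
    have h1 : y - t • F hc.fixedPoint = hc.fixedPoint := hc.fixedPoint_isFixedPt
    exact (eq_sub_iff_add_eq.1 h1.symm)
  have hid : ∀ x, x ∉ B → φ x = x := fun x hx => by simp [hφ, hs x hx]
  have him : φ '' B = B := by
    ext y
    constructor
    · rintro ⟨x, hx, rfl⟩
      by_contra h
      exact h (by rw [← hinj (hid _ h)] at hx; exact hx)
    · intro hy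
      obtain ⟨x, rfl⟩ := hsur y
      refine ⟨x, ?_, rfl⟩
      by_contra h
      exact h (by rwa [hid x h] at hy)
  have hd : ∀ x ∈ B, HasFDerivWithinAt φ (1 + t • fderiv ℝ F x) B x := fun x _ =>
    ((hasFDerivAt_id x).add
      (((hF.differentiable one_ne_zero) x).hasFDerivAt.const_smul t)).hasFDerivWithinAt
  have := integral_image_eq_integral_abs_det_fderiv_smul volume hB hd hinj.injOn fun _ => (1 : ℝ)
  rw [him] at this
  rw [this]
  simp

/-- The determinant of the derivative is a null Lagrangian. -/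
theorem integral_det_eq_zero {n : ℕ} (hn : 0 < n) {F : (Fin n → ℝ) → Fin n → ℝ}
    (hF : ContDiff ℝ 1 F) (hc : HasCompactSupport F) : ∫ x, (fderiv ℝ F x).det = 0 := by
  obtain ⟨C, hC⟩ := hF.lipschitzWith_of_hasCompactSupport hc one_ne_zero
  obtain ⟨δ, hδ, hpos⟩ : ∃ δ > 0, ∀ M : (Fin n → ℝ) →L[ℝ] (Fin n → ℝ), dist M 1 < δ → 0 < M.det := by
    have h1 : (0 : ℝ) < (1 : (Fin n → ℝ) →L[ℝ] (Fin n → ℝ)).det := by
      have : (1 : (Fin n → ℝ) →L[ℝ] (Fin n → ℝ)).det = 1 := LinearMap.det_id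
      rw [this]; exact one_pos
    exact Metric.eventually_nhds_iff.1
      (ContinuousLinearMap.continuous_det.continuousAt.eventually (lt_mem_nhds h1))
  set s₀ : ℝ := 2 * C + C / δ + 1 with hs₀
  have hC0 : (0 : ℝ) ≤ C := C.2
  obtain ⟨w, hw⟩ := weights_nulllag n s₀
  set B := tsupport F with hBdef
  have hB : MeasurableSet B := (isClosed_tsupport F).measurableSet
  have hcont : Continuous (fderiv ℝ F) := hF.continuous_fderiv one_ne_zero
  have hs : ∀ j : ℕ, 0 < s₀ + j ∧ (s₀ + j)⁻¹ * C ≤ 1 / 2 ∧ (s₀ + j)⁻¹ * C < δ := fun j => by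
    have h0 : (0 : ℝ) ≤ j := j.cast_nonneg
    have h1 : 0 ≤ (C : ℝ) / δ := by positivity
    have h2 : 0 < s₀ + j := by positivity
    refine ⟨h2, ?_, ?_⟩
    · rw [inv_mul_le_iff₀ h2]; linarith
    · rw [inv_mul_lt_iff₀ h2, ← div_lt_iff₀ hδ]; linarith
  have hpt : ∀ x, (fderiv ℝ F x).det = ∑ j ∈ Finset.range (n + 1),
      w j * (s₀ + j) ^ n * |(1 + (s₀ + j)⁻¹ • fderiv ℝ F x).det| := fun x => by
    have h1 := hw (LinearMap.charpoly (-(fderiv ℝ F x : (Fin n → ℝ) →ₗ[ℝ] (Fin n → ℝ))))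
      (by rw [LinearMap.charpoly_natDegree]; simp)
    simp only [LinearMap.eval_charpoly, map_zero, zero_sub, neg_neg] at h1
    refine h1.trans (Finset.sum_congr rfl fun j _ => ?_)
    obtain ⟨s1, -, s3⟩ := hs j
    rw [abs_of_pos (hpos _ ?_), mul_assoc]
    · congr 1
      have h2 : algebraMap ℝ (Module.End ℝ (Fin n → ℝ)) (s₀ + j) -
          -(fderiv ℝ F x : (Fin n → ℝ) →ₗ[ℝ] (Fin n → ℝ)) =
          (s₀ + j) • ((1 + (s₀ + j)⁻¹ • fderiv ℝ F x : (Fin n → ℝ) →L[ℝ] (Fin n → ℝ)) :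
            (Fin n → ℝ) →ₗ[ℝ] (Fin n → ℝ)) := by
        generalize s₀ + j = s at s1
        refine LinearMap.ext fun v => ?_
        simp [smul_smul, mul_inv_cancel₀ s1.ne']
      rw [h2, LinearMap.det_smul]
      simp [ContinuousLinearMap.det]
    · rw [dist_eq_norm, add_sub_cancel_left, norm_smul, Real.norm_of_nonneg (inv_pos.2 s1).le]
      exact (mul_le_mul_of_nonneg_left (norm_fderiv_le_of_lipschitz ℝ hC)
        (inv_pos.2 s1).le).trans_lt s3
  rw [← setIntegral_eq_integral_of_forall_compl_eq_zero (s := B) fun x hx => by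
    rw [fderiv_of_notMem_tsupport ℝ hx, det_zero_nulllag hn]]
  simp_rw [hpt]
  rw [integral_finsetSum]
  · have h1 := hw (Polynomial.X ^ n) (by simp)
    simp only [Polynomial.eval_pow, Polynomial.eval_X, zero_pow hn.ne'] at h1
    have h2 : ∀ j ∈ Finset.range (n + 1), ∫ x in B,
        w j * (s₀ + j) ^ n * |(1 + (s₀ + j)⁻¹ • fderiv ℝ F x).det| =
        w j * (s₀ + j) ^ n * ∫ _x in B, (1 : ℝ) := fun j _ => by
      rw [integral_const_mul, vol_nulllag hF hC hB (fun x hx => image_eq_zero_of_notMem_tsupport hx)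
        (inv_pos.2 (hs j).1).le (hs j).2.1]
    rw [Finset.sum_congr rfl h2, ← Finset.sum_mul, ← h1, zero_mul]
  · intro j _
    refine ContinuousOn.integrableOn_compact hc (Continuous.continuousOn ?_)
    have h1 : Continuous fun x => 1 + (s₀ + j)⁻¹ • fderiv ℝ F x :=
      continuous_const.add (hcont.const_smul (s₀ + j)⁻¹)
    exact continuous_const.mul (ContinuousLinearMap.continuous_det.comp h1).abs

theorem integral_eq_nulllag {n : ℕ} (hn : 0 < n) {Ω : Set (Fin n → ℝ)} (hΩ : IsOpen Ω)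
    (hb : Bornology.IsBounded Ω) {A B : (Fin n → ℝ) → Fin n → ℝ} (hA : ContDiff ℝ 1 A)
    (hB : ContDiff ℝ 1 B) (h : ∀ x, x ∉ Ω → A =ᶠ[𝓝 x] B) :
    ∫ x in Ω, (fderiv ℝ A x).det = ∫ x in Ω, (fderiv ℝ B x).det := by
  obtain ⟨R, hR, hΩR⟩ := hb.subset_ball_lt 0 0
  let θ : ContDiffBump (0 : Fin n → ℝ) := ⟨R, R + 1, hR, by linarith⟩
  have key : ∀ A : (Fin n → ℝ) → Fin n → ℝ, ContDiff ℝ 1 A → ∫ x in Ω, (fderiv ℝ A x).det =
      -∫ x in Ωᶜ, (fderiv ℝ (fun y => θ y • A y) x).det := by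
    intro A hA
    have h1 : ContDiff ℝ 1 fun y => θ y • A y := θ.contDiff.smul hA
    have h2 : HasCompactSupport fun y => θ y • A y := θ.hasCompactSupport.smul_right
    have h3 : Integrable fun x => (fderiv ℝ (fun y => θ y • A y) x).det := by
      refine Continuous.integrable_of_hasCompactSupport
        (ContinuousLinearMap.continuous_det.comp (h1.continuous_fderiv one_ne_zero)) ?_
      exact (h2.fderiv ℝ).comp_left (g := ContinuousLinearMap.det) (det_zero_nulllag hn)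
    have h4 := integral_add_compl hΩ.measurableSet h3
    rw [integral_det_eq_zero hn h1 h2] at h4
    rw [← eq_neg_of_add_eq_zero_left h4]
    refine setIntegral_congr_fun hΩ.measurableSet fun x hx => ?_
    have h5 : (fun y => θ y • A y) =ᶠ[𝓝 x] A := by
      filter_upwards [θ.eventuallyEq_one_of_mem_ball (hΩR hx)] with y hy
      rw [hy, Pi.one_apply, one_smul]
    simp only [h5.fderiv_eq]
  rw [key A hA, key B hB]
  congr 1
  refine setIntegral_congr_fun hΩ.measurableSet.compl fun x hx => ?_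
  have h5 : (fun y => θ y • A y) =ᶠ[𝓝 x] fun y => θ y • B y := by
    filter_upwards [h x hx] with y hy
    rw [hy]
  simp only [h5.fderiv_eq]

/-- Homotopy invariance of the degree integral for `C¹` maps. -/
theorem integral_eq_of_segment {n : ℕ} (hn : 0 < n) {Ω : Set (Fin n → ℝ)} (hΩ : IsOpen Ω)
    (hb : Bornology.IsBounded Ω) {Ψ₀ Ψ₁ G : (Fin n → ℝ) → Fin n → ℝ} (h₀ : ContDiff ℝ 1 Ψ₀)
    (h₁ : ContDiff ℝ 1 Ψ₁) (hG : ContDiff ℝ 1 G) {ε : ℝ}
    (hε : ∀ y, ε ≤ ‖y‖ → (fderiv ℝ G y).det = 0)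
    (hne : ∀ x ∈ frontier Ω, ∀ s ∈ Icc (0 : ℝ) 1, ε < ‖(1 - s) • Ψ₀ x + s • Ψ₁ x‖) :
    ∫ x in Ω, (fderiv ℝ G (Ψ₀ x)).det * (fderiv ℝ Ψ₀ x).det =
      ∫ x in Ω, (fderiv ℝ G (Ψ₁ x)).det * (fderiv ℝ Ψ₁ x).det := by
  have hdet : ∀ Ψ : (Fin n → ℝ) → Fin n → ℝ, ContDiff ℝ 1 Ψ → ∀ x,
      (fderiv ℝ (G ∘ Ψ) x).det = (fderiv ℝ G (Ψ x)).det * (fderiv ℝ Ψ x).det := fun Ψ hΨ x => by
    rw [fderiv_comp x (hG.differentiable one_ne_zero _) (hΨ.differentiable one_ne_zero x)]
    exact LinearMap.det_comp _ _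
  set N := {x | ∀ s ∈ Icc (0 : ℝ) 1, ε < ‖(1 - s) • Ψ₀ x + s • Ψ₁ x‖} with hN
  have hNo : IsOpen N := by
    refine isOpen_iff_mem_nhds.2 fun x hx => ?_
    refine isCompact_Icc.eventually_forall_of_forall_eventually
      (P := fun x s => ε < ‖(1 - s) • Ψ₀ x + s • Ψ₁ x‖) fun s hs => ?_
    have c0 := h₀.continuous
    have c1 := h₁.continuous
    have hc : Continuous fun z : (Fin n → ℝ) × ℝ => ‖(1 - z.2) • Ψ₀ z.1 + z.2 • Ψ₁ z.1‖ := by
      fun_prop
    exact hc.continuousAt.eventually (lt_mem_nhds (hx s hs))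
  obtain ⟨χ, χ0, χ1, χm⟩ := exists_contMDiffMap_zero_one_nhds_of_isClosed (n := 1)
    (modelWithCornersSelf ℝ (Fin n → ℝ)) hΩ.isClosed_compl (isClosed_closure.sdiff hNo)
    (s := Ωᶜ) (t := closure Ω \ N) (by
      refine disjoint_left.2 fun x hx hx' => hx'.2 (hne x ?_)
      rw [hΩ.frontier_eq]
      exact ⟨hx'.1, hx⟩)
  have χc : ContDiff ℝ 1 χ := χ.contMDiff.contDiff
  set Ψ : (Fin n → ℝ) → Fin n → ℝ := fun x => (1 - χ x) • Ψ₀ x + χ x • Ψ₁ x with hΨ
  have hΨc : ContDiff ℝ 1 Ψ := ((contDiff_const.sub χc).smul h₀).add (χc.smul h₁)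
  have key := integral_eq_nulllag hn hΩ hb (hG.comp h₀) (hG.comp hΨc) fun x hx => by
    filter_upwards [χ0.filter_mono (nhds_le_nhdsSet hx)] with y hy
    simp [hΨ, hy]
  simp only [hdet Ψ₀ h₀, hdet Ψ hΨc] at key
  rw [key]
  refine setIntegral_congr_fun hΩ.measurableSet fun x hx => ?_
  by_cases hxN : x ∈ N
  · have e1 := hε _ (hxN _ (χm x)).le
    have e2 := hε (Ψ₁ x) (by simpa using (hxN 1 ⟨zero_le_one, le_rfl⟩).le)
    simp only [hΨ, e1, e2, zero_mul]
  · have e : Ψ =ᶠ[𝓝 x] Ψ₁ := by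
      filter_upwards [χ1.filter_mono (nhds_le_nhdsSet (show x ∈ closure Ω \ N from
        ⟨subset_closure hx, hxN⟩))] with y hy
      simp [hΨ, hy]
    simp only [e.fderiv_eq, e.eq_of_nhds]

theorem exists_bump_map (n : ℕ) {ε : ℝ} (hε : 0 < ε) : ∃ G : (Fin n → ℝ) → Fin n → ℝ,
    ContDiff ℝ 1 G ∧ (∀ y, ε ≤ ‖y‖ → (fderiv ℝ G y).det = 0) ∧ ∫ y, (fderiv ℝ G y).det = 1 := by
  let b : ContDiffBump (0 : ℝ) := ⟨ε / 2, ε, by positivity, by linarith⟩
  have bc : Continuous (b.normed volume) := b.continuous_normed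
  let g : ℝ → ℝ := fun t => ∫ s in (0 : ℝ)..t, b.normed volume s
  have hg : ∀ t, HasDerivAt g (b.normed volume t) t := fun t =>
    (bc.integral_hasStrictDerivAt 0 t).hasDerivAt
  have gc : ContDiff ℝ 1 g := by
    refine contDiff_one_iff_deriv.2 ⟨fun t => (hg t).differentiableAt, ?_⟩
    rw [show deriv g = b.normed volume from funext fun t => (hg t).deriv]
    exact bc
  have hd : ∀ y : Fin n → ℝ, (fderiv ℝ (fun y : Fin n → ℝ => fun i => g (y i)) y).det =
      ∏ i, b.normed volume (y i) := fun y => by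
    have h1 : HasFDerivAt (fun y : Fin n → ℝ => fun i => g (y i))
        (ContinuousLinearMap.pi fun i => b.normed volume (y i) • ContinuousLinearMap.proj i) y :=
      hasFDerivAt_pi.2 fun i =>
        HasDerivAt.comp_hasFDerivAt (f := fun y : Fin n → ℝ => y i) y (hg (y i))
          (hasFDerivAt_apply (𝕜 := ℝ) i y)
    rw [h1.fderiv, ← Matrix.det_diagonal, ← LinearMap.det_toLin']
    unfold ContinuousLinearMap.det
    congr 1
    refine LinearMap.ext fun v => funext fun i => ?_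
    simp [Matrix.mulVec_diagonal]
  refine ⟨fun y i => g (y i), contDiff_pi.2 fun i => gc.comp (contDiff_apply ℝ ℝ i),
    fun y hy => ?_, ?_⟩
  · rw [hd]
    by_contra h
    refine hy.not_gt ((pi_norm_lt_iff hε).2 fun i => ?_)
    have h2 : y i ∈ Function.support (b.normed volume) :=
      Finset.prod_ne_zero_iff.1 h i (Finset.mem_univ i)
    rw [b.support_normed_eq] at h2
    simpa using h2
  · simp only [hd]
    rw [integral_fintype_prod_volume_eq_pow, b.integral_normed, one_pow]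

end Pool.Agent.MMO.LaxDeg
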