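import Pool.Agent.P.MP_6c3c64_gt.EDefs
import Pool.Agent.P.MP_6c3c64_gt.EDeg

/-! Lyapunov-Schmidt reduction. -/

set_option autoImplicit false

namespace Pool.Agent.MMO

open Set Filter Topology

theorem eloc_two_sided {X : Type*} [NormedAddCommGroup X] [NormedSpace ℝ X] (ψ φ : X → X)
    (S D : X →L[ℝ] X) (hψ : HasFDerivAt ψ S 0) (hφ : HasFDerivAt φ D 0) (hψ0 : ψ 0 = 0)
    (hφ0 : φ 0 = 0) (h1 : ∀ᶠ x in 𝓝 (0 : X), ψ (φ x) = x) (h2 : ∀ᶠ x in 𝓝 (0 : X), φ (ψ x) = x) :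
    D = Ring.inverse S := by
  have e1 : S * D = 1 := by
    have a : HasFDerivAt (fun x => ψ (φ x)) (S ∘L D) 0 := by
      have hψ' : HasFDerivAt ψ S (φ 0) := by rw [hφ0]; exact hψ
      exact hψ'.comp 0 hφ
    have b : HasFDerivAt (fun x => ψ (φ x)) (ContinuousLinearMap.id ℝ X) 0 :=
      (hasFDerivAt_id (0 : X)).congr_of_eventuallyEq h1
    exact a.unique b
  have e2 : D * S = 1 := by
    have a : HasFDerivAt (fun x => φ (ψ x)) (D ∘L S) 0 := by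
      have hφ' : HasFDerivAt φ D (ψ 0) := by rw [hψ0]; exact hφ
      exact hφ'.comp 0 hψ
    have b : HasFDerivAt (fun x => φ (ψ x)) (ContinuousLinearMap.id ℝ X) 0 :=
      (hasFDerivAt_id (0 : X)).congr_of_eventuallyEq h2
    exact a.unique b
  let u : (X →L[ℝ] X)ˣ := ⟨S, D, e1, e2⟩
  have hu : Ring.inverse (u : X →L[ℝ] X) = ((u⁻¹ : (X →L[ℝ] X)ˣ) : X →L[ℝ] X) :=
    Ring.inverse_unit u
  exact hu.symm

theorem eloc_inv {X : Type*} [NormedAddCommGroup X] [InnerProductSpace ℝ X] [CompleteSpace X]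
    (V : Submodule ℝ X) [FiniteDimensional ℝ V] (Φ : ℝ × X → X) (μ₀ : ℝ)
    (hΦ : ContDiffAt ℝ 1 Φ (μ₀, 0)) (h0 : ∀ᶠ μ in 𝓝 μ₀, Φ (μ, 0) = 0) (T₀ : X →L[ℝ] X)
    (hT : HasFDerivAt (fun h => Φ (μ₀, h)) T₀ 0) (hS : IsUnit (Sop V T₀)) :
    ∃ g : ℝ × X → ℝ × X, ContDiffAt ℝ 1 g (μ₀, 0) ∧
      (∀ᶠ w in 𝓝 (μ₀, (0 : X)), ((g w).1, V.starProjection (g w).2 +
        (1 - V.starProjection) (Φ (g w))) = w) ∧
      (∀ᶠ w in 𝓝 (μ₀, (0 : X)), g (w.1, V.starProjection w.2 +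
        (1 - V.starProjection) (Φ w)) = w) := by
  set P : X →L[ℝ] X := V.starProjection with hP
  set Ψ : ℝ × X → ℝ × X := fun w => (w.1, P w.2 + (1 - P) (Φ w)) with hΨdef
  have hΨ : ContDiffAt ℝ 1 Ψ (μ₀, 0) := by
    refine contDiffAt_fst.prodMk ?_
    refine ((P.contDiff.contDiffAt).comp _ contDiffAt_snd).add ?_
    exact ((1 - P).contDiff.contDiffAt).comp _ hΦ
  have hD : HasFDerivAt Φ (fderiv ℝ Φ (μ₀, 0)) (μ₀, 0) :=
    (hΦ.differentiableAt one_ne_zero).hasFDerivAt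
  set D := fderiv ℝ Φ (μ₀, 0) with hDdef
  have hl : D ∘L ContinuousLinearMap.inl ℝ ℝ X = 0 := by
    have a : HasFDerivAt (fun μ : ℝ => Φ (μ, 0)) (D ∘L ContinuousLinearMap.inl ℝ ℝ X) μ₀ :=
      HasFDerivAt.comp μ₀ (g := Φ) (f := fun μ : ℝ => (μ, (0 : X))) hD
        (hasFDerivAt_prodMk_left μ₀ (0 : X))
    have b : HasFDerivAt (fun μ : ℝ => Φ (μ, 0)) (0 : ℝ →L[ℝ] X) μ₀ :=
      (hasFDerivAt_const (0 : X) μ₀).congr_of_eventuallyEq h0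
    exact a.unique b
  have hr : D ∘L ContinuousLinearMap.inr ℝ ℝ X = T₀ := by
    have a : HasFDerivAt (fun h : X => Φ (μ₀, h)) (D ∘L ContinuousLinearMap.inr ℝ ℝ X) 0 :=
      HasFDerivAt.comp (0 : X) (g := Φ) (f := fun h : X => (μ₀, h)) hD
        (hasFDerivAt_prodMk_right μ₀ (0 : X))
    exact a.unique hT
  have hDT : D = T₀ ∘L ContinuousLinearMap.snd ℝ ℝ X := by
    refine ContinuousLinearMap.ext fun w => ?_
    obtain ⟨a, b⟩ := w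
    have e : (a, b) = ContinuousLinearMap.inl ℝ ℝ X a + ContinuousLinearMap.inr ℝ ℝ X b := by
      simp
    have e1 : D (ContinuousLinearMap.inl ℝ ℝ X a) = 0 := by
      have := congrArg (fun L : ℝ →L[ℝ] X => L a) hl
      simpa using this
    have e2 : D (ContinuousLinearMap.inr ℝ ℝ X b) = T₀ b := by
      have := congrArg (fun L : X →L[ℝ] X => L b) hr
      simpa using this
    have e3 : D (a, b) = T₀ b := by
      rw [e, map_add, e1, e2, zero_add]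
    exact e3
  let E : (ℝ × X) ≃L[ℝ] (ℝ × X) :=
    (ContinuousLinearEquiv.refl ℝ ℝ).prodCongr (ContinuousLinearEquiv.ofUnit hS.unit)
  have hE : ∀ w : ℝ × X, E w = (w.1, P w.2 + (1 - P) (T₀ w.2)) := by
    intro w
    rfl
  have hΨ' : HasFDerivAt Ψ (E : (ℝ × X) →L[ℝ] (ℝ × X)) (μ₀, 0) := by
    have a : HasFDerivAt Ψ ((ContinuousLinearMap.fst ℝ ℝ X).prod
        (P ∘L ContinuousLinearMap.snd ℝ ℝ X + (1 - P) ∘L D)) (μ₀, 0) := by
      refine hasFDerivAt_fst.prodMk ?_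
      refine (P.hasFDerivAt.comp _ hasFDerivAt_snd).add ?_
      exact (1 - P).hasFDerivAt.comp _ hD
    have b : (E : (ℝ × X) →L[ℝ] (ℝ × X)) = (ContinuousLinearMap.fst ℝ ℝ X).prod
        (P ∘L ContinuousLinearMap.snd ℝ ℝ X + (1 - P) ∘L D) := by
      refine ContinuousLinearMap.ext fun w => ?_
      rw [hDT]
      exact hE w
    rw [b]
    exact a
  have hΦ0 : Φ (μ₀, 0) = 0 := h0.self_of_nhds
  have hΨ0 : Ψ (μ₀, 0) = (μ₀, 0) := by
    simp [hΨdef, hΦ0]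
  refine ⟨hΨ.localInverse hΨ' one_ne_zero, ?_, ?_, ?_⟩
  · have := hΨ.to_localInverse hΨ' one_ne_zero
    rwa [hΨ0] at this
  · have := (hΨ.hasStrictFDerivAt' hΨ' one_ne_zero).eventually_right_inverse
    rw [hΨ0] at this
    exact this
  · exact (hΨ.hasStrictFDerivAt' hΨ' one_ne_zero).eventually_left_inverse

theorem eloc_deriv {X : Type*} [NormedAddCommGroup X] [InnerProductSpace ℝ X] [CompleteSpace X]
    (V : Submodule ℝ X) [FiniteDimensional ℝ V] (Φ : ℝ × X → X) (μ : ℝ) (g : ℝ × X → ℝ × X)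
    (hg : DifferentiableAt ℝ g (μ, 0)) (h0 : Φ (μ, 0) = 0) (T₀ : X →L[ℝ] X)
    (hT : HasFDerivAt (fun h => Φ (μ, h)) T₀ 0)
    (hR : ∀ᶠ w in 𝓝 (μ, (0 : X)), ((g w).1, V.starProjection (g w).2 +
        (1 - V.starProjection) (Φ (g w))) = w)
    (hL : ∀ᶠ w in 𝓝 (μ, (0 : X)), g (w.1, V.starProjection w.2 +
        (1 - V.starProjection) (Φ w)) = w) :
    g (μ, 0) = (μ, 0) ∧
    HasFDerivAt (fun ξ : V => V.orthogonalProjectionOnto (Φ (g (μ, (ξ : X))))) (schur V T₀) 0 := by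
  set P : X →L[ℝ] X := V.starProjection with hP
  have hg0 : g (μ, 0) = (μ, 0) := by
    have := hL.self_of_nhds
    simpa [h0] using this
  refine ⟨hg0, ?_⟩
  have hc : Tendsto (fun x : X => (μ, x)) (𝓝 0) (𝓝 (μ, (0 : X))) :=
    (Continuous.prodMk_right μ).tendsto 0
  have hR' := hc.eventually hR
  have hL' := hc.eventually hL
  set ψ : X → X := fun h => P h + (1 - P) (Φ (μ, h)) with hψdef
  set φ : X → X := fun x => (g (μ, x)).2 with hφdef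
  have hgφ : ∀ᶠ x in 𝓝 (0 : X), g (μ, x) = (μ, φ x) := by
    filter_upwards [hR'] with x hx
    have e : (g (μ, x)).1 = μ := congrArg Prod.fst hx
    exact Prod.ext e rfl
  have hψ : HasFDerivAt ψ (Sop V T₀) 0 :=
    P.hasFDerivAt.add ((1 - P).hasFDerivAt.comp _ hT)
  have hφd : DifferentiableAt ℝ φ 0 := by
    have a : DifferentiableAt ℝ (fun x : X => g (μ, x)) 0 :=
      DifferentiableAt.comp (0 : X) (g := g) (f := fun x : X => (μ, x)) hg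
        (hasFDerivAt_prodMk_right μ (0 : X)).differentiableAt
    exact a.snd
  have hφ0 : φ 0 = 0 := by simp [hφdef, hg0]
  have hψ0 : ψ 0 = 0 := by simp [hψdef, h0]
  have h1 : ∀ᶠ x in 𝓝 (0 : X), ψ (φ x) = x := by
    filter_upwards [hR', hgφ] with x hx hx'
    have := congrArg Prod.snd hx
    rw [hx'] at this
    exact this
  have h2 : ∀ᶠ x in 𝓝 (0 : X), φ (ψ x) = x := by
    filter_upwards [hL'] with x hx
    exact congrArg Prod.snd hx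
  have hD := eloc_two_sided ψ φ _ _ hψ hφd.hasFDerivAt hψ0 hφ0 h1 h2
  have hφ : HasFDerivAt φ (Ring.inverse (Sop V T₀)) 0 := hD ▸ hφd.hasFDerivAt
  have a : HasFDerivAt (fun x : X => Φ (μ, φ x)) (T₀ ∘L Ring.inverse (Sop V T₀)) 0 := by
    have hT' : HasFDerivAt (fun h => Φ (μ, h)) T₀ (φ 0) := by rw [hφ0]; exact hT
    exact hT'.comp 0 hφ
  have b : HasFDerivAt (fun x : X => Φ (g (μ, x))) (T₀ ∘L Ring.inverse (Sop V T₀)) 0 := by
    refine a.congr_of_eventuallyEq ?_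
    filter_upwards [hgφ] with x hx
    rw [hx]
  have c : HasFDerivAt (fun ξ : V => Φ (g (μ, (ξ : X))))
      ((T₀ ∘L Ring.inverse (Sop V T₀)) ∘L V.subtypeL) 0 := by
    have b' : HasFDerivAt (fun x : X => Φ (g (μ, x))) (T₀ ∘L Ring.inverse (Sop V T₀))
        (V.subtypeL (0 : V)) := by
      rw [map_zero]; exact b
    exact b'.comp (0 : V) V.subtypeL.hasFDerivAt
  exact V.orthogonalProjectionOnto.hasFDerivAt.comp (0 : V) c

theorem bif_loc {X : Type*} [NormedAddCommGroup X] [InnerProductSpace ℝ X] [CompleteSpace X]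
    (V : Submodule ℝ X) [FiniteDimensional ℝ V] (Φ : ℝ × X → X) (μ₀ : ℝ)
    (hΦ : ContDiffAt ℝ 1 Φ (μ₀, 0)) (h0 : ∀ᶠ μ in 𝓝 μ₀, Φ (μ, 0) = 0) (T : ℝ → X →L[ℝ] X)
    (hT : ∀ᶠ μ in 𝓝 μ₀, HasFDerivAt (fun h => Φ (μ, h)) (T μ) 0)
    (hS : IsUnit (Sop V (T μ₀)))
    (hsign : ∀ ε > 0, ∃ μ₁ μ₂, |μ₁ - μ₀| < ε ∧ |μ₂ - μ₀| < ε ∧
      sdet V (T μ₁) * sdet V (T μ₂) < 0) (ε : ℝ) (hε : 0 < ε) :
    ∃ μ h, |μ - μ₀| < ε ∧ h ≠ 0 ∧ ‖h‖ < ε ∧ Φ (μ, h) = 0 := by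
  obtain ⟨g, hg, hR, hL⟩ := eloc_inv V Φ μ₀ hΦ h0 (T μ₀) hT.self_of_nhds hS
  set P : X →L[ℝ] X := V.starProjection with hP
  have hg00 : g (μ₀, 0) = (μ₀, 0) :=
    (eloc_deriv V Φ μ₀ g (hg.differentiableAt one_ne_zero) h0.self_of_nhds (T μ₀)
      hT.self_of_nhds hR hL).1
  set F : ℝ × V → V := fun w => V.orthogonalProjectionOnto (Φ (g (w.1, (w.2 : X)))) with hFdef
  have hι : Continuous (fun w : ℝ × V => (w.1, (w.2 : X))) := by fun_prop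
  have hιt : Tendsto (fun w : ℝ × V => (w.1, (w.2 : X))) (𝓝 (μ₀, (0 : V))) (𝓝 (μ₀, (0 : X))) :=
    hι.tendsto (μ₀, (0 : V))
  have hF : ContDiffAt ℝ 1 F (μ₀, 0) := by
    have a : ContDiffAt ℝ 1 (fun w : ℝ × V => (w.1, (w.2 : X))) (μ₀, (0 : V)) :=
      contDiffAt_fst.prodMk (V.subtypeL.contDiff.contDiffAt.comp _ contDiffAt_snd)
    have b : ContDiffAt ℝ 1 (fun w : ℝ × V => g (w.1, (w.2 : X))) (μ₀, (0 : V)) :=
      ContDiffAt.comp (μ₀, (0 : V)) (g := g) (f := fun w : ℝ × V => (w.1, (w.2 : X))) hg a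
    have c : ContDiffAt ℝ 1 (fun w : ℝ × V => Φ (g (w.1, (w.2 : X)))) (μ₀, (0 : V)) := by
      refine ContDiffAt.comp (μ₀, (0 : V)) (g := Φ)
        (f := fun w : ℝ × V => g (w.1, (w.2 : X))) ?_ b
      have e : g (μ₀, ((0 : V) : X)) = (μ₀, 0) := hg00
      simp only [e]
      exact hΦ
    exact V.orthogonalProjectionOnto.contDiff.contDiffAt.comp _ c
  have hFe : ∀ᶠ w in 𝓝 (μ₀, (0 : V)), ContDiffAt ℝ 1 F w := hF.eventually (by simp)
  have hge : ∀ᶠ w in 𝓝 (μ₀, (0 : X)), ContDiffAt ℝ 1 g w := hg.eventually (by simp)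
  have hc : Tendsto (fun μ : ℝ => (μ, (0 : X))) (𝓝 μ₀) (𝓝 (μ₀, (0 : X))) :=
    (Continuous.prodMk_left (0 : X)).tendsto μ₀
  have hμ : ∀ᶠ μ in 𝓝 μ₀, F (μ, 0) = 0 ∧ HasFDerivAt (fun ξ : V => F (μ, ξ)) (schur V (T μ)) 0 := by
    filter_upwards [h0, hT, hc.eventually hge, hc.eventually hR.eventually_nhds,
      hc.eventually hL.eventually_nhds] with μ a b c d e
    obtain ⟨k1, k2⟩ := eloc_deriv V Φ μ g (c.differentiableAt one_ne_zero) a (T μ) b d e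
    refine ⟨?_, k2⟩
    have e' : g (μ, ((0 : V) : X)) = (μ, 0) := k1
    simp only [hFdef, e', a, map_zero]
  have hsmall : ∀ᶠ w in 𝓝 (μ₀, (0 : X)), ‖(g w).2‖ < ε := by
    have a : ContinuousAt (fun w => ‖(g w).2‖) (μ₀, (0 : X)) := hg.continuousAt.snd.norm
    refine a.eventually (gt_mem_nhds ?_)
    simp [hg00, hε]
  have hall : ∀ᶠ w in 𝓝 (μ₀, (0 : V)), ContDiffAt ℝ 1 F w ∧
      (F (w.1, 0) = 0 ∧ HasFDerivAt (fun ξ : V => F (w.1, ξ)) (schur V (T w.1)) 0) ∧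
      ‖(g (w.1, (w.2 : X))).2‖ < ε ∧
      ((g (w.1, (w.2 : X))).1, P (g (w.1, (w.2 : X))).2 +
        (1 - P) (Φ (g (w.1, (w.2 : X))))) = (w.1, (w.2 : X)) := by
    have hf : Tendsto (fun w : ℝ × V => w.1) (𝓝 (μ₀, (0 : V))) (𝓝 μ₀) :=
      continuous_fst.tendsto (μ₀, (0 : V))
    filter_upwards [hFe, hf.eventually hμ, hιt.eventually hsmall, hιt.eventually hR]
      with w a b c d
    exact ⟨a, b, c, d⟩
  obtain ⟨r₀, hr₀, hball⟩ := Metric.eventually_nhds_iff_ball.1 hall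
  set r := min r₀ ε with hrdef
  have hr : 0 < r := lt_min hr₀ hε
  obtain ⟨μ₁, μ₂, k1, k2, hdet⟩ := hsign r hr
  have hI : ∀ μ ∈ uIcc μ₁ μ₂, |μ - μ₀| < r := by
    intro μ hμ'
    rw [abs_lt] at k1 k2 ⊢
    rcases mem_uIcc.1 hμ' with ⟨a, b⟩ | ⟨a, b⟩ <;> constructor <;> linarith [k1.1, k1.2, k2.1, k2.2]
  have hmem : ∀ μ ∈ uIcc μ₁ μ₂, ∀ ξ : V, ‖ξ‖ < r → (μ, ξ) ∈ Metric.ball (μ₀, (0 : V)) r₀ := by
    intro μ hμ' ξ hξ
    rw [← ball_prod_same]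
    refine ⟨?_, ?_⟩
    · rw [Metric.mem_ball, Real.dist_eq]
      exact (hI μ hμ').trans_le (min_le_left _ _)
    · rw [mem_ball_zero_iff]
      exact hξ.trans_le (min_le_left _ _)
  have hz : ‖(0 : V)‖ < r := by simpa using hr
  obtain ⟨μ, hμI, ξ, hξ0, hξr, hFz⟩ := bif_fin F μ₁ μ₂ r hr (Metric.ball (μ₀, (0 : V)) r₀)
    Metric.isOpen_ball (fun w hw => (hball w hw).1.contDiffWithinAt)
    (fun w hw => hmem w.1 hw.1 w.2 (mem_ball_zero_iff.1 hw.2))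
    (fun μ hμ' => (hball _ (hmem μ hμ' 0 hz)).2.1.1) (schur V (T μ₁)) (schur V (T μ₂))
    (hball _ (hmem μ₁ left_mem_uIcc 0 hz)).2.1.2 (hball _ (hmem μ₂ right_mem_uIcc 0 hz)).2.1.2 hdet
  obtain ⟨-, -, hs, hw⟩ := hball _ (hmem μ hμI ξ hξr)
  have hw1 : (g (μ, (ξ : X))).1 = μ := congrArg Prod.fst hw
  have hw2 : P (g (μ, (ξ : X))).2 + (1 - P) (Φ (g (μ, (ξ : X)))) = (ξ : X) := congrArg Prod.snd hw
  have hgw : g (μ, (ξ : X)) = (μ, (g (μ, (ξ : X))).2) := Prod.ext hw1 rfl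
  set h := (g (μ, (ξ : X))).2 with hh
  have hPΦ : P (Φ (g (μ, (ξ : X)))) = 0 := by
    have : ((F (μ, ξ) : V) : X) = 0 := by rw [hFz]; rfl
    exact this
  set y := Φ (g (μ, (ξ : X))) with hy
  have hw3 : P h + y = (ξ : X) := by
    rw [← hw2]
    simp [hPΦ]
  have hyV : y ∈ V := by
    have e : y = (ξ : X) - P h := by rw [← hw3]; abel
    rw [e]
    exact V.sub_mem ξ.2 (V.starProjection_apply_mem h)
  have hy0 : y = 0 := by
    have := Submodule.starProjection_eq_self_iff.2 hyV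
    rw [← this]
    exact hPΦ
  refine ⟨μ, h, (hI μ hμI).trans_le (min_le_right _ _), ?_, hs, ?_⟩
  · intro hh0
    apply hξ0
    rw [hh0, hy0] at hw3
    apply Subtype.ext
    rw [← hw3]
    simp
  · rw [← hgw]
    exact hy0

end Pool.Agent.MMO
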