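import Pool.Agent.P.MP_6c3c64_gt.EDefs

/-! Invertibility from coercivity, the product formula, nonvanishing, analyticity and
uniform coercivity. -/

set_option autoImplicit false

namespace Pool.Agent.MMO

open Set
open scoped RealInnerProductSpace

section aux

variable {X : Type*} [NormedAddCommGroup X] [InnerProductSpace ℝ X]

theorem eprod_cut_apply (W : Submodule ℝ X) [W.HasOrthogonalProjection] (T : X →L[ℝ] X) (x : X) :
    cut W T x = T (W.starProjection x) + (x - W.starProjection x) := rfl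

theorem eprod_Sop_apply (V : Submodule ℝ X) [V.HasOrthogonalProjection] (T : X →L[ℝ] X) (x : X) :
    Sop V T x = V.starProjection x + (T x - V.starProjection (T x)) := rfl

theorem eprod_schur_apply (V : Submodule ℝ X) [V.HasOrthogonalProjection] (T : X →L[ℝ] X)
    (ξ : V) : (schur V T ξ : X) = V.starProjection (T (Ring.inverse (Sop V T) (ξ : X))) := rfl

theorem eprod_cut_mem {W : Submodule ℝ X} [W.HasOrthogonalProjection] (T : X →L[ℝ] X) {x : X}
    (hx : x ∈ W) : cut W T x = T x := by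
  rw [eprod_cut_apply, Submodule.starProjection_eq_self_iff.2 hx, sub_self, add_zero]

theorem eprod_cut_orth {W : Submodule ℝ X} [W.HasOrthogonalProjection] (T : X →L[ℝ] X) {x : X}
    (hx : x ∈ Wᗮ) : cut W T x = x := by
  rw [eprod_cut_apply, (Submodule.starProjection_apply_eq_zero_iff W).2 hx, map_zero, sub_zero,
    zero_add]

theorem eprod_inv_orth {V W : Submodule ℝ X} [V.HasOrthogonalProjection]
    (hP : Inv W V.starProjection) : Inv Wᗮ V.starProjection := by
  intro h hh w hw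
  rw [← Submodule.inner_starProjection_left_eq_right]
  exact hh _ (hP w hw)

/-- an operator preserving `W` and its complement commutes with the projection -/
theorem eprod_comm {W : Submodule ℝ X} [W.HasOrthogonalProjection] {A : X →L[ℝ] X}
    (h1 : Inv W A) (h2 : Inv Wᗮ A) (x : X) :
    W.starProjection (A x) = A (W.starProjection x) := by
  refine Submodule.eq_starProjection_of_mem_orthogonal (h1 _ (W.starProjection_apply_mem x)) ?_
  rw [← map_sub]
  exact h2 _ (Submodule.sub_starProjection_mem_orthogonal x)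

theorem eprod_proj_mem {V W : Submodule ℝ X} [V.HasOrthogonalProjection]
    [W.HasOrthogonalProjection] (hP : Inv W V.starProjection) {x : X} (hx : x ∈ V) :
    W.starProjection x ∈ V := by
  rw [← Submodule.starProjection_eq_self_iff, ← eprod_comm hP (eprod_inv_orth hP),
    Submodule.starProjection_eq_self_iff.2 hx]

theorem eprod_proj_mem_orth {V W : Submodule ℝ X} [V.HasOrthogonalProjection]
    [W.HasOrthogonalProjection] (hP : Inv W V.starProjection) {x : X} (hx : x ∈ Vᗮ) :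
    W.starProjection x ∈ Vᗮ := by
  rw [← Submodule.starProjection_apply_eq_zero_iff, ← eprod_comm hP (eprod_inv_orth hP),
    (Submodule.starProjection_apply_eq_zero_iff V).2 hx, map_zero]

theorem eprod_inverse_apply {S : X →L[ℝ] X} (hS : IsUnit S) (x : X) :
    S (Ring.inverse S x) = x := by
  have h := Ring.mul_inverse_cancel S hS
  exact DFunLike.congr_fun h x

theorem eprod_inverse_eq {S : X →L[ℝ] X} (hS : IsUnit S) {x y : X} (h : S x = y) :
    Ring.inverse S y = x := by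
  have h1 := Ring.inverse_mul_cancel S hS
  rw [← h]
  exact DFunLike.congr_fun h1 x

theorem eprod_Sop_inv {V W : Submodule ℝ X} [V.HasOrthogonalProjection] {T : X →L[ℝ] X}
    (hT : Inv W T) (hP : Inv W V.starProjection) : Inv W (Sop V T) := fun h hh => by
  rw [eprod_Sop_apply]
  exact W.add_mem (hP _ hh) (W.sub_mem (hT _ hh) (hP _ (hT _ hh)))

theorem eprod_inverse_mem {V W : Submodule ℝ X} [V.HasOrthogonalProjection]
    [W.HasOrthogonalProjection] {T : X →L[ℝ] X} (hT : Inv W T) (hP : Inv W V.starProjection)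
    (hU : IsUnit (Sop V (cut W T))) {x : X} (hx : x ∈ W) :
    Ring.inverse (Sop V (cut W T)) x ∈ W := by
  have h1 : Inv W (cut W T) := fun h hh => by rw [eprod_cut_mem T hh]; exact hT h hh
  have h2 : Inv Wᗮ (cut W T) := fun h hh => by rw [eprod_cut_orth T hh]; exact hh
  have h3 := eprod_comm (eprod_Sop_inv h1 hP) (eprod_Sop_inv h2 (eprod_inv_orth hP))
    (Ring.inverse (Sop V (cut W T)) x)
  rw [eprod_inverse_apply hU, Submodule.starProjection_eq_self_iff.2 hx] at h3
  rw [eprod_inverse_eq hU h3.symm]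
  exact W.starProjection_apply_mem _

theorem eprod_schur_orth {V W : Submodule ℝ X} [V.HasOrthogonalProjection]
    [W.HasOrthogonalProjection] {T : X →L[ℝ] X} (hU : IsUnit (Sop V (cut W T))) (ξ : V)
    (hξ : (ξ : X) ∈ Wᗮ) : schur V (cut W T) ξ = ξ := by
  have h1 : Sop V (cut W T) ξ = ξ := by
    rw [eprod_Sop_apply, eprod_cut_orth T hξ]; abel
  apply Subtype.ext
  rw [eprod_schur_apply, eprod_inverse_eq hU h1, eprod_cut_orth T hξ,
    Submodule.starProjection_eq_self_iff.2 ξ.2]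

theorem eprod_schur_mem {V W : Submodule ℝ X} [V.HasOrthogonalProjection]
    [W.HasOrthogonalProjection] {T : X →L[ℝ] X} (hT : Inv W T) (hP : Inv W V.starProjection)
    (hU : IsUnit (Sop V (cut W T))) (ξ : V) (hξ : (ξ : X) ∈ W) :
    (schur V (cut W T) ξ : X) ∈ W := by
  have h := eprod_inverse_mem hT hP hU hξ
  rw [eprod_schur_apply, eprod_cut_mem T h]
  exact hP _ (hT _ h)

theorem eprod_schur_eq {V W Z : Submodule ℝ X} [V.HasOrthogonalProjection]
    [W.HasOrthogonalProjection] [Z.HasOrthogonalProjection] {T : X →L[ℝ] X} (hT : Inv W T)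
    (hP : Inv W V.starProjection) (hle : W ≤ Z) (hU : IsUnit (Sop V (cut W T)))
    (hUZ : IsUnit (Sop V (cut Z T))) (ξ : V) (hξ : (ξ : X) ∈ W) :
    schur V (cut Z T) ξ = schur V (cut W T) ξ := by
  have h := eprod_inverse_mem hT hP hU hξ
  have h1 := eprod_inverse_apply hU (ξ : X)
  have h2 : Sop V (cut Z T) (Ring.inverse (Sop V (cut W T)) (ξ : X)) = ξ := by
    rw [eprod_Sop_apply, eprod_cut_mem T h] at h1
    rw [eprod_Sop_apply, eprod_cut_mem T (hle h), h1]
  apply Subtype.ext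
  rw [eprod_schur_apply, eprod_schur_apply, eprod_inverse_eq hUZ h2, eprod_cut_mem T h,
    eprod_cut_mem T (hle h)]

theorem eprod_split {V W : Submodule ℝ X} [V.HasOrthogonalProjection]
    [W.HasOrthogonalProjection] (hP : Inv W V.starProjection) (ξ : V) :
    ∃ a b : V, (a : X) ∈ W ∧ (b : X) ∈ Wᗮ ∧ ξ = a + b := by
  refine ⟨⟨W.starProjection ξ, eprod_proj_mem hP ξ.2⟩,
    ⟨ξ - W.starProjection ξ, V.sub_mem ξ.2 (eprod_proj_mem hP ξ.2)⟩,
    W.starProjection_apply_mem _, Submodule.sub_starProjection_mem_orthogonal _, ?_⟩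
  apply Subtype.ext
  simp

theorem eprod_schur_sub_mem {V W : Submodule ℝ X} [V.HasOrthogonalProjection]
    [W.HasOrthogonalProjection] {T : X →L[ℝ] X} (hT : Inv W T) (hP : Inv W V.starProjection)
    (hU : IsUnit (Sop V (cut W T))) (ξ : V) : ((schur V (cut W T) ξ - ξ : V) : X) ∈ W := by
  obtain ⟨a, b, ha, hb, rfl⟩ := eprod_split hP ξ
  rw [map_add, eprod_schur_orth hU b hb, add_sub_add_right_eq_sub, Submodule.coe_sub]
  exact W.sub_mem (eprod_schur_mem hT hP hU a ha) ha

theorem eprod_det_sum {E : Type*} [AddCommGroup E] [Module ℝ E] (S : Finset ℕ)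
    (M : ℕ → E →ₗ[ℝ] E) (h : ∀ j ∈ S, ∀ k ∈ S, j ≠ k → (M k - 1) * (M j - 1) = 0) :
    LinearMap.det (1 + ∑ j ∈ S, (M j - 1)) = ∏ j ∈ S, LinearMap.det (M j) := by
  induction S using Finset.induction_on with
  | empty => simp
  | insert k S hk ih =>
    have h0 : (M k - 1) * ∑ j ∈ S, (M j - 1) = 0 := by
      rw [Finset.mul_sum]
      exact Finset.sum_eq_zero fun j hj => h j (Finset.mem_insert_of_mem hj) k
        (Finset.mem_insert_self k S) (fun e => hk (e ▸ hj))
    have h1 : 1 + (M k - 1 + ∑ j ∈ S, (M j - 1)) = M k * (1 + ∑ j ∈ S, (M j - 1)) := by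
      have e : M k * (1 + ∑ j ∈ S, (M j - 1)) =
          1 + (M k - 1 + ∑ j ∈ S, (M j - 1)) + (M k - 1) * ∑ j ∈ S, (M j - 1) := by
        noncomm_ring
      rw [e, h0, add_zero]
    rw [Finset.sum_insert hk, Finset.prod_insert hk, h1, map_mul,
      ih fun i hi j hj => h i (Finset.mem_insert_of_mem hi) j (Finset.mem_insert_of_mem hj)]

end aux

variable {X : Type*} [NormedAddCommGroup X] [InnerProductSpace ℝ X] [CompleteSpace X]

theorem isUnit_Sop_cut (V W : Submodule ℝ X) [FiniteDimensional ℝ V] [W.HasOrthogonalProjection]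
    (T : X →L[ℝ] X) (hT : Inv W T) (hP : Inv W V.starProjection) (c : ℝ) (hc : 0 < c)
    (hco : ∀ h ∈ W, h ∈ Vᗮ → c * ‖h‖ ^ 2 ≤ ⟪T h, h⟫) : IsUnit (Sop V (cut W T)) := by
  have hc1 : 0 < min c 1 := lt_min hc one_pos
  have hco' : ∀ h ∈ Vᗮ, min c 1 * ‖h‖ ^ 2 ≤ ⟪cut W T h, h⟫ := by
    intro h hh
    have h1 := hco _ (W.starProjection_apply_mem h) (eprod_proj_mem_orth hP hh)
    have h2 := W.norm_sq_eq_add_norm_sq_starProjection h
    rw [Submodule.starProjection_orthogonal_val] at h2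
    have ho := W.sub_starProjection_mem_orthogonal h
    have h3 : ⟪T (W.starProjection h), h - W.starProjection h⟫ = 0 :=
      ho _ (hT _ (W.starProjection_apply_mem h))
    have h4 : ⟪h - W.starProjection h, W.starProjection h⟫ = 0 :=
      Submodule.starProjection_inner_eq_zero _ _ (W.starProjection_apply_mem h)
    have h5 : ⟪cut W T h, h⟫ = ⟪T (W.starProjection h) + (h - W.starProjection h),
        W.starProjection h + (h - W.starProjection h)⟫ := by
      rw [eprod_cut_apply, add_sub_cancel]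
    rw [inner_add_left, inner_add_right, inner_add_right, h3, h4, real_inner_self_eq_norm_sq] at h5
    have h6 := mul_le_mul_of_nonneg_right (min_le_left c 1) (sq_nonneg ‖W.starProjection h‖)
    have h7 := mul_le_mul_of_nonneg_right (min_le_right c 1) (sq_nonneg ‖h - W.starProjection h‖)
    rw [h5, h2]
    nlinarith
  obtain ⟨P, hPdef⟩ : ∃ P, P = V.starProjection := ⟨_, rfl⟩
  have hPP : P * P = P := by rw [hPdef]; exact V.isIdempotentElem_starProjection
  have hA : IsUnit ((1 - P) * cut W T * (1 - P) + P) := by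
    refine ContinuousLinearMap.isUnit_of_forall_le_norm_inner_map _ (c := ⟨min c 1, hc1.le⟩) hc1
      fun x => ?_
    have ho := V.sub_starProjection_mem_orthogonal x
    have h1 := hco' _ ho
    have h2 := V.norm_sq_eq_add_norm_sq_starProjection x
    rw [Submodule.starProjection_orthogonal_val] at h2
    have e : ((1 - P) * cut W T * (1 - P) + P) x = (cut W T (x - P x) - P (cut W T (x - P x))) +
        P x := rfl
    have h3 : ⟪V.starProjection x, x⟫ = ‖V.starProjection x‖ ^ 2 := by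
      have h4 : ⟪V.starProjection x, x - V.starProjection x⟫ = 0 :=
        ho _ (V.starProjection_apply_mem x)
      rw [inner_sub_right, real_inner_self_eq_norm_sq] at h4
      linarith
    rw [e, hPdef, inner_add_left, inner_sub_left, Submodule.inner_starProjection_left_eq_right,
      ← inner_sub_right, h3]
    refine le_trans ?_ (le_abs_self _)
    have h7 := mul_le_mul_of_nonneg_right (min_le_right c 1) (sq_nonneg ‖V.starProjection x‖)
    change ‖x‖ ^ 2 * min c 1 ≤ _
    rw [h2]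
    nlinarith
  have hPQ : P * (1 - P) = 0 := by rw [mul_sub, mul_one, hPP, sub_self]
  have hN : (1 - P) * cut W T * P * ((1 - P) * cut W T * P) = 0 := by
    have e : (1 - P) * cut W T * P * ((1 - P) * cut W T * P) =
        (1 - P) * cut W T * (P * (1 - P)) * cut W T * P := by simp only [mul_assoc]
    rw [e, hPQ]; simp
  have hB : IsUnit (1 + (1 - P) * cut W T * P) := by
    refine ⟨⟨_, 1 - (1 - P) * cut W T * P, ?_, ?_⟩, rfl⟩
    · rw [add_mul, one_mul, mul_sub ((1 - P) * cut W T * P), mul_one, hN]; abel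
    · rw [sub_mul 1, one_mul, mul_add ((1 - P) * cut W T * P), mul_one, hN]; abel
  have e : Sop V (cut W T) =
      (1 + (1 - P) * cut W T * P) * ((1 - P) * cut W T * (1 - P) + P) := by
    have e1 : Sop V (cut W T) = P + (1 - P) * cut W T := by rw [hPdef]; rfl
    have e2 : (1 + (1 - P) * cut W T * P) * ((1 - P) * cut W T * (1 - P) + P) =
        (1 - P) * cut W T * (1 - P) + P + ((1 - P) * cut W T * (P * (1 - P)) * cut W T * (1 - P) +
          (1 - P) * cut W T * (P * P)) := by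
      simp only [add_mul, mul_add, one_mul, mul_assoc]
      abel
    rw [e1, e2, hPQ, hPP, mul_sub ((1 - P) * cut W T)]
    simp only [mul_zero, zero_mul, zero_add, mul_one]
    abel
  rw [e]
  exact hB.mul hA

theorem sdet_prod (V Z : Submodule ℝ X) [FiniteDimensional ℝ V] [Z.HasOrthogonalProjection]
    (S : Finset ℕ) (W : ℕ → Submodule ℝ X) [∀ j, (W j).HasOrthogonalProjection]
    (T : X →L[ℝ] X) (hTZ : Inv Z T) (hPZ : Inv Z V.starProjection)
    (hTW : ∀ j ∈ S, Inv (W j) T) (hPW : ∀ j ∈ S, Inv (W j) V.starProjection)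
    (hle : ∀ j ∈ S, W j ≤ Z) (horth : ∀ j ∈ S, ∀ k ∈ S, j ≠ k → W j ⟂ W k)
    (hdec : ∀ ξ ∈ V ⊓ Z, ∃ η : ℕ → X, (∀ j ∈ S, η j ∈ W j) ∧ ξ = ∑ j ∈ S, η j)
    (hU : IsUnit (Sop V (cut Z T))) (hUW : ∀ j ∈ S, IsUnit (Sop V (cut (W j) T))) :
    sdet V (cut Z T) = ∏ j ∈ S, sdet V (cut (W j) T) := by
  have hker : ∀ j ∈ S, ∀ k ∈ S, j ≠ k → ∀ ζ : V, (ζ : X) ∈ W j →
      schur V (cut (W k) T) ζ - ζ = 0 := fun j hj k hk hjk ζ hζ => by
    rw [eprod_schur_orth (hUW k hk) ζ (horth j hj k hk hjk hζ), sub_self]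
  have h1 := eprod_det_sum S (fun j => (schur V (cut (W j) T) : V →ₗ[ℝ] V)) (by
    intro j hj k hk hjk
    ext1 ξ
    exact hker j hj k hk hjk _ (eprod_schur_sub_mem (hTW j hj) (hPW j hj) (hUW j hj) ξ))
  simp only [sdet]
  rw [← h1]
  congr 1
  ext1 ξ
  obtain ⟨a, b, ha, hb, rfl⟩ := eprod_split hPZ ξ
  have hN : ∀ ζ : V, (1 + ∑ j ∈ S, ((schur V (cut (W j) T) : V →ₗ[ℝ] V) - 1)) ζ =
      ζ + ∑ j ∈ S, (schur V (cut (W j) T) ζ - ζ) := fun ζ => by
    rw [LinearMap.add_apply, LinearMap.sum_apply]; rfl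
  rw [map_add, map_add]
  congr 1
  · obtain ⟨η, hη, hsum⟩ := hdec a ⟨a.2, ha⟩
    have e : a = ∑ j ∈ S, V.orthogonalProjectionOnto (η j) := by
      rw [← map_sum, ← hsum, Submodule.orthogonalProjectionOnto_mem_subspace_eq_self]
    rw [e, map_sum, map_sum]
    refine Finset.sum_congr rfl fun j hj => ?_
    have hm : ((V.orthogonalProjectionOnto (η j) : V) : X) ∈ W j := hPW j hj _ (hη j hj)
    rw [hN, Finset.sum_eq_single_of_mem j hj fun k hk hkj => hker j hj k hk hkj.symm _ hm,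
      add_sub_cancel]
    exact eprod_schur_eq (hTW j hj) (hPW j hj) (hle j hj) (hUW j hj) hU _ hm
  · rw [hN, Finset.sum_eq_zero fun j hj => by
      rw [eprod_schur_orth (hUW j hj) b (Submodule.orthogonal_le (hle j hj) hb), sub_self],
      add_zero]
    exact eprod_schur_orth hU b hb

theorem sdet_ne_zero (V W : Submodule ℝ X) [FiniteDimensional ℝ V] [W.HasOrthogonalProjection]
    (T : X →L[ℝ] X) (hT : Inv W T) (hU : IsUnit (Sop V (cut W T)))
    (hinj : ∀ h ∈ W, T h = 0 → h = 0) : sdet V (cut W T) ≠ 0 := by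
  rw [sdet, Ne, LinearMap.det_eq_zero_iff_ker_ne_bot, not_not, LinearMap.ker_eq_bot']
  intro ξ hξ
  obtain ⟨h, hh⟩ : ∃ h, h = Ring.inverse (Sop V (cut W T)) (ξ : X) := ⟨_, rfl⟩
  have h1 : V.starProjection (cut W T h) = 0 := by
    have h0 : schur V (cut W T) ξ = 0 := hξ
    rw [hh, ← eprod_schur_apply, h0]; rfl
  have h2 : Sop V (cut W T) h = ξ := by rw [hh]; exact eprod_inverse_apply hU _
  have h3 : cut W T h = 0 := by
    have h4 : cut W T h ∈ V := by
      rw [eprod_Sop_apply, h1, sub_zero] at h2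
      rw [eq_sub_of_add_eq' h2]
      exact V.sub_mem ξ.2 (V.starProjection_apply_mem h)
    rw [← Submodule.starProjection_eq_self_iff.2 h4, h1]
  have h5 : T (W.starProjection h) = 0 := by
    have h6 := Submodule.eq_starProjection_of_mem_orthogonal'
      (hT _ (W.starProjection_apply_mem h)) (W.sub_starProjection_mem_orthogonal h)
      (eprod_cut_apply W T h)
    rw [← h6, h3, map_zero]
  have h7 := hinj _ (W.starProjection_apply_mem h) h5
  rw [eprod_cut_apply, h5, h7, sub_zero, zero_add] at h3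
  apply Subtype.ext
  rw [← h2, h3, map_zero]; rfl

theorem analyticAt_sdet (V : Submodule ℝ X) [FiniteDimensional ℝ V] (T : ℝ → X →L[ℝ] X) (μ : ℝ)
    (hT : AnalyticAt ℝ T μ) (hU : IsUnit (Sop V (T μ))) :
    AnalyticAt ℝ (fun ν => sdet V (T ν)) μ := by
  have hS : AnalyticAt ℝ (fun ν => Sop V (T ν)) μ := by
    have e : (fun ν => Sop V (T ν)) =
        fun ν => V.starProjection + (1 - V.starProjection) * T ν := rfl
    rw [e]
    exact analyticAt_const.add (analyticAt_const.mul hT)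
  have hI : AnalyticAt ℝ (fun ν => Ring.inverse (Sop V (T ν))) μ := by
    have h1 : AnalyticAt ℝ Ring.inverse (Sop V (T μ)) := analyticAt_inverse (𝕜 := ℝ) hU.unit
    exact h1.comp (f := fun ν => Sop V (T ν)) hS
  have hM : AnalyticAt ℝ (fun ν => T ν * Ring.inverse (Sop V (T ν))) μ := hT.mul hI
  let b := Module.finBasis ℝ V
  have e : (fun ν => sdet V (T ν)) = fun ν => ∑ σ : Equiv.Perm (Fin (Module.finrank ℝ V)),
      ((Equiv.Perm.sign σ : ℤ) : ℝ) * ∏ i, ((b.coord (σ i)).toContinuousLinearMap ∘L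
        V.orthogonalProjectionOnto ∘L ContinuousLinearMap.apply ℝ X (b i : X))
          (T ν * Ring.inverse (Sop V (T ν))) := by
    funext ν
    rw [sdet, ← LinearMap.det_toMatrix b, Matrix.det_apply']
    refine Finset.sum_congr rfl fun σ _ => ?_
    congr 1
    refine Finset.prod_congr rfl fun i _ => ?_
    rw [LinearMap.toMatrix_apply]
    rfl
  rw [e]
  refine Finset.analyticAt_fun_sum _ fun σ _ => analyticAt_const.mul ?_
  exact Finset.analyticAt_fun_prod _ fun i _ => (ContinuousLinearMap.analyticAt _ _).comp hM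

theorem unif_coercive {Y : Type*} [TopologicalSpace Y] (K : Set Y) (hK : IsCompact K)
    (T : Y → X →L[ℝ] X) (hT : ContinuousOn T K) (O : Submodule ℝ X) (V : ℕ → Submodule ℝ X)
    (hV : Monotone V)
    (h : ∀ y ∈ K, ∃ N : ℕ, ∃ c : ℝ, 0 < c ∧ ∀ h ∈ O, h ∈ (V N)ᗮ → c * ‖h‖ ^ 2 ≤ ⟪T y h, h⟫) :
    ∃ N : ℕ, 1 ≤ N ∧ ∀ y ∈ K, ∃ c : ℝ, 0 < c ∧
      ∀ h ∈ O, h ∈ (V N)ᗮ → c * ‖h‖ ^ 2 ≤ ⟪T y h, h⟫ := by
  refine hK.induction_on (p := fun s => ∃ N : ℕ, 1 ≤ N ∧ ∀ y ∈ s, ∃ c : ℝ, 0 < c ∧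
      ∀ h ∈ O, h ∈ (V N)ᗮ → c * ‖h‖ ^ 2 ≤ ⟪T y h, h⟫) ⟨1, le_rfl, fun _ hy => hy.elim⟩ ?_ ?_ ?_
  · rintro s t hst ⟨N, hN, H⟩
    exact ⟨N, hN, fun y hy => H y (hst hy)⟩
  · rintro s t ⟨N, hN, H⟩ ⟨N', _, H'⟩
    refine ⟨max N N', hN.trans (le_max_left _ _), ?_⟩
    rintro y (hy | hy)
    · obtain ⟨c, hc, H1⟩ := H y hy
      exact ⟨c, hc, fun g hg hg' => H1 g hg (Submodule.orthogonal_le (hV (le_max_left _ _)) hg')⟩
    · obtain ⟨c, hc, H1⟩ := H' y hy
      exact ⟨c, hc, fun g hg hg' => H1 g hg (Submodule.orthogonal_le (hV (le_max_right _ _)) hg')⟩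
  · intro y0 hy0
    obtain ⟨N, c, hc, H⟩ := h y0 hy0
    refine ⟨T ⁻¹' Metric.ball (T y0) (c / 2), hT y0 hy0 (Metric.ball_mem_nhds _ (half_pos hc)),
      N + 1, Nat.le_add_left _ _, fun y hy => ⟨c / 2, half_pos hc, fun g hg hg' => ?_⟩⟩
    have h1 := H g hg (Submodule.orthogonal_le (hV (Nat.le_succ N)) hg')
    have h2 : ‖T y - T y0‖ < c / 2 := by rw [← dist_eq_norm]; exact hy
    have h3 : |⟪(T y - T y0) g, g⟫| ≤ ‖(T y - T y0) g‖ * ‖g‖ := abs_real_inner_le_norm _ _
    have h4 : ‖(T y - T y0) g‖ ≤ c / 2 * ‖g‖ :=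
      ((T y - T y0).le_opNorm g).trans (mul_le_mul_of_nonneg_right h2.le (norm_nonneg g))
    have h5 : ⟪(T y - T y0) g, g⟫ = ⟪T y g, g⟫ - ⟪T y0 g, g⟫ := by
      rw [← inner_sub_left]; rfl
    have h6 := mul_le_mul_of_nonneg_right h4 (norm_nonneg g)
    have h7 := neg_abs_le ⟪(T y - T y0) g, g⟫
    nlinarith

end Pool.Agent.MMO
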