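import Pool.Agent.P.MP_6c3c64_gt.ELoc
import Pool.Agent.P.MP_6c3c64_gt.EProd

/-! The abstract bifurcation theorem with symmetry. -/

set_option autoImplicit false

namespace Pool.Agent.MMO

open Set
open scoped RealInnerProductSpace

theorem emain_dense (f : ℝ → ℝ) (hf : ∀ μ ∈ Icc (0 : ℝ) 1, AnalyticAt ℝ f μ) (h0 : f 0 ≠ 0)
    (μ : ℝ) (hμ : μ ∈ Icc (0 : ℝ) 1) :
    ∃ᶠ ν in nhds μ, ν ∈ Icc (0 : ℝ) 1 ∧ f ν ≠ 0 := by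
  have hA : AnalyticOnNhd ℝ f (Icc (0 : ℝ) 1) := hf
  have h1 : ∀ᶠ ν in nhdsWithin μ {μ}ᶜ, f ν ≠ 0 := by
    by_contra hc
    rw [Filter.not_eventually] at hc
    have := hA.eqOn_zero_of_preconnected_of_frequently_eq_zero isPreconnected_Icc hμ
      (hc.mono fun x hx => not_not.1 hx)
    exact h0 (this (left_mem_Icc.2 zero_le_one))
  have h2 : ∃ᶠ ν in nhdsWithin μ {μ}ᶜ, ν ∈ Icc (0 : ℝ) 1 := by
    have hpp : Preperfect (Icc (0 : ℝ) 1) := isPreconnected_Icc.preperfect_of_nontrivial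
      ⟨0, left_mem_Icc.2 zero_le_one, 1, right_mem_Icc.2 zero_le_one, zero_ne_one⟩
    exact accPt_iff_frequently_nhdsNE.1 (hpp μ hμ)
  exact (h2.and_eventually h1).filter_mono nhdsWithin_le_nhds

theorem emain_analytic_cut {X : Type*} [NormedAddCommGroup X] [InnerProductSpace ℝ X]
    (W : Submodule ℝ X) [W.HasOrthogonalProjection] (T : ℝ → X →L[ℝ] X) (μ : ℝ)
    (hT : AnalyticAt ℝ T μ) : AnalyticAt ℝ (fun ν => cut W (T ν)) μ := by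
  have h1 : AnalyticAt ℝ (fun ν => (ContinuousLinearMap.compL ℝ X X X).flip W.starProjection
      (T ν)) μ :=
    (((ContinuousLinearMap.compL ℝ X X X).flip W.starProjection).analyticAt _).comp hT
  exact h1.add analyticAt_const

theorem sign_change_point (δ : ℝ → ℝ) (hδ : ∀ μ ∈ Icc (0 : ℝ) 1, AnalyticAt ℝ δ μ)
    (b : ℝ) (hb : b ∈ Icc (0 : ℝ) 1) (h : δ 0 * δ b < 0) :
    ∃ μ₀ ∈ Icc (0 : ℝ) 1, ∀ ε > 0, ∃ μ₁ ∈ Icc (0 : ℝ) 1, ∃ μ₂ ∈ Icc (0 : ℝ) 1,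
      |μ₁ - μ₀| < ε ∧ |μ₂ - μ₀| < ε ∧ δ μ₁ * δ μ₂ < 0 := by
  have h0 : δ 0 ≠ 0 := fun h0 => by simp [h0] at h
  obtain ⟨μ₀, hμ₀, hA, hB⟩ := isPreconnected_closed_iff.1 (isPreconnected_Icc (a := (0 : ℝ)) (b := 1))
    (closure {μ | μ ∈ Icc (0 : ℝ) 1 ∧ 0 < δ 0 * δ μ})
    (closure {μ | μ ∈ Icc (0 : ℝ) 1 ∧ δ 0 * δ μ < 0}) isClosed_closure isClosed_closure
    (fun μ hμ => by
      rw [← closure_union, mem_closure_iff_frequently]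
      refine (emain_dense δ hδ h0 μ hμ).mono fun ν hν => ?_
      rcases lt_or_gt_of_ne (mul_ne_zero h0 hν.2) with h1 | h1
      · exact Or.inr ⟨hν.1, h1⟩
      · exact Or.inl ⟨hν.1, h1⟩)
    ⟨0, left_mem_Icc.2 zero_le_one,
      subset_closure ⟨left_mem_Icc.2 zero_le_one, mul_self_pos.2 h0⟩⟩
    ⟨b, hb, subset_closure ⟨hb, h⟩⟩
  refine ⟨μ₀, hμ₀, fun ε hε => ?_⟩
  obtain ⟨μ₁, h₁, d₁⟩ := Metric.mem_closure_iff.1 hA ε hε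
  obtain ⟨μ₂, h₂, d₂⟩ := Metric.mem_closure_iff.1 hB ε hε
  rw [dist_comm, Real.dist_eq] at d₁ d₂
  refine ⟨μ₁, h₁.1, μ₂, h₂.1, d₁, d₂, ?_⟩
  have h3 : (δ 0 * δ μ₁) * (δ 0 * δ μ₂) < 0 := mul_neg_of_pos_of_neg h₁.2 h₂.2
  have h4 : (δ 0 * δ μ₁) * (δ 0 * δ μ₂) = (δ 0 * δ 0) * (δ μ₁ * δ μ₂) := by ring
  rw [h4] at h3
  exact neg_of_mul_neg_right h3 (mul_self_nonneg _)

theorem bif_main {X : Type*} [NormedAddCommGroup X] [InnerProductSpace ℝ X] [CompleteSpace X]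
    (G : X → X) (𝒰 : Set X) (h𝒰 : IsOpen 𝒰) (hG : ∀ v ∈ 𝒰, AnalyticAt ℝ G v) (v₀ v₁ : X)
    (hseg : ∀ μ ∈ Icc (0 : ℝ) 1, v₀ + μ • (v₁ - v₀) ∈ 𝒰)
    (hzero : ∀ μ : ℝ, v₀ + μ • (v₁ - v₀) ∈ 𝒰 → G (v₀ + μ • (v₁ - v₀)) = 0)
    (V : Submodule ℝ X) [FiniteDimensional ℝ V] (O : Submodule ℝ X)
    (W Z : ℕ → Submodule ℝ X) [∀ j, (W j).HasOrthogonalProjection]
    [∀ j, (Z j).HasOrthogonalProjection] (N : ℕ) (hN : 1 ≤ N)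
    (hWO : ∀ j, W j ≤ O) (hZO : ∀ J, Z J ≤ O)
    (hGZ : ∀ J, ∀ μ : ℝ, ∀ h ∈ Z J, v₀ + μ • (v₁ - v₀) + h ∈ 𝒰 →
      G (v₀ + μ • (v₁ - v₀) + h) ∈ Z J)
    (hTW : ∀ j, ∀ μ ∈ Icc (0 : ℝ) 1, Inv (W j) (fderiv ℝ G (v₀ + μ • (v₁ - v₀))))
    (hTZ : ∀ J, ∀ μ ∈ Icc (0 : ℝ) 1, Inv (Z J) (fderiv ℝ G (v₀ + μ • (v₁ - v₀))))
    (hPW : ∀ j, Inv (W j) V.starProjection) (hPZ : ∀ J, Inv (Z J) V.starProjection)
    (hle : ∀ J j, Odd j → J ∣ j → W j ≤ Z J) (horth : ∀ j k, j ≠ k → W j ⟂ W k)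
    (hdec : ∀ J, Odd J → ∀ ξ ∈ V ⊓ Z J, ∃ η : ℕ → X, (∀ j, η j ∈ W j) ∧
      ξ = ∑ j ∈ (Finset.range (N + 1)).filter (fun j => Odd j ∧ J ∣ j), η j)
    (hco : ∀ μ ∈ Icc (0 : ℝ) 1, ∃ c : ℝ, 0 < c ∧ ∀ h ∈ O, h ∈ Vᗮ →
      c * ‖h‖ ^ 2 ≤ ⟪fderiv ℝ G (v₀ + μ • (v₁ - v₀)) h, h⟫)
    (hinj : ∀ h ∈ O, fderiv ℝ G v₀ h = 0 → h = 0)
    (hsign : sdet V (cut (W 1) (fderiv ℝ G v₀)) * sdet V (cut (W 1) (fderiv ℝ G v₁)) < 0) :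
    ∃ (μ : ℝ) (h : X), h ∈ O ∧ h ≠ 0 ∧ v₀ + μ • (v₁ - v₀) + h ∈ 𝒰 ∧
      G (v₀ + μ • (v₁ - v₀) + h) = 0 := by
  classical
  set v : ℝ → X := fun μ => v₀ + μ • (v₁ - v₀) with hv
  set T : ℝ → X →L[ℝ] X := fun μ => fderiv ℝ G (v μ) with hT
  have hv0 : v 0 = v₀ := by simp [hv]
  have hv1 : v 1 = v₁ := by simp [hv]
  have h01 : (0 : ℝ) ∈ Icc (0 : ℝ) 1 := left_mem_Icc.2 zero_le_one
  have hva : ∀ μ, AnalyticAt ℝ v μ := fun μ =>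
    analyticAt_const.add (analyticAt_id.smul analyticAt_const)
  have hvc : Continuous v := by fun_prop
  have hTa : ∀ μ ∈ Icc (0 : ℝ) 1, AnalyticAt ℝ T μ := fun μ hμ =>
    AnalyticAt.comp (g := fderiv ℝ G) (f := v) (hG _ (hseg μ hμ)).fderiv (hva μ)
  have hUW : ∀ j, ∀ μ ∈ Icc (0 : ℝ) 1, IsUnit (Sop V (cut (W j) (T μ))) := fun j μ hμ => by
    obtain ⟨c, hc, h⟩ := hco μ hμ
    exact isUnit_Sop_cut V (W j) (T μ) (hTW j μ hμ) (hPW j) c hc fun x hx hx' =>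
      h x (hWO j hx) hx'
  have hUZ : ∀ j, ∀ μ ∈ Icc (0 : ℝ) 1, IsUnit (Sop V (cut (Z j) (T μ))) := fun j μ hμ => by
    obtain ⟨c, hc, h⟩ := hco μ hμ
    exact isUnit_Sop_cut V (Z j) (T μ) (hTZ j μ hμ) (hPZ j) c hc fun x hx hx' =>
      h x (hZO j hx) hx'
  set D : ℕ → ℝ → ℝ := fun j μ => sdet V (cut (W j) (T μ)) with hD
  have hDa : ∀ j, ∀ μ ∈ Icc (0 : ℝ) 1, AnalyticAt ℝ (D j) μ := fun j μ hμ =>
    analyticAt_sdet V (fun ν => cut (W j) (T ν)) μ (emain_analytic_cut _ T μ (hTa μ hμ))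
      (hUW j μ hμ)
  set B : Finset ℕ := (Finset.range (N + 1)).filter
    (fun j => Odd j ∧ ∃ μ ∈ Icc (0 : ℝ) 1, D j 0 * D j μ < 0) with hB
  have hB1 : 1 ∈ B := by
    rw [hB, Finset.mem_filter, Finset.mem_range]
    refine ⟨by omega, odd_one, 1, right_mem_Icc.2 zero_le_one, ?_⟩
    simp only [hD, hT, hv0, hv1]
    exact hsign
  obtain ⟨J, hJ, hJmax⟩ := Finset.exists_max_image B id ⟨1, hB1⟩
  rw [hB, Finset.mem_filter] at hJ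
  obtain ⟨hJN, hJo, a, ha, hDJ⟩ := hJ
  set S : Finset ℕ := (Finset.range (N + 1)).filter (fun j => Odd j ∧ J ∣ j) with hS
  have hJS : J ∈ S := Finset.mem_filter.2 ⟨hJN, hJo, dvd_rfl⟩
  have hpos : ∀ j ∈ S.erase J, ∀ μ ∈ Icc (0 : ℝ) 1, 0 ≤ D j 0 * D j μ := fun j hj μ hμ => by
    obtain ⟨hne, hj⟩ := Finset.mem_erase.1 hj
    obtain ⟨hjN, hjo, hdvd⟩ := Finset.mem_filter.1 hj
    by_contra hc
    have h1 : j ∈ B := Finset.mem_filter.2 ⟨hjN, hjo, μ, hμ, not_le.1 hc⟩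
    have h2 : j ≤ J := hJmax j h1
    exact hne (le_antisymm h2 (Nat.le_of_dvd hjo.pos hdvd))
  set δ : ℝ → ℝ := fun μ => sdet V (cut (Z J) (T μ)) with hδ
  have hδa : ∀ μ ∈ Icc (0 : ℝ) 1, AnalyticAt ℝ δ μ := fun μ hμ =>
    analyticAt_sdet V (fun ν => cut (Z J) (T ν)) μ (emain_analytic_cut _ T μ (hTa μ hμ))
      (hUZ J μ hμ)
  have hδ0 : δ 0 ≠ 0 := sdet_ne_zero V (Z J) (T 0) (hTZ J 0 h01) (hUZ J 0 h01) fun h hh h0 => by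
    refine hinj h (hZO J hh) ?_
    simpa only [hT, hv0] using h0
  have hprod : ∀ μ ∈ Icc (0 : ℝ) 1, δ μ = ∏ j ∈ S, D j μ := fun μ hμ =>
    sdet_prod V (Z J) S W (T μ) (hTZ J μ hμ) (hPZ J) (fun j _ => hTW j μ hμ) (fun j _ => hPW j)
      (fun j hj => hle J j (Finset.mem_filter.1 hj).2.1 (Finset.mem_filter.1 hj).2.2)
      (fun j _ k _ hjk => horth j k hjk)
      (fun ξ hξ => by
        obtain ⟨η, h1, h2⟩ := hdec J hJo ξ hξ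
        exact ⟨η, fun j _ => h1 j, h2⟩)
      (hUZ J μ hμ) (fun j _ => hUW j μ hμ)
  have hev : ∀ᶠ ν in nhds a, D J 0 * D J ν < 0 :=
    (continuousAt_const.mul (hDa J a ha).continuousAt).eventually_lt continuousAt_const hDJ
  obtain ⟨b, ⟨hb, hδb⟩, hDb⟩ := ((emain_dense δ hδa hδ0 a ha).and_eventually hev).exists
  have hneg : δ 0 * δ b < 0 := by
    refine lt_of_le_of_ne ?_ (mul_ne_zero hδ0 hδb)
    rw [hprod 0 h01, hprod b hb, ← Finset.prod_mul_distrib, ← Finset.mul_prod_erase S _ hJS]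
    exact mul_nonpos_of_nonpos_of_nonneg hDb.le
      (Finset.prod_nonneg fun j hj => hpos j hj b hb)
  obtain ⟨μ₀, hμ₀, hch⟩ := sign_change_point δ hδa b hb hneg
  set Q : X →L[ℝ] X := (Z J).starProjection with hQ
  have hin : ∀ᶠ μ in nhds μ₀, v μ ∈ 𝒰 :=
    hvc.continuousAt.eventually (h𝒰.mem_nhds (hseg μ₀ hμ₀))
  have hwc : ContDiff ℝ 1 (fun p : ℝ × X => v p.1 + Q p.2) := by
    simp only [hv]
    fun_prop
  have hw0 : (fun p : ℝ × X => v p.1 + Q p.2) (μ₀, 0) = v μ₀ := by simp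
  have hnear : ∀ᶠ p in nhds ((μ₀, 0) : ℝ × X), v p.1 + Q p.2 ∈ 𝒰 := by
    refine hwc.continuous.continuousAt.eventually (h𝒰.mem_nhds ?_)
    rw [hw0]
    exact hseg μ₀ hμ₀
  obtain ⟨ε, hε, hball⟩ := Metric.eventually_nhds_iff.1 hnear
  obtain ⟨μ, h, hμ, hne, hh, hΦ⟩ := bif_loc V (fun p : ℝ × X => G (v p.1 + Q p.2) + (p.2 - Q p.2))
    μ₀ (by
      refine ContDiffAt.add ?_ (by fun_prop)
      refine ContDiffAt.comp (g := G) (f := fun p : ℝ × X => v p.1 + Q p.2) _ ?_ hwc.contDiffAt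
      simpa using (hG _ (hseg μ₀ hμ₀)).contDiffAt)
    (hin.mono fun μ hμ => by simpa using hzero μ hμ) (fun μ => cut (Z J) (T μ))
    (hin.mono fun μ hμ => by
      have h1 : HasFDerivAt G (T μ) (v μ + Q 0) := by
        rw [map_zero, add_zero]
        exact (hG _ hμ).differentiableAt.hasFDerivAt
      have h2 : HasFDerivAt (fun h : X => v μ + Q h) Q 0 := Q.hasFDerivAt.const_add _
      exact (h1.comp (0 : X) h2).add ((hasFDerivAt_id (0 : X)).sub Q.hasFDerivAt))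
    (hUZ J μ₀ hμ₀) (fun ε hε => by
      obtain ⟨μ₁, -, μ₂, -, h1, h2, h3⟩ := hch ε hε
      exact ⟨μ₁, μ₂, h1, h2, h3⟩) ε hε
  have hmem : v μ + Q h ∈ 𝒰 := hball (y := (μ, h)) (by
    rw [Prod.dist_eq, Real.dist_eq, dist_zero_right]
    exact max_lt hμ hh)
  have hQh : Q h ∈ Z J := (Z J).starProjection_apply_mem h
  have hGm : G (v μ + Q h) ∈ Z J := hGZ J μ (Q h) hQh hmem
  have hhZ : h ∈ Z J := by
    have e : h = Q h - G (v μ + Q h) := by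
      have h1 : G (v μ + Q h) + (h - Q h) = 0 := hΦ
      rw [eq_sub_iff_add_eq, ← sub_eq_zero, ← h1]
      abel
    rw [e]
    exact (Z J).sub_mem hQh hGm
  have hQeq : Q h = h := Submodule.starProjection_eq_self_iff.2 hhZ
  have h1 : G (v μ + Q h) + (h - Q h) = 0 := hΦ
  rw [hQeq] at h1 hmem
  exact ⟨μ, h, hZO J hhZ, hne, hmem, by simpa using h1⟩

end Pool.Agent.MMO
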