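import Pool.Agent.P.MP_6c3c64_gt.FCap
import Pool.Agent.P.MP_6c3c64_gt.GK2

/-! The moments of a solution only depend on its singular part at the pole. -/

set_option autoImplicit false

namespace Pool.Agent.MMO

open Set MeasureTheory Filter Topology
open scoped ContDiff RealInnerProductSpace

theorem fmom_subst {t : ℝ} (ht : 0 < t) (φ : ℝ → ℝ) (hφ : Continuous φ) :
    IntegrableOn (fun s => φ (t / s) * (t / s / √(s ^ 2 - t ^ 2))) (Ioi t) ∧
    ∫ s in Ioi t, φ (t / s) * (t / s / √(s ^ 2 - t ^ 2)) =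
      ∫ a in (0 : ℝ)..Real.pi / 2, φ (Real.cos a) := by
  have hpi := Real.pi_pos
  have hc : ∀ a ∈ Ioo (0 : ℝ) (Real.pi / 2), 0 < Real.cos a ∧ 0 < Real.sin a := fun a ha =>
    ⟨Real.cos_pos_of_mem_Ioo ⟨by linarith [ha.1], ha.2⟩,
      Real.sin_pos_of_pos_of_lt_pi ha.1 (by linarith [ha.2])⟩
  have him : (fun a => t / Real.cos a) '' Ioo (0 : ℝ) (Real.pi / 2) = Ioi t := by
    ext s
    constructor
    · rintro ⟨a, ha, rfl⟩
      obtain ⟨h1, h2⟩ := hc a ha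
      rw [mem_Ioi, lt_div_iff₀ h1]
      have : Real.cos a < 1 := by nlinarith [Real.sin_sq_add_cos_sq a]
      nlinarith
    · intro hs
      have hs0 : 0 < s := ht.trans hs
      have h1 : 0 < t / s := by positivity
      have h2 : t / s < 1 := (div_lt_one hs0).2 hs
      refine ⟨Real.arccos (t / s), ⟨Real.arccos_pos.2 h2, Real.arccos_lt_pi_div_two.2 h1⟩, ?_⟩
      simp only
      rw [Real.cos_arccos (by linarith) h2.le]
      field_simp
  have hd : ∀ a ∈ Ioo (0 : ℝ) (Real.pi / 2), HasDerivWithinAt (fun a => t / Real.cos a)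
      (t * Real.sin a / Real.cos a ^ 2) (Ioo (0 : ℝ) (Real.pi / 2)) a := fun a ha => by
    have := (hasDerivAt_const a t).div (Real.hasDerivAt_cos a) (hc a ha).1.ne'
    exact (this.congr_deriv (by ring)).hasDerivWithinAt
  have hi : InjOn (fun a => t / Real.cos a) (Ioo (0 : ℝ) (Real.pi / 2)) := by
    intro a ha b hb h
    simp only at h
    rw [div_eq_div_iff (hc a ha).1.ne' (hc b hb).1.ne'] at h
    exact Real.injOn_cos ⟨ha.1.le, by linarith [ha.2]⟩ ⟨hb.1.le, by linarith [hb.2]⟩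
      (mul_left_cancel₀ ht.ne' h).symm
  have he : ∀ a ∈ Ioo (0 : ℝ) (Real.pi / 2), |t * Real.sin a / Real.cos a ^ 2| •
      (φ (t / (t / Real.cos a)) * (t / (t / Real.cos a) / √((t / Real.cos a) ^ 2 - t ^ 2))) =
      φ (Real.cos a) := fun a ha => by
    obtain ⟨h1, h2⟩ := hc a ha
    have e1 : t / (t / Real.cos a) = Real.cos a := by field_simp
    have e2 : (t / Real.cos a) ^ 2 - t ^ 2 = (t * Real.sin a / Real.cos a) ^ 2 := by
      field_simp
      nlinarith [Real.sin_sq_add_cos_sq a]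
    rw [e1, e2, Real.sqrt_sq (by positivity), abs_of_pos (by positivity), smul_eq_mul]
    field_simp
  rw [← him, integrableOn_image_iff_integrableOn_abs_deriv_smul measurableSet_Ioo hd hi,
    integral_image_eq_integral_abs_deriv_smul measurableSet_Ioo hd hi,
    setIntegral_congr_fun measurableSet_Ioo he, integrableOn_congr_fun he measurableSet_Ioo,
    intervalIntegral.integral_of_le (by positivity), integral_Ioc_eq_integral_Ioo]
  exact ⟨((hφ.comp Real.continuous_cos).integrableOn_Icc).mono_set Ioo_subset_Icc_self, rfl⟩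

theorem fmom_trig (j : Fin 3) :
    ∫ a in (0 : ℝ)..Real.pi / 2, Real.cos a ^ (2 * (j : ℕ)) * Pc (Real.cos a ^ 2) =
      if (j : ℕ) = 0 then Real.pi / 2 else 0 := by
  have key : ∀ α β₀ β₁ β₂ β₃ : ℝ, ∫ a in (0 : ℝ)..Real.pi / 2,
      (α + β₀ * (2 * Real.cos a ^ 2 - 1) + β₁ * (4 * Real.cos a ^ 4 - 3 * Real.cos a ^ 2) +
        β₂ * (6 * Real.cos a ^ 6 - 5 * Real.cos a ^ 4) +
        β₃ * (8 * Real.cos a ^ 8 - 7 * Real.cos a ^ 6)) = α * (Real.pi / 2) := by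
    intro α β₀ β₁ β₂ β₃
    rw [intervalIntegral.integral_eq_sub_of_hasDerivAt (f := fun a => α * a + Real.sin a *
      (β₀ * Real.cos a + β₁ * Real.cos a ^ 3 + β₂ * Real.cos a ^ 5 + β₃ * Real.cos a ^ 7))]
    · simp
    · intro a _
      have hc := Real.hasDerivAt_cos a
      have := ((hasDerivAt_id' a).const_mul α).fun_add ((Real.hasDerivAt_sin a).fun_mul
        ((((hc.const_mul β₀).fun_add ((hc.fun_pow 3).const_mul β₁)).fun_add
          ((hc.fun_pow 5).const_mul β₂)).fun_add ((hc.fun_pow 7).const_mul β₃)))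
      refine this.congr_deriv ?_
      have h := Real.sin_sq a
      push_cast
      linear_combination (-(β₀ + 3 * β₁ * Real.cos a ^ 2 + 5 * β₂ * Real.cos a ^ 4 +
        7 * β₃ * Real.cos a ^ 6)) * h
    · exact Continuous.intervalIntegrable (by fun_prop) _ _
  fin_cases j
  · exact (intervalIntegral.integral_congr fun a _ => by simp only [Pc]; ring).trans
      ((key 1 (-4) 4 0 0).trans (by simp))
  · exact (intervalIntegral.integral_congr fun a _ => by simp only [Pc]; ring).trans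
      ((key 0 0 (-5 / 3) (8 / 3) 0).trans (by simp))
  · exact (intervalIntegral.integral_congr fun a _ => by simp only [Pc]; ring).trans
      ((key 0 0 0 (-1) 2).trans (by simp))

theorem fmom_base {t : ℝ} (ht : 0 < t) :
    IntegrableOn (fun s => t / s / √(s ^ 2 - t ^ 2)) (Ioi t) ∧
    ∫ s in Ioi t, t / s / √(s ^ 2 - t ^ 2) = Real.pi / 2 := by
  simpa using fmom_subst ht (fun _ => 1) continuous_const

theorem fmom_P {x : ℝ} (h0 : 0 ≤ x) (h1 : x ≤ 1) : |Pc x| ≤ 41 ∧ |Pt x| ≤ 41 := by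
  simp only [Pc, Pt, abs_le]
  refine ⟨⟨?_, ?_⟩, ?_, ?_⟩ <;> nlinarith

theorem fmom_ratio {s t : ℝ} (ht : 0 ≤ t) (hs : t < s) : 0 ≤ t ^ 2 / s ^ 2 ∧ t ^ 2 / s ^ 2 ≤ 1 :=
  ⟨by positivity, div_le_one_of_le₀ (pow_le_pow_left₀ ht hs.le 2) (by positivity)⟩

theorem fmom_prod {μ ν : Measure ℝ} [SFinite μ] [SFinite ν] {H : ℝ × ℝ → ℝ} (hm : Measurable H)
    {b : ℝ → ℝ} (hb : Integrable b ν)
    (h : ∀ᵐ t ∂ν, Integrable (fun s => H (s, t)) μ ∧ ∫ s, ‖H (s, t)‖ ∂μ ≤ b t) :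
    Integrable H (μ.prod ν) := by
  rw [integrable_prod_iff' hm.aestronglyMeasurable]
  refine ⟨h.mono fun t ht => ht.1, hb.mono'
    hm.aestronglyMeasurable.norm.prod_swap.integral_prod_right' (h.mono fun t ht => ?_)⟩
  rw [Real.norm_of_nonneg (integral_nonneg fun s => norm_nonneg _)]
  exact ht.2

theorem fmom_dom {L t : ℝ} (ht : 0 < t) (htL : t ≤ L) {g : ℝ → ℝ} (hg : Measurable g) {A B : ℝ}
    (hA : 0 ≤ A) (h : ∀ s, L < s → ‖g s‖ ≤ A * (t / s / √(s ^ 2 - t ^ 2)) + B * s ^ (-2 : ℝ)) :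
    IntegrableOn g (Ioi L) ∧
      ∫ s in Ioi L, ‖g s‖ ≤ A * (Real.pi / 2) + B * ∫ s in Ioi L, s ^ (-2 : ℝ) := by
  have h1 := (fmom_base ht).1.mono_set (Ioi_subset_Ioi htL)
  have h2 := integrableOn_Ioi_rpow_of_lt (a := -2) (by norm_num) (ht.trans_le htL)
  have h3 : IntegrableOn (fun s => A * (t / s / √(s ^ 2 - t ^ 2)) + B * s ^ (-2 : ℝ)) (Ioi L) :=
    (h1.const_mul A).add (h2.const_mul B)
  have h4 : ∀ᵐ s ∂volume.restrict (Ioi L),
      ‖g s‖ ≤ A * (t / s / √(s ^ 2 - t ^ 2)) + B * s ^ (-2 : ℝ) :=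
    (ae_restrict_iff' measurableSet_Ioi).2 (Eventually.of_forall h)
  have h5 : IntegrableOn g (Ioi L) := h3.mono' hg.aestronglyMeasurable h4
  refine ⟨h5, (integral_mono_ae h5.norm h3 h4).trans ?_⟩
  rw [integral_add (h1.const_mul A) (h2.const_mul B), integral_const_mul, integral_const_mul,
    ← (fmom_base ht).2]
  refine add_le_add (mul_le_mul_of_nonneg_left (setIntegral_mono_set (fmom_base ht).1 ?_
    (Ioi_subset_Ioi htL).eventuallyLE) hA) le_rfl
  refine (ae_restrict_iff' measurableSet_Ioi).2 (Eventually.of_forall fun s hs => ?_)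
  have : 0 < s := ht.trans hs
  positivity

theorem fmom_invpow {L s : ℝ} (hL : 0 < L) (hs : L ≤ s) (j : ℕ) :
    0 ≤ (s ^ j)⁻¹ ∧ (s ^ j)⁻¹ ≤ (L ^ j)⁻¹ :=
  ⟨inv_nonneg.2 (pow_nonneg (hL.le.trans hs) _),
    inv_anti₀ (pow_pos hL _) (pow_le_pow_left₀ hL.le hs _)⟩

theorem cormack_moment (L C : ℝ) (hL : 0 < L) (F : ℝ → ℝ) (hF : ContDiff ℝ 1 F)
    (hlim : Tendsto F atTop (𝓝 0)) (hC : ∀ t, L ≤ t → |deriv F t| ≤ C / t ^ 2) (j : Fin 3) :
    IntegrableOn (fun s => (s ^ (2 * (j : ℕ)))⁻¹ * ∫ t in L..s,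
      deriv F t * (t / s * Pc (t ^ 2 / s ^ 2)) / √(s ^ 2 - t ^ 2)) (Ioi L) ∧
    ∫ s in Ioi L, (s ^ (2 * (j : ℕ)))⁻¹ * (∫ t in L..s,
      deriv F t * (t / s * Pc (t ^ 2 / s ^ 2)) / √(s ^ 2 - t ^ 2)) =
      if (j : ℕ) = 0 then -(Real.pi / 2 * F L) else 0 := by
  have hd : Continuous (deriv F) := hF.continuous_deriv le_rfl
  have h2 := integrableOn_Ioi_rpow_of_lt (a := -2) (by norm_num) hL
  have hC' : ∀ t, L < t → ‖deriv F t‖ ≤ C * t ^ (-2 : ℝ) := fun t ht => by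
    rw [Real.rpow_neg (hL.trans ht).le, Real.rpow_two, ← div_eq_mul_inv]
    exact hC t ht.le
  have hdi : IntegrableOn (deriv F) (Ioi L) := (h2.const_mul C).mono' hd.aestronglyMeasurable
    ((ae_restrict_iff' measurableSet_Ioi).2 (Eventually.of_forall hC'))
  let K : ℝ → ℝ → ℝ := fun s t => (s ^ (2 * (j : ℕ)))⁻¹ *
    (deriv F t * (t / s * Pc (t ^ 2 / s ^ 2)) / √(s ^ 2 - t ^ 2))
  let H : ℝ × ℝ → ℝ := fun p => if p.2 < p.1 then K p.1 p.2 else 0
  have hK : Measurable fun p : ℝ × ℝ => K p.1 p.2 := by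
    have := hd.measurable
    simp only [K, Pc]
    fun_prop
  have hH : Measurable H := Measurable.ite (measurableSet_lt measurable_snd measurable_fst) hK
    measurable_const
  have e1 : ∀ t, L < t → ∀ G : ℝ → ℝ, G 0 = 0 →
      ∫ s in Ioi L, G (H (s, t)) = ∫ s in Ioi t, G (K s t) := by
    intro t ht G hG
    have : (fun s => G (H (s, t))) = (Ioi t).indicator fun s => G (K s t) := by
      funext s
      simp only [H, indicator, mem_Ioi]
      split_ifs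
      · rfl
      · exact hG
    rw [this, setIntegral_indicator measurableSet_Ioi, inter_eq_right.2 (Ioi_subset_Ioi ht.le)]
  have e2 : ∀ t, L < t → IntegrableOn (fun s => K s t) (Ioi t) ∧ ∫ s in Ioi t, ‖K s t‖ ≤
      (L ^ (2 * (j : ℕ)))⁻¹ * ‖deriv F t‖ * 41 * (Real.pi / 2) +
        0 * ∫ s in Ioi t, s ^ (-2 : ℝ) := by
    intro t ht
    have ht0 := hL.trans ht
    refine fmom_dom ht0 le_rfl (g := fun s => K s t) (hK.comp (measurable_id.prodMk measurable_const))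
      (by positivity) fun s hs => ?_
    have hs0 := ht0.trans hs
    have a1 := fmom_invpow hL (ht.trans hs).le (2 * (j : ℕ))
    have a2 := (fmom_P (fmom_ratio ht0.le hs).1 (fmom_ratio ht0.le hs).2).1
    have : K s t = (s ^ (2 * (j : ℕ)))⁻¹ * deriv F t * Pc (t ^ 2 / s ^ 2) *
        (t / s / √(s ^ 2 - t ^ 2)) := by
      simp only [K]
      ring
    rw [this, zero_mul, add_zero, norm_mul, norm_mul, norm_mul, Real.norm_of_nonneg a1.1,
      Real.norm_of_nonneg (show 0 ≤ t / s / √(s ^ 2 - t ^ 2) by positivity)]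
    have a3 := a1.2
    gcongr
    exact a2
  have hint : Integrable H ((volume.restrict (Ioi L)).prod (volume.restrict (Ioi L))) := by
    refine fmom_prod hH (b := fun t => (L ^ (2 * (j : ℕ)))⁻¹ * ‖deriv F t‖ * 41 * (Real.pi / 2))
      (((hdi.norm.const_mul _).mul_const _).mul_const _)
      ((ae_restrict_iff' measurableSet_Ioi).2 (Eventually.of_forall fun t ht => ⟨?_, ?_⟩))
    · have : (fun s => H (s, t)) = (Ioi t).indicator fun s => K s t := by
        funext s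
        simp only [H, indicator, mem_Ioi]
      rw [this]
      exact ((integrable_indicator_iff measurableSet_Ioi).2 (e2 t ht).1).integrableOn
    · rw [e1 t ht (fun x => ‖x‖) norm_zero]
      simpa using (e2 t ht).2
  have e3 : ∀ s ∈ Ioi L, ∫ t in Ioi L, H (s, t) = (s ^ (2 * (j : ℕ)))⁻¹ * ∫ t in L..s,
      deriv F t * (t / s * Pc (t ^ 2 / s ^ 2)) / √(s ^ 2 - t ^ 2) := by
    intro s hs
    have : (fun t => H (s, t)) = (Iio s).indicator fun t => K s t := by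
      funext t
      simp only [H, indicator, mem_Iio]
    rw [this, setIntegral_indicator measurableSet_Iio, Ioi_inter_Iio,
      intervalIntegral.integral_of_le (le_of_lt hs), integral_Ioc_eq_integral_Ioo,
      ← integral_const_mul]
  have e4 : ∀ t ∈ Ioi L, ∫ s in Ioi L, H (s, t) =
      (if (j : ℕ) = 0 then Real.pi / 2 else 0) * deriv F t := by
    intro t ht
    have ht0 := hL.trans ht
    rw [e1 t ht (fun x => x) rfl, setIntegral_congr_fun measurableSet_Ioi (g := fun s =>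
      (t ^ (2 * (j : ℕ)))⁻¹ * deriv F t * (((t / s) ^ (2 * (j : ℕ)) * Pc ((t / s) ^ 2)) *
        (t / s / √(s ^ 2 - t ^ 2)))), integral_const_mul,
      (fmom_subst ht0 (fun x => x ^ (2 * (j : ℕ)) * Pc (x ^ 2))
        (by simp only [Pc]; fun_prop)).2, fmom_trig]
    · split_ifs with h
      · simp [h, mul_comm]
      · simp
    · intro s hs
      have hs0 := ht0.trans hs
      simp only [K, div_pow]
      field_simp
  refine ⟨hint.integral_prod_left.congr ((ae_restrict_iff' measurableSet_Ioi).2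
    (Eventually.of_forall e3)), ?_⟩
  rw [← setIntegral_congr_fun measurableSet_Ioi e3,
    integral_integral_swap (f := fun s t => H (s, t)) hint,
    setIntegral_congr_fun measurableSet_Ioi e4, integral_const_mul,
    integral_Ioi_of_hasDerivAt_of_tendsto' (fun x _ =>
      (hF.differentiable one_ne_zero x).hasDerivAt) hdi hlim]
  split_ifs <;> simp

theorem fmom_wt {L a₀ a s t : ℝ} (ha₀ : 0 < a₀) (ha : a₀ ≤ a) (ht : 0 ≤ t) (htL : t ≤ L)
    (hs : L < s) : 0 ≤ wt a (s ^ 2 - t ^ 2) ∧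
      wt a (s ^ 2 - t ^ 2) ≤ √(L ^ 2 + a₀⁻¹) ^ 3 / s ^ 3 := by
  have hs0 : 0 < s := (ht.trans htL).trans_lt hs
  have hw : 0 ≤ s ^ 2 - t ^ 2 := by nlinarith
  have h1 : 0 < 1 + a * (s ^ 2 - t ^ 2) := by nlinarith
  refine ⟨by unfold wt; positivity, ?_⟩
  rw [wt, ← div_pow]
  refine pow_le_pow_left₀ (by positivity) ?_ 3
  rw [inv_le_iff_one_le_mul₀' (Real.sqrt_pos.2 h1), ← mul_div_assoc, one_le_div hs0,
    ← Real.sqrt_mul h1.le]
  refine Real.le_sqrt_of_sq_le ?_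
  have h2 : a₀ * a₀⁻¹ = 1 := mul_inv_cancel₀ ha₀.ne'
  have h3 : 0 < a₀⁻¹ := inv_pos.2 ha₀
  have h4 : t ^ 2 ≤ L ^ 2 := pow_le_pow_left₀ ht htL 2
  have h5 : 0 ≤ (a - a₀) * (s ^ 2 - t ^ 2) * a₀⁻¹ := by
    have := sub_nonneg.2 ha
    positivity
  have h6 : 0 ≤ a * (s ^ 2 - t ^ 2) * L ^ 2 := by
    have := ha₀.le.trans ha
    positivity
  nlinarith

theorem fmom_sqrt {L s : ℝ} (hL : 0 < L) (hs : L < s) : √(1 + s ^ 2) ≤ (L⁻¹ + 1) * s := by
  have hs0 := hL.trans hs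
  have h1 : 1 ≤ L⁻¹ * s := by
    rw [inv_mul_eq_div, one_le_div hL]
    exact hs.le
  refine Real.sqrt_le_iff.2 ⟨by positivity, ?_⟩
  nlinarith

theorem fmom_kernels (L a₀ : ℝ) (hL : 0 < L) (ha₀ : 0 < a₀) (j : ℕ) : ∃ C : ℝ, ∀ a t, a₀ ≤ a →
    0 < t → t ≤ L →
    (IntegrableOn (fun s => (s ^ j)⁻¹ * √(1 + s ^ 2) *
      (t / s * Pc (t ^ 2 / s ^ 2) / √(s ^ 2 - t ^ 2)) * wt a (s ^ 2 - t ^ 2)) (Ioi L) ∧
    ∫ s in Ioi L, ‖(s ^ j)⁻¹ * √(1 + s ^ 2) *
      (t / s * Pc (t ^ 2 / s ^ 2) / √(s ^ 2 - t ^ 2)) * wt a (s ^ 2 - t ^ 2)‖ ≤ C) ∧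
    (IntegrableOn (fun s => (s ^ j)⁻¹ * √(1 + s ^ 2) *
      (Pt (t ^ 2 / s ^ 2) * √(s ^ 2 - t ^ 2) / s) * wt a (s ^ 2 - t ^ 2)) (Ioi L) ∧
    ∫ s in Ioi L, ‖(s ^ j)⁻¹ * √(1 + s ^ 2) *
      (Pt (t ^ 2 / s ^ 2) * √(s ^ 2 - t ^ 2) / s) * wt a (s ^ 2 - t ^ 2)‖ ≤ C) := by
  set D := (L ^ j)⁻¹ * (L⁻¹ + 1) * 41 * √(L ^ 2 + a₀⁻¹) ^ 3 with hD
  have hD0 : 0 ≤ D := by positivity
  have common : ∀ a t s P : ℝ, a₀ ≤ a → 0 < t → t ≤ L → L < s → |P| ≤ 41 →
      ‖(s ^ j)⁻¹ * √(1 + s ^ 2) * P * wt a (s ^ 2 - t ^ 2)‖ ≤ D * s ^ (-2 : ℝ) := by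
    intro a t s P ha ht htL hs hP
    have hs0 := hL.trans hs
    have a1 := fmom_invpow hL hs.le j
    have a2 := fmom_wt ha₀ ha ht.le htL hs
    rw [norm_mul, norm_mul, norm_mul, Real.norm_of_nonneg a1.1, Real.norm_of_nonneg a2.1,
      Real.norm_of_nonneg (Real.sqrt_nonneg _), Real.rpow_neg hs0.le, Real.rpow_two]
    calc _ ≤ (L ^ j)⁻¹ * ((L⁻¹ + 1) * s) * 41 * (√(L ^ 2 + a₀⁻¹) ^ 3 / s ^ 3) := by
          have a3 := a1.2
          have a4 := fmom_sqrt hL hs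
          have a5 : ‖P‖ ≤ 41 := hP
          have a6 := a2.1
          have a7 := a2.2
          gcongr
      _ = _ := by
          rw [hD]
          field_simp
  refine ⟨D * (L ^ 2)⁻¹ * (Real.pi / 2) + D * ∫ s in Ioi L, s ^ (-2 : ℝ),
    fun a t ha ht htL => ⟨?_, ?_⟩⟩
  · refine fmom_dom ht htL (by simp only [Pc, wt]; fun_prop) (by positivity) fun s hs => ?_
    have hs0 := hL.trans hs
    have hr := fmom_ratio ht.le (htL.trans_lt hs)
    have h1 := common a t s _ ha ht htL hs (fmom_P hr.1 hr.2).1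
    have h2 : 0 ≤ t / s / √(s ^ 2 - t ^ 2) := by positivity
    have h3 : s ^ (-2 : ℝ) ≤ (L ^ 2)⁻¹ := by
      rw [Real.rpow_neg hs0.le, Real.rpow_two]
      exact (fmom_invpow hL hs.le 2).2
    rw [show (s ^ j)⁻¹ * √(1 + s ^ 2) * (t / s * Pc (t ^ 2 / s ^ 2) / √(s ^ 2 - t ^ 2)) *
      wt a (s ^ 2 - t ^ 2) = (s ^ j)⁻¹ * √(1 + s ^ 2) * Pc (t ^ 2 / s ^ 2) * wt a (s ^ 2 - t ^ 2) *
      (t / s / √(s ^ 2 - t ^ 2)) by ring, norm_mul, Real.norm_of_nonneg h2]
    exact le_add_of_le_of_nonneg (mul_le_mul_of_nonneg_right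
      (h1.trans (mul_le_mul_of_nonneg_left h3 hD0)) h2) (by positivity)
  · refine fmom_dom ht htL (by simp only [Pt, wt]; fun_prop) (by positivity) fun s hs => ?_
    have hs0 := hL.trans hs
    have hr := fmom_ratio ht.le (htL.trans_lt hs)
    refine le_add_of_nonneg_of_le (by positivity) (common a t s _ ha ht htL hs ?_)
    have h1 : √(s ^ 2 - t ^ 2) / s ≤ 1 :=
      (div_le_one hs0).2 (Real.sqrt_le_iff.2 ⟨hs0.le, by nlinarith⟩)
    rw [mul_div_assoc, abs_mul, abs_of_nonneg (show 0 ≤ √(s ^ 2 - t ^ 2) / s by positivity)]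
    exact (mul_le_of_le_one_right (abs_nonneg _) h1).trans (fmom_P hr.1 hr.2).2

theorem fmom_main {L κ : ℝ} {V : ℝ → ℝ} (h : Adm L κ V) {f : ℝ → ℝ} (hf : ContDiff ℝ 1 f)
    (he : ∀ s, 0 < s → Eq5 V f s = 0) (j : ℕ) :
    IntegrableOn (fun s => (s ^ j)⁻¹ * ∫ t in L..s, deriv (fun t => f t / √(1 + t ^ 2)) t *
      (t / s * Pc (t ^ 2 / s ^ 2)) / √(s ^ 2 - t ^ 2)) (Ioi L) ∧
    Nm V L j f = -(∫ s in Ioi L, (s ^ j)⁻¹ * ∫ t in L..s,
      deriv (fun t => f t / √(1 + t ^ 2)) t * (t / s * Pc (t ^ 2 / s ^ 2)) / √(s ^ 2 - t ^ 2)) -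
      (if j = 0 then Real.pi / 2 else 0) * (f L / √(1 + L ^ 2)) := by
  have hL := h.Lpos
  obtain ⟨C, hC⟩ := fmom_kernels L (1 / (1 + L ^ 2)) hL (by positivity) j
  have hg : Continuous (gg V f) := h.contDiff_b1.continuous.mul (hf.continuous_deriv le_rfl)
  have hd : Continuous (dd V f) := h.contDiff_b2.continuous.mul hf.continuous
  have ha : Continuous (aa V) := h.contDiff_aa.continuous
  have ha0 : ∀ t ∈ Ioc 0 L, 1 / (1 + L ^ 2) ≤ aa V t := fun t ht =>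
    (one_div_le_one_div_of_le (by positivity)
      (by linarith [pow_le_pow_left₀ ht.1.le ht.2 2])).trans (h.le_aa t)
  let X : ℝ → ℝ → ℝ := fun s t => (s ^ j)⁻¹ * √(1 + s ^ 2) *
    (t / s * Pc (t ^ 2 / s ^ 2) / √(s ^ 2 - t ^ 2)) * wt (aa V t) (s ^ 2 - t ^ 2)
  let Y : ℝ → ℝ → ℝ := fun s t => (s ^ j)⁻¹ * √(1 + s ^ 2) *
    (Pt (t ^ 2 / s ^ 2) * √(s ^ 2 - t ^ 2) / s) * wt (aa V t) (s ^ 2 - t ^ 2)
  let H : ℝ × ℝ → ℝ := fun p => gg V f p.2 * X p.1 p.2 - 5 * dd V f p.2 * Y p.1 p.2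
  have hH : Measurable H := by
    have := hg.measurable
    have := hd.measurable
    have := ha.measurable
    simp only [H, X, Y, Pc, Pt, wt]
    fun_prop
  have hint : Integrable H ((volume.restrict (Ioi L)).prod (volume.restrict (Ioc 0 L))) := by
    refine fmom_prod hH (b := fun t => ‖gg V f t‖ * C + ‖5 * dd V f t‖ * C)
      (Continuous.integrableOn_Ioc (by fun_prop))
      ((ae_restrict_iff' measurableSet_Ioc).2 (Eventually.of_forall fun t ht => ?_))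
    obtain ⟨⟨a1, a2⟩, a3, a4⟩ := hC _ t (ha0 t ht) ht.1 ht.2
    have i1 := a1.const_mul (gg V f t)
    have i2 := a3.const_mul (5 * dd V f t)
    refine ⟨i1.sub i2, (integral_mono (i1.sub i2).norm (i1.norm.add i2.norm)
      fun s => norm_sub_le _ _).trans ?_⟩
    simp only [Pi.add_apply]
    rw [integral_add i1.norm i2.norm]
    simp only [norm_mul (gg V f t), norm_mul (5 * dd V f t), integral_const_mul]
    gcongr
  have hB : IntegrableOn (fun s => (s ^ j)⁻¹ * √(s ^ 2 - L ^ 2) * (L / s * Pc (L ^ 2 / s ^ 2)) /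
      (1 + s ^ 2)) (Ioi L) := by
    refine (fmom_dom hL le_rfl (A := 0) (B := (L ^ j)⁻¹ * L * 41)
      (by simp only [Pc]; fun_prop) le_rfl fun s hs => ?_).1
    have hs0 := hL.trans hs
    have hr := fmom_ratio hL.le hs
    have a1 := fmom_invpow hL hs.le j
    have h1 : √(s ^ 2 - L ^ 2) ≤ s := Real.sqrt_le_iff.2 ⟨hs0.le, by nlinarith⟩
    rw [zero_mul, zero_add, norm_div, norm_mul, norm_mul, norm_mul, Real.norm_of_nonneg a1.1,
      Real.norm_of_nonneg (Real.sqrt_nonneg _), Real.norm_of_nonneg (show 0 ≤ L / s by positivity),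
      Real.norm_of_nonneg (show 0 ≤ 1 + s ^ 2 by positivity), Real.rpow_neg hs0.le, Real.rpow_two]
    calc _ ≤ (L ^ j)⁻¹ * s * (L / s * 41) / s ^ 2 := by
          have a3 := a1.2
          have a4 : ‖Pc (L ^ 2 / s ^ 2)‖ ≤ 41 := (fmom_P hr.1 hr.2).1
          have a5 : s ^ 2 ≤ 1 + s ^ 2 := by linarith
          gcongr
      _ = _ := by field_simp
  have e1 : ∀ s ∈ Ioi L, -(∫ t in Ioc 0 L, H (s, t)) - f L * (√(1 + L ^ 2))⁻¹ *
      ((s ^ j)⁻¹ * √(s ^ 2 - L ^ 2) * (L / s * Pc (L ^ 2 / s ^ 2)) / (1 + s ^ 2)) =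
      (s ^ j)⁻¹ * ∫ t in L..s, deriv (fun t => f t / √(1 + t ^ 2)) t *
        (t / s * Pc (t ^ 2 / s ^ 2)) / √(s ^ 2 - t ^ 2) := by
    intro s hs
    have h1 := cap_identity h f hf s hs
    rw [he s (hL.trans hs), mul_zero] at h1
    have h2 : ∫ t in Ioc 0 L, H (s, t) = (s ^ j)⁻¹ * ∫ t in (0 : ℝ)..L,
        (gg V f t * (√(1 + s ^ 2) * (t / s * Pc (t ^ 2 / s ^ 2)
          / √(s ^ 2 - t ^ 2)) * wt (aa V t) (s ^ 2 - t ^ 2))
        - 5 * dd V f t * (√(1 + s ^ 2) * (Pt (t ^ 2 / s ^ 2) * √(s ^ 2 - t ^ 2) / s)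
          * wt (aa V t) (s ^ 2 - t ^ 2))) := by
      rw [intervalIntegral.integral_of_le hL.le, ← integral_const_mul]
      refine setIntegral_congr_fun measurableSet_Ioc fun t _ => ?_
      simp only [H, X, Y]
      ring
    rw [h2]
    linear_combination (s ^ j)⁻¹ * h1
  have e2 : ∀ t ∈ Ioc 0 L, ∫ s in Ioi L, H (s, t) =
      gg V f t * k1 L (aa V t) j t - 5 * dd V f t * k2 L (aa V t) j t := by
    intro t ht
    obtain ⟨⟨a1, -⟩, a3, -⟩ := hC _ t (ha0 t ht) ht.1 ht.2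
    simp only [H]
    rw [integral_sub (a1.const_mul _) (a3.const_mul _), integral_const_mul, integral_const_mul]
    rfl
  have i1 := hint.integral_prod_left.fun_neg
  have i2 := hB.const_mul (f L * (√(1 + L ^ 2))⁻¹)
  refine ⟨(i1.sub i2).congr ((ae_restrict_iff' measurableSet_Ioi).2
    (Eventually.of_forall e1)), ?_⟩
  rw [← setIntegral_congr_fun measurableSet_Ioi e1, integral_sub i1 i2, integral_neg,
    integral_const_mul, integral_integral_swap (f := fun s t => H (s, t)) hint,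
    setIntegral_congr_fun measurableSet_Ioc e2, Nm, intervalIntegral.integral_of_le hL.le, k3]
  ring

theorem fmom_ii {L s : ℝ} (hL : 0 < L) (hs : L < s) {φ : ℝ → ℝ} (hφ : Continuous φ) :
    IntervalIntegrable (fun t => φ t * (t / s * Pc (t ^ 2 / s ^ 2)) / √(s ^ 2 - t ^ 2))
      volume L s := by
  have hs0 := hL.trans hs
  have h1 : IntervalIntegrable (fun t => (s - t) ^ (-(1 / 2) : ℝ)) volume L s := by
    have := (intervalIntegral.intervalIntegrable_rpow' (a := s - L) (b := 0) (r := -(1 / 2))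
      (by norm_num)).comp_sub_left s
    simpa using this
  have h2 : ContinuousOn (fun t => φ t * (t / s * Pc (t ^ 2 / s ^ 2)) / √(s + t)) (uIcc L s) := by
    refine ContinuousOn.div (by simp only [Pc]; fun_prop) (by fun_prop) fun t ht => ?_
    rw [uIcc_of_le hs.le] at ht
    exact (Real.sqrt_pos.2 (by linarith [ht.1])).ne'
  refine (h1.continuousOn_mul h2).congr fun t ht => ?_
  rw [uIoc_of_le hs.le] at ht
  have h3 : 0 ≤ s - t := sub_nonneg.2 ht.2
  rw [Real.rpow_neg h3, ← Real.sqrt_eq_rpow, show s ^ 2 - t ^ 2 = (s + t) * (s - t) by ring,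
    Real.sqrt_mul (by linarith [ht.1])]
  ring

theorem moment_sing (L : ℝ) (hL : 0 < L) : ∃ Θ : Matrix (Fin 3) (Fin 3) ℝ,
    ∀ κ V, Adm L κ V → ∀ (f : ℝ → ℝ) (c : Fin 3 → ℝ), ContDiff ℝ 1 f →
      (∀ s, 0 < s → Eq5 V f s = 0) →
      Tendsto (fun t => f t / √(1 + t ^ 2) - poly c t) atTop (𝓝 0) →
      (∃ C, ∀ t, L ≤ t → |deriv (fun t => f t / √(1 + t ^ 2) - poly c t) t| ≤ C / t ^ 2) →
      ∀ j : Fin 3, Nm V L (2 * (j : ℕ)) f = ∑ i, Θ j i * c i := by
  have hq : ∀ t : ℝ, 0 < 1 + t ^ 2 := fun t => by positivity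
  have hsq : ContDiff ℝ 1 fun t : ℝ => √(1 + t ^ 2) :=
    ContDiff.sqrt (by fun_prop) fun t => (hq t).ne'
  have hp : ∀ c, ContDiff ℝ 1 (poly c) := fun c => by
    unfold poly
    fun_prop
  have hpd : ∀ c t, deriv (poly c) t = 2 * c 1 * t + 4 * c 2 * t ^ 3 := fun c t => by
    have := ((hasDerivAt_const t (c 0)).fun_add (((hasDerivAt_id' t).fun_pow 2).const_mul
      (c 1))).fun_add (((hasDerivAt_id' t).fun_pow 4).const_mul (c 2))
    exact (this.congr_deriv (by push_cast; ring)).deriv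
  let Z : Fin 3 → ℕ → ℝ → ℝ := fun i j s => (s ^ j)⁻¹ * ∫ t in L..s,
    deriv (poly (Pi.single i 1)) t * (t / s * Pc (t ^ 2 / s ^ 2)) / √(s ^ 2 - t ^ 2)
  have hZ : ∀ i j, IntegrableOn (Z i j) (Ioi L) := fun i j => by
    have := (fmom_main (adm_ball hL) (f := sing (Pi.single i 1)) (hsq.mul (hp _))
      (Eq5_ball_sing _) j).1
    have e : (fun t => sing (Pi.single i 1) t / √(1 + t ^ 2)) = poly (Pi.single i 1) := by
      funext t
      rw [sing, mul_div_cancel_left₀ _ (Real.sqrt_pos.2 (hq t)).ne']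
    rwa [e] at this
  refine ⟨Matrix.of fun j i => -(∫ s in Ioi L, Z i (2 * (j : ℕ)) s) -
    (if (j : ℕ) = 0 then Real.pi / 2 else 0) * poly (Pi.single i 1) L,
    fun κ V h f c hf he hlim ⟨C, hC⟩ j => ?_⟩
  have hF : ContDiff ℝ 1 fun t => f t / √(1 + t ^ 2) :=
    hf.div hsq fun t => (Real.sqrt_pos.2 (hq t)).ne'
  obtain ⟨i1, e1⟩ := cormack_moment L C hL _ (hF.sub (hp c)) hlim hC j
  have e2 : ∀ s ∈ Ioi L, (s ^ (2 * (j : ℕ)))⁻¹ * ∫ t in L..s,
      deriv (fun t => f t / √(1 + t ^ 2)) t * (t / s * Pc (t ^ 2 / s ^ 2)) / √(s ^ 2 - t ^ 2) =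
      (s ^ (2 * (j : ℕ)))⁻¹ * (∫ t in L..s, deriv (fun t => f t / √(1 + t ^ 2) - poly c t) t *
        (t / s * Pc (t ^ 2 / s ^ 2)) / √(s ^ 2 - t ^ 2)) +
        ∑ i, c i * Z i (2 * (j : ℕ)) s := by
    intro s hs
    have j1 := fmom_ii hL hs ((hF.sub (hp c)).continuous_deriv le_rfl)
    have j2 := fun i : Fin 3 =>
      (fmom_ii hL hs ((hp (Pi.single i 1)).continuous_deriv le_rfl)).const_mul (c i)
    simp only [Z, mul_left_comm (c _), ← Finset.mul_sum]
    simp only [← intervalIntegral.integral_const_mul (c _)]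
    rw [← mul_add, Fin.sum_univ_three, ← intervalIntegral.integral_add (j2 0) (j2 1),
      ← intervalIntegral.integral_add ((j2 0).add (j2 1)) (j2 2),
      ← intervalIntegral.integral_add j1 (((j2 0).add (j2 1)).add (j2 2))]
    congr 1
    refine intervalIntegral.integral_congr fun t _ => ?_
    rw [deriv_fun_sub (hF.differentiable one_ne_zero t) ((hp c).differentiable one_ne_zero t)]
    simp [hpd]
    ring
  rw [(fmom_main h hf he _).2, setIntegral_congr_fun measurableSet_Ioi e2,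
    integral_add i1 (integrable_finsetSum _ fun i _ => (hZ i _).const_mul _), e1,
    integral_finsetSum _ fun i _ => (hZ i _).const_mul _]
  simp only [integral_const_mul, Fin.sum_univ_three, Matrix.of_apply, mul_eq_zero, poly]
  by_cases hj : (j : ℕ) = 0 <;> simp [hj] <;> ring

end Pool.Agent.MMO
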