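import Pool.Agent.P.MP_6c3c64_gt.Defs

/-! Row Four. Uniqueness for absolutely convergent Fourier series.
First prove `f m = (2 π)⁻¹ ∫_0^{2π} g α * ee (-m) α` (`hasSum_integral_of_summable_norm` or
`integral_tsum_of_summable_integral_norm`), or directly: two absolutely summable families with the
same sum for all `α` are equal. The symmetry gives `f m * (ee m (π / 3) + 1) = 0`, so `f m = 0`
unless `m ≡ 3 mod 6`; `g` real gives `f (-m) = conj (f m)`; and `m ≡ 3 mod 6` means `m = mm j` or
`m = -mm j`.
-/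

set_option autoImplicit false

open Real BoundedContinuousFunction MeasureTheory Set Filter Topology
open scoped NNReal ENNReal

noncomputable section

namespace Pool.Agent.PS

theorem Four_int {ι : Type} [Countable ι] (F : ι → ℝ → ℂ) (hc : ∀ i, Continuous (F i))
    (b : ι → ℝ) (hb : Summable b) (hF : ∀ i α, ‖F i α‖ ≤ b i)
    (h : ∀ α, HasSum (fun i => F i α) 0) :
    HasSum (fun i => ∫ α in (0 : ℝ)..2 * π, F i α) 0 := by
  have := intervalIntegral.hasSum_integral_of_dominated_convergence (μ := volume) (a := 0)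
    (b := 2 * π) (F := F) (f := fun _ => 0) (fun i _ => b i)
    (fun i => (hc i).aestronglyMeasurable) (fun i => Eventually.of_forall fun t _ => hF i t)
    (Eventually.of_forall fun _ _ => hb) intervalIntegrable_const
    (Eventually.of_forall fun t _ => h t)
  rwa [intervalIntegral.integral_zero] at this

theorem Four_ee (m : ℤ) :
    ∫ α in (0 : ℝ)..2 * π, ee m α = if m = 0 then ((2 * π : ℝ) : ℂ) else 0 := by
  split_ifs with hm
  · subst hm
    simp [ee_zero]
  · have hc : Complex.I * (m : ℂ) ≠ 0 :=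
      mul_ne_zero Complex.I_ne_zero (Int.cast_ne_zero.mpr hm)
    simp only [ee, ← mul_assoc]
    rw [integral_exp_mul_complex hc]
    have e : Complex.I * (m : ℂ) * ((2 * π : ℝ) : ℂ) = (m : ℂ) * (2 * π * Complex.I) := by
      push_cast
      ring
    rw [e, Complex.exp_int_mul_two_pi_mul_I]
    simp

theorem Four_two_pi : ((2 * π : ℝ) : ℂ) ≠ 0 := Complex.ofReal_ne_zero.mpr (by positivity)

theorem Four_uniq (f : ℤ → ℂ) (hs : Summable fun m => ‖f m‖)
    (h : ∀ α, HasSum (fun m => f m * ee m α) 0) (k : ℤ) : f k = 0 := by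
  have h1 := Four_int (fun m α => f m * ee (m + -k) α)
    (fun m => continuous_const.mul (continuous_ee _)) _ hs
    (fun m α => by rw [norm_mul, norm_ee, mul_one])
    (fun α => by
      have := (h α).mul_right (ee (-k) α)
      rw [zero_mul] at this
      simpa only [ee_add, mul_assoc] using this)
  simp only [intervalIntegral.integral_const_mul, Four_ee] at h1
  have h2 : HasSum (fun m : ℤ => f m * if m + -k = 0 then ((2 * π : ℝ) : ℂ) else 0)
      (f k * if k + -k = 0 then ((2 * π : ℝ) : ℂ) else 0) :=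
    hasSum_single k fun m hm => by rw [if_neg (by omega), mul_zero]
  have h3 := h2.unique h1
  rw [if_pos (by omega)] at h3
  exact (mul_eq_zero.mp h3).resolve_right Four_two_pi

theorem Four_conj (m : ℤ) (α : ℝ) : (starRingEnd ℂ) (ee (-m) α) = ee m α := by
  rw [ee, ee, ← Complex.exp_conj]
  refine congrArg Complex.exp ?_
  simp

theorem Four_mod {m : ℤ} (h : ee m (π / 3) + 1 = 0) : ∃ n : ℤ, m = 6 * n + 3 := by
  have h3 : ee (-3) (π / 3) = -1 := by
    rw [ee, ← Complex.exp_neg_pi_mul_I]
    refine congrArg Complex.exp ?_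
    push_cast
    ring
  have h4 : ee (m + -3) (π / 3) = 1 := by
    rw [ee_add, h3]
    linear_combination -h
  obtain ⟨n, hn⟩ := Complex.exp_eq_one_iff.mp h4
  refine ⟨n, ?_⟩
  have hπ : (π : ℂ) * Complex.I ≠ 0 :=
    mul_ne_zero (Complex.ofReal_ne_zero.mpr pi_ne_zero) Complex.I_ne_zero
  have h5 : (m : ℂ) = 6 * n + 3 := by
    apply mul_right_cancel₀ hπ
    push_cast at hn
    linear_combination 3 * hn
  exact_mod_cast h5

theorem Four_cos (m : ℕ) (α : ℝ) :
    ((cos (m * α) : ℝ) : ℂ) = (ee m α + ee (-(m : ℤ)) α) / 2 := by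
  rw [ee_eq, ee_eq]
  simp only [Int.cast_neg, Int.cast_natCast, neg_mul, cos_neg, sin_neg, Complex.ofReal_neg]
  ring

theorem fourier_zero (g : ℝ → ℝ) (f : ℤ → ℂ) (hs : Summable fun m => ‖f m‖)
    (h0 : ∀ j, f (mm j) = 0) (hg : ∀ α, HasSum (fun m => f m * ee m α) (g α))
    (hsym : ∀ α, g (α + π / 3) = -g α) (α : ℝ) : g α = 0 := by
  have h1 : ∀ m, f m * (ee m (π / 3) + 1) = 0 := by
    refine Four_uniq _ ?_ fun β => ?_
    · refine Summable.of_nonneg_of_le (fun _ => norm_nonneg _) (fun m => ?_) (hs.mul_right 2)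
      rw [norm_mul]
      refine mul_le_mul_of_nonneg_left ((norm_add_le _ _).trans ?_) (norm_nonneg _)
      rw [norm_ee, norm_one]
      norm_num
    · have := (hg (β + π / 3)).add (hg β)
      rw [hsym, Complex.ofReal_neg, neg_add_cancel] at this
      refine this.congr_fun fun m => ?_
      rw [ee_add_arg]
      ring
  have h2 : ∀ m, f m - (starRingEnd ℂ) (f (-m)) = 0 := by
    refine Four_uniq _ ?_ fun β => ?_
    · have hs' : Summable fun m : ℤ => ‖f (-m)‖ := (Equiv.neg ℤ).summable_iff.mpr hs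
      refine Summable.of_nonneg_of_le (fun _ => norm_nonneg _) (fun m => ?_) (hs.add hs')
      refine (norm_sub_le _ _).trans ?_
      rw [Complex.norm_conj]
    · have a1 : HasSum (fun m : ℤ => f (-m) * ee (-m) β) (g β) :=
        (Equiv.neg ℤ).hasSum_iff.mpr (hg β)
      have a2 := Complex.hasSum_conj'.mpr a1
      have a3 := (hg β).sub a2
      rw [Complex.conj_ofReal, sub_self] at a3
      refine a3.congr_fun fun m => ?_
      rw [map_mul, Four_conj]
      ring
  have h3 : ∀ m, f m = 0 := by
    intro m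
    rcases mul_eq_zero.mp (h1 m) with h | h
    · exact h
    · obtain ⟨n, hn⟩ := Four_mod h
      rcases le_or_gt 0 n with hn0 | hn0
      · have : m = (mm n.toNat : ℤ) := by
          unfold mm
          omega
        rw [this]
        exact h0 _
      · have : -m = (mm (-n - 1).toNat : ℤ) := by
          unfold mm
          omega
        have h4 := h2 m
        rwa [this, h0, map_zero, sub_zero] at h4
  have h5 := hg α
  simp only [h3, zero_mul] at h5
  exact_mod_cast h5.unique hasSum_zero

theorem cos_series_unique (c : ℕ → ℝ) (hs : Summable fun j => |c j|)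
    (h : ∀ φ : ℝ, ∑' j, c j * cos (mm j * φ) = 0) (j : ℕ) : c j = 0 := by
  have hb : ∀ (i : ℕ) (φ : ℝ), ‖c i * cos (mm i * φ)‖ ≤ |c i| := fun i φ => by
    rw [Real.norm_eq_abs, abs_mul]
    exact mul_le_of_le_one_right (abs_nonneg _) (abs_cos_le_one _)
  have h1 := Four_int (fun i α => ((c i * cos (mm i * α) : ℝ) : ℂ) * ee (-(mm j : ℤ)) α)
    (fun i => (by fun_prop : Continuous fun α : ℝ => ((c i * cos (mm i * α) : ℝ) : ℂ)).mul
      (continuous_ee _)) _ hs
    (fun i α => by rw [norm_mul, norm_ee, mul_one, Complex.norm_real]; exact hb i α)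
    (fun α => by
      have a1 := (Summable.of_norm_bounded hs fun i => hb i α).hasSum
      rw [h α] at a1
      have a2 := (Complex.hasSum_ofReal.mpr a1).mul_right (ee (-(mm j : ℤ)) α)
      rwa [Complex.ofReal_zero, zero_mul] at a2)
  have e : ∀ i : ℕ, ∫ α in (0 : ℝ)..2 * π,
      ((c i * cos (mm i * α) : ℝ) : ℂ) * ee (-(mm j : ℤ)) α =
      (c i : ℂ) / 2 * if i = j then ((2 * π : ℝ) : ℂ) else 0 := by
    intro i
    have e1 : ∀ α : ℝ, ((c i * cos (mm i * α) : ℝ) : ℂ) * ee (-(mm j : ℤ)) α =
        (c i : ℂ) / 2 * (ee ((mm i : ℤ) + -(mm j : ℤ)) α + ee (-(mm i : ℤ) + -(mm j : ℤ)) α) := by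
      intro α
      rw [Complex.ofReal_mul, Four_cos, ee_add, ee_add]
      ring
    simp only [e1]
    rw [intervalIntegral.integral_const_mul, intervalIntegral.integral_add
      ((continuous_ee _).intervalIntegrable _ _) ((continuous_ee _).intervalIntegrable _ _),
      Four_ee, Four_ee, if_neg (show ¬ (-(mm i : ℤ) + -(mm j : ℤ) = 0) by unfold mm; omega),
      add_zero]
    refine congrArg _ (if_congr ?_ rfl rfl)
    unfold mm
    omega
  simp only [e] at h1
  have h2 : HasSum (fun i : ℕ => (c i : ℂ) / 2 * if i = j then ((2 * π : ℝ) : ℂ) else 0)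
      ((c j : ℂ) / 2 * if j = j then ((2 * π : ℝ) : ℂ) else 0) :=
    hasSum_single j fun m hm => by rw [if_neg hm, mul_zero]
  have h3 := h2.unique h1
  rw [if_pos rfl] at h3
  have h4 := (mul_eq_zero.mp h3).resolve_right Four_two_pi
  rw [div_eq_zero_iff] at h4
  exact_mod_cast h4.resolve_right two_ne_zero

end Pool.Agent.PS
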