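import Pool.Agent.P.MP_6c3c64_gt.Defs

/-! Row G0. Transfer of sections to the plane. `plane f1 f2 u t` is an isometry from `ℂ` onto
the hyperplane `inner x u = t` (the three vectors form an orthonormal basis), the set in `Per` is
the image of the frontier of the preimage of `K`, and `Isometry.hausdorffMeasure_image` applies.
-/

set_option autoImplicit false
set_option linter.unusedSectionVars false

open Real BoundedContinuousFunction MeasureTheory Set Filter Topology
open scoped NNReal ENNReal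

noncomputable section

namespace Pool.Agent.PS

theorem G0_facts {f1 f2 u : E3} (h : Orthonormal ℝ ![f1, f2, u]) :
    ‖f1‖ = 1 ∧ ‖f2‖ = 1 ∧ ‖u‖ = 1 ∧ inner ℝ f1 f2 = 0 ∧ inner ℝ f1 u = 0 ∧ inner ℝ f2 u = 0 :=
  ⟨h.1 0, h.1 1, h.1 2, h.2 (show (0 : Fin 3) ≠ 1 by decide), h.2 (show (0 : Fin 3) ≠ 2 by decide),
    h.2 (show (1 : Fin 3) ≠ 2 by decide)⟩

theorem isometry_plane {f1 f2 u : E3} (h : Orthonormal ℝ ![f1, f2, u]) (t : ℝ) :
    Isometry (plane f1 f2 u t) := by
  obtain ⟨h1, h2, -, h3, -, -⟩ := G0_facts h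
  refine Isometry.of_dist_eq fun y z => ?_
  have e : plane f1 f2 u t y - plane f1 f2 u t z = (y - z).re • f1 + (y - z).im • f2 := by
    simp only [plane, Complex.sub_re, Complex.sub_im, sub_smul]
    abel
  rw [dist_eq_norm, dist_eq_norm, e, ← sq_eq_sq₀ (norm_nonneg _) (norm_nonneg _),
    norm_add_sq_real, Complex.sq_norm, Complex.normSq_apply, norm_smul, norm_smul, h1, h2,
    real_inner_smul_left, real_inner_smul_right, h3]
  simp only [Real.norm_eq_abs, mul_one, sq_abs]
  ring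
theorem range_plane {f1 f2 u : E3} (h : Orthonormal ℝ ![f1, f2, u]) (t : ℝ) :
    range (plane f1 f2 u t) = {x | inner ℝ x u = t} := by
  obtain ⟨-, -, h1, -, h2, h3⟩ := G0_facts h
  ext x
  constructor
  · rintro ⟨y, rfl⟩
    simp [plane, inner_add_left, real_inner_smul_left, h1, h2, h3]
  · intro hx
    have hc : Fintype.card (Fin 3) = Module.finrank ℝ E3 := by simp
    have hb := coe_basisOfOrthonormalOfCardEqFinrank h hc
    have := ((basisOfOrthonormalOfCardEqFinrank h hc).toOrthonormalBasis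
      (by rw [hb]; exact h)).sum_repr' x
    rw [Module.Basis.coe_toOrthonormalBasis, hb, Fin.sum_univ_three] at this
    refine ⟨⟨inner ℝ f1 x, inner ℝ f2 x⟩, Eq.trans ?_ this⟩
    have ht : t = inner ℝ u x := by rw [real_inner_comm]; exact Eq.symm hx
    simp only [plane, ht]
    simp only [Matrix.cons_val_zero, Matrix.cons_val_one, Matrix.cons_val]
    abel
theorem Per_eq {f1 f2 u : E3} (h : Orthonormal ℝ ![f1, f2, u]) (t : ℝ) {K : Set E3}
    (hK : IsClosed K) :
    Per K u t = Measure.hausdorffMeasure 1 (frontier (plane f1 f2 u t ⁻¹' K)) := by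
  have hi := isometry_plane h t
  have hr : ∀ x, inner ℝ x u = t ↔ ∃ y, plane f1 f2 u t y = x := fun x =>
    (Set.ext_iff.1 (range_plane h t) x).symm
  rw [← hi.hausdorffMeasure_image (Or.inl zero_le_one), Per, frontier_eq_closure_inter_closure,
    (hK.preimage hi.continuous).closure_eq]
  congr 1
  ext x
  constructor
  · rintro ⟨h1, h2, h3⟩
    obtain ⟨y, rfl⟩ := (hr x).1 h2
    refine ⟨y, ⟨h1, Metric.mem_closure_iff.2 fun ε hε => ?_⟩, rfl⟩
    obtain ⟨z, z1, z2, z3⟩ := h3 ε hε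
    obtain ⟨w, rfl⟩ := (hr z).1 z1
    exact ⟨w, z3, by rwa [hi.dist_eq, dist_comm] at z2⟩
  · rintro ⟨y, ⟨h1, h2⟩, rfl⟩
    refine ⟨h1, (hr _).2 ⟨y, rfl⟩, fun ε hε => ?_⟩
    obtain ⟨w, w1, w2⟩ := Metric.mem_closure_iff.1 h2 ε hε
    exact ⟨_, (hr _).2 ⟨w, rfl⟩, by rwa [hi.dist_eq, dist_comm], w1⟩
theorem isCompact_section {f1 f2 u : E3} (h : Orthonormal ℝ ![f1, f2, u]) (t : ℝ) {K : Set E3}
    (hK : IsCompact K) : IsCompact (plane f1 f2 u t ⁻¹' K) := (isometry_plane h t).isClosedEmbedding.isCompact_preimage hK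
theorem convex_section (f1 f2 u : E3) (t : ℝ) {K : Set E3} (hK : Convex ℝ K) :
    Convex ℝ (plane f1 f2 u t ⁻¹' K) := by
  intro y hy z hz a b ha hb hab
  have e : plane f1 f2 u t (a • y + b • z) = a • plane f1 f2 u t y + b • plane f1 f2 u t z := by
    simp only [plane, Complex.add_re, Complex.add_im, Complex.smul_re, Complex.smul_im,
      smul_eq_mul]
    obtain rfl : b = 1 - a := by linarith
    module
  rw [mem_preimage, e]
  exact hK hy hz ha hb hab
theorem exists_frame (u : E3) (hu : ‖u‖ = 1) : ∃ f1 f2 : E3, Orthonormal ℝ ![f1, f2, u] := by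
  have hv : Orthonormal ℝ (({2} : Set (Fin 3)).domRestrict fun _ => u) :=
    ⟨fun _ => hu, fun i j hij => (hij (Subsingleton.elim i j)).elim⟩
  obtain ⟨b, hb⟩ := hv.exists_orthonormalBasis_extension_of_card_eq (by simp)
  refine ⟨b 0, b 1, ?_⟩
  have : ![b 0, b 1, u] = b := by
    funext i
    fin_cases i
    exacts [rfl, rfl, (hb 2 rfl).symm]
  rw [this]
  exact b.orthonormal

end Pool.Agent.PS
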