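import Pool.Agent.P.MP_6c3c64_gt.Defs

/-! Row G1a. The nearest point projection `pr` onto `C` is 1-Lipschitz
(`exists_norm_eq_iInf_of_complete_convex`, `norm_eq_iInf_iff_real_inner_le_zero`). If `y ∉ C` and
`q = pr y`, every point `q + s • (y - q)`, `s ≥ 0`, projects to `q`, so `q ∈ pr '' S`. This set is
compact, and every frontier point is a limit of such `q`. Then
`LipschitzWith.hausdorffMeasure_image_le`. For the corollary take `S = frontier D`: a ray from a
point of the compact set `D` leaves `D` through its frontier.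
-/

set_option autoImplicit false

open Real BoundedContinuousFunction MeasureTheory Set Filter Topology
open scoped NNReal ENNReal

noncomputable section

namespace Pool.Agent.PS

theorem G1a_lip {C : Set ℂ} {y y' p p' : ℂ} (hp : p ∈ C) (hp' : p' ∈ C)
    (h : ∀ w ∈ C, inner ℝ (y - p) (w - p) ≤ 0) (h' : ∀ w ∈ C, inner ℝ (y' - p') (w - p') ≤ 0) :
    ‖p - p'‖ ≤ ‖y - y'‖ := by
  have a1 := h p' hp'
  have a2 := h' p hp
  have e : inner ℝ (y - y') (p - p') =
      ‖p - p'‖ ^ 2 - inner ℝ (y - p) (p' - p) - inner ℝ (y' - p') (p - p') := by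
    have e1 : y - y' = (p - p') + (y - p) - (y' - p') := by ring
    have e2 : p' - p = -(p - p') := by ring
    rw [e1, e2, inner_neg_right, inner_sub_left, inner_add_left, real_inner_self_eq_norm_sq]
    ring
  have a3 := real_inner_le_norm (y - y') (p - p')
  by_contra hlt
  have hlt' := not_le.1 hlt
  have a4 : 0 < ‖p - p'‖ := (norm_nonneg _).trans_lt hlt'
  nlinarith

theorem G1a_proj {C : Set ℂ} (hne : C.Nonempty) (hC : IsCompact C) (hc : Convex ℝ C) (y : ℂ) :
    ∃ p ∈ C, ∀ w ∈ C, inner ℝ (y - p) (w - p) ≤ 0 := by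
  obtain ⟨p, hp, h⟩ := exists_norm_eq_iInf_of_complete_convex hne hC.isComplete hc y
  exact ⟨p, hp, (norm_eq_iInf_iff_real_inner_le_zero hc hp).1 h⟩

theorem hausdorff_frontier_le (C S : Set ℂ) (hC : IsCompact C) (hc : Convex ℝ C)
    (hS : IsCompact S) (hray : ∀ q ∈ C, ∀ v : ℂ, v ≠ 0 → ∃ s : ℝ, 0 ≤ s ∧ q + s • v ∈ S) :
    Measure.hausdorffMeasure 1 (frontier C) ≤ Measure.hausdorffMeasure 1 S := by
  rcases C.eq_empty_or_nonempty with rfl | hne
  · simp
  choose pr hm hi using G1a_proj hne hC hc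
  have hL : LipschitzWith 1 pr := LipschitzWith.mk_one fun y y' => by
    rw [dist_eq_norm, dist_eq_norm]
    exact G1a_lip (hm y) (hm y') (hi y) (hi y')
  have huniq : ∀ y p, p ∈ C → (∀ w ∈ C, inner ℝ (y - p) (w - p) ≤ 0) → pr y = p := by
    intro y p hp h
    have := G1a_lip (hm y) hp (hi y) h
    rwa [sub_self, norm_zero, norm_le_zero_iff, sub_eq_zero] at this
  have hout : MapsTo pr Cᶜ (pr '' S) := by
    intro y hy
    have hv : y - pr y ≠ 0 := fun e => hy (sub_eq_zero.1 e ▸ hm y)
    obtain ⟨s, hs, hsS⟩ := hray (pr y) (hm y) _ hv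
    refine ⟨_, hsS, huniq _ _ (hm y) fun w hw => ?_⟩
    rw [add_sub_cancel_left, real_inner_smul_left]
    exact mul_nonpos_of_nonneg_of_nonpos hs (hi y w hw)
  have hsub : frontier C ⊆ pr '' S := by
    intro x hx
    rw [frontier_eq_closure_inter_closure, hC.isClosed.closure_eq] at hx
    have h1 : pr x = x := huniq x x hx.1 fun w _ => by simp
    have h2 := hout.closure hL.continuous hx.2
    rwa [(hS.image hL.continuous).isClosed.closure_eq, h1] at h2
  refine (measure_mono hsub).trans ((hL.hausdorffMeasure_image_le zero_le_one S).trans ?_)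
  simp

theorem hausdorff_frontier_mono (C D : Set ℂ) (hC : IsCompact C) (hc : Convex ℝ C)
    (hD : IsCompact D) (h : C ⊆ D) :
    Measure.hausdorffMeasure 1 (frontier C) ≤ Measure.hausdorffMeasure 1 (frontier D) := by
  refine hausdorff_frontier_le C _ hC hc
    (hD.of_isClosed_subset isClosed_frontier hD.isClosed.frontier_subset) fun q hq v hv => ?_
  by_contra hno
  have hcont : Continuous fun s : ℝ => q + s • v := by fun_prop
  have hpre : IsPreconnected ((fun s : ℝ => q + s • v) '' Ici 0) :=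
    isPreconnected_Ici.image _ hcont.continuousOn
  have hdisj : Disjoint ((fun s : ℝ => q + s • v) '' Ici 0) (frontier D) := by
    rw [disjoint_left]
    rintro _ ⟨s, hs, rfl⟩ hf
    exact hno ⟨s, hs, hf⟩
  have hsub : (fun s : ℝ => q + s • v) '' Ici 0 ⊆ interior D := by
    refine hpre.subset_left_of_subset_union isOpen_interior hD.isClosed.isOpen_compl
      (disjoint_compl_right_iff_subset.2 interior_subset) (fun x hx => ?_) ?_
    · by_cases hxD : x ∈ D
      · left
        by_contra hi
        exact disjoint_left.1 hdisj hx ⟨subset_closure hxD, hi⟩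
      · exact Or.inr hxD
    · refine ⟨q, ⟨0, le_refl (0 : ℝ), by simp⟩, ?_⟩
      by_contra hi
      exact hno ⟨0, le_rfl, by simpa using ⟨subset_closure (h hq), hi⟩⟩
  obtain ⟨R, hR⟩ := hD.isBounded.exists_norm_le
  have hv0 : 0 < ‖v‖ := norm_pos_iff.2 hv
  have hRq := hR q (h hq)
  have hs0 : 0 ≤ (2 * R + 1) / ‖v‖ := by
    have := norm_nonneg q
    apply div_nonneg <;> linarith
  have h1 := hR _ (interior_subset (hsub ⟨(2 * R + 1) / ‖v‖, hs0, rfl⟩))
  have h2 : ‖((2 * R + 1) / ‖v‖) • v‖ = 2 * R + 1 := by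
    rw [norm_smul, Real.norm_of_nonneg hs0, div_mul_cancel₀ _ hv0.ne']
  have h3 := norm_sub_le (q + ((2 * R + 1) / ‖v‖) • v) q
  rw [add_sub_cancel_left, h2] at h3
  simp only at h1
  linarith

end Pool.Agent.PS
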