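import Pool.Agent.P.MP_6c3c64_gt.G1a

/-! Row G1b. Upper bound for the perimeter by the integral of the support function.
For `N ≥ 3`, `Δ = 2 π / N`, `θ i = i Δ`, `h i = supp C (θ i)`, let `V i` be the intersection of the
lines `i` and `i + 1`, i.e. in the frame of line `i`:
`V i = exp (i θ i) * (h i + i * (h (i + 1) - h i * cos Δ) / sin Δ)`,
`V (i - 1) = exp (i θ i) * (h i - i * (h (i - 1) - h i * cos Δ) / sin Δ)`.
A point `q` on line `i` with `re (q exp (-i θ (i ± 1))) ≤ h (i ± 1)` lies on the segment from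
`V (i - 1)` to `V i`; the touching point of `C` shows that the signed length
`(h (i + 1) + h (i - 1) - 2 h i cos Δ) / sin Δ` is nonnegative. A ray from a point of `C` leaves the
polygon `∀ i, re (y exp (-i θ i)) ≤ h i` at such a point (take the least exit time). So by
`hausdorff_frontier_le` and `hausdorffMeasure_segment` the perimeter is at most
`2 (1 - cos Δ) / sin Δ * ∑ h i`, which tends to the integral (uniform continuity of `supp C`,
`2 (1 - cos Δ) / (Δ sin Δ) → 1`).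
-/

set_option autoImplicit false

open Real BoundedContinuousFunction MeasureTheory Set Filter Topology
open scoped NNReal ENNReal

noncomputable section

namespace Pool.Agent.PS

theorem le_supp {C : Set ℂ} (hC : IsCompact C) {y : ℂ} (hy : y ∈ C) (θ : ℝ) :
    (y * Complex.exp (-(Complex.I * θ))).re ≤ supp C θ :=
  le_csSup (hC.image (f := fun y : ℂ => (y * Complex.exp (-(Complex.I * θ))).re)
    (by fun_prop)).bddAbove ⟨y, hy, rfl⟩
theorem supp_le {C : Set ℂ} (hne : C.Nonempty) {θ h : ℝ}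
    (H : ∀ y ∈ C, (y * Complex.exp (-(Complex.I * θ))).re ≤ h) : supp C θ ≤ h :=
  csSup_le (hne.image _) (by rintro _ ⟨y, hy, rfl⟩; exact H y hy)
theorem continuous_supp {C : Set ℂ} (hC : IsCompact C) (hne : C.Nonempty) :
    Continuous (supp C) :=
  hC.continuous_sSup (f := fun (θ : ℝ) (y : ℂ) => (y * Complex.exp (-(Complex.I * θ))).re)
    (by
      unfold Function.HasUncurry.uncurry
      simp only [Function.hasUncurryInduction]
      fun_prop)

theorem G1b_exp (θ : ℝ) : Complex.exp (-(Complex.I * ((θ + 2 * π : ℝ) : ℂ))) =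
    Complex.exp (-(Complex.I * θ)) := by
  rw [← Complex.exp_periodic.sub_eq (-(Complex.I * θ))]
  congr 1
  push_cast
  ring

theorem periodic_supp (C : Set ℂ) : Function.Periodic (supp C) (2 * π) := by
  intro θ
  unfold supp
  rw [G1b_exp]

/-- The coordinate of `y` in the direction `θ`. -/
def G1b_p (y : ℂ) (θ : ℝ) : ℝ := (y * Complex.exp (-(Complex.I * θ))).re

/-- The coordinate of `y` in the direction orthogonal to `θ`. -/
def G1b_q (y : ℂ) (θ : ℝ) : ℝ := (y * Complex.exp (-(Complex.I * θ))).im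

theorem G1b_p_periodic (y : ℂ) : Function.Periodic (G1b_p y) (2 * π) := by
  intro θ
  unfold G1b_p
  rw [G1b_exp]

theorem G1b_p_add (y : ℂ) (θ Δ : ℝ) :
    G1b_p y (θ + Δ) = G1b_p y θ * cos Δ + G1b_q y θ * sin Δ := by
  unfold G1b_p G1b_q
  have h1 : Complex.exp (-(Complex.I * ((θ + Δ : ℝ) : ℂ))) =
      Complex.exp (-(Complex.I * θ)) * Complex.exp (((-Δ : ℝ) : ℂ) * Complex.I) := by
    rw [← Complex.exp_add]
    congr 1
    push_cast
    ring
  rw [h1, ← mul_assoc, Complex.mul_re _ (Complex.exp _), Complex.exp_ofReal_mul_I_re,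
    Complex.exp_ofReal_mul_I_im, cos_neg, sin_neg]
  ring

theorem G1b_p_sub (y : ℂ) (θ Δ : ℝ) :
    G1b_p y (θ - Δ) = G1b_p y θ * cos Δ - G1b_q y θ * sin Δ := by
  rw [sub_eq_add_neg, G1b_p_add, cos_neg, sin_neg]
  ring

theorem G1b_p_line (q v : ℂ) (s θ : ℝ) : G1b_p (q + s • v) θ = G1b_p q θ + s * G1b_p v θ := by
  unfold G1b_p
  rw [add_mul, Complex.add_re, Complex.real_smul, mul_assoc, Complex.re_ofReal_mul]

/-- Parametrisation of the line with normal direction `θ` and height `h`. -/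
def G1b_l (θ h b : ℝ) : ℂ := (h + b * Complex.I) * Complex.exp (Complex.I * θ)

theorem G1b_l_eq (y : ℂ) (θ : ℝ) : G1b_l θ (G1b_p y θ) (G1b_q y θ) = y := by
  unfold G1b_l G1b_p G1b_q
  rw [Complex.re_add_im, mul_assoc, ← Complex.exp_add, neg_add_cancel, Complex.exp_zero, mul_one]

theorem G1b_l_lip (θ h : ℝ) : LipschitzWith 1 (G1b_l θ h) := by
  refine LipschitzWith.of_dist_le_mul fun a b => ?_
  have h1 : G1b_l θ h a - G1b_l θ h b =
      ((a - b : ℝ) : ℂ) * Complex.I * Complex.exp (θ * Complex.I) := by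
    unfold G1b_l
    rw [mul_comm Complex.I (θ : ℂ)]
    push_cast
    ring
  rw [dist_eq_norm, h1, norm_mul, norm_mul, Complex.norm_I, Complex.norm_exp_ofReal_mul_I,
    Complex.norm_real, dist_eq_norm]
  simp

/-- The edge of the circumscribed polygon with normal direction `θ`. -/
def G1b_e (g : ℝ → ℝ) (Δ θ : ℝ) : Set ℂ :=
  G1b_l θ (g θ) '' Icc (-((g (θ - Δ) - g θ * cos Δ) / sin Δ)) ((g (θ + Δ) - g θ * cos Δ) / sin Δ)

theorem G1b_e_compact (g : ℝ → ℝ) (Δ θ : ℝ) : IsCompact (G1b_e g Δ θ) :=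
  isCompact_Icc.image (G1b_l_lip _ _).continuous

theorem G1b_e_meas (g : ℝ → ℝ) (Δ θ : ℝ) : Measure.hausdorffMeasure 1 (G1b_e g Δ θ) ≤
    ENNReal.ofReal ((g (θ + Δ) + g (θ - Δ) - 2 * g θ * cos Δ) / sin Δ) := by
  refine ((G1b_l_lip θ (g θ)).hausdorffMeasure_image_le zero_le_one _).trans ?_
  rw [hausdorffMeasure_real, Real.volume_Icc]
  simp only [ENNReal.coe_one, ENNReal.rpow_one, one_mul]
  refine le_of_eq (congrArg _ ?_)
  ring

theorem G1b_between {g : ℝ → ℝ} {Δ θ : ℝ} (hs : 0 < sin Δ) {y : ℂ} (h0 : G1b_p y θ = g θ)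
    (h1 : G1b_p y (θ + Δ) ≤ g (θ + Δ)) (h2 : G1b_p y (θ - Δ) ≤ g (θ - Δ)) :
    G1b_q y θ ∈
      Icc (-((g (θ - Δ) - g θ * cos Δ) / sin Δ)) ((g (θ + Δ) - g θ * cos Δ) / sin Δ) := by
  rw [G1b_p_add, h0] at h1
  rw [G1b_p_sub, h0] at h2
  constructor
  · rw [neg_le, le_div_iff₀ hs]
    linarith
  · rw [le_div_iff₀ hs]
    linarith

theorem G1b_mem_e {g : ℝ → ℝ} {Δ θ : ℝ} (hs : 0 < sin Δ) {y : ℂ} (h0 : G1b_p y θ = g θ)
    (h1 : G1b_p y (θ + Δ) ≤ g (θ + Δ)) (h2 : G1b_p y (θ - Δ) ≤ g (θ - Δ)) : y ∈ G1b_e g Δ θ :=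
  ⟨_, G1b_between hs h0 h1 h2, by rw [← h0, G1b_l_eq]⟩

theorem G1b_len_nonneg {C : Set ℂ} (hC : IsCompact C) (hne : C.Nonempty) {Δ : ℝ} (hs : 0 < sin Δ)
    (θ : ℝ) : 0 ≤ (supp C (θ + Δ) + supp C (θ - Δ) - 2 * supp C θ * cos Δ) / sin Δ := by
  obtain ⟨y, hy, h0⟩ := (hC.image (f := fun y : ℂ => (y * Complex.exp (-(Complex.I * θ))).re)
    (by fun_prop)).sSup_mem (hne.image _)
  have h := G1b_between (g := supp C) (y := y) hs h0 (le_supp hC hy _) (le_supp hC hy _)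
  have h1 := sub_nonneg.2 (h.1.trans h.2)
  refine h1.trans (le_of_eq ?_)
  ring

theorem G1b_reduce {g : ℝ → ℝ} (hg : Function.Periodic g (2 * π)) {N : ℕ} (hN : 0 < N) {Δ : ℝ}
    (hΔ : N * Δ = 2 * π) (α : ℝ) (j : ℤ) :
    ∃ k ∈ Finset.range N, g (α + j * Δ) = g (α + k * Δ) := by
  have hN' : (0 : ℤ) < N := by exact_mod_cast hN
  have h0 := Int.emod_nonneg j hN'.ne'
  have h1 := Int.emod_lt_of_pos j hN'
  refine ⟨(j % N).toNat, Finset.mem_range.2 (by omega), ?_⟩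
  have h2 : (((j % N).toNat : ℕ) : ℝ) = ((j % N : ℤ) : ℝ) := by
    rw [← Int.cast_natCast, Int.toNat_of_nonneg h0]
  have h3 : (j : ℝ) = ((j % N : ℤ) : ℝ) + N * ((j / N : ℤ) : ℝ) := by
    exact_mod_cast (Int.emod_add_mul_ediv j N).symm
  rw [h2, ← hg.int_mul (j / N) (α + ((j % N : ℤ) : ℝ) * Δ), ← hΔ]
  congr 1
  rw [h3]
  simp only [← h3]
  linear_combination Δ * h3

theorem G1b_dir {N : ℕ} (hN : 0 < N) {Δ : ℝ} (hΔ : N * Δ = 2 * π) (h0 : 0 < Δ) (h1 : Δ < π)
    (α : ℝ) {v : ℂ} (hv : v ≠ 0) : ∃ k ∈ Finset.range N, 0 < G1b_p v (α + k * Δ) := by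
  obtain ⟨k, hk, he⟩ := G1b_reduce (G1b_p_periodic v) hN hΔ α (round ((v.arg - α) / Δ))
  refine ⟨k, hk, ?_⟩
  rw [← he]
  set j : ℤ := round ((v.arg - α) / Δ) with hj
  have h2 : |(v.arg - α) / Δ - j| ≤ 1 / 2 := abs_sub_round _
  have h3 : v.arg - (α + j * Δ) = ((v.arg - α) / Δ - j) * Δ := by
    field_simp
    ring
  have h4 : G1b_p v (α + j * Δ) = ‖v‖ * cos (v.arg - (α + j * Δ)) := by
    unfold G1b_p
    conv_lhs => rw [← Complex.norm_mul_exp_arg_mul_I v]
    rw [mul_assoc, ← Complex.exp_add, Complex.re_ofReal_mul, ← Complex.exp_ofReal_mul_I_re]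
    congr 3
    push_cast
    ring
  rw [h4, h3]
  obtain ⟨h5, h6⟩ := abs_le.1 h2
  refine mul_pos (norm_pos_iff.2 hv) (cos_pos_of_mem_Ioo ⟨?_, ?_⟩) <;> nlinarith

theorem G1b_shift {g : ℝ → ℝ} (hg : Function.Periodic g (2 * π)) {N : ℕ} {Δ : ℝ}
    (hΔ : N * Δ = 2 * π) (α : ℝ) :
    ∑ k ∈ Finset.range N, g (α + k * Δ + Δ) = ∑ k ∈ Finset.range N, g (α + k * Δ) := by
  have h1 := Finset.sum_range_succ (fun k : ℕ => g (α + k * Δ)) N
  have h2 := Finset.sum_range_succ' (fun k : ℕ => g (α + k * Δ)) N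
  rw [hΔ, hg α] at h1
  simp only [Nat.cast_add, Nat.cast_one, add_mul, one_mul, ← add_assoc, Nat.cast_zero, zero_mul,
    add_zero] at h2
  linarith

theorem G1b_poly {C : Set ℂ} (hC : IsCompact C) (hc : Convex ℝ C) (hne : C.Nonempty) {N : ℕ}
    (hN : 0 < N) {Δ : ℝ} (hΔ : N * Δ = 2 * π) (h0 : 0 < Δ) (h1 : Δ < π) (α : ℝ) :
    Measure.hausdorffMeasure 1 (frontier C) ≠ ⊤ ∧ (Measure.hausdorffMeasure 1 (frontier C)).toReal ≤
      2 * (1 - cos Δ) / sin Δ * ∑ k ∈ Finset.range N, supp C (α + k * Δ) := by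
  have hs : 0 < sin Δ := sin_pos_of_pos_of_lt_pi h0 h1
  have hS : IsCompact (⋃ k ∈ Finset.range N, G1b_e (supp C) Δ (α + k * Δ)) :=
    (Finset.range N).isCompact_biUnion fun k _ => G1b_e_compact _ _ _
  have h2 := hausdorff_frontier_le C _ hC hc hS fun q hq v hv => by
    obtain ⟨k, hk, hmin⟩ := Finset.exists_min_image
      ((Finset.range N).filter fun k : ℕ => 0 < G1b_p v (α + k * Δ))
      (fun k : ℕ => (supp C (α + k * Δ) - G1b_p q (α + k * Δ)) / G1b_p v (α + k * Δ)) (by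
        obtain ⟨k, hk, h⟩ := G1b_dir hN hΔ h0 h1 α hv
        exact ⟨k, Finset.mem_filter.2 ⟨hk, h⟩⟩)
    obtain ⟨hk, hpos⟩ := Finset.mem_filter.1 hk
    set s := (supp C (α + k * Δ) - G1b_p q (α + k * Δ)) / G1b_p v (α + k * Δ) with hsdef
    have hq' : ∀ θ, G1b_p q θ ≤ supp C θ := le_supp hC hq
    have hs0 : 0 ≤ s := div_nonneg (sub_nonneg.2 (hq' _)) hpos.le
    have hall : ∀ j : ℤ, G1b_p (q + s • v) (α + j * Δ) ≤ supp C (α + j * Δ) := by
      intro j
      obtain ⟨m, hm, he⟩ := G1b_reduce ((periodic_supp C).sub (G1b_p_periodic (q + s • v))) hN hΔ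
        α j
      simp only [Pi.sub_apply] at he
      rw [← sub_nonneg, he, G1b_p_line]
      by_cases hp : 0 < G1b_p v (α + m * Δ)
      · have := (le_div_iff₀ hp).1 (hmin m (Finset.mem_filter.2 ⟨hm, hp⟩))
        linarith
      · have h3 := mul_nonpos_of_nonneg_of_nonpos hs0 (not_lt.1 hp)
        have h4 := hq' (α + m * Δ)
        linarith
    refine ⟨s, hs0, mem_biUnion hk (G1b_mem_e hs ?_ ?_ ?_)⟩
    · rw [G1b_p_line, hsdef, div_mul_cancel₀ _ hpos.ne']
      ring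
    · have h3 : α + k * Δ + Δ = α + ((k + 1 : ℤ) : ℝ) * Δ := by
        push_cast
        ring
      rw [h3]
      exact hall _
    · have h3 : α + k * Δ - Δ = α + ((k - 1 : ℤ) : ℝ) * Δ := by
        push_cast
        ring
      rw [h3]
      exact hall _
  have h3 := h2.trans ((measure_biUnion_finset_le _ _).trans
    (Finset.sum_le_sum fun k _ => G1b_e_meas (supp C) Δ (α + k * Δ)))
  rw [← ENNReal.ofReal_sum_of_nonneg fun k _ => G1b_len_nonneg hC hne hs _] at h3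
  refine ⟨ne_top_of_le_ne_top ENNReal.ofReal_ne_top h3, ?_⟩
  refine (ENNReal.toReal_le_of_le_ofReal
    (Finset.sum_nonneg fun k _ => G1b_len_nonneg hC hne hs _) h3).trans (le_of_eq ?_)
  have h4 := G1b_shift (periodic_supp C) hΔ α
  have h5 := G1b_shift (periodic_supp C) hΔ (α - Δ)
  have h6 : ∀ k : ℕ, α - Δ + k * Δ + Δ = α + k * Δ := fun k => by ring
  have h7 : ∀ k : ℕ, α - Δ + k * Δ = α + k * Δ - Δ := fun k => by ring
  simp only [h6] at h5
  simp only [h7] at h5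
  rw [← Finset.sum_div, Finset.sum_sub_distrib, Finset.sum_add_distrib, h4, ← h5,
    ← Finset.sum_mul, ← Finset.mul_sum]
  ring

theorem G1b_avg {g : ℝ → ℝ} (hg : Continuous g) {N : ℕ} {Δ : ℝ} (hΔ : N * Δ = 2 * π) :
    ∫ α in (0 : ℝ)..Δ, ∑ k ∈ Finset.range N, g (α + k * Δ) = ∫ θ in (0 : ℝ)..2 * π, g θ := by
  rw [intervalIntegral.integral_finsetSum (f := fun (k : ℕ) (α : ℝ) => g (α + k * Δ)) fun k _ =>
    (show Continuous fun α => g (α + k * Δ) by fun_prop).intervalIntegrable _ _]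
  have h := intervalIntegral.sum_integral_adjacent_intervals (f := g) (μ := volume)
    (a := fun k : ℕ => k * Δ) (n := N) fun k _ => hg.intervalIntegrable _ _
  simp only [Nat.cast_zero, zero_mul, hΔ] at h
  rw [← h]
  refine Finset.sum_congr rfl fun k _ => ?_
  rw [intervalIntegral.integral_comp_add_right]
  congr 1
  · ring
  · push_cast
    ring

theorem perimeter_le (C : Set ℂ) (hC : IsCompact C) (hc : Convex ℝ C) (hne : C.Nonempty) :
    Measure.hausdorffMeasure 1 (frontier C) ≤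
      ENNReal.ofReal (∫ θ in (0 : ℝ)..2 * π, supp C θ) := by
  set P := (Measure.hausdorffMeasure 1 (frontier C)).toReal with hP
  set J := ∫ θ in (0 : ℝ)..2 * π, supp C θ with hJ
  have hP0 : 0 ≤ P := ENNReal.toReal_nonneg
  have hpi := pi_pos
  have key : ∀ n : ℕ, Measure.hausdorffMeasure 1 (frontier C) ≠ ⊤ ∧
      P * (1 - (2 * π * (1 / ((n + 7 : ℕ) : ℝ))) ^ 2 / 4) ≤ J := by
    intro n
    have hn : (7 : ℝ) ≤ ((n + 7 : ℕ) : ℝ) := by exact_mod_cast Nat.le_add_left 7 n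
    set Δ := 2 * π * (1 / ((n + 7 : ℕ) : ℝ)) with hΔdef
    have hΔ : ((n + 7 : ℕ) : ℝ) * Δ = 2 * π := by
      rw [hΔdef]
      field_simp
    have h0 : 0 < Δ := by positivity
    have h1 : Δ ≤ 1 := by nlinarith [pi_lt_d2]
    have h2 : Δ < π := by linarith [pi_gt_three]
    have hs : 0 < sin Δ := sin_pos_of_pos_of_lt_pi h0 h2
    have hpoly := G1b_poly hC hc hne (N := n + 7) (by omega) hΔ h0 h2
    refine ⟨(hpoly 0).1, ?_⟩
    have hcont := continuous_supp hC hne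
    have h3 := intervalIntegral.integral_mono_on (μ := volume) h0.le
      (f := fun _ => P) (g := fun α => 2 * (1 - cos Δ) / sin Δ *
        ∑ k ∈ Finset.range (n + 7), supp C (α + k * Δ)) intervalIntegrable_const
      (Continuous.intervalIntegrable (by fun_prop) _ _) fun α _ => (hpoly α).2
    rw [intervalIntegral.integral_const_mul, G1b_avg hcont hΔ, intervalIntegral.integral_const,
      sub_zero, smul_eq_mul, div_mul_eq_mul_div, le_div_iff₀ hs, ← hJ] at h3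
    have h4 : 0 < 1 - cos Δ := by
      have := cos_lt_cos_of_nonneg_of_le_pi le_rfl h2.le h0
      rw [cos_zero] at this
      linarith
    have hJ0 : 0 ≤ J := by
      have h5 : 0 ≤ Δ * P * sin Δ := by positivity
      exact nonneg_of_mul_nonneg_right (h5.trans h3) (by linarith)
    have h5 := one_sub_sq_div_two_le_cos (x := Δ)
    have h6 : Δ - Δ ^ 3 / 4 < sin Δ := by
      have := sin_gt_sub_cube h0
      have := pow_pos h0 3
      linarith
    have h7 : Δ * P * (Δ - Δ ^ 3 / 4) ≤ Δ * P * sin Δ :=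
      mul_le_mul_of_nonneg_left h6.le (by positivity)
    have h8 : 2 * (1 - cos Δ) * J ≤ Δ ^ 2 * J := mul_le_mul_of_nonneg_right (by linarith) hJ0
    refine le_of_mul_le_mul_left ?_ (pow_pos h0 2)
    calc Δ ^ 2 * (P * (1 - Δ ^ 2 / 4)) = Δ * P * (Δ - Δ ^ 3 / 4) := by ring
      _ ≤ Δ ^ 2 * J := h7.trans (h3.trans h8)
  have hlim : Tendsto (fun n : ℕ => P * (1 - (2 * π * (1 / ((n + 7 : ℕ) : ℝ))) ^ 2 / 4)) atTop
      (𝓝 (P * (1 - (2 * π * 0) ^ 2 / 4))) := by
    have h1 : Tendsto (fun n : ℕ => 1 / ((n + 7 : ℕ) : ℝ)) atTop (𝓝 0) :=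
      (tendsto_add_atTop_iff_nat (f := fun n : ℕ => 1 / (n : ℝ)) 7).2
        tendsto_one_div_atTop_nhds_zero_nat
    exact ((((h1.const_mul _).pow 2).div_const 4).const_sub 1).const_mul P
  have hPJ : P ≤ J := by
    have := le_of_tendsto' hlim fun n => (key n).2
    simpa using this
  rw [← ENNReal.ofReal_toReal (key 0).1]
  exact ENNReal.ofReal_le_ofReal hPJ

end Pool.Agent.PS
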