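import Pool.Agent.P.MP_6c3c64_gt.Defs

/-! Row G2. An injective `C¹` curve has Hausdorff measure at least its length. For a partition
`a = t 0 < ... < t N = b` the arcs `γ '' Ico (t i) (t (i + 1))` are disjoint and measurable
(differences of compact sets and points, or `MeasurableSet.image_of_continuousOn_injOn`); the
1-Lipschitz map `y ↦ dist y (γ (t i))` sends arc `i` onto a set containing
`Ico 0 (dist (γ (t (i + 1))) (γ (t i)))`, so its measure is at least the chord; and the chord is at
least `∫ ‖γ'‖ - 2 η (t (i + 1) - t i)` on the subinterval by uniform continuity of `γ'`.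
-/

set_option autoImplicit false

open Real BoundedContinuousFunction MeasureTheory Set Filter Topology
open scoped NNReal ENNReal

noncomputable section

namespace Pool.Agent.PS

theorem G2_chord {γ : ℝ → ℂ} (hγ : Continuous γ) {c d : ℝ} (hcd : c ≤ d) :
    ENNReal.ofReal ‖γ d - γ c‖ ≤ Measure.hausdorffMeasure 1 (γ '' Ico c d) := by
  have hL : LipschitzWith 1 fun y : ℂ => dist y (γ c) := LipschitzWith.dist_left (γ c)
  have h1 := hL.hausdorffMeasure_image_le (d := 1) zero_le_one (γ '' Ico c d)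
  have h2 := intermediate_value_Ico hcd (f := fun s => dist (γ s) (γ c))
    (hγ.dist continuous_const).continuousOn
  rw [image_image, hausdorffMeasure_real] at h1
  have h3 := measure_mono (μ := volume) h2
  simp only [dist_self, Real.volume_Ico, sub_zero] at h3
  rw [← dist_eq_norm]
  simpa using h3.trans h1

theorem G2_int {γ γ' : ℝ → ℂ} (hγ : ∀ s, HasDerivAt γ (γ' s) s) (hc : Continuous γ') {c d η : ℝ}
    (hcd : c ≤ d) (h : ∀ s ∈ Icc c d, ‖γ' s - γ' c‖ ≤ η) :
    (∫ s in c..d, ‖γ' s‖) - 2 * η * (d - c) ≤ ‖γ d - γ c‖ := by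
  have e1 : ∫ s in c..d, γ' s = γ d - γ c :=
    intervalIntegral.integral_eq_sub_of_hasDerivAt (fun s _ => hγ s) (hc.intervalIntegrable _ _)
  have e2 : ∫ s in c..d, (γ' s - γ' c) = γ d - γ c - (d - c) • γ' c := by
    rw [intervalIntegral.integral_sub (hc.intervalIntegrable _ _) intervalIntegrable_const, e1,
      intervalIntegral.integral_const]
  have e3 : ‖∫ s in c..d, (γ' s - γ' c)‖ ≤ η * |d - c| :=
    intervalIntegral.norm_integral_le_of_norm_le_const fun s hs => by
      rw [uIoc_of_le hcd] at hs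
      exact h s ⟨hs.1.le, hs.2⟩
  have e4 : ∫ s in c..d, ‖γ' s‖ ≤ ∫ _ in c..d, (‖γ' c‖ + η) := by
    refine intervalIntegral.integral_mono_on hcd (hc.norm.intervalIntegrable _ _)
      intervalIntegrable_const fun s hs => ?_
    have := norm_le_norm_add_norm_sub' (γ' s) (γ' c)
    linarith [h s hs]
  rw [intervalIntegral.integral_const, smul_eq_mul] at e4
  rw [e2, abs_of_nonneg (sub_nonneg.2 hcd)] at e3
  have e5 : ‖(d - c) • γ' c‖ = (d - c) * ‖γ' c‖ := by
    rw [norm_smul, Real.norm_of_nonneg (sub_nonneg.2 hcd)]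
  have e6 := norm_sub_norm_le ((d - c) • γ' c) (γ d - γ c)
  rw [norm_sub_rev ((d - c) • γ' c)] at e6
  nlinarith

theorem G2_add {γ : ℝ → ℂ} (hγ : Continuous γ) {a b x y : ℝ} (hi : InjOn γ (Ico a b))
    (hax : a ≤ x) (hxy : x ≤ y) (hyb : y ≤ b) :
    Measure.hausdorffMeasure 1 (γ '' Ico a y) =
      Measure.hausdorffMeasure 1 (γ '' Ico a x) + Measure.hausdorffMeasure 1 (γ '' Ico x y) := by
  have s1 : Ico a x ⊆ Ico a b := Ico_subset_Ico_right (hxy.trans hyb)
  have s2 : Ico x y ⊆ Ico a b := Ico_subset_Ico hax hyb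
  rw [← Ico_union_Ico_eq_Ico hax hxy, image_union, measure_union]
  · exact Set.disjoint_image_image fun s hs t ht h =>
      absurd (hi (s1 hs) (s2 ht) h) (ne_of_lt (hs.2.trans_le ht.1))
  · exact measurableSet_Ico.image_of_continuousOn_injOn hγ.continuousOn (hi.mono s2)

theorem G2_eta {γ γ' : ℝ → ℂ} {a b : ℝ} (hab : a ≤ b) (hγ : ∀ s, HasDerivAt γ (γ' s) s)
    (hc : Continuous γ') (hi : InjOn γ (Ico a b)) {η : ℝ} (hη : 0 < η) :
    ENNReal.ofReal ((∫ s in a..b, ‖γ' s‖) - 2 * η * (b - a)) ≤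
      Measure.hausdorffMeasure 1 (γ '' Ico a b) := by
  have hγc : Continuous γ := continuous_iff_continuousAt.2 fun s => (hγ s).continuousAt
  obtain ⟨δ, hδ, hu⟩ := Metric.uniformContinuousOn_iff_le.1
    ((isCompact_Icc (a := a) (b := b)).uniformContinuousOn_of_continuous hc.continuousOn) η hη
  have key : ∀ n : ℕ, ∀ y, a ≤ y → y ≤ b → y ≤ a + n * δ →
      ENNReal.ofReal ((∫ s in a..y, ‖γ' s‖) - 2 * η * (y - a)) ≤
        Measure.hausdorffMeasure 1 (γ '' Ico a y) := by
    intro n
    induction n with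
    | zero =>
      intro y h1 _ h3
      have : y = a := le_antisymm (by simpa using h3) h1
      simp [this]
    | succ n ih =>
      intro y h1 h2 h3
      set x := max a (y - δ) with hx
      have hax : a ≤ x := le_max_left _ _
      have hxy : x ≤ y := max_le h1 (by linarith)
      have hx2 : y - δ ≤ x := le_max_right _ _
      have hn : (0:ℝ) ≤ n * δ := by positivity
      have hxn : x ≤ a + n * δ := max_le (by linarith) (by push_cast at h3; linarith)
      have i1 := ih x hax (hxy.trans h2) hxn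
      have i2 := G2_int hγ hc hxy (η := η) fun s hs => by
        rw [← dist_eq_norm]
        refine hu s ⟨hax.trans hs.1, hs.2.trans h2⟩ x ⟨hax, hxy.trans h2⟩ ?_
        rw [Real.dist_eq, abs_of_nonneg (sub_nonneg.2 hs.1)]
        linarith [hs.2]
      have i3 := (ENNReal.ofReal_le_ofReal i2).trans (G2_chord hγc hxy)
      rw [G2_add hγc hi hax hxy h2]
      refine le_trans ?_ (add_le_add i1 i3)
      refine le_trans (le_of_eq ?_) ENNReal.ofReal_add_le
      rw [← intervalIntegral.integral_add_adjacent_intervals (b := x)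
        (hc.norm.intervalIntegrable _ _) (hc.norm.intervalIntegrable _ _)]
      congr 1
      ring
  obtain ⟨n, hn⟩ := exists_nat_ge ((b - a) / δ)
  exact key n b hab le_rfl (by rw [div_le_iff₀ hδ] at hn; linarith)

theorem length_le_hausdorff (γ γ' : ℝ → ℂ) (a b : ℝ) (hab : a ≤ b)
    (hγ : ∀ s, HasDerivAt γ (γ' s) s) (hc : Continuous γ') (hi : InjOn γ (Ico a b)) :
    ENNReal.ofReal (∫ s in a..b, ‖γ' s‖) ≤ Measure.hausdorffMeasure 1 (γ '' Ico a b) := by
  have ht : Tendsto (fun η : ℝ => ENNReal.ofReal ((∫ s in a..b, ‖γ' s‖) - 2 * η * (b - a)))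
      (𝓝[>] 0) (𝓝 (ENNReal.ofReal ((∫ s in a..b, ‖γ' s‖) - 2 * 0 * (b - a)))) := by
    refine tendsto_nhdsWithin_of_tendsto_nhds (ENNReal.tendsto_ofReal ?_)
    exact Continuous.tendsto (f := fun η : ℝ => (∫ s in a..b, ‖γ' s‖) - 2 * η * (b - a))
      (by fun_prop) 0
  simp only [mul_zero, zero_mul, sub_zero] at ht
  refine le_of_tendsto ht ?_
  filter_upwards [self_mem_nhdsWithin] with η hη using G2_eta hab hγ hc hi hη

end Pool.Agent.PS
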