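import Pool.Agent.P.MP_6c3c64_gt.G1b

/-! Row G3. A closed plane curve `P` with conormal `W`. The number `W ψ * exp (-i ψ)` is, up to a
positive factor, the product of `W * conj P` and `P * exp (-i ψ)`, both with positive real part,
so it lies in the slit plane and `θ ψ = ψ + arg (W ψ * exp (-i ψ))` is differentiable (use
`Complex.log`), `W = ‖W‖ exp (i θ)`, `θ (ψ + 2 π) = θ ψ + 2 π`, `θ' = im (conj W * W') / ‖W‖ ^ 2 ≥ 0`.
Also `P' = i s exp (i θ)` with `s > 0`. (a) reduce to `ψ2 ≤ ψ1 ≤ ψ2 + 2 π`; the derivative of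
`ψ ↦ re (P ψ * conj (W ψ2))` is `‖W ψ2‖ s sin (θ ψ2 - θ ψ)`, nonpositive until `θ ψ = θ ψ2 + π` and
nonnegative afterwards. (b) `supp C (θ ψ) ≤ h ψ / ‖W ψ‖` and the change of variables
`intervalIntegral.integral_comp_mul_deriv`, with `periodic_supp`. (c) the derivative of
`im (P exp (-i θ))` is `s - θ' / ‖W‖`, and `s = ‖P'‖`.
-/

set_option autoImplicit false

open Real BoundedContinuousFunction MeasureTheory Set Filter Topology
open scoped NNReal ENNReal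

noncomputable section

namespace Pool.Agent.PS

/-- unit vector of angle `-x` -/
def G3e (x : ℝ) : ℂ := Complex.exp (-(Complex.I * x))

theorem G3e_add (x y : ℝ) : G3e (x + y) = G3e x * G3e y := by
  unfold G3e
  rw [← Complex.exp_add]
  congr 1
  push_cast
  ring

theorem G3e_eq (x : ℝ) : G3e x = Complex.exp (((-x : ℝ) : ℂ) * Complex.I) := by
  unfold G3e
  congr 1
  push_cast
  ring

theorem G3e_re (x : ℝ) : (G3e x).re = cos x := by
  rw [G3e_eq, Complex.exp_ofReal_mul_I_re, cos_neg]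

theorem G3e_im (x : ℝ) : (G3e x).im = -sin x := by
  rw [G3e_eq, Complex.exp_ofReal_mul_I_im, sin_neg]

theorem G3e_norm (x : ℝ) : ‖G3e x‖ = 1 := by
  rw [G3e_eq, Complex.norm_exp_ofReal_mul_I]

theorem G3e_conj (x : ℝ) : (starRingEnd ℂ) (G3e x) * G3e x = 1 := by
  rw [Complex.conj_mul', G3e_norm]
  norm_num

theorem G3e_per (x : ℝ) : G3e (x + 2 * π) = G3e x := by
  apply Complex.ext
  · rw [G3e_re, G3e_re, cos_add_two_pi]
  · rw [G3e_im, G3e_im, sin_add_two_pi]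

theorem G3e_deriv {θ : ℝ → ℝ} {d x : ℝ} (h : HasDerivAt θ d x) :
    HasDerivAt (fun y => G3e (θ y)) (G3e (θ x) * (-(Complex.I * d))) x :=
  (h.ofReal_comp.const_mul Complex.I).neg.cexp

theorem G3_re {f : ℝ → ℂ} {d : ℂ} {x : ℝ} (h : HasDerivAt f d x) :
    HasDerivAt (fun y => (f y).re) d.re x :=
  Complex.reCLM.hasFDerivAt.comp_hasDerivAt x h

theorem G3_im {f : ℝ → ℂ} {d : ℂ} {x : ℝ} (h : HasDerivAt f d x) :
    HasDerivAt (fun y => (f y).im) d.im x :=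
  Complex.imCLM.hasFDerivAt.comp_hasDerivAt x h

theorem G3_angle (P W W' : ℝ → ℂ) (hW : ∀ ψ, HasDerivAt W (W' ψ) ψ)
    (pW : Function.Periodic W (2 * π)) (h1 : ∀ ψ, (P ψ * (starRingEnd ℂ) (W ψ)).re = 1)
    (h3 : ∀ ψ : ℝ, 0 < (P ψ * G3e ψ).re) :
    ∃ θ : ℝ → ℝ, (∀ ψ, HasDerivAt θ (((starRingEnd ℂ) (W ψ) * W' ψ).im / ‖W ψ‖ ^ 2) ψ) ∧
      (∀ ψ, θ (ψ + 2 * π) = θ ψ + 2 * π) ∧
      ∀ ψ, (starRingEnd ℂ) (W ψ) = (‖W ψ‖ : ℝ) * G3e (θ ψ) := by
  have hc : ∀ ψ, (starRingEnd ℂ) (W ψ) = (starRingEnd ℂ) (W ψ * G3e ψ) * G3e ψ := by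
    intro ψ
    rw [map_mul, mul_assoc, G3e_conj, mul_one]
  have hs : ∀ ψ, W ψ * G3e ψ ∈ Complex.slitPlane := by
    intro ψ
    by_contra hn
    rw [Complex.mem_slitPlane_iff, not_or, not_lt, not_not] at hn
    have e1 : (starRingEnd ℂ) (W ψ * G3e ψ) = ((W ψ * G3e ψ).re : ℝ) := by
      apply Complex.ext
      · rw [Complex.conj_re, Complex.ofReal_re]
      · rw [Complex.conj_im, Complex.ofReal_im, hn.2, neg_zero]
    have e2 := h1 ψ
    rw [hc, e1, mul_left_comm, Complex.re_ofReal_mul] at e2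
    nlinarith [h3 ψ, hn.1]
  refine ⟨fun ψ => ψ + (Complex.log (W ψ * G3e ψ)).im, fun ψ => ?_, fun ψ => ?_, fun ψ => ?_⟩
  · have hZ := (hW ψ).mul (G3e_deriv (hasDerivAt_id ψ))
    have hL := (hasDerivAt_id ψ).add (G3_im (hZ.clog_real (hs ψ)))
    have hne := Complex.slitPlane_ne_zero (hs ψ)
    have hW0 : W ψ ≠ 0 := left_ne_zero_of_mul hne
    have he0 : G3e ψ ≠ 0 := right_ne_zero_of_mul hne
    have hcW : (starRingEnd ℂ) (W ψ) ≠ 0 := (map_ne_zero _).2 hW0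
    have e1 : (W' ψ * G3e ψ + W ψ * (G3e ψ * -(Complex.I * (1 : ℝ)))) / (W ψ * G3e ψ) =
        (starRingEnd ℂ) (W ψ) * W' ψ / ((‖W ψ‖ ^ 2 : ℝ) : ℂ) - Complex.I := by
      rw [Complex.ofReal_pow, ← Complex.conj_mul']
      field_simp
      push_cast
      ring
    have e2 : 1 + ((W' ψ * G3e ψ + W ψ * (G3e ψ * -(Complex.I * (1 : ℝ)))) /
        (W ψ * G3e ψ)).im = ((starRingEnd ℂ) (W ψ) * W' ψ).im / ‖W ψ‖ ^ 2 := by
      rw [e1, Complex.sub_im, Complex.div_ofReal_im, Complex.I_im]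
      ring
    rw [← e2]
    exact hL
  · simp only [pW ψ, G3e_per]
    ring
  · simp only
    have e1 := Complex.norm_mul_exp_arg_mul_I (W ψ * G3e ψ)
    rw [norm_mul, G3e_norm, mul_one] at e1
    rw [G3e_add, Complex.log_im, hc]
    generalize (W ψ * G3e ψ).arg = a at e1 ⊢
    rw [← e1, map_mul, Complex.conj_ofReal, ← Complex.exp_conj, map_mul, Complex.conj_ofReal,
      Complex.conj_I]
    have e2 : G3e a = Complex.exp (a * -Complex.I) := by
      unfold G3e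
      congr 1
      ring
    rw [e2]
    ring

theorem curve_lemma (P W P' W' : ℝ → ℂ) (hP : ∀ ψ, HasDerivAt P (P' ψ) ψ)
    (hW : ∀ ψ, HasDerivAt W (W' ψ) ψ) (cP : Continuous P') (cW : Continuous W')
    (pP : Function.Periodic P (2 * π)) (pW : Function.Periodic W (2 * π))
    (h1 : ∀ ψ, (P ψ * (starRingEnd ℂ) (W ψ)).re = 1)
    (h2 : ∀ ψ, (P' ψ * (starRingEnd ℂ) (W ψ)).re = 0)
    (h3 : ∀ ψ : ℝ, 0 < (P ψ * Complex.exp (-(Complex.I * ψ))).re)
    (h4 : ∀ ψ, 0 ≤ ((starRingEnd ℂ) (W ψ) * W' ψ).im)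
    (h5 : ∀ ψ, 0 < ((starRingEnd ℂ) (P ψ) * P' ψ).im) :
    (∀ ψ1 ψ2, (P ψ1 * (starRingEnd ℂ) (W ψ2)).re ≤ 1) ∧
    (∀ (C : Set ℂ) (h : ℝ → ℝ), IsCompact C → C.Nonempty → Continuous h →
      (∀ ψ, ∀ y ∈ C, (y * (starRingEnd ℂ) (W ψ)).re ≤ h ψ) →
      ∫ θ in (0 : ℝ)..2 * π, supp C θ ≤
        ∫ ψ in (0 : ℝ)..2 * π, h ψ * ((starRingEnd ℂ) (W ψ) * W' ψ).im / ‖W ψ‖ ^ 3) ∧
    ∫ ψ in (0 : ℝ)..2 * π, ((starRingEnd ℂ) (W ψ) * W' ψ).im / ‖W ψ‖ ^ 3 ≤
      ∫ ψ in (0 : ℝ)..2 * π, ‖P' ψ‖ := by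
  obtain ⟨θ, hθ, pθ, hc⟩ := G3_angle P W W' hW pW h1 h3
  have hW0 : ∀ ψ, 0 < ‖W ψ‖ := by
    intro ψ
    refine norm_pos_iff.2 fun h => ?_
    have := h1 ψ
    rw [h] at this
    simp at this
  have hre : ∀ (y : ℂ) ψ, (y * (starRingEnd ℂ) (W ψ)).re = ‖W ψ‖ * (y * G3e (θ ψ)).re := by
    intro y ψ
    rw [hc, mul_left_comm, Complex.re_ofReal_mul]
  have hPe : ∀ ψ, (P ψ * G3e (θ ψ)).re = 1 / ‖W ψ‖ := by
    intro ψ
    rw [eq_div_iff (hW0 ψ).ne', mul_comm, ← hre, h1]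
  obtain ⟨s, hs⟩ : ∃ s : ℝ → ℝ, ∀ ψ, P' ψ * G3e (θ ψ) = (s ψ : ℝ) * Complex.I := by
    refine ⟨fun ψ => (P' ψ * G3e (θ ψ)).im, fun ψ => ?_⟩
    have e1 := h2 ψ
    rw [hre] at e1
    have e2 := (mul_eq_zero.1 e1).resolve_left (hW0 ψ).ne'
    apply Complex.ext
    · rw [e2, Complex.re_ofReal_mul, Complex.I_re, mul_zero]
    · rw [Complex.im_ofReal_mul, Complex.I_im, mul_one]
  have hs0 : ∀ ψ, 0 < s ψ := by
    intro ψ
    have e1 : (starRingEnd ℂ) (P ψ) * P' ψ =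
        (s ψ : ℝ) * ((starRingEnd ℂ) (P ψ * G3e (θ ψ)) * Complex.I) := by
      have := G3e_conj (θ ψ)
      rw [map_mul]
      linear_combination ((starRingEnd ℂ) (P ψ) * (starRingEnd ℂ) (G3e (θ ψ))) * hs ψ -
        (starRingEnd ℂ) (P ψ) * P' ψ * this
    have e2 := h5 ψ
    rw [e1, Complex.im_ofReal_mul, Complex.mul_I_im, Complex.conj_re, hPe] at e2
    exact (pos_iff_pos_of_mul_pos e2).2 (one_div_pos.2 (hW0 ψ))
  have hsn : ∀ ψ, ‖P' ψ‖ = s ψ := by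
    intro ψ
    have e1 := congrArg norm (hs ψ)
    rwa [norm_mul, G3e_norm, mul_one, norm_mul, Complex.norm_I, mul_one, Complex.norm_real,
      Real.norm_eq_abs, abs_of_pos (hs0 ψ)] at e1
  have hd0 : ∀ ψ, 0 ≤ ((starRingEnd ℂ) (W ψ) * W' ψ).im / ‖W ψ‖ ^ 2 := fun ψ =>
    div_nonneg (h4 ψ) (sq_nonneg _)
  have hmono : Monotone θ := monotone_of_hasDerivAt_nonneg hθ hd0
  have cW0 : Continuous W := continuous_iff_continuousAt.2 fun ψ => (hW ψ).continuousAt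
  have cθ : Continuous θ := continuous_iff_continuousAt.2 fun ψ => (hθ ψ).continuousAt
  have cN : Continuous fun ψ => ((starRingEnd ℂ) (W ψ) * W' ψ).im :=
    Complex.continuous_im.comp ((Complex.continuous_conj.comp cW0).mul cW)
  have cd : ∀ n : ℕ, Continuous fun ψ => ((starRingEnd ℂ) (W ψ) * W' ψ).im / ‖W ψ‖ ^ n :=
    fun n => cN.div (cW0.norm.pow n) fun ψ => (pow_pos (hW0 ψ) n).ne'
  refine ⟨fun ψ1 ψ2 => ?_, fun C h hC hne ch hh => ?_, ?_⟩
  · obtain ⟨y, hy, ey⟩ := pP.exists_mem_Ico Real.two_pi_pos ψ1 ψ2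
    rw [ey]
    have hf : ∀ ψ, HasDerivAt (fun ψ => (P ψ * (starRingEnd ℂ) (W ψ2)).re)
        (‖W ψ2‖ * (s ψ * sin (θ ψ2 - θ ψ))) ψ := by
      intro ψ
      have e1 : (P' ψ * (starRingEnd ℂ) (W ψ2)).re = ‖W ψ2‖ * (s ψ * sin (θ ψ2 - θ ψ)) := by
        have e2 : G3e (θ ψ2) = G3e (θ ψ) * G3e (θ ψ2 - θ ψ) := by
          rw [← G3e_add]
          congr 1
          ring
        rw [hre, e2, ← mul_assoc, hs, mul_assoc, Complex.re_ofReal_mul, Complex.I_mul_re, G3e_im,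
          neg_neg]
      rw [← e1]
      exact G3_re ((hP ψ).mul_const _)
    have cf : Continuous fun ψ => (P ψ * (starRingEnd ℂ) (W ψ2)).re :=
      continuous_iff_continuousAt.2 fun ψ => (hf ψ).continuousAt
    rcases le_total (θ y) (θ ψ2 + π) with hle | hle
    · have ha := antitoneOn_of_hasDerivWithinAt_nonpos (convex_Icc ψ2 y) cf.continuousOn
        (fun x _ => (hf x).hasDerivWithinAt) (fun x hx => by
          have hx' := interior_subset hx
          have a1 := hmono hx'.1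
          have a2 := hmono hx'.2
          exact mul_nonpos_of_nonneg_of_nonpos (hW0 _).le (mul_nonpos_of_nonneg_of_nonpos
            (hs0 _).le (sin_nonpos_of_nonpos_of_neg_pi_le (by linarith) (by linarith))))
      have := ha (left_mem_Icc.2 hy.1) (right_mem_Icc.2 hy.1) hy.1
      exact this.trans (h1 ψ2).le
    · have ha := monotoneOn_of_hasDerivWithinAt_nonneg (convex_Icc y (ψ2 + 2 * π))
        cf.continuousOn (fun x _ => (hf x).hasDerivWithinAt) (fun x hx => by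
          have hx' := interior_subset hx
          have a1 := hmono hx'.1
          have a2 := hmono hx'.2
          rw [pθ] at a2
          refine mul_nonneg (hW0 _).le (mul_nonneg (hs0 _).le ?_)
          rw [← sin_add_two_pi]
          exact sin_nonneg_of_nonneg_of_le_pi (by linarith) (by linarith))
      have := ha (left_mem_Icc.2 hy.2.le) (right_mem_Icc.2 hy.2.le) hy.2.le
      simp only [pP ψ2] at this
      exact this.trans (h1 ψ2).le
  · have cs := continuous_supp hC hne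
    have e1 := intervalIntegral.integral_comp_mul_deriv (a := 0) (b := 2 * π)
      (fun x _ => hθ x) (cd 2).continuousOn cs
    have e2 : θ (2 * π) = θ 0 + 2 * π := by simpa using pθ 0
    have e3 := (periodic_supp C).intervalIntegral_add_eq (θ 0) 0
    rw [e2, e3, zero_add] at e1
    rw [← e1]
    refine intervalIntegral.integral_mono_on Real.two_pi_pos.le
      (((cs.comp cθ).mul (cd 2)).intervalIntegrable _ _)
      (((ch.mul cN).div (cW0.norm.pow 3) fun ψ => (pow_pos (hW0 ψ) 3).ne').intervalIntegrable _ _)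
      fun ψ _ => ?_
    have b1 : supp C (θ ψ) ≤ h ψ / ‖W ψ‖ := by
      refine supp_le hne fun y hy => ?_
      have := hh ψ y hy
      rw [hre] at this
      rw [le_div_iff₀ (hW0 ψ), mul_comm]
      exact this
    calc (supp C ∘ θ) ψ * (((starRingEnd ℂ) (W ψ) * W' ψ).im / ‖W ψ‖ ^ 2)
        ≤ h ψ / ‖W ψ‖ * (((starRingEnd ℂ) (W ψ) * W' ψ).im / ‖W ψ‖ ^ 2) :=
          mul_le_mul_of_nonneg_right b1 (hd0 ψ)
      _ = _ := by
          rw [div_mul_div_comm, ← pow_succ']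
  · have hg : ∀ ψ, HasDerivAt (fun ψ => (P ψ * G3e (θ ψ)).im)
        (‖P' ψ‖ - ((starRingEnd ℂ) (W ψ) * W' ψ).im / ‖W ψ‖ ^ 3) ψ := by
      intro ψ
      have e0 := G3_im ((hP ψ).mul (G3e_deriv (hθ ψ)))
      have e1 : (P' ψ * G3e (θ ψ) + P ψ * (G3e (θ ψ) * -(Complex.I *
          ((((starRingEnd ℂ) (W ψ) * W' ψ).im / ‖W ψ‖ ^ 2 : ℝ) : ℂ)))).im =
          ‖P' ψ‖ - ((starRingEnd ℂ) (W ψ) * W' ψ).im / ‖W ψ‖ ^ 3 := by
        generalize ((starRingEnd ℂ) (W ψ) * W' ψ).im = a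
        have e2 : P ψ * (G3e (θ ψ) * -(Complex.I * ((a / ‖W ψ‖ ^ 2 : ℝ) : ℂ))) =
            -(((a / ‖W ψ‖ ^ 2 : ℝ) : ℂ) * (P ψ * G3e (θ ψ) * Complex.I)) := by ring
        rw [hs, e2, Complex.add_im, Complex.neg_im, Complex.im_ofReal_mul, Complex.im_ofReal_mul,
          Complex.mul_I_im, hPe, Complex.I_im, hsn, div_mul_div_comm, ← pow_succ]
        ring
      rw [← e1]
      exact e0
    have e1 := intervalIntegral.integral_eq_sub_of_hasDerivAt (a := 0) (b := 2 * π)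
      (fun x _ => hg x) ((cP.norm.sub (cd 3)).intervalIntegrable _ _)
    have e2 : θ (2 * π) = θ 0 + 2 * π := by simpa using pθ 0
    have e3 : P (2 * π) = P 0 := by simpa using pP 0
    rw [e2, e3, G3e_per, sub_self, intervalIntegral.integral_sub (cP.norm.intervalIntegrable _ _)
      ((cd 3).intervalIntegrable _ _)] at e1
    linarith

end Pool.Agent.PS
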