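import Pool.Agent.P.MP_6c3c64_gt.Circ
import Pool.Agent.P.MP_6c3c64_gt.G0
import Pool.Agent.P.MP_6c3c64_gt.G1b
import Pool.Agent.P.MP_6c3c64_gt.G2
import Pool.Agent.P.MP_6c3c64_gt.G3

/-! Row G4. The body of a good gauge.
`Pvec_mem`: if `sin (φ1 - φ2) ≠ 0` solve `A cos φ i + B sin φ i = sinh (x i)`, write
`(A, B) = a (cos α, sin α)`, so that both points lie on the circle `(a, α)`
(`ψ i = φ i - α`, `xc a (ψ i) = x i`), and use `plane_Pc`, `inner_plane` with `t = 0` and part (a)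
of `curve_lemma`; the remaining pairs follow by continuity in `φ1`.
`Kset_body`: `Kset` is an intersection of closed half spaces; `‖nvec‖ ≤ 6` gives a ball around
zero; a point `X` off the vertical axis is `s • !₂[cos φ, sin φ, sinh x]`, `s > 0`, and
`inner X (nvec φ x) = s * n φ x = ‖X‖ * (n φ x * sech x)`, so `‖X‖ ≤ 2`; for `X` on the axis use
the midpoint of `X` and a small horizontal vector.
`Per_le`: `Per_eq`; if the section `C` at level `t` is nonempty, `perimeter_le` and part (b) with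
`h ψ = 1 - t * Z ψ` bound it by `∮ im (conj W W') / ‖W‖ ^ 3 - t * FF`; part (c),
`length_le_hausdorff`, and `Pc ψ ∈ frontier` of the central section (`(1 + η) • Pc ψ` is outside).
`Kset_asym`: `inner (-Pvec φ x) (nvec (φ + π) (-x)) = n (φ + π) (-x) / n φ x`; apply it twice.
-/

set_option autoImplicit false

open Real BoundedContinuousFunction MeasureTheory Set Filter Topology
open scoped NNReal ENNReal

noncomputable section

namespace Pool.Agent.PS

namespace RJ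

variable (g : RJ)

theorem G4_inner3 (X Y : E3) : inner ℝ X Y = X 0 * Y 0 + X 1 * Y 1 + X 2 * Y 2 := by
  rw [PiLp.inner_apply, Fin.sum_univ_three]
  simp only [RCLike.inner_apply, conj_trivial]
  ring

theorem G4_dir (φ x : ℝ) :
    inner ℝ (!₂[cos φ, sin φ, sinh x] : E3) (g.nvec φ x) = g.n φ x := by
  rw [G4_inner3]
  simp only [nvec, nv, PiLp.toLp_apply, Matrix.cons_val_zero, Matrix.cons_val_one,
    Matrix.cons_val_two, Matrix.head_cons, Matrix.tail_cons]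
  rw [tanh_eq]
  linear_combination (g.n φ x - sinh x * sech x * g.a φ x) * sin_sq_add_cos_sq φ

theorem G4_npos (hg : g.Good) (φ x : ℝ) : 0 < g.n φ x := by
  have h1 := hg.lower φ x
  exact (mul_pos_iff_of_pos_right (sech_pos x)).mp (by linarith)

theorem G4_generic (h : g.IsC2) (hg : g.Good) (φ1 x1 φ2 x2 : ℝ) (hs : sin (φ1 - φ2) ≠ 0) :
    inner ℝ (g.Pvec φ1 x1) (g.nvec φ2 x2) ≤ 1 := by
  obtain ⟨z, hz⟩ : ∃ z : ℂ, z = ⟨(sinh x2 * sin φ1 - sinh x1 * sin φ2) / sin (φ1 - φ2),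
    (sinh x1 * cos φ2 - sinh x2 * cos φ1) / sin (φ1 - φ2)⟩ := ⟨_, rfl⟩
  have hre : ‖z‖ * cos (Complex.arg z) = (sinh x2 * sin φ1 - sinh x1 * sin φ2) / sin (φ1 - φ2) := by
    rw [Complex.norm_mul_cos_arg, hz]
  have him : ‖z‖ * sin (Complex.arg z) = (sinh x1 * cos φ2 - sinh x2 * cos φ1) / sin (φ1 - φ2) := by
    rw [Complex.norm_mul_sin_arg, hz]
  generalize ‖z‖ = a at hre him
  generalize Complex.arg z = α at hre him
  rw [eq_div_iff hs] at hre him
  have h1 : xc a (φ1 - α) = x1 := by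
    rw [xc, ← arsinh_sinh x1]
    congr 1
    refine mul_right_cancel₀ hs ?_
    rw [cos_sub]
    linear_combination cos φ1 * hre + sin φ1 * him - sinh x1 * sin_sub φ1 φ2
  have h2 : xc a (φ2 - α) = x2 := by
    rw [xc, ← arsinh_sinh x2]
    congr 1
    refine mul_right_cancel₀ hs ?_
    rw [cos_sub]
    linear_combination cos φ2 * hre + sin φ2 * him - sinh x2 * sin_sub φ1 φ2
  obtain ⟨Pd, c1, c2, c3, c4, c5, c6, c7, c8, c9, c10, c11⟩ := g.curve_facts h hg a α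
  have h3 := (curve_lemma _ _ _ _ c1 c2 c3 c4 c5 c6 c7 c8 c9 c10 c11).1 (φ1 - α) (φ2 - α)
  have h4 := g.inner_plane a α (φ2 - α) 0 (g.Pc a α (φ1 - α))
  rw [g.plane_Pc, h1, h2, sub_add_cancel, sub_add_cancel, zero_mul, zero_add] at h4
  rw [h4]
  exact h3

theorem Pvec_mem (h : g.IsC2) (hg : g.Good) (φ x : ℝ) : g.Pvec φ x ∈ g.Kset := by
  intro φ2 x2
  by_cases hs : sin (φ - φ2) ≠ 0
  · exact g.G4_generic h hg φ x φ2 x2 hs
  rw [not_ne_iff] at hs
  have hc : cos (φ - φ2) ≠ 0 := by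
    intro h0
    have := sin_sq_add_cos_sq (φ - φ2)
    rw [hs, h0] at this
    norm_num at this
  have hn : Continuous fun p : ℝ × ℝ => g.n p.1 p.2 :=
    continuous_iff_continuousAt.mpr fun p => (h.dn p.1 p.2).continuousAt
  have hn' : Continuous fun t : ℝ => g.n (φ + t) x :=
    hn.comp (f := fun t : ℝ => (φ + t, x)) (by fun_prop)
  have hP : Continuous fun t : ℝ => g.Pvec (φ + t) x := by
    unfold Pvec
    refine (hn'.inv₀ fun t => (g.G4_npos hg _ _).ne').smul ?_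
    fun_prop
  have hF : Continuous fun t : ℝ => inner ℝ (g.Pvec (φ + t) x) (g.nvec φ2 x2) :=
    hP.inner continuous_const
  have ht := (hF.tendsto 0).mono_left (nhdsWithin_le_nhds (s := Ioi 0))
  rw [add_zero] at ht
  refine le_of_tendsto ht ?_
  filter_upwards [Ioo_mem_nhdsGT pi_pos] with t ht
  refine g.G4_generic h hg _ _ _ _ ?_
  rw [show φ + t - φ2 = (φ - φ2) + t by ring, sin_add, hs, zero_mul, zero_add]
  exact mul_ne_zero hc (sin_pos_of_pos_of_lt_pi ht.1 ht.2).ne'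

theorem G4_norm_nvec (hg : g.Good) (φ x : ℝ) : ‖g.nvec φ x‖ ≤ 6 := by
  refine (pow_le_pow_iff_left₀ (norm_nonneg _) (by norm_num) two_ne_zero).mp ?_
  rw [← real_inner_self_eq_norm_sq, G4_inner3]
  simp only [nvec, nv, PiLp.toLp_apply, Matrix.cons_val_zero, Matrix.cons_val_one,
    Matrix.cons_val_two, Matrix.head_cons, Matrix.tail_cons]
  have h1 := hg.bnu φ x
  have h2 := hg.bb φ x
  have h3 := hg.beta φ x
  generalize g.n φ x - tanh x * g.a φ x = A at h1 ⊢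
  generalize g.b φ x = B at h2 ⊢
  generalize sech x * g.a φ x = C at h3 ⊢
  have e1 : A ^ 2 ≤ 9 := by nlinarith [abs_nonneg A, sq_abs A]
  have e2 : B ^ 2 ≤ 9 := by nlinarith [abs_nonneg B, sq_abs B]
  have e3 : C ^ 2 ≤ 9 := by nlinarith [abs_nonneg C, sq_abs C]
  have e4 : (A * cos φ - B * sin φ) * (A * cos φ - B * sin φ) +
      (A * sin φ + B * cos φ) * (A * sin φ + B * cos φ) + C * C = A ^ 2 + B ^ 2 + C ^ 2 := by
    linear_combination (A ^ 2 + B ^ 2) * sin_sq_add_cos_sq φ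
  rw [e4]
  linarith

theorem G4_ball (hg : g.Good) {X : E3} (hX : ‖X‖ ≤ 1 / 6) : X ∈ g.Kset := by
  intro φ x
  refine (real_inner_le_norm _ _).trans ?_
  nlinarith [g.G4_norm_nvec hg φ x, norm_nonneg X, norm_nonneg (g.nvec φ x)]

theorem G4_convex : Convex ℝ g.Kset := by
  intro X hX Y hY a b ha hb hab φ x
  rw [inner_add_left, real_inner_smul_left, real_inner_smul_left]
  nlinarith [hX φ x, hY φ x]

theorem G4_closed : IsClosed g.Kset := by
  have : g.Kset = ⋂ φ, ⋂ x, {X : E3 | inner ℝ X (g.nvec φ x) ≤ 1} := by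
    ext X; simp only [Kset, mem_ofPred_eq, mem_iInter]
  rw [this]
  exact isClosed_iInter fun φ => isClosed_iInter fun x =>
    isClosed_le (continuous_id.inner continuous_const) continuous_const

theorem G4_bound (hg : g.Good) {X : E3} (hX : X ∈ g.Kset) (h0 : X 0 ≠ 0) : ‖X‖ ≤ 2 := by
  obtain ⟨z, hz⟩ : ∃ z : ℂ, z = ⟨X 0, X 1⟩ := ⟨_, rfl⟩
  have hz0 : 0 < ‖z‖ := norm_pos_iff.mpr fun h => h0 (by
    have := congrArg Complex.re h
    rwa [hz] at this)
  have hre : ‖z‖ * cos (Complex.arg z) = X 0 := by rw [Complex.norm_mul_cos_arg, hz]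
  have him : ‖z‖ * sin (Complex.arg z) = X 1 := by rw [Complex.norm_mul_sin_arg, hz]
  generalize ‖z‖ = s at hre him hz0
  generalize Complex.arg z = φ at hre him
  obtain ⟨x, hx⟩ : ∃ x, s * sinh x = X 2 :=
    ⟨arsinh (X 2 / s), by rw [sinh_arsinh, mul_div_cancel₀ _ hz0.ne']⟩
  have hXe : X = s • (!₂[cos φ, sin φ, sinh x] : E3) := by
    ext i
    fin_cases i
    · simpa using hre.symm
    · simpa using him.symm
    · simpa using hx.symm
  have h1 := hX φ x
  rw [hXe, real_inner_smul_left, G4_dir] at h1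
  have h2 : ‖X‖ ^ 2 = (s * cosh x) ^ 2 := by
    rw [← real_inner_self_eq_norm_sq, G4_inner3, ← hre, ← him, ← hx]
    linear_combination s ^ 2 * sin_sq_add_cos_sq φ - s ^ 2 * cosh_sq x
  have h3 : ‖X‖ = s * cosh x :=
    (pow_left_inj₀ (norm_nonneg _) (mul_pos hz0 (cosh_pos x)).le two_ne_zero).mp h2
  have h4 : cosh x / 2 ≤ g.n φ x := by
    have h5 := mul_le_mul_of_nonneg_right (hg.lower φ x) (cosh_pos x).le
    rw [mul_assoc, sech_mul_cosh, mul_one] at h5
    linarith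
  rw [h3]
  nlinarith [mul_le_mul_of_nonneg_left h4 hz0.le]

theorem Kset_body (hg : g.Good) :
    IsCompact g.Kset ∧ Convex ℝ g.Kset ∧ (0 : E3) ∈ interior g.Kset := by
  refine ⟨?_, g.G4_convex, ?_⟩
  · refine Metric.isCompact_of_isClosed_isBounded g.G4_closed
      (isBounded_iff_forall_norm_le.mpr ⟨5, fun X hX => ?_⟩)
    by_cases h0 : X 0 ≠ 0
    · linarith [g.G4_bound hg hX h0]
    rw [not_ne_iff] at h0
    obtain ⟨e, he⟩ : ∃ e : E3, e = EuclideanSpace.single 0 (1 / 6) := ⟨_, rfl⟩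
    have he1 : ‖e‖ = 1 / 6 := by rw [he]; simp
    have he2 : e 0 = 1 / 6 := by rw [he]; simp
    have hY : (1 / 2 : ℝ) • X + (1 / 2 : ℝ) • e ∈ g.Kset :=
      g.G4_convex hX (g.G4_ball hg he1.le) (by norm_num) (by norm_num) (by norm_num)
    have h1 := g.G4_bound hg hY (by simp [h0, he2])
    have h2 : X = (2 : ℝ) • ((1 / 2 : ℝ) • X + (1 / 2 : ℝ) • e) - e := by module
    rw [h2]
    refine (norm_sub_le _ _).trans ?_
    rw [norm_smul, he1, Real.norm_ofNat]
    linarith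
  · refine mem_interior_iff_mem_nhds.mpr (mem_of_superset (Metric.closedBall_mem_nhds 0
      (by norm_num : (0 : ℝ) < 1 / 6)) fun X hX => g.G4_ball hg ?_)
    rwa [mem_closedBall_zero_iff] at hX

theorem G4_om (a α ψ : ℝ) : om (g.gv a α ψ) (g.gd a α ψ) = (g.gv a α ψ).2.2 *
    (((starRingEnd ℂ) (g.Wc a α ψ) * g.Wd a α ψ).im / ‖g.Wc a α ψ‖ ^ 3) := by
  rw [om, Complex.norm_eq_sqrt_sq_add_sq, mul_div_assoc]
  simp only [Wc, Wd, Complex.mul_im, Complex.conj_re, Complex.conj_im]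
  congr 2
  ring

theorem Per_le (h : g.IsC2) (hg : g.Good) (a α : ℝ) (hF : g.FF a α = 0) (t : ℝ) :
    Per g.Kset (uvec a α) t ≤ Per g.Kset (uvec a α) 0 := by
  have ho := orthonormal_frame a α
  obtain ⟨hK, hc, -⟩ := g.Kset_body hg
  rw [Per_eq ho t g.G4_closed, Per_eq ho 0 g.G4_closed]
  rcases (plane (f1vec a α) (f2vec α) (uvec a α) t ⁻¹' g.Kset).eq_empty_or_nonempty with he | he
  · rw [he, frontier_empty, measure_empty]
    exact zero_le
  obtain ⟨Pd, c1, c2, c3, c4, c5, c6, c7, c8, c9, c10, c11⟩ := g.curve_facts h hg a α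
  obtain ⟨-, d2, d3⟩ := curve_lemma _ _ _ _ c1 c2 c3 c4 c5 c6 c7 c8 c9 c10 c11
  have hgv : Continuous (g.gv a α) :=
    continuous_iff_continuousAt.mpr fun ψ => (g.hasDerivAt_gv h a α ψ).continuousAt
  have hW : Continuous (g.Wc a α) :=
    continuous_iff_continuousAt.mpr fun ψ => (c2 ψ).continuousAt
  have hW0 : ∀ ψ, ‖g.Wc a α ψ‖ ^ 3 ≠ 0 := by
    intro ψ
    refine pow_ne_zero _ (norm_ne_zero_iff.mpr fun h0 => ?_)
    have := c7 ψ
    rw [h0] at this
    simp at this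
  have hq : Continuous fun ψ =>
      ((starRingEnd ℂ) (g.Wc a α ψ) * g.Wd a α ψ).im / ‖g.Wc a α ψ‖ ^ 3 :=
    (Complex.continuous_im.comp ((Complex.continuous_conj.comp hW).mul c4)).div
      (hW.norm.pow 3) hW0
  have hZ : Continuous fun ψ => (g.gv a α ψ).2.2 := hgv.snd.snd
  have e1 := d2 _ (fun ψ => 1 - t * (g.gv a α ψ).2.2) (isCompact_section ho t hK) he
    (continuous_const.sub (continuous_const.mul hZ)) (fun ψ y hy => by
      have h1 := hy (ψ + α) (xc a ψ)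
      rw [g.inner_plane] at h1
      linarith)
  have e2 : ∫ ψ in (0 : ℝ)..2 * π, (1 - t * (g.gv a α ψ).2.2) *
      ((starRingEnd ℂ) (g.Wc a α ψ) * g.Wd a α ψ).im / ‖g.Wc a α ψ‖ ^ 3 =
      ∫ ψ in (0 : ℝ)..2 * π,
        ((starRingEnd ℂ) (g.Wc a α ψ) * g.Wd a α ψ).im / ‖g.Wc a α ψ‖ ^ 3 := by
    have e3 : ∀ ψ, (1 - t * (g.gv a α ψ).2.2) *
        ((starRingEnd ℂ) (g.Wc a α ψ) * g.Wd a α ψ).im / ‖g.Wc a α ψ‖ ^ 3 =
        ((starRingEnd ℂ) (g.Wc a α ψ) * g.Wd a α ψ).im / ‖g.Wc a α ψ‖ ^ 3 -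
          t * ((g.gv a α ψ).2.2 *
            (((starRingEnd ℂ) (g.Wc a α ψ) * g.Wd a α ψ).im / ‖g.Wc a α ψ‖ ^ 3)) := by
      intro ψ; ring
    simp only [FF, G4_om] at hF
    simp only [e3]
    have hq2 : Continuous fun ψ => t * ((g.gv a α ψ).2.2 *
        (((starRingEnd ℂ) (g.Wc a α ψ) * g.Wd a α ψ).im / ‖g.Wc a α ψ‖ ^ 3)) :=
      continuous_const.mul (hZ.mul hq)
    rw [intervalIntegral.integral_sub (hq.intervalIntegrable _ _) (hq2.intervalIntegrable _ _),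
      intervalIntegral.integral_const_mul, hF, mul_zero, sub_zero]
  rw [e2] at e1
  refine (perimeter_le _ (isCompact_section ho t hK) (convex_section _ _ _ t hc) he).trans
    ((ENNReal.ofReal_le_ofReal (e1.trans d3)).trans
      ((length_le_hausdorff _ _ 0 (2 * π) two_pi_pos.le c1 c3 (g.injOn_Pc hg a α)).trans
        (measure_mono ?_)))
  rintro _ ⟨ψ, -, rfl⟩
  refine ⟨subset_closure ?_, fun hi => ?_⟩
  · rw [mem_preimage, g.plane_Pc]
    exact g.Pvec_mem h hg _ _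
  · have hm : Continuous fun η : ℝ => ((1 + η : ℝ) : ℂ) * g.Pc a α ψ := by fun_prop
    have ht := (hm.tendsto 0).mono_left (nhdsWithin_le_nhds (s := Ioi 0))
    rw [add_zero, Complex.ofReal_one, one_mul] at ht
    obtain ⟨η, h1, h2⟩ := ((ht.eventually (mem_interior_iff_mem_nhds.mp hi)).and
      self_mem_nhdsWithin).exists
    have h3 := h1 (ψ + α) (xc a ψ)
    rw [g.inner_plane, zero_mul, zero_add, mul_assoc, Complex.re_ofReal_mul, c7] at h3
    have h4 : 0 < η := h2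
    linarith

theorem G4_asym (h : g.IsC2) (hg : g.Good) (hs : ∀ y ∈ g.Kset, -y ∈ g.Kset) (φ x : ℝ) :
    g.n (φ + π) (-x) ≤ g.n φ x := by
  have h1 := hs _ (g.Pvec_mem h hg φ x) (φ + π) (-x)
  have h2 : -g.Pvec φ x = (g.n φ x)⁻¹ • (!₂[cos (φ + π), sin (φ + π), sinh (-x)] : E3) := by
    rw [Pvec, ← smul_neg]
    congr 1
    ext i
    fin_cases i <;> simp
  rw [h2, real_inner_smul_left, G4_dir, inv_mul_le_iff₀ (g.G4_npos hg φ x), mul_one] at h1
  exact h1

theorem Kset_asym (h : g.IsC2) (hg : g.Good) (hs : ∀ y ∈ g.Kset, -y ∈ g.Kset) (φ x : ℝ) :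
    g.n (φ + π) (-x) = g.n φ x := by
  refine le_antisymm (g.G4_asym h hg hs φ x) ?_
  have h1 := g.G4_asym h hg hs (φ + π) (-x)
  rwa [neg_neg, show φ + π + π = φ + 2 * π by ring, h.pn] at h1

end RJ

end Pool.Agent.PS
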