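import Pool.Agent.P.MP_6c3c64_gt.G0
import Pool.Agent.P.MP_6c3c64_gt.G1a

/-! Row G5. Reduction to directions in the open upper hemisphere. `Per_mono`: `exists_frame`,
`Per_eq`, `hausdorff_frontier_mono`. `Per_image`: the set in `Per` is transported by the
similarity; `LinearIsometryEquiv` invariance and `Measure.hausdorffMeasure_smul₀`.
`Per K (-u) (-t) = Per K u t` handles `u 2 < 0`. If `u 2 = 0`, let `ball 0 r ⊆ K ⊆ ball 0 R`, and
for `0 < lam < 1` take a unit vector `u'` with `u' 2 > 0` and a linear isometry `A` with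
`A u = u'`, `‖A x - x‖ ≤ η ‖x‖`, `η R ≤ lam r / 2` (a small rotation in the plane of `u` and the
vertical axis, or a product of two reflections). Then `(1 - lam) • A K ⊆ K` and
`(1 - lam) • A⁻¹ K ⊆ K`, so
`(1 - lam) ^ 2 Per K u t ≤ (1 - lam) Per K u' ((1 - lam) t) ≤ (1 - lam) Per K u' 0 ≤ Per K u 0`;
let `lam → 0` (`ENNReal.le_of_forall_lt_one_mul_le`).
-/

set_option autoImplicit false

open Real BoundedContinuousFunction MeasureTheory Set Filter Topology
open scoped NNReal ENNReal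

noncomputable section

namespace Pool.Agent.PS

theorem Per_mono {K1 K2 : Set E3} (h1 : IsCompact K1) (hc : Convex ℝ K1) (h2 : IsCompact K2)
    (h : K1 ⊆ K2) (u : E3) (hu : ‖u‖ = 1) (t : ℝ) : Per K1 u t ≤ Per K2 u t := by
  obtain ⟨f1, f2, hf⟩ := exists_frame u hu
  rw [Per_eq hf t h1.isClosed, Per_eq hf t h2.isClosed]
  exact hausdorff_frontier_mono _ _ (isCompact_section hf t h1) (convex_section f1 f2 u t hc)
    (isCompact_section hf t h2) (preimage_mono h)

theorem Per_image (K : Set E3) (A : E3 ≃ₗᵢ[ℝ] E3) {c : ℝ} (hc : 0 < c) (u : E3) (t : ℝ) :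
    Per ((fun x => c • A x) '' K) (A u) (c * t) = ENNReal.ofReal c * Per K u t := by
  have hin : ∀ x : E3, inner ℝ (c • A x) (A u) = c * t ↔ inner ℝ x u = t := by
    intro x
    rw [real_inner_smul_left, A.inner_map_map, mul_right_inj' hc.ne']
  have hd : ∀ x y : E3, dist (c • A x) (c • A y) = c * dist x y := by
    intro x y
    rw [dist_smul₀, A.dist_map, Real.norm_of_nonneg hc.le]
  have hinj : Function.Injective fun x : E3 => c • A x :=
    (smul_right_injective E3 hc.ne').comp A.injective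
  have hsurj : ∀ y : E3, ∃ x : E3, c • A x = y := fun y =>
    ⟨A.symm (c⁻¹ • y), by rw [A.apply_symm_apply, smul_inv_smul₀ hc.ne']⟩
  have hmem : ∀ x : E3, c • A x ∈ (fun x => c • A x) '' K ↔ x ∈ K := fun x => hinj.mem_set_image
  have e : {x : E3 | x ∈ (fun x => c • A x) '' K ∧ inner ℝ x (A u) = c * t ∧
      ∀ ε : ℝ, 0 < ε → ∃ y : E3, inner ℝ y (A u) = c * t ∧ dist y x < ε ∧
        y ∉ (fun x => c • A x) '' K} =
      (fun x => c • x) '' (A '' {x : E3 | x ∈ K ∧ inner ℝ x u = t ∧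
        ∀ ε : ℝ, 0 < ε → ∃ y : E3, inner ℝ y u = t ∧ dist y x < ε ∧ y ∉ K}) := by
    rw [image_image]
    ext z
    obtain ⟨x, rfl⟩ := hsurj z
    rw [hinj.mem_set_image]
    simp only [mem_ofPred_eq, hmem, hin]
    refine and_congr_right fun _ => and_congr_right fun _ => ⟨fun h ε hε => ?_, fun h ε hε => ?_⟩
    · obtain ⟨y, h1, h2, h3⟩ := h (c * ε) (mul_pos hc hε)
      obtain ⟨y', rfl⟩ := hsurj y
      rw [hd] at h2
      exact ⟨y', (hin _).1 h1, lt_of_mul_lt_mul_left h2 hc.le, fun h4 => h3 ((hmem _).2 h4)⟩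
    · obtain ⟨y, h1, h2, h3⟩ := h (ε / c) (div_pos hε hc)
      refine ⟨c • A y, (hin _).2 h1, ?_, fun h4 => h3 ((hmem _).1 h4)⟩
      rw [hd]
      exact (lt_div_iff₀' hc).1 h2
  unfold Per
  rw [e, image_smul, Measure.hausdorffMeasure_smul₀ zero_le_one hc.ne', NNReal.rpow_one,
    A.isometry.hausdorffMeasure_image (Or.inl zero_le_one), ENNReal.smul_def, smul_eq_mul,
    ← Real.toNNReal_eq_nnnorm_of_nonneg hc.le]
  rfl

theorem G5_neg (K : Set E3) (u : E3) (t : ℝ) : Per K (-u) (-t) = Per K u t := by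
  simp only [Per, inner_neg_right, neg_inj]

theorem G5_refl (v : E3) (hv : ‖v‖ = 1) :
    ∃ A : E3 ≃ₗᵢ[ℝ] E3, ∀ x, A x = (2 * inner ℝ v x) • v - x := by
  refine ⟨Submodule.reflection (ℝ ∙ v), fun x => ?_⟩
  rw [Submodule.reflection_singleton_apply, hv, two_smul, two_mul, add_smul]
  simp

theorem G5_rot (u : E3) (hu : ‖u‖ = 1) (h0 : u 2 = 0) {η : ℝ} (hη : 0 < η) :
    ∃ A : E3 ≃ₗᵢ[ℝ] E3, 0 < A u 2 ∧ ∀ x, ‖A x - x‖ ≤ η * ‖x‖ := by
  obtain ⟨e, he⟩ : ∃ e : E3, e 2 = 1 := ⟨!₂[0, 0, 1], rfl⟩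
  have hc : ContinuousAt (fun s : ℝ => ‖‖u + s • e‖⁻¹ • (u + s • e) - u‖) 0 := by
    have c1 : ContinuousAt (fun s : ℝ => u + s • e) 0 := by fun_prop
    exact (((c1.norm.inv₀ (by simp [hu])).smul c1).sub continuousAt_const).norm
  have h1 : ∀ᶠ s : ℝ in 𝓝 0, ‖‖u + s • e‖⁻¹ • (u + s • e) - u‖ < min 1 (η / 4) := by
    refine hc.eventually (gt_mem_nhds ?_)
    simp [hu, hη]
  obtain ⟨s, hs, hs0⟩ := ((h1.filter_mono (nhdsWithin_le_nhds (s := Ioi 0))).and
    self_mem_nhdsWithin).exists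
  have hs0' : 0 < s := hs0
  have h2 : (u + s • e) 2 = s := by simp [h0, he]
  have h3 : u + s • e ≠ 0 := by
    intro h
    rw [h] at h2
    exact hs0'.ne (by simpa using h2)
  obtain ⟨w, hw⟩ : ∃ w : E3, w = ‖u + s • e‖⁻¹ • (u + s • e) := ⟨_, rfl⟩
  rw [← hw] at hs
  have hw1 : ‖w‖ = 1 := by rw [hw]; exact norm_smul_inv_norm h3
  have hw2 : 0 < w 2 := by
    rw [hw, PiLp.smul_apply, h2, smul_eq_mul]
    exact mul_pos (inv_pos.2 (norm_pos_iff.2 h3)) hs0'
  have hw3 : 0 < inner ℝ w u := by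
    have h4 := abs_real_inner_le_norm (w - u) u
    rw [inner_sub_left, real_inner_self_eq_norm_sq, hu, mul_one] at h4
    have h5 := (abs_le.1 h4).1
    have h6 := hs.trans_le (min_le_left _ _)
    linarith
  obtain ⟨A, hA⟩ := G5_refl u hu
  obtain ⟨B, hB⟩ := G5_refl w hw1
  have hAA : ∀ x, (2 * inner ℝ u (A x)) • u - A x = x := by
    intro x
    rw [hA, inner_sub_right, real_inner_smul_right, real_inner_self_eq_norm_sq, hu]
    module
  refine ⟨A.trans B, ?_, fun x => ?_⟩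
  · have h4 : A u = u := by
      rw [hA, real_inner_self_eq_norm_sq, hu]
      module
    rw [LinearIsometryEquiv.trans_apply, h4, hB, PiLp.sub_apply, PiLp.smul_apply, h0, smul_eq_mul,
      sub_zero]
    positivity
  · have h4 : B (A x) - x =
        (2 * inner ℝ (w - u) (A x)) • w + (2 * inner ℝ u (A x)) • (w - u) := by
      rw [hB, inner_sub_left]
      conv_lhs => enter [2]; rw [← hAA x]
      module
    have h5 := abs_real_inner_le_norm (w - u) (A x)
    have h6 := abs_real_inner_le_norm u (A x)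
    rw [A.norm_map] at h5 h6
    rw [hu, one_mul] at h6
    have h7 := (hs.trans_le (min_le_right _ _)).le
    rw [LinearIsometryEquiv.trans_apply, h4]
    refine (norm_add_le _ _).trans ?_
    rw [norm_smul, norm_smul, hw1, Real.norm_eq_abs, Real.norm_eq_abs, abs_mul, abs_mul, abs_two]
    nlinarith [mul_le_mul_of_nonneg_right h6 (norm_nonneg (w - u)),
      mul_le_mul_of_nonneg_right h7 (norm_nonneg x)]

theorem G5_sub {K : Set E3} (hc : Convex ℝ K) {r R η c : ℝ} (hr : Metric.closedBall 0 r ⊆ K)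
    (hR : K ⊆ Metric.closedBall 0 R) (hc0 : 0 < c) (hc1 : c < 1) (hη : 0 ≤ η)
    (h : η * R ≤ (1 - c) * r) (A : E3 → E3) (hA : ∀ x, ‖A x - x‖ ≤ η * ‖x‖) :
    (fun x => c • A x) '' K ⊆ K := by
  rintro _ ⟨x, hx, rfl⟩
  have h1 : 0 < 1 - c := by linarith
  have h2 : (c / (1 - c)) • (A x - x) ∈ K := by
    refine hr (mem_closedBall_zero_iff.2 ?_)
    have h3 : ‖A x - x‖ ≤ (1 - c) * r :=
      (hA x).trans ((mul_le_mul_of_nonneg_left (mem_closedBall_zero_iff.1 (hR hx)) hη).trans h)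
    rw [norm_smul, Real.norm_of_nonneg (div_pos hc0 h1).le, div_mul_eq_mul_div, div_le_iff₀ h1]
    nlinarith [norm_nonneg (A x - x)]
  have h3 := hc hx h2 hc0.le h1.le (by ring)
  rw [smul_smul, mul_div_cancel₀ _ h1.ne', ← smul_add, add_sub_cancel] at h3
  exact h3

theorem G5_le {K : Set E3} (h1 : IsCompact K) (hc : Convex ℝ K) (A : E3 ≃ₗᵢ[ℝ] E3) {c : ℝ}
    (hc0 : 0 < c) (h : (fun x => c • A x) '' K ⊆ K) (u : E3) (hu : ‖u‖ = 1) (t : ℝ) :
    ENNReal.ofReal c * Per K u t ≤ Per K (A u) (c * t) := by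
  rw [← Per_image K A hc0]
  refine Per_mono (h1.image (by fun_prop)) (hc.is_linear_image ⟨fun x y => ?_, fun a x => ?_⟩) h1
    h _ (by rw [A.norm_map, hu]) _
  · rw [map_add, smul_add]
  · rw [map_smul, smul_comm]

theorem Per_all (K : Set E3) (h1 : IsCompact K) (hc : Convex ℝ K) (h0 : (0 : E3) ∈ interior K)
    (h : ∀ u : E3, ‖u‖ = 1 → 0 < u 2 → ∀ t, Per K u t ≤ Per K u 0) (u : E3) (hu : ‖u‖ = 1)
    (t : ℝ) : Per K u t ≤ Per K u 0 := by
  rcases lt_trichotomy (u 2) 0 with hlt | heq | hgt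
  · have h2 := h (-u) (by rw [norm_neg, hu]) (by simpa using hlt) (-t)
    rw [G5_neg, ← neg_zero, G5_neg] at h2
    exact h2
  · obtain ⟨r, hr0, hr⟩ := Metric.nhds_basis_closedBall.mem_iff.1 (mem_interior_iff_mem_nhds.1 h0)
    obtain ⟨R, hR0, hR⟩ := h1.isBounded.subset_closedBall_lt 0 (0 : E3)
    have key : ∀ c : ℝ, 0 < c → c < 1 → ENNReal.ofReal (c * c) * Per K u t ≤ Per K u 0 := by
      intro c hc0 hc1
      have hη : 0 < (1 - c) * r / R := div_pos (mul_pos (by linarith) hr0) hR0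
      obtain ⟨A, hA, hA2⟩ := G5_rot u hu heq hη
      have hη2 : (1 - c) * r / R * R ≤ (1 - c) * r := (div_mul_cancel₀ _ hR0.ne').le
      have hA3 : ∀ x, ‖A.symm x - x‖ ≤ (1 - c) * r / R * ‖x‖ := by
        intro x
        rw [← A.norm_map, map_sub, A.apply_symm_apply, norm_sub_rev]
        exact hA2 x
      have hu' : ‖A u‖ = 1 := by rw [A.norm_map, hu]
      have e1 := G5_le h1 hc A hc0 (G5_sub hc hr hR hc0 hc1 hη.le hη2 A hA2) u hu t
      have e2 := G5_le h1 hc A.symm hc0 (G5_sub hc hr hR hc0 hc1 hη.le hη2 A.symm hA3) _ hu' 0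
      rw [A.symm_apply_apply, mul_zero] at e2
      rw [ENNReal.ofReal_mul hc0.le, mul_assoc]
      exact (mul_le_mul_right (e1.trans (h _ hu' hA _)) _).trans e2
    have ht : Tendsto (fun c : ℝ => ENNReal.ofReal (c * c) * Per K u t) (𝓝[<] 1)
        (𝓝 (ENNReal.ofReal (1 * 1) * Per K u t)) :=
      ENNReal.Tendsto.mul_const
        (((ENNReal.continuous_ofReal.comp (continuous_id.mul continuous_id)).tendsto 1).mono_left
          nhdsWithin_le_nhds) (Or.inl (by simp))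
    rw [mul_one, ENNReal.ofReal_one, one_mul] at ht
    refine le_of_tendsto ht ?_
    filter_upwards [Ioo_mem_nhdsLT (zero_lt_one' ℝ)] with c hc'
    exact key c hc'.1 hc'.2
  · exact h u hu hgt t

end Pool.Agent.PS
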