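import Pool.Agent.P.MP_6c3c64_gt.GDefs

/-! Elementary properties of admissible profiles. -/

set_option autoImplicit false

namespace Pool.Agent.MMO

open Set MeasureTheory Filter Topology
open scoped ContDiff

variable {L κ : ℝ} {V : ℝ → ℝ}

theorem gadm_sqrt_pos (t : ℝ) : 0 < √(1 + t ^ 2) := Real.sqrt_pos.2 (by positivity)

theorem gadm_sq_sqrt (t : ℝ) : √(1 + t ^ 2) ^ 2 = 1 + t ^ 2 := Real.sq_sqrt (by positivity)

theorem gadm_d1 (t : ℝ) : HasDerivAt (fun t : ℝ => √(1 + t ^ 2)) (t / √(1 + t ^ 2)) t := by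
  have h : HasDerivAt (fun t : ℝ => 1 + t ^ 2) (2 * t) t := by
    simpa using (hasDerivAt_pow 2 t).const_add 1
  refine (h.sqrt (by positivity)).congr_deriv ?_
  have := gadm_sqrt_pos t
  field_simp

theorem gadm_d2 (t : ℝ) :
    HasDerivAt (fun t : ℝ => t / √(1 + t ^ 2)) (1 / √(1 + t ^ 2) ^ 3) t := by
  have h0 := gadm_sqrt_pos t
  refine ((hasDerivAt_id' t).fun_div (gadm_d1 t) h0.ne').congr_deriv ?_
  have h := gadm_sq_sqrt t
  field_simp
  linarith

theorem gadm_eqOn {f g g' : ℝ → ℝ} (hf : Differentiable ℝ f) (hg : ∀ t, HasDerivAt g (g' t) t)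
    (h : EqOn f g (Ici L)) : EqOn (deriv f) g' (Ici L) := fun t ht =>
  (uniqueDiffOn_Ici L t ht).eq_deriv _ (hf t).hasDerivAt.hasDerivWithinAt
    ((hg t).hasDerivWithinAt.congr h (h ht))

theorem Adm.gadm_s1 (h : Adm L κ V) : ContDiff ℝ ∞ (deriv V) :=
  (contDiff_infty_iff_deriv.1 h.smooth).2

theorem Adm.gadm_s2 (h : Adm L κ V) : ContDiff ℝ ∞ (deriv (deriv V)) :=
  (contDiff_infty_iff_deriv.1 h.gadm_s1).2

theorem Adm.gadm_df (h : Adm L κ V) : Differentiable ℝ V := (contDiff_infty_iff_deriv.1 h.smooth).1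

theorem Adm.gadm_df1 (h : Adm L κ V) : Differentiable ℝ (deriv V) :=
  (contDiff_infty_iff_deriv.1 h.gadm_s1).1

theorem Adm.gadm_cap (h : Adm L κ V) {t : ℝ} (ht : L ≤ t) : V t = κ * √(1 + t ^ 2) ∧
    deriv V t = κ * (t / √(1 + t ^ 2)) ∧ deriv (deriv V) t = κ * (1 / √(1 + t ^ 2) ^ 3) := by
  have h0 : EqOn V (fun t => κ * √(1 + t ^ 2)) (Ici L) := fun s hs =>
    h.cap s (le_trans hs (le_abs_self s))
  have h1 := gadm_eqOn h.gadm_df (fun t => (gadm_d1 t).const_mul κ) h0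
  have h2 := gadm_eqOn h.gadm_df1 (fun t => (gadm_d2 t).const_mul κ) h1
  exact ⟨h0 ht, h1 ht, h2 ht⟩

theorem Adm.deriv_neg (h : Adm L κ V) (t : ℝ) : deriv V (-t) = -deriv V t := by
  have := deriv_comp_neg V t
  rw [funext h.even] at this
  linarith

theorem Adm.deriv2_neg (h : Adm L κ V) (t : ℝ) :
    deriv (deriv V) (-t) = deriv (deriv V) t := by
  have := deriv_comp_neg (deriv V) t
  rw [funext h.deriv_neg, deriv.fun_neg] at this
  linarith

theorem Adm.gadm_mono (h : Adm L κ V) : Monotone (deriv V) :=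
  (strictMono_of_deriv_pos h.conv).monotone

theorem Adm.deriv_mem (h : Adm L κ V) (t : ℝ) (ht : 0 ≤ t) : 0 ≤ deriv V t ∧ deriv V t ≤ κ := by
  have h0 : deriv V 0 = 0 := by
    have := h.deriv_neg 0
    rw [neg_zero] at this
    linarith
  refine ⟨h0 ▸ h.gadm_mono ht, (h.gadm_mono (le_max_left t L)).trans ?_⟩
  rw [(h.gadm_cap (le_max_right t L)).2.1]
  refine mul_le_of_le_one_right h.κpos.le ((div_le_one (gadm_sqrt_pos _)).2 ?_)
  exact Real.le_sqrt_of_sq_le (by linarith)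

theorem Adm.gadm_mul_nonneg (h : Adm L κ V) (t : ℝ) : 0 ≤ t * deriv V t := by
  rcases le_total 0 t with ht | ht
  · exact mul_nonneg ht (h.deriv_mem t ht).1
  · have := mul_nonneg (neg_nonneg.2 ht) (h.deriv_mem (-t) (neg_nonneg.2 ht)).1
    rwa [h.deriv_neg, neg_mul_neg] at this

theorem Adm.gadm_dA (h : Adm L κ V) (t : ℝ) :
    HasDerivAt (pA V) (-(t * deriv (deriv V) t)) t := by
  refine ((h.gadm_df t).hasDerivAt.fun_sub
    ((hasDerivAt_id' t).fun_mul (h.gadm_df1 t).hasDerivAt)).congr_deriv ?_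
  ring

theorem Adm.pA_pos (h : Adm L κ V) (t : ℝ) : 0 < pA V t := by
  have anti : AntitoneOn (pA V) (Ici 0) :=
    antitoneOn_of_deriv_nonpos (convex_Ici 0)
      (fun s _ => (h.gadm_dA s).continuousAt.continuousWithinAt)
      (fun s _ => (h.gadm_dA s).differentiableAt.differentiableWithinAt) fun s hs => by
        rw [(h.gadm_dA s).deriv]
        exact neg_nonpos.2 (mul_nonneg (interior_subset hs) (h.conv s).le)
  have key : ∀ s, 0 ≤ s → 0 < pA V s := fun s hs => by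
    refine lt_of_lt_of_le ?_ (anti hs (hs.trans (le_max_left s L)) (le_max_left s L))
    obtain ⟨e0, e1, -⟩ := h.gadm_cap (le_max_right s L)
    have h0 := gadm_sqrt_pos (max s L)
    have e : pA V (max s L) = κ / √(1 + max s L ^ 2) := by
      have := gadm_sq_sqrt (max s L)
      rw [pA, e0, e1]
      field_simp
      rw [this]
      ring
    rw [e]
    exact div_pos h.κpos h0
  rcases le_total 0 t with ht | ht
  · exact key t ht
  · have := key (-t) (neg_nonneg.2 ht)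
    rwa [pA, h.even, h.deriv_neg, neg_mul_neg] at this

theorem Adm.pos (h : Adm L κ V) (t : ℝ) : 0 < V t := by
  have h1 := h.pA_pos t
  have h2 := h.gadm_mul_nonneg t
  rw [pA] at h1
  linarith

theorem Adm.monotoneOn (h : Adm L κ V) : MonotoneOn V (Ici 0) :=
  monotoneOn_of_deriv_nonneg (convex_Ici 0) h.gadm_df.continuous.continuousOn
    h.gadm_df.differentiableOn fun s hs => (h.deriv_mem s (interior_subset hs)).1

theorem Adm.gadm_sA (h : Adm L κ V) : ContDiff ℝ ∞ (pA V) :=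
  h.smooth.sub (contDiff_id.mul h.gadm_s1)

theorem Adm.contDiff_b1 (h : Adm L κ V) : ContDiff ℝ ∞ (b1 V) :=
  h.gadm_sA.div h.smooth fun t => (h.pos t).ne'

theorem Adm.contDiff_b2 (h : Adm L κ V) : ContDiff ℝ ∞ (b2 V) :=
  h.gadm_s2.div h.smooth fun t => (h.pos t).ne'

theorem Adm.contDiff_aa (h : Adm L κ V) : ContDiff ℝ ∞ (aa V) :=
  ((h.gadm_sA.pow 2).add (h.gadm_s1.pow 2)).div (h.smooth.pow 2) fun t =>
    pow_ne_zero 2 (h.pos t).ne'

theorem Adm.b1_pos (h : Adm L κ V) (t : ℝ) : 0 < b1 V t := div_pos (h.pA_pos t) (h.pos t)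

theorem Adm.b2_pos (h : Adm L κ V) (t : ℝ) : 0 < b2 V t := div_pos (h.conv t) (h.pos t)

theorem Adm.b1_le_one (h : Adm L κ V) (t : ℝ) : b1 V t ≤ 1 :=
  (div_le_one (h.pos t)).2 (sub_le_self _ (h.gadm_mul_nonneg t))

theorem Adm.aa_pos (h : Adm L κ V) (t : ℝ) : 0 < aa V t :=
  div_pos (add_pos_of_pos_of_nonneg (pow_pos (h.pA_pos t) 2) (sq_nonneg _)) (pow_pos (h.pos t) 2)

theorem Adm.aa_eq (h : Adm L κ V) (t : ℝ) (ht : t ≠ 0) :
    aa V t = b1 V t ^ 2 + (1 - b1 V t) ^ 2 / t ^ 2 := by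
  have := (h.pos t).ne'
  simp only [aa, b1, pA]
  field_simp
  ring

theorem Adm.le_aa (h : Adm L κ V) (t : ℝ) : 1 / (1 + t ^ 2) ≤ aa V t := by
  rw [aa, div_le_div_iff₀ (by positivity) (pow_pos (h.pos t) 2), pA]
  nlinarith [sq_nonneg (t * (V t - t * deriv V t) - deriv V t)]

theorem Adm.gadm_db1 (h : Adm L κ V) (t : ℝ) :
    HasDerivAt (b1 V) (-(t * b2 V t) - b1 V t * (deriv V t / V t)) t := by
  have := (h.pos t).ne'
  refine ((h.gadm_dA t).fun_div (h.gadm_df t).hasDerivAt this).congr_deriv ?_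
  simp only [b1, b2]
  field_simp

theorem Adm.hasDerivAt_b1 (h : Adm L κ V) (t : ℝ) (ht : t ≠ 0) :
    HasDerivAt (b1 V) (-(t * b2 V t) - b1 V t * (1 - b1 V t) / t) t := by
  have := (h.pos t).ne'
  refine (h.gadm_db1 t).congr_deriv ?_
  simp only [b1, pA]
  field_simp
  ring

theorem Adm.antitoneOn_b1 (h : Adm L κ V) : AntitoneOn (b1 V) (Ici 0) :=
  antitoneOn_of_deriv_nonpos (convex_Ici 0)
    (fun s _ => (h.gadm_db1 s).continuousAt.continuousWithinAt)
    (fun s _ => (h.gadm_db1 s).differentiableAt.differentiableWithinAt) fun s hs => by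
      have hs' : 0 ≤ s := interior_subset hs
      rw [(h.gadm_db1 s).deriv]
      linarith [mul_nonneg hs' (h.b2_pos s).le, mul_nonneg (h.b1_pos s).le
        (div_nonneg (h.deriv_mem s hs').1 (h.pos s).le)]

theorem gadm_coeff {t : ℝ} (hκ : κ ≠ 0) (e0 : V t = κ * √(1 + t ^ 2))
    (e1 : deriv V t = κ * (t / √(1 + t ^ 2)))
    (e2 : deriv (deriv V) t = κ * (1 / √(1 + t ^ 2) ^ 3)) :
    b1 V t = 1 / (1 + t ^ 2) ∧ b2 V t = 1 / (1 + t ^ 2) ^ 2 ∧ aa V t = 1 / (1 + t ^ 2) := by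
  have h0 := (gadm_sqrt_pos t).ne'
  have h1 := gadm_sq_sqrt t
  simp only [b1, b2, aa, pA, e0, e1, e2]
  generalize √(1 + t ^ 2) = r at h0 h1
  rw [← h1]
  refine ⟨?_, ?_, ?_⟩
  · field_simp
    linarith
  · field_simp
  · field_simp
    rw [h1]
    ring

theorem Adm.cap_coeff (h : Adm L κ V) (t : ℝ) (ht : L ≤ t) :
    b1 V t = 1 / (1 + t ^ 2) ∧ b2 V t = 1 / (1 + t ^ 2) ^ 2 ∧ aa V t = 1 / (1 + t ^ 2) :=
  gadm_coeff h.κpos.ne' (h.gadm_cap ht).1 (h.gadm_cap ht).2.1 (h.gadm_cap ht).2.2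

theorem gadm_ball1 : deriv ballP = fun t => t / √(1 + t ^ 2) := funext fun t => (gadm_d1 t).deriv

theorem gadm_ball2 (t : ℝ) : deriv (deriv ballP) t = 1 / √(1 + t ^ 2) ^ 3 := by
  rw [gadm_ball1, (gadm_d2 t).deriv]

theorem adm_ball (hL : 0 < L) : Adm L 1 ballP where
  Lpos := hL
  κpos := one_pos
  smooth := (contDiff_const.add (contDiff_id.pow 2)).sqrt fun t => by
    simp only [id]
    positivity
  even t := by rw [ballP, ballP, neg_sq]
  conv t := by
    rw [gadm_ball2]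
    exact div_pos one_pos (pow_pos (gadm_sqrt_pos t) 3)
  cap t _ := (one_mul _).symm

theorem ball_coeff (t : ℝ) : b1 ballP t = 1 / (1 + t ^ 2) ∧ b2 ballP t = 1 / (1 + t ^ 2) ^ 2 ∧
    aa ballP t = 1 / (1 + t ^ 2) :=
  gadm_coeff one_ne_zero (one_mul _).symm (by rw [gadm_ball1, one_mul])
    (by rw [gadm_ball2, one_mul])

theorem gadm_combo {f g : ℝ → ℝ} (hf : Differentiable ℝ f) (hg : Differentiable ℝ g) (μ : ℝ) :
    deriv (fun t => f t + μ * (g t - f t)) = fun t => deriv f t + μ * (deriv g t - deriv f t) :=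
  funext fun t => ((hf t).hasDerivAt.fun_add
    (((hg t).hasDerivAt.fun_sub (hf t).hasDerivAt).const_mul μ)).deriv

theorem gadm_pos {a b μ : ℝ} (ha : 0 < a) (hb : 0 < b) (hμ : μ ∈ Icc (0 : ℝ) 1) :
    0 < a + μ * (b - a) := by
  rcases le_total a b with h | h
  · exact add_pos_of_pos_of_nonneg ha (mul_nonneg hμ.1 (sub_nonneg.2 h))
  · nlinarith [mul_nonneg (sub_nonneg.2 hμ.2) (sub_nonneg.2 h)]

theorem Adm.combo {κ' : ℝ} {V' : ℝ → ℝ} (h : Adm L κ V) (h' : Adm L κ' V') (μ : ℝ)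
    (hμ : μ ∈ Icc (0 : ℝ) 1) :
    Adm L (κ + μ * (κ' - κ)) (fun t => V t + μ * (V' t - V t)) where
  Lpos := h.Lpos
  κpos := gadm_pos h.κpos h'.κpos hμ
  smooth := h.smooth.add (contDiff_const.mul (h'.smooth.sub h.smooth))
  even t := by rw [h.even, h'.even]
  conv t := by
    rw [gadm_combo h.gadm_df h'.gadm_df, gadm_combo h.gadm_df1 h'.gadm_df1]
    exact gadm_pos (h.conv t) (h'.conv t) hμ
  cap t ht := by
    rw [h.cap t ht, h'.cap t ht]
    ring

end Pool.Agent.MMO
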