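import Pool.Agent.P.MP_6c3c64_gt.GDecay

/-! Convergence of the three functionals. -/

set_option autoImplicit false

namespace Pool.Agent.MMO

open Set MeasureTheory Filter Topology
open scoped ContDiff RealInnerProductSpace

theorem gconv_w {η t : ℝ} (hη : 0 ≤ η) (ht : 0 ≤ t) : η / (1 + t) ^ 2 ≤ η * (1 + t ^ 2)⁻¹ := by
  rw [← div_eq_mul_inv]
  exact div_le_div_of_nonneg_left hη (by positivity) (by nlinarith)

theorem gconv_int {φ ψ : ℝ → ℝ} {T η : ℝ} (hT : 0 ≤ T) (hη : 0 ≤ η)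
    (hφ : ContinuousOn φ (Icc 0 T)) (hψ : ContinuousOn ψ (Icc 0 T))
    (h : ∀ t ∈ Icc 0 T, |φ t - ψ t| ≤ η / (1 + t) ^ 2) :
    |(∫ t in (0 : ℝ)..T, φ t) - ∫ t in (0 : ℝ)..T, ψ t| ≤ 2 * η := by
  rw [← intervalIntegral.integral_sub (hφ.intervalIntegrable_of_Icc hT)
    (hψ.intervalIntegrable_of_Icc hT)]
  have h1 := intervalIntegral.norm_integral_le_of_norm_le (μ := volume) hT
    (f := fun t => φ t - ψ t) (g := fun t => η * (1 + t ^ 2)⁻¹)
    (Eventually.of_forall fun t ht => (h t ⟨ht.1.le, ht.2⟩).trans (gconv_w hη ht.1.le))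
    ((integrable_inv_one_add_sq.const_mul η).intervalIntegrable)
  rw [intervalIntegral.integral_const_mul, integral_inv_one_add_sq, Real.arctan_zero,
    sub_zero] at h1
  have h2 : Real.arctan T ≤ 2 := by linarith [Real.arctan_lt_pi_div_two T, Real.pi_le_four]
  have h3 := mul_le_mul_of_nonneg_left h2 hη
  rw [Real.norm_eq_abs] at h1
  linarith

theorem gconv_tail {φ : ℝ → ℝ} {K η : ℝ} (hη : 0 < η) (hK : 0 ≤ K) (hφ : ContinuousOn φ (Ici 0))
    (h : ∀ t, 0 ≤ t → |φ t| ≤ K / (1 + t) ^ 2) :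
    ∃ T₀, ∀ T, T₀ ≤ T → |(∫ t in (0 : ℝ)..T, φ t) - ∫ t in Ioi (0 : ℝ), φ t| ≤ η := by
  have h1 : IntegrableOn φ (Ioi 0) := by
    refine Integrable.mono' (integrable_inv_one_add_sq.const_mul K).integrableOn
      ((hφ.mono Ioi_subset_Ici_self).aestronglyMeasurable measurableSet_Ioi) ?_
    refine (ae_restrict_iff' measurableSet_Ioi).2 (Eventually.of_forall fun t ht => ?_)
    exact (h t (le_of_lt ht)).trans (gconv_w hK (le_of_lt ht))
  have h2 := intervalIntegral_tendsto_integral_Ioi 0 h1 tendsto_id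
  obtain ⟨T₀, h3⟩ := eventually_atTop.1 (h2.eventually (Metric.closedBall_mem_nhds _ hη))
  exact ⟨T₀, fun T hT => by simpa [Real.dist_eq] using h3 T hT⟩

theorem gconv_pow {K t : ℝ} (hK : 0 ≤ K) (ht : 0 ≤ t) {m n : ℕ} (h : m ≤ n) :
    K / (1 + t) ^ n ≤ K / (1 + t) ^ m :=
  div_le_div_of_nonneg_left hK (by positivity) (pow_le_pow_right₀ (by linarith) h)

theorem gconv_mul {a K t : ℝ} (hK : 0 ≤ K) (ht : 0 ≤ t) (h : |a| ≤ K / (1 + t) ^ 3) :
    |a * t| ≤ K / (1 + t) ^ 2 := by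
  rw [abs_mul, abs_of_nonneg ht]
  refine (mul_le_mul h (le_add_of_nonneg_left zero_le_one) ht (by positivity)).trans
    (le_of_eq ?_)
  field_simp

theorem gconv_sum {a : Fin 3 → ℝ} (i : Fin 3) : a i ≤ ∑ j, |a j| :=
  (le_abs_self _).trans
    (Finset.single_le_sum (f := fun j => |a j|) (fun _ _ => abs_nonneg _) (Finset.mem_univ i))

theorem gconv_decay {t₀ R₁ : ℝ} {H : ℝ → ℝ} (hH : Bump t₀ R₁ H) :
    ∃ K L₀ : ℝ, 0 ≤ K ∧ ∀ L, L₀ ≤ L → ∀ ρ κ V, Near H L ρ κ V → ∀ (i : Fin 3) f,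
      Sol V (Pi.single i 1) f →
      ∀ t ∈ Icc 0 (L - ρ), |gg V f t| ≤ K / (1 + t) ^ 4 ∧ |f t| ≤ K := by
  choose K L₀ h using fun i : Fin 3 => near_decay hH (Pi.single i 1)
  refine ⟨∑ j, |K j|, ∑ j, |L₀ j|, by positivity, fun L hL ρ κ V hN i f hf t ht => ?_⟩
  obtain ⟨h1, h2⟩ := h i L ((gconv_sum i).trans hL) ρ κ V hN f hf t ht
  have := ht.1
  exact ⟨h1.trans (div_le_div_of_nonneg_right (gconv_sum i) (by positivity)),
    h2.trans (gconv_sum i)⟩

theorem gconv_corner {t₀ R₁ : ℝ} {H : ℝ → ℝ} (hH : Bump t₀ R₁ H) {L : ℝ} (hL : 8 ≤ L) :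
    ∃ K : ℝ, 0 ≤ K ∧ ∀ ρ κ V, Near H L ρ κ V → ∀ (i : Fin 3) f,
      Sol V (Pi.single i 1) f → ∀ t ∈ Icc 0 L, |gg V f t| ≤ K := by
  choose K h using fun i : Fin 3 => near_corner hH (Pi.single i 1) L hL
  exact ⟨∑ j, |K j|, by positivity, fun ρ κ V hN i f hf t ht =>
    (h i ρ κ V hN f hf t ht).trans (gconv_sum i)⟩

theorem gconv_dL {L : ℝ} (hL : 1 ≤ L) : dL L ≤ L⁻¹ := by
  refine inv_anti₀ (by linarith) (le_mul_of_one_le_right (by linarith) ?_)
  exact Real.one_le_sqrt.2 hL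

/-- the weighted pointwise convergence -/
theorem gconv_pt {g : Fin 3 → ℝ → ℝ} {K : ℝ} (hc : Cyl g K) (hl : Lim g) {t₀ R₁ : ℝ}
    {H : ℝ → ℝ} (hH : Bump t₀ R₁ H) {η : ℝ} (hη : 0 < η) :
    ∃ L₀ : ℝ, ∀ L, L₀ ≤ L → ∀ ρ κ V, Near H L ρ κ V → ∀ (i : Fin 3) f,
      Sol V (Pi.single i 1) f → ∀ t ∈ Icc 0 (L - ρ),
        |gg V f t - g i t| ≤ η / (1 + t) ^ 3 ∧ |deriv f t - g i t| ≤ 2 * η / (1 + t) ^ 2 := by
  obtain ⟨K', L₁, hK', h1⟩ := gconv_decay hH
  have hR : 0 ≤ (K' + |K|) / η := by positivity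
  obtain ⟨L₂, h2⟩ := hl t₀ R₁ H hH ((K' + |K|) / η) (η / (1 + (K' + |K|) / η) ^ 3)
    (by positivity)
  refine ⟨max (max L₁ L₂) (max 8 (8 * K' / η)), fun L hL ρ κ V hN i f hf t ht => ?_⟩
  simp only [max_le_iff] at hL
  obtain ⟨⟨a1, a2⟩, a3, a4⟩ := hL
  have ht0 := ht.1
  have b1 := (h1 L a1 ρ κ V hN i f hf t ht).1
  have c1 : |gg V f t - g i t| ≤ η / (1 + t) ^ 3 := by
    rcases le_total t ((K' + |K|) / η) with h | h
    · refine (h2 L a2 ρ κ V hN i f hf t ⟨ht0, h⟩).trans ?_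
      exact div_le_div_of_nonneg_left hη.le (by positivity)
        (pow_le_pow_left₀ (by positivity) (by linarith) 3)
    · have b2 := (hc.decay i t ht0).trans
        (div_le_div_of_nonneg_right (le_abs_self K) (by positivity))
      refine (abs_sub _ _).trans ((add_le_add b1 b2).trans ?_)
      rw [← add_div, div_le_div_iff₀ (by positivity) (by positivity)]
      rw [div_le_iff₀ hη] at h
      have b3 : K' + |K| ≤ η * (1 + t) := by nlinarith
      have b4 := mul_le_mul_of_nonneg_right b3 (by positivity : 0 ≤ (1 + t) ^ 3)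
      nlinarith
  refine ⟨c1, ?_⟩
  have d1 := (near_wall hH a3 hN t ht).2.2.2.1
  have d2 := gconv_dL (L := L) (by linarith)
  have d3 : L⁻¹ ≤ 8⁻¹ := inv_anti₀ (by norm_num) a3
  have d4 : 8 * K' * L⁻¹ ≤ η := by
    rw [← div_eq_mul_inv, div_le_iff₀ (by linarith)]
    rw [div_le_iff₀ hη] at a4
    linarith
  have d5 : 1 / 2 ≤ Pool.Agent.MMO.b1 V t := by linarith [(abs_le.1 d1).1]
  have d6 : |deriv f t| ≤ 2 * |gg V f t| := by
    rw [gg, abs_mul, abs_of_nonneg (by linarith : 0 ≤ Pool.Agent.MMO.b1 V t)]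
    nlinarith [abs_nonneg (deriv f t)]
  have d7 : |deriv f t - gg V f t| ≤ η / (1 + t) ^ 4 := by
    have e : deriv f t - gg V f t = -((Pool.Agent.MMO.b1 V t - 1) * deriv f t) := by
      rw [gg]
      ring
    rw [e, abs_neg, abs_mul]
    refine (mul_le_mul (d1.trans (by linarith : 4 * dL L ≤ 4 * L⁻¹))
      (d6.trans (by linarith : 2 * |gg V f t| ≤ 2 * (K' / (1 + t) ^ 4))) (abs_nonneg _)
      (by positivity)).trans ?_
    refine le_of_eq_of_le (b := 8 * K' * L⁻¹ / (1 + t) ^ 4) (by ring) ?_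
    exact div_le_div_of_nonneg_right d4 (by positivity)
  have d8 := gconv_pow hη.le ht0 (m := 2) (n := 3) (by norm_num)
  have d9 := gconv_pow hη.le ht0 (m := 2) (n := 4) (by norm_num)
  refine (abs_sub_le _ (gg V f t) _).trans ?_
  rw [mul_div_assoc]
  linarith

theorem FL_conv {g : Fin 3 → ℝ → ℝ} {K : ℝ} (hc : Cyl g K) (hl : Lim g) {t₀ R₁ : ℝ}
    {H : ℝ → ℝ} (hH : Bump t₀ R₁ H) (θ : ℝ) (hθ : 0 < θ) :
    ∃ L₀ : ℝ, ∀ L, L₀ ≤ L → ∃ ρ₀ : ℝ, 0 < ρ₀ ∧ ∀ ρ κ V, ρ ≤ ρ₀ → Near H L ρ κ V →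
      ∀ f : Fin 3 → ℝ → ℝ, (∀ i, Sol V (Pi.single i 1) (f i)) →
        ∀ k i, |FL V L R₁ H f k i - FI g R₁ H k i| ≤ θ := by
  have hR : 0 ≤ R₁ := hH.pos.le.trans hH.le
  have hH2 : Continuous (deriv (deriv H)) :=
    (hH.smooth.iterate_deriv 2).continuous
  have hC : 0 ≤ ∫ x in (0 : ℝ)..R₁, deriv (deriv H) x :=
    intervalIntegral.integral_nonneg hR fun x _ => hH.conv x
  obtain ⟨C, hCe⟩ : ∃ C, C = ∫ x in (0 : ℝ)..R₁, deriv (deriv H) x := ⟨_, rfl⟩
  rw [← hCe] at hC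
  obtain ⟨η, hη, hηe⟩ : ∃ η, 0 < η ∧ (6 + 4 * C) * η = θ :=
    ⟨θ / (6 + 4 * C), by positivity, by field_simp⟩
  have hCη : 0 ≤ C * η := by positivity
  obtain ⟨L₁, h1⟩ := gconv_pt hc hl hH hη
  have hdec : ∀ i t, 0 ≤ t → |g i t| ≤ |K| / (1 + t) ^ 3 := fun i t ht =>
    ((hc.decay i t ht).trans (div_le_div_of_nonneg_right (le_abs_self K) (by positivity))).trans
      (gconv_pow (abs_nonneg K) ht (by norm_num))
  choose T₀ hT₀ using fun i => gconv_tail hη (abs_nonneg K) (hc.cont i) fun t ht =>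
    (hdec i t ht).trans (gconv_pow (abs_nonneg K) ht (by norm_num))
  choose T₁ hT₁ using fun i => gconv_tail (φ := fun t => g i t * t) hη (abs_nonneg K)
    ((hc.cont i).mul continuousOn_id) fun t ht => gconv_mul (abs_nonneg K) ht (hdec i t ht)
  refine ⟨max (max L₁ 8) (max (R₁ + 1) (max (∑ j, |T₀ j| + 1) (2 * ∑ j, |T₁ j|))),
    fun L hL => ?_⟩
  simp only [max_le_iff] at hL
  obtain ⟨⟨a1, a2⟩, a3, a4, a5⟩ := hL
  obtain ⟨K', hK', h2⟩ := gconv_corner hH a2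
  refine ⟨η / ((1 + L ^ 2) * K' + 1), by positivity, fun ρ κ V hρ hN f hf k i => ?_⟩
  have hρ0 := hN.2.1
  have hρ1 := hN.2.2.1
  have hf1 := (hf i).smooth
  have hd : Continuous (deriv (f i)) := hf1.continuous_deriv le_rfl
  have hdiff : Differentiable ℝ (f i) := hf1.differentiable one_ne_zero
  have hG : Continuous (gg V (f i)) := hN.1.contDiff_b1.continuous.mul hd
  have hf0 : f i 0 = (Pi.single i 1 : Fin 3 → ℝ) 0 := by
    have e := (hf i).init
    rw [near_zero hH a2 hN 0 (by simpa using hH.pos.le), We] at e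
    simpa using e
  have key : ∀ T ∈ Icc 0 (L - ρ), |f i T - fI g i T| ≤ 4 * η := by
    intro T hT
    have e := gconv_int hT.1 (η := 2 * η) (by positivity) hd.continuousOn
      ((hc.cont i).mono Icc_subset_Ici_self)
      fun t ht => (h1 L a1 ρ κ V hN i _ (hf i) t ⟨ht.1, ht.2.trans hT.2⟩).2
    rw [intervalIntegral.integral_deriv_eq_sub (fun x _ => hdiff x) (hd.intervalIntegrable _ _),
      hf0] at e
    rw [fI, ← sub_sub]
    linarith
  fin_cases k
  · show |f i L - ((Pi.single i 1 : Fin 3 → ℝ) 0 + ∫ x in Ioi (0 : ℝ), g i x)| ≤ θ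
    have b1 := abs_le.1 (key (L - ρ) ⟨by linarith, le_rfl⟩)
    have b2 := abs_le.1 (hT₀ i (L - ρ) (by linarith [gconv_sum (a := T₀) i]))
    have b3 : ∀ t ∈ Icc (L - ρ) L, ‖deriv (f i) t‖ ≤ (1 + L ^ 2) * K' := by
      intro t ht
      have ht' : t ∈ Icc 0 L := ⟨by linarith [ht.1], ht.2⟩
      have c1 := h2 ρ κ V hN i _ (hf i) t ht'
      have c2 := ((near_global hH a2 hN).2.2 t ht').2.2
      rw [gg, abs_mul, abs_of_pos (hN.1.b1_pos t)] at c1
      have c3 := (mul_le_mul_of_nonneg_right c2 (abs_nonneg _)).trans c1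
      rwa [one_div, inv_mul_le_iff₀ (by positivity)] at c3
    have b4 := (convex_Icc (L - ρ) L).norm_image_sub_le_of_norm_deriv_le (fun x _ => hdiff x) b3
      (x := L - ρ) (y := L) ⟨le_rfl, by linarith⟩ ⟨by linarith, le_rfl⟩
    rw [sub_sub_cancel, Real.norm_eq_abs, Real.norm_eq_abs, abs_of_pos hρ0] at b4
    rw [le_div_iff₀ (by positivity)] at hρ
    have b5 := abs_le.1 (b4.trans (by nlinarith : (1 + L ^ 2) * K' * ρ ≤ η))
    rw [fI] at b1
    rw [abs_le]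
    constructor <;> linarith
  · show |(∫ x in (0 : ℝ)..R₁, deriv (deriv H) x * f i x) -
      ∫ x in (0 : ℝ)..R₁, deriv (deriv H) x * fI g i x| ≤ θ
    have b1 : ContinuousOn (fI g i) (Icc 0 R₁) := by
      have c1 : IntegrableOn (g i) (uIcc 0 R₁) := by
        rw [uIcc_of_le hR]
        exact ((hc.cont i).mono Icc_subset_Ici_self).integrableOn_Icc
      have c2 := intervalIntegral.continuousOn_primitive_interval c1
      rw [uIcc_of_le hR] at c2
      exact continuousOn_const.add c2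
    rw [← intervalIntegral.integral_sub ((hH2.fun_mul hdiff.continuous).intervalIntegrable _ _)
      ((hH2.continuousOn.fun_mul b1).intervalIntegrable_of_Icc hR)]
    have b2 := intervalIntegral.norm_integral_le_of_norm_le (μ := volume) hR
      (f := fun x => deriv (deriv H) x * f i x - deriv (deriv H) x * fI g i x)
      (g := fun x => deriv (deriv H) x * (4 * η))
      (Eventually.of_forall fun t ht => by
        rw [← mul_sub, Real.norm_eq_abs, abs_mul, abs_of_nonneg (hH.conv t)]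
        exact mul_le_mul_of_nonneg_left (key t ⟨ht.1.le, by linarith [ht.2]⟩) (hH.conv t))
      ((hH2.mul continuous_const).intervalIntegrable _ _)
    rw [intervalIntegral.integral_mul_const, ← hCe, Real.norm_eq_abs] at b2
    refine b2.trans ?_
    linarith
  · show |(∫ x in (0 : ℝ)..L / 2, gg V (f i) x * x) - ∫ x in Ioi (0 : ℝ), g i x * x| ≤ θ
    have b1 := abs_le.1 (gconv_int (T := L / 2) (by linarith) hη.le
      (φ := fun x => gg V (f i) x * x) (ψ := fun x => g i x * x)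
      (hG.mul continuous_id).continuousOn
      (((hc.cont i).mono Icc_subset_Ici_self).mul continuousOn_id) fun t ht => by
        rw [← sub_mul]
        exact gconv_mul hη.le ht.1
          (h1 L a1 ρ κ V hN i _ (hf i) t ⟨ht.1, by linarith [ht.2]⟩).1)
    have b2 := abs_le.1 (hT₁ i (L / 2) (by linarith [gconv_sum (a := T₁) i]))
    rw [abs_le]
    constructor <;> linarith

end Pool.Agent.MMO
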