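import Pool.Agent.P.MP_6c3c64_gt.GDefs

/-! Cormack identity and bounds for the remainder kernels. -/

set_option autoImplicit false

namespace Pool.Agent.MMO

open Set MeasureTheory Filter Topology
open scoped ContDiff

theorem gck_S_eq (τ X φ : ℝ) : Sφ τ X φ = τ * Real.cos φ ^ 2 + X * Real.sin φ ^ 2 := by
  unfold Sφ
  rw [Real.cos_sq']
  ring

theorem gck_S_ge {τ X : ℝ} (h : τ ≤ X) (φ : ℝ) : τ ≤ Sφ τ X φ := by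
  unfold Sφ
  have := mul_nonneg (sub_nonneg.2 h) (sq_nonneg (Real.sin φ))
  linarith

theorem gck_S_le {τ X : ℝ} (h : τ ≤ X) (φ : ℝ) : Sφ τ X φ ≤ X := by
  unfold Sφ
  have := mul_le_mul_of_nonneg_left (Real.sin_sq_le_one φ) (sub_nonneg.2 h)
  linarith

theorem gck_S_cont (τ X : ℝ) : Continuous (Sφ τ X) := by
  unfold Sφ
  fun_prop

theorem gck_Pc_cont : Continuous Pc := by
  unfold Pc
  fun_prop

theorem gck_Pt_cont : Continuous Pt := by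
  unfold Pt
  fun_prop

theorem gck_arctan_deriv (t x : ℝ) (ht : 0 < t) (htx : t ≤ x) (φ : ℝ) :
    HasDerivAt (fun φ => (φ + Real.arctan ((x - t) * (Real.sin φ * Real.cos φ) /
      (t * Real.cos φ ^ 2 + x * Real.sin φ ^ 2))) / (t * x)) (1 / Sφ (t ^ 2) (x ^ 2) φ) φ := by
  have hx : 0 < x := lt_of_lt_of_le ht htx
  have hsc := Real.sin_sq_add_cos_sq φ
  have hD : 0 < t * Real.cos φ ^ 2 + x * Real.sin φ ^ 2 := by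
    have h1 := mul_nonneg (sub_nonneg.2 htx) (sq_nonneg (Real.sin φ))
    have h2 : t * Real.cos φ ^ 2 + x * Real.sin φ ^ 2 = t + (x - t) * Real.sin φ ^ 2 := by
      rw [Real.cos_sq']; ring
    rw [h2]; linarith
  have hS : 0 < Sφ (t ^ 2) (x ^ 2) φ :=
    lt_of_lt_of_le (by positivity) (gck_S_ge (pow_le_pow_left₀ ht.le htx 2) φ)
  have hN : HasDerivAt (fun φ => (x - t) * (Real.sin φ * Real.cos φ))
      ((x - t) * (Real.cos φ * Real.cos φ + Real.sin φ * -Real.sin φ)) φ :=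
    ((Real.hasDerivAt_sin φ).fun_mul (Real.hasDerivAt_cos φ)).const_mul _
  have hDd : HasDerivAt (fun φ => t * Real.cos φ ^ 2 + x * Real.sin φ ^ 2)
      (t * (2 * Real.cos φ * -Real.sin φ) + x * (2 * Real.sin φ * Real.cos φ)) φ := by
    have h1 := ((Real.hasDerivAt_cos φ).fun_pow 2).const_mul t
    have h2 := ((Real.hasDerivAt_sin φ).fun_pow 2).const_mul x
    refine (h1.fun_add h2).congr_deriv ?_
    simp
  have hq := (hN.fun_div hDd hD.ne').arctan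
  have h := ((hasDerivAt_id' φ).fun_add hq).div_const (t * x)
  refine h.congr_deriv ?_
  rw [gck_S_eq] at hS ⊢
  set s := Real.sin φ
  set c := Real.cos φ
  have hc : c ^ 2 = 1 - s ^ 2 := by linarith
  have e1 : (t * c ^ 2 + x * s ^ 2) ^ 2 + ((x - t) * (s * c)) ^ 2 = t ^ 2 * c ^ 2 + x ^ 2 * s ^ 2 := by
    linear_combination (t ^ 2 * c ^ 2 + x ^ 2 * s ^ 2) * hsc
  have e2 : (x - t) * (c * c + s * -s) * (t * c ^ 2 + x * s ^ 2) -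
      (x - t) * (s * c) * (t * (2 * c * -s) + x * (2 * s * c)) =
      t * x - (t ^ 2 * c ^ 2 + x ^ 2 * s ^ 2) := by
    linear_combination ((x - t) * (t * c ^ 2 - x * s ^ 2) + t * x) * hsc
  rw [e2]
  have e3 : 1 + ((x - t) * (s * c) / (t * c ^ 2 + x * s ^ 2)) ^ 2 =
      (t ^ 2 * c ^ 2 + x ^ 2 * s ^ 2) / (t * c ^ 2 + x * s ^ 2) ^ 2 := by
    rw [← e1, div_pow]
    field_simp
  rw [e3]
  generalize t ^ 2 * c ^ 2 + x ^ 2 * s ^ 2 = S at hS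
  generalize t * c ^ 2 + x * s ^ 2 = D at hD
  field_simp
  ring

theorem gck_rat_deriv (τ X : ℝ) (hτ : 0 < τ) (h : τ ≤ X) (φ : ℝ) :
    HasDerivAt (fun φ => (X - τ) * ((Real.sin φ * Real.cos φ) *
      (32 * τ * X * (Sφ τ X φ)⁻¹ ^ 4 - 16 * (τ + X) * (Sφ τ X φ)⁻¹ ^ 3 + 12 * (Sφ τ X φ)⁻¹ ^ 2)))
      (Pc (τ / Sφ τ X φ) * Pc (X / Sφ τ X φ) / Sφ τ X φ - 1 / Sφ τ X φ) φ := by
  have hS : 0 < Sφ τ X φ := lt_of_lt_of_le hτ (gck_S_ge h φ)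
  have hSd : HasDerivAt (Sφ τ X) ((X - τ) * (2 * Real.sin φ * Real.cos φ)) φ := by
    have h2 := (((Real.hasDerivAt_sin φ).fun_pow 2).const_mul (X - τ)).const_add τ
    refine h2.congr_deriv ?_
    simp
  have hi : HasDerivAt (fun φ => (Sφ τ X φ)⁻¹)
      (-((X - τ) * (2 * Real.sin φ * Real.cos φ)) / Sφ τ X φ ^ 2) φ := hSd.fun_inv hS.ne'
  have hN : HasDerivAt (fun φ => Real.sin φ * Real.cos φ)
      (Real.cos φ * Real.cos φ + Real.sin φ * -Real.sin φ) φ :=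
    (Real.hasDerivAt_sin φ).fun_mul (Real.hasDerivAt_cos φ)
  have hG := (((hi.fun_pow 4).const_mul (32 * τ * X)).fun_sub
    ((hi.fun_pow 3).const_mul (16 * (τ + X)))).fun_add ((hi.fun_pow 2).const_mul 12)
  have hall := (hN.fun_mul hG).const_mul (X - τ)
  refine hall.congr_deriv ?_
  have e1 : (X - τ) * Real.sin φ ^ 2 = Sφ τ X φ - τ := by unfold Sφ; ring
  have e2 : (X - τ) * Real.cos φ ^ 2 = X - Sφ τ X φ := by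
    unfold Sφ; rw [Real.cos_sq']; ring
  generalize Sφ τ X φ = S at hS e1 e2
  generalize Real.sin φ = s at e1 e2
  generalize Real.cos φ = c at e1 e2
  obtain ⟨u, hu⟩ : ∃ u, u = S⁻¹ := ⟨_, rfl⟩
  have huS : u * S = 1 := by rw [hu]; field_simp
  have e3 : ∀ y : ℝ, y / S = y * u := fun y => by rw [hu, div_eq_mul_inv]
  have e4 : ∀ y : ℝ, y / S ^ 2 = y * u ^ 2 := fun y => by rw [hu, div_eq_mul_inv, inv_pow]
  rw [← hu]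
  simp only [e3, e4, Pc]
  have e5 : (X - τ) * ((c * c + s * -s) * (32 * τ * X * u ^ 4 - 16 * (τ + X) * u ^ 3 + 12 * u ^ 2) +
      s * c * (32 * τ * X * (((4 : ℕ) : ℝ) * u ^ (4 - 1) * (-((X - τ) * (2 * s * c)) * u ^ 2)) -
        16 * (τ + X) * (((3 : ℕ) : ℝ) * u ^ (3 - 1) * (-((X - τ) * (2 * s * c)) * u ^ 2)) +
        12 * (((2 : ℕ) : ℝ) * u ^ (2 - 1) * (-((X - τ) * (2 * s * c)) * u ^ 2)))) =
      ((X - τ) * c ^ 2 - (X - τ) * s ^ 2) *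
        (32 * τ * X * u ^ 4 - 16 * (τ + X) * u ^ 3 + 12 * u ^ 2) +
      2 * ((X - τ) * s ^ 2) * ((X - τ) * c ^ 2) *
        (-128 * τ * X * u ^ 5 + 48 * (τ + X) * u ^ 4 - 24 * u ^ 3) := by
    push_cast
    ring
  rw [e5, e1, e2]
  linear_combination (256 * τ * X * u ^ 4 * S + 256 * τ * X * u ^ 3 - 96 * (τ + X) * u ^ 3 * S
    - 96 * (τ + X) * u ^ 2 + 48 * u ^ 2 * S + 48 * u - 256 * τ * X * (τ + X) * u ^ 4
    + 96 * (τ + X) ^ 2 * u ^ 3 - 48 * (τ + X) * u ^ 2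
    - 64 * τ * X * u ^ 3 + 32 * (τ + X) * u ^ 2 - 24 * u) * huS

theorem cormack_id (t x : ℝ) (ht : 0 < t) (htx : t ≤ x) :
    2 * ∫ φ in (0 : ℝ)..Real.pi / 2, Pc (t ^ 2 / Sφ (t ^ 2) (x ^ 2) φ) *
      Pc (x ^ 2 / Sφ (t ^ 2) (x ^ 2) φ) / Sφ (t ^ 2) (x ^ 2) φ = Real.pi / (t * x) := by
  have hx : 0 < x := lt_of_lt_of_le ht htx
  have hτ : 0 < t ^ 2 := by positivity
  have hX : t ^ 2 ≤ x ^ 2 := pow_le_pow_left₀ ht.le htx 2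
  have hS : ∀ φ, Sφ (t ^ 2) (x ^ 2) φ ≠ 0 := fun φ =>
    (lt_of_lt_of_le hτ (gck_S_ge hX φ)).ne'
  have hc := gck_S_cont (t ^ 2) (x ^ 2)
  have hd := fun φ => ((gck_arctan_deriv t x ht htx φ).fun_add
    (gck_rat_deriv (t ^ 2) (x ^ 2) hτ hX φ)).congr_deriv (add_sub_cancel _ _)
  have hcont : Continuous fun φ => Pc (t ^ 2 / Sφ (t ^ 2) (x ^ 2) φ) *
      Pc (x ^ 2 / Sφ (t ^ 2) (x ^ 2) φ) / Sφ (t ^ 2) (x ^ 2) φ :=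
    ((gck_Pc_cont.comp (continuous_const.div hc hS)).mul
      (gck_Pc_cont.comp (continuous_const.div hc hS))).div hc hS
  rw [intervalIntegral.integral_eq_sub_of_hasDerivAt (fun φ _ => hd φ)
    (hcont.intervalIntegrable _ _)]
  simp
  field_simp

/-- the remainder kernel -/
noncomputable def Rk (q ψ : ℝ → ℝ) (t x : ℝ) : ℝ :=
  x * (2 * ∫ φ in (0 : ℝ)..Real.pi / 2, q (t ^ 2 / Sφ (t ^ 2) (x ^ 2) φ) *
    ψ (Sφ (t ^ 2) (x ^ 2) φ - t ^ 2) * (Pc (x ^ 2 / Sφ (t ^ 2) (x ^ 2) φ) / Sφ (t ^ 2) (x ^ 2) φ))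

theorem Rk_self (q ψ : ℝ → ℝ) (hψ : ψ 0 = 0) (t : ℝ) : Rk q ψ t t = 0 := by
  unfold Rk
  have h : ∀ φ, Sφ (t ^ 2) (t ^ 2) φ - t ^ 2 = 0 := fun φ => by unfold Sφ; ring
  simp [h, hψ]

theorem gck_Pc_le {b Y : ℝ} (hb : 0 ≤ b) (hbY : b ≤ Y) (hY : 1 ≤ Y) : |Pc b| ≤ 41 * Y ^ 2 := by
  have h1 : b ^ 2 ≤ Y ^ 2 := pow_le_pow_left₀ hb hbY 2
  have h2 : Y ≤ Y ^ 2 := by nlinarith
  have h3 := sq_nonneg b
  unfold Pc
  rw [abs_le]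
  constructor <;> linarith

theorem gck_Pc_sub {b b' Y : ℝ} (hb : 0 ≤ b) (hbY : b ≤ Y) (hb' : 0 ≤ b') (hbY' : b' ≤ Y)
    (hY : 1 ≤ Y) : |Pc b - Pc b'| ≤ 52 * Y * |b - b'| := by
  have e : Pc b - Pc b' = (16 * (b + b') - 20) * (b - b') := by unfold Pc; ring
  rw [e, abs_mul]
  refine mul_le_mul_of_nonneg_right ?_ (abs_nonneg _)
  rw [abs_le]
  constructor <;> linarith

theorem gck_q_le {q : ℝ → ℝ} (hq : IsQ q) {a : ℝ} (ha : 0 ≤ a) (ha1 : a ≤ 1) : |q a| ≤ 41 := by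
  have h1 : a ^ 2 ≤ 1 := by nlinarith
  have h3 := sq_nonneg a
  rcases hq with rfl | rfl
  · unfold Pc
    rw [abs_le]
    constructor <;> linarith
  · unfold Pt
    rw [abs_le]
    constructor <;> linarith

theorem gck_q_sub {q : ℝ → ℝ} (hq : IsQ q) {a a' : ℝ} (ha : 0 ≤ a) (ha1 : a ≤ 1) (ha' : 0 ≤ a')
    (ha1' : a' ≤ 1) : |q a - q a'| ≤ 52 * |a - a'| := by
  rcases hq with rfl | rfl
  · have := gck_Pc_sub ha ha1 ha' ha1' le_rfl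
    simpa using this
  · have e : Pt a - Pt a' = (16 * (a + a') - 12) * (a - a') := by unfold Pt; ring
    rw [e, abs_mul]
    refine mul_le_mul_of_nonneg_right ?_ (abs_nonneg _)
    rw [abs_le]
    constructor <;> linarith

theorem gck_q_cont {q : ℝ → ℝ} (hq : IsQ q) : Continuous q := by
  rcases hq with rfl | rfl
  · exact gck_Pc_cont
  · exact gck_Pt_cont

theorem gck_abs4 {a b c d A B C D : ℝ} (ha : |a| ≤ A) (hb : |b| ≤ B) (hc : |c| ≤ C) (hd : |d| ≤ D) :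
    |a * b * c * d| ≤ A * B * C * D := by
  have hA := (abs_nonneg _).trans ha
  have hB := (abs_nonneg _).trans hb
  have hC := (abs_nonneg _).trans hc
  rw [abs_mul, abs_mul, abs_mul]
  gcongr

/-- the pointwise increment of the integrand -/
theorem gck_point {q : ℝ → ℝ} (hq : IsQ q) {Lc τ x₁ x₂ S₁ S₂ p₁ p₂ : ℝ} (hL : 0 ≤ Lc) (hτ : 0 < τ)
    (hx₁ : 0 < x₁) (h12 : x₁ ≤ x₂) (hS₁ : τ ≤ S₁) (hS₁' : S₁ ≤ x₁ ^ 2) (hS12 : S₁ ≤ S₂)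
    (hS₂ : S₂ ≤ x₂ ^ 2) (hd : S₂ - S₁ ≤ x₂ ^ 2 - x₁ ^ 2)
    (hb : |x₂ ^ 2 * S₁ - x₁ ^ 2 * S₂| ≤ τ * (x₂ ^ 2 - x₁ ^ 2))
    (hp₁ : |p₁| ≤ Lc * S₁) (hp : |p₂ - p₁| ≤ Lc * (x₂ ^ 2 - x₁ ^ 2)) :
    |x₂ * (q (τ / S₂) * p₂ * (Pc (x₂ ^ 2 / S₂) / S₂)) -
      x₁ * (q (τ / S₁) * p₁ * (Pc (x₁ ^ 2 / S₁) / S₁))| ≤
      20000 * (Lc * (x₂ - x₁) * (x₂ ^ 2 / τ) ^ 3) := by
  have hS₁p : 0 < S₁ := lt_of_lt_of_le hτ hS₁
  have hS₂p : 0 < S₂ := lt_of_lt_of_le hS₁p hS12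
  have hx₂ : 0 < x₂ := lt_of_lt_of_le hx₁ h12
  have hXX : x₁ ^ 2 ≤ x₂ ^ 2 := pow_le_pow_left₀ hx₁.le h12 2
  have hδ : 0 ≤ x₂ - x₁ := sub_nonneg.2 h12
  obtain ⟨Y, hYe⟩ : ∃ Y, Y = x₂ ^ 2 / τ := ⟨_, rfl⟩
  obtain ⟨E, hEe⟩ : ∃ E, E = (x₂ ^ 2 - x₁ ^ 2) / τ := ⟨_, rfl⟩
  have hY : 1 ≤ Y := by
    rw [hYe, le_div_iff₀ hτ]; linarith
  have hE0 : 0 ≤ E := by rw [hEe]; exact div_nonneg (sub_nonneg.2 hXX) hτ.le
  have hxE : x₂ * E ≤ 2 * Y * (x₂ - x₁) := by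
    rw [hYe, hEe, ← mul_div_assoc, ← mul_div_assoc, div_mul_eq_mul_div]
    refine div_le_div_of_nonneg_right ?_ hτ.le
    have : x₂ * (x₂ ^ 2 - x₁ ^ 2) = x₂ * (x₂ + x₁) * (x₂ - x₁) := by ring
    rw [this]
    refine mul_le_mul_of_nonneg_right ?_ hδ
    have := mul_le_mul_of_nonneg_left h12 hx₂.le
    nlinarith
  have hx1E : x₁ * E ≤ 2 * Y * (x₂ - x₁) := (mul_le_mul_of_nonneg_right h12 hE0).trans hxE
  have ha₁ : 0 ≤ τ / S₁ := by positivity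
  have ha₂ : 0 ≤ τ / S₂ := by positivity
  have ha₁' : τ / S₁ ≤ 1 := (div_le_one hS₁p).2 hS₁
  have ha₂' : τ / S₂ ≤ 1 := (div_le_one hS₂p).2 (hS₁.trans hS12)
  have hb₁ : 0 ≤ x₁ ^ 2 / S₁ := by positivity
  have hb₂ : 0 ≤ x₂ ^ 2 / S₂ := by positivity
  have hb₁' : x₁ ^ 2 / S₁ ≤ Y := by
    rw [hYe]; exact div_le_div₀ (by positivity) hXX hτ hS₁
  have hb₂' : x₂ ^ 2 / S₂ ≤ Y := by
    rw [hYe]; exact div_le_div₀ (by positivity) le_rfl hτ (hS₁.trans hS12)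
  have hq₁ := gck_q_le hq ha₁ ha₁'
  have hq₂ := gck_q_le hq ha₂ ha₂'
  have hP₁ := gck_Pc_le hb₁ hb₁' hY
  have hP₂ := gck_Pc_le hb₂ hb₂' hY
  have hr : (S₂ - S₁) / S₂ ≤ E := by
    rw [hEe]; exact div_le_div₀ (sub_nonneg.2 hXX) hd hτ (hS₁.trans hS12)
  have hr0 : 0 ≤ (S₂ - S₁) / S₂ := div_nonneg (sub_nonneg.2 hS12) hS₂p.le
  have hda : |τ / S₂ - τ / S₁| ≤ E := by
    have e : τ / S₂ - τ / S₁ = -(τ / S₁ * ((S₂ - S₁) / S₂)) := by field_simp; ring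
    rw [e, abs_neg, abs_of_nonneg (mul_nonneg ha₁ hr0)]
    calc τ / S₁ * ((S₂ - S₁) / S₂) ≤ 1 * E := mul_le_mul ha₁' hr hr0 zero_le_one
      _ = E := one_mul _
  have hdb : |x₂ ^ 2 / S₂ - x₁ ^ 2 / S₁| ≤ E := by
    have e : x₂ ^ 2 / S₂ - x₁ ^ 2 / S₁ = (x₂ ^ 2 * S₁ - x₁ ^ 2 * S₂) / (S₁ * S₂) := by
      field_simp
    have e' : E = τ * (x₂ ^ 2 - x₁ ^ 2) / (τ * τ) := by rw [hEe]; field_simp
    rw [e, abs_div, abs_of_pos (mul_pos hS₁p hS₂p), e']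
    exact div_le_div₀ (mul_nonneg hτ.le (sub_nonneg.2 hXX)) hb (mul_pos hτ hτ)
      (mul_le_mul hS₁ (hS₁.trans hS12) hτ.le hS₁p.le)
  have hdq : |q (τ / S₂) - q (τ / S₁)| ≤ 52 * E :=
    (gck_q_sub hq ha₂ ha₂' ha₁ ha₁').trans (by linarith)
  have hdP : |Pc (x₂ ^ 2 / S₂) - Pc (x₁ ^ 2 / S₁)| ≤ 52 * Y * E :=
    (gck_Pc_sub hb₂ hb₂' hb₁ hb₁' hY).trans
      (mul_le_mul_of_nonneg_left hdb (by positivity))
  have hu₂ : |p₁ / S₂| ≤ Lc := by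
    rw [abs_div, abs_of_pos hS₂p, div_le_iff₀ hS₂p]
    exact hp₁.trans (mul_le_mul_of_nonneg_left hS12 hL)
  have hu₁ : |p₁ / S₁| ≤ Lc := by
    rw [abs_div, abs_of_pos hS₁p, div_le_iff₀ hS₁p]
    exact hp₁
  have hu : |(p₂ - p₁) / S₂| ≤ Lc * E := by
    rw [abs_div, abs_of_pos hS₂p, hEe, ← mul_div_assoc]
    exact div_le_div₀ (mul_nonneg hL (sub_nonneg.2 hXX)) hp hτ (hS₁.trans hS12)
  have hw : |p₁ / S₁ * ((S₂ - S₁) / S₂)| ≤ Lc * E := by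
    rw [abs_mul, abs_of_nonneg hr0]
    exact mul_le_mul hu₁ hr hr0 hL
  rw [← hYe]
  generalize q (τ / S₂) = q₂ at *
  generalize q (τ / S₁) = q₁ at *
  generalize Pc (x₂ ^ 2 / S₂) = P₂ at *
  generalize Pc (x₁ ^ 2 / S₁) = P₁ at *
  have e : x₂ * (q₂ * p₂ * (P₂ / S₂)) - x₁ * (q₁ * p₁ * (P₁ / S₁)) =
      x₂ * q₂ * P₂ * ((p₂ - p₁) / S₂) + (x₂ - x₁) * q₂ * P₂ * (p₁ / S₂) +
      x₁ * (q₂ - q₁) * P₂ * (p₁ / S₂) + x₁ * q₁ * (P₂ - P₁) * (p₁ / S₂) -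
      x₁ * q₁ * P₁ * (p₁ / S₁ * ((S₂ - S₁) / S₂)) := by
    field_simp
    ring
  have t1 := gck_abs4 (abs_of_pos hx₂).le hq₂ hP₂ hu
  have t2 := gck_abs4 (abs_of_nonneg hδ).le hq₂ hP₂ hu₂
  have t3 := gck_abs4 (abs_of_pos hx₁).le hdq hP₂ hu₂
  have t4 := gck_abs4 (abs_of_pos hx₁).le hq₁ hdP hu₂
  have t5 := gck_abs4 (abs_of_pos hx₁).le hq₁ hP₁ hw
  have hY0 : 0 ≤ Y := by linarith
  have hLY2 : 0 ≤ Lc * Y ^ 2 := by positivity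
  have hLY : 0 ≤ Lc * Y := by positivity
  have hLδ : 0 ≤ Lc * (x₂ - x₁) * Y ^ 2 := by positivity
  have b1 := mul_le_mul_of_nonneg_left hxE hLY2
  have b2 := mul_le_mul_of_nonneg_left hx1E hLY2
  have b3 := mul_le_mul_of_nonneg_left hx1E hLY
  have b4 := mul_le_mul_of_nonneg_left hY hLδ
  have b5 : 0 ≤ Lc * (x₂ - x₁) * Y ^ 3 := by positivity
  rw [e]
  have t1' := abs_le.1 t1
  have t2' := abs_le.1 t2
  have t3' := abs_le.1 t3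
  have t4' := abs_le.1 t4
  have t5' := abs_le.1 t5
  rw [abs_le]
  constructor <;> linarith [t1'.1, t1'.2, t2'.1, t2'.2, t3'.1, t3'.2, t4'.1, t4'.2, t5'.1, t5'.2]

theorem gck_integrand_cont {q ψ : ℝ → ℝ} {Lc : ℝ} (hq : IsQ q)
    (hψ : ∀ w w', 0 ≤ w → 0 ≤ w' → |ψ w - ψ w'| ≤ Lc * |w - w'|) {τ X : ℝ} (hτ : 0 < τ)
    (h : τ ≤ X) :
    Continuous fun φ => q (τ / Sφ τ X φ) * ψ (Sφ τ X φ - τ) * (Pc (X / Sφ τ X φ) / Sφ τ X φ) := by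
  have hS : ∀ φ, Sφ τ X φ ≠ 0 := fun φ => (lt_of_lt_of_le hτ (gck_S_ge h φ)).ne'
  have hc := gck_S_cont τ X
  have hψc : ContinuousOn ψ (Ici 0) := by
    have : LipschitzOnWith (Real.toNNReal Lc) ψ (Ici 0) :=
      LipschitzOnWith.of_dist_le' fun w hw w' hw' => by
        rw [Real.dist_eq, Real.dist_eq]; exact hψ w w' hw hw'
    exact this.continuousOn
  have h2 : Continuous fun φ => ψ (Sφ τ X φ - τ) :=
    hψc.comp_continuous (hc.sub continuous_const) fun φ => sub_nonneg.2 (gck_S_ge h φ)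
  exact (((gck_q_cont hq).comp (continuous_const.div hc hS)).mul h2).mul
    ((gck_Pc_cont.comp (continuous_const.div hc hS)).div hc hS)

theorem Rk_incr : ∃ C : ℝ, 0 < C ∧ ∀ (q ψ : ℝ → ℝ) (Lc : ℝ), IsQ q → ψ 0 = 0 →
    (∀ w w', 0 ≤ w → 0 ≤ w' → |ψ w - ψ w'| ≤ Lc * |w - w'|) →
    ∀ t x₁ x₂, 0 < t → t ≤ x₁ → x₁ ≤ x₂ →
      |Rk q ψ t x₂ - Rk q ψ t x₁| ≤ C * Lc * (x₂ - x₁) * (x₂ ^ 6 / t ^ 6) := by
  refine ⟨20000 * Real.pi, by positivity, ?_⟩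
  intro q ψ Lc hq hψ0 hψ t x₁ x₂ ht h1 h12
  have hL : 0 ≤ Lc := by
    have := hψ 1 0 zero_le_one le_rfl
    have h2 := abs_nonneg (ψ 1 - ψ 0)
    simp at this
    linarith
  have hτ : 0 < t ^ 2 := by positivity
  have hx₁ : 0 < x₁ := lt_of_lt_of_le ht h1
  have hX₁ : t ^ 2 ≤ x₁ ^ 2 := pow_le_pow_left₀ ht.le h1 2
  have hXX : x₁ ^ 2 ≤ x₂ ^ 2 := pow_le_pow_left₀ hx₁.le h12 2
  have hX₂ : t ^ 2 ≤ x₂ ^ 2 := hX₁.trans hXX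
  have c₁ := gck_integrand_cont hq hψ hτ hX₁
  have c₂ := gck_integrand_cont hq hψ hτ hX₂
  have e : Rk q ψ t x₂ - Rk q ψ t x₁ = 2 * ∫ φ in (0 : ℝ)..Real.pi / 2,
      (x₂ * (q (t ^ 2 / Sφ (t ^ 2) (x₂ ^ 2) φ) * ψ (Sφ (t ^ 2) (x₂ ^ 2) φ - t ^ 2) *
        (Pc (x₂ ^ 2 / Sφ (t ^ 2) (x₂ ^ 2) φ) / Sφ (t ^ 2) (x₂ ^ 2) φ)) -
      x₁ * (q (t ^ 2 / Sφ (t ^ 2) (x₁ ^ 2) φ) * ψ (Sφ (t ^ 2) (x₁ ^ 2) φ - t ^ 2) *
        (Pc (x₁ ^ 2 / Sφ (t ^ 2) (x₁ ^ 2) φ) / Sφ (t ^ 2) (x₁ ^ 2) φ))) := by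
    rw [intervalIntegral.integral_sub ((c₂.intervalIntegrable _ _).const_mul _)
      ((c₁.intervalIntegrable _ _).const_mul _), intervalIntegral.integral_const_mul,
      intervalIntegral.integral_const_mul]
    unfold Rk
    ring
  have hb := intervalIntegral.norm_integral_le_of_norm_le_const (a := 0) (b := Real.pi / 2)
    (C := 20000 * (Lc * (x₂ - x₁) * (x₂ ^ 2 / t ^ 2) ^ 3))
    (f := fun φ => (x₂ * (q (t ^ 2 / Sφ (t ^ 2) (x₂ ^ 2) φ) * ψ (Sφ (t ^ 2) (x₂ ^ 2) φ - t ^ 2) *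
        (Pc (x₂ ^ 2 / Sφ (t ^ 2) (x₂ ^ 2) φ) / Sφ (t ^ 2) (x₂ ^ 2) φ)) -
      x₁ * (q (t ^ 2 / Sφ (t ^ 2) (x₁ ^ 2) φ) * ψ (Sφ (t ^ 2) (x₁ ^ 2) φ - t ^ 2) *
        (Pc (x₁ ^ 2 / Sφ (t ^ 2) (x₁ ^ 2) φ) / Sφ (t ^ 2) (x₁ ^ 2) φ)))) (fun φ _ => by
      rw [Real.norm_eq_abs]
      have hs := Real.sin_sq_le_one φ
      have hcs := Real.cos_sq_le_one φ
      have hd : Sφ (t ^ 2) (x₂ ^ 2) φ - Sφ (t ^ 2) (x₁ ^ 2) φ =
          (x₂ ^ 2 - x₁ ^ 2) * Real.sin φ ^ 2 := by unfold Sφ; ring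
      have hd0 : 0 ≤ (x₂ ^ 2 - x₁ ^ 2) * Real.sin φ ^ 2 :=
        mul_nonneg (sub_nonneg.2 hXX) (sq_nonneg _)
      have hd1 : (x₂ ^ 2 - x₁ ^ 2) * Real.sin φ ^ 2 ≤ x₂ ^ 2 - x₁ ^ 2 :=
        mul_le_of_le_one_right (sub_nonneg.2 hXX) hs
      have hw₁ := sub_nonneg.2 (gck_S_ge hX₁ φ)
      have hw₂ := sub_nonneg.2 (gck_S_ge hX₂ φ)
      refine gck_point hq hL hτ hx₁ h12 (gck_S_ge hX₁ φ) (gck_S_le hX₁ φ) (by linarith)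
        (gck_S_le hX₂ φ) (by linarith) ?_ ?_ ?_
      · have e2 : x₂ ^ 2 * Sφ (t ^ 2) (x₁ ^ 2) φ - x₁ ^ 2 * Sφ (t ^ 2) (x₂ ^ 2) φ =
            t ^ 2 * (x₂ ^ 2 - x₁ ^ 2) * Real.cos φ ^ 2 := by
          rw [gck_S_eq, gck_S_eq]; ring
        have h0 : 0 ≤ t ^ 2 * (x₂ ^ 2 - x₁ ^ 2) := mul_nonneg hτ.le (sub_nonneg.2 hXX)
        rw [e2, abs_of_nonneg (mul_nonneg h0 (sq_nonneg _))]
        exact mul_le_of_le_one_right h0 hcs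
      · have := hψ _ 0 hw₁ le_rfl
        rw [hψ0, sub_zero, sub_zero, abs_of_nonneg hw₁] at this
        exact this.trans (mul_le_mul_of_nonneg_left (by linarith) hL)
      · have := hψ _ _ hw₂ hw₁
        rw [sub_sub_sub_cancel_right, hd, abs_of_nonneg hd0] at this
        exact this.trans (mul_le_mul_of_nonneg_left hd1 hL))
  rw [Real.norm_eq_abs, sub_zero, abs_of_pos Real.pi_div_two_pos] at hb
  rw [e, abs_mul, abs_two]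
  have e3 : (x₂ ^ 2 / t ^ 2) ^ 3 = x₂ ^ 6 / t ^ 6 := by rw [div_pow]; ring
  rw [e3] at hb
  linarith

theorem gck_J_int : IntervalIntegrable (fun σ : ℝ => (√(1 - σ))⁻¹) volume 0 1 := by
  have h := (intervalIntegral.intervalIntegrable_rpow' (a := 1) (b := 0)
    (r := -(1 / 2)) (by norm_num)).comp_sub_left 1
  simp only [sub_self, sub_zero] at h
  refine (intervalIntegrable_congr fun σ hσ => ?_).1 h
  rw [uIoc_of_le zero_le_one] at hσ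
  have : 0 ≤ 1 - σ := sub_nonneg.2 hσ.2
  show (1 - σ) ^ (-(1 / 2) : ℝ) = (√(1 - σ))⁻¹
  rw [Real.rpow_neg this, Real.sqrt_eq_rpow]

theorem gck_Pc_inv {σ : ℝ} (h0 : 0 < σ) (h1 : σ ≤ 1) : σ ^ 2 * |Pc σ⁻¹| ≤ 41 := by
  have h := gck_Pc_le (b := σ⁻¹) (Y := σ⁻¹) (by positivity) le_rfl (one_le_inv₀ h0 |>.2 h1)
  calc σ ^ 2 * |Pc σ⁻¹| ≤ σ ^ 2 * (41 * σ⁻¹ ^ 2) := mul_le_mul_of_nonneg_left h (sq_nonneg _)
    _ = 41 := by field_simp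

theorem gck_scale (I : ℝ → ℝ) {x : ℝ} (hx : 0 < x) :
    x * (∫ S in (0 : ℝ)..x ^ 2, I S * Pc (x ^ 2 / S) / √(x ^ 2 - S)) =
      ∫ σ in (0 : ℝ)..1, x ^ 2 * I (x ^ 2 * σ) * Pc σ⁻¹ * (√(1 - σ))⁻¹ := by
  have h := intervalIntegral.mul_integral_comp_mul_left (a := 0) (b := 1)
    (f := fun S => I S * Pc (x ^ 2 / S) / √(x ^ 2 - S)) (x ^ 2)
  rw [mul_zero, mul_one] at h
  rw [← h, ← intervalIntegral.integral_const_mul, ← intervalIntegral.integral_const_mul]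
  refine intervalIntegral.integral_congr fun σ _ => ?_
  have e1 : x ^ 2 / (x ^ 2 * σ) = σ⁻¹ := by
    rw [div_mul_eq_div_div, div_self (by positivity), one_div]
  have e2 : √(x ^ 2 - x ^ 2 * σ) = x * √(1 - σ) := by
    rw [← mul_one_sub, Real.sqrt_mul (sq_nonneg x), Real.sqrt_sq hx.le]
  simp only [e1, e2]
  rw [div_eq_mul_inv, mul_inv]
  have e3 : x * x⁻¹ = 1 := mul_inv_cancel₀ hx.ne'
  linear_combination (x ^ 2 * I (x ^ 2 * σ) * Pc σ⁻¹ * (√(1 - σ))⁻¹) * e3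

theorem gck_I_le {R M : ℝ} {I : ℝ → ℝ} (hI : Incr R M I) {S : ℝ} (h0 : 0 ≤ S) (h1 : S ≤ R ^ 2) :
    |I S| ≤ M * S ^ 2 := by
  have := hI.2 0 S le_rfl h0 h1
  rw [hI.1, sub_zero, sub_zero] at this
  calc |I S| ≤ M * S * S := this
    _ = M * S ^ 2 := by ring

theorem gck_I_cont {R M : ℝ} {I : ℝ → ℝ} (hI : Incr R M I) (hM : 0 ≤ M) :
    ContinuousOn I (Icc 0 (R ^ 2)) := by
  have key : ∀ a ∈ Icc (0 : ℝ) (R ^ 2), ∀ b ∈ Icc (0 : ℝ) (R ^ 2), a ≤ b →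
      |I b - I a| ≤ M * R ^ 2 * |b - a| := fun a ha b hb hab => by
    rw [abs_of_nonneg (sub_nonneg.2 hab)]
    exact (hI.2 a b ha.1 hab hb.2).trans (mul_le_mul_of_nonneg_right
      (mul_le_mul_of_nonneg_left hb.2 hM) (sub_nonneg.2 hab))
  have : LipschitzOnWith (Real.toNNReal (M * R ^ 2)) I (Icc 0 (R ^ 2)) :=
    LipschitzOnWith.of_dist_le' fun a ha b hb => by
      rw [Real.dist_eq, Real.dist_eq]
      rcases le_total a b with hab | hab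
      · rw [abs_sub_comm (I a), abs_sub_comm a]
        exact key a ha b hb hab
      · exact key b hb a ha hab
  exact this.continuousOn

theorem gck_int {R M : ℝ} {I : ℝ → ℝ} (hI : Incr R M I) (hM : 0 ≤ M) {X : ℝ} (hX : 0 ≤ X)
    (hXR : X ≤ R ^ 2) :
    IntervalIntegrable (fun σ : ℝ => X * I (X * σ) * Pc σ⁻¹ * (√(1 - σ))⁻¹) volume 0 1 := by
  have hmem : ∀ σ ∈ Ioo (0 : ℝ) 1, X * σ ∈ Icc (0 : ℝ) (R ^ 2) := fun σ hσ =>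
    ⟨mul_nonneg hX hσ.1.le, (mul_le_of_le_one_right hX hσ.2.le).trans hXR⟩
  have hJ := (intervalIntegrable_iff_integrableOn_Ioo_of_le zero_le_one).1
    (gck_J_int.const_mul (41 * M * X ^ 3))
  rw [intervalIntegrable_iff_integrableOn_Ioo_of_le zero_le_one]
  refine Integrable.mono' hJ ?_ ?_
  · refine ContinuousOn.aestronglyMeasurable ?_ measurableSet_Ioo
    refine ((continuousOn_const.mul ?_).mul ?_).mul ?_
    · exact (gck_I_cont hI hM).comp (continuous_const.mul continuous_id).continuousOn hmem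
    · exact gck_Pc_cont.comp_continuousOn (continuousOn_id.inv₀ fun σ hσ => hσ.1.ne')
    · refine ContinuousOn.inv₀ (by fun_prop) fun σ hσ => ?_
      exact (Real.sqrt_pos.2 (sub_pos.2 hσ.2)).ne'
  · refine (ae_restrict_iff' measurableSet_Ioo).2 (Eventually.of_forall fun σ hσ => ?_)
    have h1 := gck_I_le hI (hmem σ hσ).1 (hmem σ hσ).2
    have h2 := gck_Pc_inv hσ.1 hσ.2.le
    have h3 : 0 ≤ (√(1 - σ))⁻¹ := by positivity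
    rw [Real.norm_eq_abs, abs_mul, abs_mul, abs_mul, abs_of_nonneg h3, abs_of_nonneg hX]
    refine mul_le_mul_of_nonneg_right ?_ h3
    calc X * |I (X * σ)| * |Pc σ⁻¹| ≤ X * (M * (X * σ) ^ 2) * |Pc σ⁻¹| := by gcongr
      _ = M * X ^ 3 * (σ ^ 2 * |Pc σ⁻¹|) := by ring
      _ ≤ M * X ^ 3 * 41 := by gcongr
      _ = 41 * M * X ^ 3 := by ring

/-- the Cormack transform of the forcing term -/
theorem forcing_incr : ∃ C : ℝ, 0 < C ∧ ∀ (R M : ℝ) (I : ℝ → ℝ), Incr R M I →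
    ∀ x₁ x₂, 0 < x₁ → x₁ ≤ x₂ → x₂ ≤ R →
      |x₂ * (∫ S in (0 : ℝ)..x₂ ^ 2, I S * Pc (x₂ ^ 2 / S) / √(x₂ ^ 2 - S)) -
        x₁ * (∫ S in (0 : ℝ)..x₁ ^ 2, I S * Pc (x₁ ^ 2 / S) / √(x₁ ^ 2 - S))|
        ≤ C * M * (x₂ - x₁) * x₂ ^ 5 := by
  obtain ⟨J, hJ⟩ : ∃ J, J = ∫ σ in (0 : ℝ)..1, (√(1 - σ))⁻¹ := ⟨_, rfl⟩
  have hJ0 : 0 ≤ J := by
    rw [hJ]
    exact intervalIntegral.integral_nonneg zero_le_one fun σ _ => by positivity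
  refine ⟨164 * J + 1, by positivity, ?_⟩
  intro R M I hI x₁ x₂ hx₁ h12 hR
  have hx₂ : 0 < x₂ := lt_of_lt_of_le hx₁ h12
  have hXX : x₁ ^ 2 ≤ x₂ ^ 2 := pow_le_pow_left₀ hx₁.le h12 2
  have hXR : x₂ ^ 2 ≤ R ^ 2 := pow_le_pow_left₀ hx₂.le hR 2
  have hδ : 0 ≤ x₂ - x₁ := sub_nonneg.2 h12
  have hM : 0 ≤ M := by
    have h := (abs_nonneg _).trans (gck_I_le hI (sq_nonneg x₂) hXR)
    exact nonneg_of_mul_nonneg_left h (by positivity)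
  rw [gck_scale I hx₂, gck_scale I hx₁, ← intervalIntegral.integral_sub
    (gck_int hI hM (sq_nonneg _) hXR) (gck_int hI hM (sq_nonneg _) (hXX.trans hXR))]
  have hb := intervalIntegral.norm_integral_le_of_norm_le (μ := volume) (a := 0) (b := 1)
    (f := fun σ => x₂ ^ 2 * I (x₂ ^ 2 * σ) * Pc σ⁻¹ * (√(1 - σ))⁻¹ -
      x₁ ^ 2 * I (x₁ ^ 2 * σ) * Pc σ⁻¹ * (√(1 - σ))⁻¹)
    (g := fun σ => (164 * (M * (x₂ - x₁) * x₂ ^ 5)) * (√(1 - σ))⁻¹) zero_le_one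
    (Eventually.of_forall fun σ hσ => by
      have h3 : 0 ≤ (√(1 - σ))⁻¹ := by positivity
      have hσ0 := hσ.1
      have m₂ : x₂ ^ 2 * σ ≤ R ^ 2 := (mul_le_of_le_one_right (sq_nonneg _) hσ.2).trans hXR
      have m₁ : x₁ ^ 2 * σ ≤ x₂ ^ 2 * σ := mul_le_mul_of_nonneg_right hXX hσ0.le
      have h1 := gck_I_le hI (S := x₂ ^ 2 * σ) (by positivity) m₂
      have h2 := hI.2 (x₁ ^ 2 * σ) (x₂ ^ 2 * σ) (by positivity) m₁ m₂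
      have h4 := gck_Pc_inv hσ.1 hσ.2
      have hD : 0 ≤ x₂ ^ 2 - x₁ ^ 2 := sub_nonneg.2 hXX
      have hD' : x₂ ^ 2 - x₁ ^ 2 ≤ 2 * x₂ * (x₂ - x₁) := by
        have := sq_nonneg (x₂ - x₁)
        linarith
      have e : x₂ ^ 2 * I (x₂ ^ 2 * σ) * Pc σ⁻¹ * (√(1 - σ))⁻¹ -
          x₁ ^ 2 * I (x₁ ^ 2 * σ) * Pc σ⁻¹ * (√(1 - σ))⁻¹ =
          ((x₂ ^ 2 - x₁ ^ 2) * I (x₂ ^ 2 * σ) + x₁ ^ 2 * (I (x₂ ^ 2 * σ) - I (x₁ ^ 2 * σ))) *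
            Pc σ⁻¹ * (√(1 - σ))⁻¹ := by ring
      rw [e, Real.norm_eq_abs, abs_mul, abs_mul, abs_of_nonneg h3]
      refine mul_le_mul_of_nonneg_right ?_ h3
      have h5 : |(x₂ ^ 2 - x₁ ^ 2) * I (x₂ ^ 2 * σ) +
          x₁ ^ 2 * (I (x₂ ^ 2 * σ) - I (x₁ ^ 2 * σ))| ≤ 4 * (M * (x₂ - x₁) * x₂ ^ 5) * σ ^ 2 := by
        refine (abs_add_le _ _).trans ?_
        rw [abs_mul, abs_mul, abs_of_nonneg hD, abs_of_nonneg (sq_nonneg x₁)]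
        calc (x₂ ^ 2 - x₁ ^ 2) * |I (x₂ ^ 2 * σ)| + x₁ ^ 2 * |I (x₂ ^ 2 * σ) - I (x₁ ^ 2 * σ)|
            ≤ (x₂ ^ 2 - x₁ ^ 2) * (M * (x₂ ^ 2 * σ) ^ 2) +
              x₂ ^ 2 * (M * (x₂ ^ 2 * σ) * (x₂ ^ 2 * σ - x₁ ^ 2 * σ)) := by gcongr
          _ = 2 * M * x₂ ^ 4 * σ ^ 2 * (x₂ ^ 2 - x₁ ^ 2) := by ring
          _ ≤ 2 * M * x₂ ^ 4 * σ ^ 2 * (2 * x₂ * (x₂ - x₁)) := by gcongr
          _ = 4 * (M * (x₂ - x₁) * x₂ ^ 5) * σ ^ 2 := by ring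
      calc _ ≤ 4 * (M * (x₂ - x₁) * x₂ ^ 5) * σ ^ 2 * |Pc σ⁻¹| :=
            mul_le_mul_of_nonneg_right h5 (abs_nonneg _)
        _ = 4 * (M * (x₂ - x₁) * x₂ ^ 5) * (σ ^ 2 * |Pc σ⁻¹|) := by ring
        _ ≤ 4 * (M * (x₂ - x₁) * x₂ ^ 5) * 41 := by gcongr
        _ = 164 * (M * (x₂ - x₁) * x₂ ^ 5) := by ring)
    (gck_J_int.const_mul _)
  rw [Real.norm_eq_abs, intervalIntegral.integral_const_mul, ← hJ] at hb
  have h0 : 0 ≤ M * (x₂ - x₁) * x₂ ^ 5 := by positivity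
  linarith

end Pool.Agent.MMO
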