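import Mathlib

/-! The mode five equation for a body of revolution with profile `V` : definitions. -/

set_option autoImplicit false

namespace Pool.Agent.MMO

open Set MeasureTheory
open scoped ContDiff

noncomputable section

/-- `T₅(p) = p * Pc (p^2)` -/
def Pc (x : ℝ) : ℝ := 16 * x ^ 2 - 20 * x + 5
/-- `U₄(p) = Pt (p^2)` -/
def Pt (x : ℝ) : ℝ := 16 * x ^ 2 - 12 * x + 1
/-- `(1 + a w)^(-3/2)` -/
def wt (a w : ℝ) : ℝ := (√(1 + a * w))⁻¹ ^ 3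

def pA (V : ℝ → ℝ) (t : ℝ) : ℝ := V t - t * deriv V t
def b1 (V : ℝ → ℝ) (t : ℝ) : ℝ := pA V t / V t
def b2 (V : ℝ → ℝ) (t : ℝ) : ℝ := deriv (deriv V) t / V t
def aa (V : ℝ → ℝ) (t : ℝ) : ℝ := (pA V t ^ 2 + deriv V t ^ 2) / V t ^ 2

/-- the Volterra operator of the first kind -/
def Eint (a g d : ℝ → ℝ) (s : ℝ) : ℝ :=
  ∫ t in (0 : ℝ)..s, (g t * t * Pc (t ^ 2 / s ^ 2) / √(s ^ 2 - t ^ 2)
    - 5 * d t * Pt (t ^ 2 / s ^ 2) * √(s ^ 2 - t ^ 2)) * wt (a t) (s ^ 2 - t ^ 2)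

/-- `g = b1 * f'` -/
def gg (V f : ℝ → ℝ) (t : ℝ) : ℝ := b1 V t * deriv f t
/-- `d = b2 * f` -/
def dd (V f : ℝ → ℝ) (t : ℝ) : ℝ := b2 V t * f t

/-- the linearised operator in mode five, for the relative perturbation `f` -/
def Eq5 (V f : ℝ → ℝ) (s : ℝ) : ℝ := Eint (aa V) (gg V f) (dd V f) s

/-- admissible profile: smooth, even, strictly convex, spherical for `L ≤ |t|` -/
structure Adm (L κ : ℝ) (V : ℝ → ℝ) : Prop where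
  Lpos : 0 < L
  κpos : 0 < κ
  smooth : ContDiff ℝ ∞ V
  even : ∀ t, V (-t) = V t
  conv : ∀ t, 0 < deriv (deriv V) t
  cap : ∀ t, L ≤ |t| → V t = κ * √(1 + t ^ 2)

/-- profile of the unit ball -/
def ballP (t : ℝ) : ℝ := √(1 + t ^ 2)

def poly (c : Fin 3 → ℝ) (t : ℝ) : ℝ := c 0 + c 1 * t ^ 2 + c 2 * t ^ 4

/-- `f` solves the mode five equation, with Taylor data `c` (for `f * V`) at the equator -/
structure Sol (V : ℝ → ℝ) (c : Fin 3 → ℝ) (f : ℝ → ℝ) : Prop where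
  smooth : ContDiff ℝ 1 f
  init : f 0 * V 0 = c 0
  taylor : ∃ C : ℝ, ∀ t ∈ Icc (0 : ℝ) 1,
    |deriv (fun t => f t * V t - poly c t) t| ≤ C * t ^ 5
  eqn : ∀ s, 0 < s → Eq5 V f s = 0

def k1 (L a : ℝ) (j : ℕ) (t : ℝ) : ℝ :=
  ∫ s in Ioi L, (s ^ j)⁻¹ * √(1 + s ^ 2) * (t / s * Pc (t ^ 2 / s ^ 2) / √(s ^ 2 - t ^ 2))
    * wt a (s ^ 2 - t ^ 2)

def k2 (L a : ℝ) (j : ℕ) (t : ℝ) : ℝ :=
  ∫ s in Ioi L, (s ^ j)⁻¹ * √(1 + s ^ 2) * (Pt (t ^ 2 / s ^ 2) * √(s ^ 2 - t ^ 2) / s)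
    * wt a (s ^ 2 - t ^ 2)

def k3 (L : ℝ) (j : ℕ) : ℝ :=
  (√(1 + L ^ 2))⁻¹ *
    ((∫ s in Ioi L, (s ^ j)⁻¹ * √(s ^ 2 - L ^ 2) * (L / s * Pc (L ^ 2 / s ^ 2)) / (1 + s ^ 2))
      - if j = 0 then Real.pi / 2 else 0)

/-- the moment functionals measuring the singularity at the pole -/
def Nm (V : ℝ → ℝ) (L : ℝ) (j : ℕ) (f : ℝ → ℝ) : ℝ :=
  (∫ t in (0 : ℝ)..L, (gg V f t * k1 L (aa V t) j t - 5 * dd V f t * k2 L (aa V t) j t))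
    + f L * k3 L j

/-- the matrix of moments of three functions -/
def Nmat (V : ℝ → ℝ) (L : ℝ) (f : Fin 3 → ℝ → ℝ) : Matrix (Fin 3) (Fin 3) ℝ :=
  Matrix.of fun j i => Nm V L (2 * (j : ℕ)) (f i)

/-- the point `τ + (X - τ) sin² φ` -/
def Sφ (τ X φ : ℝ) : ℝ := τ + (X - τ) * Real.sin φ ^ 2

def IsQ (q : ℝ → ℝ) : Prop := q = Pc ∨ q = Pt

/-- increments of a forcing term of size `M S^2` -/
def Incr (R M : ℝ) (I : ℝ → ℝ) : Prop :=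
  I 0 = 0 ∧ ∀ S₁ S₂, 0 ≤ S₁ → S₁ ≤ S₂ → S₂ ≤ R ^ 2 → |I S₂ - I S₁| ≤ M * S₂ * (S₂ - S₁)

/-- second primitive of a bump supported in `[t₀, R₁]` -/
structure Bump (t₀ R₁ : ℝ) (H : ℝ → ℝ) : Prop where
  pos : 0 < t₀
  le_one : t₀ ≤ 1
  le : t₀ ≤ R₁
  smooth : ContDiff ℝ ∞ H
  even : ∀ t, H (-t) = H t
  zero : ∀ t, |t| ≤ t₀ → H t = 0
  conv : ∀ t, 0 ≤ deriv (deriv H) t
  supp : ∀ t, R₁ ≤ t → deriv (deriv H) t = 0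
  mass : ∀ t, deriv H t ≤ 1

def aL (L : ℝ) : ℝ := (L ^ 2 * √L)⁻¹
def eL (L : ℝ) : ℝ := (L ^ 6)⁻¹
def dL (L : ℝ) : ℝ := (L * √L)⁻¹

def We (ε t : ℝ) : ℝ := 1 + ε * t ^ 2 / 2

/-- the nearly cylindrical wall -/
def Ww (H : ℝ → ℝ) (L t : ℝ) : ℝ := We (eL L) t + aL L * H t

/-- an admissible profile equal to the wall up to a thin corner -/
def Near (H : ℝ → ℝ) (L ρ κ : ℝ) (V : ℝ → ℝ) : Prop :=
  Adm L κ V ∧ 0 < ρ ∧ ρ ≤ 1 ∧ ∀ t, |t| ≤ L - ρ → V t = Ww H L t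

/-- existence of solutions for every admissible profile -/
def Hex : Prop := ∀ L κ V, Adm L κ V → ∀ c, ∃ f, Sol V c f

def uj (j : ℕ) : ℝ := 16 / ((j : ℝ) + 5) - 12 / ((j : ℝ) + 3) + 1 / ((j : ℝ) + 1)
def vj (j : ℕ) : ℝ := 1 / ((j : ℝ) + 1)
def wj (j : ℕ) : ℝ := 1 / ((j : ℝ) + 3)

/-- the composed kernels of the long range estimate -/
def Kg (q : ℝ → ℝ) (n m : ℕ) (a τ X : ℝ) : ℝ :=
  2 * ∫ φ in (0 : ℝ)..Real.pi / 2, q (τ / Sφ τ X φ) * ((X - τ) * Real.sin φ ^ 2) ^ n *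
    wt a ((X - τ) * Real.sin φ ^ 2) * (√(1 + (X - τ) * Real.cos φ ^ 2))⁻¹ ^ m

/-- an envelope of total mass less than `π` -/
structure Envl (Env : ℝ → ℝ) (C : ℝ) : Prop where
  cont : ContinuousOn Env (Ici 0)
  nonneg : ∀ W, 0 ≤ W → 0 ≤ Env W
  le : ∀ W, 0 ≤ W → Env W ≤ C / (1 + W) ^ 2
  mass : ∀ Λ, 0 ≤ Λ → ∫ W in (0 : ℝ)..Λ, Env W ≤ Real.pi - Real.pi / 32

/-- the inequality of the second kind on `(0, lam]` -/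
def LongIneq (Env : ℝ → ℝ) (C δ lam : ℝ) (g d : ℝ → ℝ) : Prop :=
  ∀ x ∈ Ioc 0 lam, Real.pi / 2 * |g x| ≤
    (∫ t in (0 : ℝ)..x, |g t| * t * (Env (x ^ 2 - t ^ 2) + C * δ / (1 + x ^ 2 - t ^ 2) ^ 2
      + C / (x ^ 2 * (1 + x ^ 2 - t ^ 2))))
    + C * ∫ t in (0 : ℝ)..x, |d t| / (1 + x ^ 2 - t ^ 2)

/-- the limiting solutions (derivatives) for the cylinder -/
structure Cyl (g : Fin 3 → ℝ → ℝ) (K : ℝ) : Prop where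
  cont : ∀ i, ContinuousOn (g i) (Ici 0)
  decay : ∀ i t, 0 ≤ t → |g i t| ≤ K / (1 + t) ^ 4
  eqn : ∀ i s, 0 < s → Eint (fun _ => 1) (g i) (fun _ => 0) s = 0
  taylor : ∀ i, ∀ t ∈ Icc (0 : ℝ) 1, |g i t - deriv (poly (Pi.single i 1)) t| ≤ K * t ^ 5

/-- the solutions for nearly cylindrical profiles converge to `g` -/
def Lim (g : Fin 3 → ℝ → ℝ) : Prop :=
  ∀ t₀ R₁ H, Bump t₀ R₁ H → ∀ R θ : ℝ, 0 < θ → ∃ L₀ : ℝ, ∀ L, L₀ ≤ L → ∀ ρ κ V, Near H L ρ κ V →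
    ∀ i f, Sol V (Pi.single i 1) f → ∀ t ∈ Icc 0 R, |gg V f t - g i t| ≤ θ

/-- the limiting solutions -/
def fI (g : Fin 3 → ℝ → ℝ) (i : Fin 3) (t : ℝ) : ℝ :=
  (Pi.single i 1 : Fin 3 → ℝ) 0 + ∫ x in (0 : ℝ)..t, g i x

/-- the matrix with rows: value at infinity, mean against the bump, first moment -/
def FI (g : Fin 3 → ℝ → ℝ) (R₁ : ℝ) (H : ℝ → ℝ) : Matrix (Fin 3) (Fin 3) ℝ :=
  Matrix.of ![fun i => (Pi.single i 1 : Fin 3 → ℝ) 0 + ∫ x in Ioi (0 : ℝ), g i x,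
    fun i => ∫ x in (0 : ℝ)..R₁, deriv (deriv H) x * fI g i x,
    fun i => ∫ x in Ioi (0 : ℝ), g i x * x]

/-- the same matrix for a nearly cylindrical profile -/
def FL (V : ℝ → ℝ) (L R₁ : ℝ) (H : ℝ → ℝ) (f : Fin 3 → ℝ → ℝ) : Matrix (Fin 3) (Fin 3) ℝ :=
  Matrix.of ![fun i => f i L,
    fun i => ∫ x in (0 : ℝ)..R₁, deriv (deriv H) x * f i x,
    fun i => ∫ x in (0 : ℝ)..L / 2, gg V (f i) x * x]

/-- the matrix with columns `u, v, w` -/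
def M0 : Matrix (Fin 3) (Fin 3) ℝ :=
  Matrix.of fun j => ![uj (2 * (j : ℕ)), vj (2 * (j : ℕ)), wj (2 * (j : ℕ))]

end

end Pool.Agent.MMO
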