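import Pool.Agent.P.MP_6c3c64_gt.GConv
import Pool.Agent.P.MP_6c3c64_gt.GDet
import Pool.Agent.P.MP_6c3c64_gt.GMom
import Pool.Agent.P.MP_6c3c64_gt.GBump

/-! Two admissible profiles with opposite signs of the moment determinant. -/

set_option autoImplicit false

namespace Pool.Agent.MMO

open Set MeasureTheory Filter Topology
open scoped ContDiff RealInnerProductSpace

theorem gmain_one {g : Fin 3 → ℝ → ℝ} {K : ℝ} (hc : Cyl g K) (hl : Lim g) {t₀ R₁ : ℝ}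
    {H : ℝ → ℝ} (hH : Bump t₀ R₁ H) (hF : (FI g R₁ H).det ≠ 0) :
    ∃ L₀ : ℝ, ∀ L, L₀ ≤ L → ∃ κ V, Adm L κ V ∧ ∀ f : Fin 3 → ℝ → ℝ,
      (∀ i, Sol V (Pi.single i 1) (f i)) →
        0 < (Nmat V L f).det * (FI g R₁ H).det * M0.det := by
  obtain ⟨K', L₁, -, h1⟩ := gconv_decay hH
  choose C L₂ h2 using fun j : Fin 3 => moment_asymp hH K' (2 * (j : ℕ))
  obtain ⟨θ, L₃, hθ, h3⟩ := det_sign _ hF (∑ j, |C j|)
  obtain ⟨L₄, h4⟩ := FL_conv hc hl hH θ hθ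
  refine ⟨max (max L₁ (∑ j, |L₂ j|)) (max L₃ (max L₄ 8)), fun L hL => ?_⟩
  simp only [max_le_iff] at hL
  obtain ⟨⟨a1, a2⟩, a3, a4, a5⟩ := hL
  obtain ⟨K'', -, h5⟩ := gconv_corner hH a5
  choose r hr h6 using fun j : Fin 3 => h2 j L ((gconv_sum j).trans a2) K''
  obtain ⟨r', hr', h7⟩ := h4 L a4
  obtain ⟨ρ, hρ, hρ1, hρ2, hρ3⟩ : ∃ ρ : ℝ, 0 < ρ ∧ ρ ≤ 1 ∧ ρ ≤ r' ∧ ∀ j, ρ ≤ r j := by
    refine ⟨min (min 1 r') (min (r 0) (min (r 1) (r 2))),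
      lt_min (lt_min one_pos hr') (lt_min (hr 0) (lt_min (hr 1) (hr 2))),
      (min_le_left _ _).trans (min_le_left _ _), (min_le_left _ _).trans (min_le_right _ _),
      fun j => (min_le_right _ _).trans ?_⟩
    fin_cases j
    · exact min_le_left _ _
    · exact (min_le_right _ _).trans (min_le_left _ _)
    · exact (min_le_right _ _).trans (min_le_right _ _)
  obtain ⟨κ, V, hN⟩ := near_exists hH L ρ a5 hρ hρ1
  choose Λ hΛ h8 using fun j => h6 j ρ κ V (hρ3 j) hN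
  refine ⟨κ, V, hN.1, fun f hf => h3 L a3 Λ (FL V L R₁ H f) _ (h7 ρ κ V hρ2 hN f hf)
    (fun j => (hΛ j).trans (gconv_sum j)) fun j i => ?_⟩
  refine (h8 j (f i) (hf i).smooth (h1 L a1 ρ κ V hN i _ (hf i))
    (h5 ρ κ V hN i _ (hf i))).trans ?_
  exact div_le_div_of_nonneg_right (gconv_sum j) (by positivity)

theorem sign_change (hex : Hex) : ∃ (L κ₁ κ₂ : ℝ) (V₁ V₂ : ℝ → ℝ), Adm L κ₁ V₁ ∧ Adm L κ₂ V₂ ∧
    ∀ f₁ f₂ : Fin 3 → ℝ → ℝ, (∀ i, Sol V₁ (Pi.single i 1) (f₁ i)) →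
      (∀ i, Sol V₂ (Pi.single i 1) (f₂ i)) → (Nmat V₁ L f₁).det * (Nmat V₂ L f₂).det < 0 := by
  obtain ⟨g, K, hc, hl⟩ := limit_exists hex
  obtain ⟨t₀, R₁, H, t₀', R₁', H', hH, hH', hd⟩ := hc.bumps
  obtain ⟨L₁, h1⟩ := gmain_one hc hl hH (left_ne_zero_of_mul hd.ne)
  obtain ⟨L₂, h2⟩ := gmain_one hc hl hH' (right_ne_zero_of_mul hd.ne)
  obtain ⟨κ₁, V₁, a1, b1⟩ := h1 (max L₁ L₂) (le_max_left _ _)
  obtain ⟨κ₂, V₂, a2, b2⟩ := h2 (max L₁ L₂) (le_max_right _ _)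
  refine ⟨_, κ₁, κ₂, V₁, V₂, a1, a2, fun f₁ f₂ hf₁ hf₂ => ?_⟩
  have c := mul_pos (b1 f₁ hf₁) (b2 f₂ hf₂)
  by_contra h
  have c2 := mul_nonneg (mul_nonneg (not_lt.1 h) (neg_pos.2 hd).le) (mul_self_nonneg M0.det)
  linarith

end Pool.Agent.MMO
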