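import Pool.Agent.P.MP_6c3c64_gt.GDefs

/-! Abel type substitutions and the composition lemma. -/

set_option autoImplicit false

namespace Pool.Agent.MMO

open Set MeasureTheory Filter Topology
open scoped ContDiff

private lemma gsub_S_mono (τ X : ℝ) (h : τ < X) :
    StrictMonoOn (Sφ τ X) (Icc 0 (Real.pi / 2)) := by
  intro a ha b hb hab
  have hpi := Real.pi_pos
  have h1 : Real.sin a < Real.sin b :=
    Real.sin_lt_sin_of_lt_of_le_pi_div_two (by linarith [ha.1]) hb.2 hab
  have h0 : 0 ≤ Real.sin a := Real.sin_nonneg_of_nonneg_of_le_pi ha.1 (by linarith [ha.2])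
  have h2 : Real.sin a ^ 2 < Real.sin b ^ 2 := by nlinarith
  unfold Sφ
  nlinarith

private lemma gsub_S_cont (τ X : ℝ) : Continuous (Sφ τ X) := by
  unfold Sφ
  fun_prop

private lemma gsub_S_image (τ X : ℝ) (h : τ < X) :
    Sφ τ X '' Ioo 0 (Real.pi / 2) = Ioo τ X := by
  have hpi := Real.pi_pos
  rw [(gsub_S_cont τ X).continuousOn.image_Ioo_of_strictMonoOn (by linarith) (gsub_S_mono τ X h)]
  simp [Sφ]

private lemma gsub_S_deriv (τ X φ : ℝ) :
    HasDerivAt (Sφ τ X) ((X - τ) * (2 * Real.sin φ * Real.cos φ)) φ := by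
  have h1 : HasDerivAt (fun φ => Real.sin φ ^ 2) (2 * Real.sin φ * Real.cos φ) φ := by
    have := (Real.hasDerivAt_sin φ).fun_pow 2
    simpa using this
  exact (h1.const_mul (X - τ)).const_add τ

private lemma gsub_S_point (τ X : ℝ) (h : τ < X) (G : ℝ → ℝ) (φ : ℝ)
    (hφ : φ ∈ Ioo 0 (Real.pi / 2)) :
    |(X - τ) * (2 * Real.sin φ * Real.cos φ)| •
      (G (Sφ τ X φ) / (√(Sφ τ X φ - τ) * √(X - Sφ τ X φ))) = 2 * G (Sφ τ X φ) := by
  have hpi := Real.pi_pos
  have hs : 0 < Real.sin φ := Real.sin_pos_of_pos_of_lt_pi hφ.1 (by linarith [hφ.2])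
  have hc : 0 < Real.cos φ := Real.cos_pos_of_mem_Ioo ⟨by linarith [hφ.1], hφ.2⟩
  have hW : 0 < X - τ := by linarith
  have e1 : Sφ τ X φ - τ = (X - τ) * Real.sin φ ^ 2 := by unfold Sφ; ring
  have e2 : X - Sφ τ X φ = (X - τ) * Real.cos φ ^ 2 := by
    unfold Sφ
    rw [Real.cos_sq']
    ring
  have e3 : √(Sφ τ X φ - τ) * √(X - Sφ τ X φ) = (X - τ) * (Real.sin φ * Real.cos φ) := by
    rw [e1, e2, ← Real.sqrt_mul (by positivity)]
    rw [show (X - τ) * Real.sin φ ^ 2 * ((X - τ) * Real.cos φ ^ 2)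
      = ((X - τ) * (Real.sin φ * Real.cos φ)) ^ 2 by ring]
    exact Real.sqrt_sq (by positivity)
  rw [e3, abs_of_pos (by positivity), smul_eq_mul]
  field_simp

theorem abel_sub (τ X : ℝ) (h : τ < X) (G : ℝ → ℝ) :
    ∫ S in τ..X, G S / (√(S - τ) * √(X - S)) =
      2 * ∫ φ in (0 : ℝ)..Real.pi / 2, G (Sφ τ X φ) := by
  have hpi := Real.pi_pos
  rw [intervalIntegral.integral_of_le h.le, integral_Ioc_eq_integral_Ioo,
    intervalIntegral.integral_of_le (by linarith), integral_Ioc_eq_integral_Ioo,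
    ← gsub_S_image τ X h,
    integral_image_eq_integral_abs_deriv_smul measurableSet_Ioo
      (fun φ _ => (gsub_S_deriv τ X φ).hasDerivWithinAt)
      ((gsub_S_mono τ X h).injOn.mono Ioo_subset_Icc_self), ← integral_const_mul]
  exact setIntegral_congr_fun measurableSet_Ioo fun φ hφ => gsub_S_point τ X h G φ hφ

private lemma gsub_bdd_integrableOn (a b B : ℝ) (F : ℝ → ℝ) (hF : ContinuousOn F (Ioo a b))
    (hB : ∀ t ∈ Ioo a b, |F t| ≤ B) : IntegrableOn F (Ioo a b) := by
  refine Integrable.mono' (g := fun _ => B) (integrableOn_const (by simp)) ?_ ?_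
  · exact hF.aestronglyMeasurable measurableSet_Ioo
  · exact (ae_restrict_iff' measurableSet_Ioo).2 (Eventually.of_forall fun t ht => hB t ht)

private lemma gsub_abel_integrableOn (τ X B : ℝ) (h : τ < X) (G : ℝ → ℝ)
    (hG : ContinuousOn G (Ioo τ X)) (hB : ∀ S ∈ Ioo τ X, |G S| ≤ B) :
    IntegrableOn (fun S => G S / (√(S - τ) * √(X - S))) (Ioo τ X) := by
  have hmaps : MapsTo (Sφ τ X) (Ioo 0 (Real.pi / 2)) (Ioo τ X) := fun φ hφ => by
    rw [← gsub_S_image τ X h]
    exact mem_image_of_mem _ hφ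
  have key : IntegrableOn (fun φ => 2 * G (Sφ τ X φ)) (Ioo 0 (Real.pi / 2)) := by
    refine gsub_bdd_integrableOn _ _ (2 * B) _
      (continuousOn_const.mul (hG.comp (gsub_S_cont τ X).continuousOn hmaps)) fun φ hφ => ?_
    rw [abs_mul, abs_two]
    linarith [hB _ (hmaps hφ)]
  have := (integrableOn_image_iff_integrableOn_abs_deriv_smul measurableSet_Ioo
      (fun φ _ => (gsub_S_deriv τ X φ).hasDerivWithinAt)
      ((gsub_S_mono τ X h).injOn.mono Ioo_subset_Icc_self)
      (fun S => G S / (√(S - τ) * √(X - S)))).2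
      (key.congr_fun (fun φ hφ => (gsub_S_point τ X h G φ hφ).symm) measurableSet_Ioo)
  rwa [gsub_S_image τ X h] at this

private lemma gsub_c_anti (s : ℝ) (hs : 0 < s) :
    StrictAntiOn (fun α => s * Real.cos α) (Icc 0 (Real.pi / 2)) := by
  intro a ha b hb hab
  have hpi := Real.pi_pos
  have h1 : Real.cos b < Real.cos a :=
    Real.cos_lt_cos_of_nonneg_of_le_pi ha.1 (by linarith [hb.2]) hab
  exact mul_lt_mul_of_pos_left h1 hs

private lemma gsub_c_image (s : ℝ) (hs : 0 < s) :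
    (fun α => s * Real.cos α) '' Ioo 0 (Real.pi / 2) = Ioo 0 s := by
  have hpi := Real.pi_pos
  have hc : Continuous fun α => s * Real.cos α := by fun_prop
  rw [hc.continuousOn.image_Ioo_of_strictAntiOn (by linarith) (gsub_c_anti s hs)]
  simp

private lemma gsub_c_deriv (s α : ℝ) :
    HasDerivAt (fun α => s * Real.cos α) (s * -Real.sin α) α :=
  (Real.hasDerivAt_cos α).const_mul s

private lemma gsub_c_point (s : ℝ) (hs : 0 < s) (G : ℝ → ℝ) (α : ℝ)
    (hα : α ∈ Ioo 0 (Real.pi / 2)) :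
    |s * -Real.sin α| • (G (s * Real.cos α) / √(s ^ 2 - (s * Real.cos α) ^ 2))
      = G (s * Real.cos α) := by
  have hpi := Real.pi_pos
  have hsin : 0 < Real.sin α := Real.sin_pos_of_pos_of_lt_pi hα.1 (by linarith [hα.2])
  have e : s ^ 2 - (s * Real.cos α) ^ 2 = (s * Real.sin α) ^ 2 := by
    rw [mul_pow, mul_pow, Real.cos_sq']
    ring
  rw [e, Real.sqrt_sq (by positivity), mul_neg, abs_neg, abs_of_pos (by positivity), smul_eq_mul]
  field_simp

theorem cos_sub (s : ℝ) (hs : 0 < s) (G : ℝ → ℝ) :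
    ∫ t in (0 : ℝ)..s, G t / √(s ^ 2 - t ^ 2) =
      ∫ α in (0 : ℝ)..Real.pi / 2, G (s * Real.cos α) := by
  have hpi := Real.pi_pos
  rw [intervalIntegral.integral_of_le hs.le, integral_Ioc_eq_integral_Ioo,
    intervalIntegral.integral_of_le (by linarith), integral_Ioc_eq_integral_Ioo,
    ← gsub_c_image s hs,
    integral_image_eq_integral_abs_deriv_smul measurableSet_Ioo
      (fun α _ => (gsub_c_deriv s α).hasDerivWithinAt)
      ((gsub_c_anti s hs).injOn.mono Ioo_subset_Icc_self)]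
  exact setIntegral_congr_fun measurableSet_Ioo fun α hα => gsub_c_point s hs G α hα

theorem intervalIntegrable_div_sqrt (s B : ℝ) (hs : 0 < s) (G : ℝ → ℝ)
    (hG : ContinuousOn G (Ioo 0 s)) (hB : ∀ t ∈ Ioo 0 s, |G t| ≤ B) :
    IntervalIntegrable (fun t => G t / √(s ^ 2 - t ^ 2)) volume 0 s := by
  rw [intervalIntegrable_iff_integrableOn_Ioo_of_le hs.le]
  have hmaps : MapsTo (fun α => s * Real.cos α) (Ioo 0 (Real.pi / 2)) (Ioo 0 s) :=
    fun α hα => by
      rw [← gsub_c_image s hs]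
      exact mem_image_of_mem _ hα
  have hc : Continuous fun α => s * Real.cos α := by fun_prop
  have key : IntegrableOn (fun α => G (s * Real.cos α)) (Ioo 0 (Real.pi / 2)) :=
    gsub_bdd_integrableOn _ _ B _ (hG.comp hc.continuousOn hmaps) fun α hα => hB _ (hmaps hα)
  have := (integrableOn_image_iff_integrableOn_abs_deriv_smul measurableSet_Ioo
      (fun α _ => (gsub_c_deriv s α).hasDerivWithinAt)
      ((gsub_c_anti s hs).injOn.mono Ioo_subset_Icc_self)
      (fun t => G t / √(s ^ 2 - t ^ 2))).2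
      (key.congr_fun (fun α hα => (gsub_c_point s hs G α hα).symm) measurableSet_Ioo)
  rwa [gsub_c_image s hs] at this

theorem abel_fubini (x B : ℝ) (hx : 0 < x) (H : ℝ → ℝ → ℝ)
    (hc : ContinuousOn (Function.uncurry H)
      {p | 0 < p.1 ∧ p.1 ≤ x ∧ p.1 ^ 2 ≤ p.2 ∧ p.2 ≤ x ^ 2})
    (hB : ∀ t S, 0 < t → t ≤ x → t ^ 2 ≤ S → S ≤ x ^ 2 → |H t S| ≤ B) :
    IntervalIntegrable (fun t => ∫ φ in (0 : ℝ)..Real.pi / 2, H t (Sφ (t ^ 2) (x ^ 2) φ))
      volume 0 x ∧
    ∫ S in (0 : ℝ)..x ^ 2, (∫ t in (0 : ℝ)..√S, H t S / √(S - t ^ 2)) / √(x ^ 2 - S) =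
      ∫ t in (0 : ℝ)..x, 2 * ∫ φ in (0 : ℝ)..Real.pi / 2, H t (Sφ (t ^ 2) (x ^ 2) φ) := by
  have hpi := Real.pi_pos
  set U : Set (ℝ × ℝ) := {p | 0 < p.1 ∧ p.1 ^ 2 < p.2 ∧ p.2 < x ^ 2} with hU
  have hUo : IsOpen U := by
    refine (isOpen_lt continuous_const continuous_fst).inter
      ((isOpen_lt (continuous_fst.pow 2) continuous_snd).inter
        (isOpen_lt continuous_snd continuous_const))
  have hlt : ∀ p ∈ U, p.1 < x := fun p hp => by
    have h1 := hp.1
    have h2 : p.1 ^ 2 < x ^ 2 := hp.2.1.trans hp.2.2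
    exact lt_of_pow_lt_pow_left₀ 2 hx.le h2
  set K : ℝ × ℝ → ℝ := fun p => H p.1 p.2 / (√(p.2 - p.1 ^ 2) * √(x ^ 2 - p.2)) with hK
  have hKc : ContinuousOn K U := by
    refine ContinuousOn.div (hc.mono fun p hp => ⟨hp.1, (hlt p hp).le, hp.2.1.le, hp.2.2.le⟩)
      (by fun_prop) fun p hp => ?_
    have h1 : 0 < p.2 - p.1 ^ 2 := sub_pos.2 hp.2.1
    have h2 : 0 < x ^ 2 - p.2 := sub_pos.2 hp.2.2
    positivity
  set F : ℝ × ℝ → ℝ := U.indicator K with hF
  have hFm : AEStronglyMeasurable F ((volume : Measure ℝ).prod volume) :=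
    (aestronglyMeasurable_indicator_iff hUo.measurableSet).2
      (hKc.aestronglyMeasurable hUo.measurableSet)
  have hsq : ∀ t ∈ Ioo 0 x, t ^ 2 < x ^ 2 := fun t ht => by nlinarith [ht.1, ht.2]
  have hrow : ∀ t ∈ Ioo 0 x, (fun S => F (t, S)) = (Ioo (t ^ 2) (x ^ 2)).indicator
      (fun S => H t S / (√(S - t ^ 2) * √(x ^ 2 - S))) := fun t ht => by
    funext S
    by_cases hS : S ∈ Ioo (t ^ 2) (x ^ 2)
    · have : (t, S) ∈ U := ⟨ht.1, hS.1, hS.2⟩
      rw [hF, indicator_of_mem this, indicator_of_mem hS]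
    · have : (t, S) ∉ U := fun h => hS ⟨h.2.1, h.2.2⟩
      rw [hF, indicator_of_notMem this, indicator_of_notMem hS]
  have hrow0 : ∀ t, t ∉ Ioo 0 x → ∀ S, F (t, S) = 0 := fun t ht S => by
    have : (t, S) ∉ U := fun h => ht ⟨h.1, hlt _ h⟩
    rw [hF, indicator_of_notMem this]
  have hHc : ∀ t ∈ Ioo 0 x, ContinuousOn (H t) (Ioo (t ^ 2) (x ^ 2)) := fun t ht =>
    hc.comp (f := fun S => (t, S)) (by fun_prop) fun S hS => ⟨ht.1, ht.2.le, hS.1.le, hS.2.le⟩
  have hHB : ∀ t ∈ Ioo 0 x, ∀ S ∈ Ioo (t ^ 2) (x ^ 2), |H t S| ≤ B := fun t ht S hS =>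
    hB t S ht.1 ht.2.le hS.1.le hS.2.le
  have hFi : Integrable F ((volume : Measure ℝ).prod volume) := by
    refine (integrable_prod_iff hFm).2 ⟨Eventually.of_forall fun t => ?_, ?_⟩
    · by_cases ht : t ∈ Ioo 0 x
      · rw [hrow t ht, integrable_indicator_iff measurableSet_Ioo]
        exact gsub_abel_integrableOn _ _ B (hsq t ht) _ (hHc t ht) (hHB t ht)
      · simp [hrow0 t ht]
    · have hb : Integrable ((Ioo (0 : ℝ) x).indicator fun _ => B * Real.pi) volume := by
        rw [integrable_indicator_iff measurableSet_Ioo]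
        exact integrableOn_const (by simp)
      refine hb.mono' hFm.norm.integral_prod_right' (Eventually.of_forall fun t => ?_)
      by_cases ht : t ∈ Ioo 0 x
      · rw [indicator_of_mem ht]
        have e : (fun S => ‖F (t, S)‖) = (Ioo (t ^ 2) (x ^ 2)).indicator
            (fun S => |H t S| / (√(S - t ^ 2) * √(x ^ 2 - S))) := by
          funext S
          rw [congrFun (hrow t ht) S, norm_indicator_eq_indicator_norm]
          congr 1
          funext S
          rw [Real.norm_eq_abs, abs_div, abs_of_nonneg (a := √_ * √_) (by positivity)]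
        rw [e, integral_indicator measurableSet_Ioo, ← integral_Ioc_eq_integral_Ioo,
          ← intervalIntegral.integral_of_le (hsq t ht).le,
          abel_sub _ _ (hsq t ht) (fun S => |H t S|), norm_mul]
        have h2 : ‖∫ φ in (0 : ℝ)..Real.pi / 2, |H t (Sφ (t ^ 2) (x ^ 2) φ)|‖
            ≤ B * |Real.pi / 2 - 0| := by
          refine intervalIntegral.norm_integral_le_of_norm_le_const fun φ _ => ?_
          rw [Real.norm_eq_abs, abs_abs]
          have h3 := Real.sin_sq_le_one φ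
          have h4 := sq_nonneg (Real.sin φ)
          have h5 := hsq t ht
          refine hB t _ ht.1 ht.2.le ?_ ?_ <;> unfold Sφ <;> nlinarith
        rw [sub_zero, abs_of_pos (by positivity)] at h2
        rw [Real.norm_two]
        linarith
      · simp [hrow0 t ht, indicator_of_notMem ht]
  have hrowI : ∀ t ∈ Ioo 0 x, ∫ S, F (t, S)
      = 2 * ∫ φ in (0 : ℝ)..Real.pi / 2, H t (Sφ (t ^ 2) (x ^ 2) φ) := fun t ht => by
    rw [hrow t ht, integral_indicator measurableSet_Ioo, ← integral_Ioc_eq_integral_Ioo,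
      ← intervalIntegral.integral_of_le (hsq t ht).le, abel_sub _ _ (hsq t ht) (H t)]
  refine ⟨?_, ?_⟩
  · rw [intervalIntegrable_iff_integrableOn_Ioo_of_le hx.le]
    have h1 : IntegrableOn (fun t => (∫ S, F (t, S)) / 2) (Ioo 0 x) :=
      (hFi.integral_prod_left.div_const 2).integrableOn
    refine h1.congr_fun (fun t ht => ?_) measurableSet_Ioo
    simp only [hrowI t ht]
    ring
  · have hswap : ∫ t, ∫ S, F (t, S) = ∫ S, ∫ t, F (t, S) :=
      integral_integral_swap (f := fun t S => F (t, S)) hFi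
    have hL : ∫ t, ∫ S, F (t, S)
        = ∫ t in (0 : ℝ)..x, 2 * ∫ φ in (0 : ℝ)..Real.pi / 2, H t (Sφ (t ^ 2) (x ^ 2) φ) := by
      rw [intervalIntegral.integral_of_le hx.le, integral_Ioc_eq_integral_Ioo,
        ← integral_indicator measurableSet_Ioo]
      congr 1
      funext t
      by_cases ht : t ∈ Ioo 0 x
      · rw [indicator_of_mem ht, hrowI t ht]
      · simp [hrow0 t ht, indicator_of_notMem ht]
    rw [← hL, hswap, intervalIntegral.integral_of_le (sq_nonneg x), integral_Ioc_eq_integral_Ioo,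
      ← integral_indicator measurableSet_Ioo]
    congr 1
    funext S
    by_cases hS : S ∈ Ioo 0 (x ^ 2)
    · rw [indicator_of_mem hS, intervalIntegral.integral_of_le (Real.sqrt_nonneg S),
        integral_Ioc_eq_integral_Ioo, ← integral_div, ← integral_indicator measurableSet_Ioo]
      congr 1
      funext t
      by_cases ht : t ∈ Ioo 0 √S
      · have : (t, S) ∈ U := ⟨ht.1, (Real.lt_sqrt ht.1.le).1 ht.2, hS.2⟩
        rw [hF, indicator_of_mem this, indicator_of_mem ht, div_div]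
      · have : (t, S) ∉ U := fun h => ht ⟨h.1, (Real.lt_sqrt h.1.le).2 h.2.1⟩
        rw [hF, indicator_of_notMem this, indicator_of_notMem ht]
    · rw [indicator_of_notMem hS]
      have : ∀ t, F (t, S) = 0 := fun t => by
        have : (t, S) ∉ U := fun h => hS ⟨lt_of_le_of_lt (sq_nonneg t) h.2.1, h.2.2⟩
        rw [hF, indicator_of_notMem this]
      simp [this]

end Pool.Agent.MMO
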