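import Mathlib

/-! Inverses and square roots of positive elements in a commutative Banach algebra whose
spectral radius is bounded by a sup norm. -/

set_option autoImplicit false

namespace Pool.Agent.MMO

noncomputable section

variable {A Ω : Type*} [NormedCommRing A] [NormedAlgebra ℝ A] [TopologicalSpace Ω]
  [CompactSpace Ω]

structure IsGel (e : A →L[ℝ] C(Ω, ℝ)) : Prop where
  map_one : e 1 = 1
  map_mul : ∀ a b, e (a * b) = e a * e b
  spec : ∀ (w : A) (θ : ℝ), ‖e w‖ < θ → ∃ C : ℝ, ∀ n : ℕ, ‖w ^ n‖ ≤ C * θ ^ n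

def Pos (e : A →L[ℝ] C(Ω, ℝ)) (z : A) : Prop := ∀ ω, 0 < e z ω

open Classical in
/-- the positive square root -/
def psqrt (e : A →L[ℝ] C(Ω, ℝ)) (z : A) : A :=
  if h : ∃ s, s * s = z ∧ Pos e s then h.choose else 0

variable [CompleteSpace A] [Nonempty Ω] {e : A →L[ℝ] C(Ω, ℝ)} {z : A}

omit [CompleteSpace A] in
theorem gel_min (hz : Pos e z) : ∃ m : ℝ, 0 < m ∧ ∀ ω, m ≤ e z ω := by
  obtain ⟨ω₀, -, h⟩ := isCompact_univ.exists_isMinOn Set.univ_nonempty
    (e z).continuous.continuousOn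
  exact ⟨e z ω₀, hz ω₀, fun ω => h (Set.mem_univ ω)⟩

theorem isOpen_pos (e : A →L[ℝ] C(Ω, ℝ)) : IsOpen {z | Pos e z} := by
  refine isOpen_iff_mem_nhds.2 fun z hz => ?_
  obtain ⟨m, hm, h⟩ := gel_min hz
  filter_upwards [e.continuous.continuousAt.eventually (Metric.ball_mem_nhds (e z) hm)]
    with y hy ω
  have h1 := (ContinuousMap.dist_apply_le_dist (f := e y) (g := e z) ω).trans_lt hy
  rw [Real.dist_eq, abs_lt] at h1
  linarith [h ω, h1.1]

omit [CompleteSpace A] in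
theorem gel_normal (he : IsGel e) (hz : Pos e z) :
    ∃ (M : ℝ) (v : A), 0 < M ∧ z = M • (1 + v) ∧ ‖e v‖ < 1 := by
  obtain ⟨m, hm, h⟩ := gel_min hz
  have hM : 0 < ‖e z‖ + 1 := by positivity
  refine ⟨‖e z‖ + 1, (‖e z‖ + 1)⁻¹ • z - 1, hM, ?_, ?_⟩
  · rw [add_sub_cancel, smul_inv_smul₀ hM.ne']
  · rw [ContinuousMap.norm_lt_iff _ one_pos]
    intro ω
    rw [map_sub, map_smul, he.map_one]
    have h1 : e z ω ≤ ‖e z‖ := (le_abs_self _).trans ((e z).norm_coe_le_norm ω)
    have h2 : 0 < (‖e z‖ + 1)⁻¹ * e z ω := mul_pos (inv_pos.2 hM) (hz ω)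
    have h3 : (‖e z‖ + 1)⁻¹ * e z ω ≤ 1 := by
      rw [inv_mul_le_iff₀ hM]
      linarith
    simp only [ContinuousMap.sub_apply, ContinuousMap.smul_apply, ContinuousMap.one_apply,
      smul_eq_mul, Real.norm_eq_abs, abs_lt]
    constructor <;> linarith

omit [CompleteSpace A] [Nonempty Ω] in
theorem gel_spec (he : IsGel e) {w : A} (hw : ‖e w‖ < 1) :
    ∃ C θ : ℝ, 0 ≤ θ ∧ θ < 1 ∧ ∀ n : ℕ, ‖w ^ n‖ ≤ C * θ ^ n := by
  obtain ⟨θ, h1, h2⟩ := exists_between hw
  obtain ⟨C, hC⟩ := he.spec w θ h1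
  exact ⟨C, θ, (norm_nonneg _).trans h1.le, h2, hC⟩

omit [CompleteSpace A] [Nonempty Ω] in
theorem gel_pow (he : IsGel e) (w : A) (n : ℕ) : e (w ^ n) = e w ^ n := by
  induction n with
  | zero => rw [pow_zero, pow_zero, he.map_one]
  | succ n ih => rw [pow_succ, pow_succ, he.map_mul, ih]

theorem IsGel.isUnit (he : IsGel e) (hz : Pos e z) : IsUnit z := by
  obtain ⟨M, v, hM, rfl, hv⟩ := gel_normal he hz
  obtain ⟨C, θ, h0, h1, hC⟩ := gel_spec he (w := -v) (by rwa [map_neg, norm_neg])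
  have hs : Summable fun n : ℕ => (-v) ^ n :=
    Summable.of_norm_bounded ((summable_geometric_of_lt_one h0 h1).mul_left C) hC
  have h2 := hs.one_sub_mul_tsum_pow
  rw [sub_neg_eq_add] at h2
  refine IsUnit.of_mul_eq_one (M⁻¹ • ∑' n : ℕ, (-v) ^ n) ?_
  rw [smul_mul_smul_comm, mul_inv_cancel₀ hM.ne', h2, one_smul]

theorem IsGel.ev_inverse (he : IsGel e) (hz : Pos e z) (ω : Ω) :
    e (Ring.inverse z) ω = (e z ω)⁻¹ := by
  have h1 : e z * e (Ring.inverse z) = 1 := by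
    rw [← he.map_mul, Ring.mul_inverse_cancel _ (he.isUnit hz), he.map_one]
  have h2 : e z ω * e (Ring.inverse z) ω = 1 := congrArg (fun f : C(Ω, ℝ) => f ω) h1
  exact eq_inv_of_mul_eq_one_right h2

theorem gel_summable {θ : ℝ} (h0 : 0 ≤ θ) (h1 : θ < 1) :
    Summable fun n : ℕ => ‖Ring.choose (1 / 2 : ℝ) n‖ * θ ^ n := by
  lift θ to NNReal using h0
  have h2 : (θ : ENNReal) < (binomialSeries ℝ (1 / 2 : ℝ)).radius :=
    lt_of_lt_of_le (by exact_mod_cast h1) binomialSeries_radius_ge_one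
  have h3 := FormalMultilinearSeries.summable_norm_mul_pow _ h2
  refine h3.congr fun n => ?_
  rw [binomialSeries, FormalMultilinearSeries.ofScalars_norm]

theorem gel_hasSum {x : ℝ} (hx : |x| < 1) :
    HasSum (fun n : ℕ => Ring.choose (1 / 2 : ℝ) n * x ^ n) ((1 + x) ^ (1 / 2 : ℝ)) := by
  have h1 := (Real.one_add_rpow_hasFPowerSeriesOnBall_zero (a := 1 / 2)).hasSum (y := x)
    (by
      rw [Metric.mem_eball, edist_dist, dist_zero_right, ENNReal.ofReal_lt_one]
      exact hx)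
  simp only [binomialSeries, FormalMultilinearSeries.ofScalars_apply_eq, smul_eq_mul,
    zero_add] at h1
  exact h1

omit [Nonempty Ω] in
theorem gel_sqrt (he : IsGel e) {v : A} (hv : ‖e v‖ < 1) : ∃ s, s * s = 1 + v ∧ Pos e s := by
  obtain ⟨C, θ, h0, h1, hC⟩ := gel_spec he hv
  have hn : Summable fun n : ℕ => ‖Ring.choose (1 / 2 : ℝ) n • v ^ n‖ := by
    refine Summable.of_nonneg_of_le (fun _ => norm_nonneg _) (fun n => ?_)
      ((gel_summable h0 h1).mul_left C)
    rw [norm_smul, mul_left_comm]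
    exact mul_le_mul_of_nonneg_left (hC n) (norm_nonneg _)
  refine ⟨∑' n : ℕ, Ring.choose (1 / 2 : ℝ) n • v ^ n, ?_, fun ω => ?_⟩
  · rw [tsum_mul_tsum_eq_tsum_sum_antidiagonal_of_summable_norm hn hn]
    have h2 : ∀ n : ℕ, ∑ kl ∈ Finset.HasAntidiagonal.antidiagonal n,
        (Ring.choose (1 / 2 : ℝ) kl.1 • v ^ kl.1) * (Ring.choose (1 / 2 : ℝ) kl.2 • v ^ kl.2) =
        ((Nat.choose 1 n : ℕ) : ℝ) • v ^ n := by
      intro n
      rw [← Ring.choose_natCast, Nat.cast_one, ← add_halves (1 : ℝ),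
        Ring.add_choose_eq n (Commute.refl _), Finset.sum_smul, add_halves]
      refine Finset.sum_congr rfl fun kl hkl => ?_
      rw [smul_mul_smul_comm, ← pow_add, Finset.HasAntidiagonal.mem_antidiagonal.1 hkl]
    rw [tsum_congr h2, tsum_eq_sum (s := Finset.range 2)]
    · simp [Finset.sum_range_succ]
    · intro n hn'
      rw [Nat.choose_eq_zero_of_lt (by simpa using hn'), Nat.cast_zero, zero_smul]
  · have hx : |e v ω| < 1 := ((e v).norm_coe_le_norm ω).trans_lt hv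
    have h2 := ((ContinuousMap.evalCLM ℝ ω).comp e).hasSum hn.of_norm.hasSum
    have h3 : ∀ n : ℕ, ((ContinuousMap.evalCLM ℝ ω).comp e) (Ring.choose (1 / 2 : ℝ) n • v ^ n) =
        Ring.choose (1 / 2 : ℝ) n * e v ω ^ n := by
      intro n
      rw [map_smul, ContinuousLinearMap.comp_apply, gel_pow he]
      rfl
    simp only [h3] at h2
    have h4 : e (∑' n : ℕ, Ring.choose (1 / 2 : ℝ) n • v ^ n) ω = (1 + e v ω) ^ (1 / 2 : ℝ) :=
      h2.unique (gel_hasSum hx)
    rw [h4]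
    exact Real.rpow_pos_of_pos (by linarith [(abs_lt.1 hx).1]) _

theorem IsGel.exists_sqrt (he : IsGel e) (hz : Pos e z) : ∃ s, s * s = z ∧ Pos e s := by
  obtain ⟨M, v, hM, rfl, hv⟩ := gel_normal he hz
  obtain ⟨s, h1, h2⟩ := gel_sqrt he hv
  refine ⟨√M • s, by rw [smul_mul_smul_comm, Real.mul_self_sqrt hM.le, h1], fun ω => ?_⟩
  rw [map_smul]
  exact mul_pos (Real.sqrt_pos.2 hM) (h2 ω)

theorem gel_psqrt (he : IsGel e) (hz : Pos e z) :
    psqrt e z * psqrt e z = z ∧ Pos e (psqrt e z) := by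
  have h := he.exists_sqrt hz
  rw [psqrt, dif_pos h]
  exact h.choose_spec

theorem gel_unique (he : IsGel e) {s t : A} (hs : Pos e s) (ht : Pos e t) (h : s * s = t * t) :
    s = t := by
  have h1 : Pos e (s + t) := fun ω => by
    rw [map_add]
    exact add_pos (hs ω) (ht ω)
  have h2 : (s + t) * (s - t) = 0 := by linear_combination h
  exact sub_eq_zero.1 ((he.isUnit h1).mul_right_eq_zero.1 h2)

theorem IsGel.psqrt_mul_self (he : IsGel e) (hz : Pos e z) : psqrt e z * psqrt e z = z := by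
  exact (gel_psqrt he hz).1

theorem IsGel.psqrt_pos (he : IsGel e) (hz : Pos e z) : Pos e (psqrt e z) := by
  exact (gel_psqrt he hz).2

theorem IsGel.ev_psqrt (he : IsGel e) (hz : Pos e z) (ω : Ω) :
    e (psqrt e z) ω = √(e z ω) := by
  have h1 : e (psqrt e z) * e (psqrt e z) = e z := by rw [← he.map_mul, he.psqrt_mul_self hz]
  have h2 : e (psqrt e z) ω * e (psqrt e z) ω = e z ω := congrArg (fun f : C(Ω, ℝ) => f ω) h1
  rw [← h2, Real.sqrt_mul_self (he.psqrt_pos hz ω).le]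

theorem gel_both (he : IsGel e) (hz : Pos e z) : AnalyticAt ℝ (psqrt e) z ∧
    HasFDerivAt (psqrt e)
      (ContinuousLinearMap.mul ℝ A ((1 / 2 : ℝ) • Ring.inverse (psqrt e z))) z := by
  obtain ⟨h1, h2⟩ := gel_psqrt he hz
  generalize hs : psqrt e z = s at h1 h2
  have hu := he.isUnit h2
  have a1 : ((2 : ℝ) • s) * ((1 / 2 : ℝ) • Ring.inverse s) = 1 := by
    rw [smul_mul_smul_comm, Ring.mul_inverse_cancel _ hu]
    norm_num
  let L : A ≃L[ℝ] A := ContinuousLinearEquiv.equivOfInverse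
    (ContinuousLinearMap.mul ℝ A ((2 : ℝ) • s))
    (ContinuousLinearMap.mul ℝ A ((1 / 2 : ℝ) • Ring.inverse s))
    (fun x => by
      rw [ContinuousLinearMap.mul_apply', ContinuousLinearMap.mul_apply', ← mul_assoc,
        mul_comm _ ((2 : ℝ) • s), a1, one_mul])
    (fun x => by
      rw [ContinuousLinearMap.mul_apply', ContinuousLinearMap.mul_apply', ← mul_assoc, a1,
        one_mul])
  have hc : ContDiffAt ℝ ⊤ (fun x : A => x * x) s := contDiffAt_id.mul contDiffAt_id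
  have hd : HasFDerivAt (fun x : A => x * x) (L : A →L[ℝ] A) s := by
    have h3 := (hasFDerivAt_id (𝕜 := ℝ) s).fun_mul (hasFDerivAt_id (𝕜 := ℝ) s)
    refine h3.congr_fderiv ?_
    ext x
    change s • x + s • x = ((2 : ℝ) • s) * x
    rw [two_smul, add_mul, smul_eq_mul]
  have hst := hc.hasStrictFDerivAt' hd (by simp)
  have b1 : AnalyticAt ℝ (hst.localInverse _ L s) (s * s) :=
    (hc.to_localInverse hd (by simp)).analyticAt
  have b2 := hst.to_localInverse.hasFDerivAt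
  have b3 := hst.eventually_right_inverse
  have b4 := hst.localInverse_tendsto
  simp only [h1] at b1 b2 b3 b4
  have b5 : hst.localInverse _ L s =ᶠ[nhds z] psqrt e := by
    filter_upwards [b3, b4.eventually ((isOpen_pos e).mem_nhds h2),
      (isOpen_pos e).mem_nhds hz] with y c1 c2 c3
    exact gel_unique he c2 (he.psqrt_pos c3) (c1.trans (he.psqrt_mul_self c3).symm)
  exact ⟨b1.congr b5, b2.congr_of_eventuallyEq b5.symm⟩

theorem IsGel.analyticAt_psqrt (he : IsGel e) (hz : Pos e z) : AnalyticAt ℝ (psqrt e) z := by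
  exact (gel_both he hz).1

theorem IsGel.hasFDerivAt_psqrt (he : IsGel e) (hz : Pos e z) :
    HasFDerivAt (psqrt e)
      (ContinuousLinearMap.mul ℝ A ((1 / 2 : ℝ) • Ring.inverse (psqrt e z))) z := by
  exact (gel_both he hz).2

theorem IsGel.analyticAt_inverse (he : IsGel e) (hz : Pos e z) :
    AnalyticAt ℝ (Ring.inverse : A → A) z := by
  obtain ⟨u, rfl⟩ := he.isUnit hz
  exact _root_.analyticAt_inverse u

theorem IsGel.hasFDerivAt_inverse (he : IsGel e) (hz : Pos e z) :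
    HasFDerivAt (Ring.inverse : A → A)
      (ContinuousLinearMap.mul ℝ A (-(Ring.inverse z * Ring.inverse z))) z := by
  obtain ⟨u, rfl⟩ := he.isUnit hz
  refine (hasFDerivAt_ringInverse (𝕜 := ℝ) u).congr_fderiv ?_
  ext x
  rw [Ring.inverse_unit, neg_apply, ContinuousLinearMap.mulLeftRight_apply,
    ContinuousLinearMap.mul_apply']
  ring

end

end Pool.Agent.MMO
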