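import Pool.Agent.P.MP_6c3c64_gt.Defs

/-! Shortcut instances for operator spaces between `E0` and `Y0`. -/

set_option autoImplicit false

noncomputable section

namespace Pool.Agent.PS

section generic

variable (V V' : Type) [NormedAddCommGroup V] [NormedSpace ℝ V] [NormedAddCommGroup V']
  [NormedSpace ℝ V']

theorem Inst_tower : IsScalarTower ℝ (V →L[ℝ] V) (V →L[ℝ] V) := inferInstance
theorem Inst_comm : SMulCommClass ℝ (V →L[ℝ] V) (V →L[ℝ] V) := inferInstance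
theorem Inst_add : ContinuousAdd (V →L[ℝ] V') := inferInstance
theorem Inst_neg : ContinuousNeg (V →L[ℝ] V') := inferInstance
theorem Inst_sub : ContinuousSub (V →L[ℝ] V') := inferInstance
theorem Inst_mul : ContinuousMul (V →L[ℝ] V) := inferInstance
theorem Inst_smul : ContinuousSMul ℝ (V →L[ℝ] V') := inferInstance
theorem Inst_semiring : IsTopologicalSemiring (V →L[ℝ] V) := inferInstance
theorem Inst_ring : IsTopologicalRing (V →L[ℝ] V) := inferInstance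
theorem Inst_t3 : T3Space (V →L[ℝ] V') := inferInstance

end generic

instance : IsScalarTower ℝ (Y0 →L[ℝ] Y0) (Y0 →L[ℝ] Y0) := Inst_tower Y0
instance : IsScalarTower ℝ (E0 →L[ℝ] E0) (E0 →L[ℝ] E0) := Inst_tower E0
instance : SMulCommClass ℝ (Y0 →L[ℝ] Y0) (Y0 →L[ℝ] Y0) := Inst_comm Y0
instance : SMulCommClass ℝ (E0 →L[ℝ] E0) (E0 →L[ℝ] E0) := Inst_comm E0
instance : ContinuousAdd (Y0 →L[ℝ] Y0) := Inst_add Y0 Y0
instance : ContinuousAdd (E0 →L[ℝ] E0) := Inst_add E0 E0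
instance : ContinuousAdd (E0 →L[ℝ] Y0) := Inst_add E0 Y0
instance : ContinuousAdd (Y0 →L[ℝ] E0) := Inst_add Y0 E0
instance : ContinuousNeg (Y0 →L[ℝ] Y0) := Inst_neg Y0 Y0
instance : ContinuousNeg (E0 →L[ℝ] E0) := Inst_neg E0 E0
instance : ContinuousNeg (E0 →L[ℝ] Y0) := Inst_neg E0 Y0
instance : ContinuousSub (Y0 →L[ℝ] Y0) := Inst_sub Y0 Y0
instance : ContinuousSub (E0 →L[ℝ] E0) := Inst_sub E0 E0
instance : ContinuousSub (E0 →L[ℝ] Y0) := Inst_sub E0 Y0
instance : ContinuousMul (Y0 →L[ℝ] Y0) := Inst_mul Y0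
instance : ContinuousMul (E0 →L[ℝ] E0) := Inst_mul E0
instance : ContinuousSMul ℝ (Y0 →L[ℝ] Y0) := Inst_smul Y0 Y0
instance : ContinuousSMul ℝ (E0 →L[ℝ] E0) := Inst_smul E0 E0
instance : ContinuousSMul ℝ (E0 →L[ℝ] Y0) := Inst_smul E0 Y0
instance : IsTopologicalSemiring (Y0 →L[ℝ] Y0) := Inst_semiring Y0
instance : IsTopologicalSemiring (E0 →L[ℝ] E0) := Inst_semiring E0
instance : IsTopologicalRing (Y0 →L[ℝ] Y0) := Inst_ring Y0
instance : IsTopologicalRing (E0 →L[ℝ] E0) := Inst_ring E0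
instance : T3Space (Y0 →L[ℝ] Y0) := Inst_t3 Y0 Y0
instance : T3Space (E0 →L[ℝ] E0) := Inst_t3 E0 E0
instance : T3Space (E0 →L[ℝ] Y0) := Inst_t3 E0 Y0

end Pool.Agent.PS
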