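import Pool.Agent.P.MP_6c3c64_gt.Defs

/-! Row K0. Elementary facts about the profile of the symmetric body. Use
`tanh_sq_add_sech_sq`, `sech_mul_cosh`, `tanh_eq`, `sech_le_eps`, `hasDerivAt_eps` from `Basic`.
For `rr`: with `G = Nt0f / N0f`, `S = √(1 + G ^ 2)`, `rr = (S - 1) / (S + 1)`,
`|G| ≤ RR + bet * (1 + gam)`, so `S ≤ 37 / 25.5 = 74 / 51`, which is `rr ≤ 23 / 125`; at infinity
`G → -21 / 20`, `S → 29 / 20`.
-/

set_option autoImplicit false

open Real BoundedContinuousFunction MeasureTheory Set Filter Topology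
open scoped NNReal ENNReal

noncomputable section

namespace Pool.Agent.PS

theorem K0_cosh (x : ℝ) : cosh x - tanh x * sinh x = sech x := by
  have h1 := sech_mul_cosh x
  have ht := tanh_eq x
  have hc := cosh_sq x
  linear_combination (-sinh x) * ht + sech x * hc - cosh x * h1
theorem K0_sinh (x : ℝ) : tanh x * cosh x = sinh x := by
  have h1 := sech_mul_cosh x
  have ht := tanh_eq x
  linear_combination cosh x * ht + sinh x * h1
theorem K0_tsq (x : ℝ) : tanh x ^ 2 ≤ 1 := by
  nlinarith [tanh_sq_add_sech_sq x, sq_nonneg (sech x)]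
theorem K0_emu (x : ℝ) : eps x * mu0f x =
    sech x + eps x * (bet * gam * ((1 + gam) * tanh x ^ 2 - sech x ^ 2)) := by
  have := (eps_pos x).ne'
  unfold mu0f
  field_simp

theorem N0f_eq (x : ℝ) : N0f x = n0f x * sech x := by
  have h1 := sech_mul_cosh x
  unfold N0f n0f
  linear_combination (-1) * h1
theorem eta0f_eq (x : ℝ) : eta0f x = sech x * a0f x := by
  have ht := tanh_eq x
  unfold eta0f a0f
  linear_combination ht
theorem nu0f_eq (x : ℝ) : nu0f x = n0f x - tanh x * a0f x := by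
  have h := K0_cosh x
  unfold nu0f n0f a0f
  linear_combination (-1) * h
theorem Nt0f_eq (x : ℝ) : Nt0f x = a0f x - tanh x * n0f x := by
  have h := K0_sinh x
  unfold Nt0f n0f a0f
  linear_combination h
theorem hasDerivAt_n0f (x : ℝ) : HasDerivAt n0f (a0f x) x := by
  have h := ((hasDerivAt_cosh x).const_add RR).add ((hasDerivAt_eps x).const_mul bet)
  refine HasDerivAt.congr_deriv (f := n0f) h ?_
  unfold a0f; ring
theorem hasDerivAt_a0f (x : ℝ) : HasDerivAt a0f (eps x * mu0f x + tanh x * a0f x) x := by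
  have h := (hasDerivAt_sinh x).sub
    (((hasDerivAt_tanh' x).const_mul (bet * gam)).mul (hasDerivAt_eps x))
  refine HasDerivAt.congr_deriv (f := a0f) h ?_
  have h1 := K0_cosh x
  rw [K0_emu]
  unfold a0f
  linear_combination h1
theorem hasDerivAt_N0f (x : ℝ) : HasDerivAt N0f (eta0f x - tanh x * N0f x) x := by
  have e : N0f = fun x => n0f x * sech x := funext N0f_eq
  have h := (hasDerivAt_n0f x).mul (hasDerivAt_sech x)
  have h' : HasDerivAt N0f (a0f x * sech x + n0f x * -(tanh x * sech x)) x := by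
    conv => arg 1; rw [e]
    exact h
  refine h'.congr_deriv ?_
  rw [eta0f_eq, N0f_eq]; ring
theorem hasDerivAt_eta0f (x : ℝ) : HasDerivAt eta0f (eps x * (sech x * mu0f x)) x := by
  have e : eta0f = fun x => sech x * a0f x := funext eta0f_eq
  have h := (hasDerivAt_sech x).mul (hasDerivAt_a0f x)
  have h' : HasDerivAt eta0f
      (-(tanh x * sech x) * a0f x + sech x * (eps x * mu0f x + tanh x * a0f x)) x := by
    conv => arg 1; rw [e]
    exact h
  refine h'.congr_deriv ?_
  ring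
theorem hasDerivAt_nu0f (x : ℝ) : HasDerivAt nu0f (eps x * -(tanh x * mu0f x)) x := by
  have e : nu0f = fun x => n0f x - tanh x * a0f x := funext nu0f_eq
  have h := (hasDerivAt_n0f x).sub ((hasDerivAt_tanh' x).mul (hasDerivAt_a0f x))
  have h' : HasDerivAt nu0f
      (a0f x - (sech x ^ 2 * a0f x + tanh x * (eps x * mu0f x + tanh x * a0f x))) x := by
    conv => arg 1; rw [e]
    exact h
  refine h'.congr_deriv ?_
  have h1 := tanh_sq_add_sech_sq x
  linear_combination (-a0f x) * h1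
theorem hasDerivAt_Nt0f (x : ℝ) : HasDerivAt Nt0f (eps x * mu0f x - sech x * N0f x) x := by
  have e : Nt0f = fun x => a0f x - tanh x * n0f x := funext Nt0f_eq
  have h := (hasDerivAt_a0f x).sub ((hasDerivAt_tanh' x).mul (hasDerivAt_n0f x))
  have h' : HasDerivAt Nt0f
      (eps x * mu0f x + tanh x * a0f x - (sech x ^ 2 * n0f x + tanh x * a0f x)) x := by
    conv => arg 1; rw [e]
    exact h
  refine h'.congr_deriv ?_
  rw [N0f_eq]; ring
theorem eta0f_sub (x : ℝ) : eta0f x - tanh x * N0f x = sech x * Nt0f x := by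
  rw [eta0f_eq, N0f_eq, Nt0f_eq]; ring
theorem continuous_mu0f : Continuous mu0f := by
  unfold mu0f
  exact (continuous_sech.div continuous_eps fun x => (eps_pos x).ne').add
    (continuous_const.mul ((continuous_const.mul (continuous_tanh'.pow 2)).sub
      (continuous_sech.pow 2)))
theorem n0f_neg (x : ℝ) : n0f (-x) = n0f x := by
  unfold n0f; rw [cosh_neg, eps_neg]
theorem a0f_neg (x : ℝ) : a0f (-x) = -a0f x := by
  unfold a0f; rw [sinh_neg, eps_neg, tanh_neg]; ring
theorem N0f_neg (x : ℝ) : N0f (-x) = N0f x := by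
  unfold N0f; rw [sech_neg, eps_neg]
theorem eta0f_neg (x : ℝ) : eta0f (-x) = -eta0f x := by
  unfold eta0f; rw [sech_neg, eps_neg, tanh_neg]; ring
theorem nu0f_neg (x : ℝ) : nu0f (-x) = nu0f x := by
  unfold nu0f; rw [sech_neg, eps_neg, tanh_neg]; ring
theorem Nt0f_neg (x : ℝ) : Nt0f (-x) = -Nt0f x := by
  unfold Nt0f; rw [eps_neg, tanh_neg]; ring
theorem mu0f_neg (x : ℝ) : mu0f (-x) = mu0f x := by
  unfold mu0f; rw [sech_neg, eps_neg, tanh_neg]; ring
theorem rr_neg (x : ℝ) : rr (-x) = rr x := by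
  unfold rr; rw [Nt0f_neg, N0f_neg, neg_div, neg_sq]
theorem N0f_bounds (x : ℝ) : 1 ≤ N0f x ∧ N0f x ≤ 21 / 10 := by
  have h1 := sech_pos x
  have h2 := sech_le_one x
  have h3 := eps_pos x
  have h4 := eps_le_one x
  have h5 : eps x * sech x ≤ 1 := mul_le_one₀ h4 h1.le h2
  have h6 : 0 ≤ eps x * sech x := by positivity
  unfold N0f RR bet
  constructor <;> nlinarith
theorem nu0f_bounds (x : ℝ) : 21 / 20 ≤ nu0f x ∧ nu0f x ≤ 21 / 10 := by
  have h1 := sech_pos x
  have h2 := sech_le_one x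
  have h3 := eps_pos x
  have h4 := eps_le_one x
  have h5 : eps x * tanh x ^ 2 ≤ 1 := mul_le_one₀ h4 (sq_nonneg _) (K0_tsq x)
  have h6 : 0 ≤ eps x * tanh x ^ 2 := by positivity
  unfold nu0f RR bet gam
  constructor <;> nlinarith
theorem mu0f_bounds (x : ℝ) : 1 / 100000 ≤ mu0f x ∧ mu0f x ≤ 2 := by
  have h1 := sech_pos x
  have h2 := sech_le_one x
  have h3 := eps_pos x
  have h4 := eps_le_one x
  have h5 : sech x ≤ sech x / eps x := by
    rw [le_div_iff₀ h3]; nlinarith
  have h6 : sech x / eps x ≤ 1 := by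
    rw [div_le_one h3]; exact sech_le_eps x
  have h7 : sech x ^ 2 ≤ sech x := by nlinarith
  have h8 := tanh_sq_add_sech_sq x
  have h9 := sq_nonneg (sech x)
  unfold mu0f bet gam
  constructor <;> nlinarith
theorem abs_eta0f_le (x : ℝ) : |eta0f x| ≤ 1 := by
  have h1 := sech_pos x
  have h2 := sech_le_one x
  have h3 := eps_pos x
  have h4 := eps_le_one x
  have h5 : eps x * sech x ≤ 1 := mul_le_one₀ h4 h1.le h2
  have h6 : 0 ≤ eps x * sech x := by positivity
  have h7 : |1 - bet * gam * eps x * sech x| ≤ 1 := by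
    unfold bet gam
    rw [abs_le]; constructor <;> nlinarith
  unfold eta0f
  rw [abs_mul]
  exact mul_le_one₀ (abs_tanh_le_one x) (abs_nonneg _) h7
theorem abs_Nt0f_le (x : ℝ) : |Nt0f x| ≤ 105101 / 100000 := by
  have h3 := eps_pos x
  have h4 := eps_le_one x
  have h7 : |RR + bet * (1 + gam) * eps x| ≤ 105101 / 100000 := by
    unfold RR bet gam
    rw [abs_le]; constructor <;> nlinarith
  unfold Nt0f
  rw [abs_neg, abs_mul]
  have := mul_le_mul (abs_tanh_le_one x) h7 (abs_nonneg _) zero_le_one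
  linarith
theorem rr_bounds (x : ℝ) : 0 ≤ rr x ∧ rr x ≤ 23 / 125 := by
  have hN := (N0f_bounds x).1
  have hG : |Nt0f x / N0f x| ≤ 105101 / 100000 := by
    rw [abs_div, abs_of_pos (by linarith : 0 < N0f x)]
    exact (div_le_self (abs_nonneg _) hN).trans (abs_Nt0f_le x)
  have hG2 : (Nt0f x / N0f x) ^ 2 ≤ (105101 / 100000) ^ 2 := by
    rw [← sq_abs]
    exact pow_le_pow_left₀ (abs_nonneg _) hG 2
  have hS1 : 1 ≤ √(1 + (Nt0f x / N0f x) ^ 2) := by
    rw [one_le_sqrt]; nlinarith [sq_nonneg (Nt0f x / N0f x)]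
  have hS2 : √(1 + (Nt0f x / N0f x) ^ 2) ≤ 74 / 51 := by
    rw [sqrt_le_iff]
    constructor
    · norm_num
    · nlinarith
  unfold rr
  constructor
  · exact div_nonneg (by linarith) (by linarith)
  · rw [div_le_iff₀ (by linarith)]; linarith
theorem rr_spec (x : ℝ) : 4 * rr x * N0f x ^ 2 = (1 - rr x) ^ 2 * Nt0f x ^ 2 := by
  have hN := (N0f_bounds x).1
  have hN0 : N0f x ≠ 0 := by linarith
  have hS : √(1 + (Nt0f x / N0f x) ^ 2) ^ 2 = 1 + (Nt0f x / N0f x) ^ 2 :=
    sq_sqrt (by positivity)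
  have hG : (Nt0f x / N0f x) ^ 2 * N0f x ^ 2 = Nt0f x ^ 2 := by field_simp
  have h0 : 0 ≤ √(1 + (Nt0f x / N0f x) ^ 2) := sqrt_nonneg _
  unfold rr
  generalize √(1 + (Nt0f x / N0f x) ^ 2) = S at *
  have hS1 : S + 1 ≠ 0 := by linarith
  rw [← hG]
  have e : (Nt0f x / N0f x) ^ 2 = (S - 1) * (S + 1) := by linear_combination (-1) * hS
  rw [e]
  field_simp
  ring
theorem K0_eps : Tendsto eps atTop (𝓝 0) := by
  have h1 : Tendsto (fun x : ℝ => gam * |x|) atTop atTop :=
    tendsto_abs_atTop_atTop.const_mul_atTop gam_pos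
  have h2 := (tendsto_exp_neg_atTop_nhds_zero.comp h1).const_mul 2
  rw [mul_zero] at h2
  exact squeeze_zero (fun x => (eps_pos x).le) eps_le_exp h2
theorem K0_sech : Tendsto sech atTop (𝓝 0) :=
  squeeze_zero (fun x => (sech_pos x).le) sech_le_eps K0_eps
theorem tendsto_tanh_atTop : Tendsto tanh atTop (𝓝 1) := by
  have h1 : Tendsto (fun x => 1 - sech x ^ 2) atTop (𝓝 1) := by
    have := (K0_sech.pow 2).const_sub 1
    simpa using this
  refine tendsto_of_tendsto_of_tendsto_of_le_of_le' h1 tendsto_const_nhds ?_ ?_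
  · filter_upwards [eventually_ge_atTop (0 : ℝ)] with x hx
    have h2 : 0 ≤ tanh x := by
      rw [tanh_eq]; exact mul_nonneg (sinh_nonneg_iff.2 hx) (sech_pos x).le
    have h3 := (abs_le.1 (abs_tanh_le_one x)).2
    nlinarith [tanh_sq_add_sech_sq x]
  · exact Eventually.of_forall fun x => (abs_le.1 (abs_tanh_le_one x)).2
theorem tendsto_sech_atTop : Tendsto sech atTop (𝓝 0) := K0_sech
theorem tendsto_eps_atTop : Tendsto eps atTop (𝓝 0) := K0_eps
theorem tendsto_N0f : Tendsto N0f atTop (𝓝 1) := by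
  have := ((((K0_eps.const_mul bet).const_add RR).mul K0_sech).const_add 1)
  simp only [mul_zero, add_zero] at this
  exact this
theorem tendsto_nu0f : Tendsto nu0f atTop (𝓝 RR) := by
  have := (K0_sech.const_add RR).add ((K0_eps.const_mul bet).mul
    (((tendsto_tanh_atTop.pow 2).const_mul gam).const_add 1))
  simp only [mul_zero, add_zero, zero_mul] at this
  exact this
theorem tendsto_rr : Tendsto rr atTop (𝓝 r0) := by
  have hNt : Tendsto Nt0f atTop (𝓝 (-RR)) := by
    have := (tendsto_tanh_atTop.mul ((K0_eps.const_mul (bet * (1 + gam))).const_add RR)).neg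
    simp only [mul_zero, add_zero, one_mul] at this
    exact this
  have hG := hNt.div tendsto_N0f one_ne_zero
  have hS := ((hG.pow 2).const_add 1).sqrt
  have e : √(1 + (-RR / 1) ^ 2) = 29 / 20 := by
    rw [sqrt_eq_iff_mul_self_eq (by positivity) (by norm_num)]
    norm_num [RR]
  rw [e] at hS
  have h := (hS.sub_const 1).div (hS.add_const 1) (by norm_num)
  have e2 : ((29 : ℝ) / 20 - 1) / (29 / 20 + 1) = r0 := by norm_num [r0]
  rw [e2] at h
  exact h

end Pool.Agent.PS
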