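import Pool.Agent.P.MP_6c3c64_gt.K0

/-! Row K1. The profile functions as elements of `E1`. Use `E1.mk`, `mkB` and the derivative
formulas of `K0`; `sech / eps` is bounded by one (`sech_le_eps`). `E1.exists_comp`: the second
component is `ψd (f x) * sndL a x`, bounded because `ψd` is bounded on the compact interval.
`Ninv` and `rE` come from `exists_comp` (`rr = ψ ((Nt0 * Ninv) ^ 2)`,
`ψ s = (√(1 + s) - 1) / (√(1 + s) + 1)` on `[0, 2]`).
-/

set_option autoImplicit false

open Real BoundedContinuousFunction MeasureTheory Set Filter Topology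
open scoped NNReal ENNReal

noncomputable section

namespace Pool.Agent.PS

theorem E1.exists_comp (a : E1) (lo hi : ℝ) (ha : ∀ x, fstL a x ∈ Icc lo hi) (ψ ψd : ℝ → ℝ)
    (hψ : ∀ s ∈ Icc lo hi, HasDerivAt ψ (ψd s) s) (hc : ContinuousOn ψd (Icc lo hi)) :
    ∃ b : E1, ∀ x, fstL b x = ψ (fstL a x) := by
  have hcψ : ContinuousOn ψ (Icc lo hi) := fun s hs => (hψ s hs).continuousAt.continuousWithinAt
  obtain ⟨C, hC⟩ := isCompact_Icc.exists_bound_of_continuousOn hcψ
  obtain ⟨D, hD⟩ := isCompact_Icc.exists_bound_of_continuousOn hc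
  have c1 : Continuous fun x => ψ (fstL a x) :=
    hcψ.comp_continuous (fstL a).continuous ha
  have c2 : Continuous fun x => ψd (fstL a x) :=
    hc.comp_continuous (fstL a).continuous ha
  refine ⟨E1.mk (mkB (fun x => ψ (fstL a x)) c1 C fun x => hC _ (ha x))
    (mkB (fun x => ψd (fstL a x)) c2 D (fun x => hD _ (ha x)) * sndL a) fun x => ?_,
    fun x => rfl⟩
  have h := (hψ _ (ha x)).comp x (a.hasDerivAt x)
  refine HasDerivAt.congr_deriv (f := fun x => ψ (fstL a x)) h ?_
  simp only [BoundedContinuousFunction.mul_apply, mkB_apply]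
  ring

/-- `sech / eps` -/
def K1_seB : E0 := mkB (fun x => sech x / eps x)
  (continuous_sech.div continuous_eps fun x => (eps_pos x).ne') 1 fun x => by
    have h0 := sech_pos x
    have h1 := eps_pos x
    rw [abs_of_pos (by positivity), div_le_one h1]
    exact sech_le_eps x

def K1_tE : E1 := E1.mk tanhB s2eB fun x => by
  refine HasDerivAt.congr_deriv (f := tanh) (hasDerivAt_tanh' x) ?_
  have := (eps_pos x).ne'
  simp only [s2eB_apply]
  field_simp

def K1_sE : E1 := E1.mk sechB (-(tanhB * K1_seB)) fun x => by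
  refine HasDerivAt.congr_deriv (f := sech) (hasDerivAt_sech x) ?_
  have := (eps_pos x).ne'
  simp only [K1_seB, BoundedContinuousFunction.neg_apply, BoundedContinuousFunction.mul_apply,
    tanhB_apply, mkB_apply]
  field_simp

def K1_eE : E1 := E1.mk epsB (-(gam • tanhB)) fun x => by
  refine HasDerivAt.congr_deriv (f := eps) (hasDerivAt_eps x) ?_
  simp only [BoundedContinuousFunction.neg_apply, BoundedContinuousFunction.smul_apply,
    tanhB_apply, smul_eq_mul]
  ring

theorem K1_tE_apply (x : ℝ) : fstL K1_tE x = tanh x := rfl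
theorem K1_sE_apply (x : ℝ) : fstL K1_sE x = sech x := rfl
theorem K1_eE_apply (x : ℝ) : fstL K1_eE x = eps x := rfl

def K1_N0 : E1 := 1 + (RR • (1 : E1) + bet • K1_eE) * K1_sE
def K1_eta0 : E1 := K1_tE * (1 - (bet * gam) • (K1_eE * K1_sE))
def K1_nu0 : E1 := RR • (1 : E1) + K1_sE + bet • (K1_eE * (1 + gam • (K1_tE * K1_tE)))
def K1_Nt0 : E1 := -(K1_tE * (RR • (1 : E1) + (bet * (1 + gam)) • K1_eE))

theorem K1_hN0 (x : ℝ) : fstL K1_N0 x = N0f x := by
  simp [K1_N0, N0f, K1_sE_apply, K1_eE_apply]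
theorem K1_heta0 (x : ℝ) : fstL K1_eta0 x = eta0f x := by
  simp only [K1_eta0, eta0f, fstL_mul, map_sub, map_smul, fstL_one,
    BoundedContinuousFunction.mul_apply, BoundedContinuousFunction.sub_apply,
    BoundedContinuousFunction.smul_apply, BoundedContinuousFunction.coe_one, Pi.one_apply,
    smul_eq_mul, K1_tE_apply, K1_sE_apply, K1_eE_apply]
  ring
theorem K1_hnu0 (x : ℝ) : fstL K1_nu0 x = nu0f x := by
  simp only [K1_nu0, nu0f, fstL_mul, map_add, map_smul, fstL_one,
    BoundedContinuousFunction.mul_apply, BoundedContinuousFunction.add_apply,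
    BoundedContinuousFunction.smul_apply, BoundedContinuousFunction.coe_one, Pi.one_apply,
    smul_eq_mul, K1_tE_apply, K1_sE_apply, K1_eE_apply]
  ring
theorem K1_hNt0 (x : ℝ) : fstL K1_Nt0 x = Nt0f x := by
  simp only [K1_Nt0, Nt0f, fstL_mul, map_add, map_neg, map_smul, fstL_one,
    BoundedContinuousFunction.mul_apply, BoundedContinuousFunction.add_apply,
    BoundedContinuousFunction.neg_apply,
    BoundedContinuousFunction.smul_apply, BoundedContinuousFunction.coe_one, Pi.one_apply,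
    smul_eq_mul, K1_tE_apply, K1_eE_apply]
  ring

theorem K1_inv (a : E1) (ha : ∀ x, fstL a x ∈ Icc (1 : ℝ) 3) :
    ∃ b : E1, ∀ x, fstL b x = (fstL a x)⁻¹ := by
  refine a.exists_comp 1 3 ha (fun s => s⁻¹) (fun s => -(s ^ 2)⁻¹) (fun s hs => ?_) ?_
  · exact hasDerivAt_inv (by linarith [hs.1])
  · refine ContinuousOn.neg (ContinuousOn.inv₀ (by fun_prop) fun s hs => ?_)
    have := hs.1
    positivity

theorem K1_psi (a : E1) (ha : ∀ x, fstL a x ∈ Icc (0 : ℝ) 2) :
    ∃ b : E1, ∀ x, fstL b x = (√(1 + fstL a x) - 1) / (√(1 + fstL a x) + 1) := by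
  refine a.exists_comp 0 2 ha (fun s => (√(1 + s) - 1) / (√(1 + s) + 1))
    (fun s => (1 / (2 * √(1 + s)) * (√(1 + s) + 1) - (√(1 + s) - 1) * (1 / (2 * √(1 + s))))
      / (√(1 + s) + 1) ^ 2) (fun s hs => ?_) ?_
  · have h1 : (1 + s) ≠ 0 := by linarith [hs.1]
    have h2 : HasDerivAt (fun s => √(1 + s)) (1 / (2 * √(1 + s))) s :=
      ((hasDerivAt_id s).const_add 1).sqrt h1
    have h3 : √(1 + s) + 1 ≠ 0 := by positivity
    exact (h2.sub_const 1).div (h2.add_const 1) h3
  · have hq : ContinuousOn (fun s : ℝ => 1 / (2 * √(1 + s))) (Icc 0 2) := by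
      refine ContinuousOn.div (by fun_prop) (by fun_prop) fun s hs => ?_
      have : 0 < √(1 + s) := Real.sqrt_pos.2 (by linarith [hs.1])
      positivity
    refine ContinuousOn.div ((hq.mul (by fun_prop)).sub (ContinuousOn.mul (by fun_prop) hq))
      (by fun_prop) fun s _ => ?_
    positivity

theorem exists_base0 : Nonempty Base0 := by
  obtain ⟨Ni, hNi⟩ := K1_inv K1_N0 fun x => by
    rw [K1_hN0]; exact ⟨(N0f_bounds x).1, by linarith [(N0f_bounds x).2]⟩
  obtain ⟨nui, hnui⟩ := K1_inv K1_nu0 fun x => by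
    rw [K1_hnu0]; exact ⟨by linarith [(nu0f_bounds x).1], by linarith [(nu0f_bounds x).2]⟩
  have hq : ∀ x, fstL ((K1_Nt0 * Ni) ^ 2) x = (Nt0f x / N0f x) ^ 2 := fun x => by
    rw [fstL_pow, fstL_mul, BoundedContinuousFunction.pow_apply,
      BoundedContinuousFunction.mul_apply, hNi, K1_hNt0, K1_hN0, div_eq_mul_inv]
  obtain ⟨r, hr⟩ := K1_psi ((K1_Nt0 * Ni) ^ 2) fun x => by
    rw [hq]
    refine ⟨sq_nonneg _, ?_⟩
    have h1 := (N0f_bounds x).1
    have h2 := abs_Nt0f_le x
    have h3 : |Nt0f x / N0f x| ≤ 105101 / 100000 := by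
      rw [abs_div, abs_of_pos (by linarith : 0 < N0f x)]
      exact (div_le_self (abs_nonneg _) h1).trans h2
    rw [← sq_abs]
    nlinarith [abs_nonneg (Nt0f x / N0f x)]
  have hb : ∀ x, |mu0f x| ≤ 2 := fun x =>
    abs_le.2 ⟨by linarith [(mu0f_bounds x).1], (mu0f_bounds x).2⟩
  refine ⟨⟨K1_N0, Ni, K1_eta0, K1_nu0, K1_Nt0, K1_tE, K1_sE, r,
    mkB mu0f continuous_mu0f 2 hb, mkB mu0f continuous_mu0f 2 hb * fstL nui,
    K1_hN0, fun x => ?_, K1_heta0, K1_hnu0, K1_hNt0, K1_tE_apply, K1_sE_apply, fun x => ?_,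
    fun x => rfl, fun x => ?_⟩⟩
  · rw [hNi, K1_hN0]
  · rw [hr, hq, rr]
  · rw [BoundedContinuousFunction.mul_apply, hnui, K1_hnu0, mkB_apply, div_eq_mul_inv]

end Pool.Agent.PS
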