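import Pool.Agent.P.MP_6c3c64_gt.Defs

/-! Row K3. The numbers `cc n` and the series `kser`. `cc (j + n) ≤ cc j * cc n` because
`cc (k + 1) / cc k = (k + 3 / 2) / (k + 1)` decreases; `cc j ≤ (3 / 2) ^ j` bounds the tails of
`kser` geometrically (four terms are enough for the intervals). Numerical values:
`ginf n / ginf 0 = 0.27204, 0.06219, 0.013298, 0.0027443` for `n = 1, 2, 3, 4`;
the three sums are `0.3717`, `0.8979`, `0.08102` (finitely many terms plus a geometric tail, using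
`cc (k + 1) ≤ cc k * 11 / 10` for `k ≥ 4`).
-/

set_option autoImplicit false

open Real BoundedContinuousFunction MeasureTheory Set Filter Topology
open scoped NNReal ENNReal

noncomputable section

namespace Pool.Agent.PS

theorem K3_succ (n : ℕ) : cc (n + 1) = cc n * (n + 3 / 2) / (n + 1) := rfl

theorem cc_pos (n : ℕ) : 0 < cc n := by
  induction n with
  | zero => simp [cc]
  | succ n ih => rw [K3_succ]; positivity

theorem one_le_cc (n : ℕ) : 1 ≤ cc n := by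
  induction n with
  | zero => simp [cc]
  | succ n ih =>
    rw [K3_succ, le_div_iff₀ (by positivity)]
    have : (0 : ℝ) ≤ n := by positivity
    nlinarith

theorem cc_le (n : ℕ) : cc n ≤ n + 1 := by
  induction n with
  | zero => simp [cc]
  | succ n ih =>
    rw [K3_succ, div_le_iff₀ (by positivity)]
    have : (0 : ℝ) ≤ n := by positivity
    push_cast
    nlinarith

theorem cc_add_le (j n : ℕ) : cc (j + n) ≤ cc j * cc n := by
  induction n with
  | zero => simp [cc]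
  | succ n ih =>
    rw [← add_assoc, K3_succ, K3_succ]
    have hj : (0 : ℝ) ≤ j := by positivity
    have hn : (0 : ℝ) ≤ n := by positivity
    have h1 : (((j + n : ℕ) : ℝ) + 3 / 2) / (((j + n : ℕ) : ℝ) + 1) ≤ ((n : ℝ) + 3 / 2) / (n + 1) := by
      rw [div_le_div_iff₀ (by positivity) (by positivity)]
      push_cast
      nlinarith
    calc cc (j + n) * (((j + n : ℕ) : ℝ) + 3 / 2) / (((j + n : ℕ) : ℝ) + 1)
        = cc (j + n) * ((((j + n : ℕ) : ℝ) + 3 / 2) / (((j + n : ℕ) : ℝ) + 1)) := by ring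
      _ ≤ (cc j * cc n) * (((n : ℝ) + 3 / 2) / (n + 1)) :=
        mul_le_mul ih h1 (by positivity) (mul_pos (cc_pos j) (cc_pos n)).le
      _ = cc j * (cc n * (n + 3 / 2) / (n + 1)) := by ring

theorem K3_le_pow (j : ℕ) : cc j ≤ (3 / 2) ^ j := by
  induction j with
  | zero => simp [cc]
  | succ n ih =>
    have h := cc_add_le n 1
    have h1 : cc 1 = 3 / 2 := by norm_num [cc]
    rw [h1] at h
    rw [pow_succ]
    nlinarith

theorem K3_tail (k : ℕ) (hk : 4 ≤ k) (n : ℕ) : cc (n + k) ≤ cc k * (11 / 10) ^ n := by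
  induction n with
  | zero => simp
  | succ n ih =>
    have e : n + 1 + k = (n + k) + 1 := by omega
    rw [e, K3_succ, div_le_iff₀ (by positivity), pow_succ]
    have hk' : (4 : ℝ) ≤ ((n + k : ℕ) : ℝ) := by exact_mod_cast (by omega : 4 ≤ n + k)
    have hp := cc_pos (n + k)
    have h2 : cc (n + k) * (((n + k : ℕ) : ℝ) + 3 / 2) ≤
        cc (n + k) * (11 / 10 * (((n + k : ℕ) : ℝ) + 1)) :=
      mul_le_mul_of_nonneg_left (by linarith) hp.le
    have h3 : cc (n + k) * (11 / 10 * (((n + k : ℕ) : ℝ) + 1)) ≤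
        (cc k * (11 / 10) ^ n) * (11 / 10 * (((n + k : ℕ) : ℝ) + 1)) :=
      mul_le_mul_of_nonneg_right ih (by positivity)
    calc _ ≤ _ := h2
      _ ≤ _ := h3
      _ = _ := by ring

theorem K3_term_nonneg {r : ℝ} (h0 : 0 ≤ r) (n j : ℕ) :
    0 ≤ cc j * cc (j + n) * r ^ (2 * j + n) :=
  mul_nonneg (mul_pos (cc_pos _) (cc_pos _)).le (pow_nonneg h0 _)

theorem K3_term_le {r : ℝ} (h0 : 0 ≤ r) (n j : ℕ) :
    cc j * cc (j + n) * r ^ (2 * j + n) ≤ cc n * r ^ n * (9 / 4 * r ^ 2) ^ j := by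
  have h1 : cc j * cc (j + n) ≤ (3 / 2) ^ j * ((3 / 2) ^ j * cc n) := by
    refine mul_le_mul (K3_le_pow j) ((cc_add_le j n).trans ?_) (cc_pos _).le (by positivity)
    exact mul_le_mul_of_nonneg_right (K3_le_pow j) (cc_pos n).le
  calc cc j * cc (j + n) * r ^ (2 * j + n)
      ≤ (3 / 2) ^ j * ((3 / 2) ^ j * cc n) * r ^ (2 * j + n) :=
        mul_le_mul_of_nonneg_right h1 (pow_nonneg h0 _)
    _ = cc n * r ^ n * (9 / 4 * r ^ 2) ^ j := by
        have e : (9 / 4 : ℝ) = 3 / 2 * (3 / 2) := by norm_num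
        rw [e, mul_pow, mul_pow, pow_add, pow_mul]
        ring

theorem K3_term_le' {r : ℝ} (h0 : 0 ≤ r) (h1 : r ≤ 1 / 5) (n j : ℕ) :
    cc j * cc (j + n) * r ^ (2 * j + n) ≤ cc n * r ^ n * (9 / 100) ^ j := by
  refine (K3_term_le h0 n j).trans (mul_le_mul_of_nonneg_left ?_
    (mul_nonneg (cc_pos n).le (pow_nonneg h0 n)))
  exact pow_le_pow_left₀ (by positivity) (by nlinarith) j

theorem summable_kser {r : ℝ} (h0 : 0 ≤ r) (h1 : r ≤ 1 / 5) (n : ℕ) :
    Summable fun j => cc j * cc (j + n) * r ^ (2 * j + n) :=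
  Summable.of_nonneg_of_le (K3_term_nonneg h0 n) (K3_term_le' h0 h1 n)
    ((summable_geometric_of_lt_one (by norm_num) (by norm_num)).mul_left _)

theorem one_le_kser_zero {r : ℝ} (h0 : 0 ≤ r) (h1 : r ≤ 1 / 5) : 1 ≤ kser r 0 := by
  have h := (summable_kser h0 h1 0).le_tsum 0 fun j _ => K3_term_nonneg h0 0 j
  have e : cc 0 * cc (0 + 0) * r ^ (2 * 0 + 0) = 1 := by simp [cc]
  rw [e] at h
  exact h

theorem kser_nonneg {r : ℝ} (h0 : 0 ≤ r) (n : ℕ) : 0 ≤ kser r n :=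
  tsum_nonneg (K3_term_nonneg h0 n)

theorem kser_le {r : ℝ} (h0 : 0 ≤ r) (h1 : r ≤ 1 / 5) (n : ℕ) :
    kser r n ≤ cc n * r ^ n * kser r 0 := by
  unfold kser
  rw [← tsum_mul_left]
  refine (summable_kser h0 h1 n).tsum_le_tsum (fun j => ?_) ((summable_kser h0 h1 0).mul_left _)
  calc cc j * cc (j + n) * r ^ (2 * j + n) ≤ cc j * (cc j * cc n) * r ^ (2 * j + n) :=
        mul_le_mul_of_nonneg_right (mul_le_mul_of_nonneg_left (cc_add_le j n) (cc_pos j).le)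
          (pow_nonneg h0 _)
    _ = cc n * r ^ n * (cc j * cc (j + 0) * r ^ (2 * j + 0)) := by
        rw [add_zero, add_zero, pow_add]; ring

theorem continuousOn_kser (n : ℕ) : ContinuousOn (fun r => kser r n) (Icc 0 (1 / 5)) := by
  unfold kser
  refine continuousOn_tsum (u := fun j => cc n * (9 / 100) ^ j) (fun j => ?_)
    ((summable_geometric_of_lt_one (by norm_num) (by norm_num)).mul_left _) (fun j r hr => ?_)
  · exact (continuous_const.mul (continuous_pow _)).continuousOn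
  · rw [Real.norm_of_nonneg (K3_term_nonneg hr.1 n j)]
    refine (K3_term_le' hr.1 hr.2 n j).trans (mul_le_mul_of_nonneg_right ?_ (by positivity))
    have : r ^ n ≤ 1 := pow_le_one₀ hr.1 (by linarith [hr.2])
    nlinarith [cc_pos n]

theorem K3_r0 : 0 ≤ r0 ∧ r0 ≤ 1 / 5 := by unfold r0; norm_num

theorem K3_c_pos : 0 < RR * (1 - r0) ^ 3 := by unfold RR r0; positivity

theorem K3_ginf (n : ℕ) : ginf n = RR * (1 - r0) ^ 3 * kser r0 n := by unfold ginf; ring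

theorem ginf_zero_pos : 0 < ginf 0 := by
  rw [K3_ginf]
  exact mul_pos K3_c_pos (lt_of_lt_of_le one_pos (one_le_kser_zero K3_r0.1 K3_r0.2))

theorem ginf_nonneg (n : ℕ) : 0 ≤ ginf n := by
  rw [K3_ginf]
  exact mul_nonneg K3_c_pos.le (kser_nonneg K3_r0.1 n)

theorem ginf_le (n : ℕ) : ginf n ≤ cc n * r0 ^ n * ginf 0 := by
  rw [K3_ginf, K3_ginf]
  have := mul_le_mul_of_nonneg_left (kser_le K3_r0.1 K3_r0.2 n) K3_c_pos.le
  linarith

theorem K3_geo {f : ℕ → ℝ} (hf : ∀ n, 0 ≤ f n) (N : ℕ) {C q : ℝ} (hq0 : 0 ≤ q) (hq : q < 1)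
    (h : ∀ n, f (n + N) ≤ C * q ^ n) :
    Summable f ∧ ∑' n, f n ≤ ∑ n ∈ Finset.range N, f n + C * (1 - q)⁻¹ := by
  have hg := (summable_geometric_of_lt_one hq0 hq).mul_left C
  have h1 : Summable fun n => f (n + N) := Summable.of_nonneg_of_le (fun n => hf _) h hg
  have h2 : Summable f := (summable_nat_add_iff N).1 h1
  refine ⟨h2, ?_⟩
  rw [← h2.sum_add_tsum_nat_add N, ← tsum_geometric_of_lt_one hq0 hq, ← tsum_mul_left]
  exact add_le_add le_rfl (h1.tsum_le_tsum h hg)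

theorem K3_geo' {f : ℕ → ℝ} (hf : ∀ n, 0 ≤ f n) (N : ℕ) {C q : ℝ} (hq0 : 0 ≤ q) (hq : q < 1)
    (h : ∀ n, f (n + N) ≤ C * q ^ n) (s : Finset ℕ) :
    ∑ n ∈ s, f n ≤ ∑ n ∈ Finset.range N, f n + C * (1 - q)⁻¹ :=
  ((K3_geo hf N hq0 hq h).1.sum_le_tsum s fun n _ => hf n).trans (K3_geo hf N hq0 hq h).2

theorem K3_bounds (n : ℕ) :
    ∑ j ∈ Finset.range 4, cc j * cc (j + n) * r0 ^ (2 * j + n) ≤ kser r0 n ∧
    kser r0 n ≤ ∑ j ∈ Finset.range 4, cc j * cc (j + n) * r0 ^ (2 * j + n) +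
      cc n * r0 ^ n * (9 / 100) ^ 4 * (1 - 9 / 100)⁻¹ := by
  refine ⟨(summable_kser K3_r0.1 K3_r0.2 n).sum_le_tsum _ fun j _ => K3_term_nonneg K3_r0.1 n j,
    (K3_geo (K3_term_nonneg K3_r0.1 n) 4 (by norm_num) (by norm_num) fun j => ?_).2⟩
  refine (K3_term_le' K3_r0.1 K3_r0.2 n (j + 4)).trans (le_of_eq ?_)
  rw [pow_add]; ring

theorem K3_ratio {n : ℕ} {a b : ℝ} (h : a * kser r0 0 ≤ kser r0 n ∧ kser r0 n ≤ b * kser r0 0) :
    a * ginf 0 ≤ ginf n ∧ ginf n ≤ b * ginf 0 := by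
  rw [K3_ginf, K3_ginf]
  have h1 := mul_le_mul_of_nonneg_left h.1 K3_c_pos.le
  have h2 := mul_le_mul_of_nonneg_left h.2 K3_c_pos.le
  constructor <;> linarith

theorem K3_zero : 10800 / 10000 ≤ kser r0 0 ∧ kser r0 0 ≤ 10802 / 10000 := by
  have h := K3_bounds 0
  norm_num [Finset.sum_range_succ, cc, r0] at h ⊢
  constructor <;> linarith [h.1, h.2]

theorem ginf_one : 271 / 1000 * ginf 0 ≤ ginf 1 ∧ ginf 1 ≤ 273 / 1000 * ginf 0 := by
  refine K3_ratio ?_
  have h := K3_bounds 1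
  have h0 := K3_zero
  norm_num [Finset.sum_range_succ, cc, r0] at h h0 ⊢
  constructor <;> linarith [h.1, h.2, h0.1, h0.2]

theorem ginf_two : 617 / 10000 * ginf 0 ≤ ginf 2 ∧ ginf 2 ≤ 627 / 10000 * ginf 0 := by
  refine K3_ratio ?_
  have h := K3_bounds 2
  have h0 := K3_zero
  norm_num [Finset.sum_range_succ, cc, r0] at h h0 ⊢
  constructor <;> linarith [h.1, h.2, h0.1, h0.2]

theorem ginf_three : 130 / 10000 * ginf 0 ≤ ginf 3 ∧ ginf 3 ≤ 136 / 10000 * ginf 0 := by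
  refine K3_ratio ?_
  have h := K3_bounds 3
  have h0 := K3_zero
  norm_num [Finset.sum_range_succ, cc, r0] at h h0 ⊢
  constructor <;> linarith [h.1, h.2, h0.1, h0.2]

theorem ginf_four : 25 / 10000 * ginf 0 ≤ ginf 4 ∧ ginf 4 ≤ 29 / 10000 * ginf 0 := by
  refine K3_ratio ?_
  have h := K3_bounds 4
  have h0 := K3_zero
  norm_num [Finset.sum_range_succ, cc, r0] at h h0 ⊢
  constructor <;> linarith [h.1, h.2, h0.1, h0.2]

theorem summable_cc_poly (k : ℕ) {r : ℝ} (h0 : 0 ≤ r) (h1 : r < 1) :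
    Summable fun n : ℕ => cc n * ((n : ℝ) + 1) ^ k * r ^ n := by
  set t : ℝ := (1 + r) / 2 with ht
  have ht0 : 0 < t := by rw [ht]; linarith
  have ht1 : t < 1 := by rw [ht]; linarith
  have hrt : r ≤ t := by rw [ht]; linarith
  have hs : Summable fun n : ℕ => (n : ℝ) ^ (k + 1) * t ^ n :=
    summable_pow_mul_geometric_of_norm_lt_one (k + 1) (by rw [Real.norm_of_nonneg ht0.le]; exact ht1)
  have hs2 := ((summable_nat_add_iff 1).2 hs).mul_left t⁻¹
  refine Summable.of_nonneg_of_le (fun n => ?_) (fun n => ?_) hs2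
  · exact mul_nonneg (mul_nonneg (cc_pos n).le (by positivity)) (pow_nonneg h0 n)
  · calc cc n * ((n : ℝ) + 1) ^ k * r ^ n ≤ ((n : ℝ) + 1) * ((n : ℝ) + 1) ^ k * t ^ n :=
          mul_le_mul (mul_le_mul_of_nonneg_right (cc_le n) (by positivity))
            (pow_le_pow_left₀ h0 hrt n) (pow_nonneg h0 n) (by positivity)
      _ = t⁻¹ * ((((n + 1 : ℕ) : ℝ)) ^ (k + 1) * t ^ (n + 1)) := by
          push_cast
          field_simp
          ring

theorem K3_tail' (k : ℕ) (hk : 4 ≤ k) {x : ℝ} (hx : 0 ≤ x) (n : ℕ) :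
    cc (n + k) * x ^ (n + k) ≤ cc k * x ^ k * (11 / 10 * x) ^ n := by
  calc cc (n + k) * x ^ (n + k) ≤ cc k * (11 / 10) ^ n * x ^ (n + k) :=
        mul_le_mul_of_nonneg_right (K3_tail k hk n) (pow_nonneg hx _)
    _ = cc k * x ^ k * (11 / 10 * x) ^ n := by rw [mul_pow, pow_add]; ring

theorem sum_cc_a (s : Finset ℕ) : ∑ n ∈ s, cc (n + 1) * (19 / 100 : ℝ) ^ (n + 1) ≤ 3 / 8 := by
  refine (K3_geo' (f := fun n => cc (n + 1) * (19 / 100 : ℝ) ^ (n + 1))
    (fun n => mul_nonneg (cc_pos _).le (by positivity)) 3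
    (C := cc 4 * (19 / 100) ^ 4) (q := 11 / 10 * (19 / 100)) (by norm_num) (by norm_num)
    (fun n => K3_tail' 4 le_rfl (by norm_num) n) s).trans ?_
  norm_num [Finset.sum_range_succ, cc]

theorem sum_cc_b (s : Finset ℕ) : ∑ n ∈ s, cc (n + 1) * r0 ^ (n + 1) *
    (1 + if n ≤ 3 then 9 / (7 - 2 * (n : ℝ)) else 2 * (n : ℝ) + 3) ≤ 9 / 10 := by
  refine (K3_geo' (f := fun n => cc (n + 1) * r0 ^ (n + 1) *
    (1 + if n ≤ 3 then 9 / (7 - 2 * (n : ℝ)) else 2 * (n : ℝ) + 3))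
    (fun n => ?_) 4
    (C := cc 5 * r0 ^ 5 * 12) (q := 11 / 10 * r0 * (7 / 6)) (by unfold r0; norm_num)
    (by unfold r0; norm_num) (fun n => ?_) s).trans ?_
  · refine mul_nonneg (mul_nonneg (cc_pos _).le (pow_nonneg K3_r0.1 _)) ?_
    split_ifs with h
    · have h' : (n : ℝ) ≤ 3 := by exact_mod_cast h
      have : 0 ≤ 9 / (7 - 2 * (n : ℝ)) := div_nonneg (by norm_num) (by linarith)
      linarith
    · positivity
  · have hn : ¬ (n + 4 ≤ 3) := by omega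
    simp only [hn, if_false]
    have h1 := K3_tail' 5 (by norm_num) K3_r0.1 n
    have h2 : 1 + (2 * ((n + 4 : ℕ) : ℝ) + 3) ≤ 12 * (7 / 6) ^ n := by
      have hb := one_add_mul_le_pow (a := (1 / 6 : ℝ)) (by norm_num) n
      have e : (1 + 1 / 6 : ℝ) = 7 / 6 := by norm_num
      rw [e] at hb
      push_cast
      linarith
    calc cc (n + 4 + 1) * r0 ^ (n + 4 + 1) * (1 + (2 * ((n + 4 : ℕ) : ℝ) + 3))
        ≤ (cc 5 * r0 ^ 5 * (11 / 10 * r0) ^ n) * (12 * (7 / 6) ^ n) :=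
          mul_le_mul h1 h2 (by positivity)
            (mul_nonneg (mul_nonneg (cc_pos _).le (pow_nonneg K3_r0.1 _))
              (pow_nonneg (mul_nonneg (by norm_num) K3_r0.1) _))
      _ = cc 5 * r0 ^ 5 * 12 * (11 / 10 * r0 * (7 / 6)) ^ n := by
          rw [mul_pow (11 / 10 * r0)]; ring
  · norm_num [Finset.sum_range_succ, cc, r0]

theorem sum_cc_c (s : Finset ℕ) :
    ∑ n ∈ s, (cc (n + 2) * r0 ^ (n + 2) + cc (n + 5) * r0 ^ (n + 5)) ≤ 41 / 500 := by
  refine (K3_geo' (f := fun n => cc (n + 2) * r0 ^ (n + 2) + cc (n + 5) * r0 ^ (n + 5))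
    (fun n => add_nonneg (mul_nonneg (cc_pos _).le (pow_nonneg K3_r0.1 _))
      (mul_nonneg (cc_pos _).le (pow_nonneg K3_r0.1 _))) 2
    (C := cc 4 * r0 ^ 4 + cc 7 * r0 ^ 7) (q := 11 / 10 * r0) (by unfold r0; norm_num)
    (by unfold r0; norm_num) (fun n => ?_) s).trans ?_
  · have h1 := K3_tail' 4 le_rfl K3_r0.1 n
    have h2 := K3_tail' 7 (by norm_num) K3_r0.1 n
    rw [add_mul]
    exact add_le_add h1 h2
  · norm_num [Finset.sum_range_succ, cc, r0]

end Pool.Agent.PS
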