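import Pool.Agent.P.MP_6c3c64_gt.K3

/-! Row N1. The series `binom q = ∑ cc j • q ^ j`. The scalar identity is the binomial series
(`Complex.one_add_cpow_hasFPowerSeriesOnBall_zero` or `Real.one_add_rpow_hasFPowerSeriesOnBall_zero`
in `Mathlib.Analysis.Analytic.Binomial`; `cc j = (-1) ^ j * Ring.choose (-3/2) j`).
Lipschitz bound: `‖q ^ j - q' ^ j‖ ≤ j (1 / 2) ^ (j - 1) ‖q - q'‖` and `cc j ≤ j + 1`.
-/

set_option autoImplicit false
set_option linter.unusedSectionVars false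

open Real BoundedContinuousFunction MeasureTheory Set Filter Topology
open scoped NNReal ENNReal

noncomputable section

namespace Pool.Agent.PS

theorem N1_cc (n : ℕ) : Ring.choose ((3 / 2 : ℝ) + n - 1) n = cc n := by
  have h : ∀ n : ℕ, (n.factorial : ℝ) * cc n = (ascPochhammer ℝ n).eval (3 / 2) := by
    intro n
    induction n with
    | zero => simp [cc]
    | succ n ih =>
      rw [ascPochhammer_succ_eval, ← ih, cc, Nat.factorial_succ]
      push_cast
      field_simp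
      ring
  have h2 := Ring.factorial_nsmul_multichoose_eq_ascPochhammer (3 / 2 : ℝ) n
  rw [Polynomial.ascPochhammer_smeval_eq_eval, ← h, nsmul_eq_mul, Ring.multichoose_eq] at h2
  exact mul_left_cancel₀ (Nat.cast_ne_zero.2 n.factorial_ne_zero) h2

theorem N1_sqrt {y : ℝ} (hy : 0 ≤ y) : y ^ (3 / 2 : ℝ) = √y ^ 3 := by
  rw [Real.sqrt_eq_rpow, ← Real.rpow_natCast, ← Real.rpow_mul hy]
  norm_num

theorem N1_s1 : HasSum (fun j : ℕ => ((j : ℝ) + 1) * (1 / 2) ^ j) 4 := by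
  have := hasSum_choose_mul_geometric_of_norm_lt_one 1 (r := (1 / 2 : ℝ)) (by norm_num)
  simp only [Nat.choose_one_right, Nat.cast_add, Nat.cast_one] at this
  rwa [show (1 : ℝ) / (1 - 1 / 2) ^ (1 + 1) = 4 by norm_num] at this

theorem N1_s2 : HasSum (fun j : ℕ => ((j : ℝ) + 1) * (2 * j * (1 / 2) ^ j)) 16 := by
  have := ((hasSum_choose_mul_geometric_of_norm_lt_one 2 (r := (1 / 2 : ℝ))
    (by norm_num)).sub N1_s1).mul_left 4
  rw [show (4 : ℝ) * (1 / (1 - 1 / 2) ^ (2 + 1) - 4) = 16 by norm_num] at this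
  refine (congrArg (HasSum · _) (funext fun j => ?_)).mpr this
  rw [Nat.cast_choose_two]
  push_cast
  ring

theorem hasSum_cc_complex {ζ : ℂ} (h : ‖ζ‖ < 1) :
    HasSum (fun j => (cc j : ℂ) * ζ ^ j) ((1 - ζ) ^ (-(3 / 2) : ℂ)) := by
  have := (Complex.one_div_one_sub_cpow_hasFPowerSeriesOnBall_zero (3 / 2)).hasSum (y := ζ)
    (by rw [Metric.mem_eball, edist_zero_right, ← ofReal_norm, ENNReal.ofReal_lt_one]; exact h)
  simp only [FormalMultilinearSeries.ofScalars_apply_eq, zero_add, smul_eq_mul] at this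
  rw [Complex.cpow_neg, ← one_div]
  refine (congrArg (HasSum · _) (funext fun j => ?_)).mpr this
  rw [← N1_cc, Complex.ofReal_choose]
  push_cast
  rfl
theorem hasSum_cc_real {x : ℝ} (h : |x| < 1) :
    HasSum (fun j => cc j * x ^ j) (√(1 - x) ^ 3)⁻¹ := by
  have := (Real.one_div_one_sub_rpow_hasFPowerSeriesOnBall_zero (3 / 2)).hasSum (y := x)
    (by rw [Metric.mem_eball, edist_zero_right, ← ofReal_norm, ENNReal.ofReal_lt_one]; exact h)
  simp only [FormalMultilinearSeries.ofScalars_apply_eq, zero_add, smul_eq_mul, N1_cc] at this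
  rwa [N1_sqrt (by linarith [abs_lt.1 h]), one_div] at this
/-- the product of the two conjugate series -/
theorem cc_mul_conj {ζ : ℂ} (h : ‖ζ‖ < 1) :
    (1 - ζ) ^ (-(3 / 2) : ℂ) * (1 - (starRingEnd ℂ) ζ) ^ (-(3 / 2) : ℂ) =
      ((‖1 - ζ‖ ^ 3)⁻¹ : ℝ) := by
  have h1 : (1 - ζ).arg ≠ π := Complex.slitPlane_arg_ne_pi
    (by rw [sub_eq_add_neg]; exact Complex.mem_slitPlane_of_norm_lt_one (by rwa [norm_neg]))
  have h2 : (-(3 / 2) : ℂ) = ((-(3 / 2) : ℝ) : ℂ) := by push_cast; rfl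
  rw [show 1 - (starRingEnd ℂ) ζ = (starRingEnd ℂ) (1 - ζ) by simp, Complex.conj_cpow _ _ h1, h2,
    Complex.conj_ofReal, Complex.mul_conj', Complex.norm_cpow_real,
    Real.rpow_neg (norm_nonneg _), N1_sqrt (norm_nonneg _), ← Complex.ofReal_pow, inv_pow,
    ← pow_mul, mul_comm, pow_mul, Real.sq_sqrt (norm_nonneg _)]

variable {A : Type} [NormedCommRing A] [NormedAlgebra ℝ A] [CompleteSpace A] [NormOneClass A]

omit [CompleteSpace A] in
theorem N1_term {q : A} (h : ‖q‖ ≤ 1 / 2) (j : ℕ) :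
    ‖cc j • q ^ j‖ ≤ ((j : ℝ) + 1) * (1 / 2) ^ j := by
  rw [norm_smul, Real.norm_of_nonneg (cc_pos j).le]
  exact mul_le_mul (cc_le j) ((norm_pow_le q j).trans (pow_le_pow_left₀ (norm_nonneg _) h j))
    (norm_nonneg _) (by positivity)

omit [CompleteSpace A] [NormedAlgebra ℝ A] in
theorem N1_pow {q q' : A} (h : ‖q‖ ≤ 1 / 2) (h' : ‖q'‖ ≤ 1 / 2) (j : ℕ) :
    ‖q ^ j - q' ^ j‖ ≤ 2 * j * (1 / 2) ^ j * ‖q - q'‖ := by
  induction j with
  | zero => simp
  | succ j ih =>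
    rw [show q ^ (j + 1) - q' ^ (j + 1) = q * (q ^ j - q' ^ j) + (q - q') * q' ^ j by ring]
    have h1 := (norm_mul_le q _).trans (mul_le_mul h ih (norm_nonneg _) (by norm_num))
    have h2 := (norm_mul_le (q - q') _).trans (mul_le_mul_of_nonneg_left
      ((norm_pow_le q' j).trans (pow_le_pow_left₀ (norm_nonneg _) h' j)) (norm_nonneg _))
    refine (norm_add_le _ _).trans ((add_le_add h1 h2).trans_eq ?_)
    push_cast
    ring

theorem hasSum_binom {q : A} (h : ‖q‖ ≤ 1 / 2) : HasSum (fun j => cc j • q ^ j) (binom q) := (Summable.of_norm_bounded N1_s1.summable (N1_term h)).hasSum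
theorem binom_zero : binom (0 : A) = 1 := by
  rw [binom, tsum_eq_single 0 fun j hj => by rw [zero_pow hj, smul_zero]]
  simp [cc]
theorem norm_binom {q : A} (h : ‖q‖ ≤ 1 / 2) : ‖binom q‖ ≤ 4 := tsum_of_norm_bounded N1_s1 (N1_term h)
theorem norm_binom_sub {q q' : A} (h : ‖q‖ ≤ 1 / 2) (h' : ‖q'‖ ≤ 1 / 2) :
    ‖binom q - binom q'‖ ≤ 16 * ‖q - q'‖ := by
  rw [← ((hasSum_binom h).sub (hasSum_binom h')).tsum_eq]
  refine tsum_of_norm_bounded (N1_s2.mul_right _) fun j => ?_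
  rw [← smul_sub, norm_smul, Real.norm_of_nonneg (cc_pos j).le, mul_assoc]
  exact mul_le_mul (cc_le j) (N1_pow h h' j) (norm_nonneg _) (by positivity)
theorem map_binom (χ : A →L[ℝ] ℂ) (h1 : χ 1 = 1) (hm : ∀ a b, χ (a * b) = χ a * χ b) {q : A}
    (h : ‖q‖ ≤ 1 / 2) {x : ℝ} (hx : χ q = x) (hx1 : |x| < 1) :
    χ (binom q) = ((√(1 - x) ^ 3)⁻¹ : ℝ) := by
  have hp : ∀ j : ℕ, χ (q ^ j) = x ^ j := fun j => by
    induction j with
    | zero => rw [pow_zero, pow_zero, h1]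
    | succ j ih => rw [pow_succ, pow_succ, hm, ih, hx]
  refine (χ.hasSum (hasSum_binom h)).unique ?_
  refine (congrArg (HasSum · _) (funext fun j => ?_)).mpr
    (Complex.hasSum_ofReal.2 (hasSum_cc_real hx1))
  rw [map_smul, hp, Complex.real_smul]
  push_cast
  rfl

end Pool.Agent.PS
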