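import Pool.Agent.P.MP_6c3c64_gt.K0
import Pool.Agent.P.MP_6c3c64_gt.K3
import Pool.Agent.P.MP_6c3c64_gt.N1

/-! Row K2. The Laurent coefficients of `Q0 ^ (-3/2)` and `Q0⁻¹` in `E1`, where
`Q0 = N0 ^ 2 + Nt0 ^ 2 (1 - re w) / 2 = N0 ^ 2 |1 - r w| ^ 2 / (1 - r) ^ 2` (by `rr_spec`).
Put `kc n = Ninv ^ 3 * (1 - rE) ^ 3 * ∑' j, (cc j * cc (j + |n|)) • rE ^ (2 j + |n|)` and
`qc n = Ninv ^ 2 * (1 - rE) ^ 2 * ∑' j, rE ^ (2 j + |n|)`. Norms:
`‖rE ^ k‖ ≤ ρ ^ k + k ρ ^ (k - 1) ‖sndL rE‖`, `ρ = 23 / 125` (`E1.norm_def`, induction), `cc j ≤ j + 1`,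
and `27 / 5 * 23 / 125 < 1`. Evaluation: the product of the absolutely convergent series
`∑ cc i (r w) ^ i` and `∑ cc j (r w⁻¹) ^ j` (`hasSum_cc_complex`, `w⁻¹ = conj w`) is
`|1 - r w| ^ (-3)`; regroup `ℕ × ℕ` along `n = i - j`
(the bijection `(n, j) ↦ (j + n.toNat, j + (-n).toNat)` from `ℤ × ℕ`).
-/

set_option autoImplicit false

open Real BoundedContinuousFunction MeasureTheory Set Filter Topology
open scoped NNReal ENNReal

noncomputable section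

namespace Pool.Agent.PS

theorem K2_pow_bound (r : E1) (hr : ‖fstL r‖ ≤ 23 / 125) : ∃ C : ℝ, 0 ≤ C ∧
    ∀ k : ℕ, ((k : ℝ) + 1) ^ 2 * ‖r ^ k‖ ≤ C * (37 / 200 : ℝ) ^ k := by
  have h1 : ∀ k : ℕ, ‖fstL (r ^ k)‖ ≤ (23 / 125 : ℝ) ^ k ∧
      ‖sndL (r ^ k)‖ ≤ k * (23 / 125 : ℝ) ^ k * (125 / 23 * ‖sndL r‖) := by
    intro k
    induction k with
    | zero => simp
    | succ k ih =>
      have hp : (0 : ℝ) ≤ (23 / 125 : ℝ) ^ k := by positivity
      have hD := norm_nonneg (sndL r)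
      constructor
      · rw [pow_succ, fstL_mul, pow_succ]
        exact (norm_mul_le _ _).trans (mul_le_mul ih.1 hr (norm_nonneg _) hp)
      · rw [pow_succ, sndL_mul]
        have a1 : ‖fstL (r ^ k) * sndL r‖ ≤ (23 / 125 : ℝ) ^ k * ‖sndL r‖ :=
          (norm_mul_le _ _).trans (mul_le_mul_of_nonneg_right ih.1 hD)
        have a2 : ‖sndL (r ^ k) * fstL r‖ ≤
            k * (23 / 125 : ℝ) ^ k * (125 / 23 * ‖sndL r‖) * (23 / 125) :=
          (norm_mul_le _ _).trans (mul_le_mul ih.2 hr (norm_nonneg _) (by positivity))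
        refine (norm_add_le _ _).trans ((add_le_add a1 a2).trans (le_of_eq ?_))
        push_cast
        ring
  obtain ⟨C, hC⟩ := (tendsto_pow_const_mul_const_pow_of_abs_lt_one 3
    (r := (184 / 185 : ℝ)) (by norm_num [abs_lt])).bddAbove_range
  have hC' : ∀ k : ℕ, (k : ℝ) ^ 3 * (184 / 185 : ℝ) ^ k ≤ C := fun k => hC ⟨k, rfl⟩
  have hC0 : 0 ≤ C := le_trans (by positivity) (hC' 0)
  refine ⟨185 / 184 * C * (1 + 125 / 23 * ‖sndL r‖), by positivity, fun k => ?_⟩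
  have hp : (0 : ℝ) ≤ (23 / 125 : ℝ) ^ k := by positivity
  have hk : (0 : ℝ) ≤ k := Nat.cast_nonneg k
  have hD : 0 ≤ 125 / 23 * ‖sndL r‖ := by positivity
  have h2 : ‖r ^ k‖ ≤ ((k : ℝ) + 1) * (23 / 125 : ℝ) ^ k * (1 + 125 / 23 * ‖sndL r‖) := by
    rw [E1.norm_def]
    nlinarith [(h1 k).1, (h1 k).2, mul_nonneg hk hp, mul_nonneg hp hD]
  have h3 := hC' (k + 1)
  push_cast at h3
  have h4 : (23 / 125 : ℝ) ^ k = (184 / 185 : ℝ) ^ k * (37 / 200 : ℝ) ^ k := by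
    rw [← mul_pow]; norm_num
  have h5 : ((k : ℝ) + 1) ^ 3 * (184 / 185 : ℝ) ^ k ≤ 185 / 184 * C := by
    rw [pow_succ (184 / 185 : ℝ)] at h3
    linarith
  calc ((k : ℝ) + 1) ^ 2 * ‖r ^ k‖
      ≤ ((k : ℝ) + 1) ^ 2 * (((k : ℝ) + 1) * (23 / 125 : ℝ) ^ k * (1 + 125 / 23 * ‖sndL r‖)) :=
        mul_le_mul_of_nonneg_left h2 (by positivity)
    _ = ((k : ℝ) + 1) ^ 3 * (184 / 185 : ℝ) ^ k *
        ((1 + 125 / 23 * ‖sndL r‖) * (37 / 200 : ℝ) ^ k) := by rw [h4]; ring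
    _ ≤ 185 / 184 * C * ((1 + 125 / 23 * ‖sndL r‖) * (37 / 200 : ℝ) ^ k) :=
        mul_le_mul_of_nonneg_right h5 (by positivity)
    _ = _ := by ring

/-- the series in `E1` -/
theorem K2_series (r : E1) (hr : ‖fstL r‖ ≤ 23 / 125) (c : ℕ → ℝ) (h0 : ∀ j, 0 ≤ c j)
    (h1 : ∀ j, c j ≤ j + 1) : ∃ S : ℕ → E1,
      (∀ (n : ℕ) (x : ℝ), HasSum (fun j => c j * c (j + n) * fstL r x ^ (2 * j + n))
        (fstL (S n) x)) ∧ ∀ A : E1,
      Summable fun n : ℤ => (27 / 5 : ℝ) ^ n.natAbs * ‖A * S n.natAbs‖ := by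
  obtain ⟨C, hC0, hC⟩ := K2_pow_bound r hr
  have hb : ∀ n j : ℕ, ‖(c j * c (j + n)) • r ^ (2 * j + n)‖ ≤
      C * (37 / 200 : ℝ) ^ n * ((37 / 200 : ℝ) ^ 2) ^ j := by
    intro n j
    have hj : (0 : ℝ) ≤ j := Nat.cast_nonneg j
    have hn : (0 : ℝ) ≤ n := Nat.cast_nonneg n
    have a1 : c j * c (j + n) ≤ (((2 * j + n : ℕ) : ℝ) + 1) ^ 2 := by
      have b1 := h1 (j + n)
      have b2 : c j * c (j + n) ≤ ((j : ℝ) + 1) * (((j + n : ℕ) : ℝ) + 1) :=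
        mul_le_mul (h1 j) b1 (h0 _) (by positivity)
      push_cast at b2 ⊢
      nlinarith [mul_nonneg hj hn]
    rw [norm_smul, Real.norm_eq_abs, abs_of_nonneg (mul_nonneg (h0 _) (h0 _))]
    calc c j * c (j + n) * ‖r ^ (2 * j + n)‖
        ≤ (((2 * j + n : ℕ) : ℝ) + 1) ^ 2 * ‖r ^ (2 * j + n)‖ :=
          mul_le_mul_of_nonneg_right a1 (norm_nonneg _)
      _ ≤ C * (37 / 200 : ℝ) ^ (2 * j + n) := hC _
      _ = _ := by rw [pow_add, pow_mul]; ring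
  have hg : HasSum (fun j : ℕ => ((37 / 200 : ℝ) ^ 2) ^ j) (1 - (37 / 200 : ℝ) ^ 2)⁻¹ :=
    hasSum_geometric_of_lt_one (by positivity) (by norm_num)
  have hs : ∀ n : ℕ, Summable fun j : ℕ => (c j * c (j + n)) • r ^ (2 * j + n) := fun n =>
    Summable.of_norm_bounded (hg.mul_left (C * (37 / 200 : ℝ) ^ n)).summable (hb n)
  have hn : ∀ n : ℕ, ‖∑' j : ℕ, (c j * c (j + n)) • r ^ (2 * j + n)‖ ≤
      C * (37 / 200 : ℝ) ^ n * (1 - (37 / 200 : ℝ) ^ 2)⁻¹ := fun n =>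
    tsum_of_norm_bounded (hg.mul_left (C * (37 / 200 : ℝ) ^ n)) (hb n)
  refine ⟨fun n => ∑' j : ℕ, (c j * c (j + n)) • r ^ (2 * j + n), fun n x => ?_, fun A => ?_⟩
  · have h := ((evalCLM ℝ x).comp fstL).hasSum (hs n).hasSum
    have e : (fun j => c j * c (j + n) * fstL r x ^ (2 * j + n)) =
        fun j => ((evalCLM ℝ x).comp fstL) ((c j * c (j + n)) • r ^ (2 * j + n)) := by
      funext j
      simp [fstL_pow]
    rw [e]
    exact h
  · have key : Summable fun n : ℕ => (27 / 5 : ℝ) ^ n *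
        ‖A * ∑' j : ℕ, (c j * c (j + n)) • r ^ (2 * j + n)‖ := by
      have hg2 : Summable fun n : ℕ => (999 / 1000 : ℝ) ^ n :=
        summable_geometric_of_lt_one (by norm_num) (by norm_num)
      refine Summable.of_nonneg_of_le (fun n => by positivity) (fun n => ?_)
        (hg2.mul_left (‖A‖ * C * (1 - (37 / 200 : ℝ) ^ 2)⁻¹))
      have e : (999 / 1000 : ℝ) ^ n = (27 / 5 : ℝ) ^ n * (37 / 200 : ℝ) ^ n := by
        rw [← mul_pow]; norm_num
      calc (27 / 5 : ℝ) ^ n * ‖A * ∑' j : ℕ, (c j * c (j + n)) • r ^ (2 * j + n)‖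
          ≤ (27 / 5 : ℝ) ^ n * (‖A‖ * (C * (37 / 200 : ℝ) ^ n * (1 - (37 / 200 : ℝ) ^ 2)⁻¹)) :=
            mul_le_mul_of_nonneg_left ((norm_mul_le _ _).trans
              (mul_le_mul_of_nonneg_left (hn n) (norm_nonneg _))) (by positivity)
        _ = _ := by rw [e]; ring
    refine Summable.of_nat_of_neg ?_ ?_
    · simpa only [Int.natAbs_natCast] using key
    · simpa only [Int.natAbs_neg, Int.natAbs_natCast] using key

/-- regrouping of pairs along the difference -/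
def K2_equiv : ℤ × ℕ ≃ ℕ × ℕ where
  toFun p := (p.2 + p.1.toNat, p.2 + (-p.1).toNat)
  invFun q := ((q.1 : ℤ) - q.2, min q.1 q.2)
  left_inv := by
    rintro ⟨n, j⟩
    simp only [Prod.mk.injEq]
    omega
  right_inv := by
    rintro ⟨a, b⟩
    simp only [Prod.mk.injEq]
    omega

theorem K2_laurent (c : ℕ → ℝ) {r : ℝ} {w : ℂ} (hw : ‖w‖ = 1) {A A' : ℂ} {k : ℕ → ℝ}
    (hA : HasSum (fun j => (c j : ℂ) * ((r : ℂ) * w) ^ j) A)
    (hA' : HasSum (fun j => (c j : ℂ) * ((starRingEnd ℂ) ((r : ℂ) * w)) ^ j) A')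
    (hk : ∀ n, HasSum (fun j => c j * c (j + n) * r ^ (2 * j + n)) (k n)) :
    HasSum (fun n : ℤ => (k n.natAbs : ℂ) * w ^ n) (A * A') := by
  have hw0 : w ≠ 0 := by
    intro h
    rw [h, norm_zero] at hw
    exact zero_ne_one hw
  have hc : (starRingEnd ℂ) w = w⁻¹ := (Complex.inv_eq_conj hw).symm
  have hs := (hA.summable.norm).mul_norm (hA'.summable.norm)
  have hprod := hA.mul hA' hs.of_norm
  rw [← K2_equiv.hasSum_iff] at hprod
  refine hprod.prod_fiberwise fun n => ?_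
  have h := (Complex.hasSum_ofReal.mpr (hk n.natAbs)).mul_right (w ^ n)
  have e : ∀ j : ℕ, ((c j * c (j + n.natAbs) * r ^ (2 * j + n.natAbs) : ℝ) : ℂ) * w ^ n =
      (c (j + n.toNat) : ℂ) * ((r : ℂ) * w) ^ (j + n.toNat) *
        ((c (j + (-n).toNat) : ℂ) * ((starRingEnd ℂ) ((r : ℂ) * w)) ^ (j + (-n).toNat)) := by
    intro j
    rw [map_mul, Complex.conj_ofReal, hc]
    obtain ⟨m, rfl | rfl⟩ := Int.eq_nat_or_neg n
    · simp only [Int.natAbs_natCast, Int.toNat_natCast, Int.toNat_neg_natCast, add_zero,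
        zpow_natCast, mul_pow, inv_pow, pow_add, pow_mul']
      push_cast
      field_simp
    · simp only [Int.natAbs_neg, Int.natAbs_natCast, Int.toNat_natCast, Int.toNat_neg_natCast,
        add_zero, neg_neg, zpow_neg, zpow_natCast, mul_pow, inv_pow, pow_add, pow_mul']
      push_cast
      field_simp
  simp only [e] at h
  exact h

theorem K2_Q (x : ℝ) {w : ℂ} (hw : ‖w‖ = 1) :
    N0f x ^ 2 + Nt0f x ^ 2 * ((1 - w.re) / 2) =
      (N0f x * ‖1 - (rr x : ℂ) * w‖ / (1 - rr x)) ^ 2 := by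
  have hr := rr_bounds x
  have h1 : (1 - rr x) ≠ 0 := by linarith [hr.2]
  have h2 : w.re ^ 2 + w.im ^ 2 = 1 := by
    have := Complex.normSq_eq_norm_sq w
    rw [hw, Complex.normSq_apply] at this
    linarith
  have h3 : ‖1 - (rr x : ℂ) * w‖ ^ 2 = (1 - rr x) ^ 2 + 2 * rr x * (1 - w.re) := by
    rw [← Complex.normSq_eq_norm_sq, Complex.normSq_apply]
    simp only [Complex.sub_re, Complex.sub_im, Complex.mul_re, Complex.mul_im, Complex.one_re,
      Complex.one_im, Complex.ofReal_re, Complex.ofReal_im]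
    linear_combination rr x ^ 2 * h2
  rw [div_pow, mul_pow, h3, eq_div_iff (pow_ne_zero 2 h1)]
  linear_combination (-(1 - w.re) / 2) * rr_spec x

theorem exists_base (B0 : Base0) : Nonempty Base := by
  have hr : ‖fstL B0.rE‖ ≤ 23 / 125 := norm_le_of_abs fun x => by
    rw [B0.hrE, abs_of_nonneg (rr_bounds x).1]
    exact (rr_bounds x).2
  obtain ⟨S, hS1, hS2⟩ := K2_series B0.rE hr cc (fun j => (cc_pos j).le) cc_le
  obtain ⟨T, hT1, hT2⟩ := K2_series B0.rE hr (fun _ => 1) (fun _ => zero_le_one)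
    (fun j => le_add_of_nonneg_left (Nat.cast_nonneg j))
  simp only [B0.hrE] at hS1 hT1
  have hf : ∀ (k : ℕ) (U : E1) (x : ℝ), fstL (B0.Ninv ^ k * (1 - B0.rE) ^ k * U) x =
      (N0f x)⁻¹ ^ k * (1 - rr x) ^ k * fstL U x := by
    intro k U x
    simp [fstL_pow, B0.hNinv, B0.hrE]
  have hζ : ∀ (x : ℝ) (w : ℂ), ‖w‖ = 1 → ‖(rr x : ℂ) * w‖ < 1 := fun x w hw => by
    rw [norm_mul, hw, mul_one, Complex.norm_real, Real.norm_eq_abs, abs_of_nonneg (rr_bounds x).1]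
    linarith [(rr_bounds x).2]
  have hne : ∀ (x : ℝ) (w : ℂ), ‖w‖ = 1 → 0 < ‖1 - (rr x : ℂ) * w‖ := fun x w hw => by
    refine norm_pos_iff.mpr fun h => ?_
    have h1 := hζ x w hw
    rw [← sub_eq_zero.mp h, norm_one] at h1
    exact lt_irrefl _ h1
  refine ⟨{ toBase0 := B0
            kc := fun n => B0.Ninv ^ 3 * (1 - B0.rE) ^ 3 * S n.natAbs
            qc := fun n => B0.Ninv ^ 2 * (1 - B0.rE) ^ 2 * T n.natAbs
            kc_neg := fun n => by rw [Int.natAbs_neg]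
            hkc := fun n x => by
              rw [hf, Int.natAbs_natCast, kser, (hS1 n x).tsum_eq]
            sum_kc := hS2 _
            sum_qc := hT2 _
            ev_kc := fun x w hw => ?_
            ev_qc := fun x w hw => ?_ }⟩
  · have hN : 0 < N0f x := by linarith [(N0f_bounds x).1]
    have hr1 : 0 < 1 - rr x := by linarith [(rr_bounds x).2]
    have h := K2_laurent cc hw (hasSum_cc_complex (hζ x w hw))
      (hasSum_cc_complex (by rw [Complex.norm_conj]; exact hζ x w hw)) (fun n => hS1 n x)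
    rw [cc_mul_conj (hζ x w hw)] at h
    have h' := h.mul_left (((N0f x)⁻¹ ^ 3 * (1 - rr x) ^ 3 : ℝ) : ℂ)
    have hp := hne x w hw
    rw [← Complex.ofReal_mul] at h'
    have e1 : (√(N0f x ^ 2 + Nt0f x ^ 2 * ((1 - w.re) / 2)) ^ 3)⁻¹ =
        (N0f x)⁻¹ ^ 3 * (1 - rr x) ^ 3 * (‖1 - (rr x : ℂ) * w‖ ^ 3)⁻¹ := by
      rw [K2_Q x hw, Real.sqrt_sq (by positivity)]
      field_simp
    rw [e1]
    simp only [hf]
    simp only [Complex.ofReal_mul, mul_assoc] at h' ⊢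
    exact h'
  · have hN : 0 < N0f x := by linarith [(N0f_bounds x).1]
    have hr1 : 0 < 1 - rr x := by linarith [(rr_bounds x).2]
    have g1 : HasSum (fun j : ℕ => ((1 : ℝ) : ℂ) * ((rr x : ℂ) * w) ^ j)
        (1 - (rr x : ℂ) * w)⁻¹ := by
      simpa using hasSum_geometric_of_norm_lt_one (hζ x w hw)
    have g2 : HasSum (fun j : ℕ => ((1 : ℝ) : ℂ) * ((starRingEnd ℂ) ((rr x : ℂ) * w)) ^ j)
        (1 - (starRingEnd ℂ) ((rr x : ℂ) * w))⁻¹ := by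
      have := hasSum_geometric_of_norm_lt_one (ξ := (starRingEnd ℂ) ((rr x : ℂ) * w))
        (by rw [Complex.norm_conj]; exact hζ x w hw)
      simpa only [Complex.ofReal_one, one_mul] using this
    have h := K2_laurent (fun _ => 1) hw g1 g2 (fun n => hT1 n x)
    have e0 : (1 - (rr x : ℂ) * w)⁻¹ * (1 - (starRingEnd ℂ) ((rr x : ℂ) * w))⁻¹ =
        (((‖1 - (rr x : ℂ) * w‖ ^ 2)⁻¹ : ℝ) : ℂ) := by
      rw [← mul_inv, ← map_one (starRingEnd ℂ), ← map_sub, map_one, Complex.mul_conj,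
        Complex.normSq_eq_norm_sq, Complex.ofReal_inv]
    rw [e0] at h
    have h' := h.mul_left (((N0f x)⁻¹ ^ 2 * (1 - rr x) ^ 2 : ℝ) : ℂ)
    have hp := hne x w hw
    rw [← Complex.ofReal_mul] at h'
    have e1 : (N0f x ^ 2 + Nt0f x ^ 2 * ((1 - w.re) / 2))⁻¹ =
        (N0f x)⁻¹ ^ 2 * (1 - rr x) ^ 2 * (‖1 - (rr x : ℂ) * w‖ ^ 2)⁻¹ := by
      rw [K2_Q x hw]
      field_simp
    rw [e1]
    simp only [hf]
    simp only [Complex.ofReal_mul, mul_assoc] at h' ⊢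
    exact h'

end Pool.Agent.PS
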