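import Pool.Agent.P.MP_6c3c64_gt.K0
import Pool.Agent.P.MP_6c3c64_gt.K3

/-! Row K4. Properties of the multipliers `B.g n`, from `B.hkc`, `K0` and `K3`.
For the last statement: `thq` is `thinf⁻¹` times a function that is at least `1 / 20` and tends to
`thinf > 0` (dominated convergence for series, `tendsto_tsum_of_dominated_convergence`).
-/

set_option autoImplicit false

open Real BoundedContinuousFunction MeasureTheory Set Filter Topology
open scoped NNReal ENNReal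

noncomputable section

namespace Pool.Agent.PS

variable (B : Base)

theorem K4_rr (x : ℝ) : 0 ≤ rr x ∧ rr x ≤ 1 / 5 :=
  ⟨(rr_bounds x).1, (rr_bounds x).2.trans (by norm_num)⟩

theorem Base.K4_g (n : ℕ) (x : ℝ) :
    B.g n x = ((N0f x)⁻¹ ^ 3 * (1 - rr x) ^ 3 * nu0f x * N0f x) * kser (rr x) n := by
  have e : B.g n x = fstL (B.kc n) x * fstL B.nu0 x * fstL B.N0 x := rfl
  rw [e, B.hkc, B.hnu0, B.hN0]
  ring

theorem K4_pre (x : ℝ) : 1 / 20 ≤ (N0f x)⁻¹ ^ 3 * (1 - rr x) ^ 3 * nu0f x * N0f x := by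
  have h1 := N0f_bounds x
  have h0 : 0 < N0f x := by linarith [h1.1]
  have h2 : (10 / 21 : ℝ) ≤ (N0f x)⁻¹ := by
    rw [le_inv_comm₀ (by norm_num) h0]
    linarith [h1.2]
  have h3 : (102 / 125 : ℝ) ≤ 1 - rr x := by linarith [(rr_bounds x).2]
  have h4 := (nu0f_bounds x).1
  have e : (N0f x)⁻¹ ^ 3 * (1 - rr x) ^ 3 * nu0f x * N0f x =
      (N0f x)⁻¹ ^ 2 * (1 - rr x) ^ 3 * nu0f x := by
    field_simp
  rw [e]
  calc (1 / 20 : ℝ) ≤ (10 / 21) ^ 2 * (102 / 125) ^ 3 * (21 / 20) := by norm_num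
    _ ≤ _ := by gcongr

theorem Base.kc_even (n : ℤ) (x : ℝ) : fstL (B.kc n) (-x) = fstL (B.kc n) x := by
  rcases Int.natAbs_eq n with h | h
  · rw [h, B.hkc, B.hkc, N0f_neg, rr_neg]
  · rw [h, B.kc_neg, B.hkc, B.hkc, N0f_neg, rr_neg]
theorem Base.g_even (n : ℕ) (x : ℝ) : B.g n (-x) = B.g n x := by
  rw [B.K4_g, B.K4_g, N0f_neg, rr_neg, nu0f_neg]
theorem Base.g_nonneg (n : ℕ) (x : ℝ) : 0 ≤ B.g n x := by
  rw [B.K4_g]
  exact mul_nonneg (le_trans (by norm_num) (K4_pre x)) (kser_nonneg (K4_rr x).1 n)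
theorem Base.g_le (n : ℕ) (x : ℝ) : B.g n x ≤ cc n * (23 / 125) ^ n * B.g 0 x := by
  rw [B.K4_g, B.K4_g, mul_left_comm]
  refine mul_le_mul_of_nonneg_left ?_ (le_trans (by norm_num) (K4_pre x))
  refine (kser_le (K4_rr x).1 (K4_rr x).2 n).trans ?_
  refine mul_le_mul_of_nonneg_right ?_ (kser_nonneg (K4_rr x).1 0)
  exact mul_le_mul_of_nonneg_left (pow_le_pow_left₀ (K4_rr x).1 (rr_bounds x).2 n) (cc_pos n).le
theorem Base.g_zero_ge (x : ℝ) : 1 / 20 ≤ B.g 0 x := by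
  rw [B.K4_g]
  exact (K4_pre x).trans (le_mul_of_one_le_right (le_trans (by norm_num) (K4_pre x))
    (one_le_kser_zero (K4_rr x).1 (K4_rr x).2))
theorem Base.tendsto_g (n : ℕ) : Tendsto (B.g n) atTop (𝓝 (ginf n)) := by
  have h1 : Tendsto (fun x => kser (rr x) n) atTop (𝓝 (kser r0 n)) :=
    (continuousOn_kser n r0 (by constructor <;> norm_num [r0])).tendsto.comp
      (tendsto_nhdsWithin_iff.2 ⟨tendsto_rr, Eventually.of_forall K4_rr⟩)
  have h2 := (((((tendsto_N0f.inv₀ one_ne_zero).pow 3).mul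
    ((tendsto_rr.const_sub 1).pow 3)).mul tendsto_nu0f).mul tendsto_N0f).mul h1
  have e : ginf n = (1 : ℝ)⁻¹ ^ 3 * (1 - r0) ^ 3 * RR * 1 * kser r0 n := by
    unfold ginf; ring
  rw [e]
  exact h2.congr fun x => (B.K4_g n x).symm
theorem Base.summable_kc_nat : Summable fun n : ℕ => (27 / 5 : ℝ) ^ n * ‖B.kc n‖ := by
  have h := B.sum_kc.comp_injective (Nat.cast_injective (R := ℤ))
  refine h.congr fun n => ?_
  simp only [Function.comp_apply, Int.natAbs_natCast]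
theorem Base.summable_g : Summable fun n : ℕ => (27 / 5 : ℝ) ^ n * ‖B.g n‖ := by
  refine Summable.of_nonneg_of_le (fun n => by positivity) (fun n => ?_)
    (B.summable_kc_nat.mul_right (‖fstL B.nu0‖ * ‖fstL B.N0‖))
  rw [mul_assoc]
  refine mul_le_mul_of_nonneg_left ?_ (by positivity)
  have h1 : ‖B.g n‖ ≤ ‖fstL (B.kc n)‖ * ‖fstL B.nu0‖ * ‖fstL B.N0‖ :=
    (norm_mul_le _ _).trans (mul_le_mul_of_nonneg_right (norm_mul_le _ _) (norm_nonneg _))
  rw [mul_assoc] at h1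
  exact h1.trans (mul_le_mul_of_nonneg_right (norm_fstL_le _) (by positivity))
theorem Base.hh_even (x : ℝ) : B.hh (-x) = B.hh x := by
  rw [B.hhh, B.hhh, mu0f_neg, nu0f_neg]
theorem Base.hh_ge (x : ℝ) : 1 / 250000 ≤ B.hh x := by
  have h1 := nu0f_bounds x
  have h2 := (mu0f_bounds x).1
  rw [B.hhh, le_div_iff₀ (by linarith [h1.1])]
  linarith [h1.2]
theorem Base.hh_mul : B.hh * fstL B.nu0 = B.mu0 := by
  ext x
  have h1 := (nu0f_bounds x).1
  have e : (B.hh * fstL B.nu0) x = B.hh x * fstL B.nu0 x := rfl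
  rw [e, B.hhh, B.hnu0, B.hmu0, div_mul_cancel₀ _ (by linarith)]
theorem summable_ginf : Summable fun n : ℕ => (27 / 5 : ℝ) ^ n * ginf n := by
  refine Summable.of_nonneg_of_le (fun n => mul_nonneg (by positivity) (ginf_nonneg n))
    (fun n => ?_) ((summable_cc_poly 0 (r := 27 / 5 * r0) (by norm_num [r0])
      (by norm_num [r0])).mul_right (ginf 0))
  refine (mul_le_mul_of_nonneg_left (ginf_le n) (by positivity)).trans (le_of_eq ?_)
  rw [mul_pow]
  ring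
theorem thinf_pos : 0 < thinf := by
  have h1 := ginf_zero_pos
  have h2 : 0 ≤ ∑' n, ginf (n + 1) := tsum_nonneg fun n => ginf_nonneg _
  unfold thinf
  linarith

theorem Base.K4_sum : Summable fun n : ℕ => ‖B.g (n + 1)‖ := by
  refine (summable_nat_add_iff (f := fun n => ‖B.g n‖) 1).2 ?_
  exact Summable.of_nonneg_of_le (fun n => norm_nonneg _)
    (fun n => le_mul_of_one_le_left (norm_nonneg _) (one_le_pow₀ (by norm_num))) B.summable_g

theorem Base.K4_thq (x : ℝ≥0) :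
    B.thq x = thinf⁻¹ * (B.g 0 x + 2 * ∑' n, B.g (n + 1) x) := by
  have h := (evalCLM ℝ (x : ℝ) : E0 →L[ℝ] ℝ).map_tsum B.K4_sum.of_norm
  have h' : (∑' n, B.g (n + 1)) x = ∑' n, B.g (n + 1) x := h
  rw [← h']
  rfl

theorem Base.thq_ge (x : ℝ≥0) : thinf⁻¹ * (1 / 20) ≤ B.thq x := by
  rw [B.K4_thq]
  refine mul_le_mul_of_nonneg_left ?_ (inv_pos.2 thinf_pos).le
  have h1 := B.g_zero_ge x
  have h2 : 0 ≤ ∑' n, B.g (n + 1) x := tsum_nonneg fun n => B.g_nonneg _ _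
  linarith
theorem Base.tendsto_thq : Tendsto (ext B.thq) atTop (𝓝 1) := by
  have h1 : Tendsto (fun x : ℝ => ∑' n, B.g (n + 1) x) atTop (𝓝 (∑' n, ginf (n + 1))) :=
    tendsto_tsum_of_dominated_convergence B.K4_sum (fun n => B.tendsto_g (n + 1))
      (Eventually.of_forall fun x n => (B.g (n + 1)).norm_coe_le_norm x)
  have h2 := (((B.tendsto_g 0).add (h1.const_mul 2)).const_mul thinf⁻¹).comp
    tendsto_abs_atTop_atTop
  have e : thinf⁻¹ * (ginf 0 + 2 * ∑' n, ginf (n + 1)) = 1 := inv_mul_cancel₀ thinf_pos.ne'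
  rw [e] at h2
  exact h2.congr fun x => (B.K4_thq ⟨|x|, abs_nonneg x⟩).symm

end Pool.Agent.PS
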