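import Pool.Agent.P.MP_6c3c64_gt.Defs

/-! Row Z4. Identities for `Imn`. Along the circle, with `x = xc a ψ`, `t = tanh x`,
`w = wc a ψ = z ^ 2`, `z = (cosh x - i a sin ψ) / rho a`: `z' = -i t z`, `w' = -2 i t w`,
`dxc * (w + 1) = -i (w - 1)`. `Imn_step`: integrate the derivative of the periodic function
`v x * (w ^ n + w ^ (n - 1)) * ee m ψ`, which is
`-i ((v' - α n v) w ^ n - (v' + α (n - 1) v) w ^ (n - 1)) ee m ψ`, `α n = m - 2 n t`.
`Imn_dx`: the same with `P x * w ^ n * ee m ψ`. `Imn_mirror`: `ψ ↦ ψ + π` sends `x` to `-x`, `w` to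
`w⁻¹`, `ee m` to `-ee m`; use `Function.Periodic.intervalIntegral_add_eq`.
-/

set_option autoImplicit false

open Real BoundedContinuousFunction MeasureTheory Set Filter Topology
open scoped NNReal ENNReal

noncomputable section

namespace Pool.Agent.PS

theorem Z4_rho_sq (a ψ : ℝ) : rho a ^ 2 = cosh (xc a ψ) ^ 2 + (a * sin ψ) ^ 2 := by
  rw [rho_sq, cosh_xc_sq]; nlinarith [sin_sq_add_cos_sq ψ]

theorem hasDerivAt_wc (a ψ : ℝ) :
    HasDerivAt (wc a) (-2 * Complex.I * (tanh (xc a ψ) : ℝ) * wc a ψ) ψ := by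
  have h1 : HasDerivAt (fun ψ => cosh (xc a ψ)) (sinh (xc a ψ) * dxc a ψ) ψ :=
    (hasDerivAt_cosh _).comp ψ (hasDerivAt_xc a ψ)
  have h2 : HasDerivAt (fun ψ => a * sin ψ) (a * cos ψ) ψ := (hasDerivAt_sin ψ).const_mul a
  have h3 := ((h1.ofReal_comp.sub (h2.ofReal_comp.const_mul Complex.I)).div_const
    ((rho a : ℝ) : ℂ)).pow 2
  refine HasDerivAt.congr_deriv (f := wc a) h3 ?_
  have hc : ((cosh (xc a ψ) : ℝ) : ℂ) ≠ 0 := Complex.ofReal_ne_zero.2 (cosh_pos _).ne'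
  have hr : ((rho a : ℝ) : ℂ) ≠ 0 := Complex.ofReal_ne_zero.2 (rho_pos _).ne'
  rw [wc, dxc, tanh_eq_sinh_div_cosh, ← sinh_xc a ψ]
  simp only [Pi.sub_apply, Complex.ofReal_mul, Complex.ofReal_div, Complex.ofReal_neg,
    show (2 : ℕ) - 1 = 1 from rfl, pow_one, Nat.cast_ofNat]
  generalize ((cosh (xc a ψ) : ℝ) : ℂ) = C at hc ⊢
  generalize ((sinh (xc a ψ) : ℝ) : ℂ) = H
  generalize ((rho a : ℝ) : ℂ) = R at hr ⊢
  generalize ((a : ℝ) : ℂ) * ((sin ψ : ℝ) : ℂ) = S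
  field_simp
  linear_combination (-H * (C - Complex.I * S) * S) * Complex.I_sq

theorem Z4_dxc (a ψ : ℝ) :
    ((dxc a ψ : ℝ) : ℂ) * (wc a ψ + 1) = -Complex.I * (wc a ψ - 1) := by
  have hc : ((cosh (xc a ψ) : ℝ) : ℂ) ≠ 0 := Complex.ofReal_ne_zero.2 (cosh_pos _).ne'
  have hr : ((rho a : ℝ) : ℂ) ≠ 0 := Complex.ofReal_ne_zero.2 (rho_pos _).ne'
  have h : ((rho a : ℝ) : ℂ) ^ 2 = ((cosh (xc a ψ) : ℝ) : ℂ) ^ 2 + ((a * sin ψ : ℝ) : ℂ) ^ 2 := by
    exact_mod_cast congrArg (fun r : ℝ => (r : ℂ)) (Z4_rho_sq a ψ)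
  rw [wc, dxc]
  simp only [Complex.ofReal_div, Complex.ofReal_neg]
  generalize ((cosh (xc a ψ) : ℝ) : ℂ) = C at hc h ⊢
  generalize ((rho a : ℝ) : ℂ) = R at hr h ⊢
  generalize ((a * sin ψ : ℝ) : ℂ) = S at h ⊢
  field_simp
  rw [h]
  linear_combination (-S ^ 3 - 2 * C ^ 2 * S + Complex.I * C * S ^ 2) * Complex.I_sq

theorem Z4_hasDerivAt_zpow (n : ℤ) (a ψ : ℝ) :
    HasDerivAt (fun ψ => wc a ψ ^ n)
      (-2 * Complex.I * n * (tanh (xc a ψ) : ℝ) * wc a ψ ^ n) ψ := by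
  have h := (hasDerivAt_zpow n (wc a ψ) (Or.inl (wc_ne_zero a ψ))).comp ψ (hasDerivAt_wc a ψ)
  refine HasDerivAt.congr_deriv (f := fun ψ => wc a ψ ^ n) h ?_
  rw [zpow_sub_one₀ (wc_ne_zero a ψ)]
  have := wc_ne_zero a ψ
  field_simp

theorem Z4_hasDerivAt_ee (m : ℤ) (ψ : ℝ) : HasDerivAt (ee m) (Complex.I * m * ee m ψ) ψ := by
  have h := (((hasDerivAt_id ψ).ofReal_comp.const_mul (m : ℂ)).const_mul Complex.I).cexp
  refine HasDerivAt.congr_deriv (f := ee m) h ?_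
  simp only [ee, id, Complex.ofReal_one]; ring

theorem Z4_xc_two_pi (a : ℝ) : xc a (2 * π) = xc a 0 := by simp [xc]
theorem Z4_wc_two_pi (a : ℝ) : wc a (2 * π) = wc a 0 := by simp [wc, xc]
theorem Z4_ee_two_pi (m : ℤ) : ee m (2 * π) = ee m 0 := by
  rw [ee_eq, ee_eq, cos_int_mul_two_pi, mul_zero, cos_zero, sin_zero,
    show (m : ℝ) * (2 * π) = ((2 * m : ℤ) : ℝ) * π by push_cast; ring, sin_int_mul_pi]

theorem Z4_continuous_tanh : Continuous tanh := by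
  have : tanh = fun x => sinh x / cosh x := funext tanh_eq_sinh_div_cosh
  rw [this]
  exact continuous_sinh.div continuous_cosh fun _ => (cosh_pos _).ne'

/-- derivative of `P x * w ^ n * ee m ψ` along the circle -/
theorem Z4_deriv (m n : ℤ) (a : ℝ) (P p : ℝ → ℝ) (hP : ∀ x, HasDerivAt P (p x) x) (ψ : ℝ) :
    HasDerivAt (fun ψ => (P (xc a ψ) : ℂ) * wc a ψ ^ n * ee m ψ)
      ((p (xc a ψ) * dxc a ψ : ℝ) * wc a ψ ^ n * ee m ψ + Complex.I *
        ((((m - 2 * n * tanh (xc a ψ)) * P (xc a ψ) : ℝ) : ℂ) * wc a ψ ^ n * ee m ψ)) ψ := by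
  have h1 : HasDerivAt (fun ψ => P (xc a ψ)) (p (xc a ψ) * dxc a ψ) ψ :=
    (hP _).comp ψ (hasDerivAt_xc a ψ)
  have h := (h1.ofReal_comp.mul (Z4_hasDerivAt_zpow n a ψ)).mul (Z4_hasDerivAt_ee m ψ)
  refine HasDerivAt.congr_deriv
    (f := fun ψ => (P (xc a ψ) : ℂ) * wc a ψ ^ n * ee m ψ) h ?_
  simp only [Pi.mul_apply]
  generalize tanh (xc a ψ) = t
  push_cast; ring

theorem Z4_cont (m n : ℤ) (a : ℝ) {p : ℝ → ℝ} (hp : Continuous p) :
    Continuous fun ψ => ((p (xc a ψ) * dxc a ψ : ℝ) : ℂ) * wc a ψ ^ n * ee m ψ :=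
  ((Complex.continuous_ofReal.comp ((hp.comp (continuous_xc a)).mul (continuous_dxc a))).mul
    ((continuous_wc a).zpow₀ n fun ψ => Or.inl (wc_ne_zero a ψ))).mul (continuous_ee m)

theorem Z4_int (m n : ℤ) (a : ℝ) (P p : ℝ → ℝ) (hp : Continuous p)
    (hP : ∀ x, HasDerivAt P (p x) x) :
    ∫ ψ in (0 : ℝ)..2 * π, ((p (xc a ψ) * dxc a ψ : ℝ) : ℂ) * wc a ψ ^ n * ee m ψ =
      -Complex.I * Imn m n a fun x => (m - 2 * n * tanh x) * P x := by
  have hPc : Continuous P := continuous_iff_continuousAt.2 fun x => (hP x).continuousAt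
  have hc : Continuous fun x => ((m : ℝ) - 2 * n * tanh x) * P x :=
    (continuous_const.sub (continuous_const.mul Z4_continuous_tanh)).mul hPc
  have i1 := (Z4_cont m n a hp).intervalIntegrable (μ := volume) 0 (2 * π)
  have i2 := (continuous_const (y := Complex.I).mul
    (continuous_Imn_integrand m n a hc)).intervalIntegrable (μ := volume) 0 (2 * π)
  have h := intervalIntegral.integral_eq_sub_of_hasDerivAt
    (fun ψ _ => Z4_deriv m n a P p hP ψ) (i1.add i2)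
  rw [Z4_xc_two_pi, Z4_wc_two_pi, Z4_ee_two_pi, sub_self] at h
  have h2 := intervalIntegral.integral_add i1 i2
  simp only [Pi.mul_apply] at h2
  rw [h, intervalIntegral.integral_const_mul] at h2
  rw [Imn]
  linear_combination -h2

theorem Imn_step (m n : ℤ) (a : ℝ) (v c : ℝ → ℝ) (hc : Continuous c)
    (hv : ∀ x, HasDerivAt v ((m - 2 * n * tanh x) * v x + c x) x) :
    Imn m n a c = Imn m (n - 1) a fun x => c x + (2 * m - (4 * n - 2) * tanh x) * v x := by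
  have hvc : Continuous v := continuous_iff_continuousAt.2 fun x => (hv x).continuousAt
  have hα : ∀ k : ℤ, Continuous fun x => ((m : ℝ) - 2 * k * tanh x) * v x := fun k =>
    (continuous_const.sub (continuous_const.mul Z4_continuous_tanh)).mul hvc
  have hp : Continuous fun x => ((m : ℝ) - 2 * n * tanh x) * v x + c x := (hα n).add hc
  have hq : Continuous fun x => c x + (2 * (m : ℝ) - (4 * n - 2) * tanh x) * v x :=
    hc.add ((continuous_const.sub (continuous_const.mul Z4_continuous_tanh)).mul hvc)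
  have h1 := Z4_int m n a v _ hp hv
  have h2 := Z4_int m (n - 1) a v _ hp hv
  have I := fun (k : ℤ) {f : ℝ → ℝ} (hf : Continuous f) =>
    (continuous_Imn_integrand m k a hf).intervalIntegrable (μ := volume) 0 (2 * π)
  have h3 := intervalIntegral.integral_add
    ((Z4_cont m n a hp).intervalIntegrable (μ := volume) 0 (2 * π))
    ((Z4_cont m (n - 1) a hp).intervalIntegrable (μ := volume) 0 (2 * π))
  rw [h1, h2] at h3
  have h4 : ∫ ψ in (0 : ℝ)..2 * π,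
      ((((((m : ℝ) - 2 * n * tanh (xc a ψ)) * v (xc a ψ) + c (xc a ψ)) * dxc a ψ : ℝ) : ℂ) *
        wc a ψ ^ n * ee m ψ +
      (((((m : ℝ) - 2 * n * tanh (xc a ψ)) * v (xc a ψ) + c (xc a ψ)) * dxc a ψ : ℝ) : ℂ) *
        wc a ψ ^ (n - 1) * ee m ψ) =
      -Complex.I * (((Imn m n a fun x => (m - 2 * n * tanh x) * v x) + Imn m n a c) +
        ((Imn m (n - 1) a fun x => (m - 2 * (n - 1 : ℤ) * tanh x) * v x) -
          Imn m (n - 1) a fun x => c x + (2 * m - (4 * n - 2) * tanh x) * v x)) := by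
    simp only [Imn]
    rw [← intervalIntegral.integral_add (I n (hα n)) (I n hc),
      ← intervalIntegral.integral_sub (I (n - 1) (hα (n - 1))) (I (n - 1) hq),
      ← intervalIntegral.integral_add ((I n (hα n)).add (I n hc))
        ((I (n - 1) (hα (n - 1))).sub (I (n - 1) hq)), ← intervalIntegral.integral_const_mul]
    congr 1; ext ψ
    have hw : wc a ψ ^ n = wc a ψ ^ (n - 1) * wc a ψ := by
      rw [zpow_sub_one₀ (wc_ne_zero a ψ), inv_mul_cancel_right₀ (wc_ne_zero a ψ)]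
    have hd := Z4_dxc a ψ
    rw [hw]
    generalize tanh (xc a ψ) = t
    push_cast
    linear_combination (((m : ℂ) - 2 * n * t) * v (xc a ψ) + c (xc a ψ)) * wc a ψ ^ (n - 1) *
      ee m ψ * hd
  rw [h4] at h3
  have h5 : -Complex.I * (Imn m n a c -
      Imn m (n - 1) a fun x => c x + (2 * m - (4 * n - 2) * tanh x) * v x) = 0 := by
    linear_combination h3
  exact sub_eq_zero.1 ((mul_eq_zero.1 h5).resolve_left (neg_ne_zero.2 Complex.I_ne_zero))

theorem Imn_dx (m n : ℤ) (a : ℝ) (P p : ℝ → ℝ) (hp : Continuous p)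
    (hP : ∀ x, HasDerivAt P (p x) x) :
    ∫ ψ in (0 : ℝ)..2 * π, Complex.I * (p (xc a ψ) * dxc a ψ : ℝ) * wc a ψ ^ n * ee m ψ =
      Imn m n a fun x => (m - 2 * n * tanh x) * P x := by
  have h := Z4_int m n a P p hp hP
  have h2 : ∫ ψ in (0 : ℝ)..2 * π,
      Complex.I * (p (xc a ψ) * dxc a ψ : ℝ) * wc a ψ ^ n * ee m ψ =
      Complex.I * ∫ ψ in (0 : ℝ)..2 * π,
        ((p (xc a ψ) * dxc a ψ : ℝ) : ℂ) * wc a ψ ^ n * ee m ψ := by
    rw [← intervalIntegral.integral_const_mul]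
    congr 1; ext ψ; ring
  rw [h2, h]
  linear_combination (-Imn m n a fun x => (m - 2 * n * tanh x) * P x) * Complex.I_sq

theorem Z4_xc_add_pi (a ψ : ℝ) : xc a (ψ + π) = -xc a ψ := by
  rw [xc, xc, cos_add_pi, mul_neg, arsinh_neg]

theorem Z4_wc_add_pi (a ψ : ℝ) : wc a (ψ + π) = (wc a ψ)⁻¹ := by
  refine eq_inv_of_mul_eq_one_left ?_
  have hr : ((rho a : ℝ) : ℂ) ≠ 0 := Complex.ofReal_ne_zero.2 (rho_pos _).ne'
  have h : ((rho a : ℝ) : ℂ) ^ 2 = ((cosh (xc a ψ) : ℝ) : ℂ) ^ 2 + ((a * sin ψ : ℝ) : ℂ) ^ 2 := by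
    exact_mod_cast congrArg (fun r : ℝ => (r : ℂ)) (Z4_rho_sq a ψ)
  rw [wc, wc, Z4_xc_add_pi, cosh_neg, sin_add_pi, mul_neg, Complex.ofReal_neg, ← mul_pow]
  generalize ((cosh (xc a ψ) : ℝ) : ℂ) = C at h ⊢
  generalize ((rho a : ℝ) : ℂ) = R at hr h ⊢
  generalize ((a * sin ψ : ℝ) : ℂ) = S at h ⊢
  have : (C - Complex.I * -S) / R * ((C - Complex.I * S) / R) = 1 := by
    field_simp
    linear_combination -h - S ^ 2 * Complex.I_sq
  rw [this, one_pow]

theorem Z4_ee_add_pi (m : ℤ) (hm : Odd m) (ψ : ℝ) : ee m (ψ + π) = -ee m ψ := by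
  obtain ⟨k, rfl⟩ := hm
  have : ee (2 * k + 1) π = -1 := by
    rw [ee_eq, sin_int_mul_pi,
      show ((2 * k + 1 : ℤ) : ℝ) * π = π + k * (2 * π) by push_cast; ring,
      cos_add_int_mul_two_pi, cos_pi]
    simp
  rw [ee_add_arg, this, mul_neg, mul_one]

theorem Imn_mirror (m n : ℤ) (hm : Odd m) (a : ℝ) (c : ℝ → ℝ) :
    Imn m (-n) a c = Imn m n a fun x => -c (-x) := by
  set f : ℝ → ℂ := fun ψ => (c (xc a ψ) : ℂ) * wc a ψ ^ (-n) * ee m ψ with hf
  have hper : Function.Periodic f (2 * π) := fun ψ => by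
    have e : ψ + 2 * π = ψ + π + π := by ring
    simp only [hf]
    rw [e, Z4_xc_add_pi, Z4_xc_add_pi, Z4_wc_add_pi, Z4_wc_add_pi, Z4_ee_add_pi m hm,
      Z4_ee_add_pi m hm, neg_neg, neg_neg, inv_inv]
  have h1 := hper.intervalIntegral_add_eq 0 π
  have h2 := intervalIntegral.integral_comp_add_right (a := 0) (b := 2 * π) f π
  rw [zero_add] at h1
  rw [zero_add, add_comm (2 * π) π, ← h1] at h2
  rw [Imn, Imn, ← hf, ← h2]
  congr 1; ext ψ
  simp only [hf]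
  rw [Z4_xc_add_pi, Z4_wc_add_pi, Z4_ee_add_pi m hm, inv_zpow', neg_neg]
  push_cast; ring

theorem Imn_even (m : ℤ) (hm : Odd m) (a : ℝ) (c : ℝ → ℝ) (he : ∀ x, c (-x) = c x) :
    Imn m 0 a c = 0 := by
  have h := Imn_mirror m 0 hm a c
  have h2 : (Imn m 0 a fun x => -c (-x)) = -Imn m 0 a c := by
    rw [Imn, Imn, ← intervalIntegral.integral_neg]
    congr 1; ext ψ
    rw [he]; push_cast; ring
  rw [neg_zero, h2] at h
  linear_combination (1 / 2 : ℂ) * h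

end Pool.Agent.PS
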