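import Pool.Agent.P.MP_6c3c64_gt.O0
import Pool.Agent.P.MP_6c3c64_gt.Z4

/-! Row Key. If the output vanishes, so do the Fourier coefficients at the frequencies `mm j`.
Let `G : ZZ →L lp (fun _ : ℤ => ℂ) 1` be the lift of `k ↦ single k.1 ∘ ImnL k.1 k.2 a ∘ fstL` and
`f = G D`. The functional `f ↦ ∑' m, f m * ee m α` is continuous linear on `lp 1`, and its
composition with `G` equals `II a α` (`W.clm_ext`). Let `cout j : ZZ →L E1` be the lift of
`k ↦ if k.1 = mm j then coutK Z j k.2 else 0`. By `W.clm_ext`, `Z.imn` and `Imn_mirror`: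
`G D (mm j) = Imn (mm j) 0 a (fstL (cout j D))` and
`Out Z D j = (mm j) ^ 2 • res ((1 + refl) (sndL (cout j D)))`. If this vanishes, the derivative of
`c x - c (-x)`, `c = fstL (cout j D)`, is zero, so `c` is even and `Imn_even` applies.
-/

set_option autoImplicit false

open Real BoundedContinuousFunction MeasureTheory Set Filter Topology
open scoped NNReal ENNReal

noncomputable section

namespace Pool.Agent.PS

theorem Key_ext {V : Type} [NormedAddCommGroup V] [NormedSpace ℝ V] (f g : ZZ →L[ℝ] V)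
    (h : ∀ k e, f (W.single wZ k e) = g (W.single wZ k e)) (D : ZZ) : f D = g D := by
  rw [W.clm_ext h]

/-- the family of Fourier coefficients, twisted by `ee m α` -/
def Key_G (a α : ℝ) : ZZ →L[ℝ] lp (fun _ : ℤ => ℂ) 1 :=
  W.lift wZ fun k => lp.singleContinuousLinearMap ℝ (fun _ : ℤ => ℂ) 1 k.1 ∘L
    (ee k.1 α • (ImnL k.1 k.2 a ∘L fstL))

theorem Key_G_single (a α : ℝ) (k : ℤ × ℤ) (e : E1) (m : ℤ) :
    Key_G a α (W.single wZ k e) m =
      if m = k.1 then ee k.1 α * Imn k.1 k.2 a (fstL e) else 0 := by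
  rw [Key_G, W.lift_single (C := 2 * π)]
  · change lp.single (E := fun _ : ℤ => ℂ) 1 k.1 (ee k.1 α * Imn k.1 k.2 a (fstL e)) m = _
    rw [lp.single_apply, Pi.single_apply]
  · intro k
    have h1 := wZ.one_le k
    refine ContinuousLinearMap.opNorm_le_bound _ (by positivity) fun e => ?_
    change ‖lp.single (E := fun _ : ℤ => ℂ) 1 k.1 (ee k.1 α * ImnL k.1 k.2 a (fstL e))‖ ≤ _
    rw [lp.norm_single one_pos, norm_mul, norm_ee, one_mul]
    calc _ ≤ 2 * π * ‖fstL e‖ := ((ImnL k.1 k.2 a).le_opNorm _).trans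
          (mul_le_mul_of_nonneg_right (norm_ImnL _ _ _) (norm_nonneg _))
      _ ≤ 2 * π * ‖e‖ := mul_le_mul_of_nonneg_left (norm_fstL_le e) (by positivity)
      _ ≤ _ := mul_le_mul_of_nonneg_right
          (le_mul_of_one_le_right (by positivity) h1) (norm_nonneg _)

/-- the output of mode `j` before differentiation -/
def Key_cout (Z : ChainData) (j : ℕ) : ZZ →L[ℝ] E1 :=
  W.lift wZ fun k => if k.1 = mm j then coutK Z j k.2 else 0

theorem Key_cout_single (Z : ChainData) (j : ℕ) (k : ℤ × ℤ) (e : E1) :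
    Key_cout Z j (W.single wZ k e) = if k.1 = mm j then coutK Z j k.2 e else 0 := by
  rw [Key_cout, W.lift_single (C := |Z.C|)]
  · split_ifs <;> rfl
  · intro k
    have h1 := wZ.nonneg k
    split_ifs
    · refine (norm_coutK Z j k.2).trans (mul_le_mul (le_abs_self _) ?_ (by positivity)
        (abs_nonneg _))
      exact le_mul_of_one_le_left (by positivity)
        (one_le_pow₀ (le_add_of_nonneg_right (by positivity)))
    · rw [norm_zero]
      positivity

theorem Key_imn (Z : ChainData) (j : ℕ) (n : ℤ) (a : ℝ) (e : E1) :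
    Imn (mm j) n a (fstL e) = Imn (mm j) 0 a (fstL (coutK Z j n e)) := by
  unfold coutK
  split_ifs with hn
  · have h1 : n = -(n.natAbs : ℤ) := by omega
    have h2 : Odd (mm j : ℤ) := (odd_mm j).natCast
    rw [ContinuousLinearMap.comp_apply, ← Z.imn]
    conv_lhs => rw [h1, Imn_mirror _ _ h2]
    rfl
  · have h1 : n = (n.natAbs : ℤ) := by omega
    rw [ContinuousLinearMap.comp_apply, ← Z.imn, ← h1]
    rfl

theorem Key_even (c : E1) (h : res ((1 + refl : E0 →L[ℝ] E0) (sndL c)) = 0) (x : ℝ) :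
    fstL c (-x) = fstL c x := by
  have h1 : ∀ y : ℝ, sndL c y + sndL c (-y) = 0 := by
    intro y
    have h2 : sndL c |y| + sndL c (-|y|) = 0 :=
      congrArg (fun f : Y0 => f ⟨|y|, abs_nonneg y⟩) h
    rcases abs_choice y with h3 | h3 <;> rw [h3] at h2
    · exact h2
    · rw [neg_neg] at h2
      linarith
  have h2 : ∀ y : ℝ, HasDerivAt (fun y => fstL c y + fstL (mir c) y) 0 y := by
    intro y
    refine ((c.hasDerivAt y).add ((mir c).hasDerivAt y)).congr_deriv ?_
    rw [sndL_mir, ← mul_add, h1, mul_zero]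
  have h3 := is_const_of_deriv_eq_zero (fun y => (h2 y).differentiableAt)
    (fun y => (h2 y).deriv) x 0
  simp only [fstL_mir, neg_zero] at h3
  linarith

theorem key (Z : ChainData) (D : ZZ) (h : Out Z D = 0) (a : ℝ) :
    ∃ f : ℤ → ℂ, (Summable fun m => ‖f m‖) ∧ (∀ j, f (mm j) = 0) ∧
      ∀ α, HasSum (fun m => f m * ee m α) (II a α D) := by
  refine ⟨Key_G a 0 D, by simpa using (Key_G a 0 D).2.summable, fun j => ?_, fun α => ?_⟩
  · have h1 : Key_G a 0 D (mm j) = Imn (mm j) 0 a (fstL (Key_cout Z j D)) := by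
      refine Key_ext (lp.evalCLM ℝ (fun _ : ℤ => ℂ) 1 (mm j) ∘L Key_G a 0)
        (ImnL (mm j) 0 a ∘L fstL ∘L Key_cout Z j) (fun k e => ?_) D
      change Key_G a 0 (W.single wZ k e) (mm j) =
        ImnL (mm j) 0 a (fstL (Key_cout Z j (W.single wZ k e)))
      rw [Key_G_single, Key_cout_single]
      by_cases hk : k.1 = mm j
      · rw [if_pos hk, if_pos hk.symm, hk, ImnL_apply, ← Key_imn]
        simp [ee]
      · rw [if_neg hk, if_neg (Ne.symm hk), map_zero, map_zero]
    have h2 : Out Z D j =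
        ((mm j : ℝ) ^ 2) • res ((1 + refl : E0 →L[ℝ] E0) (sndL (Key_cout Z j D))) := by
      refine Key_ext (lp.evalCLM ℝ (fun _ : ℕ => Y0) 1 j ∘L Out Z)
        (((mm j : ℝ) ^ 2) • (res ∘L (1 + refl) ∘L sndL ∘L Key_cout Z j)) (fun k e => ?_) D
      change Out Z (W.single wZ k e) j =
        ((mm j : ℝ) ^ 2) • res ((1 + refl : E0 →L[ℝ] E0) (sndL (Key_cout Z j (W.single wZ k e))))
      rw [Out_single, Key_cout_single]
      split_ifs
      · rfl
      · rw [map_zero, map_zero, map_zero, smul_zero]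
    rw [h] at h2
    have h3 := (smul_eq_zero.1 h2.symm).resolve_left (pow_pos (mm_pos j) 2).ne'
    rw [h1]
    exact Imn_even _ (odd_mm j).natCast a _ (Key_even _ h3)
  · have h1 : ∀ m, Key_G a 0 D m * ee m α = Key_G a α D m := by
      intro m
      rw [mul_comm]
      refine Key_ext (ee m α • (lp.evalCLM ℝ (fun _ : ℤ => ℂ) 1 m ∘L Key_G a 0))
        (lp.evalCLM ℝ (fun _ : ℤ => ℂ) 1 m ∘L Key_G a α) (fun k e => ?_) D
      change ee m α * Key_G a 0 (W.single wZ k e) m = Key_G a α (W.single wZ k e) m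
      rw [Key_G_single, Key_G_single]
      split_ifs with hk
      · rw [hk]
        simp [ee]
      · exact mul_zero _
    have h2 : ∑' m, Key_G a α D m = II a α D := by
      refine Key_ext (lp.tsumCLM ℝ ℤ ℂ ∘L Key_G a α) (II a α) (fun k e => ?_) D
      change ∑' m, Key_G a α (W.single wZ k e) m = _
      simp only [Key_G_single]
      rw [tsum_ite_eq, II_single]
    simp only [h1]
    rw [← h2]
    exact (Key_G a α D).2.summable_of_one.hasSum

end Pool.Agent.PS
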