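import Pool.Agent.P.MP_6c3c64_gt.O0

/-! Row N3a. Bounds for the arguments of the coefficient polynomials. Use `W.norm_single`,
`W.summable_single`, `B.sum_kc`, `B.sum_qc`, `norm_cosE`, `norm_sinE`, `norm_sinE_mul`,
`E1.norm_def`, `T.bound`. With `m = mm j`, `ν = T.nu j z`: `m ^ 2 ‖JF‖ ≤ ν`, `m ^ 2 ‖JD‖ ≤ 2 ν`,
`m ^ 4 ‖F‖ ≤ ν`, `m ^ 3 ‖epsB * F1‖ ≤ ν`. The maps `uu`, `lh`, `mh` are affine in `z`, and
`sw J τ j - sw J τ' j` is `τ - τ'` for `j = J` and zero otherwise; write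
`s • x - s' • x' = s • (x - x') + (s - s') • x'`. For the product use
`‖JD j z1 * JF J z‖ ≤ ‖F1 j z1‖ ‖F J z‖ + ‖F1 j z1‖ ‖epsB * F1 J z‖
+ (‖F2 j z1‖ + ‖F1 j z1‖) ‖F J z‖` (the factor `epsB` is moved to the other side in the second
component).
-/

set_option autoImplicit false

open Real BoundedContinuousFunction MeasureTheory Set Filter Topology
open scoped NNReal ENNReal

noncomputable section

namespace Pool.Agent.PS

variable {X : Type} [NormedAddCommGroup X] [NormedSpace ℝ X]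


theorem N3a_w (J : ℕ) (n : ℤ) : (wJ J).w (0, n) = (27 / 5 : ℝ) ^ n.natAbs := by
  simp [wJ, wt]

theorem N3a_tsum (J : ℕ) (c : ℤ → E1)
    (h : Summable fun n : ℤ => (27 / 5 : ℝ) ^ n.natAbs * ‖c n‖) :
    ‖∑' n : ℤ, W.single (wJ J) (0, n) (c n)‖ ≤ ∑' n : ℤ, (27 / 5 : ℝ) ^ n.natAbs * ‖c n‖ :=
  tsum_of_norm_bounded h.hasSum fun n => by rw [W.norm_single, N3a_w]

theorem bv_bdd (B : Base) : ∃ M : ℝ, ∀ J, (B.bv (wJ J)).Bdd M ∧ ‖B.mu0‖ ≤ M := by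
  have hk : 0 ≤ ∑' n : ℤ, (27 / 5 : ℝ) ^ n.natAbs * ‖B.kc n‖ := tsum_nonneg fun n => by positivity
  have hq : 0 ≤ ∑' n : ℤ, (27 / 5 : ℝ) ^ n.natAbs * ‖B.qc n‖ := tsum_nonneg fun n => by positivity
  refine ⟨‖B.N0‖ + ‖B.eta0‖ + ‖B.nu0‖ + ‖B.Nt0‖ + ‖B.tE‖ + ‖B.sE‖ +
    ∑' n : ℤ, (27 / 5 : ℝ) ^ n.natAbs * ‖B.kc n‖ + ∑' n : ℤ, (27 / 5 : ℝ) ^ n.natAbs * ‖B.qc n‖ +
    27 / 5 * ‖(1 : E1)‖ + ‖B.mu0‖, fun J => ?_⟩
  have h0 : ∀ e : E1, ‖W.single (wJ J) 0 e‖ = ‖e‖ := fun e => by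
    rw [W.norm_single, (wJ J).w_zero, one_mul]
  have h1 := N3a_tsum J B.kc B.sum_kc
  have h2 := N3a_tsum J B.qc B.sum_qc
  have h3 : ‖W.single (wJ J) (0, 1) (1 : E1)‖ = 27 / 5 * ‖(1 : E1)‖ := by
    rw [W.norm_single, N3a_w]; simp
  have h4 : ‖W.single (wJ J) (0, -1) (1 : E1)‖ = 27 / 5 * ‖(1 : E1)‖ := by
    rw [W.norm_single, N3a_w]; simp
  have a1 := norm_nonneg B.N0
  have a2 := norm_nonneg B.eta0
  have a3 := norm_nonneg B.nu0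
  have a4 := norm_nonneg B.Nt0
  have a5 := norm_nonneg B.tE
  have a6 := norm_nonneg B.sE
  have a7 := norm_nonneg (1 : E1)
  have a8 := norm_nonneg B.mu0
  simp only [BV.Bdd, Base.bv, h0, h3, h4]
  refine ⟨⟨?_, ?_, ?_, ?_, ?_, ?_, ?_, ?_, ?_, ?_⟩, ?_⟩ <;> linarith

theorem Jets.nu_nonneg (T : Jets X) (j : ℕ) (z : X) : 0 ≤ T.nu j z := by
  unfold Jets.nu nuM
  positivity
theorem Jets.uu_zero (T : Jets X) (J : ℕ) (τ : ℝ) : T.uu J τ 0 = 0 := by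
  funext i
  fin_cases i <;> simp [Jets.uu]
theorem Jets.lh_zero (T : Jets X) (J : ℕ) (τ : ℝ) : T.lh J τ 0 = 0 := by
  simp [Jets.lh]
theorem Jets.mh_zero (T : Jets X) (B : Base) (J : ℕ) (τ : ℝ) :
    T.mh B J τ 0 = W.single (wJ J) 0 B.mu0 := by
  simp [Jets.mh]

theorem N3a_parts (T : Jets X) (j : ℕ) (z : X) :
    (mm j : ℝ) ^ 4 * ‖T.F j z‖ ≤ T.nu j z ∧ (mm j : ℝ) ^ 3 * ‖epsB * T.F1 j z‖ ≤ T.nu j z ∧
      (mm j : ℝ) ^ 2 * (‖T.F1 j z‖ + ‖T.F2 j z‖) ≤ T.nu j z ∧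
      (mm j : ℝ) ^ 2 * ‖T.JF j z‖ ≤ T.nu j z ∧ (mm j : ℝ) ^ 2 * ‖T.JD j z‖ ≤ T.nu j z := by
  have hm := one_le_mm j
  have e : T.nu j z = (mm j : ℝ) ^ 4 * ‖T.F j z‖ + (mm j : ℝ) ^ 3 * ‖epsB * T.F1 j z‖ +
      (mm j : ℝ) ^ 2 * ‖T.F1 j z‖ + (mm j : ℝ) ^ 2 * ‖T.F2 j z‖ := by
    unfold Jets.nu nuM
    ring
  have p1 : 0 ≤ (mm j : ℝ) ^ 4 * ‖T.F j z‖ := by positivity
  have p2 : 0 ≤ (mm j : ℝ) ^ 3 * ‖epsB * T.F1 j z‖ := by positivity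
  have p3 : 0 ≤ (mm j : ℝ) ^ 2 * ‖T.F1 j z‖ := by positivity
  have p4 : 0 ≤ (mm j : ℝ) ^ 2 * ‖T.F2 j z‖ := by positivity
  have q1 : (mm j : ℝ) ^ 2 * ‖T.F j z‖ ≤ (mm j : ℝ) ^ 4 * ‖T.F j z‖ :=
    mul_le_mul_of_nonneg_right (pow_le_pow_right₀ hm (by norm_num)) (norm_nonneg _)
  have q2 : (mm j : ℝ) ^ 2 * ‖epsB * T.F1 j z‖ ≤ (mm j : ℝ) ^ 3 * ‖epsB * T.F1 j z‖ :=
    mul_le_mul_of_nonneg_right (pow_le_pow_right₀ hm (by norm_num)) (norm_nonneg _)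
  have r1 : ‖T.JF j z‖ = ‖T.F j z‖ + ‖T.F1 j z‖ := E1.norm_def _
  have r2 : ‖T.JD j z‖ ≤ ‖epsB * T.F1 j z‖ + (‖T.F2 j z‖ + ‖T.F1 j z‖) := by
    rw [E1.norm_def]
    refine add_le_add le_rfl ?_
    change ‖T.F2 j z + tanhB * T.F1 j z‖ ≤ _
    refine (norm_add_le _ _).trans (add_le_add le_rfl ((norm_mul_le _ _).trans ?_))
    exact mul_le_of_le_one_left (norm_nonneg _) norm_tanhB
  have r3 := mul_le_mul_of_nonneg_left r2 (by positivity : 0 ≤ (mm j : ℝ) ^ 2)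
  rw [e, r1]
  refine ⟨by linarith, by linarith, by linarith, by linarith, by linarith⟩

theorem N3a_lower (j k : ℕ) (hk : k ≤ 2) {a ν : ℝ} (ha : 0 ≤ a) (h : (mm j : ℝ) ^ 2 * a ≤ ν) :
    (mm j : ℝ) ^ k * a ≤ ν :=
  (mul_le_mul_of_nonneg_right (pow_le_pow_right₀ (one_le_mm j) hk) ha).trans h

theorem N3a_sum (T : Jets X) {V : Type} [NormedAddCommGroup V] [NormedSpace ℝ V] (J : ℕ)
    (L : ℕ → X → V) (hL : ∀ j z1 z2, L j (z1 - z2) = L j z1 - L j z2) {K : ℝ} (hK : 0 ≤ K)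
    (hb : ∀ j ≤ J, ∀ z, ‖L j z‖ ≤ K * T.nu j z) {τ τ' : ℝ} (hτ : τ ∈ Icc (0 : ℝ) 1) (z1 z2 : X) :
    ‖∑ j ∈ Finset.range (J + 1), sw J τ j • L j z1 -
      ∑ j ∈ Finset.range (J + 1), sw J τ' j • L j z2‖ ≤
      K * (|T.C| + 1) * (‖z1 - z2‖ + |τ - τ'| * ‖z2‖) := by
  have h1 : ∀ j, |sw J τ j| ≤ 1 := by
    intro j
    unfold sw
    split_ifs
    · simp
    · rw [abs_of_nonneg hτ.1]; exact hτ.2
    · simp
  have h2 : ∀ j, |sw J τ j - sw J τ' j| ≤ |τ - τ'| := by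
    intro j
    unfold sw
    split_ifs <;> simp
  have hC : ∀ z : X, ∑ j ∈ Finset.range (J + 1), T.nu j z ≤ (|T.C| + 1) * ‖z‖ := fun z =>
    (T.bound z _).trans (mul_le_mul_of_nonneg_right (by linarith [le_abs_self T.C]) (norm_nonneg _))
  rw [← Finset.sum_sub_distrib]
  refine (norm_sum_le _ _).trans ?_
  have h3 : ∀ j ∈ Finset.range (J + 1), ‖sw J τ j • L j z1 - sw J τ' j • L j z2‖ ≤
      K * T.nu j (z1 - z2) + |τ - τ'| * (K * T.nu j z2) := by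
    intro j hj
    have hj' : j ≤ J := Nat.lt_succ_iff.mp (Finset.mem_range.mp hj)
    have e : sw J τ j • L j z1 - sw J τ' j • L j z2 =
        sw J τ j • L j (z1 - z2) + (sw J τ j - sw J τ' j) • L j z2 := by
      rw [hL, smul_sub, sub_smul]; abel
    rw [e]
    refine (norm_add_le _ _).trans (add_le_add ?_ ?_)
    · rw [norm_smul, Real.norm_eq_abs]
      exact (mul_le_of_le_one_left (norm_nonneg _) (h1 j)).trans (hb j hj' _)
    · rw [norm_smul, Real.norm_eq_abs]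
      exact mul_le_mul (h2 j) (hb j hj' _) (norm_nonneg _) (abs_nonneg _)
  refine (Finset.sum_le_sum h3).trans ?_
  rw [Finset.sum_add_distrib, ← Finset.mul_sum, ← Finset.mul_sum, ← Finset.mul_sum]
  have b1 := mul_le_mul_of_nonneg_left (hC (z1 - z2)) hK
  have b2 := mul_le_mul_of_nonneg_left (mul_le_mul_of_nonneg_left (hC z2) hK) (abs_nonneg (τ - τ'))
  linarith

theorem N3a_prod (T : Jets X) (i j : ℕ) (y z : X) :
    (mm j : ℝ) ^ 3 * (mm i * ‖T.JD i y * T.JF j z‖) ≤ 3 * (T.nu j z * T.nu i y) := by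
  obtain ⟨a1, a2, -, -, -⟩ := N3a_parts T j z
  obtain ⟨-, -, b3, -, -⟩ := N3a_parts T i y
  have n1 := norm_nonneg (T.F1 i y)
  have n2 := norm_nonneg (T.F2 i y)
  have n3 := norm_nonneg (T.F j z)
  have n4 := norm_nonneg (epsB * T.F1 j z)
  have h1 : ‖T.JD i y * T.JF j z‖ ≤ (‖T.F1 i y‖ + ‖T.F2 i y‖) *
      (‖T.F j z‖ + ‖epsB * T.F1 j z‖ + ‖T.F j z‖) := by
    rw [E1.norm_def, fstL_mul, sndL_mul]
    change ‖epsB * T.F1 i y * T.F j z‖ +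
      ‖epsB * T.F1 i y * T.F1 j z + (T.F2 i y + tanhB * T.F1 i y) * T.F j z‖ ≤ _
    have c1 : ‖epsB * T.F1 i y * T.F j z‖ ≤ ‖T.F1 i y‖ * ‖T.F j z‖ :=
      (norm_mul_le _ _).trans (mul_le_mul_of_nonneg_right ((norm_mul_le _ _).trans
        (mul_le_of_le_one_left n1 norm_epsB)) n3)
    have c2 : ‖epsB * T.F1 i y * T.F1 j z‖ ≤ ‖T.F1 i y‖ * ‖epsB * T.F1 j z‖ := by
      rw [show epsB * T.F1 i y * T.F1 j z = T.F1 i y * (epsB * T.F1 j z) by ring]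
      exact norm_mul_le _ _
    have c3 : ‖(T.F2 i y + tanhB * T.F1 i y) * T.F j z‖ ≤ (‖T.F2 i y‖ + ‖T.F1 i y‖) * ‖T.F j z‖ :=
      (norm_mul_le _ _).trans (mul_le_mul_of_nonneg_right ((norm_add_le _ _).trans
        (add_le_add le_rfl ((norm_mul_le _ _).trans (mul_le_of_le_one_left n1 norm_tanhB)))) n3)
    have c4 := norm_add_le (epsB * T.F1 i y * T.F1 j z) ((T.F2 i y + tanhB * T.F1 i y) * T.F j z)
    nlinarith [mul_nonneg n2 n3, mul_nonneg n2 n4]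
  have a3 : (mm j : ℝ) ^ 3 * ‖T.F j z‖ ≤ T.nu j z :=
    (mul_le_mul_of_nonneg_right (pow_le_pow_right₀ (one_le_mm j) (by norm_num)) n3).trans a1
  have b4 : (mm i : ℝ) * (‖T.F1 i y‖ + ‖T.F2 i y‖) ≤ T.nu i y := by
    simpa using N3a_lower i 1 (by norm_num) (add_nonneg n1 n2) b3
  have hi := (mm_pos i).le
  have hj := (mm_pos j).le
  calc (mm j : ℝ) ^ 3 * (mm i * ‖T.JD i y * T.JF j z‖)
      ≤ (mm j : ℝ) ^ 3 * (mm i * ((‖T.F1 i y‖ + ‖T.F2 i y‖) *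
        (‖T.F j z‖ + ‖epsB * T.F1 j z‖ + ‖T.F j z‖))) := by gcongr
    _ = ((mm j : ℝ) ^ 3 * ‖T.F j z‖ + (mm j : ℝ) ^ 3 * ‖epsB * T.F1 j z‖ +
        (mm j : ℝ) ^ 3 * ‖T.F j z‖) * (mm i * (‖T.F1 i y‖ + ‖T.F2 i y‖)) := by ring
    _ ≤ (3 * T.nu j z) * T.nu i y :=
        mul_le_mul (by linarith) b4 (by positivity) (by linarith [T.nu_nonneg j z])
    _ = _ := by ring

theorem N3a_sm {V : Type} [NormedAddCommGroup V] [NormedSpace ℝ V] (j k : ℕ) {v : V} {a ν : ℝ}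
    (hv : ‖v‖ ≤ 8 * a) (h : (mm j : ℝ) ^ k * a ≤ ν) : ‖((mm j : ℝ) ^ k) • v‖ ≤ 8 * ν := by
  rw [norm_smul, Real.norm_eq_abs, abs_of_nonneg (by positivity)]
  have := mul_le_mul_of_nonneg_left hv (by positivity : 0 ≤ (mm j : ℝ) ^ k)
  linarith

theorem Jets.input_bounds (T : Jets X) (B : Base) : ∃ C : ℝ, 0 ≤ C ∧ ∀ J,
    (∀ τ ∈ Icc (0 : ℝ) 1, ∀ τ' ∈ Icc (0 : ℝ) 1, ∀ z1 z2 : X,
      ‖T.uu J τ z1 - T.uu J τ' z2‖ ≤ C * (‖z1 - z2‖ + |τ - τ'| * ‖z2‖) ∧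
      ‖T.lh J τ z1 - T.lh J τ' z2‖ ≤ C * (‖z1 - z2‖ + |τ - τ'| * ‖z2‖) ∧
      ‖T.mh B J τ z1 - T.mh B J τ' z2‖ ≤ C * (‖z1 - z2‖ + |τ - τ'| * ‖z2‖) ∧
      ∀ z : X, (mm J : ℝ) ^ 2 * ‖(T.uu J τ z1 3 - T.uu J τ' z2 3) *
        (mm J : ℝ) • sinE (wJ J) (mm J) (T.JF J z)‖ ≤
        C * (‖z1 - z2‖ + |τ - τ'| * ‖z2‖) * T.nu J z) ∧
    ∀ z : X, (mm J : ℝ) ^ 2 * ‖cosE (wJ J) (mm J) (T.JF J z)‖ ≤ C * T.nu J z ∧
      (mm J : ℝ) ^ 2 * ‖cosE (wJ J) (mm J) (T.JD J z)‖ ≤ C * T.nu J z ∧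
      (mm J : ℝ) ^ 3 * ‖cosE (wJ J) (mm J) (T.F J z)‖ ≤ C * T.nu J z ∧
      (mm J : ℝ) ^ 3 * ‖cosE (wJ J) (mm J) (epsB * T.F1 J z)‖ ≤ C * T.nu J z ∧
      (mm J : ℝ) ^ 3 * ‖(mm J : ℝ) • sinE (wJ J) (mm J) (T.F J z)‖ ≤ C * T.nu J z := by
  have hC1 : 1 ≤ |T.C| + 1 := by linarith [abs_nonneg T.C]
  refine ⟨192 * (|T.C| + 1), by positivity, fun J => ⟨fun τ hτ τ' _ z1 z2 => ?_, fun z => ?_⟩⟩
  · have hR : 0 ≤ ‖z1 - z2‖ + |τ - τ'| * ‖z2‖ := by positivity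
    have hle : 8 * (|T.C| + 1) * (‖z1 - z2‖ + |τ - τ'| * ‖z2‖) ≤
        192 * (|T.C| + 1) * (‖z1 - z2‖ + |τ - τ'| * ‖z2‖) := by
      gcongr
      norm_num
    have h8 : (0 : ℝ) ≤ 8 := by norm_num
    have u0 := N3a_sum T J (fun j z => (mm j : ℝ) ^ 0 • cosE (wJ J) (mm j) (T.JF j z))
      (fun j a b => by rw [map_sub, map_sub, smul_sub]) h8
      (fun j hj z => N3a_sm j 0 (norm_cosE J j hj _)
        (N3a_lower j 0 (by norm_num) (norm_nonneg _) (N3a_parts T j z).2.2.2.1)) (τ' := τ') hτ z1 z2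
    have u1 := N3a_sum T J (fun j z => (mm j : ℝ) ^ 0 • cosE (wJ J) (mm j) (T.JD j z))
      (fun j a b => by rw [map_sub, map_sub, smul_sub]) h8
      (fun j hj z => N3a_sm j 0 (norm_cosE J j hj _)
        (N3a_lower j 0 (by norm_num) (norm_nonneg _) (N3a_parts T j z).2.2.2.2)) (τ' := τ') hτ z1 z2
    have u2 := N3a_sum T J (fun j z => (mm j : ℝ) ^ 1 • sinE (wJ J) (mm j) (T.JF j z))
      (fun j a b => by rw [map_sub, map_sub, smul_sub]) h8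
      (fun j hj z => N3a_sm j 1 (norm_sinE J j hj _)
        (N3a_lower j 1 (by norm_num) (norm_nonneg _) (N3a_parts T j z).2.2.2.1)) (τ' := τ') hτ z1 z2
    have u3 := N3a_sum T J (fun j z => (mm j : ℝ) ^ 1 • sinE (wJ J) (mm j) (T.JD j z))
      (fun j a b => by rw [map_sub, map_sub, smul_sub]) h8
      (fun j hj z => N3a_sm j 1 (norm_sinE J j hj _)
        (N3a_lower j 1 (by norm_num) (norm_nonneg _) (N3a_parts T j z).2.2.2.2)) (τ' := τ') hτ z1 z2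
    have u4 := N3a_sum T J (fun j z => (mm j : ℝ) ^ 2 • cosE (wJ J) (mm j) (T.JF j z))
      (fun j a b => by rw [map_sub, map_sub, smul_sub]) h8
      (fun j hj z => N3a_sm j 2 (norm_cosE J j hj _) (N3a_parts T j z).2.2.2.1) (τ' := τ') hτ z1 z2
    have u5 := N3a_sum T J (fun j z => (mm j : ℝ) ^ 1 • sinE (wJ J) (mm j) (T.F1 j z))
      (fun j a b => by rw [map_sub, map_sub, smul_sub]) h8
      (fun j hj z => N3a_sm j 1 (a := ‖T.F1 j z‖ + ‖T.F2 j z‖)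
        ((norm_sinE J j hj _).trans (by linarith [norm_nonneg (T.F2 j z)]))
        (N3a_lower j 1 (by norm_num) (by positivity) (N3a_parts T j z).2.2.1)) (τ' := τ') hτ z1 z2
    have u6 := N3a_sum T J (fun j z => (mm j : ℝ) ^ 0 • cosE (wJ J) (mm j) (T.F2 j z))
      (fun j a b => by rw [map_sub, map_sub, smul_sub]) h8
      (fun j hj z => N3a_sm j 0 (a := ‖T.F1 j z‖ + ‖T.F2 j z‖)
        ((norm_cosE J j hj _).trans (by linarith [norm_nonneg (T.F1 j z)]))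
        (N3a_lower j 0 (by norm_num) (by positivity) (N3a_parts T j z).2.2.1)) (τ' := τ') hτ z1 z2
    simp only [pow_zero, pow_one, one_smul, smul_smul] at u0 u1 u2 u3 u4 u5 u6
    refine ⟨?_, u5.trans hle, ?_, fun z => ?_⟩
    · refine (pi_norm_le_iff_of_nonneg (by positivity)).mpr fun i => ?_
      fin_cases i
      · exact u0.trans hle
      · exact u1.trans hle
      · exact u2.trans hle
      · exact u3.trans hle
      · rw [norm_sub_rev, ← neg_sub_neg] at u4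
        exact u4.trans hle
    · unfold Jets.mh
      rw [add_sub_add_left_eq_sub]
      exact u6.trans hle
    · have hν := T.nu_nonneg J z
      have u7 := N3a_sum T J (fun j y => ((mm J : ℝ) ^ 3 * mm j) •
          (sinE (wJ J) (mm j) (T.JD j y) * sinE (wJ J) (mm J) (T.JF J z)))
        (fun j a b => by rw [map_sub, map_sub, sub_mul, smul_sub]) (K := 192 * T.nu J z)
        (by positivity)
        (fun j hj y => by
          rw [norm_smul, Real.norm_eq_abs, abs_of_nonneg (by positivity)]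
          have c1 := mul_le_mul_of_nonneg_left (norm_sinE_mul J j J hj le_rfl (T.JD j y) (T.JF J z))
            (by positivity : 0 ≤ (mm J : ℝ) ^ 3 * mm j)
          have c2 := N3a_prod T j J y z
          linarith) (τ' := τ') hτ z1 z2
      have e : ∀ (σ : ℝ) (y : X), ∑ j ∈ Finset.range (J + 1), sw J σ j • ((mm J : ℝ) ^ 3 * mm j) •
          (sinE (wJ J) (mm j) (T.JD j y) * sinE (wJ J) (mm J) (T.JF J z)) =
          (mm J : ℝ) ^ 2 • (T.uu J σ y 3 * (mm J : ℝ) • sinE (wJ J) (mm J) (T.JF J z)) := by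
        intro σ y
        change _ = (mm J : ℝ) ^ 2 • ((∑ j ∈ Finset.range (J + 1),
          (sw J σ j * mm j) • sinE (wJ J) (mm j) (T.JD j y)) * _)
        rw [Finset.sum_mul, Finset.smul_sum]
        refine Finset.sum_congr rfl fun j _ => ?_
        rw [smul_mul_smul_comm, smul_smul, smul_smul]
        congr 1
        ring
      rw [e, e, ← smul_sub, ← sub_mul, norm_smul, Real.norm_eq_abs,
        abs_of_nonneg (by positivity)] at u7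
      linarith
  · obtain ⟨a1, a2, -, a4, a5⟩ := N3a_parts T J z
    have hν := T.nu_nonneg J z
    have hle : 8 * T.nu J z ≤ 192 * (|T.C| + 1) * T.nu J z :=
      mul_le_mul_of_nonneg_right (by linarith) hν
    have hm := (mm_pos J).le
    have a3 : (mm J : ℝ) ^ 3 * ‖T.F J z‖ ≤ T.nu J z :=
      (mul_le_mul_of_nonneg_right (pow_le_pow_right₀ (one_le_mm J) (by norm_num))
        (norm_nonneg _)).trans a1
    have b1 := mul_le_mul_of_nonneg_left (norm_cosE J J le_rfl (T.JF J z))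
      (by positivity : 0 ≤ (mm J : ℝ) ^ 2)
    have b2 := mul_le_mul_of_nonneg_left (norm_cosE J J le_rfl (T.JD J z))
      (by positivity : 0 ≤ (mm J : ℝ) ^ 2)
    have b3 := mul_le_mul_of_nonneg_left (norm_cosE J J le_rfl (T.F J z))
      (by positivity : 0 ≤ (mm J : ℝ) ^ 3)
    have b4 := mul_le_mul_of_nonneg_left (norm_cosE J J le_rfl (epsB * T.F1 J z))
      (by positivity : 0 ≤ (mm J : ℝ) ^ 3)
    have b5 := mul_le_mul_of_nonneg_left (norm_sinE J J le_rfl (T.F J z))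
      (by positivity : 0 ≤ (mm J : ℝ) ^ 4)
    refine ⟨by linarith, by linarith, by linarith, by linarith, ?_⟩
    rw [norm_smul, Real.norm_eq_abs, abs_of_nonneg hm]
    linarith

end Pool.Agent.PS
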