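import Pool.Agent.P.MP_6c3c64_gt.K0

/-! Row N8a. Termwise differentiation of the series in `jet` (`hasFDerivAt_tsum`,
`continuous_tsum`), with summable majorants from `T.bound`; base terms from `K0`.
-/

set_option autoImplicit false

open Real BoundedContinuousFunction MeasureTheory Set Filter Topology
open scoped NNReal ENNReal

noncomputable section

namespace Pool.Agent.PS

variable {X : Type} [NormedAddCommGroup X] [NormedSpace ℝ X]


theorem N8a_nu_nonneg (T : Jets X) (z : X) (j : ℕ) : 0 ≤ T.nu j z := by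
  unfold Jets.nu nuM
  positivity

theorem Jets.summable_nu (T : Jets X) (z : X) : Summable fun j => T.nu j z :=
  summable_of_sum_le (N8a_nu_nonneg T z) (T.bound z)

theorem N8a_tsum {ν : ℕ → ℝ} (hν : Summable ν) {t t1 t2 : ℕ → ℝ × ℝ → ℝ}
    (h : ∀ j p, HasFDerivAt (t j)
      (t1 j p • ContinuousLinearMap.fst ℝ ℝ ℝ + t2 j p • ContinuousLinearMap.snd ℝ ℝ ℝ) p)
    (h0 : ∀ j p, |t j p| ≤ ν j) (h1 : ∀ j p, |t1 j p| ≤ ν j) (h2 : ∀ j p, |t2 j p| ≤ ν j)
    (p : ℝ × ℝ) :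
    HasFDerivAt (fun q => ∑' j, t j q)
      ((∑' j, t1 j p) • ContinuousLinearMap.fst ℝ ℝ ℝ +
        (∑' j, t2 j p) • ContinuousLinearMap.snd ℝ ℝ ℝ) p := by
  have s1 : Summable fun j => t1 j p := Summable.of_norm_bounded hν fun j => h1 j p
  have s2 : Summable fun j => t2 j p := Summable.of_norm_bounded hν fun j => h2 j p
  have key := hasFDerivAt_tsum (hν.add hν) h (fun j q => ?_)
    (Summable.of_norm_bounded hν fun j => h0 j p) p
  · rwa [(s1.smul_const _).tsum_add (s2.smul_const _), s1.tsum_smul_const,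
      s2.tsum_smul_const] at key
  · refine (norm_add_le _ _).trans (add_le_add ?_ ?_)
    · rw [norm_smul]
      exact (mul_le_of_le_one_right (norm_nonneg _) (ContinuousLinearMap.norm_fst_le ℝ ℝ ℝ)).trans
        (h1 j q)
    · rw [norm_smul]
      exact (mul_le_of_le_one_right (norm_nonneg _) (ContinuousLinearMap.norm_snd_le ℝ ℝ ℝ)).trans
        (h2 j q)

theorem N8a_abs {s A c B : ℝ} (hs : |s| ≤ 1) (hA : |A| ≤ B) (hc : |c| ≤ 1) :
    |s * A * c| ≤ B := by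
  rw [abs_mul, abs_mul]
  exact (mul_le_of_le_one_right (by positivity) hc).trans
    ((mul_le_of_le_one_left (abs_nonneg _) hs).trans hA)

theorem N8a_abs' {s m A c B : ℝ} (hs : |s| ≤ 1) (hA : |m * A| ≤ B) (hc : |c| ≤ 1) :
    |-(s * m * A * c)| ≤ B := by
  rw [abs_neg, mul_assoc s]
  exact N8a_abs hs hA hc

theorem N8a_prod {A : ℝ → ℝ} {A' : ℝ} {c : ℝ → ℝ} {c' : ℝ} {p : ℝ × ℝ}
    (hA : HasDerivAt A A' p.2) (hc : HasDerivAt c c' p.1) :
    HasFDerivAt (fun q : ℝ × ℝ => A q.2 * c q.1)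
      ((A p.2 * c') • ContinuousLinearMap.fst ℝ ℝ ℝ +
        (A' * c p.1) • ContinuousLinearMap.snd ℝ ℝ ℝ) p := by
  have h1 := hA.comp_hasFDerivAt p (hasFDerivAt_snd (𝕜 := ℝ) (p := p))
  have h2 := hc.comp_hasFDerivAt p (hasFDerivAt_fst (𝕜 := ℝ) (p := p))
  refine (h1.mul h2).congr_fderiv ?_
  ext <;> simp [mul_comm]

theorem N8a_bounds (T : Jets X) (z : X) (j : ℕ) (x : ℝ) :
    |T.F j z x| ≤ T.nu j z ∧ |mm j * T.F j z x| ≤ T.nu j z ∧
    |(mm j : ℝ) ^ 2 * T.F j z x| ≤ T.nu j z ∧ |eps x * T.F1 j z x| ≤ T.nu j z ∧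
    |mm j * (eps x * T.F1 j z x)| ≤ T.nu j z ∧ |eps x * T.F2 j z x| ≤ T.nu j z ∧
    |eps x * (T.F2 j z x + tanh x * T.F1 j z x)| ≤ T.nu j z ∧
    |T.F j z x - tanh x * (eps x * T.F1 j z x) - (mm j : ℝ) ^ 2 * T.F j z x| ≤ T.nu j z := by
  have hm : (3 : ℝ) ≤ mm j := by exact_mod_cast three_le_mm j
  have ha := abs_le_norm (T.F j z) x
  have hb := abs_le_norm (T.F1 j z) x
  have hc := abs_le_norm (T.F2 j z) x
  have he : ∀ y : ℝ, |eps x * y| ≤ |y| := fun y => by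
    rw [abs_mul, abs_of_pos (eps_pos x)]
    exact mul_le_of_le_one_left (abs_nonneg _) (eps_le_one x)
  have ht : ∀ y : ℝ, |tanh x * y| ≤ |y| := fun y => by
    rw [abs_mul]
    exact mul_le_of_le_one_left (abs_nonneg _) (abs_tanh_le_one x)
  have hd := norm_nonneg (epsB * T.F1 j z)
  have a0 := norm_nonneg (T.F j z)
  have b0 := norm_nonneg (T.F1 j z)
  have c0 := norm_nonneg (T.F2 j z)
  unfold Jets.nu nuM
  generalize (mm j : ℝ) = m at hm ⊢
  generalize ‖T.F j z‖ = a at ha a0 ⊢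
  generalize ‖T.F1 j z‖ = b at hb b0 ⊢
  generalize ‖epsB * T.F1 j z‖ = d at hd ⊢
  generalize ‖T.F2 j z‖ = c at hc c0 ⊢
  have m0 : 0 ≤ m := by linarith
  have m1 : m ≤ m ^ 2 := by nlinarith
  have m2 : 9 ≤ m ^ 2 := by nlinarith
  have k1 : m * a ≤ m ^ 2 * a := mul_le_mul_of_nonneg_right m1 a0
  have k2 : 9 * a ≤ m ^ 2 * a := mul_le_mul_of_nonneg_right m2 a0
  have k3 : 9 * (m ^ 2 * a) ≤ m ^ 2 * (m ^ 2 * a) := mul_le_mul_of_nonneg_right m2 (by positivity)
  have k4 : m * b ≤ m ^ 2 * b := mul_le_mul_of_nonneg_right m1 b0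
  have k5 : 9 * b ≤ m ^ 2 * b := mul_le_mul_of_nonneg_right m2 b0
  have k6 : 9 * c ≤ m ^ 2 * c := mul_le_mul_of_nonneg_right m2 c0
  have k7 : 0 ≤ m ^ 2 * (m * d) := by positivity
  have e : m ^ 2 * (m ^ 2 * a + m * d + b + c) =
      m ^ 2 * (m ^ 2 * a) + m ^ 2 * (m * d) + m ^ 2 * b + m ^ 2 * c := by ring
  rw [e]
  have j1 : |m * T.F j z x| ≤ m * a := by
    rw [abs_mul, abs_of_nonneg m0]
    exact mul_le_mul_of_nonneg_left ha m0
  have j2 : |m ^ 2 * T.F j z x| ≤ m ^ 2 * a := by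
    rw [abs_mul, abs_of_nonneg (sq_nonneg m)]
    exact mul_le_mul_of_nonneg_left ha (sq_nonneg m)
  have j3 := (he (T.F1 j z x)).trans hb
  have j4 : |m * (eps x * T.F1 j z x)| ≤ m * b := by
    rw [abs_mul, abs_of_nonneg m0]
    exact mul_le_mul_of_nonneg_left j3 m0
  have j5 := (he (T.F2 j z x)).trans hc
  have j6 := (he _).trans ((abs_add_le (T.F2 j z x) (tanh x * T.F1 j z x)).trans
    (add_le_add hc ((ht _).trans hb)))
  have j7 := (abs_sub (T.F j z x - tanh x * (eps x * T.F1 j z x)) (m ^ 2 * T.F j z x)).trans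
    (add_le_add ((abs_sub _ _).trans (add_le_add ha ((ht _).trans j3))) j2)
  refine ⟨?_, ?_, ?_, ?_, ?_, ?_, ?_, ?_⟩ <;> linarith

theorem N8a_cos (m : ℕ) (φ : ℝ) : cos (m * (φ + 2 * π)) = cos (m * φ) := by
  rw [mul_add, cos_add_nat_mul_two_pi]

theorem N8a_sin (m : ℕ) (φ : ℝ) : sin (m * (φ + 2 * π)) = sin (m * φ) := by
  rw [mul_add, sin_add_nat_mul_two_pi]

theorem N8a_dcos (m φ : ℝ) : HasDerivAt (fun φ => cos (m * φ)) (-(m * sin (m * φ))) φ := by
  have := ((hasDerivAt_id φ).const_mul m).cos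
  refine this.congr_deriv ?_
  simp [mul_comm]

theorem N8a_dsin (m φ : ℝ) : HasDerivAt (fun φ => sin (m * φ)) (m * cos (m * φ)) φ := by
  have := ((hasDerivAt_id φ).const_mul m).sin
  refine this.congr_deriv ?_
  simp [mul_comm]

theorem Jets.jet_isC2 (T : Jets X) (s : ℕ → ℝ) (hs : ∀ j, |s j| ≤ 1) (z : X) :
    (T.jet s z).IsC2 := by
  have hν := T.summable_nu z
  have B := N8a_bounds T z
  have bn : ∀ j (p : ℝ × ℝ), |s j * T.F j z p.2 * cos (mm j * p.1)| ≤ T.nu j z := fun j p =>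
    N8a_abs (hs j) (B j p.2).1 (abs_cos_le_one _)
  have ba : ∀ j (p : ℝ × ℝ), |s j * (eps p.2 * T.F1 j z p.2) * cos (mm j * p.1)| ≤ T.nu j z :=
    fun j p => N8a_abs (hs j) (B j p.2).2.2.2.1 (abs_cos_le_one _)
  have bb : ∀ j (p : ℝ × ℝ), |-(s j * mm j * T.F j z p.2 * sin (mm j * p.1))| ≤ T.nu j z :=
    fun j p => N8a_abs' (hs j) (B j p.2).2.1 (abs_sin_le_one _)
  have bl : ∀ j (p : ℝ × ℝ),
      |-(s j * mm j * (eps p.2 * T.F1 j z p.2) * sin (mm j * p.1))| ≤ T.nu j z :=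
    fun j p => N8a_abs' (hs j) (B j p.2).2.2.2.2.1 (abs_sin_le_one _)
  have br : ∀ j (p : ℝ × ℝ), |s j * (T.F j z p.2 - tanh p.2 * (eps p.2 * T.F1 j z p.2)
      - (mm j : ℝ) ^ 2 * T.F j z p.2) * cos (mm j * p.1)| ≤ T.nu j z :=
    fun j p => N8a_abs (hs j) (B j p.2).2.2.2.2.2.2.2 (abs_cos_le_one _)
  have bu : ∀ j (p : ℝ × ℝ), |s j * (eps p.2 * T.F2 j z p.2) * cos (mm j * p.1)| ≤ T.nu j z :=
    fun j p => N8a_abs (hs j) (B j p.2).2.2.2.2.2.1 (abs_cos_le_one _)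
  have bv : ∀ j (p : ℝ × ℝ), |s j * (eps p.2 * (T.F2 j z p.2 + tanh p.2 * T.F1 j z p.2)) *
      cos (mm j * p.1)| ≤ T.nu j z :=
    fun j p => N8a_abs (hs j) (B j p.2).2.2.2.2.2.2.1 (abs_cos_le_one _)
  have bw : ∀ j (p : ℝ × ℝ),
      |-(s j * (mm j : ℝ) ^ 2 * T.F j z p.2 * cos (mm j * p.1))| ≤ T.nu j z :=
    fun j p => N8a_abs' (hs j) (B j p.2).2.2.1 (abs_cos_le_one _)
  have ce := continuous_eps
  have ct := continuous_tanh'
  refine ⟨fun φ x => ?_, fun φ x => ?_, fun φ x => ?_, ?_, ?_, ?_, fun φ x => ?_, fun φ x => ?_,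
    fun φ x => ?_, fun φ x => ?_, fun φ x => ?_, fun φ x => ?_⟩
  · have h1 := N8a_tsum hν (fun j p => (N8a_prod (((T.isJet j).1 z p.2).const_mul (s j))
      (N8a_dcos (mm j) p.1)).congr_fderiv (by congr 2; ring)) bn bb ba (φ, x)
    have h2 := (hasDerivAt_n0f x).comp_hasFDerivAt (φ, x) (hasFDerivAt_snd (𝕜 := ℝ) (p := (φ, x)))
    refine (h2.add h1).congr_fderiv ?_
    ext <;> simp [Jets.jet]
  · have h1 := N8a_tsum hν (fun j p => (N8a_prod (((T.isJet j).2.1 z p.2).const_mul (s j))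
      (N8a_dcos (mm j) p.1)).congr_fderiv (by congr 2; ring)) ba bl bv (φ, x)
    have h2 := (hasDerivAt_a0f x).comp_hasFDerivAt (φ, x) (hasFDerivAt_snd (𝕜 := ℝ) (p := (φ, x)))
    refine (h2.add h1).congr_fderiv ?_
    have s1 : Summable fun j => s j * (eps x * T.F2 j z x) * cos (mm j * φ) :=
      Summable.of_norm_bounded hν fun j => bu j (φ, x)
    have s2 : Summable fun j => s j * (eps x * T.F1 j z x) * cos (mm j * φ) :=
      Summable.of_norm_bounded hν fun j => ba j (φ, x)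
    have e : ∑' j, s j * (eps x * (T.F2 j z x + tanh x * T.F1 j z x)) * cos (mm j * φ) =
        ∑' j, s j * (eps x * T.F2 j z x) * cos (mm j * φ) +
          tanh x * ∑' j, s j * (eps x * T.F1 j z x) * cos (mm j * φ) := by
      rw [← tsum_mul_left, ← s1.tsum_add (s2.mul_left _)]
      exact tsum_congr fun j => by ring
    simp only [e, Jets.jet]
    module
  · have h1 := N8a_tsum hν (fun j p => (N8a_prod (((T.isJet j).1 z p.2).const_mul (s j * mm j))
      (N8a_dsin (mm j) p.1)).neg.congr_fderiv (by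
        simp only [neg_add, ← neg_smul]
        congr 2
        ring)) bb bw bl (φ, x)
    refine h1.congr_fderiv ?_
    have s1 : Summable fun j => s j * T.F j z x * cos (mm j * φ) :=
      Summable.of_norm_bounded hν fun j => bn j (φ, x)
    have s2 : Summable fun j => s j * (eps x * T.F1 j z x) * cos (mm j * φ) :=
      Summable.of_norm_bounded hν fun j => ba j (φ, x)
    have s3 : Summable fun j => -(s j * (mm j : ℝ) ^ 2 * T.F j z x * cos (mm j * φ)) :=
      Summable.of_norm_bounded hν fun j => bw j (φ, x)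
    have e : ∑' j, s j * (T.F j z x - tanh x * (eps x * T.F1 j z x)
        - (mm j : ℝ) ^ 2 * T.F j z x) * cos (mm j * φ) =
        ∑' j, s j * T.F j z x * cos (mm j * φ) -
          tanh x * ∑' j, s j * (eps x * T.F1 j z x) * cos (mm j * φ) +
          ∑' j, -(s j * (mm j : ℝ) ^ 2 * T.F j z x * cos (mm j * φ)) := by
      rw [← tsum_mul_left, ← s1.tsum_sub (s2.mul_left _), ← (s1.sub (s2.mul_left _)).tsum_add s3]
      exact tsum_congr fun j => by ring
    simp only [e, Jets.jet, nu0f_eq]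
    congr 2
    ring
  · exact continuous_tsum (fun j => by fun_prop) hν bl
  · have c0 : Continuous nu0f :=
      continuous_iff_continuousAt.2 fun x => (hasDerivAt_nu0f x).continuousAt
    exact (c0.comp continuous_snd).add (continuous_tsum (fun j => by fun_prop) hν br)
  · exact ((ce.mul continuous_mu0f).comp continuous_snd).add
      (continuous_tsum (fun j => by fun_prop) hν bu)
  all_goals simp only [Jets.jet, N8a_cos, N8a_sin]

end Pool.Agent.PS
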