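import Pool.Agent.P.MP_6c3c64_gt.K0
import Pool.Agent.P.MP_6c3c64_gt.N8a
import Pool.Agent.P.MP_6c3c64_gt.Four
import Pool.Agent.P.MP_6c3c64_gt.Circ

/-! Row N8b. Smallness and symmetries. `jet_good`: every series is bounded by a multiple of
`T.C * ‖z‖`, those for `l` and `u` even by `eps x` times that; use `K0`:
`n * sech ≥ 1 - small`, `r ≥ 1`, `u ≥ eps * (1 / 100000 - small)`, `l ^ 2 ≤ (small * eps) ^ 2`.
`FF_rot`: `cos (mm j * (φ + π / 3)) = -cos (mm j * φ)`, so all six functions of `jet 1 z` at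
`φ + π / 3` are those of `jet 1 (-z)` at `φ`. `FF_anti`: `F j z` and `F2 j z` are even, `F1 j z` is
odd (uniqueness of derivatives), `xc a (ψ + π) = -xc a ψ`, `dxc a (ψ + π) = -dxc a ψ`, so
`gv` and `gd` of `jet 1 z` at `ψ + π` are minus those of `jet 1 (-z)` at `ψ`; `om (-p) (-q) = -om p q`;
shift the interval by periodicity. `jet_asym`: `cos_series_unique`.
-/

set_option autoImplicit false

open Real BoundedContinuousFunction MeasureTheory Set Filter Topology
open scoped NNReal ENNReal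

noncomputable section

namespace Pool.Agent.PS

variable {X : Type} [NormedAddCommGroup X] [NormedSpace ℝ X]


theorem IsJet.F1_odd {F F1 F2 : X →L[ℝ] E0} (h : IsJet F F1 F2) (v : X) (x : ℝ) :
    F1 v (-x) = -F1 v x := by
  have h1 := (h.1 v (-x)).comp x (hasDerivAt_neg x)
  have h2 : (F v : ℝ → ℝ) ∘ Neg.neg = F v := funext fun y => h.2.2 v y
  rw [h2, eps_neg] at h1
  have h3 := h1.unique (h.1 v x)
  have := eps_pos x
  apply mul_left_cancel₀ this.ne'
  linarith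

theorem IsJet.F2_even {F F1 F2 : X →L[ℝ] E0} (h : IsJet F F1 F2) (v : X) (x : ℝ) :
    F2 v (-x) = F2 v x := by
  have h1 := (h.2.1 v (-x)).comp x (hasDerivAt_neg x)
  have h2 : (fun x => eps x * F1 v x) ∘ Neg.neg = fun x => -(eps x * F1 v x) :=
    funext fun y => by simp only [Function.comp_apply, eps_neg, h.F1_odd, mul_neg]
  rw [h2, eps_neg, h.F1_odd, tanh_neg] at h1
  have h3 := h1.unique (h.2.1 v x).neg
  have := eps_pos x
  apply mul_left_cancel₀ this.ne'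
  linarith

theorem N8b_tsum (T : Jets X) (z : X) (f : ℕ → ℝ) (K : ℝ) (hK : 0 ≤ K)
    (h : ∀ j, |f j| ≤ K * T.nu j z) : |∑' j, f j| ≤ K * (T.C * ‖z‖) := by
  have hs := T.summable_nu z
  have h1 : ‖∑' j, f j‖ ≤ K * ∑' j, T.nu j z :=
    tsum_of_norm_bounded (hs.hasSum.mul_left K) h
  have h2 : ∑' j, T.nu j z ≤ T.C * ‖z‖ := hs.tsum_le_of_sum_le (T.bound z)
  exact h1.trans (mul_le_mul_of_nonneg_left h2 hK)

theorem N8b_nu (T : Jets X) (z : X) (j : ℕ) (x : ℝ) :
    (mm j : ℝ) ^ 2 * |T.F j z x| ≤ T.nu j z ∧ (mm j : ℝ) * |T.F1 j z x| ≤ T.nu j z ∧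
      |T.F2 j z x| ≤ T.nu j z := by
  have hm := one_le_mm j
  have a1 := abs_le_norm (T.F j z) x
  have a2 := abs_le_norm (T.F1 j z) x
  have a3 := abs_le_norm (T.F2 j z) x
  have b1 := abs_nonneg (T.F j z x)
  have b2 := abs_nonneg (T.F1 j z x)
  have b3 := abs_nonneg (T.F2 j z x)
  have b4 := norm_nonneg (epsB * T.F1 j z)
  rw [Jets.nu, nuM]
  generalize |T.F j z x| = p at *
  generalize |T.F1 j z x| = q at *
  generalize |T.F2 j z x| = r at *
  generalize ‖T.F j z‖ = P at *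
  generalize ‖T.F1 j z‖ = Q at *
  generalize ‖T.F2 j z‖ = R at *
  generalize ‖epsB * T.F1 j z‖ = S at *
  generalize (mm j : ℝ) = m at *
  have hm2 : 1 ≤ m ^ 2 := one_le_pow₀ hm
  have hmm : m ≤ m ^ 2 := by nlinarith
  have c1 : m ^ 2 * p ≤ m ^ 2 * P := mul_le_mul_of_nonneg_left a1 (by positivity)
  have c0 : 0 ≤ m ^ 2 * P := mul_nonneg (by positivity) (b1.trans a1)
  have c2 : 0 ≤ m * S := mul_nonneg (by linarith) b4
  have hA : 0 ≤ m ^ 2 * P + m * S + Q + R := by linarith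
  have hB : m ^ 2 * P + m * S + Q + R ≤ m ^ 2 * (m ^ 2 * P + m * S + Q + R) :=
    le_mul_of_one_le_left hA hm2
  refine ⟨by linarith, ?_, by linarith⟩
  calc m * q ≤ m ^ 2 * Q := mul_le_mul hmm a2 b2 (by positivity)
    _ ≤ _ := mul_le_mul_of_nonneg_left (by linarith) (by positivity)

theorem N8b_nu' (T : Jets X) (z : X) (j : ℕ) (x : ℝ) :
    |T.F j z x| ≤ T.nu j z ∧ (mm j : ℝ) * |T.F j z x| ≤ T.nu j z ∧ |T.F1 j z x| ≤ T.nu j z := by
  obtain ⟨h1, h2, -⟩ := N8b_nu T z j x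
  have hm := one_le_mm j
  have b1 := abs_nonneg (T.F j z x)
  have b2 := abs_nonneg (T.F1 j z x)
  have hmm : (mm j : ℝ) ≤ (mm j : ℝ) ^ 2 := by nlinarith
  have c1 : (mm j : ℝ) * |T.F j z x| ≤ (mm j : ℝ) ^ 2 * |T.F j z x| :=
    mul_le_mul_of_nonneg_right hmm b1
  have c2 : |T.F j z x| ≤ (mm j : ℝ) * |T.F j z x| := le_mul_of_one_le_left b1 hm
  have c3 : |T.F1 j z x| ≤ (mm j : ℝ) * |T.F1 j z x| := le_mul_of_one_le_left b2 hm
  exact ⟨by linarith, by linarith, by linarith⟩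

theorem N8b_abs3 {s p c B : ℝ} (hs : |s| ≤ 1) (hc : |c| ≤ 1) (hp : |p| ≤ B) :
    |s * p * c| ≤ B := by
  rw [abs_mul, abs_mul]
  have := abs_nonneg p
  calc |s| * |p| * |c| ≤ 1 * |p| * 1 := by gcongr
    _ ≤ B := by linarith

theorem Jets.jet_good (T : Jets X) : ∃ ρ > 0, ∀ z : X, ‖z‖ ≤ ρ → ∀ s : ℕ → ℝ, (∀ j, |s j| ≤ 1) →
    (T.jet s z).Good := by
  have hC : 0 < |T.C| + 1 := by positivity
  refine ⟨1 / 1000000 / (|T.C| + 1), by positivity, fun z hz s hs => ?_⟩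
  have hδ : T.C * ‖z‖ ≤ 1 / 1000000 := by
    rw [le_div_iff₀ hC] at hz
    nlinarith [le_abs_self T.C, norm_nonneg z]
  have hn : ∀ φ x, |∑' j, s j * T.F j z x * cos (mm j * φ)| ≤ 1 / 1000000 := fun φ x => by
    have := N8b_tsum T z (fun j => s j * T.F j z x * cos (mm j * φ)) 1 zero_le_one fun j =>
      N8b_abs3 (hs j) (abs_cos_le_one _) (by rw [one_mul]; exact (N8b_nu' T z j x).1)
    linarith
  have hE : ∀ (x p B : ℝ), |p| ≤ B → |eps x * p| ≤ eps x * B := fun x p B h => by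
    rw [abs_mul, abs_of_pos (eps_pos x)]
    exact mul_le_mul_of_nonneg_left h (eps_pos x).le
  have hE2 : ∀ x, eps x * (T.C * ‖z‖) ≤ eps x * (1 / 1000000) := fun x =>
    mul_le_mul_of_nonneg_left hδ (eps_pos x).le
  have ha : ∀ φ x, |∑' j, s j * (eps x * T.F1 j z x) * cos (mm j * φ)| ≤ 1 / 1000000 :=
    fun φ x => by
    have := N8b_tsum T z (fun j => s j * (eps x * T.F1 j z x) * cos (mm j * φ)) (eps x)
      (eps_pos x).le fun j =>
      N8b_abs3 (hs j) (abs_cos_le_one _) (hE _ _ _ (N8b_nu' T z j x).2.2)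
    linarith [hE2 x, eps_le_one x]
  have hb : ∀ φ x, |∑' j, -(s j * mm j * T.F j z x * sin (mm j * φ))| ≤ 1 / 1000000 :=
    fun φ x => by
    have := N8b_tsum T z (fun j => -(s j * mm j * T.F j z x * sin (mm j * φ))) 1 zero_le_one
      fun j => by
        rw [abs_neg, mul_assoc (s j)]
        refine N8b_abs3 (hs j) (abs_sin_le_one _) ?_
        rw [one_mul, abs_mul, abs_of_pos (mm_pos j)]
        exact (N8b_nu' T z j x).2.1
    linarith
  have hl : ∀ φ x, |∑' j, -(s j * mm j * (eps x * T.F1 j z x) * sin (mm j * φ))| ≤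
      eps x * (1 / 1000000) := fun φ x => by
    have := N8b_tsum T z (fun j => -(s j * mm j * (eps x * T.F1 j z x) * sin (mm j * φ))) (eps x)
      (eps_pos x).le fun j => by
        rw [abs_neg, mul_assoc (s j), mul_left_comm (mm j : ℝ)]
        refine N8b_abs3 (hs j) (abs_sin_le_one _) (hE _ _ _ ?_)
        rw [abs_mul, abs_of_pos (mm_pos j)]
        exact (N8b_nu T z j x).2.1
    linarith [hE2 x]
  have hr : ∀ φ x, |∑' j, s j * (T.F j z x - tanh x * (eps x * T.F1 j z x)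
      - (mm j : ℝ) ^ 2 * T.F j z x) * cos (mm j * φ)| ≤ 3 / 1000000 := fun φ x => by
    have := N8b_tsum T z (fun j => s j * (T.F j z x - tanh x * (eps x * T.F1 j z x)
      - (mm j : ℝ) ^ 2 * T.F j z x) * cos (mm j * φ)) 3 (by norm_num) fun j => by
        refine N8b_abs3 (hs j) (abs_cos_le_one _) ?_
        have e1 := (N8b_nu' T z j x).1
        have e2 : |tanh x * (eps x * T.F1 j z x)| ≤ T.nu j z := by
          rw [mul_left_comm, mul_comm (tanh x), ← mul_assoc]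
          refine N8b_abs3 ?_ (abs_tanh_le_one x) (N8b_nu' T z j x).2.2
          rw [abs_of_pos (eps_pos x)]; exact eps_le_one x
        have e3 : |(mm j : ℝ) ^ 2 * T.F j z x| ≤ T.nu j z := by
          rw [abs_mul, abs_of_nonneg (sq_nonneg _)]; exact (N8b_nu T z j x).1
        rw [abs_le] at e1 e2 e3 ⊢
        constructor <;> linarith [e1.1, e1.2, e2.1, e2.2, e3.1, e3.2]
    linarith
  have hu : ∀ φ x, |∑' j, s j * (eps x * T.F2 j z x) * cos (mm j * φ)| ≤
      eps x * (1 / 1000000) := fun φ x => by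
    have := N8b_tsum T z (fun j => s j * (eps x * T.F2 j z x) * cos (mm j * φ)) (eps x)
      (eps_pos x).le fun j =>
      N8b_abs3 (hs j) (abs_cos_le_one _) (hE _ _ _ (N8b_nu T z j x).2.2)
    linarith [hE2 x]
  have hsm : ∀ (c p : ℝ), |c| ≤ 1 → |p| ≤ 1 / 1000000 → |c * p| ≤ 1 / 1000000 :=
    fun c p h1 h2 => by
    rw [abs_mul]
    calc |c| * |p| ≤ 1 * |p| := by gcongr
      _ ≤ _ := by linarith
  have hsech : ∀ x, |sech x| ≤ 1 := fun x => by
    rw [abs_of_pos (sech_pos x)]; exact sech_le_one x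
  have hr1 : ∀ φ x, 1 ≤ (T.jet s z).r φ x := fun φ x => by
    have := abs_le.1 (hr φ x)
    simp only [Jets.jet]
    linarith [(nu0f_bounds x).1, this.1]
  have hu1 : ∀ φ x, eps x * (9 / 1000000) ≤ (T.jet s z).u φ x := fun φ x => by
    have h1 := abs_le.1 (hu φ x)
    have h2 := mul_le_mul_of_nonneg_left (mu0f_bounds x).1 (eps_pos x).le
    simp only [Jets.jet]
    linarith [h1.1]
  refine ⟨fun φ x => ?_, fun φ x => ?_, fun φ x => ?_, fun φ x => ?_, fun φ x => ?_,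
    fun φ x => ?_, fun φ x => ?_⟩
  · have h1 := abs_le.1 (hsm _ _ (hsech x) (hn φ x))
    have h2 := (N0f_bounds x).1
    rw [N0f_eq] at h2
    simp only [Jets.jet]
    linarith [h1.1]
  · have h1 := abs_le.1 (hsm _ _ (abs_tanh_le_one x) (ha φ x))
    have h2 := nu0f_bounds x
    have h3 := abs_le.1 (hn φ x)
    rw [nu0f_eq] at h2
    simp only [Jets.jet]
    rw [abs_le]
    constructor <;> linarith [h1.1, h1.2, h2.1, h2.2, h3.1, h3.2]
  · exact (hb φ x).trans (by norm_num)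
  · have h1 := abs_le.1 (hsm _ _ (hsech x) (ha φ x))
    have h2 := abs_le.1 (abs_eta0f_le x)
    rw [eta0f_eq] at h2
    simp only [Jets.jet]
    rw [abs_le]
    constructor <;> linarith [h1.1, h1.2, h2.1, h2.2]
  · linarith [hr1 φ x]
  · exact le_trans (mul_nonneg (eps_pos x).le (by norm_num)) (hu1 φ x)
  · have h1 : (T.jet s z).l φ x ^ 2 ≤ (eps x * (1 / 1000000)) ^ 2 :=
      sq_le_sq' (abs_le.1 (hl φ x)).1 (abs_le.1 (hl φ x)).2
    have h2 : 1 * (eps x * (9 / 1000000)) ≤ (T.jet s z).r φ x * (T.jet s z).u φ x :=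
      mul_le_mul (hr1 φ x) (hu1 φ x) (mul_nonneg (eps_pos x).le (by norm_num))
        (by linarith [hr1 φ x])
    nlinarith [eps_pos x, eps_le_one x]

theorem N8b_cos3 (j : ℕ) (φ : ℝ) : cos (mm j * (φ + π / 3)) = -cos (mm j * φ) := by
  rw [show (mm j : ℝ) * (φ + π / 3) = mm j * φ + π + j * (2 * π) by
    simp only [mm]; push_cast; ring, cos_add_nat_mul_two_pi, cos_add_pi]
theorem N8b_sin3 (j : ℕ) (φ : ℝ) : sin (mm j * (φ + π / 3)) = -sin (mm j * φ) := by
  rw [show (mm j : ℝ) * (φ + π / 3) = mm j * φ + π + j * (2 * π) by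
    simp only [mm]; push_cast; ring, sin_add_nat_mul_two_pi, sin_add_pi]
theorem N8b_cos (j : ℕ) (φ : ℝ) : cos (mm j * (φ + π)) = -cos (mm j * φ) := by
  rw [show (mm j : ℝ) * (φ + π) = mm j * φ + π + (3 * j + 1 : ℕ) * (2 * π) by
    simp only [mm]; push_cast; ring, cos_add_nat_mul_two_pi, cos_add_pi]
theorem N8b_sin (j : ℕ) (φ : ℝ) : sin (mm j * (φ + π)) = -sin (mm j * φ) := by
  rw [show (mm j : ℝ) * (φ + π) = mm j * φ + π + (3 * j + 1 : ℕ) * (2 * π) by
    simp only [mm]; push_cast; ring, sin_add_nat_mul_two_pi, sin_add_pi]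

theorem Jets.FF_rot (T : Jets X) (z : X) (a α : ℝ) :
    (T.jet (fun _ => 1) z).FF a (α + π / 3) = (T.jet (fun _ => 1) (-z)).FF a α := by
  have hn : ∀ φ x, (T.jet (fun _ => 1) z).n (φ + π / 3) x = (T.jet (fun _ => 1) (-z)).n φ x :=
    fun φ x => by
    simp only [Jets.jet, N8b_cos3, map_neg, BoundedContinuousFunction.neg_apply, mul_neg, neg_mul]
  have ha : ∀ φ x, (T.jet (fun _ => 1) z).a (φ + π / 3) x = (T.jet (fun _ => 1) (-z)).a φ x :=
    fun φ x => by
    simp only [Jets.jet, N8b_cos3, map_neg, BoundedContinuousFunction.neg_apply, mul_neg, neg_mul]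
  have hb : ∀ φ x, (T.jet (fun _ => 1) z).b (φ + π / 3) x = (T.jet (fun _ => 1) (-z)).b φ x :=
    fun φ x => by
    simp only [Jets.jet, N8b_sin3, map_neg, BoundedContinuousFunction.neg_apply, mul_neg, neg_mul]
  have hl : ∀ φ x, (T.jet (fun _ => 1) z).l (φ + π / 3) x = (T.jet (fun _ => 1) (-z)).l φ x :=
    fun φ x => by
    simp only [Jets.jet, N8b_sin3, map_neg, BoundedContinuousFunction.neg_apply, mul_neg, neg_mul]
  have hr : ∀ φ x, (T.jet (fun _ => 1) z).r (φ + π / 3) x = (T.jet (fun _ => 1) (-z)).r φ x :=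
    fun φ x => by
    simp only [Jets.jet, N8b_cos3, map_neg, BoundedContinuousFunction.neg_apply]
    congr 1
    exact tsum_congr fun j => by ring
  have hu : ∀ φ x, (T.jet (fun _ => 1) z).u (φ + π / 3) x = (T.jet (fun _ => 1) (-z)).u φ x :=
    fun φ x => by
    simp only [Jets.jet, N8b_cos3, map_neg, BoundedContinuousFunction.neg_apply, mul_neg, neg_mul]
  simp only [RJ.FF, RJ.gv, RJ.gd, RJ.nv, RJ.nd, ← add_assoc, hn, ha, hb, hl, hr, hu]

theorem N8b_xc (a ψ : ℝ) : xc a (ψ + π) = -xc a ψ := by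
  rw [xc, xc, cos_add_pi, mul_neg, arsinh_neg]
theorem N8b_dxc (a ψ : ℝ) : dxc a (ψ + π) = -dxc a ψ := by
  rw [dxc, dxc, N8b_xc, cosh_neg, sin_add_pi]; ring

theorem N8b_frame (a ψ : ℝ) (v : ℝ × ℝ × ℝ) :
    frame a (ψ + π) (v.1, v.2.1, -v.2.2) = -frame a ψ v := by
  simp only [frame, cos_add_pi, sin_add_pi, Prod.neg_mk]
  refine Prod.ext ?_ (Prod.ext ?_ ?_) <;> simp only <;> ring

theorem N8b_om (p q : ℝ × ℝ × ℝ) : om (-p) (-q) = -om p q := by
  simp only [om, Prod.fst_neg, Prod.snd_neg, neg_sq]; ring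

theorem N8b_n (T : Jets X) (z : X) (φ x : ℝ) :
    (T.jet (fun _ => 1) z).n (φ + π) (-x) = (T.jet (fun _ => 1) (-z)).n φ x := by
  simp only [Jets.jet, N8b_cos, map_neg, BoundedContinuousFunction.neg_apply, mul_neg, neg_mul,
    n0f_neg, (T.isJet _).2.2]

theorem N8b_shift (T : Jets X) (z : X) (a α ψ : ℝ) :
    om ((T.jet (fun _ => 1) z).gv a α (ψ + π)) ((T.jet (fun _ => 1) z).gd a α (ψ + π)) =
      -om ((T.jet (fun _ => 1) (-z)).gv a α ψ) ((T.jet (fun _ => 1) (-z)).gd a α ψ) := by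
  have hn := N8b_n T z
  have ha : ∀ φ x, (T.jet (fun _ => 1) z).a (φ + π) (-x) = -(T.jet (fun _ => 1) (-z)).a φ x :=
    fun φ x => by
    simp only [Jets.jet, N8b_cos, map_neg, BoundedContinuousFunction.neg_apply, mul_neg, neg_mul,
      a0f_neg, (T.isJet _).F1_odd, eps_neg, tsum_neg, neg_add, neg_neg]
  have hb : ∀ φ x, (T.jet (fun _ => 1) z).b (φ + π) (-x) = (T.jet (fun _ => 1) (-z)).b φ x :=
    fun φ x => by
    simp only [Jets.jet, N8b_sin, map_neg, BoundedContinuousFunction.neg_apply, mul_neg, neg_mul,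
      (T.isJet _).2.2]
  have hl : ∀ φ x, (T.jet (fun _ => 1) z).l (φ + π) (-x) = -(T.jet (fun _ => 1) (-z)).l φ x :=
    fun φ x => by
    simp only [Jets.jet, N8b_sin, map_neg, BoundedContinuousFunction.neg_apply, mul_neg, neg_mul,
      (T.isJet _).F1_odd, eps_neg, tsum_neg, neg_neg]
  have hr : ∀ φ x, (T.jet (fun _ => 1) z).r (φ + π) (-x) = (T.jet (fun _ => 1) (-z)).r φ x :=
    fun φ x => by
    simp only [Jets.jet, N8b_cos, map_neg, BoundedContinuousFunction.neg_apply, nu0f_neg,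
      (T.isJet _).F1_odd, (T.isJet _).2.2, eps_neg, tanh_neg]
    congr 1
    exact tsum_congr fun j => by ring
  have hu : ∀ φ x, (T.jet (fun _ => 1) z).u (φ + π) (-x) = (T.jet (fun _ => 1) (-z)).u φ x :=
    fun φ x => by
    simp only [Jets.jet, N8b_cos, map_neg, BoundedContinuousFunction.neg_apply, mul_neg, neg_mul,
      mu0f_neg, (T.isJet _).F2_even, eps_neg]
  have e : ψ + π + α = ψ + α + π := by ring
  rw [← N8b_om, RJ.gv, RJ.gv, RJ.gd, RJ.gd, ← N8b_frame, ← N8b_frame, e, N8b_xc, N8b_dxc]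
  simp only [RJ.nv, RJ.nd, hn, ha, hb, hl, hr, hu, tanh_neg, sech_neg]
  congr 2
  · refine Prod.ext ?_ (Prod.ext ?_ ?_) <;> simp only <;> ring
  · refine Prod.ext ?_ (Prod.ext ?_ ?_) <;> simp only <;> ring

theorem Jets.FF_anti (T : Jets X) (z : X) (a α : ℝ) :
    (T.jet (fun _ => 1) (-z)).FF a α = -(T.jet (fun _ => 1) z).FF a α := by
  set f : ℝ → ℝ := fun ψ =>
    om ((T.jet (fun _ => 1) z).gv a α ψ) ((T.jet (fun _ => 1) z).gd a α ψ) with hf
  have hper : Function.Periodic f (2 * π) := fun ψ => by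
    have e : ψ + 2 * π = ψ + π + π := by ring
    simp only [hf]
    rw [e, N8b_shift, N8b_shift, neg_neg, neg_neg]
  have h1 := hper.intervalIntegral_add_eq 0 π
  have h2 := intervalIntegral.integral_comp_add_right (a := 0) (b := 2 * π) f π
  rw [zero_add] at h1
  rw [zero_add, add_comm (2 * π) π, ← h1] at h2
  rw [RJ.FF, RJ.FF, ← hf, ← h2, ← intervalIntegral.integral_neg]
  congr 1; ext ψ
  simp only [hf]
  rw [N8b_shift, neg_neg]

theorem Jets.jet_asym (T : Jets X) (z : X)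
    (h : ∀ φ x, (T.jet (fun _ => 1) z).n (φ + π) (-x) = (T.jet (fun _ => 1) z).n φ x) (j : ℕ) :
    T.F j z = 0 := by
  ext x
  refine cos_series_unique (fun j => T.F j z x) ?_ (fun φ => ?_) j
  · exact (T.summable_nu z).of_nonneg_of_le (fun _ => abs_nonneg _) fun j => (N8b_nu' T z j x).1
  · have h1 := h φ x
    rw [N8b_n] at h1
    simp only [Jets.jet, map_neg, BoundedContinuousFunction.neg_apply, neg_mul, one_mul,
      tsum_neg] at h1
    linarith

end Pool.Agent.PS
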