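import Pool.Agent.P.MP_6c3c64_gt.O0
import Pool.Agent.P.MP_6c3c64_gt.N1
import Pool.Agent.P.MP_6c3c64_gt.N3a
import Pool.Agent.P.MP_6c3c64_gt.N8b
import Pool.Agent.P.MP_6c3c64_gt.K4

/-! Row L0a. The output of the linear part, mode by mode. At `z' = 0`: `uu = 0`, `lh = 0`,
`mh = single 0 mu0`, `dq = 0`, `kk = k0` (`binom_zero`). With `m = mm J`, `f = JF J z`, `d = JD J z`,
`c n = kc n * nu0 * (N0 * d - eta0 * f)`, `p n = fstL (kc n) * mu0 * fstL N0 * fstL f`:
`hC = ∑ n : ℤ, (1 / 2) • (single (m, n) (c n) + single (-m, n) (c n))` and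
`hP = ∑ n : ℤ, -(m / 2) • (single (m, n) (p n) - single (-m, n) (p n))` (multiply the `HasSum` for
`k0` from `W.summable_single`; `pi1_single`, `pi1_mul`). Apply `GamC_single`, `GamP_single`,
`Out_single` (`-mm J ≠ mm j`; `mm J = mm j` only for `J = j`) and evaluate at `j` (`lp.evalCLM`).
The terms `n` and `-n` agree: `mir (c (-n) - m • prim m (-n) (p (-n))) = B.chat j n f d` by `E1.ext`,
`kc_neg` and parity (`fstL f`, `fstL (kc n)`, `N0f`, `nu0f`, `mu0f` even; `fstL d`, `eta0f`,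
`primL (p n)` odd). Use `HasSum.nat_add_neg` or `HasSum.int_rec` type lemmas.
-/

set_option autoImplicit false

open Real BoundedContinuousFunction MeasureTheory Set Filter Topology
open scoped NNReal ENNReal

noncomputable section

namespace Pool.Agent.PS

variable {X : Type} [NormedAddCommGroup X] [NormedSpace ℝ X]

theorem L0a_congr {ι V : Type} [NormedAddCommGroup V] {f g : ι → V} {a : V} (h : HasSum f a)
    (e : ∀ n, g n = f n) : HasSum g a := (funext e : g = f) ▸ h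

theorem L0a_k0 (B : Base) (J : ℕ) :
    HasSum (fun n : ℤ => W.single (wJ J) (0, n) (B.kc n)) (B.bv (wJ J)).k0 :=
  (W.summable_single (fun n : ℤ => ((0 : ℤ), n)) B.kc (by
    simpa [wJ, wt] using B.sum_kc)).hasSum

theorem L0a_kk {A : Type} [NormedCommRing A] [NormedAlgebra ℝ A] [CompleteSpace A]
    [NormOneClass A] (b : BV A) : b.kk 0 = b.k0 := by
  rw [BV.kk, BV.dq, sub_self, zero_mul, neg_zero, binom_zero, mul_one]

/-- coefficient of the first part -/
def L0a_c (B : Base) (n : ℤ) (f d : E1) : E1 := B.kc n * B.nu0 * (B.N0 * d - B.eta0 * f)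

/-- coefficient of the second part -/
def L0a_p (B : Base) (n : ℤ) (f : E1) : E0 := fstL (B.kc n) * B.mu0 * fstL B.N0 * fstL f

theorem L0a_hC (B : Base) (T : Jets X) (J : ℕ) (z : X) :
    HasSum (fun n : ℤ => (1 / 2 : ℝ) •
      (W.single (wJ J) (mm J, n) (L0a_c B n (T.JF J z) (T.JD J z)) +
        W.single (wJ J) (-(mm J : ℤ), n) (L0a_c B n (T.JF J z) (T.JD J z)))) (T.hC B J 0 0 z) := by
  have e : T.hC B J 0 0 z = (B.bv (wJ J)).k0 * (W.single (wJ J) 0 B.nu0 *
      (W.single (wJ J) 0 B.N0 * cosE (wJ J) (mm J) (T.JD J z) -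
        W.single (wJ J) 0 B.eta0 * cosE (wJ J) (mm J) (T.JF J z))) := by
    rw [Jets.hC, T.uu_zero, BV.cC, L0a_kk]
    simp only [BV.RH, BV.NN, BV.ET, Pi.zero_apply, mul_zero, zero_mul, add_zero, sub_zero]
    rfl
  rw [e]
  refine L0a_congr ((L0a_k0 B J).mul_right _) fun n => ?_
  simp only [cosE, _root_.smul_apply, _root_.add_apply, mul_smul_comm, mul_add, mul_sub,
    W.single_mul_single, zero_add, Prod.mk_add_mk, add_zero, L0a_c, map_sub, mul_assoc]
  module

theorem L0a_hP (B : Base) (T : Jets X) (J : ℕ) (z : X) :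
    HasSum (fun n : ℤ => (-((mm J : ℝ) / 2)) •
      (W.single (wJ J) (mm J, n) (L0a_p B n (T.JF J z)) -
        W.single (wJ J) (-(mm J : ℤ), n) (L0a_p B n (T.JF J z)))) (T.hP B J 0 0 z) := by
  have e : T.hP B J 0 0 z = pi1 (wJ J) (B.bv (wJ J)).k0 * -(W.single (wJ J) 0 B.mu0 *
      (W.single (wJ J) 0 (fstL B.N0) * (mm J : ℝ) • sinE (wJ J) (mm J) (T.F J z))) := by
    rw [Jets.hP, T.uu_zero, T.lh_zero, T.mh_zero, BV.cP, L0a_kk, ← pi1_single]
    simp only [BV.NN, Pi.zero_apply, mul_zero, zero_mul, add_zero, sub_zero, map_zero, zero_sub]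
    rfl
  rw [e]
  refine L0a_congr (((L0a_k0 B J).mapL (pi1 (wJ J))).mul_right _) fun n => ?_
  simp only [sinE, pi1_single, _root_.smul_apply, _root_.sub_apply, mul_smul_comm, mul_neg,
    mul_sub, W.single_mul_single, zero_add, Prod.mk_add_mk, add_zero, L0a_p, mul_assoc, Jets.JF,
    fstL_mkL]
  module

theorem L0a_HH (B : Base) (Z : ChainData) (T : Jets X) (J j : ℕ) (z : X) :
    HasSum (fun n : ℤ => if J = j then (1 / 2 : ℝ) • outK Z j n (L0a_c B n (T.JF J z) (T.JD J z) -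
      (mm J : ℝ) • prim (mm J) n (L0a_p B n (T.JF J z))) else 0) (Out Z (T.HH B J 0 0 z) j) := by
  have h := (((L0a_hC B T J z).mapL (GamC J)).add ((L0a_hP B T J z).mapL (GamP J))).mapL
    (lp.evalCLM ℝ (fun _ : ℕ => Y0) 1 j ∘L Out Z)
  refine L0a_congr h fun n => ?_
  have h1 : ¬ (-(mm J : ℤ) = mm j) := by unfold mm; omega
  have h2 : ((mm J : ℤ) = mm j) ↔ J = j := by unfold mm; omega
  have ev : ∀ k e, (lp.evalCLM ℝ (fun _ : ℕ => Y0) 1 j ∘L Out Z) (W.single wZ k e) =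
      if k.1 = mm j then outK Z j k.2 e else 0 := fun k e => Out_single Z k e j
  simp only [map_add, map_smul, map_sub, GamC_single, GamP_single, ev, h1, h2, if_false,
    Int.cast_natCast]
  split_ifs
  · module
  · simp

theorem L0a_prim_odd {p : E0} (hp : ∀ x, p (-x) = p x) (x : ℝ) : primL p (-x) = -primL p x := by
  have := intervalIntegral.integral_comp_neg (a := 0) (b := x) (fun s => eps s * p s)
  simp only [eps_neg, hp, neg_zero] at this
  rw [primL_apply, primL_apply, this, intervalIntegral.integral_symm]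

theorem L0a_mir (B : Base) (T : Jets X) (j n : ℕ) (z : X) :
    mir (L0a_c B (-(n : ℤ)) (T.JF j z) (T.JD j z) -
      (mm j : ℝ) • prim (mm j) ((-(n : ℤ) : ℤ) : ℝ) (L0a_p B (-(n : ℤ)) (T.JF j z))) =
      B.chat j n (T.JF j z) (T.JD j z) := by
  have hf : ∀ x, T.F j z (-x) = T.F j z x := (T.isJet j).2.2 z
  have hp : ∀ x, L0a_p B n (T.JF j z) (-x) = L0a_p B n (T.JF j z) x := fun x => by
    simp only [L0a_p, BoundedContinuousFunction.mul_apply, B.kc_even, B.hmu0, B.hN0, mu0f_neg,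
      N0f_neg, Jets.JF, fstL_mkL, hf]
  have e1 : L0a_c B (-(n : ℤ)) = L0a_c B n := by
    funext f d
    rw [L0a_c, L0a_c, B.kc_neg]
  have e2 : L0a_p B (-(n : ℤ)) = L0a_p B n := by
    funext f
    rw [L0a_p, L0a_p, B.kc_neg]
  rw [e1, e2]
  refine E1.ext (BoundedContinuousFunction.ext fun x => ?_)
  change _ = fstL (L0a_c B n (T.JF j z) (T.JD j z) -
    (mm j : ℝ) • prim (mm j) n (L0a_p B n (T.JF j z))) x
  rw [fstL_mir]
  generalize L0a_p B n (T.JF j z) = p at hp ⊢
  simp only [map_sub, map_smul, fstL_prim, BoundedContinuousFunction.sub_apply,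
    BoundedContinuousFunction.smul_apply, BoundedContinuousFunction.mul_apply, alpB_apply,
    L0a_prim_odd hp, smul_eq_mul, tanh_neg, L0a_c, fstL_mul, B.kc_even, B.hnu0, B.hN0, B.heta0,
    nu0f_neg, N0f_neg, eta0f_neg, Jets.JF, Jets.JD, fstL_mkL, hf, ContinuousLinearMap.comp_apply,
    mulL_apply, epsB_apply, eps_neg, (T.isJet j).F1_odd]
  push_cast
  ring

theorem Out_DL (B : Base) (Z : ChainData) (T : Jets X) (DL : X →L[ℝ] ZZ)
    (h : ∀ z, HasSum (fun J => T.HH B J 0 0 z) (DL z)) (z : X) (j : ℕ) :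
    HasSum (fun n : ℕ => (wt0 n * (mm j : ℝ) ^ 2) •
      res ((1 + refl) (sndL (Z.ch1 j n (B.chat j n (T.JF j z) (T.JD j z))))))
      (Out Z (DL z) j) := by
  have h1 : HasSum (fun J => Out Z (T.HH B J 0 0 z) j) (Out Z (DL z) j) :=
    (h z).mapL (lp.evalCLM ℝ (fun _ : ℕ => Y0) 1 j ∘L Out Z)
  have h2 : Out Z (DL z) j = Out Z (T.HH B j 0 0 z) j :=
    h1.unique (hasSum_single j fun J hJ => by
      have := L0a_HH B Z T J j z
      simp only [hJ, if_false] at this
      exact this.unique hasSum_zero)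
  have h3 := (L0a_HH B Z T j j z).nat_add_neg
  simp only [if_true] at h3
  set s : ℕ → Y0 := fun n => ((mm j : ℝ) ^ 2) •
    res ((1 + refl) (sndL (Z.ch1 j n (B.chat j n (T.JF j z) (T.JD j z))))) with hs
  have p1 : ∀ n : ℕ, outK Z j n (L0a_c B n (T.JF j z) (T.JD j z) -
      (mm j : ℝ) • prim (mm j) ((n : ℤ) : ℝ) (L0a_p B n (T.JF j z))) = s n := fun n => by
    have : ¬ ((n : ℤ) < 0) := by omega
    simp only [outK, coutK, this, if_false, Int.natAbs_natCast, Int.cast_natCast]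
    rfl
  have p2 : ∀ n : ℕ, outK Z j (-(n : ℤ)) (L0a_c B (-(n : ℤ)) (T.JF j z) (T.JD j z) -
      (mm j : ℝ) • prim (mm j) ((-(n : ℤ) : ℤ) : ℝ) (L0a_p B (-(n : ℤ)) (T.JF j z))) = s n := by
    intro n
    rcases Nat.eq_zero_or_pos n with rfl | hn
    · exact p1 0
    · have : -(n : ℤ) < 0 := by omega
      simp only [hs, ← L0a_mir B T j n z]
      simp only [outK, coutK, this, if_true, Int.natAbs_neg, Int.natAbs_natCast]
      rfl
  have p0 := p1 0
  simp only [Nat.cast_zero] at p0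
  simp only [p1, p2, p0] at h3
  have h4 := h3.sub (hasSum_ite_eq 0 ((1 / 2 : ℝ) • s 0))
  rw [add_sub_cancel_right] at h4
  rw [h2]
  refine L0a_congr h4 fun n => ?_
  rw [mul_smul]
  change wt0 n • s n = _
  cases n with
  | zero => simp [wt0]
  | succ n =>
    simp only [wt0, Nat.succ_ne_zero, if_false]
    module

end Pool.Agent.PS
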