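import Pool.Agent.P.MP_6c3c64_gt.K4

/-! Row L0b. Principal part plus lower order terms. Let `k = fstL (kc n)`, `ν = fstL nu0`,
`N = fstL N0`, `η = fstL eta0`, `a1 = N * Fx - η * F`, `p = k * mu0 * N * F`, and define
`e n (F, Fx) = sndL (kc n * nu0) * a1 - k * ν * sndL eta0 * F + (2 n m) • (tanhB * p)
 + (2 n m) • (s2eB * primL p)` and `c n (F, Fx) = k * ν * a1 - m • (alpB m n * primL p)`.
Then `sndL chat = g n * (F2 - m ^ 2 • (hh * F)) + e n (F, Fx)` (use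
`epsB * sndL N0 = η - tanhB * N`, from `hasDerivAt_N0f` and `E1.hasDerivAt`, and `hh_mul`),
`fstL chat = c n (F, Fx)`. Put
`Er j = ∑' n, wt0 n • res (1 + refl) (che j n ∘ e n + cor j n ∘ c n)`. With
`Q = m ^ 2 ‖F‖ + m ‖Fx‖`: `‖e n‖ ≤ C (1 + n) ‖kc n‖ Q / m`, `‖c n‖ ≤ C (1 + n) ‖kc n‖ Q`; use
`norm_che`, `norm_cor`, `summable_kc_nat` and `(1 + n) (107 / 20) ^ n ≤ C (27 / 5) ^ n`.
-/

set_option autoImplicit false

open Real BoundedContinuousFunction MeasureTheory Set Filter Topology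
open scoped NNReal ENNReal

noncomputable section

namespace Pool.Agent.PS

theorem L0b_summable {V V' : Type} [NormedAddCommGroup V] [NormedSpace ℝ V]
    [NormedAddCommGroup V'] [NormedSpace ℝ V'] [CompleteSpace V'] (T : ℕ → V →L[ℝ] V')
    (a : ℕ → ℝ) (ha : Summable a) (h0 : ∀ n, 0 ≤ a n) (h : ∀ n v, ‖T n v‖ ≤ a n * ‖v‖) :
    Summable T :=
  Summable.of_norm_bounded ha fun n => ContinuousLinearMap.opNorm_le_bound _ (h0 n) (h n)

theorem L0b_hasSum {V V' : Type} [NormedAddCommGroup V] [NormedSpace ℝ V]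
    [NormedAddCommGroup V'] [NormedSpace ℝ V'] {T : ℕ → V →L[ℝ] V'} (hT : Summable T) (v : V) :
    HasSum (fun n => T n v) ((∑' n, T n) v) :=
  (ContinuousLinearMap.apply ℝ V' v).hasSum hT.hasSum

theorem L0b_wt0 (n : ℕ) : ‖wt0 n‖ ≤ 1 := by
  cases n with
  | zero => simp only [wt0, Real.norm_eq_abs]; rw [abs_of_pos (by norm_num)]; norm_num
  | succ n => simp [wt0]

theorem L0b_S (y : E0) : ‖res ((1 + refl) y)‖ ≤ 2 * ‖y‖ := by
  have h1 : ‖res ((1 + refl) y)‖ ≤ ‖(1 + refl) y‖ :=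
    (res.le_opNorm _).trans (by nlinarith [norm_res, norm_nonneg ((1 + refl) y)])
  have h2 : ‖refl y‖ ≤ ‖y‖ :=
    (refl.le_opNorm _).trans (by nlinarith [norm_refl, norm_nonneg y])
  have h3 : (1 + refl) y = y + refl y := rfl
  rw [h3] at h1
  have h4 := norm_add_le y (refl y)
  rw [h3]
  linarith

theorem L0b_wS (n : ℕ) (y : E0) : ‖wt0 n • res ((1 + refl) y)‖ ≤ 2 * ‖y‖ := by
  rw [norm_smul]
  have h1 := L0b_wt0 n
  have h2 := L0b_S y
  nlinarith [norm_nonneg (res ((1 + refl) y)), norm_nonneg (wt0 n)]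

theorem L0b_C (Z : ChainData) : 0 ≤ Z.C := by
  have h := (ContinuousLinearMap.opNorm_nonneg _).trans (Z.norm_che 0 0)
  simpa using h

theorem L0b_geom (n : ℕ) : (1 + (n : ℝ)) * (107 / 20 : ℝ) ^ n ≤ 108 * (27 / 5 : ℝ) ^ n := by
  have h : (1 : ℝ) + n * (1 / 107) ≤ (1 + 1 / 107) ^ n :=
    one_add_mul_le_pow (by norm_num) n
  have e : (27 / 5 : ℝ) ^ n = (1 + 1 / 107) ^ n * (107 / 20 : ℝ) ^ n := by
    rw [← mul_pow]; norm_num
  have hp : (0 : ℝ) ≤ (107 / 20 : ℝ) ^ n := by positivity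
  have hn : (0 : ℝ) ≤ n := n.cast_nonneg
  rw [e, ← mul_assoc]
  exact mul_le_mul_of_nonneg_right (by linarith) hp

theorem summable_Pr (B : Base) (Z : ChainData) (j : ℕ) :
    Summable fun n => wt0 n • (res ∘L (1 + refl) ∘L che Z.Re j n ∘L mulL (B.g n)) := by
  have hC := L0b_C Z
  refine L0b_summable (V := E0) (V' := Y0) _ _ (B.summable_g.mul_left (2 * Z.C))
    (fun n => by positivity) fun n y => ?_
  have e : (wt0 n • (res ∘L (1 + refl) ∘L che Z.Re j n ∘L mulL (B.g n))) y =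
      wt0 n • res ((1 + refl) (che Z.Re j n (B.g n * y))) := rfl
  rw [e]
  refine (L0b_wS n _).trans ?_
  have h1 : ‖che Z.Re j n (B.g n * y)‖ ≤ Z.C * (107 / 20) ^ n * (‖B.g n‖ * ‖y‖) :=
    ((che Z.Re j n).le_opNorm _).trans
      (mul_le_mul (Z.norm_che j n) (norm_mul_le _ _) (norm_nonneg _) (by positivity))
  have h2 : (107 / 20 : ℝ) ^ n ≤ (27 / 5 : ℝ) ^ n :=
    pow_le_pow_left₀ (by norm_num) (by norm_num) n
  have h3 : Z.C * (107 / 20) ^ n * (‖B.g n‖ * ‖y‖) ≤ Z.C * (27 / 5) ^ n * (‖B.g n‖ * ‖y‖) := by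
    gcongr
  calc 2 * ‖che Z.Re j n (B.g n * y)‖ ≤ 2 * (Z.C * (27 / 5) ^ n * (‖B.g n‖ * ‖y‖)) := by
        linarith
    _ = 2 * Z.C * ((27 / 5) ^ n * ‖B.g n‖) * ‖y‖ := by ring

/-- `N * Fx - η * F` -/
def L0b_a (B : Base) : E0 × E0 →L[ℝ] E0 :=
  mulL (fstL B.N0) ∘L ContinuousLinearMap.snd ℝ E0 E0
    - mulL (fstL B.eta0) ∘L ContinuousLinearMap.fst ℝ E0 E0

/-- `k * mu0 * N * F` -/
def L0b_p (B : Base) (n : ℕ) : E0 × E0 →L[ℝ] E0 :=
  mulL (fstL (B.kc n) * B.mu0 * fstL B.N0) ∘L ContinuousLinearMap.fst ℝ E0 E0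

def L0b_e (B : Base) (j n : ℕ) : E0 × E0 →L[ℝ] E0 :=
  mulL (sndL (B.kc n * B.nu0)) ∘L L0b_a B
    - mulL (fstL (B.kc n) * fstL B.nu0 * sndL B.eta0) ∘L ContinuousLinearMap.fst ℝ E0 E0
    + (2 * n * mm j : ℝ) • (mulL tanhB ∘L L0b_p B n)
    + (2 * n * mm j : ℝ) • (mulL s2eB ∘L primL ∘L L0b_p B n)

def L0b_c (B : Base) (j n : ℕ) : E0 × E0 →L[ℝ] E0 :=
  mulL (fstL (B.kc n) * fstL B.nu0) ∘L L0b_a B
    - (mm j : ℝ) • (mulL (alpB (mm j) n) ∘L primL ∘L L0b_p B n)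

theorem L0b_a_apply (B : Base) (F Fx : E0) :
    L0b_a B (F, Fx) = fstL B.N0 * Fx - fstL B.eta0 * F := rfl

theorem L0b_p_apply (B : Base) (n : ℕ) (F Fx : E0) :
    L0b_p B n (F, Fx) = fstL (B.kc n) * B.mu0 * fstL B.N0 * F := rfl

theorem L0b_e_apply (B : Base) (j n : ℕ) (v : E0 × E0) :
    L0b_e B j n v = sndL (B.kc n * B.nu0) * L0b_a B v
      - fstL (B.kc n) * fstL B.nu0 * sndL B.eta0 * v.1
      + (2 * n * mm j : ℝ) • (tanhB * L0b_p B n v)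
      + (2 * n * mm j : ℝ) • (s2eB * primL (L0b_p B n v)) := rfl

theorem L0b_c_apply (B : Base) (j n : ℕ) (v : E0 × E0) :
    L0b_c B j n v = fstL (B.kc n) * fstL B.nu0 * L0b_a B v
      - (mm j : ℝ) • (alpB (mm j) n * primL (L0b_p B n v)) := rfl

theorem L0b_sndN (B : Base) (x : ℝ) :
    eps x * sndL B.N0 x = fstL B.eta0 x - tanh x * fstL B.N0 x := by
  have h1 := B.N0.hasDerivAt x
  have e : ⇑(fstL B.N0) = N0f := funext B.hN0
  rw [e] at h1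
  rw [B.heta0, e]
  exact h1.unique (hasDerivAt_N0f x)

theorem L0b_fst (B : Base) (j n : ℕ) (f d : E1) :
    fstL (B.chat j n f d) = L0b_c B j n (fstL f, fstL d) := by
  rw [L0b_c_apply, L0b_a_apply, L0b_p_apply, Base.chat, map_sub, map_smul, fstL_prim, fstL_mul,
    fstL_mul, map_sub, fstL_mul, fstL_mul]

theorem L0b_snd (B : Base) (j n : ℕ) (f d : E1) (F2 : E0) (h1 : fstL d = epsB * sndL f)
    (h2 : sndL d = F2 + tanhB * sndL f) :
    sndL (B.chat j n f d) = B.g n * (F2 - (mm j : ℝ) ^ 2 • (B.hh * fstL f))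
      + L0b_e B j n (fstL f, fstL d) := by
  rw [L0b_e_apply, L0b_a_apply, L0b_p_apply, Base.chat, map_sub, map_smul, sndL_prim,
    sndL_mul (B.kc n * B.nu0), fstL_mul, map_sub, map_sub, fstL_mul, fstL_mul, sndL_mul B.N0,
    sndL_mul B.eta0, h2, Base.g]
  generalize primL (fstL (B.kc n) * B.mu0 * fstL B.N0 * fstL f) = P
  rw [← B.hh_mul]
  ext x
  have h3 := L0b_sndN B x
  have h4 : fstL d x = eps x * sndL f x := by rw [h1]; rfl
  simp only [BoundedContinuousFunction.sub_apply, BoundedContinuousFunction.add_apply,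
    BoundedContinuousFunction.mul_apply, BoundedContinuousFunction.smul_apply, smul_eq_mul,
    alpB_apply, tanhB_apply, h4]
  linear_combination (fstL (B.kc n) x * fstL B.nu0 x * sndL f x) * h3

theorem L0b_bounds (B : Base) : ∃ M : ℝ, 0 ≤ M ∧ ∀ (j n : ℕ) (F Fx : E0),
    ‖L0b_e B j n (F, Fx)‖ ≤ M * ((1 + n) * ‖B.kc n‖) * (mm j * ‖F‖ + ‖Fx‖) ∧
    ‖L0b_c B j n (F, Fx)‖ ≤ M * ((1 + n) * ‖B.kc n‖) * (mm j * ‖F‖ + ‖Fx‖) * mm j := by
  obtain ⟨K, hK1, hN, hη, hν, hμ⟩ : ∃ K : ℝ, 1 ≤ K ∧ ‖B.N0‖ ≤ K ∧ ‖B.eta0‖ ≤ K ∧ ‖B.nu0‖ ≤ K ∧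
      ‖B.mu0‖ ≤ K := by
    have h1 := norm_nonneg B.N0
    have h2 := norm_nonneg B.eta0
    have h3 := norm_nonneg B.nu0
    have h4 := norm_nonneg B.mu0
    exact ⟨1 + ‖B.N0‖ + ‖B.eta0‖ + ‖B.nu0‖ + ‖B.mu0‖, by linarith, by linarith, by linarith,
      by linarith, by linarith⟩
  have hK : 0 ≤ K := by linarith
  refine ⟨500 * K ^ 2, by positivity, fun j n F Fx => ?_⟩
  have hm := one_le_mm j
  set m : ℝ := (mm j : ℝ) with hmdef
  have hn : (0 : ℝ) ≤ n := n.cast_nonneg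
  have hF := norm_nonneg F
  have hFx := norm_nonneg Fx
  have hk := norm_nonneg (B.kc n)
  set Q : ℝ := m * ‖F‖ + ‖Fx‖ with hQ
  have hFm : ‖F‖ ≤ m * ‖F‖ := le_mul_of_one_le_left hF hm
  have hmF : m * ‖F‖ ≤ Q := by linarith
  have hFQ : ‖F‖ ≤ Q := by linarith
  have hQ0 : 0 ≤ Q := by linarith
  have hN1 : ‖fstL B.N0‖ ≤ K := (norm_fstL_le _).trans hN
  have hη1 : ‖fstL B.eta0‖ ≤ K := (norm_fstL_le _).trans hη
  have hη2 : ‖sndL B.eta0‖ ≤ K := (norm_sndL_le _).trans hη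
  have hν1 : ‖fstL B.nu0‖ ≤ K := (norm_fstL_le _).trans hν
  have hk1 : ‖fstL (B.kc n)‖ ≤ ‖B.kc n‖ := norm_fstL_le _
  have ha : ‖L0b_a B (F, Fx)‖ ≤ K * Q := by
    rw [L0b_a_apply]
    have a1 : ‖fstL B.N0 * Fx‖ ≤ K * ‖Fx‖ :=
      (norm_mul_le _ _).trans (mul_le_mul_of_nonneg_right hN1 hFx)
    have a2 : ‖fstL B.eta0 * F‖ ≤ K * (m * ‖F‖) :=
      (norm_mul_le _ _).trans (mul_le_mul hη1 hFm hF hK)
    have a3 := norm_sub_le (fstL B.N0 * Fx) (fstL B.eta0 * F)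
    have a4 : K * Q = K * ‖Fx‖ + K * (m * ‖F‖) := by rw [hQ]; ring
    linarith
  have hp : ‖L0b_p B n (F, Fx)‖ ≤ ‖B.kc n‖ * K * K * ‖F‖ := by
    rw [L0b_p_apply]
    refine (norm_mul_le _ _).trans (mul_le_mul_of_nonneg_right ?_ hF)
    refine (norm_mul_le _ _).trans (mul_le_mul ?_ hN1 (norm_nonneg _) (by positivity))
    exact (norm_mul_le _ _).trans (mul_le_mul hk1 hμ (norm_nonneg _) hk)
  have hP : ‖primL (L0b_p B n (F, Fx))‖ ≤ 200 * (‖B.kc n‖ * K * K * ‖F‖) :=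
    (primL.le_opNorm _).trans (mul_le_mul norm_primL hp (norm_nonneg _) (by norm_num))
  have hkν : ‖fstL (B.kc n) * fstL B.nu0‖ ≤ ‖B.kc n‖ * K :=
    (norm_mul_le _ _).trans (mul_le_mul hk1 hν1 (norm_nonneg _) hk)
  set W : ℝ := K ^ 2 * ‖B.kc n‖ with hW
  have hW0 : 0 ≤ W := by positivity
  have hWQ : 0 ≤ W * Q := by positivity
  have hnW : 0 ≤ n * (W * Q) := by positivity
  constructor
  · rw [L0b_e_apply]
    have e1 : ‖sndL (B.kc n * B.nu0) * L0b_a B (F, Fx)‖ ≤ W * Q := by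
      have : ‖sndL (B.kc n * B.nu0)‖ ≤ ‖B.kc n‖ * K :=
        (norm_sndL_le _).trans ((norm_mul_le _ _).trans (mul_le_mul_of_nonneg_left hν hk))
      refine (norm_mul_le _ _).trans ((mul_le_mul this ha (norm_nonneg _)
        (by positivity)).trans (le_of_eq (by rw [hW]; ring)))
    have e2 : ‖fstL (B.kc n) * fstL B.nu0 * sndL B.eta0 * (F, Fx).1‖ ≤ W * Q := by
      have : ‖fstL (B.kc n) * fstL B.nu0 * sndL B.eta0‖ ≤ ‖B.kc n‖ * K * K :=
        (norm_mul_le _ _).trans (mul_le_mul hkν hη2 (norm_nonneg _) (by positivity))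
      refine (norm_mul_le _ _).trans ((mul_le_mul this hFQ (norm_nonneg _)
        (by positivity)).trans (le_of_eq (by rw [hW]; ring)))
    have hs : ‖(2 * n * m : ℝ)‖ = 2 * n * m := Real.norm_of_nonneg (by positivity)
    have hWm : ‖B.kc n‖ * K * K * ‖F‖ * m ≤ W * Q := by
      have : ‖B.kc n‖ * K * K * ‖F‖ * m = W * (m * ‖F‖) := by rw [hW]; ring
      rw [this]
      exact mul_le_mul_of_nonneg_left hmF hW0
    have e3 : ‖(2 * n * m : ℝ) • (tanhB * L0b_p B n (F, Fx))‖ ≤ 2 * (n * (W * Q)) := by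
      rw [norm_smul, hs]
      have : ‖tanhB * L0b_p B n (F, Fx)‖ ≤ 1 * (‖B.kc n‖ * K * K * ‖F‖) :=
        (norm_mul_le _ _).trans (mul_le_mul norm_tanhB hp (norm_nonneg _) zero_le_one)
      calc 2 * n * m * ‖tanhB * L0b_p B n (F, Fx)‖
          ≤ 2 * n * m * (1 * (‖B.kc n‖ * K * K * ‖F‖)) := by gcongr
        _ = 2 * (n * (‖B.kc n‖ * K * K * ‖F‖ * m)) := by ring
        _ ≤ 2 * (n * (W * Q)) := by gcongr
    have e4 : ‖(2 * n * m : ℝ) • (s2eB * primL (L0b_p B n (F, Fx)))‖ ≤ 400 * (n * (W * Q)) := by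
      rw [norm_smul, hs]
      have : ‖s2eB * primL (L0b_p B n (F, Fx))‖ ≤ 1 * (200 * (‖B.kc n‖ * K * K * ‖F‖)) :=
        (norm_mul_le _ _).trans (mul_le_mul norm_s2eB hP (norm_nonneg _) zero_le_one)
      calc 2 * n * m * ‖s2eB * primL (L0b_p B n (F, Fx))‖
          ≤ 2 * n * m * (1 * (200 * (‖B.kc n‖ * K * K * ‖F‖))) := by gcongr
        _ = 400 * (n * (‖B.kc n‖ * K * K * ‖F‖ * m)) := by ring
        _ ≤ 400 * (n * (W * Q)) := by gcongr
    refine (norm_add_le _ _).trans ?_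
    refine (add_le_add ((norm_add_le _ _).trans (add_le_add ((norm_sub_le _ _).trans
      (add_le_add e1 e2)) e3)) e4).trans ?_
    have : 500 * K ^ 2 * ((1 + n) * ‖B.kc n‖) * Q = 500 * (W * Q) + 500 * (n * (W * Q)) := by
      rw [hW]; ring
    rw [this]
    linarith
  · rw [L0b_c_apply]
    have e1 : ‖fstL (B.kc n) * fstL B.nu0 * L0b_a B (F, Fx)‖ ≤ W * Q * m := by
      refine (norm_mul_le _ _).trans ((mul_le_mul hkν ha (norm_nonneg _)
        (by positivity)).trans ?_)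
      have : ‖B.kc n‖ * K * (K * Q) = W * Q := by rw [hW]; ring
      rw [this]
      exact le_mul_of_one_le_right hWQ hm
    have hal : ‖alpB m n‖ ≤ (1 + 2 * n) * m := by
      have := norm_alpB m n
      rw [abs_of_nonneg (by linarith : (0 : ℝ) ≤ m), abs_of_nonneg hn] at this
      nlinarith
    have e2 : ‖m • (alpB m n * primL (L0b_p B n (F, Fx)))‖ ≤
        200 * (1 + 2 * n) * (W * Q * m) := by
      rw [norm_smul, Real.norm_of_nonneg (by linarith : (0 : ℝ) ≤ m)]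
      have : ‖alpB m n * primL (L0b_p B n (F, Fx))‖ ≤
          (1 + 2 * n) * m * (200 * (‖B.kc n‖ * K * K * ‖F‖)) :=
        (norm_mul_le _ _).trans (mul_le_mul hal hP (norm_nonneg _) (by positivity))
      calc m * ‖alpB m n * primL (L0b_p B n (F, Fx))‖
          ≤ m * ((1 + 2 * n) * m * (200 * (‖B.kc n‖ * K * K * ‖F‖))) := by gcongr
        _ = 200 * (1 + 2 * n) * (W * (m * ‖F‖) * m) := by rw [hW]; ring
        _ ≤ 200 * (1 + 2 * n) * (W * Q * m) := by gcongr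
    refine (norm_sub_le _ _).trans ((add_le_add e1 e2).trans ?_)
    have h0 : 0 ≤ W * Q * m := by positivity
    have h1 : 0 ≤ n * (W * Q * m) := by positivity
    have : 500 * K ^ 2 * ((1 + n) * ‖B.kc n‖) * Q * m =
        500 * (W * Q * m) + 500 * (n * (W * Q * m)) := by
      rw [hW]; ring
    rw [this]
    nlinarith

def L0b_T (B : Base) (Z : ChainData) (j n : ℕ) : E0 × E0 →L[ℝ] Y0 :=
  wt0 n • (res ∘L (1 + refl) ∘L (che Z.Re j n ∘L L0b_e B j n + Z.cor j n ∘L L0b_c B j n))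

theorem L0b_T_apply (B : Base) (Z : ChainData) (j n : ℕ) (v : E0 × E0) :
    L0b_T B Z j n v =
      wt0 n • res ((1 + refl) (che Z.Re j n (L0b_e B j n v) + Z.cor j n (L0b_c B j n v))) := rfl

theorem L0b_T_bound (B : Base) (Z : ChainData) : ∃ M : ℝ, 0 ≤ M ∧ ∀ (j n : ℕ) (F Fx : E0),
    ‖L0b_T B Z j n (F, Fx)‖ ≤ M * ((27 / 5 : ℝ) ^ n * ‖B.kc n‖) * (mm j * ‖F‖ + ‖Fx‖) := by
  obtain ⟨M, hM, h⟩ := L0b_bounds B
  have hC := L0b_C Z
  refine ⟨432 * Z.C * M, by positivity, fun j n F Fx => ?_⟩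
  obtain ⟨he, hc⟩ := h j n F Fx
  have hm := mm_pos j
  have hQ : (0 : ℝ) ≤ mm j * ‖F‖ + ‖Fx‖ := by positivity
  set Q : ℝ := mm j * ‖F‖ + ‖Fx‖
  have h1 : ‖che Z.Re j n (L0b_e B j n (F, Fx))‖ ≤
      Z.C * (107 / 20) ^ n * (M * ((1 + n) * ‖B.kc n‖) * Q) :=
    ((che Z.Re j n).le_opNorm _).trans
      (mul_le_mul (Z.norm_che j n) he (norm_nonneg _) (by positivity))
  have h2 : ‖Z.cor j n (L0b_c B j n (F, Fx))‖ ≤
      Z.C * (107 / 20) ^ n * (M * ((1 + n) * ‖B.kc n‖) * Q) := by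
    refine ((Z.cor j n).le_opNorm _).trans
      ((mul_le_mul (Z.norm_cor j n) hc (norm_nonneg _) (by positivity)).trans (le_of_eq ?_))
    field_simp
  rw [L0b_T_apply]
  refine (L0b_wS n _).trans ?_
  have h3 := norm_add_le (che Z.Re j n (L0b_e B j n (F, Fx))) (Z.cor j n (L0b_c B j n (F, Fx)))
  have h4 : Z.C * (107 / 20) ^ n * (M * ((1 + n) * ‖B.kc n‖) * Q) ≤
      Z.C * M * (108 * (27 / 5) ^ n) * (‖B.kc n‖ * Q) := by
    calc Z.C * (107 / 20) ^ n * (M * ((1 + n) * ‖B.kc n‖) * Q)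
        = Z.C * M * ((1 + n) * (107 / 20) ^ n) * (‖B.kc n‖ * Q) := by ring
      _ ≤ Z.C * M * (108 * (27 / 5) ^ n) * (‖B.kc n‖ * Q) := by
        have := L0b_geom n
        gcongr
  have h5 : 432 * Z.C * M * ((27 / 5 : ℝ) ^ n * ‖B.kc n‖) * Q =
      4 * (Z.C * M * (108 * (27 / 5) ^ n) * (‖B.kc n‖ * Q)) := by ring
  rw [h5]
  linarith

theorem exists_Er (B : Base) (Z : ChainData) : ∃ (Er : ℕ → E0 × E0 →L[ℝ] Y0) (C : ℝ),
    (∀ j F Fx, ‖Er j (F, Fx)‖ ≤ C / mm j * ((mm j : ℝ) ^ 2 * ‖F‖ + mm j * ‖Fx‖)) ∧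
    ∀ (j : ℕ) (f d : E1) (F2 : E0), fstL d = epsB * sndL f → sndL d = F2 + tanhB * sndL f →
      HasSum (fun n : ℕ => wt0 n • res ((1 + refl) (sndL (Z.ch1 j n (B.chat j n f d)))))
        (Pr B Z j (F2 - (mm j : ℝ) ^ 2 • (B.hh * fstL f)) + Er j (fstL f, fstL d)) := by
  obtain ⟨M, hM, h⟩ := L0b_T_bound B Z
  have hs := B.summable_kc_nat
  have hsum : ∀ j, Summable (L0b_T B Z j) := by
    intro j
    have hm := mm_pos j
    refine L0b_summable (V := E0 × E0) (V' := Y0) _ _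
      ((hs.mul_left M).mul_right ((mm j : ℝ) + 1)) (fun n => by positivity) fun n v => ?_
    obtain ⟨F, Fx⟩ := v
    refine (h j n F Fx).trans ?_
    have h1 : ‖F‖ ≤ ‖(F, Fx)‖ := norm_fst_le (F, Fx)
    have h2 : ‖Fx‖ ≤ ‖(F, Fx)‖ := norm_snd_le (F, Fx)
    have h3 : mm j * ‖F‖ + ‖Fx‖ ≤ (mm j + 1) * ‖(F, Fx)‖ := by nlinarith
    rw [mul_assoc _ (mm j + 1 : ℝ)]
    exact mul_le_mul_of_nonneg_left h3 (by positivity)
  have hT : ∀ j v, HasSum (fun n => L0b_T B Z j n v) ((∑' n, L0b_T B Z j n) v) := fun j v =>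
    L0b_hasSum (V := E0 × E0) (V' := Y0) (hsum j) v
  refine ⟨fun j => ∑' n, L0b_T B Z j n, M * ∑' n : ℕ, (27 / 5 : ℝ) ^ n * ‖B.kc n‖,
    fun j F Fx => ?_, fun j f d F2 h1 h2 => ?_⟩
  · have hm := mm_pos j
    have h1 := (hT j (F, Fx)).norm_le_of_bounded
      ((hs.hasSum.mul_left M).mul_right (mm j * ‖F‖ + ‖Fx‖)) fun n => h j n F Fx
    refine h1.trans (le_of_eq ?_)
    field_simp
  · have hP : HasSum (fun n => (wt0 n • (res ∘L (1 + refl) ∘L che Z.Re j n ∘L mulL (B.g n)))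
        (F2 - (mm j : ℝ) ^ 2 • (B.hh * fstL f)))
        (Pr B Z j (F2 - (mm j : ℝ) ^ 2 • (B.hh * fstL f))) :=
      L0b_hasSum (V := E0) (V' := Y0) (summable_Pr B Z j) _
    have e : (fun n : ℕ => wt0 n • res ((1 + refl) (sndL (Z.ch1 j n (B.chat j n f d))))) =
        fun n => (wt0 n • (res ∘L (1 + refl) ∘L che Z.Re j n ∘L mulL (B.g n)))
          (F2 - (mm j : ℝ) ^ 2 • (B.hh * fstL f)) + L0b_T B Z j n (fstL f, fstL d) := by
      funext n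
      have e1 : (wt0 n • (res ∘L (1 + refl) ∘L che Z.Re j n ∘L mulL (B.g n)))
          (F2 - (mm j : ℝ) ^ 2 • (B.hh * fstL f)) = wt0 n • res ((1 + refl) (che Z.Re j n
            (B.g n * (F2 - (mm j : ℝ) ^ 2 • (B.hh * fstL f))))) := rfl
      rw [e1, L0b_T_apply, Z.snd_ch1, L0b_snd B j n f d F2 h1 h2, L0b_fst, ← smul_add, ← map_add,
        ← map_add, map_add (che Z.Re j n), add_assoc]
    rw [e]
    exact hP.add (hT j (fstL f, fstL d))

end Pool.Agent.PS
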