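import Pool.Agent.P.MP_6c3c64_gt.Defs

/-! Row L4. Constant coefficient resolvents on the half-line: for `a < 0`,
`R a c x = ∫ s in 0..x, exp (a (x - s)) c s`; for `a > 0`,
`R a c x = -∫ s in Ioi x, exp (a (x - s)) c s`. Uniqueness: a bounded continuous `v` on `[0, ∞)`
with `v' = a v` on `(0, ∞)` vanishes if `a > 0`, or if `v 0 = 0`. `resolvent`: `u = R b c` solves
`u' = a u + (c + (b - a) u)`. `R_comm`: apply `resolvent` in both orders (the case `a = b` is
trivial). Norms: `‖ZR‖ ≤ 1 + |2 d + 2| / |d + gam| ≤ 5` for the odd integer `d = mm j - 2 n`, and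
`‖ZL‖ ≤ 3`.
-/

set_option autoImplicit false

open Real BoundedContinuousFunction MeasureTheory Set Filter Topology
open scoped NNReal ENNReal

noncomputable section

namespace Pool.Agent.PS

theorem L4_cont (a : ℝ) (c : Y0) : Continuous fun s : ℝ => exp (-a * s) * ext c s :=
  (by fun_prop : Continuous fun s : ℝ => exp (-a * s)).mul (ext c).continuous

theorem L4_deriv (a k : ℝ) (c : Y0) (x : ℝ) :
    HasDerivAt (fun x : ℝ => exp (a * x) * (k + ∫ s in (0 : ℝ)..x, exp (-a * s) * ext c s))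
      (a * (exp (a * x) * (k + ∫ s in (0 : ℝ)..x, exp (-a * s) * ext c s)) + ext c x) x := by
  have h1 : HasDerivAt (fun x : ℝ => exp (a * x)) (exp (a * x) * a) x := by
    simpa using ((hasDerivAt_id x).const_mul a).exp
  have h2 := (((L4_cont a c).integral_hasStrictDerivAt 0 x).hasDerivAt).const_add k
  refine (h1.mul h2).congr_deriv ?_
  have h3 : exp (a * x) * exp (-a * x) = 1 := by rw [← exp_add]; simp
  linear_combination (ext c x) * h3

theorem L4_abs (c : Y0) (s : ℝ) : |ext c s| ≤ ‖c‖ := c.norm_coe_le_norm _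

theorem L4_mk (a : ℝ) (k : Y0 →ₗ[ℝ] ℝ) (M : ℝ) (hM : 0 ≤ M)
    (hb : ∀ (c : Y0) (x : ℝ), 0 ≤ x →
      |exp (a * x) * (k c + ∫ s in (0 : ℝ)..x, exp (-a * s) * ext c s)| ≤ M * ‖c‖) :
    ∃ R : Y0 →L[ℝ] Y0,
      (∀ c x, 0 < x → HasDerivAt (ext (R c)) (a * ext (R c) x + ext c x) x) ∧
      (∀ c, R c 0 = k c) ∧ ‖R‖ ≤ M := by
  have hc : ∀ c : Y0, Continuous fun x : ℝ≥0 =>
      exp (a * x) * (k c + ∫ s in (0 : ℝ)..(x : ℝ), exp (-a * s) * ext c s) := fun c =>
    (continuous_iff_continuousAt.2 fun x => (L4_deriv a (k c) c x).continuousAt).comp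
      NNReal.continuous_coe
  let T : Y0 →ₗ[ℝ] Y0 :=
    { toFun := fun c => ofNormedAddCommGroup (fun x : ℝ≥0 =>
        exp (a * x) * (k c + ∫ s in (0 : ℝ)..(x : ℝ), exp (-a * s) * ext c s)) (hc c) (M * ‖c‖)
        fun x => hb c x x.2
      map_add' := fun p q => by
        ext x
        simp only [coe_ofNormedAddCommGroup, BoundedContinuousFunction.add_apply, map_add, mul_add]
        rw [intervalIntegral.integral_add ((L4_cont a p).intervalIntegrable _ _)
          ((L4_cont a q).intervalIntegrable _ _)]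
        ring
      map_smul' := fun t p => by
        ext x
        simp only [coe_ofNormedAddCommGroup, BoundedContinuousFunction.smul_apply, map_smul,
          smul_eq_mul, RingHom.id_apply]
        have e : ∫ s in (0 : ℝ)..(x : ℝ), exp (-a * s) * (t * ext p s) =
            t * ∫ s in (0 : ℝ)..(x : ℝ), exp (-a * s) * ext p s := by
          rw [← intervalIntegral.integral_const_mul]
          congr 1; ext s; ring
        rw [e]; ring }
  have hT : ∀ c, ‖T c‖ ≤ M * ‖c‖ := fun c =>
    (norm_le (mul_nonneg hM (norm_nonneg c))).2 fun x => hb c x x.2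
  have hx : ∀ (c : Y0) (x : ℝ), 0 < x → ext (T.mkContinuous M hT c) x =
      exp (a * x) * (k c + ∫ s in (0 : ℝ)..x, exp (-a * s) * ext c s) := by
    intro c x hx
    have := ext_coe (T.mkContinuous M hT c) ⟨x, hx.le⟩
    exact this
  refine ⟨T.mkContinuous M hT, fun c x h0 => ?_, fun c => ?_, T.mkContinuous_norm_le hM hT⟩
  · rw [hx c x h0]
    refine (L4_deriv a (k c) c x).congr_of_eventuallyEq ?_
    filter_upwards [lt_mem_nhds h0] with y hy using hx c y hy
  · change exp (a * ((0 : ℝ≥0) : ℝ)) *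
      (k c + ∫ s in (0 : ℝ)..((0 : ℝ≥0) : ℝ), exp (-a * s) * ext c s) = k c
    simp

theorem L4_neg {a : ℝ} (ha : a < 0) (c : Y0) (x : ℝ) (hx : 0 ≤ x) :
    |exp (a * x) * (0 + ∫ s in (0 : ℝ)..x, exp (-a * s) * ext c s)| ≤ 1 / |a| * ‖c‖ := by
  have h1 : |∫ s in (0 : ℝ)..x, exp (-a * s) * ext c s| ≤
      ∫ s in (0 : ℝ)..x, exp (-a * s) * ‖c‖ := by
    refine (intervalIntegral.abs_integral_le_integral_abs hx).trans ?_
    refine intervalIntegral.integral_mono_on hx ((L4_cont a c).abs.intervalIntegrable _ _)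
      (Continuous.intervalIntegrable (by fun_prop) _ _) fun s _ => ?_
    rw [abs_mul, abs_of_pos (exp_pos _)]
    exact mul_le_mul_of_nonneg_left (L4_abs c s) (exp_pos _).le
  have h2 : ∫ s in (0 : ℝ)..x, exp (-a * s) * ‖c‖ =
      exp (-a * x) * ‖c‖ / -a - exp (-a * 0) * ‖c‖ / -a := by
    refine intervalIntegral.integral_eq_sub_of_hasDerivAt
      (f := fun s => exp (-a * s) * ‖c‖ / -a) (fun s _ => ?_)
      (Continuous.intervalIntegrable (by fun_prop) _ _)
    have := ((((hasDerivAt_id s).const_mul (-a)).exp).mul_const ‖c‖).div_const (-a)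
    refine HasDerivAt.congr_deriv (f := fun s => exp (-a * s) * ‖c‖ / -a) this ?_
    have := ha.ne
    simp only [id]; field_simp
  have h3 : exp (a * x) * exp (-a * x) = 1 := by rw [← exp_add]; simp
  have h4 : 0 ≤ exp (-a * 0) * ‖c‖ / -a := by
    have : 0 < -a := by linarith
    positivity
  rw [zero_add, abs_mul, abs_of_pos (exp_pos _), abs_of_neg ha]
  calc exp (a * x) * |∫ s in (0 : ℝ)..x, exp (-a * s) * ext c s|
      ≤ exp (a * x) * (exp (-a * x) * ‖c‖ / -a) :=
        mul_le_mul_of_nonneg_left (by linarith) (exp_pos _).le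
    _ = (exp (a * x) * exp (-a * x)) * ‖c‖ / -a := by ring
    _ = 1 / -a * ‖c‖ := by rw [h3]; ring

theorem L4_int {a : ℝ} (ha : 0 < a) (c : Y0) (x : ℝ) :
    IntegrableOn (fun s : ℝ => exp (-a * s) * ext c s) (Ioi x) :=
  Integrable.mul_bdd (integrableOn_exp_mul_Ioi (by linarith) x)
    (ext c).continuous.aestronglyMeasurable (Eventually.of_forall fun s => L4_abs c s)

theorem L4_pos {a : ℝ} (ha : 0 < a) (c : Y0) (x : ℝ) :
    |exp (a * x) * (-(∫ s in Ioi (0 : ℝ), exp (-a * s) * ext c s) +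
      ∫ s in (0 : ℝ)..x, exp (-a * s) * ext c s)| ≤ 1 / |a| * ‖c‖ := by
  have h0 := intervalIntegral.integral_Ioi_sub_Ioi' (L4_int ha c 0) (L4_int ha c x)
  have e : -(∫ s in Ioi (0 : ℝ), exp (-a * s) * ext c s) +
      ∫ s in (0 : ℝ)..x, exp (-a * s) * ext c s = -∫ s in Ioi x, exp (-a * s) * ext c s := by
    linarith
  have h1 : |∫ s in Ioi x, exp (-a * s) * ext c s| ≤ ∫ s in Ioi x, exp (-a * s) * ‖c‖ := by
    rw [← Real.norm_eq_abs]
    refine norm_integral_le_of_norm_le
      (Integrable.mul_const (integrableOn_exp_mul_Ioi (by linarith) x) _)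
      (Eventually.of_forall fun s => ?_)
    rw [Real.norm_eq_abs, abs_mul, abs_of_pos (exp_pos _)]
    exact mul_le_mul_of_nonneg_left (L4_abs c s) (exp_pos _).le
  rw [integral_mul_const, integral_exp_mul_Ioi (by linarith)] at h1
  have h3 : exp (a * x) * exp (-a * x) = 1 := by rw [← exp_add]; simp
  rw [e, abs_mul, abs_neg, abs_of_pos (exp_pos _), abs_of_pos ha]
  calc exp (a * x) * |∫ s in Ioi x, exp (-a * s) * ext c s|
      ≤ exp (a * x) * (-exp (-a * x) / -a * ‖c‖) := mul_le_mul_of_nonneg_left h1 (exp_pos _).le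
    _ = (exp (a * x) * exp (-a * x)) * (1 / a * ‖c‖) := by
        rw [neg_div_neg_eq]; ring
    _ = 1 / a * ‖c‖ := by rw [h3, one_mul]

theorem exists_hres : Nonempty HRes := by
  have key : ∀ a : ℝ, ∃ R : Y0 →L[ℝ] Y0,
      (a ≠ 0 → ∀ c x, 0 < x → HasDerivAt (ext (R c)) (a * ext (R c) x + ext c x) x) ∧
      (a < 0 → ∀ c, R c 0 = 0) ∧ (a ≠ 0 → ‖R‖ ≤ 1 / |a|) := by
    intro a
    rcases lt_trichotomy a 0 with ha | ha | ha
    · obtain ⟨R, h1, h2, h3⟩ := L4_mk a 0 (1 / |a|) (by positivity) (L4_neg ha)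
      exact ⟨R, fun _ => h1, fun _ => h2, fun _ => h3⟩
    · exact ⟨0, fun h => absurd ha h, fun h => absurd ha h.ne, fun h => absurd ha h⟩
    · let k : Y0 →ₗ[ℝ] ℝ :=
        { toFun := fun c => -∫ s in Ioi (0 : ℝ), exp (-a * s) * ext c s
          map_add' := fun p q => by
            simp only [BoundedContinuousFunction.add_apply, map_add, mul_add]
            rw [integral_add (L4_int ha p 0) (L4_int ha q 0)]
            ring
          map_smul' := fun t p => by
            simp only [BoundedContinuousFunction.smul_apply, map_smul, smul_eq_mul,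
              RingHom.id_apply]
            have e : ∫ s in Ioi (0 : ℝ), exp (-a * s) * (t * ext p s) =
                t * ∫ s in Ioi (0 : ℝ), exp (-a * s) * ext p s := by
              rw [← integral_const_mul]
              congr 1; ext s; ring
            rw [e]; ring }
      obtain ⟨R, h1, -, h3⟩ := L4_mk a k (1 / |a|) (by positivity) fun c x _ => L4_pos ha c x
      exact ⟨R, fun _ => h1, fun h => absurd h (not_lt.2 ha.le), fun _ => h3⟩
  choose R h1 h2 h3 using key
  exact ⟨⟨R, h1, h2, h3⟩⟩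

theorem half_unique (a : ℝ) (v : Y0) (hv : ∀ x, 0 < x → HasDerivAt (ext v) (a * ext v x) x)
    (h : 0 < a ∨ v 0 = 0) : v = 0 := by
  have hw : ∀ x : ℝ, 0 < x → exp (-a * x) * ext v x = v 0 := by
    intro x hx
    obtain ⟨y, -, hy⟩ := exists_hasDerivAt_eq_slope (fun s : ℝ => exp (-a * s) * ext v s)
      (fun _ => 0) hx (L4_cont a v).continuousOn fun s hs => by
        have h1 : HasDerivAt (fun s : ℝ => exp (-a * s)) (exp (-a * s) * -a) s := by
          simpa using ((hasDerivAt_id s).const_mul (-a)).exp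
        exact (h1.mul (hv s hs.1)).congr_deriv (by ring)
    have e : ext v 0 = v 0 := ext_coe v 0
    rw [eq_div_iff (by linarith), mul_zero, exp_zero, e] at hy
    linarith
  have h0 : v 0 = 0 := by
    rcases h with ha | h
    · have ht : Tendsto (fun x : ℝ => exp (-a * x) * ‖v‖) atTop (𝓝 (0 * ‖v‖)) :=
        (tendsto_exp_atBot.comp
          (Tendsto.const_mul_atTop_of_neg (by linarith) tendsto_id)).mul_const _
      rw [zero_mul] at ht
      have : |v 0| ≤ 0 := by
        refine ge_of_tendsto ht ?_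
        filter_upwards [eventually_gt_atTop 0] with x hx
        rw [← hw x hx, abs_mul, abs_of_pos (exp_pos _)]
        exact mul_le_mul_of_nonneg_left (L4_abs v x) (exp_pos _).le
      exact abs_nonpos_iff.1 this
    · exact h
  ext x
  rcases eq_or_lt_of_le (show 0 ≤ x from x.2) with hx | hx
  · rw [← hx]; exact h0
  · have := hw x hx
    rw [h0, ext_coe] at this
    exact (mul_eq_zero.1 this).resolve_left (exp_pos _).ne'

theorem L4_chain {Z : ℕ → Y0 →L[ℝ] Y0} (h : ∀ n, ‖Z n‖ ≤ 5) (n : ℕ) : ‖chainOf Z n‖ ≤ 5 ^ n := by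
  induction n with
  | zero => rw [pow_zero]; exact ContinuousLinearMap.norm_id_le
  | succ n ih =>
    rw [pow_succ]
    exact (ContinuousLinearMap.opNorm_comp_le (chainOf Z n) (Z (n + 1))).trans
      (mul_le_mul ih (h _) (ContinuousLinearMap.opNorm_nonneg _) (by positivity))

namespace HRes

variable (H : HRes)

theorem resolvent {a b : ℝ} (ha : a ≠ 0) (hb : b < 0) :
    H.R a * (1 + (b - a) • H.R b) = H.R b := by
  refine ContinuousLinearMap.ext fun c => ?_
  have e : (H.R a * (1 + (b - a) • H.R b)) c = H.R a (c + (b - a) • H.R b c) := rfl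
  rw [e, ← sub_eq_zero]
  refine half_unique a _ (fun x hx => ?_) ?_
  · have h1 := (H.deriv a ha (c + (b - a) • H.R b c) x hx).sub (H.deriv b hb.ne c x hx)
    rw [map_sub]
    refine HasDerivAt.congr_deriv (f := ext (H.R a (c + (b - a) • H.R b c)) - ext (H.R b c))
      h1 ?_
    rw [ext.map_add c, ext.map_smul]
    simp only [BoundedContinuousFunction.add_apply, BoundedContinuousFunction.smul_apply,
      BoundedContinuousFunction.sub_apply, smul_eq_mul]
    ring
  · rcases lt_or_gt_of_ne ha with h | h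
    · right
      rw [BoundedContinuousFunction.sub_apply, H.zero a h, H.zero b hb, sub_zero]
    · exact Or.inl h

theorem R_comm {a b : ℝ} (ha : a < 0) (hb : b < 0) : H.R a * H.R b = H.R b * H.R a := by
  rcases eq_or_ne a b with rfl | hab
  · rfl
  ext c x
  have h1 : H.R a (c + (b - a) • H.R b c) x = H.R b c x :=
    congrArg (fun T : Y0 →L[ℝ] Y0 => T c x) (H.resolvent ha.ne hb)
  have h2 : H.R b (c + (a - b) • H.R a c) x = H.R a c x :=
    congrArg (fun T : Y0 →L[ℝ] Y0 => T c x) (H.resolvent hb.ne ha)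
  rw [map_add, map_smul, BoundedContinuousFunction.add_apply,
    BoundedContinuousFunction.smul_apply, smul_eq_mul] at h1 h2
  change H.R a (H.R b c) x = H.R b (H.R a c) x
  exact mul_left_cancel₀ (sub_ne_zero.2 hab.symm) (by linarith)

theorem L4_step {a t : ℝ} (ha : a ≠ 0) (h : |t| ≤ 4 * |a|) : ‖1 + t • H.R a‖ ≤ 5 := by
  have h0 : 0 < |a| := abs_pos.2 ha
  have h1 : ‖(1 : Y0 →L[ℝ] Y0)‖ ≤ 1 := ContinuousLinearMap.norm_id_le
  have h2 : ‖t • H.R a‖ ≤ 4 := by
    refine (ContinuousLinearMap.opNorm_smul_le t (H.R a)).trans ?_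
    rw [Real.norm_eq_abs]
    calc |t| * ‖H.R a‖ ≤ 4 * |a| * (1 / |a|) :=
          mul_le_mul h (H.norm a ha) (ContinuousLinearMap.opNorm_nonneg _) (by positivity)
      _ = 4 := by field_simp
  linarith [ContinuousLinearMap.opNorm_add_le (1 : Y0 →L[ℝ] Y0) (t • H.R a)]

theorem norm_CR (j n : ℕ) : ‖H.CR j n‖ ≤ 5 ^ n := by
  refine L4_chain (fun n => ?_) n
  have hg : gam = 1 / 100 := rfl
  rcases (by unfold mm; omega : 2 * n + 1 ≤ mm j ∨ mm j + 1 ≤ 2 * n) with h | h
  · have h' : 2 * (n : ℝ) + 1 ≤ mm j := by exact_mod_cast h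
    refine H.L4_step (by linarith : (0 : ℝ) < mm j - 2 * n + gam).ne' ?_
    rw [abs_of_nonneg (by linarith), abs_of_nonneg (by linarith)]
    linarith
  · have h' : (mm j : ℝ) + 1 ≤ 2 * n := by exact_mod_cast h
    refine H.L4_step (by linarith : (mm j : ℝ) - 2 * n + gam < 0).ne ?_
    rw [abs_of_nonpos (by linarith), abs_of_nonpos (by linarith)]
    linarith

theorem norm_CL (j n : ℕ) : ‖H.CL j n‖ ≤ 5 ^ n := by
  refine L4_chain (fun n => ?_) n
  have hg : gam = 1 / 100 := rfl
  have h1 := one_le_mm j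
  have h2 : (0 : ℝ) ≤ n := n.cast_nonneg
  refine H.L4_step (by linarith : -((mm j : ℝ) + 2 * n - gam) < 0).ne ?_
  rw [abs_of_nonpos (by linarith), abs_of_nonpos (by linarith)]
  linarith

end HRes

end Pool.Agent.PS
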