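import Pool.Agent.P.MP_6c3c64_gt.Defs

/-! Row L8a. Comparison of a chain on the line with its constant coefficient model on the
half-line. Stability lemma `ode_stab`: multiply by `exp (-a s)` and integrate from `x` to infinity
(`a > 0`) or from `X` to `x` (`a < 0`). It shows that `H.R a` maps `AN` families to `AN` families,
and that `res ∘ R i - H.R (al i) ∘ res` is `AN` (the difference `d` solves
`d' = al d + (a - al) v`). Induction: `res ch (n + 1) - C (n + 1) res
 = (res ch n - C n res) Z + C n (res Z - Zc res)`. For `LEC`: `R i c` and `ext (H.R a y)` are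
Lipschitz with constant `O(‖c‖)`, multiplication by a fixed continuous function preserves `LEC`,
and `ch (n + 1) - 1 = (ch n - 1) Z + (Z - 1)`.
-/

set_option autoImplicit false

open Real BoundedContinuousFunction MeasureTheory Set Filter Topology
open scoped NNReal ENNReal

noncomputable section

namespace Pool.Agent.PS

variable {V V' V'' : Type} [NormedAddCommGroup V] [NormedSpace ℝ V] [NormedAddCommGroup V']
  [NormedSpace ℝ V'] [NormedAddCommGroup V''] [NormedSpace ℝ V'']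


theorem L8a_mono {h h' : ℝ → ℝ} {X : ℝ} (hd : ∀ s, X ≤ s → HasDerivAt h (h' s) s)
    (h0 : ∀ s, X ≤ s → 0 ≤ h' s) : MonotoneOn h (Ici X) :=
  monotoneOn_of_deriv_nonneg (convex_Ici X) (fun s hs => (hd s hs).continuousAt.continuousWithinAt)
    (fun s hs => (hd s (interior_subset hs)).differentiableAt.differentiableWithinAt)
    (fun s hs => by rw [(hd s (interior_subset hs)).deriv]; exact h0 s (interior_subset hs))

theorem L8a_up {a M η X : ℝ} (ha : a ≠ 0) (d f : ℝ → ℝ)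
    (hd : ∀ s, X ≤ s → HasDerivAt d (a * d s + f s) s) (hM : ∀ s, X ≤ s → |d s| ≤ M)
    (hf : ∀ s, X ≤ s → |f s| ≤ η) (x : ℝ) (hx : X ≤ x) :
    d x ≤ η / |a| + M * exp (-(|a| * (x - X))) := by
  have hη : 0 ≤ η := (abs_nonneg _).trans (hf X le_rfl)
  have hM0 : 0 ≤ M := (abs_nonneg _).trans (hM X le_rfl)
  have he : ∀ s, HasDerivAt (fun s => exp (-a * s)) (exp (-a * s) * -a) s := fun s => by
    simpa using ((hasDerivAt_id s).const_mul (-a)).exp
  rcases lt_or_gt_of_ne ha with h | h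
  · have hm := L8a_mono (h := fun s => exp (-a * s) * (η / -a - d s))
      (h' := fun s => exp (-a * s) * (η - f s)) (X := X)
      (fun s hs => ((he s).mul ((hd s hs).const_sub (η / -a))).congr_deriv (by
        field_simp; ring))
      (fun s hs => mul_nonneg (exp_pos _).le (by linarith [(abs_le.1 (hf s hs)).2]))
    have h1 : exp (-a * X) * (η / -a - d X) ≤ exp (-a * x) * (η / -a - d x) :=
      hm (mem_Ici.2 le_rfl) hx hx
    have h2 : 0 ≤ η / -a := div_nonneg hη (by linarith)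
    have h3 : exp (-a * X) = exp (-a * x) * exp (-(-a * (x - X))) := by
      rw [← exp_add]; congr 1; ring
    have h4 : exp (-(-a * (x - X))) * (η / -a - d X) ≤ η / -a - d x := by
      rw [h3, mul_assoc] at h1
      exact le_of_mul_le_mul_left h1 (exp_pos _)
    rw [abs_of_neg h]
    have h5 := (abs_le.1 (hM X le_rfl)).2
    have h6 := exp_pos (-(-a * (x - X)))
    nlinarith
  · have hm := L8a_mono (h := fun s => exp (-a * s) * (d s - η / a))
      (h' := fun s => exp (-a * s) * (η + f s)) (X := X)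
      (fun s hs => ((he s).mul ((hd s hs).sub_const (η / a))).congr_deriv (by
        field_simp; ring))
      (fun s hs => mul_nonneg (exp_pos _).le (by linarith [(abs_le.1 (hf s hs)).1]))
    have h2 : 0 ≤ η / a := div_nonneg hη h.le
    have h1 : Tendsto (fun y : ℝ => exp (-a * y) * M) atTop (𝓝 (0 * M)) :=
      (tendsto_exp_atBot.comp (tendsto_id.const_mul_atTop_of_neg (by linarith))).mul_const M
    have h3 : exp (-a * x) * (d x - η / a) ≤ 0 * M := by
      refine ge_of_tendsto h1 ?_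
      filter_upwards [eventually_ge_atTop x] with y hy
      refine (hm hx (hx.trans hy) hy).trans (mul_le_mul_of_nonneg_left ?_ (exp_pos _).le)
      linarith [(abs_le.1 (hM y (hx.trans hy))).2]
    rw [zero_mul] at h3
    have h4 : d x - η / a ≤ 0 := by
      by_contra hn
      exact absurd h3 (not_le.2 (mul_pos (exp_pos _) (not_le.1 hn)))
    rw [abs_of_pos h]
    have h6 := mul_nonneg hM0 (exp_pos (-(a * (x - X)))).le
    linarith

theorem ode_stab {a M η X : ℝ} (ha : a ≠ 0) (d f : ℝ → ℝ)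
    (hd : ∀ s, X ≤ s → HasDerivAt d (a * d s + f s) s) (hM : ∀ s, X ≤ s → |d s| ≤ M)
    (hf : ∀ s, X ≤ s → |f s| ≤ η) (x : ℝ) (hx : X ≤ x) :
    |d x| ≤ η / |a| + M * exp (-(|a| * (x - X))) := by
  have h1 := L8a_up ha d f hd hM hf x hx
  have h2 := L8a_up ha (fun s => -d s) (fun s => -f s)
    (fun s hs => (hd s hs).neg.congr_deriv (by ring)) (fun s hs => by rw [abs_neg]; exact hM s hs)
    (fun s hs => by rw [abs_neg]; exact hf s hs) x hx
  exact abs_le.2 ⟨by linarith, h1⟩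

theorem L8a_div {η K : ℝ} (hη : 0 < η) (hK : 0 ≤ K) : η / (K + 1) * K ≤ η := by
  rw [div_mul_eq_mul_div, div_le_iff₀ (by positivity)]
  nlinarith

theorem AN.add {S T : V →L[ℝ] Y0} (hS : AN S) (hT : AN T) : AN (S + T) := by
  intro η hη
  obtain ⟨X, hX⟩ := hS (η / 2) (by positivity)
  obtain ⟨X', hX'⟩ := hT (η / 2) (by positivity)
  refine ⟨max X X', fun v x hx => ?_⟩
  have h1 := hX v x ((le_max_left _ _).trans hx)
  have h2 := hX' v x ((le_max_right _ _).trans hx)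
  have h3 : |(S + T) v x| ≤ |S v x| + |T v x| := abs_add_le _ _
  linarith
theorem AN.smul {S : V →L[ℝ] Y0} (hS : AN S) (c : ℝ) : AN (c • S) := by
  intro η hη
  obtain ⟨X, hX⟩ := hS (η / (|c| + 1)) (by positivity)
  refine ⟨X, fun v x hx => ?_⟩
  have h1 := hX v x hx
  have h2 : |(c • S) v x| = |c| * |S v x| := abs_mul _ _
  have h3 := L8a_div hη (abs_nonneg c)
  rw [h2]
  calc |c| * |S v x| ≤ |c| * (η / (|c| + 1) * ‖v‖) := by gcongr
    _ = η / (|c| + 1) * |c| * ‖v‖ := by ring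
    _ ≤ η * ‖v‖ := by gcongr
theorem AN.comp_right {S : V' →L[ℝ] Y0} (hS : AN S) (A : V →L[ℝ] V') : AN (S ∘L A) := by
  intro η hη
  obtain ⟨X, hX⟩ := hS (η / (‖A‖ + 1)) (by positivity)
  refine ⟨X, fun v x hx => (hX (A v) x hx).trans ?_⟩
  have h3 := L8a_div hη (norm_nonneg A)
  calc η / (‖A‖ + 1) * ‖A v‖ ≤ η / (‖A‖ + 1) * (‖A‖ * ‖v‖) := by
        gcongr; exact A.le_opNorm v
    _ = η / (‖A‖ + 1) * ‖A‖ * ‖v‖ := by ring
    _ ≤ η * ‖v‖ := by gcongr
theorem AN.mulY_left {S : V →L[ℝ] Y0} (hS : AN S) (a : Y0) : AN (mulY a ∘L S) := by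
  intro η hη
  obtain ⟨X, hX⟩ := hS (η / (‖a‖ + 1)) (by positivity)
  refine ⟨X, fun v x hx => ?_⟩
  have h1 := hX v x hx
  have h2 : |(mulY a ∘L S) v x| = |a x| * |S v x| := abs_mul _ _
  have h3 := L8a_div hη (norm_nonneg a)
  have h4 : |a x| ≤ ‖a‖ := a.norm_coe_le_norm x
  rw [h2]
  calc |a x| * |S v x| ≤ ‖a‖ * (η / (‖a‖ + 1) * ‖v‖) := by gcongr
    _ = η / (‖a‖ + 1) * ‖a‖ * ‖v‖ := by ring
    _ ≤ η * ‖v‖ := by gcongr
theorem AN_mulY (a : Y0) (ha : Tendsto (ext a) atTop (𝓝 0)) : AN (mulY a) := by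
  intro η hη
  obtain ⟨X, hX⟩ := eventually_atTop.1 (Metric.tendsto_nhds.1 ha η hη)
  refine ⟨X, fun v x hx => ?_⟩
  have h1 := hX x hx
  rw [Real.dist_0_eq_abs, ext_coe] at h1
  have h2 : |mulY a v x| = |a x| * |v x| := abs_mul _ _
  have h4 : |v x| ≤ ‖v‖ := v.norm_coe_le_norm x
  rw [h2]
  gcongr
theorem LEC.add {S T : V →L[ℝ] E0} (hS : LEC S) (hT : LEC T) : LEC (S + T) := by
  intro X η hη
  obtain ⟨δ, hδ, h⟩ := hS X (η / 2) (by positivity)
  obtain ⟨δ', hδ', h'⟩ := hT X (η / 2) (by positivity)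
  refine ⟨min δ δ', lt_min hδ hδ', fun v x x' hx hx' hd => ?_⟩
  have h1 := h v x x' hx hx' (hd.trans (min_le_left _ _))
  have h2 := h' v x x' hx hx' (hd.trans (min_le_right _ _))
  have e : (S + T) v x - (S + T) v x' = (S v x - S v x') + (T v x - T v x') := by
    change S v x + T v x - (S v x' + T v x') = _
    ring
  have h3 := abs_add_le (S v x - S v x') (T v x - T v x')
  rw [e]
  linarith
theorem LEC.smul {S : V →L[ℝ] E0} (hS : LEC S) (c : ℝ) : LEC (c • S) := by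
  intro X η hη
  obtain ⟨δ, hδ, h⟩ := hS X (η / (|c| + 1)) (by positivity)
  refine ⟨δ, hδ, fun v x x' hx hx' hd => ?_⟩
  have h1 := h v x x' hx hx' hd
  have e : (c • S) v x - (c • S) v x' = c * (S v x - S v x') := by
    change c * S v x - c * S v x' = _
    ring
  have h3 := L8a_div hη (abs_nonneg c)
  rw [e, abs_mul]
  calc |c| * |S v x - S v x'| ≤ |c| * (η / (|c| + 1) * ‖v‖) := by gcongr
    _ = η / (|c| + 1) * |c| * ‖v‖ := by ring
    _ ≤ η * ‖v‖ := by gcongr
theorem LEC.comp_right {S : V' →L[ℝ] E0} (hS : LEC S) (A : V →L[ℝ] V') : LEC (S ∘L A) := by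
  intro X η hη
  obtain ⟨δ, hδ, h⟩ := hS X (η / (‖A‖ + 1)) (by positivity)
  refine ⟨δ, hδ, fun v x x' hx hx' hd => (h (A v) x x' hx hx' hd).trans ?_⟩
  have h3 := L8a_div hη (norm_nonneg A)
  calc η / (‖A‖ + 1) * ‖A v‖ ≤ η / (‖A‖ + 1) * (‖A‖ * ‖v‖) := by
        gcongr; exact A.le_opNorm v
    _ = η / (‖A‖ + 1) * ‖A‖ * ‖v‖ := by ring
    _ ≤ η * ‖v‖ := by gcongr
theorem LEC.mulL_left {S : V →L[ℝ] E0} (hS : LEC S) (a : E0) : LEC (mulL a ∘L S) := by
  intro X η hη
  obtain ⟨δ, hδ, h⟩ := hS X (η / 2 / (‖a‖ + 1)) (by positivity)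
  obtain ⟨δ', hδ', h'⟩ := Metric.uniformContinuousOn_iff_le.1
    ((isCompact_Icc (a := -X) (b := X)).uniformContinuousOn_of_continuous
      a.continuous.continuousOn) (η / 2 / (‖S‖ + 1)) (by positivity)
  refine ⟨min δ δ', lt_min hδ hδ', fun v x x' hx hx' hd => ?_⟩
  have h1 := h v x x' hx hx' (hd.trans (min_le_left _ _))
  have h2 : |a x - a x'| ≤ η / 2 / (‖S‖ + 1) :=
    h' x (abs_le.1 hx) x' (abs_le.1 hx') (hd.trans (min_le_right _ _))
  have e : (mulL a ∘L S) v x - (mulL a ∘L S) v x' =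
      a x * (S v x - S v x') + (a x - a x') * S v x' := by
    change a x * S v x - a x' * S v x' = _
    ring
  have h3 := L8a_div (half_pos hη) (norm_nonneg a)
  have h4 := L8a_div (half_pos hη) (norm_nonneg S)
  have h5 := abs_le_norm a x
  have h6 : |S v x'| ≤ ‖S‖ * ‖v‖ := (abs_le_norm _ _).trans (S.le_opNorm v)
  rw [e]
  calc _ ≤ |a x| * |S v x - S v x'| + |a x - a x'| * |S v x'| := by
        rw [← abs_mul, ← abs_mul]; exact abs_add_le _ _
    _ ≤ ‖a‖ * (η / 2 / (‖a‖ + 1) * ‖v‖) + η / 2 / (‖S‖ + 1) * (‖S‖ * ‖v‖) := by gcongr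
    _ = η / 2 / (‖a‖ + 1) * ‖a‖ * ‖v‖ + η / 2 / (‖S‖ + 1) * ‖S‖ * ‖v‖ := by ring
    _ ≤ η / 2 * ‖v‖ + η / 2 * ‖v‖ := by gcongr
    _ = η * ‖v‖ := by ring
theorem LEC.ext_res {S : V →L[ℝ] E0} (hS : LEC S) : LEC (ext ∘L res ∘L S) := by
  intro X η hη
  obtain ⟨δ, hδ, h⟩ := hS X η hη
  refine ⟨δ, hδ, fun v x x' hx hx' hd => ?_⟩
  exact h v |x| |x'| (by rwa [abs_abs]) (by rwa [abs_abs])
    ((abs_abs_sub_abs_le_abs_sub x x').trans hd)

theorem L8a_lip {g g' : ℝ → ℝ} {X L : ℝ} (hc : Continuous g)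
    (hd : ∀ x, X < x → HasDerivAt g (g' x) x) (hb : ∀ x, X < x → |g' x| ≤ L) (x y : ℝ)
    (hx : X ≤ x) (hy : X ≤ y) : |g x - g y| ≤ L * |x - y| := by
  have hi : ∀ z ∈ interior (Ici X), X < z := fun z hz => by rwa [interior_Ici] at hz
  have hdi : DifferentiableOn ℝ g (interior (Ici X)) := fun z hz =>
    (hd z (hi z hz)).differentiableAt.differentiableWithinAt
  have key : ∀ x y, X ≤ x → X ≤ y → x ≤ y → |g y - g x| ≤ L * (y - x) := by
    intro x y hx hy hxy
    have h1 := (convex_Ici X).image_sub_le_mul_sub_of_deriv_le hc.continuousOn hdi (C := L)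
      (fun z hz => by rw [(hd z (hi z hz)).deriv]; exact (abs_le.1 (hb z (hi z hz))).2)
      x hx y hy hxy
    have h2 := (convex_Ici X).mul_sub_le_image_sub_of_le_deriv hc.continuousOn hdi (C := -L)
      (fun z hz => by rw [(hd z (hi z hz)).deriv]; exact (abs_le.1 (hb z (hi z hz))).1)
      x hx y hy hxy
    exact abs_le.2 ⟨by linarith, h1⟩
  rcases le_total x y with h | h
  · rw [abs_sub_comm (g x), abs_sub_comm x, abs_of_nonneg (sub_nonneg.2 h)]
    exact key x y hx hy h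
  · rw [abs_of_nonneg (sub_nonneg.2 h)]
    exact key y x hy hx h

theorem L8a_lec_of_lip {T : V →L[ℝ] E0} {L : ℝ} (hL : 0 ≤ L)
    (h : ∀ v x x', |T v x - T v x'| ≤ L * ‖v‖ * |x - x'|) : LEC T := by
  intro X η hη
  refine ⟨η / (L + 1), by positivity, fun v x x' _ _ hd => (h v x x').trans ?_⟩
  have h3 := L8a_div hη hL
  calc L * ‖v‖ * |x - x'| ≤ L * ‖v‖ * (η / (L + 1)) := by gcongr
    _ = η / (L + 1) * L * ‖v‖ := by ring
    _ ≤ η * ‖v‖ := by gcongr

theorem L8a_res_lec {a : E0} {R : E0 →L[ℝ] E0} (h : IsRes a R) : LEC R := by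
  refine L8a_lec_of_lip (L := ‖a‖ * ‖R‖ + 1) (by positivity) fun v x x' => ?_
  refine L8a_lip (X := min x x') (R v).continuous (fun z _ => h v z) (fun z _ => ?_) x x'
    (min_le_left _ _) (min_le_right _ _)
  have h1 := abs_le_norm a z
  have h2 : |R v z| ≤ ‖R‖ * ‖v‖ := (abs_le_norm _ _).trans (R.le_opNorm v)
  have h3 := abs_le_norm v z
  calc _ ≤ |a z| * |R v z| + |v z| := by rw [← abs_mul]; exact abs_add_le _ _
    _ ≤ ‖a‖ * (‖R‖ * ‖v‖) + ‖v‖ := by gcongr
    _ = _ := by ring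

theorem HRes.lec (H : HRes) {a : ℝ} (ha : a ≠ 0) : LEC (ext ∘L H.R a) := by
  refine L8a_lec_of_lip (L := |a| * ‖H.R a‖ + 1) (by positivity) fun v x x' => ?_
  have h := L8a_lip (X := 0) (L := (|a| * ‖H.R a‖ + 1) * ‖v‖) (ext (H.R a v)).continuous
    (fun z hz => H.deriv a ha v z hz) (fun z _ => by
      have h2 : |ext (H.R a v) z| ≤ ‖H.R a‖ * ‖v‖ :=
        ((H.R a v).norm_coe_le_norm _).trans ((H.R a).le_opNorm v)
      have h3 : |ext v z| ≤ ‖v‖ := v.norm_coe_le_norm _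
      calc _ ≤ |a| * |ext (H.R a v) z| + |ext v z| := by rw [← abs_mul]; exact abs_add_le _ _
        _ ≤ |a| * (‖H.R a‖ * ‖v‖) + ‖v‖ := by gcongr
        _ = _ := by ring) |x| |x'| (abs_nonneg _) (abs_nonneg _)
  have e : ∀ z : ℝ, ext (H.R a v) |z| = ext (H.R a v) z := fun z => by simp
  rw [e, e] at h
  refine h.trans (mul_le_mul_of_nonneg_left (abs_abs_sub_abs_le_abs_sub x x') (by positivity))

theorem L8a_AN_of_ode {a : ℝ} (ha : a ≠ 0) (D F : V →L[ℝ] Y0) (hF : AN F)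
    (hd : ∀ v, ∃ d : ℝ → ℝ, (∀ x, 0 < x → d x = ext (D v) x) ∧
      ∀ x, 0 < x → HasDerivAt d (a * d x + ext (F v) x) x) : AN D := by
  intro η hη
  have ha' : 0 < |a| := abs_pos.2 ha
  obtain ⟨X0, hX0⟩ := hF (η / 2 * |a|) (by positivity)
  have h1 : Tendsto (fun x : ℝ => ‖D‖ * exp (-(|a| * (x - max X0 1)))) atTop (𝓝 (‖D‖ * 0)) :=
    (tendsto_exp_neg_atTop_nhds_zero.comp
      ((tendsto_atTop_add_const_right _ (-max X0 1) tendsto_id).const_mul_atTop ha')).const_mul _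
  rw [mul_zero] at h1
  obtain ⟨X, hX⟩ := eventually_atTop.1 (h1.eventually (ge_mem_nhds (half_pos hη)))
  refine ⟨max X (max X0 1), fun v x hx => ?_⟩
  obtain ⟨d, hd1, hd2⟩ := hd v
  have hpos : ∀ s, max X0 1 ≤ s → 0 < s := fun s hs =>
    lt_of_lt_of_le one_pos ((le_max_right _ _).trans hs)
  have h2 := ode_stab (M := ‖D‖ * ‖v‖) (η := η / 2 * |a| * ‖v‖) (X := max X0 1) ha d
    (fun s => ext (F v) s) (fun s hs => hd2 s (hpos s hs))
    (fun s hs => by
      rw [hd1 s (hpos s hs)]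
      exact ((D v).norm_coe_le_norm _).trans (D.le_opNorm v))
    (fun s hs => hX0 v _ (((le_max_left _ _).trans hs).trans (le_abs_self s)))
    x ((le_max_right _ _).trans hx)
  rw [hd1 x (hpos x ((le_max_right _ _).trans hx)), ext_coe] at h2
  have h3 := mul_le_mul_of_nonneg_right (hX x ((le_max_left _ _).trans hx)) (norm_nonneg v)
  have h4 : η / 2 * |a| * ‖v‖ / |a| = η / 2 * ‖v‖ := by field_simp
  rw [h4] at h2
  linarith

theorem L8a_ring {A : Type} [Ring A] (c z : A) : (c - 1) * (1 + z) + z = c * (1 + z) - 1 := by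
  noncomm_ring

theorem L8a_chainC (H : HRes) (al bl : ℕ → ℝ) (h0 : ∀ i, 1 ≤ i → al i ≠ 0) (n : ℕ) :
    ∀ T : V →L[ℝ] Y0, AN T →
      AN (chainOf (fun i => (1 + bl i • H.R (al i) : Y0 →L[ℝ] Y0)) n ∘L T) := by
  induction n with
  | zero => exact fun T hT => hT
  | succ n ih =>
    intro T hT
    have h1 : AN (H.R (al (n + 1)) ∘L T) :=
      L8a_AN_of_ode (h0 _ (by omega)) _ T hT fun v =>
        ⟨ext (H.R (al (n + 1)) (T v)), fun _ _ => rfl, H.deriv _ (h0 _ (by omega)) _⟩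
    exact ih _ (hT.add (h1.smul (bl (n + 1))))

theorem L8a_AN_sub {a : E0} {al : ℝ} (ha : Tendsto a atTop (𝓝 al)) :
    AN (mulY (res a - al • 1)) := by
  refine AN_mulY _ ?_
  have h := ha.sub_const al
  rw [sub_self] at h
  refine h.congr' ?_
  filter_upwards [eventually_ge_atTop (0 : ℝ)] with x hx
  change _ = a |x| - al * 1
  rw [abs_of_nonneg hx, mul_one]

theorem L8a_step (H : HRes) {a b : E0} {R : E0 →L[ℝ] E0} {al bl : ℝ} (hR : IsRes a R)
    (ha : Tendsto a atTop (𝓝 al)) (hb : Tendsto b atTop (𝓝 bl)) (h0 : al ≠ 0) :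
    AN (res ∘L (1 + mulL b * R) - (1 + bl • H.R al : Y0 →L[ℝ] Y0) ∘L res) := by
  have h1 : AN (res ∘L R - H.R al ∘L res) := by
    refine L8a_AN_of_ode h0 _ _ ((L8a_AN_sub ha).comp_right (res ∘L R)) fun c =>
      ⟨fun x => R c x - ext (H.R al (res c)) x, fun x hx => ?_, fun x hx => ?_⟩
    · change _ = R c |x| - ext (H.R al (res c)) x
      rw [abs_of_pos hx]
    · refine ((hR c x).sub (H.deriv al h0 (res c) x hx)).congr_deriv ?_
      change a x * R c x + c x - (al * ext (H.R al (res c)) x + c |x|) =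
        al * (R c x - ext (H.R al (res c)) x) + (a |x| - al * 1) * R c |x|
      rw [abs_of_pos hx]
      ring
  have h2 := ((L8a_AN_sub hb).comp_right (res ∘L R)).add (h1.smul bl)
  have e : res ∘L (1 + mulL b * R) - (1 + bl • H.R al : Y0 →L[ℝ] Y0) ∘L res =
      mulY (res b - bl • 1) ∘L (res ∘L R) + bl • (res ∘L R - H.R al ∘L res) := by
    ext c x
    simp
    ring
  rw [e]; exact h2

theorem chain_compare (H : HRes) (a b : ℕ → E0) (R : ℕ → E0 →L[ℝ] E0) (al bl : ℕ → ℝ)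
    (hR : ∀ i, 1 ≤ i → IsRes (a i) (R i)) (ha : ∀ i, 1 ≤ i → Tendsto (a i) atTop (𝓝 (al i)))
    (hb : ∀ i, 1 ≤ i → Tendsto (b i) atTop (𝓝 (bl i))) (h0 : ∀ i, 1 ≤ i → al i ≠ 0) (n : ℕ) :
    AN (res ∘L chainOf (fun i => 1 + mulL (b i) * R i) n -
      chainOf (fun i => (1 + bl i • H.R (al i) : Y0 →L[ℝ] Y0)) n ∘L res) ∧
    LEC (chainOf (fun i => 1 + mulL (b i) * R i) n - 1) ∧
    LEC (ext ∘L (chainOf (fun i => (1 + bl i • H.R (al i) : Y0 →L[ℝ] Y0)) n - 1)) ∧
    ∀ T : V →L[ℝ] Y0, AN T →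
      AN (chainOf (fun i => (1 + bl i • H.R (al i) : Y0 →L[ℝ] Y0)) n ∘L T) := by
  refine ⟨?_, ?_, ?_, L8a_chainC H al bl h0 n⟩
  · induction n with
    | zero =>
      intro η hη
      refine ⟨0, fun v x _ => ?_⟩
      simp only [chainOf]
      simp
      positivity
    | succ n ih =>
      have h1 := L8a_step H (hR (n + 1) (by omega)) (ha (n + 1) (by omega))
        (hb (n + 1) (by omega)) (h0 (n + 1) (by omega))
      have h2 := (ih.comp_right (1 + mulL (b (n + 1)) * R (n + 1))).add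
        (L8a_chainC H al bl h0 n _ h1)
      refine (congrArg AN ?_).mp h2
      simp only [chainOf, ContinuousLinearMap.mul_def (chainOf _ _),
        ContinuousLinearMap.sub_comp, ContinuousLinearMap.comp_sub,
        ContinuousLinearMap.comp_assoc]
      abel
  · induction n with
    | zero =>
      intro X η hη
      refine ⟨1, one_pos, fun v x x' _ _ _ => ?_⟩
      simp only [chainOf]
      simp
      positivity
    | succ n ih =>
      have h2 := (ih.comp_right (1 + mulL (b (n + 1)) * R (n + 1))).add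
        ((L8a_res_lec (hR (n + 1) (by omega))).mulL_left (b (n + 1)))
      refine (congrArg LEC ?_).mp h2
      exact L8a_ring _ _
  · induction n with
    | zero =>
      intro X η hη
      refine ⟨1, one_pos, fun v x x' _ _ _ => ?_⟩
      simp only [chainOf]
      simp
      positivity
    | succ n ih =>
      have h2 := (ih.comp_right (1 + bl (n + 1) • H.R (al (n + 1)) : Y0 →L[ℝ] Y0)).add
        ((H.lec (h0 (n + 1) (by omega))).smul (bl (n + 1)))
      refine (congrArg LEC ?_).mp h2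
      rw [ContinuousLinearMap.comp_assoc, ← ContinuousLinearMap.comp_smul,
        ← ContinuousLinearMap.comp_add]
      exact congrArg (fun T => ext ∘L T) (L8a_ring _ _)

end Pool.Agent.PS
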