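import Pool.Agent.P.MP_6c3c64_gt.A1
import Pool.Agent.P.MP_6c3c64_gt.L4
import Pool.Agent.P.MP_6c3c64_gt.L8a

/-! Row L10a. The parametrisation of the mode `m = 3`. Let `w = H.ww y`, so `w 0 = 0` and
`w' = (gam - 1 / 7) w + u` on `(0, ∞)` with `u = (50 / 81) • (1 + (5 / 3) • R (gam - 10 / 3)) y`,
and `UU y = u - (8 / 7) • w`. Put
`F2 y = ext (UU y) + (1 + gam) • ((1 - |tanh|) * ext w)` (even) and
`Fx x = cosh x * ∫ s in 0..x, sech s * eps s * F2 y s`, or directly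
`F1 y x = ext w x` for `x ≥ 0`, `-ext w x` for `x ≤ 0` (continuous since `w 0 = 0`; the derivative
of `eps * F1 y` at `0` by `hasDerivAt_of_hasDerivAt_of_ne`), `F = primL ∘ F1`.
`F2 - ext ∘ UU` is approximable (`approx_of_LEC`: `LEC` by `HRes.lec`, decay since
`1 - |tanh| → 0`), and `F` is approximable by `IsJet.approx`. Injectivity: `F y 0 = 0` gives
`ξ = 0`; `F y = 0` gives `F1 y = 0`, `w = 0`, `F2 y = 0`, hence `UU y = 0`.
-/

set_option autoImplicit false

open Real BoundedContinuousFunction MeasureTheory Set Filter Topology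
open scoped NNReal ENNReal

noncomputable section

namespace Pool.Agent.PS

/-- odd extension -/
def L10a_odd : Y0 →L[ℝ] E0 :=
  compContinuousCLM ℝ ℝ ⟨fun x : ℝ => x.toNNReal, continuous_real_toNNReal⟩ -
    compContinuousCLM ℝ ℝ ⟨fun x : ℝ => (-x).toNNReal, continuous_real_toNNReal.comp continuous_neg⟩

theorem L10a_odd_apply (w : Y0) (x : ℝ) :
    L10a_odd w x = w x.toNNReal - w (-x).toNNReal := rfl

theorem L10a_odd_neg (w : Y0) (x : ℝ) : L10a_odd w (-x) = -L10a_odd w x := by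
  rw [L10a_odd_apply, L10a_odd_apply, neg_neg]; ring

theorem L10a_odd_nonneg (w : Y0) (hw : w 0 = 0) {x : ℝ} (hx : 0 ≤ x) :
    L10a_odd w x = ext w x := by
  have h1 : (-x).toNNReal = 0 := Real.toNNReal_of_nonpos (by linarith)
  have h2 : x.toNNReal = ⟨|x|, abs_nonneg x⟩ :=
    NNReal.eq (by rw [Real.coe_toNNReal x hx]; exact (abs_of_nonneg hx).symm)
  rw [L10a_odd_apply, h1, hw, h2, ext_apply, sub_zero]

/-- `1 - |tanh|` -/
def L10a_k : E0 := mkB (fun x => 1 - |tanh x|) (continuous_const.sub continuous_tanh'.abs) 1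
  fun x => by
    have h1 := abs_tanh_le_one x
    have h2 := abs_nonneg (tanh x)
    rw [abs_le]; constructor <;> linarith

theorem L10a_k_apply (x : ℝ) : L10a_k x = 1 - |tanh x| := rfl

theorem L10a_k_le (x : ℝ) : |L10a_k x| ≤ 2 * exp (-(gam * |x|)) := by
  have h1 := abs_tanh_le_one x
  have h2 := abs_nonneg (tanh x)
  have h3 := tanh_sq_add_sech_sq x
  have h4 := sq_abs (tanh x)
  have h5 := sech_pos x
  have h6 := sech_le_one x
  have h7 := sech_le_eps x
  have h8 := eps_le_exp x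
  rw [L10a_k_apply, abs_of_nonneg (by linarith)]
  nlinarith

theorem L10a_cauchy (T : Y0 →L[ℝ] E0) : CauchyEnds (mulL L10a_k ∘L T) := by
  intro η hη
  have hT : 0 < ‖T‖ + 1 := by positivity
  have ht : Tendsto (fun X : ℝ => 4 * (‖T‖ + 1) * exp (-(gam * X))) atTop
      (𝓝 (4 * (‖T‖ + 1) * 0)) :=
    (tendsto_exp_neg_atTop_nhds_zero.comp (tendsto_id.const_mul_atTop gam_pos)).const_mul _
  rw [mul_zero] at ht
  obtain ⟨X, hX⟩ := ((ht.eventually (gt_mem_nhds hη)).and (eventually_ge_atTop 0)).exists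
  have key : ∀ (v : Y0) (x : ℝ), X ≤ |x| →
      |(mulL L10a_k ∘L T) v x| ≤ 2 * exp (-(gam * X)) * ((‖T‖ + 1) * ‖v‖) := by
    intro v x hx
    have e : (mulL L10a_k ∘L T) v x = L10a_k x * T v x := rfl
    rw [e, abs_mul]
    have h1 : |L10a_k x| ≤ 2 * exp (-(gam * X)) := by
      refine (L10a_k_le x).trans ?_
      have : exp (-(gam * |x|)) ≤ exp (-(gam * X)) :=
        exp_le_exp.2 (by nlinarith [gam_pos])
      linarith
    have h2 : |T v x| ≤ (‖T‖ + 1) * ‖v‖ :=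
      (abs_le_norm _ _).trans ((T.le_opNorm v).trans (by nlinarith [norm_nonneg v]))
    exact mul_le_mul h1 h2 (abs_nonneg _) (by positivity)
  refine ⟨X, fun v x x' hx => ?_⟩
  have hx1 : X ≤ |x| := by
    rcases hx with hx | hx
    · exact hx.1.trans (le_abs_self x)
    · linarith [neg_le_abs x, hx.1]
  have hx2 : X ≤ |x'| := by
    rcases hx with hx | hx
    · exact hx.2.trans (le_abs_self x')
    · linarith [neg_le_abs x', hx.2]
  have h1 := key v x hx1
  have h2 := key v x' hx2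
  have h3 := abs_sub ((mulL L10a_k ∘L T) v x) ((mulL L10a_k ∘L T) v x')
  have h4 : 4 * (‖T‖ + 1) * exp (-(gam * X)) * ‖v‖ ≤ η * ‖v‖ :=
    mul_le_mul_of_nonneg_right hX.1.le (norm_nonneg v)
  nlinarith

/-- the forcing term -/
def L10a_u (H : HRes) : Y0 →L[ℝ] Y0 :=
  (50 / 81 : ℝ) • (1 + (5 / 3 : ℝ) • H.R (gam - 10 / 3))

theorem L10a_ww (H : HRes) : H.ww = H.R (gam - 1 / 7) ∘L L10a_u H := by
  rw [HRes.ww, L10a_u, ContinuousLinearMap.comp_smul]; rfl

theorem L10a_ww_apply (H : HRes) (y : Y0) : H.ww y = H.R (gam - 1 / 7) (L10a_u H y) := by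
  rw [L10a_ww]; rfl

theorem L10a_UU (H : HRes) (y : Y0) : H.UU y = L10a_u H y - (8 / 7 : ℝ) • H.ww y := by
  have e1 : H.UU y = (50 / 81 : ℝ) • ((1 + (5 / 3 : ℝ) • H.R (gam - 10 / 3)) y +
      (-(8 / 7) : ℝ) • H.R (gam - 1 / 7) ((1 + (5 / 3 : ℝ) • H.R (gam - 10 / 3)) y)) := rfl
  have e2 : L10a_u H y = (50 / 81 : ℝ) • (1 + (5 / 3 : ℝ) • H.R (gam - 10 / 3)) y := rfl
  have e3 : H.ww y = (50 / 81 : ℝ) •
      H.R (gam - 1 / 7) ((1 + (5 / 3 : ℝ) • H.R (gam - 10 / 3)) y) := rfl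
  rw [e1, e2, e3]
  module

theorem L10a_neg : gam - 1 / 7 < 0 := by norm_num [gam]

theorem L10a_zero (H : HRes) (y : Y0) : H.ww y 0 = 0 := by
  rw [L10a_ww_apply]; exact H.zero _ L10a_neg _

def L10a_F1 (H : HRes) : Y0 →L[ℝ] E0 := L10a_odd ∘L H.ww

def L10a_F2 (H : HRes) : Y0 →L[ℝ] E0 :=
  ext ∘L H.UU + (1 + gam) • (mulL L10a_k ∘L (ext ∘L H.ww))

theorem L10a_F1_apply (H : HRes) (y : Y0) (x : ℝ) : L10a_F1 H y x = L10a_odd (H.ww y) x := rfl

theorem L10a_F2_apply (H : HRes) (y : Y0) (x : ℝ) :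
    L10a_F2 H y x = ext (H.UU y) x + (1 + gam) * ((1 - |tanh x|) * ext (H.ww y) x) := rfl

theorem L10a_F2_neg (H : HRes) (y : Y0) (x : ℝ) : L10a_F2 H y (-x) = L10a_F2 H y x := by
  rw [L10a_F2_apply, L10a_F2_apply, ext_neg, ext_neg, tanh_neg, abs_neg]

theorem L10a_deriv_pos (H : HRes) (y : Y0) {x : ℝ} (hx : 0 < x) :
    HasDerivAt (fun x => eps x * L10a_F1 H y x)
      (eps x * (L10a_F2 H y x + tanh x * L10a_F1 H y x)) x := by
  have h1 := H.deriv _ L10a_neg.ne (L10a_u H y) x hx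
  rw [← L10a_ww_apply] at h1
  have h2 := (hasDerivAt_eps x).mul h1
  have e : (fun x => eps x * L10a_F1 H y x) =ᶠ[𝓝 x] eps * ⇑(ext (H.ww y)) := by
    filter_upwards [Ioi_mem_nhds hx] with s hs
    rw [L10a_F1_apply, L10a_odd_nonneg _ (L10a_zero H y) (le_of_lt hs)]; rfl
  refine (h2.congr_of_eventuallyEq e).congr_deriv ?_
  have ht : 0 ≤ tanh x := by
    rw [tanh_eq]; exact mul_nonneg (sinh_nonneg_iff.2 hx.le) (sech_pos x).le
  have e2 : ext (H.UU y) x = ext (L10a_u H y) x - 8 / 7 * ext (H.ww y) x := by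
    rw [L10a_UU]; rfl
  rw [L10a_F1_apply, L10a_odd_nonneg _ (L10a_zero H y) hx.le, L10a_F2_apply, abs_of_nonneg ht, e2]
  ring

theorem L10a_deriv (H : HRes) (y : Y0) (x : ℝ) :
    HasDerivAt (fun x => eps x * L10a_F1 H y x)
      (eps x * (L10a_F2 H y x + tanh x * L10a_F1 H y x)) x := by
  refine hasDerivAt_of_hasDerivAt_of_ne' (x := 0)
    (g := fun x => eps x * (L10a_F2 H y x + tanh x * L10a_F1 H y x)) (fun s hs => ?_) ?_ ?_ x
  · rcases lt_or_gt_of_ne hs with hs | hs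
    · have h := ((L10a_deriv_pos H y (neg_pos.2 hs)).comp s (hasDerivAt_neg s)).neg
      have e : (fun x => eps x * L10a_F1 H y x) =
          -((fun x => eps x * L10a_F1 H y x) ∘ Neg.neg) := by
        funext t
        simp only [Pi.neg_apply, Function.comp_apply, L10a_F1_apply, L10a_odd_neg, eps_neg]
        ring
      rw [e]
      refine h.congr_deriv ?_
      simp only [L10a_F1_apply, L10a_odd_neg, eps_neg, L10a_F2_neg, tanh_neg]
      ring
    · exact L10a_deriv_pos H y hs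
  · exact (continuous_eps.mul (L10a_F1 H y).continuous).continuousAt
  · exact (continuous_eps.mul ((L10a_F2 H y).continuous.add
      (continuous_tanh'.mul (L10a_F1 H y).continuous))).continuousAt

theorem L10a_even (p : E0) (hp : ∀ x, p (-x) = -p x) (x : ℝ) : primL p (-x) = primL p x := by
  have h := intervalIntegral.integral_comp_neg (a := 0) (b := x) (fun s => eps s * p s)
  simp only [eps_neg, hp, mul_neg, intervalIntegral.integral_neg, neg_zero] at h
  rw [primL_apply, primL_apply, intervalIntegral.integral_symm (-x) 0, ← h, neg_neg]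

theorem L10a_jet (H : HRes) : IsJet (primL ∘L L10a_F1 H) (L10a_F1 H) (L10a_F2 H) :=
  ⟨fun y x => hasDerivAt_primL (L10a_F1 H y) x, L10a_deriv H,
    fun y x => L10a_even (L10a_F1 H y) (fun s => L10a_odd_neg _ s) x⟩

theorem mode_three (H : HRes) (h : E0) : ∃ F F1 F2 : Y0 →L[ℝ] E0, IsJet F F1 F2 ∧
    Approx (F2 - (9 : ℝ) • (mulL h ∘L F) - ext ∘L H.UU) ∧
    ∀ (ξ : ℝ) (y : Y0), ξ • (1 : E0) + F y = 0 → ξ = 0 ∧ H.UU y = 0 := by
  refine ⟨primL ∘L L10a_F1 H, L10a_F1 H, L10a_F2 H, L10a_jet H, ?_, ?_⟩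
  · have h1 : LEC (ext ∘L H.ww) := by
      rw [L10a_ww, ← ContinuousLinearMap.comp_assoc]
      exact (H.lec L10a_neg.ne).comp_right _
    have h2 : Approx (mulL L10a_k ∘L (ext ∘L H.ww)) :=
      approx_of_LEC _ (h1.mulL_left _) (L10a_cauchy _)
    have h3 := (h2.smul (1 + gam)).sub (((L10a_jet H).approx.1.comp_left (mulL h)).smul 9)
    have e : L10a_F2 H - (9 : ℝ) • (mulL h ∘L (primL ∘L L10a_F1 H)) - ext ∘L H.UU =
        (1 + gam) • (mulL L10a_k ∘L (ext ∘L H.ww)) -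
          (9 : ℝ) • (mulL h ∘L (primL ∘L L10a_F1 H)) := by
      rw [L10a_F2]; abel
    rw [e]; exact h3
  · intro ξ y hy
    have h0 : ξ = 0 := by
      have h1 : (ξ • (1 : E0) + (primL ∘L L10a_F1 H) y) 0 = 0 := by rw [hy]; rfl
      have h2 : (ξ • (1 : E0) + (primL ∘L L10a_F1 H) y) 0 = ξ * 1 + primL (L10a_F1 H y) 0 := rfl
      rw [h2, primL_zero] at h1
      linarith
    refine ⟨h0, ?_⟩
    rw [h0, zero_smul, zero_add] at hy
    have hF1 : ∀ x, L10a_F1 H y x = 0 := fun x => by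
      have h1 := (L10a_jet H).1 y x
      rw [hy] at h1
      have h2 : HasDerivAt (⇑(0 : E0)) 0 x := hasDerivAt_const x (0 : ℝ)
      exact (mul_eq_zero.1 (h1.unique h2)).resolve_left (eps_pos x).ne'
    have hF2 : ∀ x, L10a_F2 H y x = 0 := fun x => by
      have h1 := L10a_deriv H y x
      simp only [hF1, mul_zero, add_zero] at h1
      exact (mul_eq_zero.1 (h1.unique (hasDerivAt_const x (0 : ℝ)))).resolve_left (eps_pos x).ne'
    ext x
    have h1 := hF1 x
    have h2 := hF2 x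
    rw [L10a_F1_apply, L10a_odd_nonneg _ (L10a_zero H y) (NNReal.coe_nonneg x)] at h1
    rw [L10a_F2_apply, h1, ext_coe] at h2
    simpa using h2

end Pool.Agent.PS
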