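import Pool.Agent.P.MP_6c3c64_gt.L5b

/-! Row L5c. From the local `L²` seminorm to the supremum norm. If `α ≥ a`, then
`(exp (-a s) v ^ 2)' ≥ -exp (-a s) c ^ 2 / a`; integrate from `x` to infinity and use
`exp (-a u) ≤ exp (-σ u) ≤ sech (σ u)` for `u ≥ 0`. For `a < 0` integrate
`(exp (|a| s) v ^ 2)' ≤ exp (|a| s) c ^ 2 / |a|` from `0` to `x`. The last two statements follow from
`supq_half`, `energy_half` and the fields of `HRes`.
-/

set_option autoImplicit false

open Real BoundedContinuousFunction MeasureTheory Set Filter Topology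
open scoped NNReal ENNReal

noncomputable section

namespace Pool.Agent.PS

theorem L5c_exp_le {σ a : ℝ} (hσ : 0 < σ) (ha : σ ≤ a) (u : ℝ) :
    exp (-(a * |u|)) ≤ sech (σ * u) := by
  rw [sech, exp_neg]
  refine inv_anti₀ (cosh_pos _) ?_
  have h1 : |σ * u| ≤ a * |u| := by
    rw [abs_mul, abs_of_pos hσ]
    exact mul_le_mul_of_nonneg_right ha (abs_nonneg u)
  have h2 : cosh (σ * u) ≤ exp |σ * u| := by
    rw [← cosh_abs, cosh_eq]
    have : exp (-|σ * u|) ≤ exp |σ * u| := exp_le_exp.2 (by linarith [abs_nonneg (σ * u)])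
    linarith
  exact h2.trans (exp_le_exp.2 h1)

theorem L5c_int_le {σ a : ℝ} (hσ : 0 < σ) (ha : 0 < a) (c : E0) (x0 : ℝ) {x y : ℝ} (hxy : x ≤ y)
    {I : Set ℝ} (hI : Ioc x y ⊆ I) :
    ∫ s in x..y, sech (σ * (s - x0)) * c s ^ 2 / a ≤ loc I σ x0 c / (σ * a) := by
  have hint : Integrable fun s => sech (σ * (s - x0)) * c s ^ 2 := by
    have := integrable_sech_mul hσ x0 (c * c)
    refine this.congr (Eventually.of_forall fun s => ?_)
    simp [sq]
  rw [intervalIntegral.integral_div, loc, mul_div_mul_left _ _ hσ.ne',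
    intervalIntegral.integral_of_le hxy]
  refine div_le_div_of_nonneg_right ?_ ha.le
  exact setIntegral_mono_set hint.integrableOn
    (Eventually.of_forall fun s => mul_nonneg (sech_pos _).le (sq_nonneg _)) hI.eventuallyLE

theorem L5c_cont {σ a : ℝ} (c : E0) (x0 : ℝ) :
    Continuous fun s => sech (σ * (s - x0)) * c s ^ 2 / a :=
  ((continuous_sech.comp (by fun_prop)).mul (c.continuous.pow 2)).div_const a

theorem L5c_fwd {σ a : ℝ} (hσ : 0 < σ) (ha : σ ≤ a) (α : ℝ → ℝ) (v c : E0) (hα : ∀ x, a ≤ α x)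
    (x : ℝ) (hv : ∀ s, x < s → HasDerivAt v (α s * v s + c s) s) {I : Set ℝ} (hI : Ioi x ⊆ I) :
    v x ^ 2 ≤ loc I σ x c / (σ * a) := by
  have ha0 : 0 < a := hσ.trans_le ha
  have key : ∀ y, x ≤ y →
      v x ^ 2 ≤ loc I σ x c / (σ * a) + exp (-(a * (y - x))) * ‖v‖ ^ 2 := by
    intro y hy
    have h1 := intervalIntegral.sub_le_integral_of_hasDeriv_right_of_le
      (g := fun s => -(exp (-(a * (s - x))) * v s ^ 2))
      (g' := fun s => -(exp (-(a * (s - x))) * (-a * v s ^ 2 + 2 * v s * (α s * v s + c s))))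
      (φ := fun s => sech (σ * (s - x)) * c s ^ 2 / a) hy
      (Continuous.continuousOn (by fun_prop))
      (fun s hs => by
        have e1 : HasDerivAt (fun s => exp (-(a * (s - x)))) (exp (-(a * (s - x))) * -a) s := by
          have := (((hasDerivAt_id s).sub_const x).const_mul a).neg.exp
          simpa using this
        have e2 := (e1.mul ((hv s hs.1).pow 2)).neg
        refine (HasDerivAt.congr_deriv e2 ?_).hasDerivWithinAt
        simp only [Pi.pow_apply, Nat.cast_ofNat, Nat.add_one_sub_one, pow_one]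
        ring)
      ((L5c_cont c x).continuousOn.integrableOn_compact isCompact_Icc)
      (fun s hs => by
        have e1 := L5c_exp_le hσ ha (s - x)
        rw [abs_of_pos (sub_pos.2 hs.1)] at e1
        have e2 : -(-a * v s ^ 2 + 2 * v s * (α s * v s + c s)) ≤ c s ^ 2 / a := by
          rw [le_div_iff₀ ha0]
          have e3 : 0 ≤ (α s - a) * v s ^ 2 * a :=
            mul_nonneg (mul_nonneg (sub_nonneg.2 (hα s)) (sq_nonneg _)) ha0.le
          nlinarith [sq_nonneg (a * v s + c s)]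
        calc -(exp (-(a * (s - x))) * (-a * v s ^ 2 + 2 * v s * (α s * v s + c s)))
            = exp (-(a * (s - x))) * -(-a * v s ^ 2 + 2 * v s * (α s * v s + c s)) := by ring
          _ ≤ exp (-(a * (s - x))) * (c s ^ 2 / a) :=
            mul_le_mul_of_nonneg_left e2 (exp_pos _).le
          _ ≤ sech (σ * (s - x)) * (c s ^ 2 / a) :=
            mul_le_mul_of_nonneg_right e1 (by positivity)
          _ = sech (σ * (s - x)) * c s ^ 2 / a := by ring)
    have h2 := L5c_int_le hσ ha0 c x hy (Ioc_subset_Ioi_self.trans hI)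
    have h3 : v y ^ 2 ≤ ‖v‖ ^ 2 := by
      rw [← sq_abs]
      exact pow_le_pow_left₀ (abs_nonneg _) (abs_le_norm v y) 2
    have h4 := mul_le_mul_of_nonneg_left h3 (exp_pos (-(a * (y - x)))).le
    simp only [sub_self, mul_zero, neg_zero, exp_zero, one_mul] at h1
    linarith
  have hlim : Tendsto (fun y => loc I σ x c / (σ * a) + exp (-(a * (y - x))) * ‖v‖ ^ 2) atTop
      (𝓝 (loc I σ x c / (σ * a) + 0 * ‖v‖ ^ 2)) := by
    refine tendsto_const_nhds.add (Tendsto.mul_const _ ?_)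
    exact tendsto_exp_neg_atTop_nhds_zero.comp
      ((tendsto_atTop_add_const_right _ (-x) tendsto_id).const_mul_atTop ha0)
  rw [zero_mul, add_zero] at hlim
  exact ge_of_tendsto hlim (eventually_atTop.2 ⟨x, key⟩)

theorem L5c_bwd {σ b : ℝ} (hσ : 0 < σ) (hb : σ ≤ b) (v c : E0)
    (hv : ∀ s, 0 < s → HasDerivAt v (-b * v s + c s) s) (h0 : v 0 = 0) (x : ℝ) (hx : 0 ≤ x) :
    v x ^ 2 ≤ loc (Ioi 0) σ x c / (σ * b) := by
  have hb0 : 0 < b := hσ.trans_le hb
  have h1 := intervalIntegral.sub_le_integral_of_hasDeriv_right_of_le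
    (g := fun s => exp (b * (s - x)) * v s ^ 2)
    (g' := fun s => exp (b * (s - x)) * (b * v s ^ 2 + 2 * v s * (-b * v s + c s)))
    (φ := fun s => sech (σ * (s - x)) * c s ^ 2 / b) hx
    (Continuous.continuousOn (by fun_prop))
    (fun s hs => by
      have e1 : HasDerivAt (fun s => exp (b * (s - x))) (exp (b * (s - x)) * b) s := by
        have := (((hasDerivAt_id s).sub_const x).const_mul b).exp
        simpa using this
      have e2 := e1.mul ((hv s hs.1).pow 2)
      refine (HasDerivAt.congr_deriv e2 ?_).hasDerivWithinAt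
      simp only [Pi.pow_apply, Nat.cast_ofNat, Nat.add_one_sub_one, pow_one]
      ring)
    ((L5c_cont c x).continuousOn.integrableOn_compact isCompact_Icc)
    (fun s hs => by
      have e1 := L5c_exp_le hσ hb (s - x)
      rw [abs_of_neg (sub_neg.2 hs.2), show -(b * -(s - x)) = b * (s - x) by ring] at e1
      have e2 : b * v s ^ 2 + 2 * v s * (-b * v s + c s) ≤ c s ^ 2 / b := by
        rw [le_div_iff₀ hb0]
        nlinarith [sq_nonneg (b * v s - c s)]
      calc exp (b * (s - x)) * (b * v s ^ 2 + 2 * v s * (-b * v s + c s))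
          ≤ exp (b * (s - x)) * (c s ^ 2 / b) := mul_le_mul_of_nonneg_left e2 (exp_pos _).le
        _ ≤ sech (σ * (s - x)) * (c s ^ 2 / b) :=
          mul_le_mul_of_nonneg_right e1 (by positivity)
        _ = sech (σ * (s - x)) * c s ^ 2 / b := by ring)
  have h2 := L5c_int_le hσ hb0 c x hx (I := Ioi 0) Ioc_subset_Ioi_self
  simp only [sub_self, mul_zero, exp_zero, one_mul, h0] at h1
  linarith

theorem supq_line {σ a : ℝ} (hσ : 0 < σ) (ha : σ ≤ a) (α v c : E0) (hα : ∀ x, a ≤ α x)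
    (hv : ∀ x, HasDerivAt v (α x * v x + c x) x) (x : ℝ) :
    v x ^ 2 ≤ loc univ σ x c / (σ * a) :=
  L5c_fwd hσ ha α v c hα x (fun s _ => hv s) (subset_univ _)

theorem supq_half {σ a : ℝ} (hσ : 0 < σ) (ha : σ ≤ |a|) (v c : E0)
    (hv : ∀ x, 0 < x → HasDerivAt v (a * v x + c x) x) (h0 : a < 0 → v 0 = 0) (x : ℝ)
    (hx : 0 ≤ x) : v x ^ 2 ≤ loc (Ioi 0) σ x c / (σ * |a|) := by
  rcases lt_or_ge a 0 with h | h
  · rw [abs_of_neg h] at ha ⊢
    exact L5c_bwd hσ ha v c (fun s hs => by rw [neg_neg]; exact hv s hs) (h0 h) x hx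
  · rw [abs_of_nonneg h] at ha ⊢
    exact L5c_fwd hσ ha (fun _ => a) v c (fun _ => le_rfl) x
      (fun s hs => hv s (hx.trans_lt hs)) (Ioi_subset_Ioi hx)

theorem L5c_zero (H : HRes) {a : ℝ} (ha : a < 0) (y : Y0) : ext (H.R a y) 0 = 0 :=
  (ext_coe (H.R a y) 0).trans (H.zero a ha y)

theorem HRes.norm_le_q (H : HRes) {σ a : ℝ} (hσ : 0 < σ) (ha : σ ≤ |a|) {q : Seminorm ℝ E0}
    (hq : IsQ (Ioi 0) σ q) (y : Y0) : ‖H.R a y‖ ≤ (√(σ * |a|))⁻¹ * q (ext y) := by
  have ha0 : 0 < |a| := hσ.trans_le ha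
  have hp : 0 < σ * |a| := mul_pos hσ ha0
  have hq0 : 0 ≤ q (ext y) := apply_nonneg q _
  have hB : 0 ≤ (√(σ * |a|))⁻¹ * q (ext y) := by positivity
  refine (norm_le hB).2 fun x => ?_
  have h1 := supq_half hσ ha (ext (H.R a y)) (ext y) (H.deriv a (abs_pos.1 ha0) y)
    (fun h => L5c_zero H h y) x x.2
  rw [ext_coe] at h1
  have h2 := div_le_div_of_nonneg_right (hq.2.1 (ext y) x) hp.le
  rw [Real.norm_eq_abs]
  refine abs_le_of_sq_le_sq' ?_ hB |> abs_le.2
  rw [mul_pow, inv_pow, sq_sqrt hp.le, mul_comm, ← div_eq_mul_inv]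
  exact h1.trans h2

theorem HRes.q_step (H : HRes) {σ a s B : ℝ} (hσ : 0 < σ) (ha : a ≠ 0) (hB : 1 ≤ B)
    (h : σ * |B ^ 2 * a + (s - a)| ≤ B ^ 2 * a ^ 2 - (s - a) ^ 2)
    (h0 : a < 0 ∨ 0 ≤ B ^ 2 * a + (s - a)) {q : Seminorm ℝ E0} (hq : IsQ (Ioi 0) σ q) (y : Y0) :
    q (ext ((1 + s • H.R a : Y0 →L[ℝ] Y0) y)) ≤ B * q (ext y) := by
  have hq0 : 0 ≤ q (ext y) := apply_nonneg q _
  refine hq.2.2 _ _ (mul_nonneg (zero_le_one.trans hB) hq0) fun x0 => ?_
  have h1 := energy_half hσ a (s - a) (ext (H.R a y)) (ext y) hB (H.deriv a ha y) h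
    (h0.imp (fun h => L5c_zero H h y) id) x0
  have e : ext ((1 + s • H.R a : Y0 →L[ℝ] Y0) y) =
      (ext y + (a + (s - a)) • ext (H.R a y) : E0) := by
    rw [show a + (s - a) = s by ring, ← map_smul, ← map_add]
    rfl
  rw [e, mul_pow]
  exact h1.trans (mul_le_mul_of_nonneg_left (hq.2.1 (ext y) x0) (sq_nonneg B))

end Pool.Agent.PS
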