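import Pool.Agent.P.MP_6c3c64_gt.Inst
import Pool.Agent.P.MP_6c3c64_gt.A0
import Pool.Agent.P.MP_6c3c64_gt.A4
import Pool.Agent.P.MP_6c3c64_gt.K4
import Pool.Agent.P.MP_6c3c64_gt.L4
import Pool.Agent.P.MP_6c3c64_gt.L5c

/-! Row L10b. The model operator for `m = 3` composed with `UU` is invertible.
`ZR 0 2 = 1`, `ZR 0 1 * ZR 0 3 = 1` (`resolvent`), `ZR 0 (n + 3) = ZL 0 n`, hence
`CR 0 1 = CR 0 2 = ZR 0 1`, `CR 0 (n + 3) = CL 0 n`. With `κ n = ginf n / ginf 0`,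
`Sc 0 / ginf 0 = (1 + κ 3) + (κ 1 + κ 2) ZR 0 1 + (κ 1 + κ 4) ZL 0 1
 + ∑ n, (κ (n + 2) + κ (n + 5)) CL 0 (n + 2)`.
Main identity: `((81 / 80) • 1 + (117 / 350) • ZR 0 1 + (153 / 560) • ZL 0 1) * UU = 1`; with
`R1 = R (gam - 1 / 7)`, `R2 = R (gam - 10 / 3)`, `R5 = R (gam - 5)`, `Ra = R (1 + gam)` use
`Ra (1 - (8 / 7) R1) = R1`, `R5 (1 + (5 / 3) R2) = R2`, `R5 R1 = R1 R5`,
`(67 / 21) R1 R2 = R1 - R2`. So `Sc 0 * UU = ginf 0 • (1 + T)` where `T` has coefficients at most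
`11 / 10000`, `16 / 10000`, `27 / 10000` (`ginf_one` ... `ginf_four`) and a tail of total size
`41 / 500` (`sum_cc_c`). `renorm` with `IsQ (Ioi 0) (1 / 200) q`: `q_step` with `B = 39 / 5` and
`B = 38 / 25` for the two factors of `UU` (so `q (UU y) ≤ 7.32 q y`), `B = 3` for `ZR 0 1`, `B = 1`
for the `ZL`; thus `ϱ = 7 / 10`. For the supremum bound: `‖UU y - (50 / 81) • y‖ ≤ K q y`,
`‖(CL n - 1) y‖ ≤ K (n + 1) ^ 2 q y` (`norm_le_q`), so `κ = 1 / 2` works.
-/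

set_option autoImplicit false

open Real BoundedContinuousFunction MeasureTheory Set Filter Topology
open scoped NNReal ENNReal

noncomputable section

namespace Pool.Agent.PS

def L10bQB (q : Seminorm ℝ E0) (T : Y0 →L[ℝ] Y0) (B : ℝ) : Prop :=
  ∀ y, q (ext (T y)) ≤ B * q (ext y)
def L10bSQ (q : Seminorm ℝ E0) (T : Y0 →L[ℝ] Y0) (κ C : ℝ) : Prop :=
  ∀ y, ‖T y - κ • y‖ ≤ C * q (ext y)

theorem L10bQB.mul {q : Seminorm ℝ E0} {S T : Y0 →L[ℝ] Y0} {B B' : ℝ} (hS : L10bQB q S B)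
    (hT : L10bQB q T B') (hB : 0 ≤ B) : L10bQB q (S * T) (B * B') := fun y => by
  rw [mul_assoc]
  exact (hS (T y)).trans (mul_le_mul_of_nonneg_left (hT y) hB)

theorem L10bQB.mono {q : Seminorm ℝ E0} {S : Y0 →L[ℝ] Y0} {B B' : ℝ} (hS : L10bQB q S B)
    (h : B ≤ B') : L10bQB q S B' := fun y =>
  (hS y).trans (mul_le_mul_of_nonneg_right h (apply_nonneg _ _))

theorem L10bQB.smul {q : Seminorm ℝ E0} {S : Y0 →L[ℝ] Y0} {B : ℝ} (hS : L10bQB q S B) (c : ℝ) :
    L10bQB q (c • S) (|c| * B) := fun y => by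
  rw [_root_.smul_apply, map_smul, map_smul_eq_mul, Real.norm_eq_abs, mul_assoc]
  exact mul_le_mul_of_nonneg_left (hS y) (abs_nonneg c)

theorem L10bSQ.mul {q : Seminorm ℝ E0} {S T : Y0 →L[ℝ] Y0} {κ κ' C C' B' : ℝ}
    (hS : L10bSQ q S κ C) (hT : L10bSQ q T κ' C') (hq : L10bQB q T B') (hC : 0 ≤ C) :
    L10bSQ q (S * T) (κ * κ') (C * B' + |κ| * C') := fun y => by
  have e : (S * T) y - (κ * κ') • y = (S (T y) - κ • T y) + κ • (T y - κ' • y) := by
    rw [mul_apply_eq_comp]; module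
  rw [e, add_mul, mul_assoc, mul_assoc]
  refine (norm_add_le _ _).trans (add_le_add ((hS _).trans
    (mul_le_mul_of_nonneg_left (hq y) hC)) ?_)
  rw [norm_smul, Real.norm_eq_abs]
  exact mul_le_mul_of_nonneg_left (hT y) (abs_nonneg _)

theorem L10bSQ.mono {q : Seminorm ℝ E0} {S : Y0 →L[ℝ] Y0} {κ C C' : ℝ} (hS : L10bSQ q S κ C)
    (h : C ≤ C') : L10bSQ q S κ C' := fun y =>
  (hS y).trans (mul_le_mul_of_nonneg_right h (apply_nonneg _ _))

theorem L10bSQ.smul {q : Seminorm ℝ E0} {S : Y0 →L[ℝ] Y0} {κ C : ℝ} (hS : L10bSQ q S κ C)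
    (c : ℝ) : L10bSQ q (c • S) (c * κ) (|c| * C) := fun y => by
  rw [_root_.smul_apply, mul_smul, ← smul_sub, norm_smul, Real.norm_eq_abs, mul_assoc]
  exact mul_le_mul_of_nonneg_left (hS y) (abs_nonneg c)

theorem L10bSQ.norm_le {q : Seminorm ℝ E0} {S : Y0 →L[ℝ] Y0} {κ C : ℝ} (hS : L10bSQ q S κ C)
    (y : Y0) : ‖S y‖ ≤ |κ| * ‖y‖ + C * q (ext y) := by
  have := norm_add_le (κ • y) (S y - κ • y)
  rw [add_sub_cancel, norm_smul, Real.norm_eq_abs] at this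
  linarith [hS y]

variable (H : HRes)

theorem L10b_sq_step {q : Seminorm ℝ E0} (hq : IsQ (Ioi 0) (1 / 200) q) {a : ℝ} (s : ℝ)
    (ha : 1 / 10 ≤ |a|) : L10bSQ q (1 + s • H.R a) 1 (|s| * 50) := fun y => by
  have h := H.norm_le_q (by norm_num) (by linarith : (1 / 200 : ℝ) ≤ |a|) hq y
  have h2 : (√(1 / 200 * |a|))⁻¹ ≤ 50 := by
    refine inv_le_of_inv_le₀ (by norm_num) (le_sqrt_of_sq_le ?_)
    nlinarith
  have e : (1 + s • H.R a : Y0 →L[ℝ] Y0) y - (1 : ℝ) • y = s • H.R a y := by simp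
  rw [e, norm_smul, Real.norm_eq_abs, mul_assoc]
  exact mul_le_mul_of_nonneg_left
    (h.trans (mul_le_mul_of_nonneg_right h2 (apply_nonneg _ _))) (abs_nonneg s)

theorem L10b_ZL (n : ℕ) : H.ZL 0 n = 1 + (-(4 * (n : ℝ) + 4)) • H.R (gam - (2 * n + 3)) := by
  simp only [HRes.ZL, mm]
  congr 2
  · push_cast; ring
  · congr 1; push_cast; ring

theorem L10b_ZR (n : ℕ) : H.ZR 0 n = 1 + (8 - 4 * (n : ℝ)) • H.R (3 - 2 * n + gam) := by
  simp only [HRes.ZR, mm]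
  congr 2
  push_cast; ring

theorem L10b_qb_ZL {q : Seminorm ℝ E0} (hq : IsQ (Ioi 0) (1 / 200) q) (n : ℕ) :
    L10bQB q (H.ZL 0 n) 1 := fun y => by
  have hn : (0 : ℝ) ≤ n := n.cast_nonneg
  rw [L10b_ZL]
  refine H.q_step (by norm_num) (by unfold gam; linarith) le_rfl ?_
    (Or.inl (by unfold gam; linarith)) hq y
  rw [abs_of_nonpos (by linarith)]
  unfold gam
  nlinarith

theorem L10b_CL {q : Seminorm ℝ E0} (hq : IsQ (Ioi 0) (1 / 200) q) (n : ℕ) :
    L10bQB q (H.CL 0 n) 1 ∧ L10bSQ q (H.CL 0 n) 1 (200 * ((n : ℝ) + 1) ^ 2) := by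
  induction n with
  | zero =>
    refine ⟨fun y => by simp [HRes.CL, chainOf], fun y => ?_⟩
    simp only [HRes.CL, chainOf, one_apply_eq_self, one_smul, sub_self, norm_zero]
    positivity
  | succ n ih =>
    have hn : (0 : ℝ) ≤ n := n.cast_nonneg
    have e : H.CL 0 (n + 1) = H.CL 0 n * H.ZL 0 (n + 1) := rfl
    have h1 := L10b_qb_ZL H hq (n + 1)
    have h2 : L10bSQ q (H.ZL 0 (n + 1)) 1 ((4 * (n : ℝ) + 8) * 50) := by
      rw [L10b_ZL]
      refine (L10b_sq_step H hq _ ?_).mono (le_of_eq ?_)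
      · rw [abs_of_nonpos (by unfold gam; push_cast; linarith)]; unfold gam; push_cast; linarith
      · rw [abs_neg, abs_of_nonneg (by positivity)]; push_cast; ring
    rw [e]
    refine ⟨by simpa using ih.1.mul h1 zero_le_one, ?_⟩
    have := ih.2.mul h2 h1 (by positivity)
    rw [one_mul] at this
    refine this.mono ?_
    rw [abs_one]; push_cast; nlinarith

theorem L10b_UU {q : Seminorm ℝ E0} (hq : IsQ (Ioi 0) (1 / 200) q) :
    L10bQB q H.UU (183 / 25) ∧ L10bSQ q H.UU (50 / 81) 200 := by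
  have a1 : L10bQB q (1 + (-(8 / 7) : ℝ) • H.R (gam - 1 / 7)) (39 / 5) := fun y =>
    H.q_step (by norm_num) (by norm_num [gam]) (by norm_num) (by norm_num [gam, abs_of_pos])
      (Or.inl (by norm_num [gam])) hq y
  have a2 : L10bQB q (1 + (5 / 3 : ℝ) • H.R (gam - 10 / 3)) (38 / 25) := fun y =>
    H.q_step (by norm_num) (by norm_num [gam]) (by norm_num) (by norm_num [gam, abs_of_pos])
      (Or.inl (by norm_num [gam])) hq y
  have b1 := L10b_sq_step H hq (a := gam - 1 / 7) (-(8 / 7)) (by norm_num [gam, abs_of_pos])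
  have b2 := L10b_sq_step H hq (a := gam - 10 / 3) (5 / 3) (by norm_num [gam, abs_of_pos])
  refine ⟨((a1.mul a2 (by norm_num)).smul (50 / 81)).mono (by norm_num [abs_of_pos]), ?_⟩
  have := (b1.mul b2 a2 (by positivity)).smul (50 / 81)
  rw [one_mul, mul_one] at this
  exact this.mono (by norm_num [abs_of_pos])

theorem L10b_main : ((81 / 80 : ℝ) • (1 : Y0 →L[ℝ] Y0) + (117 / 350 : ℝ) • H.ZR 0 1
    + (153 / 560 : ℝ) • H.ZL 0 1) * H.UU = 1 := by
  have h1 := H.resolvent (a := 3 - 2 * (1 : ℕ) + gam) (b := gam - 1 / 7) (by norm_num [gam])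
    (by norm_num [gam])
  have h2 := H.resolvent (a := gam - (2 * (1 : ℕ) + 3)) (b := gam - 10 / 3) (by norm_num [gam])
    (by norm_num [gam])
  have h3 := H.R_comm (a := gam - (2 * (1 : ℕ) + 3)) (b := gam - 1 / 7) (by norm_num [gam])
    (by norm_num [gam])
  have h4 := H.resolvent (a := gam - 1 / 7) (b := gam - 10 / 3) (by norm_num [gam])
    (by norm_num [gam])
  rw [L10b_ZR, L10b_ZL, HRes.UU]
  generalize H.R (3 - 2 * (1 : ℕ) + gam) = Ra at *
  generalize H.R (gam - (2 * (1 : ℕ) + 3)) = R5 at *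
  generalize H.R (gam - 1 / 7) = R1 at *
  generalize H.R (gam - 10 / 3) = R2 at *
  rw [show gam - 1 / 7 - (3 - 2 * ((1 : ℕ) : ℝ) + gam) = -(8 / 7) by push_cast; ring] at h1
  rw [show gam - 10 / 3 - (gam - (2 * ((1 : ℕ) : ℝ) + 3)) = 5 / 3 by push_cast; ring] at h2
  rw [show gam - 10 / 3 - (gam - 1 / 7) = -(67 / 21) by ring] at h4
  have e1 : Ra * ((1 + (-(8 / 7) : ℝ) • R1) * (1 + (5 / 3 : ℝ) • R2)) =
      R1 * (1 + (5 / 3 : ℝ) • R2) := by rw [← mul_assoc, h1]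
  have e2 : R5 * ((1 + (-(8 / 7) : ℝ) • R1) * (1 + (5 / 3 : ℝ) • R2)) =
      (1 + (-(8 / 7) : ℝ) • R1) * R2 := by
    have : R5 * (1 + (-(8 / 7) : ℝ) • R1) = (1 + (-(8 / 7) : ℝ) • R1) * R5 := by
      rw [mul_add, add_mul, mul_one, one_mul, mul_smul_comm, smul_mul_assoc, h3]
    rw [← mul_assoc, this, mul_assoc, h2]
  have e3 : R1 * R2 = (21 / 67 : ℝ) • (R1 - R2) := by
    rw [mul_add, mul_one, mul_smul_comm] at h4
    rw [← h4]
    nth_rewrite 1 [h4]
    module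
  have e4 : (1 + (-(8 / 7) : ℝ) • R1) * (1 + (5 / 3 : ℝ) • R2) =
      1 + (-(8 / 7) : ℝ) • R1 + (5 / 3 : ℝ) • R2 + (-(40 / 21) : ℝ) • (R1 * R2) := by
    simp only [add_mul, mul_add, one_mul, mul_one, smul_mul_assoc, mul_smul_comm]
    module
  generalize (1 + (-(8 / 7) : ℝ) • R1) * (1 + (5 / 3 : ℝ) • R2) = PQ at e1 e2 e4 ⊢
  simp only [add_mul, one_mul, smul_mul_assoc, mul_smul_comm, e1, e2]
  simp only [mul_add, mul_one, mul_smul_comm, e3, e4]
  push_cast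
  module

theorem L10b_CR (n : ℕ) : H.CR 0 (n + 3) = H.CL 0 n := by
  induction n with
  | zero =>
    have h := H.resolvent (a := 3 - 2 * (1 : ℕ) + gam) (b := 3 - 2 * (3 : ℕ) + gam)
      (by norm_num [gam]) (by norm_num [gam])
    simp only [HRes.CR, HRes.CL, chainOf, zero_add, one_mul, L10b_ZR, Nat.reduceAdd]
    rw [show 3 - 2 * ((3 : ℕ) : ℝ) + gam - (3 - 2 * ((1 : ℕ) : ℝ) + gam) = 8 - 4 * ((3 : ℕ) : ℝ) by
      push_cast; ring] at h
    rw [show (8 - 4 * ((2 : ℕ) : ℝ)) = 0 by norm_num, zero_smul, add_zero, mul_one, add_mul,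
      smul_mul_assoc, h, one_mul]
    push_cast
    module
  | succ n ih =>
    have e : H.CR 0 (n + 1 + 3) = H.CR 0 (n + 3) * H.ZR 0 (n + 3 + 1) := rfl
    have e' : H.CL 0 (n + 1) = H.CL 0 n * H.ZL 0 (n + 1) := rfl
    rw [e, e', ih, L10b_ZR, L10b_ZL]
    congr 3
    · push_cast; ring
    · congr 1; push_cast; ring

theorem L10b_summable {A : Type} [NormedAddCommGroup A] [NormedSpace ℝ A] [CompleteSpace A]
    (C : ℕ → A) (hC : ∀ n, ‖C n‖ ≤ 5 ^ n) (k l : ℕ) (h : l ≤ k) :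
    Summable fun n => ginf (n + k) • C (n + l) := by
  have hs : Summable fun n : ℕ => (27 / 5 : ℝ) ^ (n + k) * ginf (n + k) :=
    (summable_nat_add_iff (f := fun n : ℕ => (27 / 5 : ℝ) ^ n * ginf n) k).2 summable_ginf
  refine Summable.of_norm_bounded hs fun n => ?_
  rw [norm_smul, Real.norm_eq_abs, abs_of_nonneg (ginf_nonneg _), mul_comm]
  refine mul_le_mul_of_nonneg_right ((hC _).trans ?_) (ginf_nonneg _)
  exact (pow_le_pow_right₀ (by norm_num) (by omega)).trans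
    (pow_le_pow_left₀ (by norm_num) (by norm_num) _)

theorem L10b_sum {A : Type} [NormedAddCommGroup A] [NormedSpace ℝ A] (g : ℕ → ℝ) (R L : ℕ → A)
    (r1 : Summable fun n => g (n + 1) • R (n + 1)) (l1 : Summable fun n => g (n + 1) • L (n + 1))
    (h : ∀ n, R (n + 3) = L n) :
    ∑' n, g (n + 1) • (R (n + 1) + L (n + 1)) = g 1 • R 1 + g 2 • R 2 + g 3 • L 0
      + (g 1 + g 4) • L 1 + ∑' n, (g (n + 2) + g (n + 5)) • L (n + 2) := by
  have l2 : Summable fun n => g (n + 2) • L (n + 2) :=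
    (summable_nat_add_iff (f := fun n => g (n + 1) • L (n + 1)) 1).2 l1
  have l5 : Summable fun n => g (n + 5) • L (n + 2) := by
    have := (summable_nat_add_iff (f := fun n => g (n + 1) • R (n + 1)) 4).2 r1
    exact this.congr fun n => by rw [← h (n + 2)]
  simp only [smul_add, add_smul]
  rw [r1.tsum_add l1, l2.tsum_add l5, ← r1.sum_add_tsum_nat_add 4, ← l1.sum_add_tsum_nat_add 1]
  have e : ∀ n, g (n + 4 + 1) • R (n + 4 + 1) = g (n + 5) • L (n + 2) := fun n => by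
    rw [← h (n + 2)]
  simp only [e, Finset.sum_range_succ, Finset.sum_range_zero, zero_add, Nat.reduceAdd, ← h 0,
    ← h 1]
  abel

theorem L10b_summable' {A : Type} [NormedAddCommGroup A] [NormedSpace ℝ A] [CompleteSpace A]
    (C : ℕ → A) (hC : ∀ n, ‖C n‖ ≤ 5 ^ n) :
    Summable fun n => (ginf (n + 2) + ginf (n + 5)) • C (n + 2) := by
  simp only [add_smul]
  exact (L10b_summable C hC 2 2 le_rfl).add (L10b_summable C hC 5 2 (by norm_num))

theorem L10b_Sc : H.Sc 0 = (ginf 0 + ginf 3) • (1 : Y0 →L[ℝ] Y0) + (ginf 1 + ginf 2) • H.ZR 0 1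
    + (ginf 1 + ginf 4) • H.ZL 0 1 + ∑' n, (ginf (n + 2) + ginf (n + 5)) • H.CL 0 (n + 2) := by
  have c1 : H.CR 0 1 = H.ZR 0 1 := by simp [HRes.CR, chainOf]
  have c2 : H.CR 0 2 = H.ZR 0 1 := by
    have : H.CR 0 2 = H.CR 0 1 * H.ZR 0 2 := rfl
    rw [this, c1, L10b_ZR H 2, show (8 - 4 * ((2 : ℕ) : ℝ)) = 0 by norm_num, zero_smul, add_zero,
      mul_one]
  have d0 : H.CL 0 0 = 1 := rfl
  have d1 : H.CL 0 1 = H.ZL 0 1 := by simp [HRes.CL, chainOf]
  have := L10b_sum ginf (H.CR 0) (H.CL 0) (L10b_summable _ (H.norm_CR 0) 1 1 le_rfl)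
    (L10b_summable _ (H.norm_CL 0) 1 1 le_rfl) (L10b_CR H)
  rw [HRes.Sc]
  refine (congrArg _ this).trans ?_
  rw [c1, c2, d0, d1]
  module

theorem model_inv_three (H : HRes) : ∃ M : ℝ, HasInv (H.Sc 0 * H.UU) M := by
  obtain ⟨q, hq⟩ := exists_isQ (Ioi 0) measurableSet_Ioi (by norm_num : (0 : ℝ) < 1 / 200)
  have g0 := ginf_zero_pos
  obtain ⟨u1, u2⟩ := L10b_UU H hq
  set e : ℕ → ℝ := fun n => (ginf (n + 2) + ginf (n + 5)) / ginf 0 with he
  have e0 : ∀ n, 0 ≤ e n := fun n => div_nonneg (add_nonneg (ginf_nonneg _) (ginf_nonneg _)) g0.le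
  have e1 : ∀ n, e n ≤ cc (n + 2) * r0 ^ (n + 2) + cc (n + 5) * r0 ^ (n + 5) := fun n => by
    rw [he, div_le_iff₀ g0, add_mul]
    exact add_le_add (ginf_le _) (ginf_le _)
  have e2 : ∀ s : Finset ℕ, ∑ n ∈ s, e n ≤ 41 / 500 := fun s =>
    (Finset.sum_le_sum fun n _ => e1 n).trans (sum_cc_c s)
  have hr0 : (0 : ℝ) ≤ r0 := by norm_num [r0]
  have e3 : Summable fun n => e n * (200 * (((n + 2 : ℕ) : ℝ) + 1) ^ 2 * (183 / 25) + |1| * 200) := by
    have p := summable_cc_poly 2 hr0 (by norm_num [r0])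
    have p2 := (((summable_nat_add_iff 2).2 p).add ((summable_nat_add_iff 5).2 p)).mul_left 2000
    refine Summable.of_nonneg_of_le (fun n => mul_nonneg (e0 n) (by positivity)) (fun n => ?_) p2
    have hn : (0 : ℝ) ≤ n := n.cast_nonneg
    have k1 : 0 ≤ cc (n + 2) * r0 ^ (n + 2) := mul_nonneg (cc_pos _).le (pow_nonneg hr0 _)
    have k2 : 0 ≤ cc (n + 5) * r0 ^ (n + 5) := mul_nonneg (cc_pos _).le (pow_nonneg hr0 _)
    refine (mul_le_mul_of_nonneg_right (e1 n) (by positivity)).trans ?_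
    rw [abs_one]
    push_cast
    have k3 : 200 * ((n : ℝ) + 2 + 1) ^ 2 * (183 / 25) + 1 * 200 ≤ 2000 * ((n : ℝ) + 2 + 1) ^ 2 := by
      nlinarith
    have k4 : ((n : ℝ) + 2 + 1) ^ 2 ≤ ((n : ℝ) + 5 + 1) ^ 2 := by nlinarith
    nlinarith [mul_le_mul_of_nonneg_left k3 k1, mul_le_mul_of_nonneg_left k3 k2,
      mul_le_mul_of_nonneg_left k4 k2]
  have se : Summable e := summable_of_sum_le e0 e2
  have hs0 : Summable fun n => (ginf (n + 2) + ginf (n + 5)) • H.CL 0 (n + 2) :=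
    L10b_summable' (H.CL 0) (H.norm_CL 0)
  set S := ∑' n, (ginf (n + 2) + ginf (n + 5)) • H.CL 0 (n + 2) with hS
  have hs1 : HasSum (fun n => e n • (H.CL 0 (n + 2) * H.UU)) ((ginf 0)⁻¹ • (S * H.UU)) := by
    have := (hs0.hasSum.mul_right H.UU).const_smul (ginf 0)⁻¹
    simpa only [smul_mul_assoc, smul_smul, he, div_eq_inv_mul] using this
  set c1 := (ginf 0 + ginf 3) / ginf 0 - 81 / 80 with hc1
  set c2 := (ginf 1 + ginf 2) / ginf 0 - 117 / 350 with hc2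
  set c3 := (ginf 1 + ginf 4) / ginf 0 - 153 / 560 with hc3
  have b1 : |c1| ≤ 11 / 10000 := by
    rw [abs_le, hc1, le_sub_iff_add_le, sub_le_iff_le_add, le_div_iff₀ g0, div_le_iff₀ g0]
    constructor <;> nlinarith [ginf_three]
  have b2 : |c2| ≤ 16 / 10000 := by
    rw [abs_le, hc2, le_sub_iff_add_le, sub_le_iff_le_add, le_div_iff₀ g0, div_le_iff₀ g0]
    constructor <;> nlinarith [ginf_one, ginf_two]
  have b3 : |c3| ≤ 27 / 10000 := by
    rw [abs_le, hc3, le_sub_iff_add_le, sub_le_iff_le_add, le_div_iff₀ g0, div_le_iff₀ g0]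
    constructor <;> nlinarith [ginf_one, ginf_four]
  set T : Y0 →L[ℝ] Y0 := c1 • H.UU + c2 • (H.ZR 0 1 * H.UU) + c3 • (H.ZL 0 1 * H.UU)
    + (ginf 0)⁻¹ • (S * H.UU) with hT
  have key : H.Sc 0 * H.UU = ginf 0 • (1 + T) := by
    rw [← L10b_main H, L10b_Sc, ← hS, hT, hc1, hc2, hc3]
    simp only [add_mul, smul_mul_assoc, one_mul]
    match_scalars <;> field_simp <;> ring
  have z1 : L10bQB q (H.ZR 0 1) 3 := fun y => by
    rw [L10b_ZR]
    exact H.q_step (by norm_num) (by norm_num [gam]) (by norm_num) (by norm_num [gam, abs_of_pos])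
      (Or.inr (by norm_num [gam])) hq y
  have z2 : L10bSQ q (H.ZR 0 1) 1 200 := by
    rw [L10b_ZR]
    exact (L10b_sq_step H hq _ (by norm_num [gam, abs_of_pos])).mono (by norm_num)
  have z3 := L10b_qb_ZL H hq 1
  have z4 : L10bSQ q (H.ZL 0 1) 1 400 := by
    rw [L10b_ZL]
    exact (L10b_sq_step H hq _ (by norm_num [gam, abs_of_pos])).mono (by norm_num)
  obtain ⟨M, hM⟩ := renorm (1 / 2) (7 / 10) (4000 + ∑' n,
    e n * (200 * (((n + 2 : ℕ) : ℝ) + 1) ^ 2 * (183 / 25) + |1| * 200)) 2 (by norm_num) (by norm_num)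
  have := hM Y0 (q.comp ext.toLinearMap) T (fun y => ?_) (fun y => ?_) (fun y => ?_)
  · rw [key]; exact ⟨_, this.smul g0.ne'⟩
  · have := hq.1 (ext y)
    rwa [norm_ext_apply] at this
  · change ‖T y‖ ≤ 1 / 2 * ‖y‖ + _ * q (ext y)
    have hy := norm_nonneg y
    have hqy := apply_nonneg q (ext y)
    have t1 := (u2.smul c1).norm_le y
    have t2 := ((z2.mul u2 u1 (by norm_num)).smul c2).norm_le y
    have t3 := ((z4.mul u2 u1 (by norm_num)).smul c3).norm_le y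
    have t4 : ‖((ginf 0)⁻¹ • (S * H.UU)) y‖ ≤ (∑' n, e n) * (50 / 81 * ‖y‖) + (∑' n,
        e n * (200 * (((n + 2 : ℕ) : ℝ) + 1) ^ 2 * (183 / 25) + |1| * 200)) * q (ext y) := by
      refine (hs1.mapL (ContinuousLinearMap.apply ℝ Y0 y)).norm_le_of_bounded
        ((se.hasSum.mul_right _).add (e3.hasSum.mul_right _)) fun n => ?_
      have := ((((L10b_CL H hq (n + 2)).2.mul u2 u1 (by positivity)).smul (e n)).norm_le y)
      rw [abs_mul, abs_of_nonneg (e0 n), one_mul, abs_of_pos (by norm_num : (0 : ℝ) < 50 / 81),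
        mul_assoc] at this
      exact this
    have t5 : ∑' n, e n ≤ 41 / 500 := se.tsum_le_of_sum_le e2
    have t6 := norm_add_le_of_le (norm_add_le_of_le (norm_add_le_of_le t1 t2) t3) t4
    simp only [abs_mul, one_mul, abs_one, abs_of_pos (by norm_num : (0 : ℝ) < 50 / 81)] at t6
    refine le_trans (le_of_eq (by rw [hT]; rfl)) (t6.trans ?_)
    simp only [abs_one]
    nlinarith [mul_le_mul_of_nonneg_right b1 hy, mul_le_mul_of_nonneg_right b2 hy,
      mul_le_mul_of_nonneg_right b3 hy, mul_le_mul_of_nonneg_right b1 hqy,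
      mul_le_mul_of_nonneg_right b2 hqy, mul_le_mul_of_nonneg_right b3 hqy,
      mul_le_mul_of_nonneg_right t5 hy]
  · change q (ext (T y)) ≤ 7 / 10 * q (ext y)
    have hqy := apply_nonneg q (ext y)
    have t1 := u1.smul c1 y
    have t2 := (z1.mul u1 (by norm_num)).smul c2 y
    have t3 := (z3.mul u1 (by norm_num)).smul c3 y
    have t4 : q (ext (((ginf 0)⁻¹ • (S * H.UU)) y)) ≤ 41 / 500 * (183 / 25 * q (ext y)) := by
      refine hq.hasSum_le ((hs1.mapL (ContinuousLinearMap.apply ℝ Y0 y)).mapL ext) fun s => ?_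
      refine le_trans (Finset.sum_le_sum (g := fun n => e n * (183 / 25 * q (ext y)))
        fun n _ => ?_) ?_
      · have := (((L10b_CL H hq (n + 2)).1.mul u1 zero_le_one).smul (e n)) y
        rw [abs_of_nonneg (e0 n), one_mul, mul_assoc] at this
        exact this
      · rw [← Finset.sum_mul]
        exact mul_le_mul_of_nonneg_right (e2 s) (by positivity)
    have t6 : q (ext (T y)) ≤ q (ext ((c1 • H.UU) y)) + q (ext ((c2 • (H.ZR 0 1 * H.UU)) y))
        + q (ext ((c3 • (H.ZL 0 1 * H.UU)) y)) + q (ext (((ginf 0)⁻¹ • (S * H.UU)) y)) := by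
      rw [hT]
      simp only [_root_.add_apply, map_add]
      exact (map_add_le_add q _ _).trans (add_le_add_left ((map_add_le_add q _ _).trans
        (add_le_add_left (map_add_le_add q _ _) _)) _)
    nlinarith [mul_le_mul_of_nonneg_right b1 hqy, mul_le_mul_of_nonneg_right b2 hqy,
      mul_le_mul_of_nonneg_right b3 hqy]

end Pool.Agent.PS
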