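import Pool.Agent.P.MP_6c3c64_gt.L1a

/-! Row L1b. Bounded even solutions of `F'' - tanh F' - m ^ 2 eps h F = eps y`. Take `φ` from
`exists_phi0` with `p = m ^ 2 eps h`; `H s = ∫ r in 0..s, sech φ eps y` (odd),
`G = cosh H / φ ^ 2` (odd), `F x = -φ x * ((∫ s in Ioi 0, G s) - ∫ s in 0..x, G s)`.
For `s ≥ 0`, `|H s| ≤ ‖y‖ / (m ^ 2 c) * sech s * φ' s`, so `|G| ≤ ‖y‖ / (m ^ 2 c) * φ' / φ ^ 2`,
`G` is integrable and `|F| ≤ ‖y‖ / (m ^ 2 c)`. Put `F2 = ext y + m ^ 2 h F`; then
`(sech F')' = sech eps F2`, `F' 0 = 0`; since `F` is bounded the limit of `sech F'` at infinity is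
zero, so `|F' x| ≤ cosh x * ∫ s in Ioi x, sech eps |F2| ≤ 2 eps x ‖F2‖` for `x ≥ 0` (`eps` is
antitone there, `sech s ≤ 2 exp (-s)`, `cosh x ≤ exp x`), and `F1 = F' / eps`. Landau:
`|F' x| ≤ 2 m ‖F‖ + ‖F''‖ / m` by the mean value theorem on `[x, x + 1 / m]`.
-/

set_option autoImplicit false

open Real BoundedContinuousFunction MeasureTheory Set Filter Topology
open scoped NNReal ENNReal

noncomputable section

namespace Pool.Agent.PS

theorem L1b_int_neg (f : ℝ → ℝ) (s : ℝ) :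
    ∫ x in (0 : ℝ)..(-s), f x = -∫ x in (0 : ℝ)..s, f (-x) := by
  rw [intervalIntegral.integral_comp_neg, neg_zero, intervalIntegral.integral_symm]

/-- the data of the homogeneous solution -/
structure L1b_Hyp (φ ψ p : ℝ → ℝ) (κ : ℝ) : Prop where
  d1 : ∀ x, HasDerivAt φ (cosh x * ψ x) x
  d2 : ∀ x, HasDerivAt ψ (sech x * p x * φ x) x
  z : ψ 0 = 0
  even : ∀ x, φ (-x) = φ x
  one_le : ∀ x, 1 ≤ φ x
  cont : Continuous p
  pos : 0 < κ
  le : ∀ x, κ * eps x ≤ p x

def L1b_H (φ : ℝ → ℝ) (y : Y0) (s : ℝ) : ℝ := ∫ r in (0 : ℝ)..s, sech r * φ r * eps r * ext y r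
def L1b_G (φ : ℝ → ℝ) (y : Y0) (s : ℝ) : ℝ := cosh s * L1b_H φ y s / φ s ^ 2
def L1b_T (φ : ℝ → ℝ) (y : Y0) (x : ℝ) : ℝ :=
  (∫ s in Ioi (0 : ℝ), L1b_G φ y s) - ∫ s in (0 : ℝ)..x, L1b_G φ y s

namespace L1b_Hyp

variable {φ ψ p : ℝ → ℝ} {κ : ℝ} (h : L1b_Hyp φ ψ p κ)
include h

theorem cφ : Continuous φ := continuous_iff_continuousAt.2 fun x => (h.d1 x).continuousAt
theorem cψ : Continuous ψ := continuous_iff_continuousAt.2 fun x => (h.d2 x).continuousAt
theorem φpos (x : ℝ) : 0 < φ x := one_pos.trans_le (h.one_le x)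

theorem cI (y : Y0) : Continuous fun r => sech r * φ r * eps r * ext y r :=
  ((continuous_sech.mul h.cφ).mul continuous_eps).mul (ext y).continuous

theorem dH (y : Y0) (s : ℝ) : HasDerivAt (L1b_H φ y) (sech s * φ s * eps s * ext y s) s :=
  ((h.cI y).integral_hasStrictDerivAt 0 s).hasDerivAt

theorem cG (y : Y0) : Continuous (L1b_G φ y) :=
  (continuous_cosh.mul (continuous_iff_continuousAt.2 fun x => (h.dH y x).continuousAt)).div
    (h.cφ.pow 2) fun x => (pow_pos (h.φpos x) 2).ne'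

theorem dT (y : Y0) (x : ℝ) : HasDerivAt (L1b_T φ y) (-L1b_G φ y x) x :=
  ((h.cG y).integral_hasStrictDerivAt 0 x).hasDerivAt.const_sub _

theorem T_neg (y : Y0) (x : ℝ) : L1b_T φ y (-x) = L1b_T φ y x := by
  have hH : ∀ s, L1b_H φ y (-s) = -L1b_H φ y s := fun s => by
    simp only [L1b_H, L1b_int_neg, sech_neg, h.even, eps_neg, ext_neg]
  have hG : ∀ s, L1b_G φ y (-s) = -L1b_G φ y s := fun s => by
    simp only [L1b_G, hH, cosh_neg, h.even, mul_neg, neg_div]
  simp only [L1b_T, L1b_int_neg, hG, intervalIntegral.integral_neg, neg_neg]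

theorem abs_H (y : Y0) {s : ℝ} (hs : 0 ≤ s) : |L1b_H φ y s| ≤ ‖y‖ / κ * ψ s := by
  have hc : Continuous fun r => sech r * p r * φ r := (continuous_sech.mul h.cont).mul h.cφ
  have e : ∫ r in (0 : ℝ)..s, sech r * p r * φ r = ψ s - ψ 0 :=
    intervalIntegral.integral_eq_sub_of_hasDerivAt (fun r _ => h.d2 r) (hc.intervalIntegrable _ _)
  rw [h.z, sub_zero] at e
  rw [← e, ← intervalIntegral.integral_const_mul]
  refine (intervalIntegral.abs_integral_le_integral_abs hs).trans ?_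
  refine intervalIntegral.integral_mono_on hs ((h.cI y).abs.intervalIntegrable _ _)
    ((continuous_const.mul hc).intervalIntegrable _ _) fun r _ => ?_
  have h1 : 0 < sech r * φ r := mul_pos (sech_pos r) (h.φpos r)
  have h2 : |ext y r| ≤ ‖y‖ := (abs_le_norm _ r).trans (norm_ext_apply y).le
  have h3 : eps r ≤ p r / κ := by
    rw [le_div_iff₀ h.pos, mul_comm]
    exact h.le r
  rw [abs_mul, abs_of_pos (mul_pos h1 (eps_pos r))]
  calc sech r * φ r * eps r * |ext y r| ≤ sech r * φ r * (p r / κ) * ‖y‖ :=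
        mul_le_mul (mul_le_mul_of_nonneg_left h3 h1.le) h2 (abs_nonneg _)
          (mul_nonneg h1.le ((eps_pos r).le.trans h3))
    _ = _ := by ring

theorem int_abs_G (y : Y0) {a b : ℝ} (ha : 0 ≤ a) (hab : a ≤ b) :
    ∫ s in a..b, |L1b_G φ y s| ≤ ‖y‖ / κ / φ a := by
  have hK : 0 ≤ ‖y‖ / κ := div_nonneg (norm_nonneg _) h.pos.le
  have hc : Continuous fun s => ‖y‖ / κ * (cosh s * ψ s / φ s ^ 2) :=
    continuous_const.mul ((continuous_cosh.mul h.cψ).div (h.cφ.pow 2)
      fun x => (pow_pos (h.φpos x) 2).ne')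
  have e : ∫ s in a..b, ‖y‖ / κ * (cosh s * ψ s / φ s ^ 2) =
      -(‖y‖ / κ) * (φ b)⁻¹ - -(‖y‖ / κ) * (φ a)⁻¹ := by
    refine intervalIntegral.integral_eq_sub_of_hasDerivAt (f := fun s => -(‖y‖ / κ) * (φ s)⁻¹)
      (fun s _ => ?_) (hc.intervalIntegrable _ _)
    refine HasDerivAt.congr_deriv (f := fun s => -(‖y‖ / κ) * (φ s)⁻¹)
      (((h.d1 s).inv (h.φpos s).ne').const_mul (-(‖y‖ / κ))) ?_
    ring
  have h1 : ∫ s in a..b, |L1b_G φ y s| ≤ ∫ s in a..b, ‖y‖ / κ * (cosh s * ψ s / φ s ^ 2) := by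
    refine intervalIntegral.integral_mono_on hab ((h.cG y).abs.intervalIntegrable _ _)
      (hc.intervalIntegrable _ _) fun s hs => ?_
    have h2 := h.abs_H y (ha.trans hs.1)
    have h3 := pow_pos (h.φpos s) 2
    rw [L1b_G, abs_div, abs_mul, abs_of_pos (cosh_pos s), abs_of_pos h3, ← mul_div_assoc,
      mul_left_comm]
    exact div_le_div_of_nonneg_right (mul_le_mul_of_nonneg_left h2 (cosh_pos s).le) h3.le
  have h4 : 0 ≤ ‖y‖ / κ * (φ b)⁻¹ := mul_nonneg hK (inv_pos.2 (h.φpos b)).le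
  rw [div_eq_mul_inv (‖y‖ / κ)]
  linarith

theorem integrableOn_G (y : Y0) : IntegrableOn (L1b_G φ y) (Ioi 0) :=
  integrableOn_Ioi_of_intervalIntegral_norm_bounded (‖y‖ / κ / φ 0) 0
    (fun b => (h.cG y).integrableOn_Ioc (a := 0) (b := b)) tendsto_id
    ((eventually_ge_atTop 0).mono fun _ hb => h.int_abs_G y le_rfl hb)

theorem abs_T (y : Y0) (x : ℝ) : |L1b_T φ y x| ≤ ‖y‖ / κ / φ x := by
  wlog hx : 0 ≤ x generalizing x
  · have := this (-x) (by linarith)
    rwa [h.T_neg, h.even] at this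
  have h1 : Tendsto (fun b => |(∫ s in (0 : ℝ)..b, L1b_G φ y s) - ∫ s in (0 : ℝ)..x, L1b_G φ y s|)
      atTop (𝓝 |L1b_T φ y x|) :=
    ((intervalIntegral_tendsto_integral_Ioi 0 (h.integrableOn_G y) tendsto_id).sub_const _).abs
  refine le_of_tendsto h1 ((eventually_ge_atTop x).mono fun b hb => ?_)
  rw [intervalIntegral.integral_interval_sub_left ((h.cG y).intervalIntegrable _ _)
    ((h.cG y).intervalIntegrable _ _)]
  exact (intervalIntegral.abs_integral_le_integral_abs hb).trans (h.int_abs_G y hx hb)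

theorem abs_F (y : Y0) (x : ℝ) : |-φ x * L1b_T φ y x| ≤ κ⁻¹ * ‖y‖ := by
  rw [abs_mul, abs_neg, abs_of_pos (h.φpos x)]
  have := h.abs_T y x
  rw [le_div_iff₀ (h.φpos x), div_eq_inv_mul] at this
  linarith

theorem T_add (y y' : Y0) (x : ℝ) : L1b_T φ (y + y') x = L1b_T φ y x + L1b_T φ y' x := by
  have hH : ∀ s, L1b_H φ (y + y') s = L1b_H φ y s + L1b_H φ y' s := fun s => by
    simp only [L1b_H, map_add, BoundedContinuousFunction.add_apply, mul_add]
    exact intervalIntegral.integral_add ((h.cI y).intervalIntegrable _ _)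
      ((h.cI y').intervalIntegrable _ _)
  have hG : ∀ s, L1b_G φ (y + y') s = L1b_G φ y s + L1b_G φ y' s := fun s => by
    simp only [L1b_G, hH, mul_add, add_div]
  simp only [L1b_T, hG]
  rw [integral_add (h.integrableOn_G y) (h.integrableOn_G y'), intervalIntegral.integral_add
    ((h.cG y).intervalIntegrable _ _) ((h.cG y').intervalIntegrable _ _)]
  ring

omit h in
theorem T_smul (a : ℝ) (y : Y0) (x : ℝ) : L1b_T φ (a • y) x = a * L1b_T φ y x := by
  have hH : ∀ s, L1b_H φ (a • y) s = a * L1b_H φ y s := fun s => by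
    simp only [L1b_H, map_smul, BoundedContinuousFunction.smul_apply, smul_eq_mul]
    rw [← intervalIntegral.integral_const_mul]
    congr 1
    funext r
    ring
  have hG : ∀ s, L1b_G φ (a • y) s = a * L1b_G φ y s := fun s => by
    simp only [L1b_G, hH]
    ring
  simp only [L1b_T, hG]
  rw [integral_const_mul, intervalIntegral.integral_const_mul]
  ring

theorem exists_F : ∃ (F : Y0 →L[ℝ] E0) (U : Y0 → ℝ → ℝ),
    (∀ y x, HasDerivAt (F y) (cosh x * U y x) x) ∧
    (∀ y x, HasDerivAt (U y) (sech x * (eps x * ext y x + p x * F y x)) x) ∧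
    (∀ y x, F y (-x) = F y x) ∧ ∀ y, ‖F y‖ ≤ κ⁻¹ * ‖y‖ := by
  have dF : ∀ y x, HasDerivAt (fun x => -φ x * L1b_T φ y x)
      (cosh x * (-ψ x * L1b_T φ y x + L1b_H φ y x / φ x)) x := fun y x => by
    refine HasDerivAt.congr_deriv (f := fun x => -φ x * L1b_T φ y x)
      ((h.d1 x).neg.mul (h.dT y x)) ?_
    have := (h.φpos x).ne'
    simp only [L1b_G, Pi.neg_apply]
    field_simp
  refine ⟨LinearMap.mkContinuous
    { toFun := fun y => mkB (fun x => -φ x * L1b_T φ y x)
        (continuous_iff_continuousAt.2 fun x => (dF y x).continuousAt) _ (h.abs_F y)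
      map_add' := fun y y' => by
        ext x
        simp only [mkB_apply, BoundedContinuousFunction.add_apply, h.T_add, mul_add]
      map_smul' := fun a y => by
        ext x
        simp only [mkB_apply, BoundedContinuousFunction.smul_apply, smul_eq_mul, RingHom.id_apply,
          T_smul]
        ring } κ⁻¹ fun y => norm_le_of_abs (h.abs_F y),
    fun y x => -ψ x * L1b_T φ y x + L1b_H φ y x / φ x, dF, fun y x => ?_, fun y x => ?_,
    fun y => norm_le_of_abs (h.abs_F y)⟩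
  · refine HasDerivAt.congr_deriv (f := fun x => -ψ x * L1b_T φ y x + L1b_H φ y x / φ x)
      (((h.d2 x).neg.mul (h.dT y x)).add ((h.dH y x).div (h.d1 x) (h.φpos x).ne')) ?_
    have := (h.φpos x).ne'
    show _ = sech x * (eps x * ext y x + p x * (-φ x * L1b_T φ y x))
    simp only [L1b_G, Pi.neg_apply]
    field_simp
    ring
  · show -φ (-x) * L1b_T φ y (-x) = -φ x * L1b_T φ y x
    rw [h.even, h.T_neg]

end L1b_Hyp

theorem L1b_decay {F U u : ℝ → ℝ} {K B : ℝ} (hF : ∀ s, HasDerivAt F (cosh s * U s) s)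
    (hU : ∀ s, HasDerivAt U (u s) s) (hu : ∀ s, |u s| ≤ sech s * eps s * B)
    (hK : ∀ s, |F s| ≤ K) {x : ℝ} (hx : 0 ≤ x) : U x ≤ 2 * B * eps x * exp (-x) := by
  by_contra hn
  obtain ⟨δ, hδ⟩ : ∃ δ, δ = U x - 2 * B * eps x * exp (-x) := ⟨_, rfl⟩
  have hδ0 : 0 < δ := by linarith
  have hB : 0 ≤ B := by
    have := (abs_nonneg _).trans (hu 0)
    exact nonneg_of_mul_nonneg_right this (mul_pos (sech_pos 0) (eps_pos 0))
  have hV : ∀ s, HasDerivAt (fun s => U s - 2 * B * eps x * exp (-s))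
      (u s + 2 * B * eps x * exp (-s)) s := fun s => by
    refine HasDerivAt.congr_deriv (f := fun s => U s - 2 * B * eps x * exp (-s))
      ((hU s).sub (((hasDerivAt_neg s).exp).const_mul (2 * B * eps x))) ?_
    ring
  have hmono : MonotoneOn (fun s => U s - 2 * B * eps x * exp (-s)) (Ici x) := by
    refine monotoneOn_of_deriv_nonneg (convex_Ici x)
      (fun s _ => (hV s).continuousAt.continuousWithinAt)
      (fun s _ => (hV s).differentiableAt.differentiableWithinAt) fun s hs => ?_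
    rw [(hV s).deriv]
    have hs' : x ≤ s := interior_subset hs
    have h1 : eps s ≤ eps x := by
      refine rpow_le_rpow_of_nonpos (cosh_pos x) ?_ (by linarith [gam_pos])
      rw [cosh_le_cosh, abs_of_nonneg hx, abs_of_nonneg (hx.trans hs')]
      exact hs'
    have h2 : sech s ≤ 2 * exp (-s) := by
      rw [sech, inv_le_iff_one_le_mul₀ (cosh_pos s), cosh_eq]
      have e : exp (-s) * exp s = 1 := by rw [← exp_add]; simp
      nlinarith [exp_pos (-s)]
    have h3 : sech s * eps s * B ≤ 2 * exp (-s) * eps x * B :=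
      mul_le_mul_of_nonneg_right (mul_le_mul h2 h1 (eps_pos s).le (by positivity)) hB
    linarith [(abs_le.1 (hu s)).1]
  have hUδ : ∀ s, x ≤ s → δ ≤ cosh s * U s := fun s hs => by
    have h1 := hmono (mem_Ici.2 le_rfl) (mem_Ici.2 hs) hs
    have h2 : 0 ≤ 2 * B * eps x * exp (-s) := by
      have := eps_pos x
      positivity
    have h3 : δ ≤ U s := by
      simp only at h1
      linarith
    nlinarith [one_le_cosh s]
  have hK0 : 0 ≤ K := (abs_nonneg _).trans (hK 0)
  have hlt : x < x + (2 * K + 1) / δ := lt_add_of_pos_right _ (by positivity)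
  obtain ⟨ξ, hξ, e⟩ := exists_hasDerivAt_eq_slope F (fun s => cosh s * U s) hlt
    (fun s _ => (hF s).continuousAt.continuousWithinAt) fun s _ => hF s
  have h4 := hUδ ξ hξ.1.le
  rw [e, add_sub_cancel_left, le_div_iff₀ (by positivity), mul_div_cancel₀ _ hδ0.ne'] at h4
  linarith [(abs_le.1 (hK x)).1, (abs_le.1 (hK (x + (2 * K + 1) / δ))).2]

theorem L1b_bound {F U u : ℝ → ℝ} {K B : ℝ} (hF : ∀ s, HasDerivAt F (cosh s * U s) s)
    (hU : ∀ s, HasDerivAt U (u s) s) (hu : ∀ s, |u s| ≤ sech s * eps s * B)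
    (hK : ∀ s, |F s| ≤ K) (he : ∀ s, F (-s) = F s) (x : ℝ) : |cosh x * U x| ≤ 2 * B * eps x := by
  wlog hx : 0 ≤ x generalizing x
  · have h1 := this (-x) (by linarith)
    have h2 : HasDerivAt (fun s => F (-s)) (cosh (-x) * U (-x) * -1) x :=
      HasDerivAt.comp x (hF (-x)) (hasDerivAt_neg x)
    simp only [he] at h2
    rw [(hF x).unique h2, mul_neg_one, abs_neg]
    rwa [eps_neg] at h1
  have h1 := L1b_decay hF hU hu hK hx
  have h2 := L1b_decay (F := fun s => -F s) (U := fun s => -U s) (u := fun s => -u s) (K := K)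
    (B := B) (fun s => by rw [mul_neg]; exact (hF s).neg) (fun s => (hU s).neg)
    (fun s => by rw [abs_neg]; exact hu s) (fun s => by rw [abs_neg]; exact hK s) hx
  have h3 : |U x| ≤ 2 * B * eps x * exp (-x) := abs_le.2 ⟨by linarith, h1⟩
  have h4 : cosh x ≤ exp x := by
    rw [cosh_eq]
    have : exp (-x) ≤ exp x := exp_le_exp.2 (by linarith)
    linarith
  have e : exp x * exp (-x) = 1 := by rw [← exp_add]; simp
  rw [abs_mul, abs_of_pos (cosh_pos x)]
  calc cosh x * |U x| ≤ exp x * (2 * B * eps x * exp (-x)) :=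
        mul_le_mul h4 h3 (abs_nonneg _) (exp_pos x).le
    _ = 2 * B * eps x * (exp x * exp (-x)) := by ring
    _ = _ := by rw [e, mul_one]

theorem L1b_landau {F D D' : ℝ → ℝ} {K B m : ℝ} (hm : 0 < m) (hF : ∀ s, HasDerivAt F (D s) s)
    (hD : ∀ s, HasDerivAt D (D' s) s) (hK : ∀ s, |F s| ≤ K) (hB : ∀ s, |D' s| ≤ B) (x : ℝ) :
    m * |D x| ≤ 2 * (m ^ 2 * K) + B := by
  have hlt : x < x + m⁻¹ := lt_add_of_pos_right _ (inv_pos.2 hm)
  obtain ⟨ξ, hξ, e⟩ := exists_hasDerivAt_eq_slope F D hlt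
    (fun s _ => (hF s).continuousAt.continuousWithinAt) fun s _ => hF s
  obtain ⟨η, -, e'⟩ := exists_hasDerivAt_eq_slope D D' hξ.1
    (fun s _ => (hD s).continuousAt.continuousWithinAt) fun s _ => hD s
  have h0 : 0 < ξ - x := sub_pos.2 hξ.1
  rw [add_sub_cancel_left, div_inv_eq_mul] at e
  rw [eq_div_iff h0.ne'] at e'
  have h1 : |D ξ| ≤ 2 * K * m := by
    rw [e, abs_mul, abs_of_pos hm]
    refine mul_le_mul_of_nonneg_right ((abs_sub _ _).trans ?_) hm.le
    linarith [hK x, hK (x + m⁻¹)]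
  have h2 : |D ξ - D x| ≤ B * m⁻¹ := by
    rw [← e', abs_mul, abs_of_pos h0]
    exact mul_le_mul (hB η) (by linarith [hξ.2]) h0.le ((abs_nonneg _).trans (hB η))
  have h3 : |D x| ≤ 2 * K * m + B * m⁻¹ := by
    have := abs_sub_abs_le_abs_sub (D x) (D ξ)
    rw [abs_sub_comm] at this
    linarith
  calc m * |D x| ≤ m * (2 * K * m + B * m⁻¹) := mul_le_mul_of_nonneg_left h3 hm.le
    _ = _ := by field_simp

theorem exists_Rm (h : E0) (c : ℝ) (hc : 0 < c) (h1 : ∀ x, c ≤ h x) (he : ∀ x, h (-x) = h x) :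
    ∃ C : ℝ, ∀ m : ℝ, 1 ≤ m → ∃ F F1 F2 : Y0 →L[ℝ] E0, IsJet F F1 F2 ∧
      (∀ y, F2 y - m ^ 2 • (h * F y) = ext y) ∧
      ∀ y, m ^ 2 * ‖F y‖ + m * ‖epsB * F1 y‖ + ‖F1 y‖ + ‖F2 y‖ ≤ C * ‖y‖ := by
  refine ⟨3 * c⁻¹ + 6 * (1 + ‖h‖ * c⁻¹), fun m hm => ?_⟩
  have hm0 : 0 < m := one_pos.trans_le hm
  obtain ⟨φ, φ', d1, d2, hz, hev, h1φ, -⟩ := exists_phi0 (m ^ 2 • (epsB * h))
    (fun x => by
      have := eps_pos x
      have := hc.trans_le (h1 x)
      show 0 ≤ m ^ 2 * (eps x * h x)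
      positivity)
    (fun x => by
      show m ^ 2 * (eps (-x) * h (-x)) = m ^ 2 * (eps x * h x)
      rw [eps_neg, he])
  have H : L1b_Hyp φ (fun x => sech x * φ' x) (fun x => m ^ 2 * (eps x * h x)) (m ^ 2 * c) :=
    ⟨fun x => by
      rw [← mul_assoc, mul_comm (cosh x), sech_mul_cosh, one_mul]
      exact d1 x, d2, by simp [hz], hev, h1φ,
      continuous_const.mul (continuous_eps.mul h.continuous), by positivity, fun x => by
      have := mul_le_mul_of_nonneg_left (h1 x) (eps_pos x).le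
      nlinarith [pow_pos hm0 2]⟩
  obtain ⟨F, U, dF, dU, hFe, hFn⟩ := H.exists_F
  obtain ⟨F2, hF2⟩ : ∃ F2 : Y0 →L[ℝ] E0, ∀ y, F2 y = ext y + m ^ 2 • (h * F y) :=
    ⟨ext + m ^ 2 • (mulL h ∘L F), fun y => rfl⟩
  have hF2x : ∀ y x, F2 y x = ext y x + m ^ 2 * (h x * F y x) := fun y x => by rw [hF2]; rfl
  have hFm : ∀ y, m ^ 2 * ‖F y‖ ≤ c⁻¹ * ‖y‖ := fun y => by
    refine (mul_le_mul_of_nonneg_left (hFn y) (by positivity)).trans (le_of_eq ?_)
    field_simp
  have hF2n : ∀ y, ‖F2 y‖ ≤ (1 + ‖h‖ * c⁻¹) * ‖y‖ := fun y => by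
    rw [hF2]
    refine (norm_add_le _ _).trans ?_
    rw [norm_ext_apply, norm_smul, Real.norm_of_nonneg (by positivity)]
    have h2 := mul_le_mul_of_nonneg_left (norm_mul_le h (F y)) (by positivity : 0 ≤ m ^ 2)
    have h3 := mul_le_mul_of_nonneg_left (hFm y) (norm_nonneg h)
    nlinarith
  have dU' : ∀ y x, HasDerivAt (U y) (sech x * eps x * F2 y x) x := fun y x => by
    refine (dU y x).congr_deriv ?_
    rw [hF2x]
    ring
  have hD : ∀ y x, |cosh x * U y x| ≤ 2 * ‖F2 y‖ * eps x := fun y =>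
    L1b_bound (dF y) (dU' y) (fun s => by
      have := mul_pos (sech_pos s) (eps_pos s)
      rw [abs_mul, abs_of_pos this]
      exact mul_le_mul_of_nonneg_left (abs_le_norm _ s) this.le) (abs_le_norm (F y)) (hFe y)
  have hD1 : ∀ y x, |cosh x * U y x / eps x| ≤ 2 * ‖F2 y‖ := fun y x => by
    rw [abs_div, abs_of_pos (eps_pos x), div_le_iff₀ (eps_pos x)]
    exact hD y x
  have cU : ∀ y, Continuous fun x => cosh x * U y x / eps x := fun y =>
    (continuous_cosh.mul (continuous_iff_continuousAt.2 fun x => (dU y x).continuousAt)).div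
      continuous_eps fun x => (eps_pos x).ne'
  obtain ⟨F1, hF1⟩ : ∃ F1 : Y0 →L[ℝ] E0, ∀ y x, F1 y x = cosh x * U y x / eps x :=
    ⟨LinearMap.mkContinuous
      { toFun := fun y => mkB _ (cU y) _ (hD1 y)
        map_add' := fun y y' => by
          ext x
          have h2 := dF (y + y') x
          rw [map_add, BoundedContinuousFunction.coe_add] at h2
          simp only [mkB_apply, BoundedContinuousFunction.add_apply]
          rw [h2.unique ((dF y x).add (dF y' x)), add_div]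
        map_smul' := fun a y => by
          ext x
          have h2 := dF (a • y) x
          have h3 : HasDerivAt (F (a • y)) (a * (cosh x * U y x)) x := by
            rw [map_smul]
            exact (dF y x).const_mul a
          simp only [mkB_apply, BoundedContinuousFunction.smul_apply, smul_eq_mul,
            RingHom.id_apply]
          rw [h2.unique h3, mul_div_assoc] } (2 * (1 + ‖h‖ * c⁻¹)) fun y =>
        (norm_le_of_abs (hD1 y)).trans (by linarith [hF2n y]), fun y x => rfl⟩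
  have hF1' : ∀ y x, eps x * F1 y x = cosh x * U y x := fun y x => by
    rw [hF1, mul_div_cancel₀ _ (eps_pos x).ne']
  have hF1n : ∀ y, ‖F1 y‖ ≤ 2 * ‖F2 y‖ := fun y => norm_le_of_abs fun x => by
    rw [hF1]
    exact hD1 y x
  have dD : ∀ y x, HasDerivAt (fun x => eps x * F1 y x)
      (eps x * (F2 y x + tanh x * F1 y x)) x := fun y x => by
    simp only [hF1']
    refine HasDerivAt.congr_deriv (f := fun x => cosh x * U y x)
      ((hasDerivAt_cosh x).mul (dU' y x)) ?_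
    have e := sech_mul_cosh x
    rw [mul_add, mul_left_comm (eps x) (tanh x), hF1', tanh_eq]
    linear_combination (eps x * F2 y x - sinh x * U y x) * e
  refine ⟨F, F1, F2, ⟨fun y x => by rw [hF1']; exact dF y x, dD, hFe⟩,
    fun y => by rw [hF2, add_sub_cancel_right], fun y => ?_⟩
  have hL := L1b_landau (B := 3 * ‖F2 y‖) hm0 (fun x => by rw [hF1']; exact dF y x) (dD y)
    (abs_le_norm (F y)) fun s => by
      have h2 : |F2 y s + tanh s * F1 y s| ≤ 3 * ‖F2 y‖ := by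
        refine (abs_add_le _ _).trans ?_
        rw [abs_mul]
        have h3 := mul_le_mul (abs_tanh_le_one s) (abs_le_norm (F1 y) s) (abs_nonneg _) zero_le_one
        linarith [abs_le_norm (F2 y) s, hF1n y]
      rw [abs_mul, abs_of_pos (eps_pos s)]
      have h4 := mul_le_mul (eps_le_one s) h2 (abs_nonneg _) zero_le_one
      linarith
  have hL' : ‖epsB * F1 y‖ ≤ (2 * (m ^ 2 * ‖F y‖) + 3 * ‖F2 y‖) / m := norm_le_of_abs fun x => by
    rw [le_div_iff₀ hm0, mul_comm]
    exact hL x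
  rw [le_div_iff₀ hm0] at hL'
  linarith [hFm y, hF2n y, hF1n y]

end Pool.Agent.PS
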