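import Pool.Agent.P.MP_6c3c64_gt.A0
import Pool.Agent.P.MP_6c3c64_gt.A4
import Pool.Agent.P.MP_6c3c64_gt.K4
import Pool.Agent.P.MP_6c3c64_gt.L0b
import Pool.Agent.P.MP_6c3c64_gt.L5c

/-! Row L7. Uniform invertibility of the principal part at large frequency. Given `η`, choose `n1`
with tail `∑_{n > n1} 2 C (107 / 20) ^ n ‖g n‖ ≤ η` (`norm_che`, `summable_g`). The truncated
operator is `(1 + T) * mulY (res (g 0))`,
`T = ∑_{1 ≤ n ≤ n1} res (1 + refl) che j n (mulL (κ n)) ext`, `κ n = g n / g 0`,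
`|κ n| ≤ cc n (23 / 125) ^ n`. Apply `renorm` with the seminorm `y ↦ q (ext y)`, `IsQ univ σ q`,
`σ = m / 100`, noting `ext (res ((1 + refl) f)) = (1 + refl) f`. For `m ≥ m0 (n1)` and `i ≤ n1`,
`α = alpB m i + gam • tanhB`, `β = alpB m (i - 1) - gam • tanhB` lie in `m [1 - δ, 1 + δ]` with
derivatives at most `δ m` in absolute value, so `energy_line` applies with `B = 103 / 100`, and
`supq_line` with `a = m / 2` gives `‖(Zst - 1) c‖ ≤ 3 m * 15 / m * q c = 45 q c`. By induction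
`q (che n c) ≤ B ^ n q c`, `‖(che n - 1) c‖ ≤ 45 n B ^ n q c`. Since `23 / 125 * B ≤ 19 / 100`,
`sum_cc_a` gives `κ = ϱ = 3 / 4`, and `summable_cc_poly` gives `C` independent of `n1` and `m`.
-/

set_option autoImplicit false

open Real BoundedContinuousFunction MeasureTheory Set Filter Topology
open scoped NNReal ENNReal

noncomputable section

namespace Pool.Agent.PS

theorem L7_ineq {m a b da db : ℝ} (hm : 1 ≤ m) (ha : |a - m| ≤ m / 1000) (hb : |b - m| ≤ m / 1000)
    (hda : |da| ≤ m / 1000) (hdb : |db| ≤ m / 1000) :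
    m / 100 * |(103 / 100 : ℝ) ^ 2 * a + b| ≤
      (103 / 100 : ℝ) ^ 2 * a ^ 2 - b ^ 2 + ((103 / 100 : ℝ) ^ 2 * da + db) := by
  obtain ⟨a1, a2⟩ := abs_le.1 ha
  obtain ⟨b1, b2⟩ := abs_le.1 hb
  obtain ⟨c1, -⟩ := abs_le.1 hda
  obtain ⟨d1, -⟩ := abs_le.1 hdb
  have h1 : (999 / 1000 * m) ^ 2 ≤ a ^ 2 := pow_le_pow_left₀ (by linarith) (by linarith) 2
  have h2 : b ^ 2 ≤ (1001 / 1000 * m) ^ 2 := pow_le_pow_left₀ (by linarith) (by linarith) 2
  have h3 : |(103 / 100 : ℝ) ^ 2 * a + b| ≤ 3 * m := abs_le.2 ⟨by linarith, by linarith⟩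
  have h4 := mul_le_mul_of_nonneg_left h3 (show 0 ≤ m / 100 by linarith)
  have h5 : m ≤ m ^ 2 := by nlinarith
  nlinarith

theorem L7_abs {k K t : ℝ} (h0 : 0 ≤ k) (hk : k ≤ K) (ht : |t| ≤ 1) : |k * t| ≤ K := by
  rw [abs_mul, abs_of_nonneg h0]
  exact (mul_le_of_le_one_right h0 ht).trans hk

theorem L7_step {m i : ℝ} (hm : 1 ≤ m) (hi : 1 ≤ i) (him : 2000 * i ≤ m) {R : E0 →L[ℝ] E0}
    (hR : IsRes (alpB m i + gam • tanhB) R) {q : Seminorm ℝ E0} (hq : IsQ univ (m / 100) q)
    (c : E0) : q (Zst R m i c) ≤ 103 / 100 * q c ∧ ‖Zst R m i c - c‖ ≤ 45 * q c := by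
  have hσ : 0 < m / 100 := by linarith
  have hg : gam = 1 / 100 := rfl
  have hq0 : 0 ≤ q c := apply_nonneg q c
  have eZ : Zst R m i c = c + abB m i * R c := rfl
  have eα : ∀ x, (alpB m i + gam • tanhB : E0) x = m - (2 * i - gam) * tanh x := fun x => by
    simp only [BoundedContinuousFunction.add_apply, BoundedContinuousFunction.smul_apply,
      alpB_apply, tanhB_apply, smul_eq_mul]
    ring
  have eβ : ∀ x, (alpB m (i - 1) - gam • tanhB : E0) x = m - (2 * i - 2 + gam) * tanh x :=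
    fun x => by
      simp only [BoundedContinuousFunction.sub_apply, BoundedContinuousFunction.smul_apply,
        alpB_apply, tanhB_apply, smul_eq_mul]
      ring
  have es : ∀ x, |sech x ^ 2| ≤ 1 := fun x => by
    rw [abs_of_nonneg (sq_nonneg _)]
    exact pow_le_one₀ (sech_pos x).le (sech_le_one x)
  have k1 : 0 ≤ 2 * i - gam ∧ 2 * i - gam ≤ m / 1000 := ⟨by linarith, by linarith⟩
  have k2 : 0 ≤ 2 * i - 2 + gam ∧ 2 * i - 2 + gam ≤ m / 1000 := ⟨by linarith, by linarith⟩
  have ed : ∀ (k x : ℝ), ((-k) • (sechB * sechB) : E0) x = -(k * sech x ^ 2) := fun k x => by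
    simp only [BoundedContinuousFunction.smul_apply, BoundedContinuousFunction.mul_apply,
      sechB_apply, smul_eq_mul]
    ring
  constructor
  · refine hq.2.2 _ _ (by positivity) fun x0 => ?_
    have h := energy_line hσ (alpB m i + gam • tanhB) (alpB m (i - 1) - gam • tanhB)
      ((-(2 * i - gam)) • (sechB * sechB)) ((-(2 * i - 2 + gam)) • (sechB * sechB)) (R c) c
      (B := 103 / 100) (by norm_num)
      (fun x => by
        rw [ed, funext eα]
        exact ((hasDerivAt_tanh' x).const_mul _).const_sub m)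
      (fun x => by
        rw [ed, funext eβ]
        exact ((hasDerivAt_tanh' x).const_mul _).const_sub m)
      (hR c)
      (fun x => by
        rw [ed, ed, eα, eβ]
        refine L7_ineq hm ?_ ?_ ?_ ?_
        · rw [sub_sub_cancel_left, abs_neg]
          exact L7_abs k1.1 k1.2 (abs_tanh_le_one x)
        · rw [sub_sub_cancel_left, abs_neg]
          exact L7_abs k2.1 k2.2 (abs_tanh_le_one x)
        · rw [abs_neg]
          exact L7_abs k1.1 k1.2 (es x)
        · rw [abs_neg]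
          exact L7_abs k2.1 k2.2 (es x)) x0
    have e : alpB m i + gam • tanhB + (alpB m (i - 1) - gam • tanhB) = abB m i := by
      rw [abB]; abel
    rw [e] at h
    rw [eZ, mul_pow]
    exact h.trans (mul_le_mul_of_nonneg_left (hq.2.1 c x0) (by positivity))
  · rw [eZ, add_sub_cancel_left]
    refine norm_le_of_abs fun x => ?_
    have h := supq_line hσ (a := m / 2) (by linarith) _ (R c) c (fun x => by
      rw [eα]
      have := (abs_le.1 (L7_abs k1.1 k1.2 (abs_tanh_le_one x))).2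
      linarith) (hR c) x
    have h1 : (m * R c x) ^ 2 ≤ (15 * q c) ^ 2 := by
      rw [le_div_iff₀ (by positivity)] at h
      have := hq.2.1 c x
      nlinarith [sq_nonneg (q c)]
    have h2 : m * |R c x| ≤ 15 * q c := by
      have h3 := abs_le_of_sq_le_sq h1 (by positivity)
      rwa [abs_mul, abs_of_nonneg (by linarith : 0 ≤ m)] at h3
    have h3 : |abB m i x| ≤ 3 * m := by
      rw [abB_apply]
      have := abs_le.1 (L7_abs (k := 4 * i - 2) (K := m) (by linarith) (by linarith)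
        (abs_tanh_le_one x))
      exact abs_le.2 ⟨by linarith, by linarith⟩
    rw [BoundedContinuousFunction.mul_apply, abs_mul]
    have := mul_le_mul_of_nonneg_right h3 (abs_nonneg (R c x))
    linarith

theorem L7_chain (Z : ChainData) {j n1 : ℕ} (hj : 2000 * n1 ≤ j) {q : Seminorm ℝ E0}
    (hq : IsQ univ ((mm j : ℝ) / 100) q) (n : ℕ) (hn : n ≤ n1) (c : E0) :
    q (che Z.Re j n c) ≤ (103 / 100) ^ n * q c ∧
      ‖che Z.Re j n c - c‖ ≤ 45 * n * (103 / 100) ^ n * q c := by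
  induction n generalizing c with
  | zero =>
    have e : che Z.Re j 0 c = c := rfl
    rw [e]
    simp
  | succ n ih =>
    have e : che Z.Re j (n + 1) c =
        che Z.Re j n (Zst (Z.Re j (n + 1)) (mm j) ((n + 1 : ℕ) : ℝ) c) := rfl
    have hle : 2000 * (n + 1) ≤ mm j := by unfold mm; omega
    obtain ⟨s1, s2⟩ := L7_step (one_le_mm j) (i := ((n + 1 : ℕ) : ℝ))
      (by exact_mod_cast Nat.succ_le_succ (Nat.zero_le n)) (by exact_mod_cast hle)
      (Z.isRes j (n + 1) (by omega)) hq c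
    rw [e]
    generalize Zst (Z.Re j (n + 1)) (mm j) ((n + 1 : ℕ) : ℝ) c = d at s1 s2
    obtain ⟨i1, i2⟩ := ih (by omega) d
    have hp : (1 : ℝ) ≤ (103 / 100) ^ n := one_le_pow₀ (by norm_num)
    have hq0 : 0 ≤ q c := apply_nonneg q c
    constructor
    · rw [pow_succ, mul_assoc]
      exact i1.trans (mul_le_mul_of_nonneg_left s1 (by positivity))
    · have t1 := norm_sub_le_norm_sub_add_norm_sub (che Z.Re j n d) d c
      have t2 := mul_le_mul_of_nonneg_left s1
        (show 0 ≤ 45 * (n : ℝ) * (103 / 100) ^ n by positivity)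
      have t3 := mul_le_mul_of_nonneg_right hp hq0
      rw [pow_succ]
      push_cast
      linarith

theorem L7_norm_sym (f : E0) : ‖res ((1 + refl : E0 →L[ℝ] E0) f)‖ ≤ 2 * ‖f‖ := by
  refine (norm_le (by positivity)).2 fun x => ?_
  have e : res ((1 + refl : E0 →L[ℝ] E0) f) x = f x + f (-x) := rfl
  rw [e]
  have h1 := f.norm_coe_le_norm x
  have h2 := f.norm_coe_le_norm (-x)
  have h3 := norm_add_le (f x) (f (-x))
  linarith

theorem L7_ext_sym (f : E0) : ext (res ((1 + refl : E0 →L[ℝ] E0) f)) = f + refl f := by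
  ext x
  have e : ext (res ((1 + refl : E0 →L[ℝ] E0) f)) x = f |x| + f (-|x|) := rfl
  have e' : (f + refl f) x = f x + f (-x) := rfl
  rw [e, e']
  rcases abs_choice x with h | h
  · rw [h]
  · rw [h, neg_neg, add_comm]

theorem L7_inv (B : Base) : ∃ κ : ℕ → E0, (∀ n, κ n * B.g 0 = B.g n) ∧
    ∀ n x, |κ n x| ≤ cc n * (23 / 125) ^ n := by
  have h0 : ∀ x, 0 < B.g 0 x := fun x => lt_of_lt_of_le (by norm_num) (B.g_zero_ge x)
  refine ⟨fun n => mkB (fun x => B.g n x / B.g 0 x)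
    ((B.g n).continuous.div (B.g 0).continuous fun x => (h0 x).ne') (cc n * (23 / 125) ^ n)
    fun x => ?_, fun n => ?_, fun n x => ?_⟩
  rotate_left
  · ext x
    exact div_mul_cancel₀ _ (h0 x).ne'
  all_goals
    change |B.g n x / B.g 0 x| ≤ _
    rw [abs_of_nonneg (div_nonneg (B.g_nonneg n x) (h0 x).le), div_le_iff₀ (h0 x)]
    exact B.g_le n x

/-- the terms of the principal part -/
def L7_term (B : Base) (Z : ChainData) (j n : ℕ) : E0 →L[ℝ] Y0 :=
  wt0 n • (res ∘L (1 + refl) ∘L che Z.Re j n ∘L mulL (B.g n))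

theorem L7_norm_term (B : Base) (Z : ChainData) (j n : ℕ) :
    ‖L7_term B Z j n‖ ≤ 2 * Z.C * ((27 / 5) ^ n * ‖B.g n‖) := by
  have hC : 0 ≤ Z.C := by
    have := (ContinuousLinearMap.opNorm_nonneg _).trans (Z.norm_che j 0)
    rwa [pow_zero, mul_one] at this
  have hw : |wt0 n| ≤ 1 := by cases n <;> norm_num [wt0, abs_le]
  refine ContinuousLinearMap.opNorm_le_bound _ (by positivity) fun f => ?_
  have e : L7_term B Z j n f =
      wt0 n • res ((1 + refl : E0 →L[ℝ] E0) (che Z.Re j n (B.g n * f))) := rfl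
  rw [e, norm_smul, Real.norm_eq_abs]
  refine (mul_le_of_le_one_left (norm_nonneg _) hw).trans ((L7_norm_sym _).trans ?_)
  have h1 : ‖che Z.Re j n‖ ≤ Z.C * (27 / 5) ^ n :=
    (Z.norm_che j n).trans (mul_le_mul_of_nonneg_left
      (pow_le_pow_left₀ (by norm_num) (by norm_num) n) hC)
  have h2 := (che Z.Re j n).le_of_opNorm_le_of_le h1 (norm_mul_le (B.g n) f)
  linarith

theorem L7_trunc (B : Base) (Z : ChainData) : ∃ M : ℝ, ∀ n1 j : ℕ, 2000 * n1 ≤ j →
    HasInv ((∑ n ∈ Finset.range (n1 + 1), L7_term B Z j n) ∘L ext) M := by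
  have hs := summable_cc_poly 1 (r := 19 / 100) (by norm_num) (by norm_num)
  obtain ⟨M, hM⟩ := renorm (3 / 4) (3 / 4)
    (90 * ∑' n : ℕ, cc n * ((n : ℝ) + 1) ^ 1 * (19 / 100) ^ n) 2 (by norm_num) (by norm_num)
  obtain ⟨κ, e1, e2⟩ := L7_inv B
  refine ⟨1 / (1 / 20) * M, fun n1 j hj => ?_⟩
  obtain ⟨q, hq⟩ := exists_isQ univ MeasurableSet.univ (σ := (mm j : ℝ) / 100)
    (by have := mm_pos j; positivity)
  let T : Y0 →L[ℝ] Y0 := ∑ n ∈ Finset.range n1,
    res ∘L (1 + refl) ∘L che Z.Re j (n + 1) ∘L mulL (κ (n + 1)) ∘L ext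
  have hT : ∀ y, T y = ∑ n ∈ Finset.range n1,
      res ((1 + refl : E0 →L[ℝ] E0) (che Z.Re j (n + 1) (κ (n + 1) * ext y))) := fun y =>
    _root_.sum_apply _ _ _
  have hk : ∀ n, 0 ≤ cc n * (23 / 125 : ℝ) ^ n := fun n => by have := cc_pos n; positivity
  have hk1 : ∀ n, cc n * (23 / 125 : ℝ) ^ n ≤ cc n * (19 / 100) ^ n := fun n =>
    mul_le_mul_of_nonneg_left (pow_le_pow_left₀ (by norm_num) (by norm_num) n) (cc_pos n).le
  have hk2 : ∀ n, (103 / 100 : ℝ) ^ n * (cc n * (23 / 125) ^ n) ≤ cc n * (19 / 100) ^ n :=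
    fun n => by
      rw [mul_left_comm, ← mul_pow]
      exact mul_le_mul_of_nonneg_left (pow_le_pow_left₀ (by norm_num) (by norm_num) n)
        (cc_pos n).le
  have hqk : ∀ n y, q (κ n * ext y) ≤ cc n * (23 / 125) ^ n * q (ext y) := fun n y =>
    hq.mul_le MeasurableSet.univ (by have := mm_pos j; positivity) _ _ (hk n) fun x _ => e2 n x
  have h1 : HasInv (1 + T) M := by
    refine hM Y0 (q.comp ext.toLinearMap) T (fun y => ?_) (fun y => ?_) fun y => ?_
    · exact (hq.1 (ext y)).trans (by rw [norm_ext_apply])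
    · change _ ≤ 3 / 4 * ‖y‖ + _ * q (ext y)
      have hq0 : 0 ≤ q (ext y) := apply_nonneg q _
      rw [hT]
      refine (norm_sum_le_of_le _ (n := fun n => 2 * ‖y‖ * (cc (n + 1) * (19 / 100) ^ (n + 1)) +
        90 * q (ext y) * (cc (n + 1) * (((n + 1 : ℕ) : ℝ) + 1) ^ 1 * (19 / 100) ^ (n + 1)))
        fun n hn => ?_).trans ?_
      · refine (L7_norm_sym _).trans ?_
        have a1 := (L7_chain Z hj hq (n + 1) (Finset.mem_range.1 hn) (κ (n + 1) * ext y)).2
        have a2 : ‖κ (n + 1) * ext y‖ ≤ cc (n + 1) * (19 / 100) ^ (n + 1) * ‖y‖ := by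
          refine (norm_mul_le _ _).trans ?_
          rw [norm_ext_apply]
          exact mul_le_mul_of_nonneg_right ((norm_le_of_abs (e2 _)).trans (hk1 _)) (norm_nonneg _)
        have a3 := norm_le_norm_add_norm_sub' (che Z.Re j (n + 1) (κ (n + 1) * ext y))
          (κ (n + 1) * ext y)
        have a4 : (103 / 100 : ℝ) ^ (n + 1) * q (κ (n + 1) * ext y) ≤
            cc (n + 1) * (19 / 100) ^ (n + 1) * q (ext y) := by
          refine (mul_le_mul_of_nonneg_left (hqk _ y) (by positivity)).trans ?_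
          rw [← mul_assoc]
          exact mul_le_mul_of_nonneg_right (hk2 _) hq0
        have a5 := mul_le_mul_of_nonneg_left a4 (show 0 ≤ 45 * ((n + 1 : ℕ) : ℝ) by positivity)
        have a6 : 0 ≤ cc (n + 1) * (19 / 100) ^ (n + 1) * q (ext y) := by
          have := cc_pos (n + 1); positivity
        linarith
      · rw [Finset.sum_add_distrib, ← Finset.mul_sum, ← Finset.mul_sum]
        have a1 := mul_le_mul_of_nonneg_left (sum_cc_a (Finset.range n1)) (norm_nonneg y)
        have a2 : ∑ n ∈ Finset.range n1,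
            cc (n + 1) * (((n + 1 : ℕ) : ℝ) + 1) ^ 1 * (19 / 100) ^ (n + 1) ≤
            ∑' n : ℕ, cc n * ((n : ℝ) + 1) ^ 1 * (19 / 100) ^ n := by
          refine le_trans ?_ (hs.sum_le_tsum (Finset.range (n1 + 1)) fun n _ => by
            have := cc_pos n; positivity)
          rw [Finset.sum_range_succ']
          exact le_add_of_nonneg_right (by have := cc_pos 0; positivity)
        have a3 := mul_le_mul_of_nonneg_left a2 hq0
        linarith
    · change q (ext (T y)) ≤ 3 / 4 * q (ext y)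
      have hq0 : 0 ≤ q (ext y) := apply_nonneg q _
      rw [hT, map_sum]
      refine (Finset.le_sum_of_subadditive q (map_zero q).le (map_add_le_add q) _ _).trans ?_
      refine (Finset.sum_le_sum
        (g := fun n => 2 * q (ext y) * (cc (n + 1) * (19 / 100) ^ (n + 1))) fun n hn => ?_).trans ?_
      · rw [L7_ext_sym]
        refine (map_add_le_add q _ _).trans ?_
        have a1 := (L7_chain Z hj hq (n + 1) (Finset.mem_range.1 hn) (κ (n + 1) * ext y)).1
        have a2 := hq.refl_le (che Z.Re j (n + 1) (κ (n + 1) * ext y))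
        have a4 : (103 / 100 : ℝ) ^ (n + 1) * q (κ (n + 1) * ext y) ≤
            cc (n + 1) * (19 / 100) ^ (n + 1) * q (ext y) := by
          refine (mul_le_mul_of_nonneg_left (hqk _ y) (by positivity)).trans ?_
          rw [← mul_assoc]
          exact mul_le_mul_of_nonneg_right (hk2 _) hq0
        linarith
      · rw [← Finset.mul_sum]
        have a1 := mul_le_mul_of_nonneg_left (sum_cc_a (Finset.range n1)) hq0
        linarith
  have h2 := h1.mul (hasInv_mulY (res (B.g 0)) (c := 1 / 20) (by norm_num)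
    fun x => B.g_zero_ge x)
  have e : (∑ n ∈ Finset.range (n1 + 1), L7_term B Z j n) ∘L ext = (1 + T) * mulY (res (B.g 0)) := by
    refine ContinuousLinearMap.ext fun y => ?_
    have e3 : ext (res (B.g 0) * y) = B.g 0 * ext y := by
      ext x
      change B.g 0 |x| * ext y x = B.g 0 x * ext y x
      rcases abs_choice x with h | h
      · rw [h]
      · rw [h, B.g_even]
    have e4 : L7_term B Z j 0 (ext y) = res (B.g 0) * y := by
      ext x
      change (1 / 2 : ℝ) * (B.g 0 x * ext y x + B.g 0 (-x) * ext y (-x)) = B.g 0 x * y x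
      rw [B.g_even, ext_neg, ext_coe]
      ring
    change (∑ n ∈ Finset.range (n1 + 1), L7_term B Z j n) (ext y) =
      res (B.g 0) * y + T (res (B.g 0) * y)
    rw [_root_.sum_apply, Finset.sum_range_succ', e4, add_comm, hT, e3]
    refine congrArg _ (Finset.sum_congr rfl fun n _ => ?_)
    rw [← mul_assoc, e1]
    exact one_smul ℝ _
  rw [e]
  exact h2

theorem L7_gen {V V' : Type} [NormedAddCommGroup V] [NormedSpace ℝ V] [NormedAddCommGroup V']
    [NormedSpace ℝ V'] [CompleteSpace V'] {f : ℕ → V →L[ℝ] V'} {b : ℕ → ℝ} (hb : Summable b)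
    (h : ∀ n, ‖f n‖ ≤ b n) (k : ℕ) :
    ‖(∑' n, f n) - (∑ n ∈ Finset.range k, f n)‖ ≤ ∑' n, b (n + k) := by
  have hs : Summable f := .of_norm_bounded hb h
  have h1 : ‖∑' n, f (n + k)‖ ≤ ∑' n, b (n + k) :=
    tsum_of_norm_bounded ((summable_nat_add_iff k).2 hb).hasSum fun n => h _
  rw [← hs.sum_add_tsum_nat_add k, add_sub_cancel_left]
  exact h1

theorem L7_tail {f : ℕ → E0 →L[ℝ] Y0} {b : ℕ → ℝ} (hb : Summable b) (h : ∀ n, ‖f n‖ ≤ b n)
    (k : ℕ) : ‖(∑' n, f n) ∘L ext - (∑ n ∈ Finset.range k, f n) ∘L ext‖ ≤ ∑' n, b (n + k) := by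
  have h1 := L7_gen hb h k
  rw [← ContinuousLinearMap.sub_comp]
  refine (ContinuousLinearMap.opNorm_comp_le _ _).trans (le_trans ?_ h1)
  exact mul_le_of_le_one_right (ContinuousLinearMap.opNorm_nonneg _) norm_ext

theorem large_m (B : Base) (Z : ChainData) : ∃ M : ℝ, ∀ η > 0, ∃ j0 : ℕ, ∀ j, j0 ≤ j →
    ∃ C : Y0 →L[ℝ] Y0, HasInv C M ∧ ‖Pr B Z j ∘L ext - C‖ ≤ η := by
  obtain ⟨M, hM⟩ := L7_trunc B Z
  refine ⟨M, fun η hη => ?_⟩
  have hs := B.summable_g.mul_left (2 * Z.C)
  obtain ⟨n1, hn1⟩ := eventually_atTop.1 ((tendsto_sum_nat_add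
    fun n : ℕ => 2 * Z.C * ((27 / 5 : ℝ) ^ n * ‖B.g n‖)).eventually_le_const hη)
  refine ⟨2000 * n1, fun j hj => ⟨_, hM n1 j hj, ?_⟩⟩
  exact (L7_tail hs (L7_norm_term B Z j) (n1 + 1)).trans (hn1 (n1 + 1) (Nat.le_succ _))

end Pool.Agent.PS
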