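import Pool.Agent.P.MP_6c3c64_gt.A1
import Pool.Agent.P.MP_6c3c64_gt.K4
import Pool.Agent.P.MP_6c3c64_gt.L0b
import Pool.Agent.P.MP_6c3c64_gt.L4
import Pool.Agent.P.MP_6c3c64_gt.L8a

/-! Row L8b. The principal part agrees with its model up to an approximable operator. Write
`θ = thq`, `G n = mulL (g n) ∘ ext`. Since `thinf • θ = res (g 0 + 2 ∑ g (n + 1))`, the difference is
`∑ n ≥ 1` of `(res (che n - 1) G n - ginf n • mulY θ (CR n - 1))
 + (res (refl che n refl - 1) G n - ginf n • mulY θ (CL n - 1))`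
(`refl ∘ G n = G n` as `g n` is even; all series converge in norm by `norm_che`, `summable_g`,
`norm_CR`, `norm_CL`, `summable_ginf`). Each bracket is `LEC` after `ext` and `AN`:
`res che n G n - CR n res G n`, `CR n (mulY (res (g n) - ginf n))`, `mulY (res (g n) - ginf n)`,
`mulY (θ - 1) ..` are `AN`. `refl * che n * refl` is the chain of the steps
`1 + mulL (-refl b) * (-(refl * R * refl))`, and `IsRes (-refl a) (-(refl * R * refl))`; the limits
at infinity are `-(m + 2 i - gam)` and `-(2 m + (4 i - 2))`. Finish with `approx_of_AN` and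
`Approx.hasSum`.
-/

set_option autoImplicit false

open Real BoundedContinuousFunction MeasureTheory Set Filter Topology
open scoped NNReal ENNReal

noncomputable section

namespace Pool.Agent.PS

theorem L8b_gen (H : HRes) (a b : ℕ → E0) (R : ℕ → E0 →L[ℝ] E0) (al bl : ℕ → ℝ)
    (hR : ∀ i, 1 ≤ i → IsRes (a i) (R i)) (ha : ∀ i, 1 ≤ i → Tendsto (a i) atTop (𝓝 (al i)))
    (hb : ∀ i, 1 ≤ i → Tendsto (b i) atTop (𝓝 (bl i))) (h0 : ∀ i, 1 ≤ i → al i ≠ 0) (n : ℕ)
    (g : E0) (γ : ℝ) (hg : Tendsto g atTop (𝓝 γ)) (θ : Y0) (hθ : Tendsto (ext θ) atTop (𝓝 1)) :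
    Approx (res ∘L (chainOf (fun i => 1 + mulL (b i) * R i) n - 1) ∘L (mulL g ∘L ext) -
      γ • (mulY θ * (chainOf (fun i => (1 + bl i • H.R (al i) : Y0 →L[ℝ] Y0)) n - 1))) := by
  obtain ⟨h1, h2, h3, h4⟩ := chain_compare (V := Y0) H a b R al bl hR ha hb h0 n
  generalize chainOf (fun i => 1 + mulL (b i) * R i) n = ch at h1 h2 h3 h4 ⊢
  generalize chainOf (fun i => (1 + bl i • H.R (al i) : Y0 →L[ℝ] Y0)) n = C at h1 h2 h3 h4 ⊢
  refine approx_of_AN _ ?_ ?_
  · have e : ext ∘L (res ∘L (ch - 1) ∘L (mulL g ∘L ext) - γ • (mulY θ * (C - 1))) =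
        ext ∘L res ∘L ((ch - 1) ∘L (mulL g ∘L ext)) +
          (-γ) • (mulL (ext θ) ∘L (ext ∘L (C - 1))) := by
      ext y x
      simp [sub_eq_add_neg]
      ring
    rw [e]
    exact (h2.comp_right _).ext_res.add ((h3.mulL_left _).smul _)
  · have a1 : AN (mulY (res g - γ • (1 : Y0))) := by
      refine AN_mulY _ ?_
      have := (hg.comp tendsto_abs_atTop_atTop).sub_const γ
      rw [sub_self] at this
      refine this.congr fun x => ?_
      change g |x| - γ = g |x| - γ * 1
      rw [mul_one]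
    have a2 : AN (mulY (θ - 1)) := by
      refine AN_mulY _ ?_
      have := hθ.sub_const 1
      rw [sub_self] at this
      exact this.congr fun x => rfl
    have e0 : res ∘L (mulL g ∘L ext) = mulY (res g) := by
      ext y x
      simp only [ContinuousLinearMap.comp_apply, mulL_apply, mulY_apply, res_apply,
        BoundedContinuousFunction.mul_apply, ext_coe]
    have e1 : mulY (res g - γ • (1 : Y0)) = mulY (res g) - γ • 1 := by
      ext y x
      simp [sub_mul]
    have e2 : mulY (θ - 1) = mulY θ - 1 := by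
      ext y x
      simp [sub_mul]
    have e : res ∘L (ch - 1) ∘L (mulL g ∘L ext) - γ • (mulY θ * (C - 1)) =
        (res ∘L ch - C ∘L res) ∘L (mulL g ∘L ext) + C ∘L mulY (res g - γ • (1 : Y0)) +
          (-1 : ℝ) • mulY (res g - γ • (1 : Y0)) + (-γ) • (mulY (θ - 1) ∘L (C - 1)) := by
      rw [e1, e2, ← e0]
      ext1 y
      simp only [ContinuousLinearMap.comp_apply, _root_.sub_apply, _root_.add_apply,
        _root_.smul_apply, mul_apply_eq_comp, one_apply_eq_self, map_sub,
        map_smul]
      module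
    rw [e]
    exact (((h1.comp_right _).add (h4 _ a1)).add (a1.smul _)).add ((a2.comp_right _).smul _)

theorem L8b_rr : refl * refl = 1 := by
  ext f x
  simp

theorem L8b_chain (b : ℕ → E0) (R : ℕ → E0 →L[ℝ] E0) (n : ℕ) :
    refl * chainOf (fun i => 1 + mulL (b i) * R i) n * refl =
      chainOf (fun i => 1 + mulL (-refl (b i)) * -(refl * R i * refl)) n := by
  induction n with
  | zero => simp only [chainOf, mul_one, L8b_rr]
  | succ n ih =>
    have e : 1 + mulL (-refl (b (n + 1))) * -(refl * R (n + 1) * refl) =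
        refl * (1 + mulL (b (n + 1)) * R (n + 1)) * refl := by
      ext f x
      simp
    simp only [chainOf]
    rw [← ih, e]
    simp only [mul_assoc]
    rw [← mul_assoc refl refl, L8b_rr, one_mul]

theorem L8b_res {a : E0} {R : E0 →L[ℝ] E0} (h : IsRes a R) :
    IsRes (-refl a) (-(refl * R * refl)) := by
  intro c x
  have h1 := ((h (refl c) (-x)).comp_of_eq x (hasDerivAt_neg x) rfl).neg
  refine HasDerivAt.congr_deriv (f := fun y => (-(refl * R * refl)) c y) h1 ?_
  simp

theorem L8b_ne (k : ℤ) : (k : ℝ) + gam ≠ 0 := by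
  intro h
  have h1 : ((100 * k + 1 : ℤ) : ℝ) = 0 := by
    push_cast
    unfold gam at h
    linarith
  have h2 : 100 * k + 1 = 0 := by exact_mod_cast h1
  omega

theorem L8b_right (B : Base) (Z : ChainData) (H : HRes) (j n : ℕ) :
    Approx (res ∘L (che Z.Re j n - 1) ∘L (mulL (B.g n) ∘L ext) -
      ginf n • (mulY B.thq * (H.CR j n - 1))) := by
  refine L8b_gen H (fun i => alpB (mm j) i + gam • tanhB) (fun i => abB (mm j) i) (Z.Re j)
    (fun i => mm j - 2 * i + gam) (fun i => 2 * (mm j : ℝ) - (4 * i - 2)) (Z.isRes j)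
    (fun i _ => ?_) (fun i _ => ?_) (fun i _ => ?_) n _ _ (B.tendsto_g n) _ B.tendsto_thq
  · have := ((tendsto_tanh_atTop.const_mul (2 * (i : ℝ))).const_sub (mm j : ℝ)).add
      (tendsto_tanh_atTop.const_mul gam)
    simp only [mul_one] at this
    exact this.congr fun x => by simp
  · have := (tendsto_tanh_atTop.const_mul (4 * (i : ℝ) - 2)).const_sub (2 * (mm j : ℝ))
    simp only [mul_one] at this
    exact this.congr fun x => by simp
  · have := L8b_ne (mm j - 2 * i)
    push_cast at this
    exact this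

theorem L8b_left (B : Base) (Z : ChainData) (H : HRes) (j n : ℕ) :
    Approx (res ∘L (refl * che Z.Re j n * refl - 1) ∘L (mulL (B.g n) ∘L ext) -
      ginf n • (mulY B.thq * (H.CL j n - 1))) := by
  have e : refl * che Z.Re j n * refl = _ := L8b_chain (fun i => abB (mm j) i) (Z.Re j) n
  rw [e]
  refine L8b_gen H (fun i => -refl (alpB (mm j) i + gam • tanhB)) (fun i => -refl (abB (mm j) i))
    (fun i => -(refl * Z.Re j i * refl))
    (fun i => -(mm j + 2 * i - gam)) (fun i => -(2 * (mm j : ℝ) + (4 * i - 2)))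
    (fun i hi => L8b_res (Z.isRes j i hi))
    (fun i _ => ?_) (fun i _ => ?_) (fun i _ => ?_) n _ _ (B.tendsto_g n) _ B.tendsto_thq
  · have := (((tendsto_tanh_atTop.const_mul (2 * (i : ℝ))).const_add (mm j : ℝ)).sub
      (tendsto_tanh_atTop.const_mul gam)).neg
    simp only [mul_one] at this
    exact this.congr fun x => by simp [Real.tanh_neg]; ring
  · have := ((tendsto_tanh_atTop.const_mul (4 * (i : ℝ) - 2)).const_add (2 * (mm j : ℝ))).neg
    simp only [mul_one] at this
    exact this.congr fun x => by simp [Real.tanh_neg]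
  · have := L8b_ne (-(mm j + 2 * i))
    push_cast at this
    intro h
    apply this
    linarith

theorem L8b_ginf : Summable ginf := by
  refine Summable.of_norm_bounded summable_ginf.abs fun n => ?_
  rw [Real.norm_eq_abs, abs_mul]
  exact le_mul_of_one_le_left (abs_nonneg _)
    ((one_le_pow₀ (by norm_num)).trans (le_abs_self _))

theorem L8b_g (B : Base) : Summable B.g :=
  Summable.of_norm_bounded B.summable_g fun _ =>
    le_mul_of_one_le_left (norm_nonneg _) (one_le_pow₀ (by norm_num))

theorem HRes.summable_Sc (H : HRes) (j : ℕ) :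
    Summable fun n => ginf (n + 1) • (H.CR j (n + 1) + H.CL j (n + 1)) := by
  refine Summable.of_norm_bounded (E := Y0 →L[ℝ] Y0)
    (((summable_nat_add_iff 1).2 summable_ginf.abs).mul_left 2) fun n => ?_
  have h1 : ‖H.CR j (n + 1) + H.CL j (n + 1)‖ ≤ 2 * (27 / 5) ^ (n + 1) := by
    have a1 := H.norm_CR j (n + 1)
    have a2 := H.norm_CL j (n + 1)
    have a3 : (5 : ℝ) ^ (n + 1) ≤ (27 / 5) ^ (n + 1) :=
      pow_le_pow_left₀ (by norm_num) (by norm_num) _
    linarith [norm_add_le (H.CR j (n + 1)) (H.CL j (n + 1))]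
  refine (ContinuousLinearMap.opNorm_smul_le _ _).trans ?_
  rw [Real.norm_eq_abs, abs_mul, abs_of_pos (a := (27 / 5 : ℝ) ^ (n + 1)) (by positivity)]
  nlinarith [abs_nonneg (ginf (n + 1))]

theorem fixed_m (B : Base) (Z : ChainData) (H : HRes) (j : ℕ) :
    Approx (Pr B Z j ∘L ext - mulY B.thq * H.Sc j) := by
  have hP := (summable_Pr B Z j).hasSum.mapL ((ContinuousLinearMap.compL ℝ Y0 E0 Y0).flip ext)
  have hP1 := (hasSum_nat_add_iff' 1).2 hP
  have hS := (H.summable_Sc j).hasSum.mapL (ContinuousLinearMap.compL ℝ Y0 Y0 Y0 (mulY B.thq))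
  have hg := ((summable_nat_add_iff 1).2 (L8b_g B)).hasSum.mapL
    (ContinuousLinearMap.mul ℝ Y0 ∘L res)
  have hi := ((summable_nat_add_iff 1).2 L8b_ginf).hasSum.smul_const (mulY B.thq)
  have hD := ((hP1.sub hS).sub (hg.const_smul (2 : ℝ))).add (hi.const_smul (2 : ℝ))
  have hev : ∀ n (y : Y0), refl (B.g n * ext y) = B.g n * ext y := fun n y => by
    ext x
    simp [B.g_even]
  have hm : ∀ n (y : Y0), res (B.g n * ext y) = res (B.g n) * y := fun n y => by
    ext x
    simp only [res_apply, BoundedContinuousFunction.mul_apply, ext_coe]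
  have hθ : res (B.g 0) + (2 : ℝ) • res (∑' n, B.g (n + 1)) =
      (ginf 0 + 2 * ∑' n, ginf (n + 1)) • B.thq := by
    change _ = thinf • thinf⁻¹ • res (B.g 0 + (2 : ℝ) • ∑' n, B.g (n + 1))
    rw [smul_inv_smul₀ thinf_pos.ne', map_add, map_smul]
  have hA := Approx.hasSum hD fun n => by
    have e := (L8b_right B Z H j (n + 1)).add (L8b_left B Z H j (n + 1))
    refine Eq.mpr (congrArg Approx ?_) e
    ext1 y
    simp only [ContinuousLinearMap.comp_apply, _root_.sub_apply, _root_.add_apply,
      _root_.smul_apply, mul_apply_eq_comp, one_apply_eq_self, map_sub,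
      map_add, ContinuousLinearMap.flip_apply, ContinuousLinearMap.compL_apply, wt0, mulL_apply,
      mulY_apply, hev, hm, ContinuousLinearMap.mul_apply', mul_add, mul_smul_comm]
    module
  refine Eq.mpr (congrArg Approx ?_) hA
  ext1 y
  have h2 := congrArg (fun t => t * y) hθ
  simp only [add_mul, smul_mul_assoc] at h2
  simp only [Pr, HRes.Sc, ContinuousLinearMap.comp_apply, _root_.sub_apply, _root_.add_apply,
    _root_.smul_apply, mul_apply_eq_comp, one_apply_eq_self,
    map_add, ContinuousLinearMap.flip_apply, ContinuousLinearMap.compL_apply, wt0, mulL_apply,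
    mulY_apply, hev, hm, ContinuousLinearMap.mul_apply', mul_add, mul_smul_comm,
    Finset.sum_range_one, che, chainOf]
  linear_combination (norm := module) h2

end Pool.Agent.PS
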