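import Pool.Agent.P.MP_6c3c64_gt.A0
import Pool.Agent.P.MP_6c3c64_gt.A4
import Pool.Agent.P.MP_6c3c64_gt.K4
import Pool.Agent.P.MP_6c3c64_gt.L4
import Pool.Agent.P.MP_6c3c64_gt.L5c

/-! Row L9. The model operator is invertible for `m = mm j ≥ 9`. `Sc = ginf 0 • (1 + T)`,
`T = ∑ κ n (CR n + CL n)`, `κ n = ginf n / ginf 0 ≤ cc n r0 ^ n`. Use `renorm` with
`y ↦ q (ext y)`, `IsQ (Ioi 0) (1 / 200) q`. `q_step`: for `ZR` with `d = m - 2 i ≥ 1` take
`B = (d + 2) / d` (then `B a - b ≥ 2 gam`, `B ≤ 3`, where `a = d + gam`, `b = d + 2 - gam`); for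
`d ≤ -1` and for `ZL` take `B = 1` (`a + b = 0`, or `|a| - |b| = 2 - 2 gam` with equal signs).
So `q (CL n y) ≤ q y`, and `q (CR n y) ≤ b n * q y` with `b n = m / (m - 2 n)` if `2 n < m`, else
`m`; for `m ≥ 9`, `b n ≤ 9 / (9 - 2 n)` for `n ≤ 4` and `b n ≤ 2 n + 1` always; `sum_cc_b` gives
`ϱ = 9 / 10`. `norm_le_q` and `C (n + 1) - 1 = (C n - 1) Z + (Z - 1)` give
`‖(C n - 1) y‖ ≤ K (n + 1) ^ 2 q y` (bound `‖(C n - 1) y‖` by
`∑ i, ‖(Z i - 1) Z (i + 1) ... Z n y‖`; partial products have `q` norm at most `m`), and the scalar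
part is `2 ∑ κ n ≤ 3 / 4` (`sum_cc_a`).
-/

set_option autoImplicit false

open Real BoundedContinuousFunction MeasureTheory Set Filter Topology
open scoped NNReal ENNReal

noncomputable section

namespace Pool.Agent.PS

theorem L9_chain_p {V : Type} [NormedAddCommGroup V] [NormedSpace ℝ V] (p : V → ℝ)
    (hp : ∀ y, 0 ≤ p y) (Z : ℕ → V →L[ℝ] V) (B b : ℕ → ℝ) (hb0 : 1 ≤ b 0) (hb : ∀ n, 0 ≤ b n)
    (hs : ∀ n, b n * B (n + 1) ≤ b (n + 1)) (hZ : ∀ n y, p (Z (n + 1) y) ≤ B (n + 1) * p y)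
    (n : ℕ) (y : V) : p (chainOf Z n y) ≤ b n * p y := by
  induction n generalizing y with
  | zero => exact le_mul_of_one_le_left (hp y) hb0
  | succ n ih =>
    calc p (chainOf Z (n + 1) y) = p (chainOf Z n (Z (n + 1) y)) := rfl
      _ ≤ b n * p (Z (n + 1) y) := ih _
      _ ≤ b n * (B (n + 1) * p y) := mul_le_mul_of_nonneg_left (hZ n y) (hb n)
      _ = b n * B (n + 1) * p y := by ring
      _ ≤ b (n + 1) * p y := mul_le_mul_of_nonneg_right (hs n) (hp y)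

theorem L9_chain_n {V : Type} [NormedAddCommGroup V] [NormedSpace ℝ V] (p : V → ℝ)
    (hp : ∀ y, 0 ≤ p y) (Z : ℕ → V →L[ℝ] V) {A : ℝ} (hA : 0 ≤ A)
    (hZ : ∀ n y, p (Z (n + 1) y) ≤ 3 * p y)
    (hK : ∀ n y, ‖Z (n + 1) y - y‖ ≤ A * 4 ^ n * p y) (n : ℕ) (y : V) :
    ‖chainOf Z n y - y‖ ≤ A * 4 ^ n * p y := by
  induction n generalizing y with
  | zero =>
    have : chainOf Z 0 y - y = 0 := sub_self y
    rw [this, norm_zero]
    exact mul_nonneg (by positivity) (hp y)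
  | succ n ih =>
    have e : chainOf Z (n + 1) y - y =
        (chainOf Z n (Z (n + 1) y) - Z (n + 1) y) + (Z (n + 1) y - y) := by
      rw [sub_add_sub_cancel]
      rfl
    rw [e]
    have h1 := (ih (Z (n + 1) y)).trans
      (mul_le_mul_of_nonneg_left (hZ n y) (by positivity : 0 ≤ A * 4 ^ n))
    refine (norm_add_le _ _).trans ((add_le_add h1 (hK n y)).trans (le_of_eq ?_))
    ring

theorem L9_step_n (H : HRes) {q : Seminorm ℝ E0} (hq : IsQ (Ioi 0) (1 / 200) q) {a s K : ℝ}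
    (ha : 99 / 100 ≤ |a|) (hs : |s| ≤ K) (y : Y0) :
    ‖(1 + s • H.R a : Y0 →L[ℝ] Y0) y - y‖ ≤ 15 * K * q (ext y) := by
  have e : (1 + s • H.R a : Y0 →L[ℝ] Y0) y - y = s • H.R a y := by
    simp
  have h1 := H.norm_le_q (σ := 1 / 200) (a := a) (by norm_num) (by linarith) hq y
  have h2 : (√(1 / 200 * |a|))⁻¹ ≤ 15 := by
    refine inv_le_of_inv_le₀ (by norm_num) (le_sqrt_of_sq_le ?_)
    norm_num
    linarith
  have h3 := apply_nonneg q (ext y)
  rw [e, norm_smul, Real.norm_eq_abs]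
  calc |s| * ‖H.R a y‖ ≤ K * (15 * q (ext y)) :=
        mul_le_mul hs (h1.trans (mul_le_mul_of_nonneg_right h2 h3)) (norm_nonneg _)
          ((abs_nonneg _).trans hs)
    _ = 15 * K * q (ext y) := by ring

theorem L9_step_neg (H : HRes) {q : Seminorm ℝ E0} (hq : IsQ (Ioi 0) (1 / 200) q) {a s : ℝ}
    (ha : a < 0) (hs : s ≤ 0) (h : s - 2 * a = 2 - 2 * gam) (y : Y0) :
    q (ext ((1 + s • H.R a : Y0 →L[ℝ] Y0) y)) ≤ 1 * q (ext y) := by
  refine H.q_step (σ := 1 / 200) (by norm_num) ha.ne le_rfl ?_ (Or.inl ha) hq y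
  have e1 : (1 : ℝ) ^ 2 * a + (s - a) = s := by ring
  have e2 : (1 : ℝ) ^ 2 * a ^ 2 - (s - a) ^ 2 = (s - 2 * a) * (-s) := by ring
  rw [e1, e2, abs_of_nonpos hs, h]
  refine mul_le_mul_of_nonneg_right ?_ (neg_nonneg.2 hs)
  norm_num [gam]

theorem L9_step_pos (H : HRes) {q : Seminorm ℝ E0} (hq : IsQ (Ioi 0) (1 / 200) q) {d a s : ℝ}
    (hd : 1 ≤ d) (ha : a = d + gam) (hs : s = 2 * d + 2) (y : Y0) :
    q (ext ((1 + s • H.R a : Y0 →L[ℝ] Y0) y)) ≤ (d + 2) / d * q (ext y) := by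
  have hd0 : 0 < d := by linarith
  have hg : gam = 1 / 100 := rfl
  have hB : 1 ≤ (d + 2) / d := by
    rw [le_div_iff₀ hd0]
    linarith
  have hB3 : (d + 2) / d ≤ 3 := by
    rw [div_le_iff₀ hd0]
    linarith
  have hBd : (d + 2) / d * d = d + 2 := div_mul_cancel₀ _ hd0.ne'
  generalize (d + 2) / d = B at hB hB3 hBd ⊢
  have ha0 : 0 < a := by linarith
  have hb0 : 0 < s - a := by linarith
  have hpos : 0 ≤ B ^ 2 * a + (s - a) := by positivity
  refine H.q_step (σ := 1 / 200) (by norm_num) ha0.ne' hB ?_ (Or.inr hpos) hq y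
  rw [abs_of_nonneg hpos]
  have h1 : 1 / 50 ≤ B * a - (s - a) := by
    have : B * a = d + 2 + B * gam := by rw [ha, mul_add, hBd]
    rw [this, hs, ha, hg]
    linarith
  have h2 : 0 ≤ B * a + (s - a) := by positivity
  have h3 : B ^ 2 * a + (s - a) ≤ 3 * (B * a + (s - a)) := by
    have : B * (B * a) ≤ 3 * (B * a) := mul_le_mul_of_nonneg_right hB3 (by positivity)
    nlinarith
  have h4 : B ^ 2 * a ^ 2 - (s - a) ^ 2 = (B * a - (s - a)) * (B * a + (s - a)) := by ring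
  rw [h4]
  have h5 := mul_le_mul_of_nonneg_right h1 h2
  linarith

/-- growth factor of one step -/
def L9_B (m n : ℕ) : ℝ := if 2 * n < m then ((m : ℝ) - 2 * n + 2) / (m - 2 * n) else 1

/-- growth factor of the chain -/
def L9_b (m n : ℕ) : ℝ := if 2 * n < m then (m : ℝ) / (m - 2 * n) else m

theorem L9_cast {m n : ℕ} (h : 2 * n < m) : (1 : ℝ) ≤ m - 2 * n := by
  have : ((2 * n + 1 : ℕ) : ℝ) ≤ m := by exact_mod_cast h
  push_cast at this
  linarith

theorem L9_B_le (m n : ℕ) : L9_B m n ≤ 3 := by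
  unfold L9_B
  split_ifs with h
  · have := L9_cast h
    rw [div_le_iff₀ (by linarith)]
    linarith
  · norm_num

theorem L9_b_nonneg (m n : ℕ) : 0 ≤ L9_b m n := by
  unfold L9_b
  split_ifs with h
  · have := L9_cast h
    exact div_nonneg (Nat.cast_nonneg _) (by linarith)
  · exact Nat.cast_nonneg _

theorem L9_b_zero {m : ℕ} (hm : 0 < m) : 1 ≤ L9_b m 0 := by
  have h : (0 : ℝ) < m := by exact_mod_cast hm
  unfold L9_b
  rw [if_pos (by omega)]
  simp [h.ne']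

theorem L9_b_succ (m n : ℕ) : L9_b m n * L9_B m (n + 1) ≤ L9_b m (n + 1) := by
  unfold L9_b L9_B
  by_cases h : 2 * (n + 1) < m
  · have h1 := L9_cast h
    rw [if_pos h, if_pos h, if_pos (by omega)]
    push_cast at h1 ⊢
    have h2 : (m : ℝ) - 2 * n ≠ 0 := by linarith
    have h3 : (m : ℝ) - 2 * (n + 1) ≠ 0 := by linarith
    have e : (m : ℝ) - 2 * (n + 1) + 2 = m - 2 * n := by ring
    rw [e, div_mul_div_comm, mul_comm (m : ℝ), mul_div_mul_left _ _ h2]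
  · rw [if_neg h, if_neg h, mul_one]
    split_ifs with h'
    · exact div_le_self (Nat.cast_nonneg _) (L9_cast h')
    · exact le_rfl

theorem L9_b_le {m : ℕ} (hm : 9 ≤ m) (n : ℕ) :
    L9_b m (n + 1) ≤ if n ≤ 3 then 9 / (7 - 2 * (n : ℝ)) else 2 * (n : ℝ) + 3 := by
  have hm' : (9 : ℝ) ≤ m := by exact_mod_cast hm
  have hn : (0 : ℝ) ≤ n := Nat.cast_nonneg n
  unfold L9_b
  by_cases h : 2 * (n + 1) < m
  · have h1 := L9_cast h
    rw [if_pos h]
    push_cast at h1 ⊢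
    split_ifs with h'
    · have h2 : (n : ℝ) ≤ 3 := by exact_mod_cast h'
      rw [div_le_div_iff₀ (by linarith) (by linarith)]
      nlinarith
    · rw [div_le_iff₀ (by linarith)]
      nlinarith
  · rw [if_neg h, if_neg (by omega)]
    have : (m : ℝ) ≤ ((2 * (n + 1) : ℕ) : ℝ) := by exact_mod_cast not_lt.1 h
    push_cast at this
    linarith

theorem L9_neg (j n : ℕ) (h : ¬ 2 * n < mm j) : (mm j : ℝ) - 2 * n ≤ -1 := by
  have h1 : mm j + 1 ≤ 2 * n := by
    unfold mm at h ⊢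
    omega
  have : ((mm j + 1 : ℕ) : ℝ) ≤ ((2 * n : ℕ) : ℝ) := by exact_mod_cast h1
  push_cast at this
  linarith

theorem L9_ZR (H : HRes) {q : Seminorm ℝ E0} (hq : IsQ (Ioi 0) (1 / 200) q) (j n : ℕ) (y : Y0) :
    q (ext (H.ZR j n y)) ≤ L9_B (mm j) n * q (ext y) := by
  have hg : gam = 1 / 100 := rfl
  unfold L9_B
  split_ifs with h
  · exact L9_step_pos H hq (L9_cast h) rfl (by ring) y
  · have := L9_neg j n h
    exact L9_step_neg H hq (by linarith) (by linarith) (by ring) y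

theorem L9_ZL (H : HRes) {q : Seminorm ℝ E0} (hq : IsQ (Ioi 0) (1 / 200) q) (j n : ℕ) (y : Y0) :
    q (ext (H.ZL j n y)) ≤ 1 * q (ext y) := by
  have hg : gam = 1 / 100 := rfl
  have h1 := one_le_mm j
  have h2 : (0 : ℝ) ≤ n := Nat.cast_nonneg n
  exact L9_step_neg H hq (by linarith) (by linarith) (by ring) y

theorem L9_pow (m : ℝ) (hm : 0 ≤ m) (n : ℕ) : 2 * m + 4 * (n + 1) ≤ (2 * m + 4) * 4 ^ n := by
  have h1 : (1 : ℝ) + n * 3 ≤ (1 + 3) ^ n := one_add_mul_le_pow (by norm_num) n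
  have h2 : (0 : ℝ) ≤ n := Nat.cast_nonneg n
  norm_num at h1
  nlinarith

theorem L9_nR (H : HRes) {q : Seminorm ℝ E0} (hq : IsQ (Ioi 0) (1 / 200) q) (j n : ℕ) (y : Y0) :
    ‖H.CR j n y - y‖ ≤ 15 * (2 * mm j + 4) * 4 ^ n * q (ext y) := by
  have hg : gam = 1 / 100 := rfl
  have hm := one_le_mm j
  refine L9_chain_n (fun y => q (ext y)) (fun y => apply_nonneg q _) (H.ZR j) (by positivity)
    (fun n y => (L9_ZR H hq j _ y).trans
      (mul_le_mul_of_nonneg_right (L9_B_le _ _) (apply_nonneg q _))) (fun n y => ?_) n y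
  have h2 : (0 : ℝ) ≤ n := Nat.cast_nonneg n
  rw [mul_assoc 15]
  refine L9_step_n H hq ?_ (le_trans ?_ (L9_pow _ (by linarith) n)) y
  · by_cases h : 2 * (n + 1) < mm j
    · have := L9_cast h
      exact le_abs.2 (Or.inl (by linarith))
    · have := L9_neg j _ h
      exact le_abs.2 (Or.inr (by linarith))
  · push_cast
    exact abs_le.2 ⟨by linarith, by linarith⟩

theorem L9_nL (H : HRes) {q : Seminorm ℝ E0} (hq : IsQ (Ioi 0) (1 / 200) q) (j n : ℕ) (y : Y0) :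
    ‖H.CL j n y - y‖ ≤ 15 * (2 * mm j + 4) * 4 ^ n * q (ext y) := by
  have hg : gam = 1 / 100 := rfl
  have hm := one_le_mm j
  refine L9_chain_n (fun y => q (ext y)) (fun y => apply_nonneg q _) (H.ZL j) (by positivity)
    (fun n y => (L9_ZL H hq j _ y).trans
      (mul_le_mul_of_nonneg_right (by norm_num) (apply_nonneg q _))) (fun n y => ?_) n y
  have h2 : (0 : ℝ) ≤ n := Nat.cast_nonneg n
  rw [mul_assoc 15]
  refine L9_step_n H hq ?_ (le_trans ?_ (L9_pow _ (by linarith) n)) y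
  · push_cast
    exact le_abs.2 (Or.inr (by linarith))
  · push_cast
    exact abs_le.2 ⟨by linarith, by linarith⟩

theorem L9_qR (H : HRes) {q : Seminorm ℝ E0} (hq : IsQ (Ioi 0) (1 / 200) q) (j n : ℕ) (y : Y0) :
    q (ext (H.CR j n y)) ≤ L9_b (mm j) n * q (ext y) :=
  L9_chain_p (fun y => q (ext y)) (fun _ => apply_nonneg q _) (H.ZR j) (L9_B (mm j)) (L9_b (mm j))
    (L9_b_zero (by have := three_le_mm j; omega)) (L9_b_nonneg _) (L9_b_succ _)
    (fun _ y => L9_ZR H hq j _ y) n y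

theorem L9_qL (H : HRes) {q : Seminorm ℝ E0} (hq : IsQ (Ioi 0) (1 / 200) q) (j n : ℕ) (y : Y0) :
    q (ext (H.CL j n y)) ≤ 1 * q (ext y) :=
  L9_chain_p (fun y => q (ext y)) (fun _ => apply_nonneg q _) (H.ZL j) (fun _ => 1) (fun _ => 1)
    le_rfl (fun _ => zero_le_one) (fun _ => (mul_one _).le) (fun _ y => L9_ZL H hq j _ y) n y

theorem L9_summable_aux {E : Type} [NormedAddCommGroup E] [NormedSpace ℝ E] [CompleteSpace E]
    (f g : ℕ → E) (hf : ∀ n, ‖f n‖ ≤ 5 ^ n) (hg : ∀ n, ‖g n‖ ≤ 5 ^ n) :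
    Summable fun n => ginf (n + 1) • (f (n + 1) + g (n + 1)) := by
  have h0 : Summable fun n : ℕ => 2 * ((27 / 5 : ℝ) ^ (n + 1) * ginf (n + 1)) :=
    ((summable_nat_add_iff (f := fun n : ℕ => (27 / 5 : ℝ) ^ n * ginf n) 1).2
      summable_ginf).mul_left 2
  refine Summable.of_norm (Summable.of_nonneg_of_le (fun n => norm_nonneg _) (fun n => ?_) h0)
  rw [norm_smul, Real.norm_of_nonneg (ginf_nonneg _)]
  have h1 := (norm_add_le _ _).trans (add_le_add (hf (n + 1)) (hg (n + 1)))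
  have h2 : (5 : ℝ) ^ (n + 1) ≤ (27 / 5) ^ (n + 1) := pow_le_pow_left₀ (by norm_num) (by norm_num) _
  have h3 := ginf_nonneg (n + 1)
  calc _ ≤ ginf (n + 1) * (2 * (27 / 5) ^ (n + 1)) :=
        mul_le_mul_of_nonneg_left (h1.trans (by linarith)) h3
    _ = _ := by ring

theorem L9_summable (H : HRes) (j : ℕ) :
    Summable fun n => ginf (n + 1) • (H.CR j (n + 1) + H.CL j (n + 1)) :=
  L9_summable_aux (E := Y0 →L[ℝ] Y0) (H.CR j) (H.CL j) (H.norm_CR j) (H.norm_CL j)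

theorem L9_kap (n : ℕ) : 0 ≤ (ginf 0)⁻¹ * ginf n ∧ (ginf 0)⁻¹ * ginf n ≤ cc n * r0 ^ n :=
  ⟨mul_nonneg (inv_pos.2 ginf_zero_pos).le (ginf_nonneg n),
    (inv_mul_le_iff₀' ginf_zero_pos).2 (ginf_le n)⟩

theorem model_inv (H : HRes) (j : ℕ) (hj : 1 ≤ j) : ∃ M : ℝ, HasInv (H.Sc j) M := by
  obtain ⟨q, hq⟩ := exists_isQ (Ioi 0) measurableSet_Ioi (σ := 1 / 200) (by norm_num)
  have hm : 9 ≤ mm j := by
    unfold mm
    omega
  have hsum : Summable fun n : ℕ => cc (n + 1) * (4 * r0) ^ (n + 1) := by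
    have h := summable_cc_poly 0 (r := 4 * r0) (by norm_num [r0]) (by norm_num [r0])
    simp only [pow_zero, mul_one] at h
    exact (summable_nat_add_iff (f := fun n : ℕ => cc n * (4 * r0) ^ n) 1).2 h
  set A : ℝ := 15 * (2 * mm j + 4) with hA
  have hA0 : 0 ≤ A := by positivity
  obtain ⟨M, hM⟩ := renorm (3 / 4) (9 / 10) (2 * A * ∑' n, cc (n + 1) * (4 * r0) ^ (n + 1)) 2
    (by norm_num) (by norm_num)
  set S := ∑' n, ginf (n + 1) • (H.CR j (n + 1) + H.CL j (n + 1)) with hS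
  have hs : ∀ y, HasSum (fun n => ((ginf 0)⁻¹ * ginf (n + 1)) •
      (H.CR j (n + 1) y + H.CL j (n + 1) y)) (((ginf 0)⁻¹ • S) y) := fun y => by
    have h := (ContinuousLinearMap.apply ℝ Y0 y).hasSum
      ((L9_summable H j).hasSum.const_smul (ginf 0)⁻¹)
    simpa only [ContinuousLinearMap.apply_apply, _root_.smul_apply,
      _root_.add_apply, smul_smul] using h
  have hr : 0 ≤ r0 := by norm_num [r0]
  have h := hM Y0 (q.comp ext.toLinearMap) ((ginf 0)⁻¹ • S) (fun y => ?_) (fun y => ?_)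
    (fun y => ?_)
  · refine ⟨M / |ginf 0|, ?_⟩
    have e : H.Sc j = ginf 0 • (1 + (ginf 0)⁻¹ • S) := by
      rw [smul_add, smul_smul, mul_inv_cancel₀ ginf_zero_pos.ne', one_smul]
      rfl
    rw [e]
    exact h.smul ginf_zero_pos.ne'
  · have h1 := hq.1 (ext y)
    rw [norm_ext_apply] at h1
    exact h1
  · show _ ≤ 3 / 4 * ‖y‖ + _ * q (ext y)
    have hq0 := apply_nonneg q (ext y)
    refine le_of_tendsto' (continuous_norm.tendsto _ |>.comp (hs y)) fun s => ?_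
    refine (norm_sum_le _ _).trans ?_
    have h1 : ∀ n ∈ s, ‖((ginf 0)⁻¹ * ginf (n + 1)) • (H.CR j (n + 1) y + H.CL j (n + 1) y)‖ ≤
        cc (n + 1) * (19 / 100 : ℝ) ^ (n + 1) * (2 * ‖y‖) +
          cc (n + 1) * (4 * r0) ^ (n + 1) * (2 * A * q (ext y)) := fun n _ => by
      have k := L9_kap (n + 1)
      have c0 := (cc_pos (n + 1)).le
      have a1 := L9_nR H hq j (n + 1) y
      have a2 := L9_nL H hq j (n + 1) y
      rw [← hA] at a1 a2
      have a3 : ‖H.CR j (n + 1) y + H.CL j (n + 1) y‖ ≤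
          2 * ‖y‖ + 2 * (A * 4 ^ (n + 1) * q (ext y)) := by
        have b1 := norm_le_norm_add_norm_sub' (H.CR j (n + 1) y) y
        have b2 := norm_le_norm_add_norm_sub' (H.CL j (n + 1) y) y
        have b3 := norm_add_le (H.CR j (n + 1) y) (H.CL j (n + 1) y)
        linarith
      have a4 : cc (n + 1) * r0 ^ (n + 1) ≤ cc (n + 1) * (19 / 100 : ℝ) ^ (n + 1) :=
        mul_le_mul_of_nonneg_left (pow_le_pow_left₀ hr (by norm_num [r0]) _) c0
      rw [norm_smul, Real.norm_of_nonneg k.1]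
      calc _ ≤ cc (n + 1) * r0 ^ (n + 1) * (2 * ‖y‖ + 2 * (A * 4 ^ (n + 1) * q (ext y))) :=
            mul_le_mul k.2 a3 (norm_nonneg _) (k.1.trans k.2)
        _ = cc (n + 1) * r0 ^ (n + 1) * (2 * ‖y‖) +
            cc (n + 1) * (4 * r0) ^ (n + 1) * (2 * A * q (ext y)) := by
            rw [mul_pow]
            ring
        _ ≤ _ := add_le_add_left (mul_le_mul_of_nonneg_right a4 (by positivity)) _
    refine (Finset.sum_le_sum h1).trans ?_
    rw [Finset.sum_add_distrib, ← Finset.sum_mul, ← Finset.sum_mul]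
    have h2 := mul_le_mul_of_nonneg_right (sum_cc_a s) (by positivity : 0 ≤ 2 * ‖y‖)
    have h3 := mul_le_mul_of_nonneg_right
      (hsum.sum_le_tsum s fun n _ => mul_nonneg (cc_pos _).le (by positivity))
      (by positivity : 0 ≤ 2 * A * q (ext y))
    linarith
  · show q (ext _) ≤ 9 / 10 * q (ext y)
    have hq0 := apply_nonneg q (ext y)
    refine hq.hasSum_le (ext.hasSum (hs y)) fun s => ?_
    refine le_trans (Finset.sum_le_sum fun n _ => ?_)
      ((Finset.sum_mul _ _ _).symm.trans_le (mul_le_mul_of_nonneg_right (sum_cc_b s) hq0))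
    have k := L9_kap (n + 1)
    have a1 := (L9_qR H hq j (n + 1) y).trans (mul_le_mul_of_nonneg_right (L9_b_le hm n) hq0)
    have a2 := L9_qL H hq j (n + 1) y
    rw [map_smul, map_add, map_smul_eq_mul, Real.norm_of_nonneg k.1, mul_assoc (cc _ * _)]
    refine mul_le_mul k.2 ((map_add_le_add q _ _).trans ?_) (apply_nonneg q _) (k.1.trans k.2)
    linarith

end Pool.Agent.PS
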