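import Pool.Agent.P.MP_6c3c64_gt.A1
import Pool.Agent.P.MP_6c3c64_gt.A4
import Pool.Agent.P.MP_6c3c64_gt.K4
import Pool.Agent.P.MP_6c3c64_gt.L0a
import Pool.Agent.P.MP_6c3c64_gt.L0b
import Pool.Agent.P.MP_6c3c64_gt.L1b
import Pool.Agent.P.MP_6c3c64_gt.L7
import Pool.Agent.P.MP_6c3c64_gt.L8b
import Pool.Agent.P.MP_6c3c64_gt.L9
import Pool.Agent.P.MP_6c3c64_gt.L10a
import Pool.Agent.P.MP_6c3c64_gt.L10b

/-! Row L11. Assembly of the linear theory. Let `(F j, F1 j, F2 j)` be given by `mode_three` for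
`j = 0` and by `exists_Rm B.hh` with `m = mm j` for `j ≥ 1`. For `z = (ξ, y)` put
`T.F j z = (mm j ^ 2)⁻¹ • F j (y j) + (if j = 0 then ξ • 1 else 0)`,
`T.F1 j z = (mm j ^ 2)⁻¹ • F1 j (y j)`, the same for `F2` (`lp.evalCLM`; `∑ ‖y j‖ ≤ ‖y‖` by
`lp.sum_rpow_le_norm_rpow` or `lp.norm_eq_tsum_rpow`). By `Out_DL` and `exists_Er`,
`Out Z (DL (0, y)) j = Sj j (y j)` with
`Sj j = Pr j ∘ (F2 j - m ^ 2 • hh * F j) + Er j ∘ (F j, epsB * F1 j)`. `FI0 (Sj j)` by
`FI0.of_approx` with `C = mulY thq * Sc j` (`j ≥ 1`), `C = mulY thq * (Sc 0 * UU)` (`j = 0`), using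
`hasInv_mulY`, `fixed_m`, `IsJet.approx`, `Approx.prod`. For large `j`, `large_m` with
`η = 1 / (4 (|M| + 1))`, the bound `‖Er j ∘ ..‖ ≤ C C' / mm j` and `HasInv.perturb`. Then
`FI0_diag`. Injectivity: `F j y = 0` gives `F1 j y = 0`, `F2 j y = 0` (uniqueness of derivatives),
so `ext y = 0`; for `j = 0` use `mode_three` and `model_inv_three`.
-/

set_option autoImplicit false

open Real BoundedContinuousFunction MeasureTheory Set Filter Topology
open scoped NNReal ENNReal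

noncomputable section

namespace Pool.Agent.PS

theorem L11_modes (B : Base) (H : HRes) :
    ∃ (F F1 F2 : ℕ → Y0 →L[ℝ] E0) (C : ℝ), 0 ≤ C ∧ (∀ j, IsJet (F j) (F1 j) (F2 j)) ∧
      (∀ j y, (mm j : ℝ) ^ 2 * ‖F j y‖ + mm j * ‖epsB * F1 j y‖ + ‖F1 j y‖ + ‖F2 j y‖ ≤ C * ‖y‖) ∧
      (∀ j, j ≠ 0 → F2 j - (mm j : ℝ) ^ 2 • (mulL B.hh ∘L F j) = ext) ∧
      Approx (F2 0 - (mm 0 : ℝ) ^ 2 • (mulL B.hh ∘L F 0) - ext ∘L H.UU) ∧
      ∀ (ξ : ℝ) (y : Y0), ξ • (1 : E0) + F 0 y = 0 → ξ = 0 ∧ H.UU y = 0 := by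
  obtain ⟨G, G1, G2, hG, hA, hI⟩ := mode_three H B.hh
  obtain ⟨C, hC⟩ := exists_Rm B.hh (1 / 250000) (by norm_num) B.hh_ge B.hh_even
  choose R R1 R2 hR hE hB using fun j => hC (mm j) (one_le_mm j)
  have h3 : (mm 0 : ℝ) = 3 := by norm_num [mm]
  refine ⟨fun j => if j = 0 then G else R j, fun j => if j = 0 then G1 else R1 j,
    fun j => if j = 0 then G2 else R2 j, |C| + (9 * ‖G‖ + 4 * ‖G1‖ + ‖G2‖), by positivity,
    fun j => ?_, fun j y => ?_, fun j hj => ?_, ?_, ?_⟩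
  · by_cases hj : j = 0
    · simp only [hj, if_true]; exact hG
    · simp only [hj, if_false]; exact hR j
  · have hy := norm_nonneg y
    by_cases hj : j = 0
    · simp only [hj, if_true]
      rw [h3]
      have a1 := G.le_opNorm y
      have a2 := G1.le_opNorm y
      have a3 := G2.le_opNorm y
      have a4 : ‖epsB * G1 y‖ ≤ ‖G1 y‖ :=
        (norm_mul_le _ _).trans (mul_le_of_le_one_left (norm_nonneg _) norm_epsB)
      have a5 : 0 ≤ |C| * ‖y‖ := by positivity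
      linarith
    · simp only [hj, if_false]
      have a1 := hB j y
      have a2 : C * ‖y‖ ≤ |C| * ‖y‖ := mul_le_mul_of_nonneg_right (le_abs_self C) hy
      have a3 : 0 ≤ (9 * ‖G‖ + 4 * ‖G1‖ + ‖G2‖) * ‖y‖ := by positivity
      linarith
  · simp only [hj, if_false]
    exact ContinuousLinearMap.ext fun y => hE j y
  · simp only [if_true]
    have : (mm 0 : ℝ) ^ 2 = 9 := by rw [h3]; norm_num
    rw [this]; exact hA
  · simp only [if_true]; exact hI

theorem L11_isJet {V V' : Type} [NormedAddCommGroup V] [NormedSpace ℝ V] [NormedAddCommGroup V']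
    [NormedSpace ℝ V'] {F F1 F2 : V →L[ℝ] E0} (h : IsJet F F1 F2) (A : V' →L[ℝ] V)
    (f : V' →L[ℝ] ℝ) (c : ℝ) :
    IsJet (c • (f.smulRight 1 + F ∘L A)) (c • (F1 ∘L A)) (c • (F2 ∘L A)) := by
  refine ⟨fun v x => ?_, fun v x => ?_, fun v x => ?_⟩
  · have h1 := ((h.1 (A v) x).const_add (f v)).const_mul c
    have e : ⇑((c • (f.smulRight 1 + F ∘L A) : V' →L[ℝ] E0) v) =
        fun x => c * (f v + F (A v) x) := by
      ext x; simp [mul_add]
    rw [e]
    refine h1.congr_deriv ?_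
    simp only [_root_.smul_apply, ContinuousLinearMap.comp_apply,
      BoundedContinuousFunction.smul_apply, smul_eq_mul]
    ring
  · have h1 := (h.2.1 (A v) x).const_mul c
    have e : (fun x => eps x * (c • (F1 ∘L A) : V' →L[ℝ] E0) v x) =
        fun x => c * (eps x * F1 (A v) x) := by
      ext x
      simp only [_root_.smul_apply, ContinuousLinearMap.comp_apply,
        BoundedContinuousFunction.smul_apply, smul_eq_mul]
      ring
    rw [e]
    refine h1.congr_deriv ?_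
    simp only [_root_.smul_apply, ContinuousLinearMap.comp_apply,
      BoundedContinuousFunction.smul_apply, smul_eq_mul]
    ring
  · simp [h.2.2 (A v) x]

theorem L11_zero {V : Type} [NormedAddCommGroup V] [NormedSpace ℝ V] {F F1 F2 : V →L[ℝ] E0}
    (h : IsJet F F1 F2) {v : V} (hv : F v = 0) : F2 v = 0 := by
  have h1 : ∀ x, eps x * F1 v x = 0 := fun x => by
    have a := h.1 v x
    rw [hv] at a
    exact a.unique (hasDerivAt_const x (0 : ℝ))
  ext x
  have a := h.2.1 v x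
  rw [show (fun x => eps x * F1 v x) = fun _ => (0 : ℝ) from funext h1] at a
  have b := a.unique (hasDerivAt_const x (0 : ℝ))
  have h0 := (eps_pos x).ne'
  have c1 : F1 v x = 0 := (mul_eq_zero.1 (h1 x)).resolve_left h0
  have c2 := (mul_eq_zero.1 b).resolve_left h0
  rw [c1, mul_zero, add_zero] at c2
  exact c2

/-- the `j`-th coordinate -/
def L11_ev (j : ℕ) : ℝ × YY →L[ℝ] Y0 :=
  lp.evalCLM ℝ (fun _ : ℕ => Y0) 1 j ∘L ContinuousLinearMap.snd ℝ ℝ YY
/-- the scalar coordinate, seen by the first mode only -/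
def L11_sc (j : ℕ) : ℝ × YY →L[ℝ] ℝ := if j = 0 then ContinuousLinearMap.fst ℝ ℝ YY else 0

theorem L11_ev_apply (j : ℕ) (z : ℝ × YY) : L11_ev j z = z.2 j := rfl
theorem L11_sc_apply (j : ℕ) (z : ℝ × YY) : L11_sc j z = if j = 0 then z.1 else 0 := by
  unfold L11_sc; split_ifs <;> rfl

theorem L11_sum (y : YY) (s : Finset ℕ) : ∑ j ∈ s, ‖y j‖ ≤ ‖y‖ := by
  have := lp.sum_rpow_le_norm_rpow (p := 1) (by simp) y s
  simpa using this

theorem L11_nuM {m : ℝ} (hm : 0 < m) (F F1 F2 : E0) :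
    nuM m ((m ^ 2)⁻¹ • F) ((m ^ 2)⁻¹ • F1) ((m ^ 2)⁻¹ • F2) =
      m ^ 2 * ‖F‖ + m * ‖epsB * F1‖ + ‖F1‖ + ‖F2‖ := by
  rw [nuM, mul_smul_comm, norm_smul, norm_smul, norm_smul, norm_smul, Real.norm_eq_abs,
    abs_of_pos (by positivity)]
  field_simp

theorem exists_jets (B : Base) (Z : ChainData) (H : HRes) : ∃ T : Jets (ℝ × YY),
    (∀ z, (∀ j, T.F j z = 0) → z = 0) ∧
    ∀ DL : ℝ × YY →L[ℝ] ZZ, (∀ z, HasSum (fun J => T.HH B J 0 0 z) (DL z)) →
      FI0 ((Out Z ∘L DL) ∘L ContinuousLinearMap.inr ℝ ℝ YY) := by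
  obtain ⟨F, F1, F2, C, hC, hJ, hB, hE, hA, hI⟩ := L11_modes B H
  obtain ⟨M3, h3⟩ := model_inv_three H
  let T : Jets (ℝ × YY) :=
    { F := fun j => ((mm j : ℝ) ^ 2)⁻¹ • ((L11_sc j).smulRight 1 + F j ∘L L11_ev j)
      F1 := fun j => ((mm j : ℝ) ^ 2)⁻¹ • (F1 j ∘L L11_ev j)
      F2 := fun j => ((mm j : ℝ) ^ 2)⁻¹ • (F2 j ∘L L11_ev j)
      isJet := fun j => L11_isJet (hJ j) _ _ _
      C := 9 + C
      bound := fun z s => by
        have a1 : ∀ j ∈ s, nuM (mm j)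
            ((((mm j : ℝ) ^ 2)⁻¹ • ((L11_sc j).smulRight 1 + F j ∘L L11_ev j) :
              ℝ × YY →L[ℝ] E0) z)
            ((((mm j : ℝ) ^ 2)⁻¹ • (F1 j ∘L L11_ev j) : ℝ × YY →L[ℝ] E0) z)
            ((((mm j : ℝ) ^ 2)⁻¹ • (F2 j ∘L L11_ev j) : ℝ × YY →L[ℝ] E0) z) ≤
            (if j = 0 then 9 * ‖z.1‖ else 0) + C * ‖z.2 j‖ := fun j _ => by
          simp only [_root_.smul_apply]
          rw [L11_nuM (mm_pos j)]
          simp only [_root_.add_apply, ContinuousLinearMap.comp_apply,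
            ContinuousLinearMap.smulRight_apply, L11_ev_apply, L11_sc_apply]
          have b1 := hB j (z.2 j)
          have b2 := norm_add_le ((if j = 0 then z.1 else 0) • (1 : E0)) (F j (z.2 j))
          have b3 := mul_le_mul_of_nonneg_left b2 (sq_nonneg (mm j : ℝ))
          have b4 : (mm j : ℝ) ^ 2 * ‖(if j = 0 then z.1 else 0) • (1 : E0)‖ =
              if j = 0 then 9 * ‖z.1‖ else 0 := by
            split_ifs with hj
            · rw [hj, norm_smul, norm_one]; norm_num [mm]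
            · simp
          linarith
        refine (Finset.sum_le_sum a1).trans ?_
        rw [Finset.sum_add_distrib, ← Finset.mul_sum, Finset.sum_ite_eq']
        have b1 := mul_le_mul_of_nonneg_left ((L11_sum z.2 s).trans (norm_snd_le z)) hC
        have b2 : (if 0 ∈ s then 9 * ‖z.1‖ else 0) ≤ 9 * ‖z‖ := by
          have := norm_fst_le z
          have := norm_nonneg z
          split_ifs <;> linarith
        linarith }
  have hm2 : ∀ j, (mm j : ℝ) ^ 2 ≠ 0 := fun j => pow_ne_zero 2 (mm_pos j).ne'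
  have eF : ∀ j z, T.F j z =
      ((mm j : ℝ) ^ 2)⁻¹ • ((if j = 0 then z.1 else 0) • (1 : E0) + F j (z.2 j)) := fun j z => by
    rw [← L11_sc_apply]; rfl
  have eF1 : ∀ j z, T.F1 j z = ((mm j : ℝ) ^ 2)⁻¹ • F1 j (z.2 j) := fun j z => rfl
  have eF2 : ∀ j z, T.F2 j z = ((mm j : ℝ) ^ 2)⁻¹ • F2 j (z.2 j) := fun j z => rfl
  refine ⟨T, fun z hz => ?_, fun DL hDL => ?_⟩
  · have a1 : ∀ j, (if j = 0 then z.1 else 0) • (1 : E0) + F j (z.2 j) = 0 := fun j => by
      have := hz j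
      rw [eF] at this
      exact (smul_eq_zero.1 this).resolve_left (inv_ne_zero (hm2 j))
    have a0 := a1 0
    rw [if_pos rfl] at a0
    obtain ⟨b1, b2⟩ := hI _ _ a0
    refine Prod.ext b1 (lp.ext (funext fun j => ?_))
    show z.2 j = 0
    by_cases hj : j = 0
    · obtain ⟨S, hS, -⟩ := h3
      have : (S * (H.Sc 0 * H.UU)) (z.2 0) = z.2 0 := by rw [hS]; rfl
      rw [hj, ← this]
      simp only [mul_apply_eq_comp, b2, map_zero]
    · have c1 := a1 j
      rw [if_neg hj, zero_smul, zero_add] at c1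
      have c2 := L11_zero (hJ j) c1
      have c3 : ext (z.2 j) = 0 := by
        rw [← hE j hj]
        simp only [_root_.sub_apply, _root_.smul_apply,
          ContinuousLinearMap.comp_apply, c1, c2, map_zero, smul_zero, sub_zero]
      rw [← res_ext (z.2 j), c3, map_zero]
  obtain ⟨Er, CE, hEr, hS⟩ := exists_Er B Z
  obtain ⟨M, hM⟩ := large_m B Z
  have hη : 0 < 1 / (4 * (|M| + 1)) := by positivity
  obtain ⟨j0, hj0⟩ := hM _ hη
  obtain ⟨j1, hj1⟩ := exists_nat_ge (|CE| * C * (4 * (|M| + 1)))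
  have hap : ∀ j, Approx (Er j ∘L (F j).prod (mulL epsB ∘L F1 j)) := fun j =>
    ((hJ j).approx.1.prod (hJ j).approx.2).comp_left _
  have hθ := hasInv_mulY B.thq (c := thinf⁻¹ * (1 / 20))
    (mul_pos (inv_pos.2 thinf_pos) (by norm_num)) B.thq_ge
  refine FI0_diag _ (fun j => Pr B Z j ∘L (F2 j - (mm j : ℝ) ^ 2 • (mulL B.hh ∘L F j)) +
    Er j ∘L (F j).prod (mulL epsB ∘L F1 j)) (fun y j => ?_) (fun j => ?_) (max 1 (max j0 j1))
    (2 * M) fun j hj => ?_
  · have a1 := Out_DL B Z T DL hDL (0, y) j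
    have a2 := (hS j (T.JF j (0, y)) (T.JD j (0, y)) (T.F2 j (0, y)) rfl rfl).const_smul
      ((mm j : ℝ) ^ 2)
    simp only [smul_smul, mul_comm ((mm j : ℝ) ^ 2)] at a2
    have a3 := a1.unique a2
    have e1 : fstL (T.JF j (0, y)) = ((mm j : ℝ) ^ 2)⁻¹ • F j (y j) := by
      have : fstL (T.JF j (0, y)) = T.F j (0, y) := rfl
      rw [this, eF]; simp
    have e2 : fstL (T.JD j (0, y)) = ((mm j : ℝ) ^ 2)⁻¹ • (epsB * F1 j (y j)) := by
      have : fstL (T.JD j (0, y)) = epsB * T.F1 j (0, y) := rfl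
      rw [this, eF1, mul_smul_comm]
    have e3 : T.F2 j (0, y) - (mm j : ℝ) ^ 2 • (B.hh * ((mm j : ℝ) ^ 2)⁻¹ • F j (y j)) =
        ((mm j : ℝ) ^ 2)⁻¹ • (F2 j (y j) - (mm j : ℝ) ^ 2 • (B.hh * F j (y j))) := by
      rw [smul_sub, mul_smul_comm, smul_comm]; rfl
    rw [e1, e2, e3, ← Prod.smul_mk, map_smul, map_smul, ← smul_add,
      smul_inv_smul₀ (hm2 j)] at a3
    exact a3
  · by_cases hj : j = 0
    · subst hj
      refine FI0.of_approx (hθ.mul h3) ?_
      have := ((hA.comp_left (Pr B Z 0)).add ((fixed_m B Z H 0).comp_right H.UU)).add (hap 0)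
      convert this using 1
      ext1 y
      simp only [_root_.sub_apply, _root_.add_apply,
        ContinuousLinearMap.comp_apply, mul_apply_eq_comp, map_sub]
      abel
    · obtain ⟨Mj, hMj⟩ := model_inv H j (Nat.one_le_iff_ne_zero.2 hj)
      refine FI0.of_approx (hθ.mul hMj) ?_
      have := (fixed_m B Z H j).add (hap j)
      rw [hE j hj]
      convert this using 1
      abel
  · have hj' : j ≠ 0 := Nat.one_le_iff_ne_zero.1 ((le_max_left _ _).trans hj)
    obtain ⟨Cj, hCj, hn⟩ := hj0 j (((le_max_left _ _).trans (le_max_right _ _)).trans hj)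
    have hj1' : (j1 : ℝ) ≤ mm j := by
      have : j1 ≤ j := ((le_max_right _ _).trans (le_max_right _ _)).trans hj
      exact_mod_cast (by unfold mm; omega : j1 ≤ mm j)
    have hm := mm_pos j
    have b1 : ‖Er j ∘L (F j).prod (mulL epsB ∘L F1 j)‖ ≤ |CE| / mm j * C := by
      refine ContinuousLinearMap.opNorm_le_bound _ (by positivity) fun y => ?_
      have c1 := hEr j (F j y) (epsB * F1 j y)
      have c2 := hB j y
      have c3 : (mm j : ℝ) ^ 2 * ‖F j y‖ + mm j * ‖epsB * F1 j y‖ ≤ C * ‖y‖ := by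
        linarith [norm_nonneg (F1 j y), norm_nonneg (F2 j y)]
      have c4 : CE / mm j * ((mm j : ℝ) ^ 2 * ‖F j y‖ + mm j * ‖epsB * F1 j y‖) ≤
          |CE| / mm j * (C * ‖y‖) :=
        mul_le_mul (div_le_div_of_nonneg_right (le_abs_self CE) hm.le) c3 (by positivity)
          (by positivity)
      rw [mul_assoc]
      exact c1.trans c4
    have b2 : |CE| / mm j * C ≤ 1 / (4 * (|M| + 1)) := by
      rw [div_mul_eq_mul_div, div_le_div_iff₀ hm (by positivity)]
      linarith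
    refine hCj.perturb ?_
    rw [hE j hj', add_sub_right_comm]
    have b3 : ‖Pr B Z j ∘L ext - Cj + Er j ∘L (F j).prod (mulL epsB ∘L F1 j)‖ ≤
        1 / (4 * (|M| + 1)) + 1 / (4 * (|M| + 1)) :=
      (ContinuousLinearMap.opNorm_add_le _ _).trans (add_le_add hn (b1.trans b2))
    have b4 : (1 / (4 * (|M| + 1)) + 1 / (4 * (|M| + 1))) * (|M| + 1) = 1 / 2 := by
      field_simp; norm_num
    exact (mul_le_mul_of_nonneg_left (by linarith [le_abs_self M]) (norm_nonneg _)).trans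
      ((mul_le_mul_of_nonneg_right b3 (by positivity)).trans b4.le)

end Pool.Agent.PS
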