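import Pool.Agent.P.MP_6c3c64_gt.Defs

/-! Row L1a. The even solution of `φ'' - tanh φ' = p φ`, `φ 0 = 1`. Fixed point of
`φ x = 1 + ∫ s in 0..x, cosh s * ∫ r in 0..s, sech r * p r * φ r`. For instance write
`φ = cosh * exp (K |x|) * ψ` on `x ≥ 0` with `ψ` bounded continuous and `K = 2 ‖p‖ + 1`, where the
integral operator has norm below one and preserves nonnegativity, or sum the iterates
(`T ^ k 1 x ≤ cosh x * (‖p‖ |x|) ^ k / k!`), or use any global existence theorem for linear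
equations (uniqueness gives evenness).
-/

set_option autoImplicit false

open Real BoundedContinuousFunction MeasureTheory Set Filter Topology
open scoped NNReal ENNReal

noncomputable section

namespace Pool.Agent.PS

theorem L1a_deriv {h : ℝ → ℝ} (hc : Continuous h) (x : ℝ) :
    HasDerivAt (fun x => ∫ r in (0 : ℝ)..x, h r) (h x) x :=
  (hc.integral_hasStrictDerivAt 0 x).hasDerivAt

theorem L1a_cont {h : ℝ → ℝ} (hc : Continuous h) : Continuous fun x => ∫ r in (0 : ℝ)..x, h r :=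
  continuous_iff_continuousAt.2 fun x => (L1a_deriv hc x).continuousAt

theorem L1a_le {h B B' : ℝ → ℝ} (hc : Continuous h) (hB : ∀ x, HasDerivAt B (B' x) x)
    (h0 : 0 ≤ B 0) (hb : ∀ r, 0 ≤ r → |h r| ≤ B' r) {x : ℝ} (hx : 0 ≤ x) :
    |∫ r in (0 : ℝ)..x, h r| ≤ B x :=
  image_norm_le_of_norm_deriv_right_le_deriv_boundary (a := 0) (b := x)
    (f := fun x => ∫ r in (0 : ℝ)..x, h r) (L1a_cont hc).continuousOn
    (fun y _ => (L1a_deriv hc y).hasDerivWithinAt) (by simpa using h0) hB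
    (fun y hy => hb y hy.1) ⟨hx, le_rfl⟩

theorem L1a_key {h : ℝ → ℝ} {B K : ℝ} (hc : Continuous h) (hB : 0 ≤ B)
    (hb : ∀ r, |h r| ≤ B * K ^ 2 * cosh (K * r)) {x : ℝ} (hx : 0 ≤ x) :
    |∫ s in (0 : ℝ)..x, cosh s * ∫ r in (0 : ℝ)..s, h r| ≤ B * (cosh x * cosh (K * x)) := by
  have h1 : ∀ s, 0 ≤ s → |∫ r in (0 : ℝ)..s, h r| ≤ B * K * sinh (K * s) := fun s hs =>
    L1a_le (B := fun s => B * K * sinh (K * s)) (B' := fun r => B * K ^ 2 * cosh (K * r)) hc
      (fun r => (((hasDerivAt_id' r).const_mul K).sinh.const_mul (B * K)).congr_deriv (by ring))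
      (by simp) (fun r _ => hb r) hs
  refine L1a_le (h := fun s => cosh s * ∫ r in (0 : ℝ)..s, h r)
    (B := fun x => B * (cosh x * cosh (K * x)))
    (B' := fun x => B * (sinh x * cosh (K * x) + cosh x * (sinh (K * x) * (K * 1))))
    (continuous_cosh.mul (L1a_cont hc))
    (fun x => ((hasDerivAt_cosh x).mul ((hasDerivAt_id' x).const_mul K).cosh).const_mul B)
    (by positivity) (fun s hs => ?_) hx
  rw [abs_mul, abs_of_pos (cosh_pos s)]
  have h2 := mul_le_mul_of_nonneg_left (h1 s hs) (cosh_pos s).le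
  have h3 : 0 ≤ B * (sinh s * cosh (K * s)) :=
    mul_nonneg hB (mul_nonneg (sinh_nonneg_iff.2 hs) (cosh_pos _).le)
  nlinarith

theorem L1a_odd {h : ℝ → ℝ} {σ : ℝ} (he : ∀ r, h (-r) = σ * h r) (x : ℝ) :
    ∫ r in (0 : ℝ)..(-x), h r = -σ * ∫ r in (0 : ℝ)..x, h r := by
  have := intervalIntegral.integral_comp_neg (a := 0) (b := x) h
  simp only [he, neg_zero, intervalIntegral.integral_const_mul] at this
  rw [intervalIntegral.integral_symm, ← this]
  ring

theorem L1a_fix (p : E0) (hp : ∀ x, 0 ≤ p x) {K : ℝ} (hKp : ‖p‖ ≤ K ^ 2 / 2) :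
    ∃ ψ : Y0, ∀ x : ℝ≥0, cosh x * cosh (K * x) * ψ x =
      1 + ∫ s in (0 : ℝ)..x, cosh s * ∫ r in (0 : ℝ)..s, p r * cosh (K * r) * |ext ψ r| := by
  have hg : ∀ ψ : Y0, Continuous fun r : ℝ => p r * cosh (K * r) * |ext ψ r| := fun ψ =>
    (p.continuous.mul (by fun_prop)).mul (ext ψ).continuous.abs
  have hG : ∀ ψ : Y0, Continuous fun s : ℝ =>
      cosh s * ∫ r in (0 : ℝ)..s, p r * cosh (K * r) * |ext ψ r| := fun ψ =>
    continuous_cosh.mul (L1a_cont (hg ψ))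
  have hw : ∀ x : ℝ, 1 ≤ cosh x * cosh (K * x) := fun x =>
    one_le_mul_of_one_le_of_one_le (one_le_cosh _) (one_le_cosh _)
  have hbd : ∀ (t M r : ℝ), |t| ≤ M → |p r * cosh (K * r) * t| ≤ M / 2 * K ^ 2 * cosh (K * r) := by
    intro t M r ht
    have h1 : p r ≤ K ^ 2 / 2 := (le_abs_self _).trans ((abs_le_norm p r).trans hKp)
    rw [abs_mul, abs_mul, abs_of_nonneg (hp r), abs_of_pos (cosh_pos _)]
    calc p r * cosh (K * r) * |t| ≤ K ^ 2 / 2 * cosh (K * r) * M :=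
          mul_le_mul (mul_le_mul_of_nonneg_right h1 (cosh_pos _).le) ht (abs_nonneg _)
            (by positivity)
      _ = M / 2 * K ^ 2 * cosh (K * r) := by ring
  have hT : ∀ (ψ : Y0) (x : ℝ≥0),
      ‖(1 + ∫ s in (0 : ℝ)..x, cosh s * ∫ r in (0 : ℝ)..s, p r * cosh (K * r) * |ext ψ r|) /
        (cosh x * cosh (K * x))‖ ≤ 1 + ‖ψ‖ / 2 := by
    intro ψ x
    have h1 := L1a_key (B := ‖ψ‖ / 2) (hg ψ) (by positivity)
      (fun r => hbd _ _ r (by rw [abs_abs]; exact ψ.norm_coe_le_norm _)) x.coe_nonneg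
    have h2 := hw x
    rw [Real.norm_eq_abs, abs_div, abs_of_pos (by linarith : 0 < cosh (x : ℝ) * cosh (K * x)),
      div_le_iff₀ (by linarith)]
    refine (abs_add_le _ _).trans ?_
    rw [abs_one]
    refine (add_le_add le_rfl h1).trans ?_
    change 1 + ‖ψ‖ / 2 * (cosh x * cosh (K * x)) ≤ _
    linarith
  let T : Y0 → Y0 := fun ψ => ofNormedAddCommGroup (fun x : ℝ≥0 =>
    (1 + ∫ s in (0 : ℝ)..x, cosh s * ∫ r in (0 : ℝ)..s, p r * cosh (K * r) * |ext ψ r|) /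
      (cosh x * cosh (K * x)))
    ((continuous_const.add ((L1a_cont (hG ψ)).comp NNReal.continuous_coe)).div (by fun_prop)
      fun x => by have := hw x; linarith) (1 + ‖ψ‖ / 2) (hT ψ)
  have hC : ContractingWith (1 / 2) T := by
    refine ⟨by norm_num, LipschitzWith.of_dist_le_mul fun ψ χ => ?_⟩
    refine (dist_le (by positivity)).2 fun x => ?_
    have h1 := L1a_key (B := dist ψ χ / 2)
      (h := fun r => p r * cosh (K * r) * |ext ψ r| - p r * cosh (K * r) * |ext χ r|)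
      ((hg ψ).sub (hg χ)) (by positivity) (fun r => by
        rw [← mul_sub]
        refine hbd _ _ r ((abs_abs_sub_abs_le _ _).trans ?_)
        exact dist_coe_le_dist (f := ψ) (g := χ) _) x.coe_nonneg
    have e : ∀ s : ℝ, cosh s * ∫ r in (0 : ℝ)..s,
        (p r * cosh (K * r) * |ext ψ r| - p r * cosh (K * r) * |ext χ r|) =
        cosh s * (∫ r in (0 : ℝ)..s, p r * cosh (K * r) * |ext ψ r|) -
          cosh s * ∫ r in (0 : ℝ)..s, p r * cosh (K * r) * |ext χ r| := fun s => by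
      rw [intervalIntegral.integral_sub ((hg ψ).intervalIntegrable _ _)
        ((hg χ).intervalIntegrable _ _), mul_sub]
    simp only [e] at h1
    rw [intervalIntegral.integral_sub ((hG ψ).intervalIntegrable _ _)
      ((hG χ).intervalIntegrable _ _)] at h1
    have h2 := hw x
    simp only [T, coe_ofNormedAddCommGroup, Real.dist_eq]
    rw [← sub_div, add_sub_add_left_eq_sub, abs_div,
      abs_of_pos (by linarith : 0 < cosh (x : ℝ) * cosh (K * x)), div_le_iff₀ (by linarith)]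
    refine h1.trans (le_of_eq ?_)
    push_cast
    ring
  refine ⟨hC.fixedPoint T, fun x => ?_⟩
  have h1 : T (hC.fixedPoint T) x = hC.fixedPoint T x :=
    congrArg (fun f : Y0 => f x) hC.fixedPoint_isFixedPt
  have h2 := hw x
  rw [← h1]
  exact mul_div_cancel₀ _ (by linarith)

theorem exists_phi0 (p : E0) (hp : ∀ x, 0 ≤ p x) (he : ∀ x, p (-x) = p x) :
    ∃ φ φ' : ℝ → ℝ, (∀ x, HasDerivAt φ (φ' x) x) ∧
      (∀ x, HasDerivAt (fun x => sech x * φ' x) (sech x * p x * φ x) x) ∧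
      φ' 0 = 0 ∧ (∀ x, φ (-x) = φ x) ∧ (∀ x, 1 ≤ φ x) ∧ ∀ x, 0 ≤ x → 0 ≤ φ' x := by
  have hp0 := norm_nonneg p
  obtain ⟨ψ, hψ⟩ := L1a_fix p hp (K := ‖p‖ + 1) (by nlinarith)
  set K := ‖p‖ + 1
  set g : ℝ → ℝ := fun r => p r * cosh (K * r) * |ext ψ r| with hg
  have gc : Continuous g := (p.continuous.mul (by fun_prop)).mul (ext ψ).continuous.abs
  have Gc : Continuous fun s : ℝ => cosh s * ∫ r in (0 : ℝ)..s, g r :=
    continuous_cosh.mul (L1a_cont gc)
  have g0 : ∀ r, 0 ≤ g r := fun r =>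
    mul_nonneg (mul_nonneg (hp r) (cosh_pos _).le) (abs_nonneg _)
  have ge : ∀ r, g (-r) = 1 * g r := fun r => by
    simp only [hg, he, mul_neg, cosh_neg, ext_neg, one_mul]
  have G0 : ∀ s : ℝ, 0 ≤ s → 0 ≤ cosh s * ∫ r in (0 : ℝ)..s, g r := fun s hs =>
    mul_nonneg (cosh_pos _).le (intervalIntegral.integral_nonneg hs fun r _ => g0 r)
  have Fe : ∀ x : ℝ, 1 + ∫ s in (0 : ℝ)..(-x), cosh s * ∫ r in (0 : ℝ)..s, g r =
      1 + ∫ s in (0 : ℝ)..x, cosh s * ∫ r in (0 : ℝ)..s, g r := fun x => by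
    rw [L1a_odd (σ := -1) fun s => by rw [L1a_odd ge, cosh_neg]; ring]
    ring
  have Fa : ∀ x : ℝ, 1 + ∫ s in (0 : ℝ)..|x|, cosh s * ∫ r in (0 : ℝ)..s, g r =
      1 + ∫ s in (0 : ℝ)..x, cosh s * ∫ r in (0 : ℝ)..s, g r := fun x => by
    rcases abs_choice x with h | h <;> rw [h]
    exact Fe x
  have F1 : ∀ x : ℝ, 1 ≤ 1 + ∫ s in (0 : ℝ)..x, cosh s * ∫ r in (0 : ℝ)..s, g r := fun x => by
    rw [← Fa]
    exact le_add_of_nonneg_right
      (intervalIntegral.integral_nonneg (abs_nonneg x) fun s hs => G0 s hs.1)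
  have Fψ : ∀ x : ℝ, cosh x * cosh (K * x) * ext ψ x =
      1 + ∫ s in (0 : ℝ)..x, cosh s * ∫ r in (0 : ℝ)..s, g r := fun x => by
    have h1 : cosh |x| * cosh (K * |x|) * ext ψ x =
      1 + ∫ s in (0 : ℝ)..|x|, cosh s * ∫ r in (0 : ℝ)..s, g r := hψ ⟨|x|, abs_nonneg x⟩
    have h2 : cosh (K * |x|) = cosh (K * x) := by
      rcases abs_choice x with h | h <;> simp [h]
    rw [← Fa, ← h1, cosh_abs, h2]
  refine ⟨fun x => 1 + ∫ s in (0 : ℝ)..x, cosh s * ∫ r in (0 : ℝ)..s, g r,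
    fun s => cosh s * ∫ r in (0 : ℝ)..s, g r, fun x => (L1a_deriv Gc x).const_add 1,
    fun x => ?_, by simp, Fe, F1, G0⟩
  have e : (fun x => sech x * (cosh x * ∫ r in (0 : ℝ)..x, g r)) =
      fun x => ∫ r in (0 : ℝ)..x, g r := funext fun x => by
    rw [← mul_assoc, sech_mul_cosh, one_mul]
  rw [e]
  refine (L1a_deriv gc x).congr_deriv ?_
  have h1 : 0 ≤ ext ψ x := by
    have h2 := F1 x
    rw [← Fψ] at h2
    exact (pos_of_mul_pos_right (by linarith : 0 < cosh x * cosh (K * x) * ext ψ x)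
      (by positivity)).le
  beta_reduce
  rw [← Fψ, hg]
  simp only [abs_of_nonneg h1]
  linear_combination (-(p x * cosh (K * x) * ext ψ x)) * sech_mul_cosh x

end Pool.Agent.PS
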