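import Pool.Agent.P.MP_6c3c64_gt.Defs

/-! Row L5a. The uniformly local `L²` seminorm `q y = ⨆ x0, √(loc I σ x0 y)`. Facts:
`sech t ≤ 2 exp (-|t|)`, so `σ ∫ sech (σ (x - x0)) ≤ 4`; for each `x0` the square root is a
seminorm (Cauchy-Schwarz through the discriminant).
-/

set_option autoImplicit false

open Real BoundedContinuousFunction MeasureTheory Set Filter Topology
open scoped NNReal ENNReal

noncomputable section

namespace Pool.Agent.PS

theorem L5a_sech_abs (x : ℝ) : sech |x| = sech x := by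
  rcases abs_choice x with h | h <;> rw [h]
  exact sech_neg x

theorem L5a_exp_le_cosh (x : ℝ) : exp x ≤ 2 * cosh x := by
  rw [cosh_eq]; have := exp_pos (-x); linarith

theorem L5a_sech_le_exp (x : ℝ) : sech x ≤ 2 * exp (-x) := by
  have h1 := L5a_exp_le_cosh x
  have h2 := sech_mul_cosh x
  have h3 : exp (-x) * exp x = 1 := by rw [← exp_add]; simp
  have h4 := sech_pos x
  have h5 := exp_pos (-x)
  have h6 : sech x * exp (-x) * exp x ≤ sech x * exp (-x) * (2 * cosh x) :=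
    mul_le_mul_of_nonneg_left h1 (by positivity)
  have h7 : sech x * exp (-x) * exp x = sech x := by rw [mul_assoc, h3, mul_one]
  have h8 : sech x * exp (-x) * (2 * cosh x) = 2 * exp (-x) * (sech x * cosh x) := by ring
  rw [h7, h8, h2, mul_one] at h6
  exact h6

theorem L5a_integrable_sech : Integrable sech := by
  refine Integrable.mono' (integrable_inv_one_add_sq.const_mul 4)
    continuous_sech.aestronglyMeasurable (Eventually.of_forall fun x => ?_)
  rw [Real.norm_eq_abs, abs_of_pos (sech_pos x), ← L5a_sech_abs]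
  have h1 := L5a_exp_le_cosh |x|
  have h2 := quadratic_le_exp_of_nonneg (abs_nonneg x)
  have h3 : |x| ^ 2 = x ^ 2 := sq_abs x
  have h4 : 1 + x ^ 2 ≤ 4 * cosh |x| := by nlinarith [abs_nonneg x]
  have h5 : 0 < 1 + x ^ 2 := by positivity
  rw [sech, ← div_eq_mul_inv, inv_eq_one_div, div_le_div_iff₀ (cosh_pos _) h5]
  linarith

theorem L5a_integral_sech : ∫ x, sech x ≤ 4 := by
  have h : ∫ x, sech x = ∫ x : ℝ, sech |x| := by simp_rw [L5a_sech_abs]
  rw [h, integral_comp_abs (f := sech)]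
  have h2 : ∫ x in Ioi (0 : ℝ), sech x ≤ ∫ x in Ioi (0 : ℝ), 2 * exp (-x) :=
    integral_mono L5a_integrable_sech.integrableOn ((integrableOn_exp_neg_Ioi 0).const_mul 2)
      fun x => L5a_sech_le_exp x
  rw [integral_const_mul, integral_exp_neg_Ioi_zero] at h2
  linarith

theorem L5a_integrable_shift {σ : ℝ} (hσ : 0 < σ) (x0 : ℝ) :
    Integrable fun x => sech (σ * (x - x0)) :=
  (L5a_integrable_sech.comp_mul_left' hσ.ne').comp_sub_right x0

theorem L5a_integral_shift {σ : ℝ} (hσ : 0 < σ) (x0 : ℝ) :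
    σ * ∫ x, sech (σ * (x - x0)) ≤ 4 := by
  rw [integral_sub_right_eq_self (fun x => sech (σ * x)) x0, Measure.integral_comp_mul_left,
    abs_of_pos (inv_pos.2 hσ), smul_eq_mul, ← mul_assoc, mul_inv_cancel₀ hσ.ne', one_mul]
  exact L5a_integral_sech

theorem integrable_sech_mul {σ : ℝ} (hσ : 0 < σ) (x0 : ℝ) (y : E0) :
    Integrable fun x => sech (σ * (x - x0)) * y x :=
  (L5a_integrable_shift hσ x0).mul_bdd (c := ‖y‖) y.continuous.aestronglyMeasurable
    (Eventually.of_forall fun x => y.norm_coe_le_norm x)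

theorem L5a_integrable_two {σ : ℝ} (hσ : 0 < σ) (x0 : ℝ) (y z : E0) :
    Integrable fun x => sech (σ * (x - x0)) * (y x * z x) :=
  integrable_sech_mul hσ x0 (y * z)

theorem L5a_integrable_sq {σ : ℝ} (hσ : 0 < σ) (x0 : ℝ) (y : E0) :
    Integrable fun x => sech (σ * (x - x0)) * y x ^ 2 := by
  simp_rw [sq]; exact L5a_integrable_two hσ x0 y y

theorem L5a_loc_nonneg (I : Set ℝ) {σ : ℝ} (hσ : 0 < σ) (x0 : ℝ) (y : ℝ → ℝ) :
    0 ≤ loc I σ x0 y :=
  mul_nonneg hσ.le (integral_nonneg fun _ => mul_nonneg (sech_pos _).le (sq_nonneg _))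

theorem L5a_loc_le (I : Set ℝ) {σ : ℝ} (hσ : 0 < σ) (x0 : ℝ) (y : E0) :
    loc I σ x0 y ≤ (2 * ‖y‖) ^ 2 := by
  have h1 : ∫ x in I, sech (σ * (x - x0)) * y x ^ 2 ≤ ∫ x, sech (σ * (x - x0)) * y x ^ 2 :=
    setIntegral_le_integral (L5a_integrable_sq hσ x0 y)
      (Eventually.of_forall fun x => mul_nonneg (sech_pos _).le (sq_nonneg _))
  have h2 : ∫ x, sech (σ * (x - x0)) * y x ^ 2 ≤ ∫ x, sech (σ * (x - x0)) * ‖y‖ ^ 2 :=
    integral_mono (L5a_integrable_sq hσ x0 y) ((L5a_integrable_shift hσ x0).mul_const _)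
      fun x => mul_le_mul_of_nonneg_left
        (sq_le_sq' (neg_le_of_abs_le (abs_le_norm y x)) (le_of_abs_le (abs_le_norm y x)))
        (sech_pos _).le
  rw [integral_mul_const] at h2
  have h3 := L5a_integral_shift hσ x0
  have h4 : σ * ((∫ x, sech (σ * (x - x0))) * ‖y‖ ^ 2) ≤ 4 * ‖y‖ ^ 2 := by
    rw [← mul_assoc]; exact mul_le_mul_of_nonneg_right h3 (sq_nonneg _)
  calc loc I σ x0 y ≤ σ * ((∫ x, sech (σ * (x - x0))) * ‖y‖ ^ 2) :=
        mul_le_mul_of_nonneg_left (h1.trans h2) hσ.le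
    _ ≤ 4 * ‖y‖ ^ 2 := h4
    _ = (2 * ‖y‖) ^ 2 := by ring

theorem L5a_loc_comb (I : Set ℝ) {σ : ℝ} (hσ : 0 < σ) (x0 : ℝ) (y z : E0) (t : ℝ) :
    loc I σ x0 (fun x => y x + t * z x) = loc I σ x0 z * (t * t) +
      2 * (σ * ∫ x in I, sech (σ * (x - x0)) * (y x * z x)) * t + loc I σ x0 y := by
  have e : (fun x => sech (σ * (x - x0)) * (y x + t * z x) ^ 2) = fun x =>
      (t * t * (sech (σ * (x - x0)) * z x ^ 2) + 2 * t * (sech (σ * (x - x0)) * (y x * z x))) +
        sech (σ * (x - x0)) * y x ^ 2 := by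
    funext x; ring
  have i1 := ((L5a_integrable_sq hσ x0 z).const_mul (t * t)).integrableOn (s := I)
  have i2 := ((L5a_integrable_two hσ x0 y z).const_mul (2 * t)).integrableOn (s := I)
  have i3 := (L5a_integrable_sq hσ x0 y).integrableOn (s := I)
  have i12 : IntegrableOn (fun x => t * t * (sech (σ * (x - x0)) * z x ^ 2) +
      2 * t * (sech (σ * (x - x0)) * (y x * z x))) I := i1.add i2
  unfold loc
  rw [e, integral_add i12 i3, integral_add i1 i2, integral_const_mul, integral_const_mul]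
  ring

theorem L5a_sqrt_add (I : Set ℝ) {σ : ℝ} (hσ : 0 < σ) (x0 : ℝ) (y z : E0) :
    √(loc I σ x0 (y + z : E0)) ≤ √(loc I σ x0 y) + √(loc I σ x0 z) := by
  set b := σ * ∫ x in I, sech (σ * (x - x0)) * (y x * z x) with hb
  have hd : discrim (loc I σ x0 z) (2 * b) (loc I σ x0 y) ≤ 0 := discrim_le_zero fun t => by
    rw [hb, ← L5a_loc_comb I hσ x0 y z t]; exact L5a_loc_nonneg I hσ x0 _
  have hy := L5a_loc_nonneg I hσ x0 y
  have hz := L5a_loc_nonneg I hσ x0 z
  have hb2 : b ≤ √(loc I σ x0 y) * √(loc I σ x0 z) := by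
    rw [← sqrt_mul hy]
    refine le_sqrt_of_sq_le ?_
    unfold discrim at hd
    nlinarith
  have e : loc I σ x0 (y + z : E0) = loc I σ x0 z + 2 * b + loc I σ x0 y := by
    have h := L5a_loc_comb I hσ x0 y z 1
    simp only [one_mul, mul_one] at h
    rw [hb, ← h]; rfl
  refine sqrt_le_iff.2 ⟨by positivity, ?_⟩
  rw [e]
  nlinarith [sq_sqrt hy, sq_sqrt hz]

theorem L5a_sqrt_smul (I : Set ℝ) (σ x0 c : ℝ) (y : E0) :
    √(loc I σ x0 (c • y : E0)) = |c| * √(loc I σ x0 y) := by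
  have e : loc I σ x0 (c • y : E0) = c ^ 2 * loc I σ x0 y := by
    unfold loc
    have : (fun x => sech (σ * (x - x0)) * (c • y : E0) x ^ 2) =
        fun x => c ^ 2 * (sech (σ * (x - x0)) * y x ^ 2) := by
      funext x
      have : (c • y : E0) x = c * y x := rfl
      rw [this]; ring
    rw [this, integral_const_mul]; ring
  rw [e, sqrt_mul (sq_nonneg c), sqrt_sq_eq_abs]

theorem exists_isQ (I : Set ℝ) (hI : MeasurableSet I) {σ : ℝ} (hσ : 0 < σ) :
    ∃ q : Seminorm ℝ E0, IsQ I σ q := by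
  have _ := hI
  have hle : ∀ (y : E0) (x0 : ℝ), √(loc I σ x0 y) ≤ 2 * ‖y‖ := fun y x0 =>
    sqrt_le_iff.2 ⟨by positivity, L5a_loc_le I hσ x0 y⟩
  have hbdd : ∀ y : E0, BddAbove (range fun x0 => √(loc I σ x0 y)) := fun y =>
    ⟨2 * ‖y‖, by rintro _ ⟨x0, rfl⟩; exact hle y x0⟩
  refine ⟨Seminorm.of (fun y : E0 => ⨆ x0, √(loc I σ x0 y)) (fun y z => ?_) (fun c y => ?_),
    fun y => ?_, fun y x0 => ?_, fun y B hB h => ?_⟩
  · exact ciSup_le fun x0 => (L5a_sqrt_add I hσ x0 y z).trans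
      (add_le_add (le_ciSup (hbdd y) x0) (le_ciSup (hbdd z) x0))
  · simp_rw [L5a_sqrt_smul]
    rw [Real.norm_eq_abs, Real.mul_iSup_of_nonneg (abs_nonneg c)]
  · exact ciSup_le fun x0 => hle y x0
  · have h : √(loc I σ x0 y) ≤ ⨆ x0, √(loc I σ x0 y) := le_ciSup (hbdd y) x0
    exact (sqrt_le_iff.1 h).2
  · exact ciSup_le fun x0 => sqrt_le_iff.2 ⟨hB, h x0⟩

theorem IsQ.continuous {I : Set ℝ} {σ : ℝ} {q : Seminorm ℝ E0} (hq : IsQ I σ q) :
    Continuous q := by
  refine (LipschitzWith.of_dist_le_mul (K := 2) fun y z => ?_).continuous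
  rw [Real.dist_eq, dist_eq_norm]
  exact (abs_sub_map_le_sub q y z).trans (hq.1 _)

theorem IsQ.mul_le {I : Set ℝ} (hI : MeasurableSet I) {σ : ℝ} (hσ : 0 < σ) {q : Seminorm ℝ E0}
    (hq : IsQ I σ q) (a y : E0) {K : ℝ} (hK : 0 ≤ K) (h : ∀ x ∈ I, |a x| ≤ K) :
    q (a * y) ≤ K * q y := by
  refine hq.2.2 _ _ (mul_nonneg hK (apply_nonneg q y)) fun x0 => ?_
  have h1 : ∫ x in I, sech (σ * (x - x0)) * (a * y : E0) x ^ 2 ≤
      ∫ x in I, K ^ 2 * (sech (σ * (x - x0)) * y x ^ 2) := by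
    refine setIntegral_mono_on (L5a_integrable_sq hσ x0 _).integrableOn
      ((L5a_integrable_sq hσ x0 y).const_mul _).integrableOn hI fun x hx => ?_
    have e : (a * y : E0) x = a x * y x := rfl
    have h2 : a x ^ 2 ≤ K ^ 2 := sq_le_sq' (neg_le_of_abs_le (h x hx)) (le_of_abs_le (h x hx))
    have h3 : 0 ≤ sech (σ * (x - x0)) * y x ^ 2 := mul_nonneg (sech_pos _).le (sq_nonneg _)
    rw [e]
    calc sech (σ * (x - x0)) * (a x * y x) ^ 2 = a x ^ 2 * (sech (σ * (x - x0)) * y x ^ 2) := by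
          ring
      _ ≤ _ := mul_le_mul_of_nonneg_right h2 h3
  rw [integral_const_mul] at h1
  calc loc I σ x0 (a * y : E0) ≤ σ * (K ^ 2 * ∫ x in I, sech (σ * (x - x0)) * y x ^ 2) :=
        mul_le_mul_of_nonneg_left h1 hσ.le
    _ = K ^ 2 * loc I σ x0 y := by unfold loc; ring
    _ ≤ K ^ 2 * q y ^ 2 := mul_le_mul_of_nonneg_left (hq.2.1 y x0) (sq_nonneg _)
    _ = (K * q y) ^ 2 := by ring

theorem IsQ.refl_le {σ : ℝ} {q : Seminorm ℝ E0} (hq : IsQ univ σ q) (y : E0) :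
    q (refl y) ≤ q y := by
  refine hq.2.2 _ _ (apply_nonneg q y) fun x0 => ?_
  have e : loc univ σ x0 (refl y) = loc univ σ (-x0) y := by
    unfold loc
    rw [Measure.restrict_univ, ← integral_neg_eq_self]
    have : (fun x => sech (σ * (-x - x0)) * refl y (-x) ^ 2) =
        fun x => sech (σ * (x - -x0)) * y x ^ 2 := by
      funext x
      rw [refl_apply, neg_neg, ← sech_neg (σ * (x - -x0))]
      have : σ * (-x - x0) = -(σ * (x - -x0)) := by ring
      rw [this]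
    rw [this]
  rw [e]; exact hq.2.1 y (-x0)

theorem IsQ.congr {I : Set ℝ} (hI : MeasurableSet I) {σ : ℝ} {q : Seminorm ℝ E0}
    (hq : IsQ I σ q) {y y' : E0} (h : ∀ x ∈ I, y x = y' x) : q y = q y' := by
  have e : ∀ x0, loc I σ x0 y = loc I σ x0 y' := fun x0 => by
    unfold loc
    rw [setIntegral_congr_fun hI (g := fun x => sech (σ * (x - x0)) * y' x ^ 2)
      fun x hx => by simp only [h x hx]]
  exact le_antisymm (hq.2.2 _ _ (apply_nonneg q _) fun x0 => (e x0).trans_le (hq.2.1 y' x0))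
    (hq.2.2 _ _ (apply_nonneg q _) fun x0 => (e x0).symm.trans_le (hq.2.1 y x0))

theorem IsQ.hasSum_le {I : Set ℝ} {σ : ℝ} {q : Seminorm ℝ E0} (hq : IsQ I σ q) {f : ℕ → E0}
    {S : E0} (hs : HasSum f S) {b : ℝ} (h : ∀ s : Finset ℕ, ∑ n ∈ s, q (f n) ≤ b) :
    q S ≤ b := by
  have ht : Tendsto (fun n => q (∑ i ∈ Finset.range n, f i)) atTop (𝓝 (q S)) :=
    (hq.continuous.tendsto S).comp hs.tendsto_sum_nat
  refine le_of_tendsto' ht fun n => le_trans ?_ (h (Finset.range n))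
  induction n with
  | zero => simp
  | succ n ih =>
    rw [Finset.sum_range_succ, Finset.sum_range_succ]
    exact (map_add_le_add q _ _).trans (add_le_add ih le_rfl)

end Pool.Agent.PS
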