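import Pool.Agent.P.MP_6c3c64_gt.L5a

/-! Row L5b. Energy inequality. With `ω x = sech (σ (x - x0))`, `|ω'| ≤ σ ω`, `c = v' - α v`,
`o = v' + β v`, `G = B ^ 2 α + β`:
`ω (B ^ 2 c ^ 2 - o ^ 2) + (ω G v ^ 2)' = ω (B ^ 2 - 1) v' ^ 2
 + (ω (B ^ 2 α ^ 2 - β ^ 2 + G') + ω' G) v ^ 2 ≥ 0`.
Integrate over the line (`integral_of_hasDerivAt_of_tendsto` or limits of interval integrals;
`ω G v ^ 2 → 0` at both ends), resp. over `Ioi 0`, where the boundary term `ω 0 * G * v 0 ^ 2` has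
the right sign.
-/

set_option autoImplicit false

open Real BoundedContinuousFunction MeasureTheory Set Filter Topology
open scoped NNReal ENNReal

noncomputable section

namespace Pool.Agent.PS

/-- the function `tanh (σ (x - x0))` -/
def L5b_T (σ x0 : ℝ) : E0 :=
  mkB (fun x => tanh (σ * (x - x0))) (continuous_tanh'.comp (by fun_prop)) 1
    fun _ => abs_tanh_le_one _

theorem L5b_T_apply (σ x0 x : ℝ) : L5b_T σ x0 x = tanh (σ * (x - x0)) := rfl

theorem L5b_deriv (σ x0 : ℝ) {G v : ℝ → ℝ} {G' v' x : ℝ} (hG : HasDerivAt G G' x)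
    (hv : HasDerivAt v v' x) :
    HasDerivAt (fun x => sech (σ * (x - x0)) * (G x * (v x * v x)))
      (sech (σ * (x - x0)) * (G' * (v x * v x) + 2 * (G x * (v x * v'))
        - σ * (tanh (σ * (x - x0)) * (G x * (v x * v x))))) x := by
  have h1 : HasDerivAt (fun x => σ * (x - x0)) σ x := by
    simpa using ((hasDerivAt_id x).sub_const x0).const_mul σ
  have h2 := (hasDerivAt_sech (σ * (x - x0))).comp x h1
  have h3 := h2.mul (hG.mul (hv.mul hv))
  refine HasDerivAt.congr_deriv h3 ?_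
  simp only [Function.comp_apply, Pi.mul_apply]
  ring

theorem L5b_point {σ B a b G' v c t : ℝ} (hσ : 0 < σ) (hB : 1 ≤ B) (ht : |t| ≤ 1)
    (h : σ * |B ^ 2 * a + b| ≤ B ^ 2 * a ^ 2 - b ^ 2 + G') :
    (c + (a + b) * v) ^ 2 ≤ B ^ 2 * c ^ 2 + (G' * (v * v)
      + 2 * ((B ^ 2 * a + b) * (v * (a * v + c))) - σ * (t * ((B ^ 2 * a + b) * (v * v)))) := by
  have h1 : t * (B ^ 2 * a + b) ≤ |B ^ 2 * a + b| := by
    calc t * (B ^ 2 * a + b) ≤ |t * (B ^ 2 * a + b)| := le_abs_self _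
      _ = |t| * |B ^ 2 * a + b| := abs_mul _ _
      _ ≤ 1 * |B ^ 2 * a + b| := mul_le_mul_of_nonneg_right ht (abs_nonneg _)
      _ = _ := one_mul _
  have h2 : 0 ≤ B ^ 2 * a ^ 2 - b ^ 2 + G' - σ * (t * (B ^ 2 * a + b)) := by
    have := mul_le_mul_of_nonneg_left h1 hσ.le
    linarith
  have h3 : 0 ≤ (B ^ 2 - 1) * (a * v + c) ^ 2 :=
    mul_nonneg (by nlinarith) (sq_nonneg _)
  have h4 := mul_nonneg h2 (mul_self_nonneg v)
  have e : B ^ 2 * c ^ 2 + (G' * (v * v)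
      + 2 * ((B ^ 2 * a + b) * (v * (a * v + c))) - σ * (t * ((B ^ 2 * a + b) * (v * v))))
      - (c + (a + b) * v) ^ 2 = (B ^ 2 - 1) * (a * v + c) ^ 2
        + (B ^ 2 * a ^ 2 - b ^ 2 + G' - σ * (t * (B ^ 2 * a + b))) * (v * v) := by ring
  linarith

theorem L5b_int {σ : ℝ} (hσ : 0 < σ) (x0 : ℝ) {I : Set ℝ} (hI : MeasurableSet I) (o c D : E0)
    (B : ℝ) (h : ∀ x ∈ I, o x ^ 2 ≤ B ^ 2 * c x ^ 2 + D x)
    (hD : ∫ x in I, sech (σ * (x - x0)) * D x ≤ 0) : loc I σ x0 o ≤ B ^ 2 * loc I σ x0 c := by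
  have i1 : IntegrableOn (fun x => sech (σ * (x - x0)) * o x ^ 2) I := by
    simpa [sq] using (integrable_sech_mul hσ x0 (o * o)).integrableOn (s := I)
  have i2 : IntegrableOn (fun x => sech (σ * (x - x0)) * c x ^ 2) I := by
    simpa [sq] using (integrable_sech_mul hσ x0 (c * c)).integrableOn (s := I)
  have i3 : IntegrableOn (fun x => sech (σ * (x - x0)) * D x) I :=
    (integrable_sech_mul hσ x0 D).integrableOn
  have h1 : ∫ x in I, sech (σ * (x - x0)) * o x ^ 2 ≤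
      ∫ x in I, (B ^ 2 * (sech (σ * (x - x0)) * c x ^ 2) + sech (σ * (x - x0)) * D x) := by
    refine setIntegral_mono_on i1 ((i2.const_mul _).add i3) hI fun x hx => ?_
    have := mul_le_mul_of_nonneg_left (h x hx) (sech_pos (σ * (x - x0))).le
    linarith
  rw [integral_add (i2.const_mul _) i3, integral_const_mul] at h1
  unfold loc
  have h2 := mul_le_mul_of_nonneg_left (h1.trans (add_le_of_nonpos_right hD)) hσ.le
  linarith

theorem energy_line {σ : ℝ} (hσ : 0 < σ) (α β dα dβ v c : E0) {B : ℝ} (hB : 1 ≤ B)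
    (hα : ∀ x, HasDerivAt α (dα x) x) (hβ : ∀ x, HasDerivAt β (dβ x) x)
    (hv : ∀ x, HasDerivAt v (α x * v x + c x) x)
    (h : ∀ x, σ * |B ^ 2 * α x + β x| ≤ B ^ 2 * α x ^ 2 - β x ^ 2 + (B ^ 2 * dα x + dβ x))
    (x0 : ℝ) : loc univ σ x0 (c + (α + β) * v : E0) ≤ B ^ 2 * loc univ σ x0 c := by
  obtain ⟨G, hG⟩ : ∃ G : E0, ∀ x, G x = B ^ 2 * α x + β x := ⟨B ^ 2 • α + β, fun x => by simp⟩
  obtain ⟨D, hD⟩ : ∃ D : E0, ∀ x, D x = (B ^ 2 * dα x + dβ x) * (v x * v x)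
      + 2 * (G x * (v x * (α x * v x + c x))) - σ * (tanh (σ * (x - x0)) * (G x * (v x * v x))) :=
    ⟨(B ^ 2 • dα + dβ) * (v * v) + (2 : ℝ) • (G * (v * (α * v + c)))
      - σ • (L5b_T σ x0 * (G * (v * v))), fun x => by simp [L5b_T_apply]⟩
  refine L5b_int hσ x0 MeasurableSet.univ _ c D B (fun x _ => ?_) (le_of_eq ?_)
  · rw [hD, hG]
    simpa using L5b_point (v := v x) (c := c x) hσ hB (abs_tanh_le_one (σ * (x - x0))) (h x)
  · rw [setIntegral_univ]
    refine integral_eq_zero_of_hasDerivAt_of_integrable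
      (f := fun x => sech (σ * (x - x0)) * (G x * (v x * v x))) (fun x => ?_)
      (integrable_sech_mul hσ x0 D) (integrable_sech_mul hσ x0 (G * (v * v)))
    have h1 : HasDerivAt G (B ^ 2 * dα x + dβ x) x := by
      have e : (G : ℝ → ℝ) = fun x => B ^ 2 * α x + β x := funext hG
      rw [e]
      exact ((hα x).const_mul _).add (hβ x)
    rw [hD]
    exact L5b_deriv σ x0 h1 (hv x)

theorem energy_half {σ : ℝ} (hσ : 0 < σ) (a b : ℝ) (v c : E0) {B : ℝ} (hB : 1 ≤ B)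
    (hv : ∀ x, 0 < x → HasDerivAt v (a * v x + c x) x)
    (h : σ * |B ^ 2 * a + b| ≤ B ^ 2 * a ^ 2 - b ^ 2) (h0 : v 0 = 0 ∨ 0 ≤ B ^ 2 * a + b)
    (x0 : ℝ) : loc (Ioi 0) σ x0 (c + (a + b) • v : E0) ≤ B ^ 2 * loc (Ioi 0) σ x0 c := by
  obtain ⟨D, hD⟩ : ∃ D : E0, ∀ x, D x = 0 * (v x * v x)
      + 2 * ((B ^ 2 * a + b) * (v x * (a * v x + c x)))
      - σ * (tanh (σ * (x - x0)) * ((B ^ 2 * a + b) * (v x * v x))) :=
    ⟨(2 : ℝ) • ((B ^ 2 * a + b) • (v * (a • v + c)))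
      - σ • (L5b_T σ x0 * ((B ^ 2 * a + b) • (v * v))), fun x => by simp [L5b_T_apply]⟩
  refine L5b_int hσ x0 measurableSet_Ioi _ c D B (fun x _ => ?_) ?_
  · rw [hD]
    simpa using L5b_point (v := v x) (c := c x) (G' := 0) hσ hB
      (abs_tanh_le_one (σ * (x - x0))) (by simpa using h)
  · have hd : ∀ x ∈ Ioi (0 : ℝ),
        HasDerivAt (fun x => sech (σ * (x - x0)) * ((B ^ 2 * a + b) * (v x * v x)))
          (sech (σ * (x - x0)) * D x) x := fun x hx => by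
      rw [hD]
      exact L5b_deriv σ x0 (hasDerivAt_const x (B ^ 2 * a + b)) (hv x hx)
    have i1 : IntegrableOn (fun x => sech (σ * (x - x0)) * D x) (Ioi 0) :=
      (integrable_sech_mul hσ x0 D).integrableOn
    have i2 : IntegrableOn (fun x => sech (σ * (x - x0)) * ((B ^ 2 * a + b) * (v x * v x)))
        (Ioi 0) := (integrable_sech_mul hσ x0 ((B ^ 2 * a + b) • (v * v))).integrableOn
    have hc : Continuous fun x => sech (σ * (x - x0)) * ((B ^ 2 * a + b) * (v x * v x)) :=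
      (continuous_sech.comp (by fun_prop)).mul (by fun_prop)
    rw [integral_Ioi_of_hasDerivAt_of_tendsto hc.continuousWithinAt hd i1
      (tendsto_zero_of_hasDerivAt_of_integrableOn_Ioi hd i1 i2), zero_sub, neg_nonpos]
    refine mul_nonneg (sech_pos _).le ?_
    rcases h0 with h0 | h0
    · simp [h0]
    · exact mul_nonneg h0 (mul_self_nonneg _)

end Pool.Agent.PS
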