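import Pool.Agent.P.MP_6c3c64_gt.Defs

/-! Row N4. Abstract telescoping lemma. `DL z = ∑' J, H J 0 0 z`. For the last part write
`H J τ z z - H J τ z' z' - H J 0 0 (z - z')
 = (H J τ z (z - z') - H J 0 0 (z - z')) + (H J τ z z' - H J τ z' z')`,
of norm at most `|C| ‖z‖ ν J (z - z') + |C| ‖z - z'‖ ν J z'`.
-/

set_option autoImplicit false

open Real BoundedContinuousFunction MeasureTheory Set Filter Topology
open scoped NNReal ENNReal

noncomputable section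

namespace Pool.Agent.PS

variable {X : Type} [NormedAddCommGroup X] [NormedSpace ℝ X]


theorem nl_abstract {V : Type} [NormedAddCommGroup V] [NormedSpace ℝ V] [CompleteSpace V]
    (H : ℕ → ℝ → X → X → V) (ν : ℕ → X → ℝ) (ρ C C' : ℝ) (hρ : 0 < ρ) (hν0 : ∀ J z, 0 ≤ ν J z)
    (hν : ∀ (z : X) (s : Finset ℕ), ∑ J ∈ s, ν J z ≤ C' * ‖z‖)
    (hlin : ∀ J τ z', IsLinearMap ℝ (H J τ z')) (h0 : ∀ J z, ‖H J 0 0 z‖ ≤ C * ν J z)
    (h1 : ∀ J, ∀ τ ∈ Icc (0 : ℝ) 1, ∀ τ' ∈ Icc (0 : ℝ) 1, ∀ z1 z2 : X, ‖z1‖ ≤ ρ → ‖z2‖ ≤ ρ → ∀ z,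
      ‖H J τ z1 z - H J τ' z2 z‖ ≤ C * (‖z1 - z2‖ + |τ - τ'| * ‖z2‖) * ν J z) :
    ∃ DL : X →L[ℝ] V, (∀ z, HasSum (fun J => H J 0 0 z) (DL z)) ∧
      (∀ z, ‖z‖ ≤ ρ → (∀ J, ContinuousOn (fun τ => H J τ z z) (Icc 0 1)) ∧
        Summable fun J => ∫ τ in (0 : ℝ)..1, H J τ z z) ∧
      ∀ η > 0, ∃ ρ' > 0, ∀ z z' : X, ‖z‖ ≤ ρ' → ‖z'‖ ≤ ρ' →
        ‖(∑' J, ∫ τ in (0 : ℝ)..1, H J τ z z) - (∑' J, ∫ τ in (0 : ℝ)..1, H J τ z' z')
          - DL (z - z')‖ ≤ η * ‖z - z'‖ := by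
  have hc : 0 ≤ |C| := abs_nonneg C
  have hc' : 0 ≤ |C'| := abs_nonneg C'
  have hνs : ∀ z, Summable fun J => ν J z := fun z => summable_of_sum_le (fun J => hν0 J z) (hν z)
  have hνt : ∀ z, ∑' J, ν J z ≤ |C'| * ‖z‖ := fun z =>
    ((hνs z).tsum_le_of_sum_le (hν z)).trans
      (mul_le_mul_of_nonneg_right (le_abs_self _) (norm_nonneg _))
  have h0' : ∀ J z, ‖H J 0 0 z‖ ≤ |C| * ν J z := fun J z =>
    (h0 J z).trans (mul_le_mul_of_nonneg_right (le_abs_self _) (hν0 J z))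
  have h1' : ∀ J, ∀ τ ∈ Icc (0 : ℝ) 1, ∀ τ' ∈ Icc (0 : ℝ) 1, ∀ z1 z2 : X, ‖z1‖ ≤ ρ → ‖z2‖ ≤ ρ →
      ∀ z, ‖H J τ z1 z - H J τ' z2 z‖ ≤ |C| * (‖z1 - z2‖ + |τ - τ'| * ‖z2‖) * ν J z :=
    fun J τ hτ τ' hτ' z1 z2 hz1 hz2 z => (h1 J τ hτ τ' hτ' z1 z2 hz1 hz2 z).trans
      (mul_le_mul_of_nonneg_right (mul_le_mul_of_nonneg_right (le_abs_self _) (by positivity))
        (hν0 J z))
  have h00 : (0 : ℝ) ∈ Icc (0 : ℝ) 1 := ⟨le_rfl, zero_le_one⟩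
  have h2 : ∀ J, ∀ τ ∈ Icc (0 : ℝ) 1, ∀ z1 : X, ‖z1‖ ≤ ρ →
      ∀ z, ‖H J τ z1 z - H J 0 0 z‖ ≤ |C| * ‖z1‖ * ν J z := by
    intro J τ hτ z1 hz1 z
    have := h1' J τ hτ 0 h00 z1 0 hz1 (by rw [norm_zero]; exact hρ.le) z
    simpa only [sub_zero, norm_zero, mul_zero, add_zero] using this
  have hS0 : ∀ z, Summable fun J => H J 0 0 z := fun z =>
    Summable.of_norm_bounded ((hνs z).mul_left |C|) fun J => h0' J z
  let L : X →ₗ[ℝ] V :=
    { toFun := fun z => ∑' J, H J 0 0 z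
      map_add' := fun z z' => by
        simp only [(hlin _ _ _).map_add]
        exact (hS0 z).tsum_add (hS0 z')
      map_smul' := fun a z => by
        simp only [(hlin _ _ _).map_smul, RingHom.id_apply]
        exact (hS0 z).tsum_const_smul a }
  have hL : ∀ z, ‖L z‖ ≤ |C| * |C'| * ‖z‖ := fun z => by
    refine (tsum_of_norm_bounded ((hνs z).hasSum.mul_left |C|) fun J => h0' J z).trans ?_
    rw [mul_assoc]
    exact mul_le_mul_of_nonneg_left (hνt z) hc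
  have hcont : ∀ z, ‖z‖ ≤ ρ → ∀ J, ContinuousOn (fun τ => H J τ z z) (Icc 0 1) := by
    intro z hz J
    have hK : 0 ≤ |C| * ‖z‖ * ν J z := mul_nonneg (by positivity) (hν0 J z)
    refine (LipschitzOnWith.of_dist_le_mul (K := NNReal.mk _ hK) fun τ hτ τ' hτ' => ?_).continuousOn
    rw [dist_eq_norm, Real.dist_eq]
    refine (h1' J τ hτ τ' hτ' z z hz hz z).trans (le_of_eq ?_)
    rw [sub_self, norm_zero, NNReal.coe_mk]
    ring
  have hint : ∀ z, ‖z‖ ≤ ρ → ∀ J, IntervalIntegrable (fun τ => H J τ z z) volume 0 1 :=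
    fun z hz J => (hcont z hz J).intervalIntegrable_of_Icc zero_le_one
  have hI : ∀ τ ∈ Set.uIoc (0 : ℝ) 1, τ ∈ Icc (0 : ℝ) 1 := fun τ hτ => by
    rw [uIoc_of_le zero_le_one] at hτ
    exact Ioc_subset_Icc_self hτ
  have hsum : ∀ z, ‖z‖ ≤ ρ → Summable fun J => ∫ τ in (0 : ℝ)..1, H J τ z z := by
    intro z hz
    refine Summable.of_norm_bounded ((hνs z).mul_left (|C| * ‖z‖ + |C|)) fun J => ?_
    refine (intervalIntegral.norm_integral_le_of_norm_le_const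
      (C := (|C| * ‖z‖ + |C|) * ν J z) fun τ hτ => ?_).trans (by simp)
    have h3 := norm_add_le (H J τ z z - H J 0 0 z) (H J 0 0 z)
    rw [sub_add_cancel] at h3
    have h4 := h2 J τ (hI τ hτ) z hz z
    have h5 := h0' J z
    linarith
  refine ⟨L.mkContinuous _ hL, fun z => (hS0 z).hasSum, fun z hz => ⟨hcont z hz, hsum z hz⟩,
    fun η hη => ?_⟩
  have hA : 0 < 2 * (|C| * |C'|) + 1 := by positivity
  refine ⟨min ρ (η / (2 * (|C| * |C'|) + 1)), lt_min hρ (div_pos hη hA), fun z z' hz hz' => ?_⟩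
  obtain ⟨hz1, hz2⟩ := le_min_iff.1 hz
  obtain ⟨hz1', hz2'⟩ := le_min_iff.1 hz'
  rw [le_div_iff₀ hA] at hz2 hz2'
  change ‖(∑' J, ∫ τ in (0 : ℝ)..1, H J τ z z) - (∑' J, ∫ τ in (0 : ℝ)..1, H J τ z' z')
    - ∑' J, H J 0 0 (z - z')‖ ≤ _
  rw [← (hsum z hz1).tsum_sub (hsum z' hz1'),
    ← ((hsum z hz1).sub (hsum z' hz1')).tsum_sub (hS0 _)]
  have hb : ∀ J, ‖(∫ τ in (0 : ℝ)..1, H J τ z z) - (∫ τ in (0 : ℝ)..1, H J τ z' z')
      - H J 0 0 (z - z')‖ ≤ |C| * ‖z‖ * ν J (z - z') + |C| * ‖z - z'‖ * ν J z' := by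
    intro J
    have h3 : (∫ τ in (0 : ℝ)..1, H J τ z z) - (∫ τ in (0 : ℝ)..1, H J τ z' z')
        - H J 0 0 (z - z') = ∫ τ in (0 : ℝ)..1, (H J τ z z - H J τ z' z' - H J 0 0 (z - z')) := by
      rw [intervalIntegral.integral_sub ((hint z hz1 J).sub (hint z' hz1' J))
        intervalIntegrable_const, intervalIntegral.integral_sub (hint z hz1 J) (hint z' hz1' J),
        intervalIntegral.integral_const, sub_zero, one_smul]
    rw [h3]
    refine (intervalIntegral.norm_integral_le_of_norm_le_const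
      (C := |C| * ‖z‖ * ν J (z - z') + |C| * ‖z - z'‖ * ν J z') fun τ hτ => ?_).trans (by simp)
    have h4 : H J τ z z - H J τ z' z' - H J 0 0 (z - z') =
        (H J τ z (z - z') - H J 0 0 (z - z')) + (H J τ z z' - H J τ z' z') := by
      rw [(hlin J τ z).map_sub]
      abel
    rw [h4]
    refine (norm_add_le _ _).trans (add_le_add (h2 J τ (hI τ hτ) z hz1 _) ?_)
    have := h1' J τ (hI τ hτ) τ (hI τ hτ) z z' hz1 hz1' z'
    simpa only [sub_self, abs_zero, zero_mul, add_zero] using this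
  refine (tsum_of_norm_bounded (((hνs (z - z')).hasSum.mul_left (|C| * ‖z‖)).add
    ((hνs z').hasSum.mul_left (|C| * ‖z - z'‖))) hb).trans ?_
  have h5 := mul_le_mul_of_nonneg_left (hνt (z - z')) (by positivity : 0 ≤ |C| * ‖z‖)
  have h6 := mul_le_mul_of_nonneg_left (hνt z') (by positivity : 0 ≤ |C| * ‖z - z'‖)
  have h7 : |C| * |C'| * (‖z‖ + ‖z'‖) ≤ η := by
    have := norm_nonneg z
    have := norm_nonneg z'
    linarith
  have h8 := mul_le_mul_of_nonneg_right h7 (norm_nonneg (z - z'))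
  linarith

end Pool.Agent.PS
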