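import Pool.Agent.P.MP_6c3c64_gt.O0
import Pool.Agent.P.MP_6c3c64_gt.Z4

/-! Row N5a. `II` after `GamC`, `GamP` is integration of the evaluations along the circle.
First: for every `c`, `ψ ↦ ev1 .. c` is continuous (`W.induction`; uniform limits since
`‖ev1 ..‖ ≤ 1`). Then both sides are continuous and additive in `c` (resp. `p`), so `W.induction`
reduces to monomials: `II_single`, `ee_add_arg`, and `Imn_dx` with `P = primL e`.
-/

set_option autoImplicit false

open Real BoundedContinuousFunction MeasureTheory Set Filter Topology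
open scoped NNReal ENNReal

noncomputable section

namespace Pool.Agent.PS

theorem N5a_closed {V : Type} [NormedAddCommGroup V] [NormedSpace ℝ V] (L : ℝ → V →L[ℝ] ℂ)
    (hL : ∀ ψ, ‖L ψ‖ ≤ 1) : IsClosed {c | Continuous fun ψ => L ψ c} := by
  refine IsSeqClosed.isClosed fun u c hu hc => ?_
  refine TendstoUniformly.continuous (F := fun n ψ => L ψ (u n)) (p := atTop) ?_
    (Frequently.of_forall hu)
  refine Metric.tendstoUniformly_iff.2 fun ε hε => ?_
  filter_upwards [Metric.tendsto_nhds.1 hc ε hε] with n hn ψ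
  rw [dist_comm]
  refine lt_of_le_of_lt ((L ψ).dist_le_opNorm _ _) ?_
  exact lt_of_le_of_lt (mul_le_of_le_one_left dist_nonneg (hL ψ)) hn

theorem N5a_int {V : Type} [NormedAddCommGroup V] [NormedSpace ℝ V] (L : ℝ → V →L[ℝ] ℂ)
    (hL : ∀ ψ, ‖L ψ‖ ≤ 1) (hc : ∀ c, Continuous fun ψ => L ψ c) {g : ℝ → ℂ} (hg : Continuous g) :
    Continuous fun c => ∫ ψ in (0 : ℝ)..2 * π, g ψ * L ψ c := by
  have h : Continuous fun q : V × ℝ => L q.2 q.1 :=
    continuous_prod_of_continuous_lipschitzWith _ 1 hc fun ψ =>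
      (L ψ).lipschitz.weaken (hL ψ)
  exact intervalIntegral.continuous_parametric_intervalIntegral_of_continuous'
    (f := fun c ψ => g ψ * L ψ c) ((hg.comp continuous_snd).mul h) _ _

theorem continuous_ev1 (ω : Wt) (a α : ℝ) (c : W ω E1) :
    Continuous fun ψ => ev1 ω (ψ + α) (xc a ψ) (wc a ψ) c := by
  refine W.induction (P := fun c => Continuous fun ψ => ev1 ω (ψ + α) (xc a ψ) (wc a ψ) c)
    (N5a_closed _ fun ψ => norm_ev1 ω _ _ (norm_wc a ψ)) ?_ (fun k e => ?_)
    (fun c d hc hd => ?_) c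
  · simp only [map_zero]; exact continuous_const
  · simp only [ev1_single ω _ _ (norm_wc a _), ee_add_arg, ← mul_assoc]
    exact (continuous_Imn_integrand k.1 k.2 a (fstL e).continuous).mul continuous_const
  · simp only [map_add]; exact hc.add hd
theorem continuous_ev0 (ω : Wt) (a α : ℝ) (p : W ω E0) :
    Continuous fun ψ => ev0 ω (ψ + α) (xc a ψ) (wc a ψ) p := by
  refine W.induction (P := fun c => Continuous fun ψ => ev0 ω (ψ + α) (xc a ψ) (wc a ψ) c)
    (N5a_closed _ fun ψ => norm_ev0 ω _ _ (norm_wc a ψ)) ?_ (fun k e => ?_)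
    (fun c d hc hd => ?_) p
  · simp only [map_zero]; exact continuous_const
  · simp only [ev0_single ω _ _ (norm_wc a _), ee_add_arg, ← mul_assoc]
    exact (continuous_Imn_integrand k.1 k.2 a e.continuous).mul continuous_const
  · simp only [map_add]; exact hc.add hd

theorem N5a_C (J : ℕ) (a α : ℝ) (c : A1 J) :
    II a α (GamC J c) = ∫ ψ in (0 : ℝ)..2 * π, ev1 (wJ J) (ψ + α) (xc a ψ) (wc a ψ) c := by
  have hcont := N5a_int (fun ψ => ev1 (wJ J) (ψ + α) (xc a ψ) (wc a ψ))
    (fun ψ => norm_ev1 _ _ _ (norm_wc a ψ)) (continuous_ev1 _ a α) (g := fun _ => 1)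
    continuous_const
  simp only [one_mul] at hcont
  refine W.induction (P := fun c => II a α (GamC J c) =
    ∫ ψ in (0 : ℝ)..2 * π, ev1 (wJ J) (ψ + α) (xc a ψ) (wc a ψ) c)
    (isClosed_eq (by fun_prop) hcont) (by simp) (fun k e => ?_) (fun c d hc hd => ?_) c
  · rw [GamC_single, II_single, Imn, ← intervalIntegral.integral_const_mul]
    congr 1
    ext ψ
    rw [ev1_single _ _ _ (norm_wc a _), ee_add_arg]
    ring
  · simp only [map_add]
    rw [hc, hd, intervalIntegral.integral_add ((continuous_ev1 _ a α c).intervalIntegrable _ _)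
      ((continuous_ev1 _ a α d).intervalIntegrable _ _)]

theorem N5a_g (a : ℝ) :
    Continuous fun ψ => Complex.I * ((eps (xc a ψ) * dxc a ψ : ℝ) : ℂ) :=
  continuous_const.mul (Complex.continuous_ofReal.comp
    ((continuous_eps.comp (continuous_xc a)).mul (continuous_dxc a)))

theorem N5a_P (J : ℕ) (a α : ℝ) (p : A0 J) :
    II a α (GamP J p) = ∫ ψ in (0 : ℝ)..2 * π, Complex.I * (eps (xc a ψ) * dxc a ψ : ℝ) *
      ev0 (wJ J) (ψ + α) (xc a ψ) (wc a ψ) p := by
  have hcont := N5a_int (fun ψ => ev0 (wJ J) (ψ + α) (xc a ψ) (wc a ψ))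
    (fun ψ => norm_ev0 _ _ _ (norm_wc a ψ)) (continuous_ev0 _ a α) (N5a_g a)
  refine W.induction (P := fun p => II a α (GamP J p) =
    ∫ ψ in (0 : ℝ)..2 * π, Complex.I * (eps (xc a ψ) * dxc a ψ : ℝ) *
      ev0 (wJ J) (ψ + α) (xc a ψ) (wc a ψ) p)
    (isClosed_eq (by fun_prop) hcont) (by simp) (fun k e => ?_) (fun c d hc hd => ?_) p
  · have h := Imn_dx k.1 k.2 a (primL e) (fun x => eps x * e x)
      (continuous_eps.mul e.continuous) (hasDerivAt_primL e)
    have e1 : ⇑(fstL (prim k.1 k.2 e)) = fun x => (k.1 - 2 * k.2 * tanh x) * primL e x := by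
      ext x
      rw [fstL_prim, BoundedContinuousFunction.mul_apply, alpB_apply]
    rw [GamP_single, II_single, e1, ← h, ← intervalIntegral.integral_const_mul]
    congr 1
    ext ψ
    rw [ev0_single _ _ _ (norm_wc a _), ee_add_arg]
    push_cast
    ring
  · simp only [map_add, mul_add]
    rw [hc, hd]
    exact (intervalIntegral.integral_add
      (((N5a_g a).mul (continuous_ev0 _ a α c)).intervalIntegrable _ _)
      (((N5a_g a).mul (continuous_ev0 _ a α d)).intervalIntegrable _ _)).symm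

theorem II_Gam (J : ℕ) (a α : ℝ) (c : A1 J) (p : A0 J) :
    II a α (GamC J c + GamP J p) = ∫ ψ in (0 : ℝ)..2 * π,
      (ev1 (wJ J) (ψ + α) (xc a ψ) (wc a ψ) c + Complex.I * (eps (xc a ψ) * dxc a ψ : ℝ) *
        ev0 (wJ J) (ψ + α) (xc a ψ) (wc a ψ) p) := by
  rw [map_add, N5a_C, N5a_P]
  exact (intervalIntegral.integral_add
    ((continuous_ev1 _ a α c).intervalIntegrable _ _)
    (((N5a_g a).mul (continuous_ev0 _ a α p)).intervalIntegrable _ _)).symm

end Pool.Agent.PS
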