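import Pool.Agent.P.MP_6c3c64_gt.N5b_a

/-! Row N5b. Pointwise identification of the integrand. Let `g = T.jet (sw J τ) z`, `φ = ψ + α`,
`x = xc a ψ`, `w = wc a ψ`; the series in `jet` are finite sums (`tsum_eq_sum`).
`ev (cosE m e) = e x * cos (m φ)`, `ev (sinE m e) = i * e x * sin (m φ)`. Hence
`ev NN = n * sech`, `ev ET = sech * a`, `ev RH = r`, `ev NT = a - tanh * n`, `ev (u 2) = -i b`,
`ev (u 3) = -i l`, `eps * ev lh = -i l`, `eps * ev mh = u`, and with `δ = F J z x * cos (m φ)`,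
`δx = eps * F1 J z x * cos (m φ)`, `δφ = -m * F J z x * sin (m φ)` the difference of the two `nv` is
`(δ - tanh * δx, δφ, sech * δx)`. With `c = cosh x / rho a`, `s = -a sin ψ / rho a` one has
`c ^ 2 + s ^ 2 = 1`, `w = (c + i s) ^ 2`, `w⁻¹ = (c - i s) ^ 2`, and
`ev (QQ u) = N ^ 2 + (Nt * s + b * c) ^ 2 = X ^ 2 + Y ^ 2` for `(X, Y, Z) = g.gv a α ψ`;
`ev k0`, `ev q0` come from `B.ev_kc`, `B.ev_qc` (`W.summable_single`, `HasSum.mapL`), and
`map_binom` with `‖ev‖ ≤ 1` gives `ev (kk u) = (√(X ^ 2 + Y ^ 2) ^ 3)⁻¹`. Finally `frame` is a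
rotation, so `det3` can be computed in cylindrical components:
`det3 nv nd δnv = r (N δx - η δ) - l (N δφ - sech b δ)
 + x' (l (N δx - η δ) - u (N δφ - sech b δ))` (uses `tanh ^ 2 + sech ^ 2 = 1`; the identity was
checked numerically).
-/

set_option autoImplicit false

open Real BoundedContinuousFunction MeasureTheory Set Filter Topology
open scoped NNReal ENNReal

noncomputable section

namespace Pool.Agent.PS

variable {X : Type} [NormedAddCommGroup X] [NormedSpace ℝ X]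


theorem det3_frame (a ψ : ℝ) (p q r : ℝ × ℝ × ℝ) :
    det3 (frame a ψ p) (frame a ψ q) (frame a ψ r) = det3 p q r := N5b_det3_frame a ψ p q r

section values

variable (T : Jets X) (B : Base) (J : ℕ) (τ : ℝ) (z : X) (φ x : ℝ) {w : ℂ} (hw : ‖w‖ = 1)

theorem N5b_n : (T.jet (sw J τ) z).n φ x =
    n0f x + ∑ j ∈ Finset.range (J + 1), sw J τ j * T.F j z x * cos (mm j * φ) := by
  simp only [Jets.jet]; rw [N5b_tsum J τ _ fun j h => by simp [h]]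
theorem N5b_a : (T.jet (sw J τ) z).a φ x =
    a0f x + ∑ j ∈ Finset.range (J + 1), sw J τ j * (eps x * T.F1 j z x) * cos (mm j * φ) := by
  simp only [Jets.jet]; rw [N5b_tsum J τ _ fun j h => by simp [h]]
theorem N5b_b : (T.jet (sw J τ) z).b φ x =
    ∑ j ∈ Finset.range (J + 1), -(sw J τ j * mm j * T.F j z x * sin (mm j * φ)) := by
  simp only [Jets.jet]; rw [N5b_tsum J τ _ fun j h => by simp [h]]
theorem N5b_l : (T.jet (sw J τ) z).l φ x =
    ∑ j ∈ Finset.range (J + 1), -(sw J τ j * mm j * (eps x * T.F1 j z x) * sin (mm j * φ)) := by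
  simp only [Jets.jet]; rw [N5b_tsum J τ _ fun j h => by simp [h]]
theorem N5b_r : (T.jet (sw J τ) z).r φ x =
    nu0f x + ∑ j ∈ Finset.range (J + 1), sw J τ j * (T.F j z x - tanh x * (eps x * T.F1 j z x)
      - (mm j : ℝ) ^ 2 * T.F j z x) * cos (mm j * φ) := by
  simp only [Jets.jet]; rw [N5b_tsum J τ _ fun j h => by simp [h]]
theorem N5b_u : (T.jet (sw J τ) z).u φ x = eps x * mu0f x +
    ∑ j ∈ Finset.range (J + 1), sw J τ j * (eps x * T.F2 j z x) * cos (mm j * φ) := by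
  simp only [Jets.jet]; rw [N5b_tsum J τ _ fun j h => by simp [h]]

theorem N5b_JF (j : ℕ) : fstL (T.JF j z) x = T.F j z x := rfl
theorem N5b_JD (j : ℕ) : fstL (T.JD j z) x = eps x * T.F1 j z x := rfl

theorem N5b_diff (f : ℕ → ℝ) : ∑ j ∈ Finset.range (J + 1), sw J 1 j * f j -
    ∑ j ∈ Finset.range (J + 1), sw J 0 j * f j = f J := by
  rw [Finset.sum_range_succ, Finset.sum_range_succ]
  have : ∑ j ∈ Finset.range J, sw J 1 j * f j = ∑ j ∈ Finset.range J, sw J 0 j * f j :=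
    Finset.sum_congr rfl fun j hj => by simp [sw, Finset.mem_range.1 hj]
  rw [this]
  simp [sw]

theorem N5b_nv_diff : (T.jet (sw J 1) z).nv φ x - (T.jet (sw J 0) z).nv φ x =
    (T.F J z x * cos (mm J * φ) - tanh x * (eps x * T.F1 J z x * cos (mm J * φ)),
      -(mm J * T.F J z x * sin (mm J * φ)), sech x * (eps x * T.F1 J z x * cos (mm J * φ))) := by
  have h0 := N5b_diff J fun j => T.F j z x * cos (mm j * φ)
  have h1 := N5b_diff J fun j => eps x * T.F1 j z x * cos (mm j * φ)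
  have h2 := N5b_diff J fun j => mm j * T.F j z x * sin (mm j * φ)
  simp only [RJ.nv, N5b_n, N5b_a, N5b_b, Prod.mk_sub_mk, Prod.mk.injEq, Finset.sum_neg_distrib,
    mul_assoc] at h0 h1 h2 ⊢
  refine ⟨?_, ?_, ?_⟩
  · linear_combination h0 - tanh x * h1
  · linear_combination -h2
  · linear_combination sech x * h1

include hw

theorem N5b_u0 : ev1 (wJ J) φ x w (T.uu J τ z 0) =
    ((T.jet (sw J τ) z).n φ x - n0f x : ℝ) := by
  simp only [Jets.uu, Matrix.cons_val_zero, map_sum, map_smul, N5b_ev1_cos _ φ x hw, N5b_n, N5b_JF,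
    Complex.real_smul, add_sub_cancel_left, Complex.ofReal_sum, ← Complex.ofReal_mul,
    Int.cast_natCast, mul_assoc]
theorem N5b_u1 : ev1 (wJ J) φ x w (T.uu J τ z 1) =
    ((T.jet (sw J τ) z).a φ x - a0f x : ℝ) := by
  simp only [Jets.uu, Matrix.cons_val_one, Matrix.cons_val_zero, map_sum, map_smul,
    N5b_ev1_cos _ φ x hw, N5b_a, N5b_JD,
    Complex.real_smul, add_sub_cancel_left, Complex.ofReal_sum, ← Complex.ofReal_mul,
    Int.cast_natCast, mul_assoc]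
theorem N5b_u2 : ev1 (wJ J) φ x w (T.uu J τ z 2) =
    -(Complex.I * ((T.jet (sw J τ) z).b φ x : ℝ)) := by
  have : T.uu J τ z 2 = ∑ j ∈ Finset.range (J + 1),
    (sw J τ j * mm j) • sinE (wJ J) (mm j) (T.JF j z) := rfl
  rw [this, N5b_b, map_sum, Complex.ofReal_sum, Finset.mul_sum, ← Finset.sum_neg_distrib]
  refine Finset.sum_congr rfl fun j _ => ?_
  rw [map_smul, N5b_ev1_sin _ φ x hw, N5b_JF, Complex.real_smul, Int.cast_natCast]
  push_cast; ring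
theorem N5b_u3 : ev1 (wJ J) φ x w (T.uu J τ z 3) =
    -(Complex.I * ((T.jet (sw J τ) z).l φ x : ℝ)) := by
  have : T.uu J τ z 3 = ∑ j ∈ Finset.range (J + 1),
    (sw J τ j * mm j) • sinE (wJ J) (mm j) (T.JD j z) := rfl
  rw [this, N5b_l, map_sum, Complex.ofReal_sum, Finset.mul_sum, ← Finset.sum_neg_distrib]
  refine Finset.sum_congr rfl fun j _ => ?_
  rw [map_smul, N5b_ev1_sin _ φ x hw, N5b_JD, Complex.real_smul, Int.cast_natCast]
  push_cast; ring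
theorem N5b_u4 : ev1 (wJ J) φ x w (T.uu J τ z 4) =
    ((T.jet (sw J τ) z).r φ x - nu0f x - ((T.jet (sw J τ) z).n φ x - n0f x)
      + tanh x * ((T.jet (sw J τ) z).a φ x - a0f x) : ℝ) := by
  have : T.uu J τ z 4 = -∑ j ∈ Finset.range (J + 1),
    (sw J τ j * (mm j : ℝ) ^ 2) • cosE (wJ J) (mm j) (T.JF j z) := rfl
  rw [this, N5b_r, N5b_n, N5b_a, map_neg, map_sum, add_sub_cancel_left, add_sub_cancel_left,
    add_sub_cancel_left, Finset.mul_sum, ← Finset.sum_sub_distrib, ← Finset.sum_add_distrib,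
    Complex.ofReal_sum, ← Finset.sum_neg_distrib]
  refine Finset.sum_congr rfl fun j _ => ?_
  rw [map_smul, N5b_ev1_cos _ φ x hw, N5b_JF, Complex.real_smul, Int.cast_natCast]
  push_cast; ring
theorem N5b_lh : (eps x : ℂ) * ev0 (wJ J) φ x w (T.lh J τ z) =
    -(Complex.I * ((T.jet (sw J τ) z).l φ x : ℝ)) := by
  rw [Jets.lh, N5b_l, map_sum, Complex.ofReal_sum, Finset.mul_sum, Finset.mul_sum,
    ← Finset.sum_neg_distrib]
  refine Finset.sum_congr rfl fun j _ => ?_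
  rw [map_smul, N5b_ev0_sin _ φ x hw, Complex.real_smul, Int.cast_natCast]
  push_cast; ring
theorem N5b_mh : (eps x : ℂ) * ev0 (wJ J) φ x w (T.mh B J τ z) =
    ((T.jet (sw J τ) z).u φ x : ℝ) := by
  rw [Jets.mh, N5b_u, map_add, map_sum, N5b_ev0_const _ φ x hw, B.hmu0, mul_add,
    Complex.ofReal_add, Complex.ofReal_sum, Finset.mul_sum, Complex.ofReal_mul]
  congr 1
  refine Finset.sum_congr rfl fun j _ => ?_
  rw [map_smul, N5b_ev0_cos _ φ x hw, Complex.real_smul, Int.cast_natCast]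
  push_cast; ring

end values

theorem Jets.ev_HH (T : Jets X) (B : Base) (J : ℕ) (τ : ℝ) (z : X)
    (h : ‖(B.bv (wJ J)).dq (T.uu J τ z)‖ ≤ 1 / 2) (a α ψ : ℝ) :
    ev1 (wJ J) (ψ + α) (xc a ψ) (wc a ψ) (T.hC B J τ z z) +
      Complex.I * (eps (xc a ψ) * dxc a ψ : ℝ) *
        ev0 (wJ J) (ψ + α) (xc a ψ) (wc a ψ) (T.hP B J τ z z) =
    (det3 ((T.jet (sw J τ) z).gv a α ψ) ((T.jet (sw J τ) z).gd a α ψ)
        ((T.jet (sw J 1) z).gv a α ψ - (T.jet (sw J 0) z).gv a α ψ) /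
      √(((T.jet (sw J τ) z).gv a α ψ).1 ^ 2 + ((T.jet (sw J τ) z).gv a α ψ).2.1 ^ 2) ^ 3 : ℝ) := by
  have hw := norm_wc a ψ
  have hm := ev1_mul (wJ J) (ψ + α) (xc a ψ) hw
  have hm0 := ev0_mul (wJ J) (ψ + α) (xc a ψ) hw
  have h1 := ev1_one (wJ J) (ψ + α) (xc a ψ) hw
  have hc := N5b_ev1_const (wJ J) (ψ + α) (xc a ψ) hw
  have u0 := N5b_u0 T J τ z (ψ + α) (xc a ψ) hw
  have u1 := N5b_u1 T J τ z (ψ + α) (xc a ψ) hw
  have u2 := N5b_u2 T J τ z (ψ + α) (xc a ψ) hw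
  have u3 := N5b_u3 T J τ z (ψ + α) (xc a ψ) hw
  have u4 := N5b_u4 T J τ z (ψ + α) (xc a ψ) hw
  have ul := N5b_lh T J τ z (ψ + α) (xc a ψ) hw
  have um := N5b_mh T B J τ z (ψ + α) (xc a ψ) hw
  have hk0 := N5b_ev_series J (ψ + α) (xc a ψ) hw B.kc B.sum_kc (B.ev_kc _ _ hw)
  have hq0 := N5b_ev_series J (ψ + α) (xc a ψ) hw B.qc B.sum_qc (B.ev_qc _ _ hw)
  have hcs := N5b_cs a ψ
  have hww : ev1 (wJ J) (ψ + α) (xc a ψ) (wc a ψ) (B.bv (wJ J)).w =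
      ((cosh (xc a ψ) / rho a : ℝ) + Complex.I * (-(a * sin ψ) / rho a : ℝ)) ^ 2 := by
    rw [Base.bv, ev1_single _ _ _ hw, ← N5b_wc]; simp [ee_zero]
  have hwi : ev1 (wJ J) (ψ + α) (xc a ψ) (wc a ψ) (B.bv (wJ J)).wi =
      ((cosh (xc a ψ) / rho a : ℝ) - Complex.I * (-(a * sin ψ) / rho a : ℝ)) ^ 2 := by
    rw [Base.bv, ev1_single _ _ _ hw, ← N5b_inv hcs, ← N5b_wc]; simp [ee_zero]
  have hre : (1 - (wc a ψ).re) / 2 = (-(a * sin ψ) / rho a) ^ 2 := by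
    rw [N5b_wc]; exact N5b_re hcs
  rw [hre] at hk0 hq0
  have hsq := N5b_sq a ψ ((T.jet (sw J τ) z).n (ψ + α) (xc a ψ))
    ((T.jet (sw J τ) z).a (ψ + α) (xc a ψ)) ((T.jet (sw J τ) z).b (ψ + α) (xc a ψ))
  have hdet := N5b_det_cyl (tanh (xc a ψ)) (sech (xc a ψ)) ((T.jet (sw J τ) z).n (ψ + α) (xc a ψ))
    ((T.jet (sw J τ) z).a (ψ + α) (xc a ψ)) ((T.jet (sw J τ) z).b (ψ + α) (xc a ψ))
    ((T.jet (sw J τ) z).l (ψ + α) (xc a ψ)) ((T.jet (sw J τ) z).r (ψ + α) (xc a ψ))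
    ((T.jet (sw J τ) z).u (ψ + α) (xc a ψ)) (dxc a ψ) (T.F J z (xc a ψ) * cos (mm J * (ψ + α)))
    (eps (xc a ψ) * T.F1 J z (xc a ψ) * cos (mm J * (ψ + α)))
    (-(mm J * T.F J z (xc a ψ) * sin (mm J * (ψ + α))))
  rw [RJ.gv, RJ.gv, RJ.gv, RJ.gd, N5b_frame_sub, N5b_det3_frame, N5b_nv_diff, RJ.nv, RJ.nd, hdet,
    hsq]
  have hN : ev1 (wJ J) (ψ + α) (xc a ψ) (wc a ψ) ((B.bv (wJ J)).NN (T.uu J τ z)) =
      ((T.jet (sw J τ) z).n (ψ + α) (xc a ψ) * sech (xc a ψ) : ℝ) := by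
    simp only [BV.NN, Base.bv, map_add, hm, hc, u0, B.hN0, B.hsE, N0f_eq]
    push_cast; ring
  have hE : ev1 (wJ J) (ψ + α) (xc a ψ) (wc a ψ) ((B.bv (wJ J)).ET (T.uu J τ z)) =
      (sech (xc a ψ) * (T.jet (sw J τ) z).a (ψ + α) (xc a ψ) : ℝ) := by
    simp only [BV.ET, Base.bv, map_add, hm, hc, u1, B.heta0, B.hsE, eta0f_eq]
    push_cast; ring
  have hR : ev1 (wJ J) (ψ + α) (xc a ψ) (wc a ψ) ((B.bv (wJ J)).RH (T.uu J τ z)) =
      ((T.jet (sw J τ) z).r (ψ + α) (xc a ψ) : ℝ) := by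
    simp only [BV.RH, Base.bv, map_add, map_sub, hm, hc, u0, u1, u4, B.hnu0, B.htE]
    push_cast; ring
  have hT : ev1 (wJ J) (ψ + α) (xc a ψ) (wc a ψ) ((B.bv (wJ J)).NT (T.uu J τ z)) =
      ((T.jet (sw J τ) z).a (ψ + α) (xc a ψ)
        - tanh (xc a ψ) * (T.jet (sw J τ) z).n (ψ + α) (xc a ψ) : ℝ) := by
    simp only [BV.NT, Base.bv, map_add, map_sub, hm, hc, u0, u1, B.hNt0, B.htE, Nt0f_eq]
    push_cast; ring
  have hQ := N5b_evQ _ h1 hm (B.bv (wJ J)) (T.uu J τ z) hcs hN hT u2 hww hwi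
  have hQ0 := N5b_evQ _ h1 hm (B.bv (wJ J)) 0 (N := N0f (xc a ψ)) (Nt := Nt0f (xc a ψ)) (β := 0) hcs
    (by simp only [BV.NN, Base.bv, Pi.zero_apply, mul_zero, add_zero, hc, B.hN0])
    (by simp only [BV.NT, Base.bv, Pi.zero_apply, mul_zero, add_zero, sub_zero, hc, B.hNt0])
    (by simp) hww hwi
  rw [zero_mul, add_zero, mul_pow] at hQ0
  have hk := N5b_evk _ h1 hm (norm_ev1 _ _ _ hw) (B.bv (wJ J)) (T.uu J τ z)
    (by have := (N0f_bounds (xc a ψ)).1; positivity) hQ hQ0 hk0 hq0 h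
  have hs : ev1 (wJ J) (ψ + α) (xc a ψ) (wc a ψ) (B.bv (wJ J)).s = (sech (xc a ψ) : ℝ) := by
    simp only [Base.bv, hc, B.hsE]
  simp only [Jets.hC, Jets.hP, BV.cC, BV.cP, map_add, map_sub, map_smul, hm, hm0,
    ev0_pi1 _ _ _ hw, hk, hN, hE, hR, hs, u2, u3, N5b_ev1_cos _ _ _ hw, N5b_ev1_sin _ _ _ hw,
    N5b_ev0_cos _ _ _ hw, N5b_ev0_sin _ _ _ hw, N5b_JF, N5b_JD, Complex.real_smul,
    Int.cast_natCast, BoundedContinuousFunction.mul_apply, epsB_apply]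
  generalize √(((T.jet (sw J τ) z).n (ψ + α) (xc a ψ) * sech (xc a ψ)) ^ 2 + _) ^ 3 = k0
  rw [div_eq_mul_inv]
  generalize k0⁻¹ = k
  generalize ev0 (wJ J) (ψ + α) (xc a ψ) (wc a ψ) (T.lh J τ z) = L at ul ⊢
  generalize ev0 (wJ J) (ψ + α) (xc a ψ) (wc a ψ) (T.mh B J τ z) = M at um ⊢
  generalize cos (mm J * (ψ + α)) = C
  generalize sin (mm J * (ψ + α)) = S
  generalize sech (xc a ψ) = s
  have hI := Complex.I_sq
  simp only [Complex.ofReal_mul, Complex.ofReal_add, Complex.ofReal_sub, Complex.ofReal_neg,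
    Complex.ofReal_natCast]
  generalize (((T.jet (sw J τ) z).n (ψ + α) (xc a ψ) : ℝ) : ℂ) = n
  generalize (((T.jet (sw J τ) z).a (ψ + α) (xc a ψ) : ℝ) : ℂ) = A
  generalize (((T.jet (sw J τ) z).b (ψ + α) (xc a ψ) : ℝ) : ℂ) = b
  generalize (((T.jet (sw J τ) z).r (ψ + α) (xc a ψ) : ℝ) : ℂ) = r
  generalize (((T.jet (sw J τ) z).l (ψ + α) (xc a ψ) : ℝ) : ℂ) = l at ul ⊢
  generalize (((T.jet (sw J τ) z).u (ψ + α) (xc a ψ) : ℝ) : ℂ) = u at um ⊢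
  generalize ((eps (xc a ψ) : ℝ) : ℂ) = e at ul um ⊢
  generalize ((T.F J z (xc a ψ) : ℝ) : ℂ) = F
  generalize ((T.F1 J z (xc a ψ) : ℝ) : ℂ) = G
  generalize ((dxc a ψ : ℝ) : ℂ) = d
  clear * - ul um hI
  grind

end Pool.Agent.PS
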