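import Pool.Agent.P.MP_6c3c64_gt.Defs

/-! Row N6. Variation of the line integral of the one-form `om`. Pointwise,
`∂τ om (γ + τ δ) (γ' + τ δ') = det3 (γ + τ δ) (γ' + τ δ') δ / √(..) ^ 3 + ∂ψ om (γ + τ δ) δ`.
Integrate in `τ` (fundamental theorem of calculus), swap the integrals
(`intervalIntegral.integral_integral_swap` or `MeasureTheory.integral_integral_swap` for a
continuous function on a rectangle), and use periodicity for the last term.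
-/

set_option autoImplicit false

open Real BoundedContinuousFunction MeasureTheory Set Filter Topology
open scoped NNReal ENNReal

noncomputable section

namespace Pool.Agent.PS

/-- the derivative of `om` at `(p, q)` in the direction `(u, v)` -/
def N6_dom (p q u v : ℝ × ℝ × ℝ) : ℝ :=
  (u.2.2 * (p.1 * q.2.1 - p.2.1 * q.1) +
      p.2.2 * (u.1 * q.2.1 + p.1 * v.2.1 - (u.2.1 * q.1 + p.2.1 * v.1))) /
      √(p.1 ^ 2 + p.2.1 ^ 2) ^ 3 -
    3 * p.2.2 * (p.1 * q.2.1 - p.2.1 * q.1) * (p.1 * u.1 + p.2.1 * u.2.1) /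
      √(p.1 ^ 2 + p.2.1 ^ 2) ^ 5

theorem N6_hasDerivAt {p q : ℝ → ℝ × ℝ × ℝ} {u v : ℝ × ℝ × ℝ} {t : ℝ} (hp : HasDerivAt p u t)
    (hq : HasDerivAt q v t) (h : 0 < (p t).1 ^ 2 + (p t).2.1 ^ 2) :
    HasDerivAt (fun t => om (p t) (q t)) (N6_dom (p t) (q t) u v) t := by
  have p1 : HasDerivAt (fun t => (p t).1) u.1 t := hp.fst
  have p2 : HasDerivAt (fun t => (p t).2.1) u.2.1 t := hp.snd.fst
  have p3 : HasDerivAt (fun t => (p t).2.2) u.2.2 t := hp.snd.snd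
  have q1 : HasDerivAt (fun t => (q t).1) v.1 t := hq.fst
  have q2 : HasDerivAt (fun t => (q t).2.1) v.2.1 t := hq.snd.fst
  have hr : √((p t).1 ^ 2 + (p t).2.1 ^ 2) ≠ 0 := (sqrt_pos.2 h).ne'
  have hs := (((p1.fun_pow 2).fun_add (p2.fun_pow 2)).sqrt h.ne').fun_pow 3
  refine HasDerivAt.congr_deriv (f := fun t => om (p t) (q t))
    ((p3.fun_mul ((p1.fun_mul q2).fun_sub (p2.fun_mul q1))).fun_div hs (pow_ne_zero 3 hr)) ?_
  unfold N6_dom
  generalize √((p t).1 ^ 2 + (p t).2.1 ^ 2) = r at hr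
  field_simp
  ring

theorem N6_sub (p q d v : ℝ × ℝ × ℝ) (h : 0 < p.1 ^ 2 + p.2.1 ^ 2) :
    N6_dom p q d v = det3 p q d / √(p.1 ^ 2 + p.2.1 ^ 2) ^ 3 + N6_dom p d q v := by
  have hr : √(p.1 ^ 2 + p.2.1 ^ 2) ≠ 0 := (sqrt_pos.2 h).ne'
  have hs : √(p.1 ^ 2 + p.2.1 ^ 2) ^ 2 = p.1 ^ 2 + p.2.1 ^ 2 := sq_sqrt h.le
  unfold N6_dom det3
  generalize √(p.1 ^ 2 + p.2.1 ^ 2) = r at hr hs
  field_simp
  linear_combination (3 * p.2.2 * (q.2.1 * d.1 - q.1 * d.2.1)) * hs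

theorem N6_cont {X : Type*} [TopologicalSpace X] {p q u v : X → ℝ × ℝ × ℝ} {S : Set X}
    (hp : Continuous p) (hq : Continuous q) (hu : Continuous u) (hv : Continuous v)
    (h : ∀ x ∈ S, 0 < (p x).1 ^ 2 + (p x).2.1 ^ 2) :
    ContinuousOn (fun x => N6_dom (p x) (q x) (u x) (v x)) S := by
  unfold N6_dom
  refine ContinuousOn.sub (ContinuousOn.div (Continuous.continuousOn (by fun_prop))
    (Continuous.continuousOn (by fun_prop)) fun x hx => pow_ne_zero _ (sqrt_pos.2 (h x hx)).ne')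
    (ContinuousOn.div (Continuous.continuousOn (by fun_prop))
    (Continuous.continuousOn (by fun_prop)) fun x hx => pow_ne_zero _ (sqrt_pos.2 (h x hx)).ne')

theorem N6_cont_om {p q : ℝ → ℝ × ℝ × ℝ} (hp : Continuous p) (hq : Continuous q)
    (h : ∀ x, 0 < (p x).1 ^ 2 + (p x).2.1 ^ 2) : Continuous fun x => om (p x) (q x) := by
  unfold om
  exact Continuous.div (by fun_prop) (by fun_prop) fun x => pow_ne_zero _ (sqrt_pos.2 (h x)).ne'

theorem var_lemma (γ γ' δ δ' : ℝ → ℝ × ℝ × ℝ) (hγ : ∀ ψ, HasDerivAt γ (γ' ψ) ψ)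
    (hδ : ∀ ψ, HasDerivAt δ (δ' ψ) ψ) (cγ : Continuous γ') (cδ : Continuous δ')
    (pγ : γ (2 * π) = γ 0) (pδ : δ (2 * π) = δ 0)
    (hne : ∀ τ ∈ Icc (0 : ℝ) 1, ∀ ψ, 0 < (γ ψ + τ • δ ψ).1 ^ 2 + (γ ψ + τ • δ ψ).2.1 ^ 2) :
    (∫ ψ in (0 : ℝ)..2 * π, om (γ ψ + δ ψ) (γ' ψ + δ' ψ)) -
        ∫ ψ in (0 : ℝ)..2 * π, om (γ ψ) (γ' ψ) =
      ∫ τ in (0 : ℝ)..1, ∫ ψ in (0 : ℝ)..2 * π,
        det3 (γ ψ + τ • δ ψ) (γ' ψ + τ • δ' ψ) (δ ψ) /
          √((γ ψ + τ • δ ψ).1 ^ 2 + (γ ψ + τ • δ ψ).2.1 ^ 2) ^ 3 := by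
  have c1 : Continuous γ := continuous_iff_continuousAt.2 fun x => (hγ x).continuousAt
  have c2 : Continuous δ := continuous_iff_continuousAt.2 fun x => (hδ x).continuousAt
  have h0 : ∀ ψ, 0 < (γ ψ).1 ^ 2 + (γ ψ).2.1 ^ 2 := fun ψ => by
    simpa using hne 0 ⟨le_rfl, zero_le_one⟩ ψ
  have h1 : ∀ ψ, 0 < (γ ψ + δ ψ).1 ^ 2 + (γ ψ + δ ψ).2.1 ^ 2 := fun ψ => by
    have := hne 1 ⟨zero_le_one, le_rfl⟩ ψ
    rwa [one_smul] at this
  have e1 : ∀ ψ, om (γ ψ + δ ψ) (γ' ψ + δ' ψ) - om (γ ψ) (γ' ψ) =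
      ∫ τ in (0 : ℝ)..1, N6_dom (γ ψ + τ • δ ψ) (γ' ψ + τ • δ' ψ) (δ ψ) (δ' ψ) := fun ψ => by
    rw [intervalIntegral.integral_eq_sub_of_hasDerivAt
      (f := fun τ : ℝ => om (γ ψ + τ • δ ψ) (γ' ψ + τ • δ' ψ))]
    · simp only [one_smul, zero_smul, add_zero]
    · intro τ hτ
      rw [uIcc_of_le zero_le_one] at hτ
      refine N6_hasDerivAt (p := fun τ : ℝ => γ ψ + τ • δ ψ) (q := fun τ : ℝ => γ' ψ + τ • δ' ψ)
        ?_ ?_ (hne τ hτ ψ)
      · simpa using ((hasDerivAt_id τ).smul_const (δ ψ)).const_add (γ ψ)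
      · simpa using ((hasDerivAt_id τ).smul_const (δ' ψ)).const_add (γ' ψ)
    · refine ContinuousOn.intervalIntegrable ?_
      rw [uIcc_of_le zero_le_one]
      exact N6_cont (by fun_prop) (by fun_prop) continuous_const continuous_const
        fun τ hτ => hne τ hτ ψ
  rw [← intervalIntegral.integral_sub
    ((N6_cont_om (p := fun ψ => γ ψ + δ ψ) (q := fun ψ => γ' ψ + δ' ψ) (c1.add c2) (cγ.add cδ)
      h1).intervalIntegrable _ _)
    ((N6_cont_om c1 cγ h0).intervalIntegrable _ _)]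
  simp only [e1]
  rw [intervalIntegral_intervalIntegral_swap]
  · refine intervalIntegral.integral_congr fun τ hτ => ?_
    rw [uIcc_of_le zero_le_one] at hτ
    have cA : Continuous fun ψ => N6_dom (γ ψ + τ • δ ψ) (γ' ψ + τ • δ' ψ) (δ ψ) (δ' ψ) :=
      continuousOn_univ.1 (N6_cont (by fun_prop) (by fun_prop) c2 cδ fun ψ _ => hne τ hτ ψ)
    have cC : Continuous fun ψ => N6_dom (γ ψ + τ • δ ψ) (δ ψ) (γ' ψ + τ • δ' ψ) (δ' ψ) :=
      continuousOn_univ.1 (N6_cont (by fun_prop) c2 (by fun_prop) cδ fun ψ _ => hne τ hτ ψ)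
    have e2 : ∫ ψ in (0 : ℝ)..2 * π, N6_dom (γ ψ + τ • δ ψ) (δ ψ) (γ' ψ + τ • δ' ψ) (δ' ψ) = 0 := by
      rw [intervalIntegral.integral_eq_sub_of_hasDerivAt
        (f := fun ψ : ℝ => om (γ ψ + τ • δ ψ) (δ ψ)) _ (cC.intervalIntegrable _ _)]
      · simp only [pγ, pδ, sub_self]
      · intro ψ _
        exact N6_hasDerivAt (p := fun ψ : ℝ => γ ψ + τ • δ ψ)
          ((hγ ψ).add ((hδ ψ).const_smul τ)) (hδ ψ) (hne τ hτ ψ)
    have e3 := intervalIntegral.integral_sub (cA.intervalIntegrable (μ := volume) 0 (2 * π))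
      (cC.intervalIntegrable 0 (2 * π))
    rw [e2, sub_zero] at e3
    rw [← e3]
    refine intervalIntegral.integral_congr fun ψ _ => ?_
    rw [N6_sub _ _ _ _ (hne τ hτ ψ), add_sub_cancel_right]
  · have hc : ContinuousOn (fun x : ℝ × ℝ =>
        N6_dom (γ x.1 + x.2 • δ x.1) (γ' x.1 + x.2 • δ' x.1) (δ x.1) (δ' x.1))
        (Icc 0 (2 * π) ×ˢ Icc 0 1) :=
      N6_cont (by fun_prop) (by fun_prop) (by fun_prop) (by fun_prop) fun x hx => hne x.2 hx.2 x.1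
    refine (hc.integrableOn_compact (isCompact_Icc.prod isCompact_Icc)).mono_set ?_
    rw [uIoc_of_le two_pi_pos.le, uIoc_of_le zero_le_one]
    exact prod_mono Ioc_subset_Icc_self Ioc_subset_Icc_self

end Pool.Agent.PS
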