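import Pool.Agent.P.MP_6c3c64_gt.N8a
import Pool.Agent.P.MP_6c3c64_gt.N8b
import Pool.Agent.P.MP_6c3c64_gt.Circ

/-! Row N7a. The functional is continuous along partial sums. Each of the six series converges
pointwise (`sw J 0 j = if j < J then 1 else 0`, so the series are partial sums, summable by
`T.bound`), the integrands are continuous in `ψ` (`jet_isC2`, `Circ`), and `Good` with `gv_lower`
and the uniform bounds on `l`, `r`, `u`, `dxc` give a constant dominating function
(`intervalIntegral.tendsto_integral_filter_of_dominated_convergence`).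
-/

set_option autoImplicit false

open Real BoundedContinuousFunction MeasureTheory Set Filter Topology
open scoped NNReal ENNReal

noncomputable section

namespace Pool.Agent.PS

variable {X : Type} [NormedAddCommGroup X] [NormedSpace ℝ X]


/-- the compact parameter space of switches -/
abbrev N7a_S : Type := ℕ → Icc (-1 : ℝ) 1

def N7a_v (s : N7a_S) (j : ℕ) : ℝ := s j

theorem N7a_abs (s : N7a_S) (j : ℕ) : |N7a_v s j| ≤ 1 := abs_le.2 (s j).2

theorem N7a_cv (j : ℕ) : Continuous fun s : N7a_S => N7a_v s j :=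
  continuous_subtype_val.comp (continuous_apply j)

theorem N7a_nu (T : Jets X) (z : X) (j : ℕ) (x : ℝ) :
    (mm j : ℝ) ^ 2 * |T.F j z x| ≤ T.nu j z ∧ mm j * |eps x * T.F1 j z x| ≤ T.nu j z ∧
      |eps x * T.F2 j z x| ≤ T.nu j z := by
  have hm := one_le_mm j
  have h0 := abs_le_norm (T.F j z) x
  have h1 := abs_le_norm (T.F1 j z) x
  have h2 := abs_le_norm (T.F2 j z) x
  have he : |eps x| ≤ 1 := by rw [abs_of_pos (eps_pos x)]; exact eps_le_one x
  have h1' : |eps x * T.F1 j z x| ≤ ‖T.F1 j z‖ := by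
    rw [abs_mul]; exact (mul_le_of_le_one_left (abs_nonneg _) he).trans h1
  have h2' : |eps x * T.F2 j z x| ≤ ‖T.F2 j z‖ := by
    rw [abs_mul]; exact (mul_le_of_le_one_left (abs_nonneg _) he).trans h2
  have a0 := norm_nonneg (T.F j z)
  have a1 := norm_nonneg (T.F1 j z)
  have a2 := norm_nonneg (T.F2 j z)
  have a3 := norm_nonneg (epsB * T.F1 j z)
  unfold Jets.nu nuM
  generalize (mm j : ℝ) = m at hm ⊢
  have hm2 : 1 ≤ m ^ 2 := one_le_pow₀ hm
  have hm3 : m ≤ m ^ 2 := by nlinarith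
  have b0 : 0 ≤ m ^ 2 * ‖T.F j z‖ := by positivity
  have b3 : 0 ≤ m * ‖epsB * T.F1 j z‖ := by positivity
  set Q := m ^ 2 * ‖T.F j z‖ + m * ‖epsB * T.F1 j z‖ + ‖T.F1 j z‖ + ‖T.F2 j z‖ with hQ
  have hQ0 : 0 ≤ Q := by positivity
  have hQ1 : Q ≤ m ^ 2 * Q := le_mul_of_one_le_left hQ0 hm2
  refine ⟨?_, ?_, ?_⟩
  · have : m ^ 2 * |T.F j z x| ≤ m ^ 2 * ‖T.F j z‖ := by gcongr
    linarith
  · have h3 : m * |eps x * T.F1 j z x| ≤ m ^ 2 * ‖T.F1 j z‖ := by gcongr
    have h4 : m ^ 2 * ‖T.F1 j z‖ ≤ m ^ 2 * Q := by gcongr; linarith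
    linarith
  · linarith

theorem N7a_series (T : Jets X) (z : X) (G : ℕ → ℝ × ℝ → ℝ) (hG : ∀ j, Continuous (G j))
    (hb : ∀ j p, |G j p| ≤ 3 * T.nu j z) :
    Continuous fun p : N7a_S × ℝ × ℝ => ∑' j, N7a_v p.1 j * G j p.2 := by
  refine continuous_tsum (fun j => ((N7a_cv j).comp continuous_fst).mul
    ((hG j).comp continuous_snd)) ((T.summable_nu z).mul_left 3) fun j p => ?_
  rw [Real.norm_eq_abs, abs_mul]
  exact (mul_le_of_le_one_left (abs_nonneg _) (N7a_abs _ _)).trans (hb j p.2)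

theorem N7a_trig {A B t : ℝ} (h : |A| ≤ B) (ht : |t| ≤ 1) : |A * t| ≤ B := by
  rw [abs_mul]; exact (mul_le_of_le_one_right (abs_nonneg _) ht).trans h

theorem N7a_cont (T : Jets X) (z : X) :
    (Continuous fun p : N7a_S × ℝ × ℝ => (T.jet (N7a_v p.1) z).n p.2.1 p.2.2) ∧
    (Continuous fun p : N7a_S × ℝ × ℝ => (T.jet (N7a_v p.1) z).a p.2.1 p.2.2) ∧
    (Continuous fun p : N7a_S × ℝ × ℝ => (T.jet (N7a_v p.1) z).b p.2.1 p.2.2) ∧
    (Continuous fun p : N7a_S × ℝ × ℝ => (T.jet (N7a_v p.1) z).l p.2.1 p.2.2) ∧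
    (Continuous fun p : N7a_S × ℝ × ℝ => (T.jet (N7a_v p.1) z).r p.2.1 p.2.2) ∧
    (Continuous fun p : N7a_S × ℝ × ℝ => (T.jet (N7a_v p.1) z).u p.2.1 p.2.2) := by
  have ce := continuous_eps
  have ct := continuous_tanh'
  have cs := continuous_sech
  have cm := continuous_mu0f
  have cn : Continuous n0f := continuous_iff_continuousAt.2 fun x => (hasDerivAt_n0f x).continuousAt
  have ca : Continuous a0f := continuous_iff_continuousAt.2 fun x => (hasDerivAt_a0f x).continuousAt
  have cu : Continuous nu0f :=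
    continuous_iff_continuousAt.2 fun x => (hasDerivAt_nu0f x).continuousAt
  have cF : ∀ j, Continuous (T.F j z) := fun j => (T.F j z).continuous
  have cF1 : ∀ j, Continuous (T.F1 j z) := fun j => (T.F1 j z).continuous
  have cF2 : ∀ j, Continuous (T.F2 j z) := fun j => (T.F2 j z).continuous
  have key : ∀ j x, |T.F j z x| ≤ T.nu j z ∧ |eps x * T.F1 j z x| ≤ T.nu j z ∧
      |mm j * T.F j z x| ≤ T.nu j z ∧ |mm j * (eps x * T.F1 j z x)| ≤ T.nu j z ∧
      |(mm j : ℝ) ^ 2 * T.F j z x| ≤ T.nu j z ∧ |eps x * T.F2 j z x| ≤ T.nu j z ∧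
      0 ≤ T.nu j z := by
    intro j x
    obtain ⟨h0, h1, h2⟩ := N7a_nu T z j x
    have hm := one_le_mm j
    have hm2 : (1 : ℝ) ≤ (mm j : ℝ) ^ 2 := one_le_pow₀ hm
    have hm3 : (mm j : ℝ) ≤ (mm j : ℝ) ^ 2 := by nlinarith
    have a0 := abs_nonneg (T.F j z x)
    have a1 := abs_nonneg (eps x * T.F1 j z x)
    refine ⟨by nlinarith, by nlinarith, ?_, ?_, ?_, h2, (abs_nonneg _).trans h2⟩
    · rw [abs_mul, abs_of_pos (mm_pos j)]; nlinarith
    · rw [abs_mul, abs_of_pos (mm_pos j)]; exact h1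
    · rw [abs_mul, abs_of_nonneg (sq_nonneg _)]; exact h0
  refine ⟨?_, ?_, ?_, ?_, ?_, ?_⟩
  · have h := N7a_series T z (fun j p => T.F j z p.2 * cos (mm j * p.1))
      (fun j => by have := cF j; fun_prop) fun j p => by
        obtain ⟨h0, h1, h2, h3, h4, h5, h6⟩ := key j p.2
        exact N7a_trig (by linarith) (abs_cos_le_one _)
    refine ((cn.comp (continuous_snd.comp continuous_snd)).add h).congr fun p => ?_
    simp only [Jets.jet, Function.comp_apply, mul_assoc, Pi.add_apply]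
  · have h := N7a_series T z (fun j p => (eps p.2 * T.F1 j z p.2) * cos (mm j * p.1))
      (fun j => by have := cF1 j; fun_prop) fun j p => by
        obtain ⟨h0, h1, h2, h3, h4, h5, h6⟩ := key j p.2
        exact N7a_trig (by linarith) (abs_cos_le_one _)
    refine ((ca.comp (continuous_snd.comp continuous_snd)).add h).congr fun p => ?_
    simp only [Jets.jet, Function.comp_apply, mul_assoc, Pi.add_apply]
  · have h := N7a_series T z (fun j p => -(mm j * T.F j z p.2 * sin (mm j * p.1)))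
      (fun j => by have := cF j; fun_prop) fun j p => by
        obtain ⟨h0, h1, h2, h3, h4, h5, h6⟩ := key j p.2
        rw [abs_neg]
        exact N7a_trig (by linarith) (abs_sin_le_one _)
    refine h.congr fun p => ?_
    simp only [Jets.jet, mul_neg, mul_assoc]
  · have h := N7a_series T z (fun j p => -(mm j * (eps p.2 * T.F1 j z p.2) * sin (mm j * p.1)))
      (fun j => by have := cF1 j; fun_prop) fun j p => by
        obtain ⟨h0, h1, h2, h3, h4, h5, h6⟩ := key j p.2
        rw [abs_neg]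
        exact N7a_trig (by linarith) (abs_sin_le_one _)
    refine h.congr fun p => ?_
    simp only [Jets.jet, mul_neg, mul_assoc]
  · have h := N7a_series T z (fun j p => (T.F j z p.2 - tanh p.2 * (eps p.2 * T.F1 j z p.2)
        - (mm j : ℝ) ^ 2 * T.F j z p.2) * cos (mm j * p.1))
      (fun j => by have := cF j; have := cF1 j; fun_prop) fun j p => by
        obtain ⟨h0, h1, h2, h3, h4, h5, h6⟩ := key j p.2
        refine N7a_trig ?_ (abs_cos_le_one _)
        have h7 : |tanh p.2 * (eps p.2 * T.F1 j z p.2)| ≤ T.nu j z := by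
          rw [mul_comm]; exact N7a_trig h1 (abs_tanh_le_one _)
        rw [abs_le] at h0 h4 h7 ⊢
        constructor <;> linarith [h0.1, h0.2, h4.1, h4.2, h7.1, h7.2]
    refine ((cu.comp (continuous_snd.comp continuous_snd)).add h).congr fun p => ?_
    simp only [Jets.jet, Function.comp_apply, mul_assoc, Pi.add_apply]
  · have h := N7a_series T z (fun j p => (eps p.2 * T.F2 j z p.2) * cos (mm j * p.1))
      (fun j => by have := cF2 j; fun_prop) fun j p => by
        obtain ⟨h0, h1, h2, h3, h4, h5, h6⟩ := key j p.2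
        exact N7a_trig (by linarith) (abs_cos_le_one _)
    refine (((ce.mul cm).comp (continuous_snd.comp continuous_snd)).add h).congr fun p => ?_
    simp only [Jets.jet, Function.comp_apply, mul_assoc, Pi.add_apply, Pi.mul_apply]

theorem N7a_frame (a : ℝ) : Continuous fun p : ℝ × ℝ × ℝ × ℝ => frame a p.1 p.2 := by
  unfold frame; fun_prop

theorem N7a_gvd (T : Jets X) (z : X) (a α : ℝ) :
    (Continuous fun p : N7a_S × ℝ => (T.jet (N7a_v p.1) z).gv a α p.2) ∧
    (Continuous fun p : N7a_S × ℝ => (T.jet (N7a_v p.1) z).gd a α p.2) := by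
  obtain ⟨hn, ha, hb, hl, hr, hu⟩ := N7a_cont T z
  have cx : Continuous fun p : N7a_S × ℝ => xc a p.2 := (continuous_xc a).comp continuous_snd
  have cd : Continuous fun p : N7a_S × ℝ => dxc a p.2 := (continuous_dxc a).comp continuous_snd
  have ct := continuous_tanh'.comp cx
  have cs := continuous_sech.comp cx
  have cq : Continuous fun p : N7a_S × ℝ => (p.1, p.2 + α, xc a p.2) :=
    continuous_fst.prodMk ((continuous_snd.add continuous_const).prodMk cx)
  have hn' := hn.comp cq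
  have ha' := ha.comp cq
  have hb' := hb.comp cq
  have hl' := hl.comp cq
  have hr' := hr.comp cq
  have hu' := hu.comp cq
  constructor
  · exact (N7a_frame a).comp (continuous_snd.prodMk
      ((hn'.sub (ct.mul ha')).prodMk (hb'.prodMk (cs.mul ha'))))
  · exact (N7a_frame a).comp (continuous_snd.prodMk
      ((ct.mul (hl'.add (hu'.mul cd))).neg.prodMk ((hr'.add (hl'.mul cd)).prodMk
        (cs.mul (hl'.add (hu'.mul cd))))))

theorem N7a_om {Y : Type} [TopologicalSpace Y] {p q : Y → ℝ × ℝ × ℝ} (hp : Continuous p)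
    (hq : Continuous q) (h : ∀ y, 0 < (p y).1 ^ 2 + (p y).2.1 ^ 2) :
    Continuous fun y => om (p y) (q y) := by
  unfold om
  refine Continuous.div (by fun_prop) (by fun_prop) fun y => ?_
  exact pow_ne_zero _ (sqrt_pos.2 (h y)).ne'

theorem N7a_FF (T : Jets X) (z : X)
    (hg : ∀ s : ℕ → ℝ, (∀ j, |s j| ≤ 1) → (T.jet s z).Good) (a α : ℝ) :
    Continuous fun s : N7a_S => (T.jet (N7a_v s) z).FF a α := by
  obtain ⟨h1, h2⟩ := N7a_gvd T z a α
  have h3 := N7a_om h1 h2 fun p => by
    have h4 := (T.jet (N7a_v p.1) z).gv_lower a α p.2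
    have h5 := (hg _ (N7a_abs p.1)).lower (p.2 + α) (xc a p.2)
    nlinarith
  exact intervalIntegral.continuous_parametric_intervalIntegral_of_continuous'
    (f := fun (s : N7a_S) ψ => om ((T.jet (N7a_v s) z).gv a α ψ) ((T.jet (N7a_v s) z).gd a α ψ))
    h3 0 (2 * π)

theorem Jets.tendsto_FF (T : Jets X) (z : X)
    (hg : ∀ s : ℕ → ℝ, (∀ j, |s j| ≤ 1) → (T.jet s z).Good) (a α : ℝ) :
    Tendsto (fun J => (T.jet (sw J 0) z).FF a α) atTop (𝓝 ((T.jet (fun _ => 1) z).FF a α)) := by
  have hs : ∀ J j, sw J 0 j ∈ Icc (-1 : ℝ) 1 := fun J j => by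
    unfold sw; split_ifs <;> constructor <;> norm_num
  have h1 : (1 : ℝ) ∈ Icc (-1 : ℝ) 1 := by constructor <;> norm_num
  have ht : Tendsto (fun J => (fun j => ⟨sw J 0 j, hs J j⟩ : N7a_S)) atTop
      (𝓝 (fun _ => ⟨1, h1⟩ : N7a_S)) := by
    refine tendsto_pi_nhds.2 fun j => tendsto_const_nhds.congr' ?_
    filter_upwards [eventually_gt_atTop j] with J hJ
    exact Subtype.ext (by simp [sw, hJ])
  have h2 := ((N7a_FF T z hg a α).tendsto _).comp ht
  have e1 : N7a_v (fun _ => ⟨1, h1⟩) = fun _ => 1 := funext fun _ => rfl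
  rw [e1] at h2
  refine h2.congr fun J => ?_
  have e2 : N7a_v (fun j => ⟨sw J 0 j, hs J j⟩) = sw J 0 := funext fun _ => rfl
  rw [Function.comp_apply, e2]

end Pool.Agent.PS
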