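import Pool.Agent.P.MP_6c3c64_gt.N3b
import Pool.Agent.P.MP_6c3c64_gt.N4
import Pool.Agent.P.MP_6c3c64_gt.N5a
import Pool.Agent.P.MP_6c3c64_gt.N5b
import Pool.Agent.P.MP_6c3c64_gt.N6
import Pool.Agent.P.MP_6c3c64_gt.N7a

/-! Row N7b. Telescoping. `II` commutes with the sum and the integral (`nl_abstract` gives
summability and continuity in `τ`; `ContinuousLinearMap.intervalIntegral_comp_comm`). By `II_Gam`,
`ev_HH` and `var_lemma` (with `γ = gv` of `jet (sw J 0) z`, `δ` the difference of the `gv` of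
`jet (sw J 1) z` and `jet (sw J 0) z`; `gv` and `gd` of `jet (sw J τ) z` are affine in `τ`) the
`J`-th term is `FF (jet (sw (J + 1) 0) z) - FF (jet (sw J 0) z)`, as `sw J 1 = sw (J + 1) 0`.
Also `jet (sw 0 0) z = jet 1 0`. Conclude with `tendsto_FF`.
-/

set_option autoImplicit false

open Real BoundedContinuousFunction MeasureTheory Set Filter Topology
open scoped NNReal ENNReal

noncomputable section

namespace Pool.Agent.PS

variable {X : Type} [NormedAddCommGroup X] [NormedSpace ℝ X]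


theorem N7b_sw_abs (J : ℕ) {τ : ℝ} (hτ : τ ∈ Icc (0 : ℝ) 1) (j : ℕ) : |sw J τ j| ≤ 1 := by
  unfold sw
  split_ifs
  · simp
  · rw [abs_of_nonneg hτ.1]; exact hτ.2
  · simp

theorem N7b_sw_succ (J : ℕ) : sw J 1 = sw (J + 1) 0 := by
  funext j
  unfold sw
  split_ifs <;> first | rfl | omega

theorem N7b_sw_zero : sw 0 0 = fun _ => 0 := by
  funext j
  simp [sw]

theorem N7b_sum (J : ℕ) (τ : ℝ) (f : ℝ → ℕ → ℝ) (hf : ∀ s j, f s j = s * f 1 j) (c : ℝ) :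
    c + ∑ j ∈ Finset.range (J + 1), f (sw J τ j) j =
      c + ∑ j ∈ Finset.range (J + 1), f (sw J 0 j) j
        + τ * (c + ∑ j ∈ Finset.range (J + 1), f (sw J 1 j) j
          - (c + ∑ j ∈ Finset.range (J + 1), f (sw J 0 j) j)) := by
  rw [add_sub_add_left_eq_sub, ← Finset.sum_sub_distrib, Finset.mul_sum, add_assoc,
    ← Finset.sum_add_distrib]
  congr 1
  refine Finset.sum_congr rfl fun j _ => ?_
  rw [hf (sw J τ j), hf (sw J 0 j), hf (sw J 1 j)]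
  unfold sw
  split_ifs <;> ring

section affine

variable (T : Jets X) (J : ℕ) (τ : ℝ) (z : X)

theorem N7b_n (φ x : ℝ) : (T.jet (sw J τ) z).n φ x = (T.jet (sw J 0) z).n φ x
    + τ * ((T.jet (sw J 1) z).n φ x - (T.jet (sw J 0) z).n φ x) := by
  simp only [N5b_n]
  exact N7b_sum J τ (fun s j => s * T.F j z x * cos (mm j * φ)) (fun s j => by ring) _

theorem N7b_a (φ x : ℝ) : (T.jet (sw J τ) z).a φ x = (T.jet (sw J 0) z).a φ x
    + τ * ((T.jet (sw J 1) z).a φ x - (T.jet (sw J 0) z).a φ x) := by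
  simp only [N5b_a]
  exact N7b_sum J τ (fun s j => s * (eps x * T.F1 j z x) * cos (mm j * φ)) (fun s j => by ring) _

theorem N7b_b (φ x : ℝ) : (T.jet (sw J τ) z).b φ x = (T.jet (sw J 0) z).b φ x
    + τ * ((T.jet (sw J 1) z).b φ x - (T.jet (sw J 0) z).b φ x) := by
  simp only [N5b_b]
  simpa only [zero_add] using
    N7b_sum J τ (fun s j => -(s * mm j * T.F j z x * sin (mm j * φ))) (fun s j => by ring) 0

theorem N7b_l (φ x : ℝ) : (T.jet (sw J τ) z).l φ x = (T.jet (sw J 0) z).l φ x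
    + τ * ((T.jet (sw J 1) z).l φ x - (T.jet (sw J 0) z).l φ x) := by
  simp only [N5b_l]
  simpa only [zero_add] using N7b_sum J τ
    (fun s j => -(s * mm j * (eps x * T.F1 j z x) * sin (mm j * φ))) (fun s j => by ring) 0

theorem N7b_r (φ x : ℝ) : (T.jet (sw J τ) z).r φ x = (T.jet (sw J 0) z).r φ x
    + τ * ((T.jet (sw J 1) z).r φ x - (T.jet (sw J 0) z).r φ x) := by
  simp only [N5b_r]
  exact N7b_sum J τ (fun s j => s * (T.F j z x - tanh x * (eps x * T.F1 j z x)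
      - (mm j : ℝ) ^ 2 * T.F j z x) * cos (mm j * φ)) (fun s j => by ring) _

theorem N7b_u (φ x : ℝ) : (T.jet (sw J τ) z).u φ x = (T.jet (sw J 0) z).u φ x
    + τ * ((T.jet (sw J 1) z).u φ x - (T.jet (sw J 0) z).u φ x) := by
  simp only [N5b_u]
  exact N7b_sum J τ (fun s j => s * (eps x * T.F2 j z x) * cos (mm j * φ)) (fun s j => by ring) _

theorem N7b_gv (a α ψ : ℝ) : (T.jet (sw J 0) z).gv a α ψ
    + τ • ((T.jet (sw J 1) z).gv a α ψ - (T.jet (sw J 0) z).gv a α ψ) =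
      (T.jet (sw J τ) z).gv a α ψ := by
  simp only [RJ.gv, RJ.nv, frame, Prod.mk_sub_mk, Prod.smul_mk, Prod.mk_add_mk, smul_eq_mul,
    Prod.mk.injEq]
  rw [N7b_n T J τ, N7b_a T J τ, N7b_b T J τ]
  refine ⟨?_, ?_, ?_⟩ <;> ring

theorem N7b_gd (a α ψ : ℝ) : (T.jet (sw J 0) z).gd a α ψ
    + τ • ((T.jet (sw J 1) z).gd a α ψ - (T.jet (sw J 0) z).gd a α ψ) =
      (T.jet (sw J τ) z).gd a α ψ := by
  simp only [RJ.gd, RJ.nd, frame, Prod.mk_sub_mk, Prod.smul_mk, Prod.mk_add_mk, smul_eq_mul,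
    Prod.mk.injEq]
  rw [N7b_l T J τ, N7b_r T J τ, N7b_u T J τ]
  refine ⟨?_, ?_, ?_⟩ <;> ring

end affine

theorem N7b_jet_zero (T : Jets X) (z : X) : T.jet (sw 0 0) z = T.jet (fun _ => 1) 0 := by
  rw [N7b_sw_zero]
  simp [Jets.jet]

theorem N7b_term (T : Jets X) (B : Base) (J : ℕ) (z : X)
    (hg : ∀ s : ℕ → ℝ, (∀ j, |s j| ≤ 1) → (T.jet s z).Good)
    (hq : ∀ τ ∈ Icc (0 : ℝ) 1, ‖(B.bv (wJ J)).dq (T.uu J τ z)‖ ≤ 1 / 2)
    (hc : ContinuousOn (fun τ => T.HH B J τ z z) (Icc 0 1)) (a α : ℝ) :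
    II a α (∫ τ in (0 : ℝ)..1, T.HH B J τ z z) =
      ((T.jet (sw (J + 1) 0) z).FF a α - (T.jet (sw J 0) z).FF a α : ℝ) := by
  have h0 := T.jet_isC2 (sw J 0) (N7b_sw_abs J (left_mem_Icc.2 zero_le_one)) z
  have h1 := T.jet_isC2 (sw J 1) (N7b_sw_abs J (right_mem_Icc.2 zero_le_one)) z
  have hv := var_lemma ((T.jet (sw J 0) z).gv a α) ((T.jet (sw J 0) z).gd a α)
    (fun ψ => (T.jet (sw J 1) z).gv a α ψ - (T.jet (sw J 0) z).gv a α ψ)
    (fun ψ => (T.jet (sw J 1) z).gd a α ψ - (T.jet (sw J 0) z).gd a α ψ)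
    (RJ.hasDerivAt_gv _ h0 a α)
    (fun ψ => (RJ.hasDerivAt_gv _ h1 a α ψ).sub (RJ.hasDerivAt_gv _ h0 a α ψ))
    (RJ.continuous_gd _ h0 a α) ((RJ.continuous_gd _ h1 a α).sub (RJ.continuous_gd _ h0 a α))
    (RJ.periodic_gv _ h0 a α).eq
    (by rw [(RJ.periodic_gv _ h0 a α).eq, (RJ.periodic_gv _ h1 a α).eq]) (fun τ hτ ψ => by
      rw [N7b_gv]
      refine lt_of_lt_of_le ?_ (RJ.gv_lower _ a α ψ)
      exact pow_pos (lt_of_lt_of_le one_half_pos ((hg _ (N7b_sw_abs J hτ)).lower _ _)) 2)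
  simp only [N7b_gv, N7b_gd, add_sub_cancel] at hv
  rw [← N7b_sw_succ, RJ.FF, RJ.FF, hv, ← ContinuousLinearMap.intervalIntegral_comp_comm _
    (hc.intervalIntegrable_of_Icc zero_le_one), ← intervalIntegral.integral_ofReal]
  refine intervalIntegral.integral_congr fun τ hτ => ?_
  rw [uIcc_of_le zero_le_one] at hτ
  simp only [Jets.HH]
  rw [II_Gam, ← intervalIntegral.integral_ofReal]
  exact intervalIntegral.integral_congr fun ψ _ => T.ev_HH B J τ z (hq τ hτ) a α ψ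

theorem Jets.II_DD (T : Jets X) (B : Base) : ∃ ρ > 0, ∀ z : X, ‖z‖ ≤ ρ → ∀ a α : ℝ,
    II a α (T.DD B z) =
      ((T.jet (fun _ => 1) z).FF a α - (T.jet (fun _ => 1) 0).FF a α : ℝ) := by
  obtain ⟨ρ1, hρ1, C, h1⟩ := T.HH_bounds B
  obtain ⟨ρ2, hρ2, h2⟩ := T.jet_good
  obtain ⟨-, -, h3, -⟩ := nl_abstract (T.HH B) T.nu ρ1 C T.C hρ1 T.nu_nonneg T.bound
    (T.HH_linear B) (fun J => (h1 J).2.1) fun J => (h1 J).2.2
  refine ⟨min ρ1 ρ2, lt_min hρ1 hρ2, fun z hz a α => ?_⟩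
  have hz1 := hz.trans (min_le_left _ _)
  have hg := h2 z (hz.trans (min_le_right _ _))
  obtain ⟨hc, hs⟩ := h3 z hz1
  have h4 := (hs.hasSum.mapL (II a α)).tendsto_sum_nat
  simp only [fun J => N7b_term T B J z hg (fun τ hτ => (h1 J).1 τ hτ z hz1) (hc J) a α,
    ← Complex.ofReal_sum] at h4
  simp only [Finset.sum_range_sub (fun J => (T.jet (sw J 0) z).FF a α), N7b_jet_zero] at h4
  exact tendsto_nhds_unique h4 ((Complex.continuous_ofReal.tendsto _).comp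
    ((T.tendsto_FF z hg a α).sub_const _))

end Pool.Agent.PS
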