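import Pool.Agent.P.MP_6c3c64_gt.Z1

/-! Row Z3. One step acts on `E1`. Let `c = (c1, c2)`, `v = R0 c1`, `α = alpB m n`,
`β = alpB m (n - 1)`, `w = v' = α v + c1`, so `w' = α w + α' v + eps c2`. Put
`ψ x = exp (A x - A x0)`, `A x = m x - 2 n log (cosh x)`, `x0 = artanh (m / (2 n))` in the case
`m < 2 n`, and `wt = Re (c2 - 2 n s2eB v) + c1 x0 • ψ / eps` (no last term if `2 n < m`). Then
`eps * wt` solves the same equation as `w`, and they are equal (`res_unique_top` with `α ≥ 1`, or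
`res_unique_base` at `x0`, where `α x0 = 0`). Hence
`(c1 + (α + β) v)' = eps * (c2 - (4 n - 2) s2eB v + (α + β) wt)`, and
`Cr c1 = Zst Re (-(2 n) s2eB v) - (2 n - 2) s2eB v + c1 x0 • (α + β) ψ / eps`.
Bounds: `‖Zst Re‖ ≤ 16`, `‖R0‖ ≤ 5 (1 + 2 n) / m`; for `m < 2 n`: `|α + β| ≤ 8 n`, `1 ≤ 2 n / m`, and
`ψ / eps ≤ C (1 + n)`: `ψ ≤ 1` (`A` is maximal at `x0`); for `x ≤ 0`, `ψ x ≤ exp x` as `α ≥ 1`; with
`tanh x1 = (m + D / 2) / (2 n)`, `D = 2 n - m`, one has `exp (2 x1) ≤ 8 n`, and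
`ψ x ≤ exp (-(x - x1) / 2)` for `x ≥ x1`; finally `1 / eps x ≤ exp (gam |x|)`.
-/

set_option autoImplicit false

open Real BoundedContinuousFunction MeasureTheory Set Filter Topology
open scoped NNReal ENNReal

noncomputable section

namespace Pool.Agent.PS

theorem Z3_conv (x0 x : ℝ) : log (cosh x0) + tanh x0 * (x - x0) ≤ log (cosh x) := by
  have ht := abs_le.1 (abs_tanh_le_one x0)
  have hc := convexOn_exp.2 (mem_univ (x - x0)) (mem_univ (-(x - x0)))
    (show 0 ≤ (1 + tanh x0) / 2 by linarith) (show 0 ≤ (1 - tanh x0) / 2 by linarith) (by ring)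
  simp only [smul_eq_mul] at hc
  have e1 : (1 + tanh x0) / 2 * (x - x0) + (1 - tanh x0) / 2 * -(x - x0) =
      tanh x0 * (x - x0) := by ring
  rw [e1] at hc
  have hc0 := cosh_pos x0
  have e2 : cosh x = cosh x0 * ((1 + tanh x0) / 2 * exp (x - x0)
      + (1 - tanh x0) / 2 * exp (-(x - x0))) := by
    have h3 : cosh x = cosh x0 * cosh (x - x0) + sinh x0 * sinh (x - x0) := by
      rw [← cosh_add]; congr 1; ring
    rw [h3, cosh_eq (x - x0), sinh_eq (x - x0), tanh_eq_sinh_div_cosh]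
    field_simp
    ring
  rw [le_log_iff_exp_le (cosh_pos x), exp_add, exp_log hc0, e2]
  exact mul_le_mul_of_nonneg_left hc hc0.le

theorem Z3_log_nonneg (x : ℝ) : 0 ≤ log (cosh x) := log_nonneg (one_le_cosh x)

theorem Z3_log_le (x : ℝ) (hx : 0 ≤ x) : log (cosh x) ≤ x := by
  rw [log_le_iff_le_exp (cosh_pos x), cosh_eq]
  have : exp (-x) ≤ exp x := exp_le_exp.2 (by linarith)
  linarith

theorem Z3_log_ge (x : ℝ) : x - log 2 ≤ log (cosh x) := by
  rw [le_log_iff_exp_le (cosh_pos x), exp_sub, exp_log two_pos, cosh_eq]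
  have := exp_pos (-x)
  linarith

theorem Z3_log_le' (y : ℝ) : log (cosh y) ≤ y - log 2 + exp (-(2 * y)) := by
  rw [log_le_iff_le_exp (cosh_pos y), exp_add, exp_sub, exp_log two_pos, cosh_eq]
  have h1 : exp (-(2 * y)) + 1 ≤ exp (exp (-(2 * y))) := add_one_le_exp _
  have h2 : exp (-y) = exp y * exp (-(2 * y)) := by rw [← exp_add]; congr 1; ring
  have h3 := exp_pos y
  rw [h2]
  nlinarith [mul_le_mul_of_nonneg_left h1 h3.le]

theorem Z3_expo (m N x0 : ℝ) (hm : 0 ≤ m) (hN : m + 1 ≤ N) (ht : N * tanh x0 = m) (x : ℝ) :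
    m * x - N * log (cosh x) - (m * x0 - N * log (cosh x0)) + gam * log (cosh x) ≤ 1 + log N := by
  have hN1 : 1 ≤ N := by linarith
  have hN0 : 0 < N := by linarith
  have hlog : 0 ≤ log N := log_nonneg hN1
  have hg0 := gam_pos
  have hg1 : gam ≤ 1 := by norm_num [gam]
  have hmax : ∀ y, m * y - N * log (cosh y) ≤ m * x0 - N * log (cosh x0) := by
    intro y
    have h := mul_le_mul_of_nonneg_left (Z3_conv x0 y) hN0.le
    have e : N * (log (cosh x0) + tanh x0 * (y - x0)) = N * log (cosh x0) + m * (y - x0) := by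
      rw [← ht]; ring
    rw [e] at h
    linarith
  have hL := Z3_log_nonneg x
  rcases le_total x 0 with hx | hx
  · have h0 := hmax 0
    simp only [mul_zero, cosh_zero, log_one, sub_zero] at h0
    have h1 : m * x ≤ 0 := mul_nonpos_of_nonneg_of_nonpos hm hx
    have h2 : gam * log (cosh x) ≤ N * log (cosh x) :=
      mul_le_mul_of_nonneg_right (by linarith) hL
    linarith
  · have h1 : gam * log (cosh x) ≤ x := by
      have := Z3_log_le x hx
      nlinarith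
    rcases le_total x (log N) with hy | hy
    · have := hmax x
      linarith
    · have h2 := hmax (log N)
      have h3 := mul_le_mul_of_nonneg_left (Z3_log_ge x) hN0.le
      have h4 := mul_le_mul_of_nonneg_left (Z3_log_le' (log N)) hN0.le
      have h5 : N * exp (-(2 * log N)) ≤ 1 := by
        have e : exp (-(2 * log N)) = (N * N)⁻¹ := by
          rw [exp_neg, two_mul, exp_add, exp_log hN0]
        rw [e, ← div_eq_mul_inv, div_le_one (by positivity)]
        nlinarith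
      have h6 : (x - log N) * 1 ≤ (x - log N) * (N - m) :=
        mul_le_mul_of_nonneg_left (by linarith) (by linarith)
      nlinarith

theorem Z3_exists_pe (m n x0 : ℝ) (hm : 0 ≤ m) (hN : m + 1 ≤ 2 * n) (ht : 2 * n * tanh x0 = m) :
    ∃ P : E0, ‖P‖ ≤ 6 * n ∧ eps x0 * P x0 = 1 ∧
      ∀ x, HasDerivAt (fun x => eps x * P x) (alpB m n x * (eps x * P x)) x := by
  have hN0 : 0 < 2 * n := by linarith
  have hcont : Continuous fun x : ℝ => log (cosh x) :=
    continuous_cosh.log fun x => (cosh_pos x).ne'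
  have hb : ∀ x : ℝ, |exp (m * x - 2 * n * log (cosh x) - (m * x0 - 2 * n * log (cosh x0))
      + gam * log (cosh x))| ≤ 6 * n := by
    intro x
    rw [abs_of_pos (exp_pos _)]
    refine (exp_le_exp.2 (Z3_expo m (2 * n) x0 hm hN ht x)).trans ?_
    rw [exp_add, exp_log hN0]
    have := exp_one_lt_d9
    nlinarith
  let P : E0 := mkB (fun x => exp (m * x - 2 * n * log (cosh x) - (m * x0 - 2 * n * log (cosh x0))
      + gam * log (cosh x))) (by fun_prop) (6 * n) hb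
  have hP : ∀ x, eps x * P x =
      exp (m * x - 2 * n * log (cosh x) - (m * x0 - 2 * n * log (cosh x0))) := by
    intro x
    show eps x * exp _ = _
    rw [eps, rpow_def_of_pos (cosh_pos x), ← exp_add]
    congr 1; ring
  refine ⟨P, norm_le_of_abs hb, by rw [hP, sub_self, exp_zero], fun x => ?_⟩
  have e : (fun x => eps x * P x) =
      fun x => exp (m * x - 2 * n * log (cosh x) - (m * x0 - 2 * n * log (cosh x0))) := funext hP
  rw [e, hP]
  have h1 := (hasDerivAt_cosh x).log (cosh_pos x).ne'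
  have h2 := ((((hasDerivAt_id' x).const_mul m).sub (h1.const_mul (2 * n))).sub_const
    (m * x0 - 2 * n * log (cosh x0))).exp
  refine HasDerivAt.congr_deriv (f := fun x => exp (m * x - 2 * n * log (cosh x)
    - (m * x0 - 2 * n * log (cosh x0)))) h2 ?_
  simp only [alpB_apply, Pi.sub_apply, tanh_eq_sinh_div_cosh]
  ring

/-- the defect between the two solutions -/
def Z3_d (m n : ℝ) (R0 Re : E0 →L[ℝ] E0) (c : E1) : E0 :=
  alpB m n * R0 (fstL c) + fstL c - epsB * Re (sndL c - (2 * n) • (s2eB * R0 (fstL c)))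

theorem Z3_d_apply (m n : ℝ) (R0 Re : E0 →L[ℝ] E0) (c : E1) (x : ℝ) :
    Z3_d m n R0 Re c x = (m - 2 * n * tanh x) * R0 (fstL c) x + fstL c x
      - eps x * Re (sndL c - (2 * n) • (s2eB * R0 (fstL c))) x := by
  simp only [Z3_d, BoundedContinuousFunction.sub_apply, BoundedContinuousFunction.add_apply,
    BoundedContinuousFunction.mul_apply, alpB_apply, epsB_apply]

theorem Z3_deriv_d (m n : ℝ) (R0 Re : E0 →L[ℝ] E0) (h0 : IsRes (alpB m n + (0 : ℝ) • tanhB) R0)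
    (he : IsRes (alpB m n + gam • tanhB) Re) (c : E1) (x : ℝ) :
    HasDerivAt (Z3_d m n R0 Re c) (alpB m n x * Z3_d m n R0 Re c x) x := by
  have h1 : HasDerivAt (fun x => m - 2 * n * tanh x) (-(2 * n * sech x ^ 2)) x :=
    ((hasDerivAt_tanh' x).const_mul (2 * n)).const_sub m
  have h2 := ((h1.mul (h0 (fstL c) x)).add (c.hasDerivAt x)).sub
    ((hasDerivAt_eps x).mul (he (sndL c - (2 * n) • (s2eB * R0 (fstL c))) x))
  have e : ⇑(Z3_d m n R0 Re c) = (fun x => m - 2 * n * tanh x) * ⇑(R0 (fstL c)) + ⇑(fstL c)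
      - eps * ⇑(Re (sndL c - (2 * n) • (s2eB * R0 (fstL c)))) := by
    ext y; rw [Z3_d_apply]; rfl
  rw [Z3_d_apply, e]
  refine h2.congr_deriv ?_
  have := (eps_pos x).ne'
  simp only [BoundedContinuousFunction.sub_apply, BoundedContinuousFunction.add_apply,
    BoundedContinuousFunction.smul_apply, BoundedContinuousFunction.mul_apply, alpB_apply,
    s2eB_apply, tanhB_apply, smul_eq_mul]
  field_simp
  ring

/-- the correction operator -/
def Z3_Cr (m n : ℝ) (R0 Re : E0 →L[ℝ] E0) (x0 : ℝ) (P : E0) : E0 →L[ℝ] E0 :=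
  (-(2 * n)) • (Zst Re m n ∘L mulL s2eB ∘L R0) - (2 * n - 2) • (mulL s2eB ∘L R0)
    + (evalCLM ℝ x0).smulRight (abB m n * P)

theorem Z3_Cr_apply (m n : ℝ) (R0 Re : E0 →L[ℝ] E0) (x0 : ℝ) (P : E0) (f : E0) :
    Z3_Cr m n R0 Re x0 P f = (-(2 * n)) • Zst Re m n (s2eB * R0 f) - (2 * n - 2) • (s2eB * R0 f)
      + f x0 • (abB m n * P) := rfl

theorem Z3_Zst_apply (R : E0 →L[ℝ] E0) (m n : ℝ) (f : E0) :
    Zst R m n f = f + abB m n * R f := rfl

theorem Z3_step (m n : ℝ) (R0 Re : E0 →L[ℝ] E0) (h0 : IsRes (alpB m n + (0 : ℝ) • tanhB) R0)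
    (x0 : ℝ) (P : E0)
    (hP : ∀ (c : E1) (x : ℝ), Z3_d m n R0 Re c x = fstL c x0 * (eps x * P x)) :
    ∃ Z1 : E1 →L[ℝ] E1, (∀ c, fstL (Z1 c) = Zst R0 m n (fstL c)) ∧
      ∀ c, sndL (Z1 c) = Zst Re m n (sndL c) + Z3_Cr m n R0 Re x0 P (fstL c) := by
  refine ⟨E1.mkL (Zst R0 m n ∘L fstL) (Zst Re m n ∘L sndL + Z3_Cr m n R0 Re x0 P ∘L fstL)
    fun c x => ?_, fun c => rfl, fun c => rfl⟩
  have h1 : HasDerivAt (fun x => 2 * m - (4 * n - 2) * tanh x) (-((4 * n - 2) * sech x ^ 2)) x :=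
    ((hasDerivAt_tanh' x).const_mul (4 * n - 2)).const_sub (2 * m)
  have h2 := (c.hasDerivAt x).add (h1.mul (h0 (fstL c) x))
  have e : ⇑((Zst R0 m n ∘L fstL) c) =
      ⇑(fstL c) + (fun x => 2 * m - (4 * n - 2) * tanh x) * ⇑(R0 (fstL c)) := by
    ext y
    show (fstL c + abB m n * R0 (fstL c)) y = _
    simp only [BoundedContinuousFunction.add_apply, BoundedContinuousFunction.mul_apply,
      abB_apply, Pi.add_apply, Pi.mul_apply]
  have e2 : (Zst Re m n ∘L sndL + Z3_Cr m n R0 Re x0 P ∘L fstL) c =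
      Zst Re m n (sndL c) + Z3_Cr m n R0 Re x0 P (fstL c) := rfl
  rw [e, e2]
  refine h2.congr_deriv ?_
  have h3 := hP c x
  rw [Z3_d_apply, map_sub, map_smul] at h3
  have h4 := (eps_pos x).ne'
  have h5 : eps x * (sech x ^ 2 / eps x) = sech x ^ 2 := by field_simp
  simp only [Z3_Cr_apply, Z3_Zst_apply, BoundedContinuousFunction.sub_apply,
    BoundedContinuousFunction.add_apply, BoundedContinuousFunction.smul_apply,
    BoundedContinuousFunction.mul_apply, alpB_apply, abB_apply, s2eB_apply, tanhB_apply,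
    smul_eq_mul] at h3 ⊢
  linear_combination (2 * m - (4 * n - 2) * tanh x) * h3
    + ((4 * n - 2) * R0 (fstL c) x) * h5

theorem Z3_norm_Cr (m n : ℝ) (hn : 1 ≤ n) (R0 Re : E0 →L[ℝ] E0) (x0 : ℝ) (P : E0) (r q : ℝ)
    (hZ : ‖Zst Re m n‖ ≤ 16) (hR : ‖R0‖ ≤ r) (hq : ‖abB m n * P‖ ≤ q) :
    ‖Z3_Cr m n R0 Re x0 P‖ ≤ 34 * n * r + q := by
  have hr : 0 ≤ r := (norm_nonneg R0).trans hR
  have hq0 : 0 ≤ q := (norm_nonneg _).trans hq
  refine ContinuousLinearMap.opNorm_le_bound _ (by positivity) fun f => ?_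
  have hf := norm_nonneg f
  have h1 : ‖s2eB * R0 f‖ ≤ r * ‖f‖ := by
    have h := (R0.le_opNorm f).trans (mul_le_mul_of_nonneg_right hR hf)
    have h' := (norm_mul_le s2eB (R0 f)).trans
      (mul_le_mul norm_s2eB h (norm_nonneg _) zero_le_one)
    rwa [one_mul] at h'
  have h2 : ‖Zst Re m n (s2eB * R0 f)‖ ≤ 16 * (r * ‖f‖) :=
    ((Zst Re m n).le_opNorm _).trans (mul_le_mul hZ h1 (norm_nonneg _) (by norm_num))
  have h3 : ‖(-(2 * n)) • Zst Re m n (s2eB * R0 f)‖ ≤ 2 * n * (16 * (r * ‖f‖)) := by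
    rw [norm_smul, Real.norm_eq_abs, abs_neg, abs_of_nonneg (by linarith)]
    exact mul_le_mul_of_nonneg_left h2 (by linarith)
  have h4 : ‖(2 * n - 2) • (s2eB * R0 f)‖ ≤ 2 * n * (r * ‖f‖) := by
    rw [norm_smul, Real.norm_eq_abs, abs_of_nonneg (by linarith)]
    exact mul_le_mul (by linarith) h1 (norm_nonneg _) (by linarith)
  have h5 : ‖f x0 • (abB m n * P)‖ ≤ ‖f‖ * q := by
    rw [norm_smul]
    exact mul_le_mul (f.norm_coe_le_norm x0) hq (norm_nonneg _) hf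
  rw [Z3_Cr_apply]
  refine (norm_add_le _ _).trans ?_
  have h6 := norm_sub_le ((-(2 * n)) • Zst Re m n (s2eB * R0 f)) ((2 * n - 2) • (s2eB * R0 f))
  nlinarith

theorem exists_step1 : ∃ C : ℝ, ∀ m n : ℕ, Odd m → 3 ≤ m → 1 ≤ n → ∀ R0 Re : E0 →L[ℝ] E0,
    StepRes m n 0 R0 → StepRes m n gam Re → ∃ (Z1 : E1 →L[ℝ] E1) (Cr : E0 →L[ℝ] E0),
      (∀ c, fstL (Z1 c) = Zst R0 m n (fstL c)) ∧
      (∀ c, sndL (Z1 c) = Zst Re m n (sndL c) + Cr (fstL c)) ∧
      ‖Cr‖ ≤ C * (1 + n) ^ 4 / m := by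
  refine ⟨500, fun m n hm h3 hn R0 Re h0 he => ?_⟩
  obtain ⟨h01, h02, h03, -⟩ := h0
  obtain ⟨he1, he2, -, he4⟩ := he
  have hZ : ‖Zst Re m n‖ ≤ 16 := by
    refine he4.trans ?_
    split_ifs <;> norm_num
  have hm3 : (3 : ℝ) ≤ m := by exact_mod_cast h3
  have hn1 : (1 : ℝ) ≤ n := by exact_mod_cast hn
  have hm0 : (0 : ℝ) < m := by linarith
  have hA : 34 * (n : ℝ) * (5 * (1 + 2 * n)) ≤ 340 * (1 + n) ^ 4 := by
    have h1 : (1 + (n : ℝ)) ^ 2 ≤ (1 + n) ^ 4 := pow_le_pow_right₀ (by linarith) (by norm_num)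
    nlinarith
  have hne : m ≠ 2 * n := by
    rintro rfl
    exact (Nat.not_even_iff_odd.2 hm) (even_two_mul n)
  rcases lt_or_gt_of_ne hne with hlt | hgt
  · have hN : (m : ℝ) + 1 ≤ 2 * n := by exact_mod_cast hlt
    have hn0 : (0 : ℝ) < 2 * n := by linarith
    have ht : tanh (artanh ((m : ℝ) / (2 * n))) = m / (2 * n) := by
      refine tanh_artanh ⟨?_, ?_⟩
      · have : (0 : ℝ) < m / (2 * n) := by positivity
        linarith
      · rw [div_lt_one hn0]; linarith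
    generalize artanh ((m : ℝ) / (2 * n)) = x0 at ht
    have ht' : 2 * (n : ℝ) * tanh x0 = m := by rw [ht]; field_simp
    obtain ⟨P, hP1, hP2, hP3⟩ := Z3_exists_pe m n x0 hm0.le hN ht'
    have hP : ∀ (c : E1) (x : ℝ), Z3_d m n R0 Re c x = fstL c x0 * (eps x * P x) := by
      intro c x
      have h := res_unique_base (alpB m n) x0
        (fun x => Z3_d m n R0 Re c x - fstL c x0 * (eps x * P x)) (fun y => ?_) ?_ x
      · exact sub_eq_zero.1 h
      · have h1 := (Z3_deriv_d m n R0 Re h01 he1 c y).sub ((hP3 y).const_mul (fstL c x0))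
        refine HasDerivAt.congr_deriv
          (f := fun x => Z3_d m n R0 Re c x - fstL c x0 * (eps x * P x)) h1 ?_
        ring
      · show Z3_d m n R0 Re c x0 - fstL c x0 * (eps x0 * P x0) = 0
        rw [hP2, Z3_d_apply, h02 hlt x0 ht, he2 hlt x0 ht]
        ring
    obtain ⟨Z1, hZ1, hZ2⟩ := Z3_step m n R0 Re h01 x0 P hP
    have hab : ‖abB m n‖ ≤ 8 * n := norm_le_of_abs fun x => by
      rw [abB_apply]
      have h := abs_le.1 (abs_tanh_le_one x)
      have h4 : (0 : ℝ) ≤ 4 * n - 2 := by linarith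
      rw [abs_le]
      constructor <;> nlinarith [mul_le_mul_of_nonneg_left h.1 h4, mul_le_mul_of_nonneg_left h.2 h4]
    have hq : ‖abB m n * P‖ ≤ 8 * n * (6 * n) :=
      (norm_mul_le _ _).trans (mul_le_mul hab hP1 (norm_nonneg _) (by linarith))
    refine ⟨Z1, _, hZ1, hZ2, (Z3_norm_Cr m n hn1 R0 Re x0 P _ _ hZ h03 hq).trans ?_⟩
    rw [le_div_iff₀ hm0]
    have e : (34 * (n : ℝ) * (5 * (1 + 2 * n) / m) + 8 * n * (6 * n)) * m =
        34 * n * (5 * (1 + 2 * n)) + 48 * n ^ 2 * m := by field_simp; ring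
    rw [e]
    have h5 : 48 * (n : ℝ) ^ 2 * m ≤ 48 * n ^ 2 * (2 * n) :=
      mul_le_mul_of_nonneg_left (by linarith) (by positivity)
    have h6 : (n : ℝ) ^ 3 ≤ (1 + n) ^ 3 := pow_le_pow_left₀ (by linarith) (by linarith) 3
    have h7 : (1 + (n : ℝ)) ^ 3 ≤ (1 + n) ^ 4 := pow_le_pow_right₀ (by linarith) (by norm_num)
    have h8 : 0 ≤ (1 + (n : ℝ)) ^ 4 := by positivity
    nlinarith
  · have hN : 2 * (n : ℝ) + 1 ≤ m := by exact_mod_cast hgt
    have hP : ∀ (c : E1) (x : ℝ), Z3_d m n R0 Re c x = fstL c 0 * (eps x * (0 : E0) x) := by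
      intro c x
      have h := res_unique_top (alpB m n) one_pos (fun y => ?_) (Z3_d m n R0 Re c) _
        (abs_le_norm _) (Z3_deriv_d m n R0 Re h01 he1 c) x
      · rw [h]; simp
      · rw [alpB_apply]
        have h := abs_le.1 (abs_tanh_le_one y)
        have h4 : (0 : ℝ) ≤ 2 * n := by linarith
        nlinarith [mul_le_mul_of_nonneg_left h.2 h4]
    obtain ⟨Z1, hZ1, hZ2⟩ := Z3_step m n R0 Re h01 0 0 hP
    have hq : ‖abB m n * (0 : E0)‖ ≤ 0 := by simp
    refine ⟨Z1, _, hZ1, hZ2, (Z3_norm_Cr m n hn1 R0 Re 0 0 _ _ hZ h03 hq).trans ?_⟩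
    rw [le_div_iff₀ hm0]
    have e : (34 * (n : ℝ) * (5 * (1 + 2 * n) / m) + 0) * m = 34 * n * (5 * (1 + 2 * n)) := by
      field_simp; ring
    rw [e]
    have h8 : 0 ≤ (1 + (n : ℝ)) ^ 4 := by positivity
    linarith

end Pool.Agent.PS
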