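import Pool.Agent.P.MP_6c3c64_gt.Z2
import Pool.Agent.P.MP_6c3c64_gt.Z3
import Pool.Agent.P.MP_6c3c64_gt.Z4

/-! Row Z5. Assembly of the chains. Choose `R0 j n`, `Re j n`, `Z1 j n`, `Cr j n` for `n ≥ 1`
(anything for `n = 0`), `ch1 j = chainOf (Z1 j)`, `cor j 0 = 0`,
`cor j (n + 1) = che Re j n * Cr j (n + 1) + cor j n * Zst (R0 j (n + 1)) ..`. The field `imn` is
`Imn_step` and induction on `n` (for all `c`). Norms: a product of consecutive steps has at most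
`441` factors with `|m - 2 i| < 441`, so its norm is at most `16 ^ 441 * (53 / 10) ^ length`
(keep this constant abstract, do not let `norm_num` evaluate it in large goals); then
`cor j n = ∑ i, che (i - 1) * Cr i * (Zst R0 (i + 1) ... Zst R0 n)` has norm at most
`C n (1 + n) ^ 4 (53 / 10) ^ n / m ≤ C' (107 / 20) ^ n / m`; `fstL (ch1 j n c)` is the chain of the
`Zst R0` applied to `fstL c`, and `E1.norm_def` bounds `ch1`.
-/

set_option autoImplicit false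

open Real BoundedContinuousFunction MeasureTheory Set Filter Topology
open scoped NNReal ENNReal

noncomputable section

namespace Pool.Agent.PS

/-- bound for one step -/
def Z5_s (m n : ℕ) : ℝ := if 441 ≤ |(m : ℤ) - 2 * n| then 53 / 10 else 16

/-- bound for a chain -/
def Z5_P (m : ℕ) : ℕ → ℝ
  | 0 => 1
  | n + 1 => Z5_P m n * Z5_s m (n + 1)

theorem Z5_one_le_s (m n : ℕ) : 1 ≤ Z5_s m n := by
  unfold Z5_s
  split_ifs <;> norm_num

theorem Z5_P_pos (m n : ℕ) : 0 < Z5_P m n := by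
  induction n with
  | zero => exact one_pos
  | succ n ih => exact mul_pos ih (one_pos.trans_le (Z5_one_le_s m _))

theorem Z5_P_le (m n : ℕ) : Z5_P m n ≤ 4 ^ (min 882 (2 * n + 441 - m)) * (53 / 10) ^ n := by
  induction n with
  | zero => rw [pow_zero, mul_one]; exact one_le_pow₀ (by norm_num)
  | succ n ih =>
    have h0 := Z5_P_pos m n
    rw [Z5_P, Z5_s, pow_succ (53 / 10 : ℝ), ← mul_assoc]
    split_ifs with h
    · refine mul_le_mul_of_nonneg_right (ih.trans (mul_le_mul_of_nonneg_right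
        (pow_le_pow_right₀ (by norm_num) (by omega)) (by positivity))) (by norm_num)
    · have h1 : min 882 (2 * n + 441 - m) + 1 ≤ min 882 (2 * (n + 1) + 441 - m) := by
        have := abs_lt.1 (not_le.1 h)
        push_cast at this
        omega
      have h2 : (4 : ℝ) ^ (min 882 (2 * n + 441 - m)) * 4
          ≤ 4 ^ (min 882 (2 * (n + 1) + 441 - m)) := by
        rw [← pow_succ]
        exact pow_le_pow_right₀ (by norm_num) h1
      have h3 : (0 : ℝ) < (53 / 10) ^ n := by positivity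
      have h4 := mul_le_mul_of_nonneg_right h2 h3.le
      nlinarith

theorem Z5_P_bdd : ∃ K : ℝ, 0 ≤ K ∧ ∀ m n : ℕ, (1 + (n : ℝ)) ^ 5 * Z5_P m n ≤ K * (107 / 20) ^ n := by
  obtain ⟨K, hK0, hK⟩ : ∃ K : ℝ, 0 ≤ K ∧ ∀ e : ℕ, (4 : ℝ) ^ min 882 e ≤ K :=
    ⟨4 ^ 882, pow_nonneg (by norm_num) _, fun e => pow_le_pow_right₀ (by norm_num) (min_le_left _ _)⟩
  obtain ⟨B, hB⟩ := (tendsto_pow_const_mul_const_pow_of_abs_lt_one 5
    (r := 106 / 107) (by rw [abs_of_pos] <;> norm_num)).bddAbove_range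
  have hB' : ∀ n : ℕ, (n : ℝ) ^ 5 * (106 / 107) ^ n ≤ B := fun n => hB ⟨n, rfl⟩
  have hB0 : 0 ≤ B := by simpa using hB' 0
  refine ⟨K * (B * 2), by positivity, fun m n => ?_⟩
  have h1 := (Z5_P_le m n).trans (mul_le_mul_of_nonneg_right (hK _) (by positivity))
  have h2 := hB' (n + 1)
  have h3 : (53 / 10 : ℝ) ^ n = (106 / 107) ^ n * (107 / 20) ^ n := by
    rw [← mul_pow]; norm_num
  have h4 : (1 + (n : ℝ)) ^ 5 * (106 / 107) ^ n ≤ B * 2 := by
    rw [pow_succ (106 / 107 : ℝ), Nat.cast_add, Nat.cast_one, add_comm (n : ℝ), ← mul_assoc] at h2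
    have : (0 : ℝ) ≤ (1 + (n : ℝ)) ^ 5 * (106 / 107) ^ n := by positivity
    linarith
  calc (1 + (n : ℝ)) ^ 5 * Z5_P m n ≤ (1 + (n : ℝ)) ^ 5 * (K * (53 / 10) ^ n) := by gcongr
    _ = K * ((1 + (n : ℝ)) ^ 5 * (106 / 107) ^ n) * (107 / 20) ^ n := by rw [h3]; ring
    _ ≤ K * (B * 2) * (107 / 20) ^ n := by gcongr

section

variable {V : Type} [NormedAddCommGroup V] [NormedSpace ℝ V]

theorem Z5_chain {m : ℕ} {Z : ℕ → V →L[ℝ] V} (h : ∀ n, ‖Z (n + 1)‖ ≤ Z5_s m (n + 1)) (n : ℕ) :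
    ‖chainOf Z n‖ ≤ Z5_P m n := by
  induction n with
  | zero => exact ContinuousLinearMap.norm_id_le
  | succ n ih =>
    exact (norm_mul_le _ _).trans (mul_le_mul ih (h n) (norm_nonneg _) (Z5_P_pos m n).le)

/-- the correction terms -/
def Z5_cor (ch Cr Z : ℕ → V →L[ℝ] V) : ℕ → V →L[ℝ] V
  | 0 => 0
  | n + 1 => ch n * Cr (n + 1) + Z5_cor ch Cr Z n * Z (n + 1)

theorem Z5_cor_le {m : ℕ} {ch Cr Z : ℕ → V →L[ℝ] V} {D : ℝ} (hD : 0 ≤ D)
    (h1 : ∀ n, ‖ch n‖ ≤ Z5_P m n)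
    (h2 : ∀ n : ℕ, ‖Cr (n + 1)‖ ≤ D * (1 + ((n + 1 : ℕ) : ℝ)) ^ 4)
    (h3 : ∀ n, ‖Z (n + 1)‖ ≤ Z5_s m (n + 1)) (n : ℕ) :
    ‖Z5_cor ch Cr Z n‖ ≤ D * (n * (1 + (n : ℝ)) ^ 4 * Z5_P m n) := by
  induction n with
  | zero => simp [Z5_cor]
  | succ n ih =>
    have p0 := Z5_P_pos m n
    have s1 := Z5_one_le_s m (n + 1)
    have a1 : ‖ch n * Cr (n + 1)‖ ≤ Z5_P m n * Z5_s m (n + 1) * (D * (1 + ((n + 1 : ℕ) : ℝ)) ^ 4) :=
      (norm_mul_le _ _).trans (mul_le_mul ((h1 n).trans (le_mul_of_one_le_right p0.le s1)) (h2 n)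
        (norm_nonneg _) (by positivity))
    have a2 : ‖Z5_cor ch Cr Z n * Z (n + 1)‖
        ≤ D * (n * (1 + ((n + 1 : ℕ) : ℝ)) ^ 4 * Z5_P m n) * Z5_s m (n + 1) := by
      refine (norm_mul_le _ _).trans (mul_le_mul (ih.trans ?_) (h3 n) (norm_nonneg _)
        (by positivity))
      gcongr
      omega
    refine (norm_add_le _ _).trans ((add_le_add a1 a2).trans (le_of_eq ?_))
    rw [Z5_P]
    push_cast
    ring

theorem Z5_cor_le' {m : ℕ} {ch Cr Z : ℕ → V →L[ℝ] V} {C K : ℝ} (m0 : (0 : ℝ) < m)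
    (hK : ∀ n : ℕ, (1 + (n : ℝ)) ^ 5 * Z5_P m n ≤ K * (107 / 20) ^ n)
    (h1 : ∀ n, ‖ch n‖ ≤ Z5_P m n)
    (h2 : ∀ n : ℕ, ‖Cr (n + 1)‖ ≤ C * (1 + ((n + 1 : ℕ) : ℝ)) ^ 4 / m)
    (h3 : ∀ n, ‖Z (n + 1)‖ ≤ Z5_s m (n + 1)) (n : ℕ) :
    ‖Z5_cor ch Cr Z n‖ ≤ |C| * K * (107 / 20) ^ n / m := by
  have p0 := Z5_P_pos m n
  refine (Z5_cor_le (D := |C| / m) (by positivity) h1 (fun n => ?_) h3 n).trans ?_
  · refine (h2 n).trans ?_
    rw [div_mul_eq_mul_div]
    gcongr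
    exact le_abs_self C
  · rw [mul_assoc |C|, ← div_mul_eq_mul_div]
    refine mul_le_mul_of_nonneg_left (le_trans ?_ (hK n)) (by positivity)
    rw [pow_succ' _ 4]
    gcongr
    simp

end

theorem Z5_arith {K L q x y a b c d : ℝ} (h1 : a ≤ K * q * x) (h2 : b ≤ K * q * y)
    (h3 : c ≤ L * q * x) (h4 : d ≤ b + c) (h5 : 0 ≤ L * q * y) :
    a + d ≤ (K + L) * q * (x + y) := by linarith

theorem exists_chainData : Nonempty ChainData := by
  have hR : ∀ (g : ℝ), 0 ≤ g → g ≤ gam → ∀ j n : ℕ, ∃ R : E0 →L[ℝ] E0,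
      1 ≤ n → StepRes (mm j) n g R := fun g h0 h1 j n => by
    by_cases hn : 1 ≤ n
    · obtain ⟨R, hR⟩ := exists_stepRes (mm j) n (odd_mm j) (three_le_mm j) hn g h0 h1
      exact ⟨R, fun _ => hR⟩
    · exact ⟨0, fun h => absurd h hn⟩
  choose R0 hR0 using hR 0 le_rfl gam_pos.le
  choose Re hRe using hR gam gam_pos.le le_rfl
  obtain ⟨C, hC⟩ := exists_step1
  have hZ : ∀ j n : ℕ, ∃ (Z1 : E1 →L[ℝ] E1) (Cr : E0 →L[ℝ] E0), 1 ≤ n →
      (∀ c, fstL (Z1 c) = Zst (R0 j n) (mm j) n (fstL c)) ∧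
      (∀ c, sndL (Z1 c) = Zst (Re j n) (mm j) n (sndL c) + Cr (fstL c)) ∧
      ‖Cr‖ ≤ C * (1 + n) ^ 4 / mm j := fun j n => by
    by_cases hn : 1 ≤ n
    · obtain ⟨Z1, Cr, h⟩ := hC (mm j) n (odd_mm j) (three_le_mm j) hn _ _ (hR0 j n hn) (hRe j n hn)
      exact ⟨Z1, Cr, fun _ => h⟩
    · exact ⟨0, 0, fun h => absurd h hn⟩
  choose Z1 Cr hZ using hZ
  obtain ⟨K, hK0, hK⟩ := Z5_P_bdd
  let cor : ℕ → ℕ → E0 →L[ℝ] E0 := fun j =>
    Z5_cor (che Re j) (Cr j) fun n => Zst (R0 j n) (mm j) n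
  have n0 : ∀ j n, ‖Zst (R0 j (n + 1)) (mm j) (n + 1 : ℕ)‖ ≤ Z5_s (mm j) (n + 1) := fun j n =>
    (hR0 j (n + 1) (by omega)).2.2.2
  have ne : ∀ j n, ‖che Re j n‖ ≤ Z5_P (mm j) n := fun j =>
    Z5_chain fun n => (hRe j (n + 1) (by omega)).2.2.2
  have hP : ∀ m n, Z5_P m n ≤ K * (107 / 20) ^ n := fun m n =>
    (le_mul_of_one_le_left (Z5_P_pos m n).le (one_le_pow₀ (by simp))).trans (hK m n)
  have nc : ∀ j n, ‖cor j n‖ ≤ |C| * K * (107 / 20) ^ n / mm j := fun j =>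
    Z5_cor_le' (mm_pos j) (hK (mm j)) (ne j) (fun n => (hZ j (n + 1) (by omega)).2.2) (n0 j)
  have hf : ∀ j n c, fstL (chainOf (Z1 j) n c)
      = chainOf (fun n : ℕ => Zst (R0 j n) (mm j) n) n (fstL c) := fun j n => by
    induction n with
    | zero => exact fun c => rfl
    | succ n ih =>
      intro c
      refine (ih (Z1 j (n + 1) c)).trans ?_
      rw [(hZ j (n + 1) (by omega)).1]
      rfl
  have hs : ∀ j n c, sndL (chainOf (Z1 j) n c) = che Re j n (sndL c) + cor j n (fstL c) :=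
    fun j n => by
    induction n with
    | zero => exact fun c => (add_zero _).symm
    | succ n ih =>
      intro c
      refine (ih (Z1 j (n + 1) c)).trans ?_
      rw [(hZ j (n + 1) (by omega)).1, (hZ j (n + 1) (by omega)).2.1, map_add, add_assoc]
      rfl
  have hpow : ∀ n : ℕ, (0 : ℝ) ≤ (107 / 20) ^ n := fun n => pow_nonneg (by norm_num) n
  have hCK : 0 ≤ |C| * K := mul_nonneg (abs_nonneg C) hK0
  refine ⟨⟨Re, fun j => chainOf (Z1 j), cor, K + |C| * K, fun j n hn => (hRe j n hn).1, hs,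
    fun j n a => ?_, fun j n => ?_, fun j n => ?_, fun j n => ?_⟩⟩
  · induction n with
    | zero => exact fun c => rfl
    | succ n ih =>
      intro c
      refine Eq.trans ?_ (ih (Z1 j (n + 1) c))
      rw [Imn_step (mm j) (n + 1 : ℕ) a (R0 j (n + 1) (fstL c)) (fstL c) (fstL c).continuous
        fun x => by simpa using (hR0 j (n + 1) (by omega)).1 (fstL c) x,
        (hZ j (n + 1) (by omega)).1, Nat.cast_add_one (R := ℤ), add_sub_cancel_right]
      refine congrArg (Imn (mm j) n a) (funext fun x => ?_)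
      simp [Zst]
  · refine ContinuousLinearMap.opNorm_le_bound _ (mul_nonneg (add_nonneg hK0 hCK) (hpow n))
      fun c => ?_
    have a1 := ((chainOf (fun n : ℕ => Zst (R0 j n) (mm j) n) n).le_of_opNorm_le
      ((Z5_chain (Z := fun n : ℕ => Zst (R0 j n) (mm j) n) (n0 j) n).trans (hP _ n)) (fstL c))
    have a2 := (che Re j n).le_of_opNorm_le ((ne j n).trans (hP _ n)) (sndL c)
    have a3 := (cor j n).le_of_opNorm_le ((nc j n).trans
      (div_le_self (mul_nonneg hCK (hpow n)) (one_le_mm j))) (fstL c)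
    have a4 := norm_add_le (che Re j n (sndL c)) (cor j n (fstL c))
    rw [E1.norm_def, E1.norm_def c, hf, hs]
    exact Z5_arith a1 a2 a3 a4 (mul_nonneg (mul_nonneg hCK (hpow n)) (norm_nonneg _))
  · exact ((ne j n).trans (hP _ n)).trans
      (mul_le_mul_of_nonneg_right (le_add_of_nonneg_right hCK) (hpow n))
  · exact (nc j n).trans (div_le_div_of_nonneg_right
      (mul_le_mul_of_nonneg_right (le_add_of_nonneg_left hK0) (hpow n)) (mm_pos j).le)

end Pool.Agent.PS
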