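import Pool.Agent.P.MP_6c3c64_gt.A3
import Pool.Agent.P.MP_6c3c64_gt.Z5
import Pool.Agent.P.MP_6c3c64_gt.K1
import Pool.Agent.P.MP_6c3c64_gt.K2
import Pool.Agent.P.MP_6c3c64_gt.Key
import Pool.Agent.P.MP_6c3c64_gt.N7b
import Pool.Agent.P.MP_6c3c64_gt.G4
import Pool.Agent.P.MP_6c3c64_gt.G5
import Pool.Agent.P.MP_6c3c64_gt.L11

/-! A convex body in three-space that is not origin symmetric and whose central sections have
maximal perimeter among parallel sections. -/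

set_option autoImplicit false

open Real BoundedContinuousFunction MeasureTheory Set Filter Topology
open scoped NNReal ENNReal

noncomputable section

namespace Pool.Agent.PS

theorem exists_gauge : ∃ g : RJ, g.IsC2 ∧ g.Good ∧ (∀ a α, g.FF a α = 0) ∧
    ¬ ∀ φ x, g.n (φ + π) (-x) = g.n φ x := by
  obtain ⟨B0⟩ := exists_base0
  obtain ⟨B⟩ := exists_base B0
  obtain ⟨Z⟩ := exists_chainData
  obtain ⟨H⟩ := exists_hres
  obtain ⟨T, hinj, hT⟩ := exists_jets B Z H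
  obtain ⟨ρ1, hρ1, C, hC⟩ := T.HH_bounds B
  obtain ⟨DL, hDL, -, hN⟩ := nl_abstract (T.HH B) T.nu ρ1 C T.C hρ1 T.nu_nonneg T.bound
    (T.HH_linear B) (fun J => (hC J).2.1) (fun J => (hC J).2.2)
  obtain ⟨ρ2, hρ2, hII⟩ := T.II_DD B
  obtain ⟨ρ3, hρ3, hgood⟩ := T.jet_good
  obtain ⟨z, hz0, hz, hΦ⟩ := exists_small_zero
    (fun z => Out Z ((1 / 2 : ℝ) • (T.DD B z - T.DD B (-z)))) (Out Z ∘L DL) (hT DL hDL)
    (fun z => by rw [neg_neg, ← map_neg, ← smul_neg, neg_sub])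
    (fun η hη => by
      have hO : 0 < ‖Out Z‖ + 1 := by positivity
      obtain ⟨ρ, hρ, h⟩ := hN (η / (‖Out Z‖ + 1)) (by positivity)
      refine ⟨ρ, hρ, fun z z' h1 h2 => ?_⟩
      have e1 := h z z' h1 h2
      have e2 := h (-z) (-z') (by rwa [norm_neg]) (by rwa [norm_neg])
      have e3 : -z - -z' = -(z - z') := by abel
      rw [e3, norm_neg, map_neg] at e2
      have e4 : (1 / 2 : ℝ) • (T.DD B z - T.DD B (-z)) - (1 / 2 : ℝ) • (T.DD B z' - T.DD B (-z'))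
          - DL (z - z') = (1 / 2 : ℝ) • ((T.DD B z - T.DD B z' - DL (z - z'))
            - (T.DD B (-z) - T.DD B (-z') - -DL (z - z'))) := by module
      rw [ContinuousLinearMap.comp_apply, ← map_sub, ← map_sub, e4]
      refine ((Out Z).le_opNorm _).trans ?_
      have e5 : ‖(1 / 2 : ℝ) • ((T.DD B z - T.DD B z' - DL (z - z'))
            - (T.DD B (-z) - T.DD B (-z') - -DL (z - z')))‖ ≤ η / (‖Out Z‖ + 1) * ‖z - z'‖ := by
        rw [norm_smul, Real.norm_eq_abs, abs_of_pos (by norm_num : (0 : ℝ) < 1 / 2)]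
        have := (norm_sub_le _ _).trans (add_le_add e1 e2)
        unfold Jets.DD
        linarith
      calc _ ≤ (‖Out Z‖ + 1) * (η / (‖Out Z‖ + 1) * ‖z - z'‖) :=
            mul_le_mul (by linarith) e5 (norm_nonneg _) hO.le
        _ = η * ‖z - z'‖ := by field_simp)
    (min ρ2 ρ3) (lt_min hρ2 hρ3)
  have h1 : ∀ j : ℕ, |(fun _ : ℕ => (1 : ℝ)) j| ≤ 1 := fun _ => by simp
  refine ⟨T.jet (fun _ => 1) z, T.jet_isC2 _ h1 z, hgood z (hz.trans (min_le_right _ _)) _ h1,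
    fun a => ?_, fun h => hz0 (hinj z (T.jet_asym z h))⟩
  obtain ⟨f, hf, hf0, hfs⟩ := key Z _ hΦ a
  refine fourier_zero _ f hf hf0 (fun α => ?_) fun α => by rw [T.FF_rot, T.FF_anti]
  have e := hfs α
  have hz2 := hz.trans (min_le_left _ _)
  rw [map_smul, map_sub, hII z hz2, hII (-z) (by rwa [norm_neg]), T.FF_anti] at e
  have e' : (1 / 2 : ℝ) • ((((T.jet (fun _ => 1) z).FF a α - (T.jet (fun _ => 1) 0).FF a α : ℝ) : ℂ)
      - ((-(T.jet (fun _ => 1) z).FF a α - (T.jet (fun _ => 1) 0).FF a α : ℝ) : ℂ)) =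
      ((T.jet (fun _ => 1) z).FF a α : ℝ) := by
    rw [Complex.real_smul]; push_cast; ring
  rwa [e'] at e

theorem exists_body : ∃ K : Set E3, IsCompact K ∧ Convex ℝ K ∧ (0 : E3) ∈ interior K ∧
    (∀ u : E3, ‖u‖ = 1 → ∀ t, Per K u t ≤ Per K u 0) ∧ ¬ ∀ x ∈ K, -x ∈ K := by
  obtain ⟨g, h1, h2, h3, h4⟩ := exists_gauge
  obtain ⟨hK, hc, h0⟩ := g.Kset_body h2
  refine ⟨g.Kset, hK, hc, h0, Per_all _ hK hc h0 fun u hu hu2 t => ?_,
    fun hs => h4 (g.Kset_asym h1 h2 hs)⟩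
  obtain ⟨a, α, rfl⟩ := exists_uvec u hu hu2
  exact g.Per_le h1 h2 a α (h3 a α) t

end Pool.Agent.PS
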