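import Pool.Agent.P.MP_6c3c64_gt.N1

/-! Row N2. Uniform bounds for the coefficient polynomials in an arbitrary Banach algebra.
Suggestion: define `BL f K := (∀ u, ‖u‖ ≤ 1 → ‖f u‖ ≤ K) ∧ ∀ u u', ‖u‖ ≤ 1 → ‖u'‖ ≤ 1 →
‖f u - f u'‖ ≤ K * ‖u - u'‖` with closure lemmas (constants, coordinates, sum `K + K'`, product
`2 K K'`, scalar multiples, composition with `p`), so that every constant is an explicit function
of `M`. Then `‖dq u‖ ≤ K ‖u‖ ≤ 1 / 2` for `‖u‖ ≤ ρ`, and `N1` handles `binom`.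
-/

set_option autoImplicit false

open Real BoundedContinuousFunction MeasureTheory Set Filter Topology
open scoped NNReal ENNReal

noncomputable section

namespace Pool.Agent.PS

/-- two values that are bounded by `K` and at distance at most `K * δ` -/
def N2PB {A : Type} [NormedCommRing A] (x x' : A) (K δ : ℝ) : Prop :=
  0 ≤ δ ∧ ‖x‖ ≤ K ∧ ‖x'‖ ≤ K ∧ ‖x - x'‖ ≤ K * δ

namespace N2PB

variable {A A' : Type} [NormedCommRing A] [NormedCommRing A'] {x x' y y' z z' : A} {K L δ : ℝ}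

theorem const (hδ : 0 ≤ δ) (h : ‖x‖ ≤ K) : N2PB x x K δ :=
  ⟨hδ, h, h, by rw [sub_self, norm_zero]; exact mul_nonneg ((norm_nonneg _).trans h) hδ⟩

theorem mono (h : N2PB x x' K δ) (hK : K ≤ L) : N2PB x x' L δ :=
  ⟨h.1, h.2.1.trans hK, h.2.2.1.trans hK, h.2.2.2.trans (mul_le_mul_of_nonneg_right hK h.1)⟩

theorem add (h : N2PB x x' K δ) (h' : N2PB y y' L δ) : N2PB (x + y) (x' + y') (K + L) δ := by
  refine ⟨h.1, (norm_add_le _ _).trans (add_le_add h.2.1 h'.2.1),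
    (norm_add_le _ _).trans (add_le_add h.2.2.1 h'.2.2.1), ?_⟩
  rw [add_sub_add_comm, add_mul]
  exact (norm_add_le _ _).trans (add_le_add h.2.2.2 h'.2.2.2)

theorem neg (h : N2PB x x' K δ) : N2PB (-x) (-x') K δ :=
  ⟨h.1, by rw [norm_neg]; exact h.2.1, by rw [norm_neg]; exact h.2.2.1,
    by rw [neg_sub_neg, norm_sub_rev]; exact h.2.2.2⟩

theorem sub (h : N2PB x x' K δ) (h' : N2PB y y' L δ) : N2PB (x - y) (x' - y') (K + L) δ := by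
  rw [sub_eq_add_neg, sub_eq_add_neg]
  exact h.add h'.neg

theorem mul (h : N2PB x x' K δ) (h' : N2PB y y' L δ) : N2PB (x * y) (x' * y') (2 * K * L) δ := by
  have hK : 0 ≤ K := (norm_nonneg _).trans h.2.1
  have hL : 0 ≤ L := (norm_nonneg _).trans h'.2.1
  have hKL := mul_nonneg hK hL
  have h1 : ‖x * y‖ ≤ K * L := (norm_mul_le _ _).trans (mul_le_mul h.2.1 h'.2.1 (norm_nonneg _) hK)
  have h2 : ‖x' * y'‖ ≤ K * L :=
    (norm_mul_le _ _).trans (mul_le_mul h.2.2.1 h'.2.2.1 (norm_nonneg _) hK)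
  have h3 : ‖(x - x') * y‖ ≤ K * δ * L :=
    (norm_mul_le _ _).trans (mul_le_mul h.2.2.2 h'.2.1 (norm_nonneg _) (mul_nonneg hK h.1))
  have h4 : ‖x' * (y - y')‖ ≤ K * (L * δ) :=
    (norm_mul_le _ _).trans (mul_le_mul h.2.2.1 h'.2.2.2 (norm_nonneg _) hK)
  refine ⟨h.1, by linarith, by linarith, ?_⟩
  have e : x * y - x' * y' = (x - x') * y + x' * (y - y') := by ring
  rw [e]
  exact (norm_add_le _ _).trans (by linarith)

theorem sq (h : N2PB x x' K δ) : N2PB (x ^ 2) (x' ^ 2) (2 * K * K) δ := by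
  rw [pow_two, pow_two]
  exact h.mul h

theorem lin (h1 : N2PB x x' K δ) (h2 : N2PB y y' K δ) (h3 : N2PB z z' K δ) (a b c c' : A) :
    ‖x * a + y * b + z * c‖ ≤ K * (‖a‖ + ‖b‖ + ‖c‖) ∧
      ‖x * a + y * b + z * c - (x' * a + y' * b + z' * c')‖ ≤
        K * (δ * (‖a‖ + ‖b‖ + ‖c‖) + ‖c - c'‖) := by
  have m : ∀ (v w : A) (r : ℝ), ‖v‖ ≤ r → ‖v * w‖ ≤ r * ‖w‖ := fun v w r h =>
    (norm_mul_le _ _).trans (mul_le_mul_of_nonneg_right h (norm_nonneg _))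
  constructor
  · have := norm_add₃_le (a := x * a) (b := y * b) (c := z * c)
    linarith [m x a K h1.2.1, m y b K h2.2.1, m z c K h3.2.1]
  · have e : x * a + y * b + z * c - (x' * a + y' * b + z' * c') =
        ((x - x') * a + (y - y') * b + (z - z') * c) + z' * (c - c') := by ring
    have := norm_add₃_le (a := (x - x') * a) (b := (y - y') * b) (c := (z - z') * c)
    rw [e]
    refine (norm_add_le _ _).trans ?_
    linarith [m _ a _ h1.2.2.2, m _ b _ h2.2.2.2, m _ c _ h3.2.2.2, m _ (c - c') _ h3.2.2.1]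

variable [NormedAlgebra ℝ A] [NormedAlgebra ℝ A']

theorem smul (h : N2PB x x' K δ) {r : ℝ} (hr : ‖r‖ ≤ 1) : N2PB (r • x) (r • x') K δ := by
  have m : ∀ v : A, ‖r • v‖ ≤ ‖v‖ := fun v => by
    rw [norm_smul]
    exact mul_le_of_le_one_left (norm_nonneg _) hr
  refine ⟨h.1, (m _).trans h.2.1, (m _).trans h.2.2.1, ?_⟩
  rw [← smul_sub]
  exact (m _).trans h.2.2.2

theorem map (h : N2PB x x' K δ) {p : A →L[ℝ] A'} (hp : ‖p‖ ≤ 1) : N2PB (p x) (p x') K δ := by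
  have m : ∀ v : A, ‖p v‖ ≤ ‖v‖ := fun v =>
    (p.le_opNorm v).trans (mul_le_of_le_one_left (norm_nonneg _) hp)
  refine ⟨h.1, (m _).trans h.2.1, (m _).trans h.2.2.1, ?_⟩
  rw [← map_sub]
  exact (m _).trans h.2.2.2

theorem bin [CompleteSpace A] [NormOneClass A] (h : N2PB x x' K δ) (hx : ‖x‖ ≤ 1 / 2)
    (hx' : ‖x'‖ ≤ 1 / 2) : N2PB (binom x) (binom x') (4 + 16 * K) δ := by
  have hK : 0 ≤ K := (norm_nonneg _).trans h.2.1
  refine ⟨h.1, by linarith [norm_binom hx], by linarith [norm_binom hx'], ?_⟩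
  linarith [norm_binom_sub hx hx', h.2.2.2, h.1]

end N2PB

theorem N2_two {A : Type} [NormedCommRing A] [NormOneClass A] : ‖(2 : A)‖ ≤ 2 := by
  have := norm_add_le (1 : A) 1
  rw [one_add_one_eq_two, norm_one] at this
  linarith

section

variable {A : Type} [NormedCommRing A] [NormedAlgebra ℝ A] {b : BV A} {u u' : Fin 5 → A}
  {M δ : ℝ}

omit [NormedAlgebra ℝ A] in
theorem N2_NN (hb : b.Bdd M) (hu : ∀ i, N2PB (u i) (u' i) 1 δ) :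
    N2PB (b.NN u) (b.NN u') (M + 2 * M * 1) δ :=
  (N2PB.const (hu 0).1 hb.1).add ((N2PB.const (hu 0).1 hb.2.2.2.2.2.1).mul (hu 0))

omit [NormedAlgebra ℝ A] in
theorem N2_ET (hb : b.Bdd M) (hu : ∀ i, N2PB (u i) (u' i) 1 δ) :
    N2PB (b.ET u) (b.ET u') (M + 2 * M * 1) δ :=
  (N2PB.const (hu 0).1 hb.2.1).add ((N2PB.const (hu 0).1 hb.2.2.2.2.2.1).mul (hu 1))

omit [NormedAlgebra ℝ A] in
theorem N2_RH (hb : b.Bdd M) (hu : ∀ i, N2PB (u i) (u' i) 1 δ) :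
    N2PB (b.RH u) (b.RH u') (M + 1 + 2 * M * 1 + 1) δ :=
  (((N2PB.const (hu 0).1 hb.2.2.1).add (hu 0)).sub
    ((N2PB.const (hu 0).1 hb.2.2.2.2.1).mul (hu 1))).add (hu 4)

omit [NormedAlgebra ℝ A] in
theorem N2_NT (hb : b.Bdd M) (hu : ∀ i, N2PB (u i) (u' i) 1 δ) :
    N2PB (b.NT u) (b.NT u') (M + 1 + 2 * M * 1) δ :=
  ((N2PB.const (hu 0).1 hb.2.2.2.1).add (hu 1)).sub
    ((N2PB.const (hu 0).1 hb.2.2.2.2.1).mul (hu 0))

omit [NormedAlgebra ℝ A] in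
theorem N2_coord (hu : ‖u‖ ≤ 1) (hu' : ‖u'‖ ≤ 1) (hδ : ‖u - u'‖ ≤ δ) (i : Fin 5) :
    N2PB (u i) (u' i) 1 δ :=
  ⟨(norm_nonneg _).trans hδ, (norm_le_pi_norm u i).trans hu, (norm_le_pi_norm u' i).trans hu',
    by rw [one_mul]; exact (norm_le_pi_norm (u - u') i).trans hδ⟩

end

theorem N2_QQ (M : ℝ) : ∃ K : ℝ, ∀ (A : Type) [NormedCommRing A] [NormedAlgebra ℝ A]
    [NormOneClass A] (b : BV A) (u u' : Fin 5 → A) (δ : ℝ), b.Bdd M →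
    (∀ i, N2PB (u i) (u' i) 1 δ) → N2PB (b.QQ u) (b.QQ u') K δ :=
  ⟨_, fun _ _ _ _ _ _ _ _ hb hu =>
    (((N2_NN hb hu).sq.add ((N2_NT hb hu).sq.mul
      ((((N2PB.const (hu 0).1 N2_two).sub (N2PB.const (hu 0).1 hb.2.2.2.2.2.2.2.2.1)).sub
        (N2PB.const (hu 0).1 hb.2.2.2.2.2.2.2.2.2)).smul (by norm_num)))).add
      (((N2_NT hb hu).mul (hu 2)).mul
        (((N2PB.const (hu 0).1 hb.2.2.2.2.2.2.2.2.1).sub
          (N2PB.const (hu 0).1 hb.2.2.2.2.2.2.2.2.2)).smul (by norm_num)))).sub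
      ((hu 2).sq.mul
        ((((N2PB.const (hu 0).1 N2_two).add (N2PB.const (hu 0).1 hb.2.2.2.2.2.2.2.2.1)).add
          (N2PB.const (hu 0).1 hb.2.2.2.2.2.2.2.2.2)).smul (by norm_num)))⟩

theorem N2_dq (M : ℝ) : ∃ K : ℝ, ∀ (A : Type) [NormedCommRing A] [NormedAlgebra ℝ A]
    [NormOneClass A] (b : BV A) (u u' : Fin 5 → A) (δ : ℝ), b.Bdd M →
    (∀ i, N2PB (u i) (u' i) 1 δ) → N2PB (b.dq u) (b.dq u') K δ := by
  obtain ⟨K, hK⟩ := N2_QQ M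
  exact ⟨_, fun A _ _ _ b u u' δ hb hu => (((hK A b u u' δ hb hu).sub
    (hK A b 0 0 δ hb fun _ => N2PB.const (hu 0).1 (norm_zero.le.trans zero_le_one))).mul
      (N2PB.const (hu 0).1 hb.2.2.2.2.2.2.2.1)).neg⟩

theorem N2_kk (M : ℝ) : ∃ K : ℝ, ∀ (A : Type) [NormedCommRing A] [NormedAlgebra ℝ A]
    [CompleteSpace A] [NormOneClass A] (b : BV A) (u u' : Fin 5 → A) (δ : ℝ), b.Bdd M →
    (∀ i, N2PB (u i) (u' i) 1 δ) → ‖b.dq u‖ ≤ 1 / 2 → ‖b.dq u'‖ ≤ 1 / 2 →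
    N2PB (b.kk u) (b.kk u') K δ := by
  obtain ⟨K, hK⟩ := N2_dq M
  exact ⟨_, fun A _ _ _ _ b u u' δ hb hu h h' =>
    (N2PB.const (hu 0).1 hb.2.2.2.2.2.2.1).mul ((hK A b u u' δ hb hu).bin h h')⟩

theorem N2_cC (M Kk : ℝ) : ∃ K : ℝ, ∀ L, K ≤ L → ∀ (A : Type) [NormedCommRing A]
    [NormedAlgebra ℝ A] (b : BV A) (u u' : Fin 5 → A) (δ : ℝ), b.Bdd M →
    (∀ i, N2PB (u i) (u' i) 1 δ) → N2PB (b.kk u) (b.kk u') Kk δ → ∀ D0 D1 T T',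
    ‖b.cC u D0 D1 T‖ ≤ L * (‖D0‖ + ‖D1‖ + ‖T‖) ∧
      ‖b.cC u D0 D1 T - b.cC u' D0 D1 T'‖ ≤ L * (δ * (‖D0‖ + ‖D1‖ + ‖T‖) + ‖T - T'‖) := by
  have e : ∀ (A : Type) [NormedCommRing A] [NormedAlgebra ℝ A] (b : BV A) (u : Fin 5 → A)
      (D0 D1 T : A), b.cC u D0 D1 T = -(b.kk u * (b.RH u * b.ET u + b.s * u 2 * u 3)) * D0 +
        b.kk u * (b.RH u * b.NN u) * D1 + b.kk u * b.NN u * T := by
    intro A _ _ b u D0 D1 T
    unfold BV.cC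
    ring
  refine ⟨max (max _ _) _, fun L hL A _ _ b u u' δ hb hu hk D0 D1 T T' => (e A b u D0 D1 T).symm ▸
    (e A b u' D0 D1 T').symm ▸ N2PB.lin
      ((hk.mul (((N2_RH hb hu).mul (N2_ET hb hu)).add
        (((N2PB.const (hu 0).1 hb.2.2.2.2.2.1).mul (hu 2)).mul (hu 3)))).neg.mono
          (((le_max_left _ _).trans (le_max_left _ _)).trans hL))
      ((hk.mul ((N2_RH hb hu).mul (N2_NN hb hu))).mono
        (((le_max_right _ _).trans (le_max_left _ _)).trans hL))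
      ((hk.mul (N2_NN hb hu)).mono ((le_max_right _ _).trans hL)) D0 D1 T T'⟩

theorem N2_cP (M Kk : ℝ) : ∃ K : ℝ, ∀ L, K ≤ L → ∀ (A A' : Type) [NormedCommRing A]
    [NormedAlgebra ℝ A] [NormedCommRing A'] [NormedAlgebra ℝ A'] (p : A →L[ℝ] A') (b : BV A)
    (u u' : Fin 5 → A) (δ : ℝ) (lh mh lh' mh' : A'), ‖p‖ ≤ 1 → b.Bdd M →
    (∀ i, N2PB (u i) (u' i) 1 δ) → N2PB (b.kk u) (b.kk u') Kk δ → N2PB lh lh' (M + 1) δ →
    N2PB mh mh' (M + 1) δ → ∀ D0 D1 T,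
    ‖b.cP u p lh mh D0 D1 T‖ ≤ L * (‖D0‖ + ‖D1‖ + ‖T‖) ∧
      ‖b.cP u p lh mh D0 D1 T - b.cP u' p lh' mh' D0 D1 T‖ ≤
        L * (δ * (‖D0‖ + ‖D1‖ + ‖T‖) + ‖T - T‖) := by
  have e : ∀ (A A' : Type) [NormedCommRing A] [NormedAlgebra ℝ A] [NormedCommRing A']
      [NormedAlgebra ℝ A'] (p : A →L[ℝ] A') (b : BV A) (u : Fin 5 → A) (lh mh D0 D1 T : A'),
      b.cP u p lh mh D0 D1 T = p (b.kk u) * (mh * p (b.s * u 2) - lh * p (b.ET u)) * D0 +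
        p (b.kk u) * (lh * p (b.NN u)) * D1 + -(p (b.kk u) * (mh * p (b.NN u))) * T := by
    intro A A' _ _ _ _ p b u lh mh D0 D1 T
    unfold BV.cP
    ring
  refine ⟨max (max _ _) _, fun L hL A A' _ _ _ _ p b u u' δ lh mh lh' mh' hp hb hu hk hl hm
    D0 D1 T => (e A A' p b u lh mh D0 D1 T).symm ▸ (e A A' p b u' lh' mh' D0 D1 T).symm ▸ N2PB.lin
      (((hk.map hp).mul ((hm.mul (((N2PB.const (hu 0).1 hb.2.2.2.2.2.1).mul (hu 2)).map hp)).sub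
        (hl.mul ((N2_ET hb hu).map hp)))).mono
          (((le_max_left _ _).trans (le_max_left _ _)).trans hL))
      (((hk.map hp).mul (hl.mul ((N2_NN hb hu).map hp))).mono
        (((le_max_right _ _).trans (le_max_left _ _)).trans hL))
      (((hk.map hp).mul (hm.mul ((N2_NN hb hu).map hp))).neg.mono
        ((le_max_right _ _).trans hL)) D0 D1 T T⟩

theorem coef_bounds (M : ℝ) : ∃ ρ > 0, ∃ C : ℝ, 0 ≤ C ∧ ∀ (A A' : Type) [NormedCommRing A]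
    [NormedAlgebra ℝ A] [CompleteSpace A] [NormOneClass A] [NormedCommRing A'] [NormedAlgebra ℝ A']
    (p : A →L[ℝ] A') (b : BV A) (u u' : Fin 5 → A), ‖p‖ ≤ 1 → b.Bdd M → ‖u‖ ≤ ρ → ‖u'‖ ≤ ρ →
    ‖b.dq u‖ ≤ 1 / 2 ∧
    (∀ D0 D1 T, ‖b.cC u D0 D1 T‖ ≤ C * (‖D0‖ + ‖D1‖ + ‖T‖)) ∧
    (∀ D0 D1 T T', ‖b.cC u D0 D1 T - b.cC u' D0 D1 T'‖ ≤
      C * (‖u - u'‖ * (‖D0‖ + ‖D1‖ + ‖T‖) + ‖T - T'‖)) ∧
    ∀ lh mh lh' mh' : A', ‖lh‖ ≤ M → ‖mh‖ ≤ M → ‖lh'‖ ≤ M → ‖mh'‖ ≤ M → ∀ D0 D1 Dt,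
      ‖b.cP u p lh mh D0 D1 Dt‖ ≤ C * (‖D0‖ + ‖D1‖ + ‖Dt‖) ∧
      ‖b.cP u p lh mh D0 D1 Dt - b.cP u' p lh' mh' D0 D1 Dt‖ ≤
        C * (‖u - u'‖ + ‖lh - lh'‖ + ‖mh - mh'‖) * (‖D0‖ + ‖D1‖ + ‖Dt‖) := by
  obtain ⟨Kd, hd⟩ := N2_dq M
  obtain ⟨Kk, hk⟩ := N2_kk M
  obtain ⟨K1, h1⟩ := N2_cC M Kk
  obtain ⟨K2, h2⟩ := N2_cP M Kk
  have hpos : 0 < |Kd| + 1 := by positivity
  refine ⟨min 1 (1 / 2 / (|Kd| + 1)), lt_min one_pos (by positivity), max 0 (max K1 K2),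
    le_max_left _ _, fun A A' _ _ _ _ _ _ p b u u' hp hb hu hu' => ?_⟩
  have small : ∀ v : Fin 5 → A, ‖v‖ ≤ min 1 (1 / 2 / (|Kd| + 1)) → ‖b.dq v‖ ≤ 1 / 2 := by
    intro v hv
    have a1 := (hd A b v 0 ‖v‖ hb (N2_coord (hv.trans (min_le_left _ _))
      (norm_zero.le.trans zero_le_one) (by rw [sub_zero]))).2.2.2
    have a2 : b.dq 0 = 0 := by simp [BV.dq]
    have a3 := hv.trans (min_le_right _ _)
    rw [a2, sub_zero] at a1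
    rw [le_div_iff₀ hpos] at a3
    nlinarith [le_abs_self Kd, norm_nonneg v]
  have hu1 := hu.trans (min_le_left _ _)
  have hu1' := hu'.trans (min_le_left _ _)
  have c1 := h1 _ ((le_max_left K1 K2).trans (le_max_right 0 _)) A b u u' _ hb
    (N2_coord hu1 hu1' le_rfl) (hk A b u u' _ hb (N2_coord hu1 hu1' le_rfl) (small u hu)
      (small u' hu'))
  refine ⟨small u hu, fun D0 D1 T => (c1 D0 D1 T T).1, fun D0 D1 T T' => (c1 D0 D1 T T').2,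
    fun lh mh lh' mh' a1 a2 a3 a4 D0 D1 Dt => ?_⟩
  have hM : 0 ≤ M := (norm_nonneg _).trans a1
  have n1 := norm_nonneg (u - u')
  have n2 := norm_nonneg (lh - lh')
  have n3 := norm_nonneg (mh - mh')
  have hδ : 0 ≤ ‖u - u'‖ + ‖lh - lh'‖ + ‖mh - mh'‖ := by linarith
  have hc := N2_coord (δ := ‖u - u'‖ + ‖lh - lh'‖ + ‖mh - mh'‖) hu1 hu1' (by linarith)
  have hMδ := mul_nonneg hM hδ
  have c2 := h2 _ ((le_max_right K1 K2).trans (le_max_right 0 _)) A A' p b u u' _ lh mh lh' mh'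
    hp hb hc (hk A b u u' _ hb hc (small u hu) (small u' hu'))
    ⟨hδ, by linarith, by linarith, by linarith⟩ ⟨hδ, by linarith, by linarith, by linarith⟩ D0 D1 Dt
  rw [sub_self, norm_zero, add_zero, ← mul_assoc] at c2
  exact c2

end Pool.Agent.PS
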