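import Pool.Agent.P.MP_6c3c64_gt.N2
import Pool.Agent.P.MP_6c3c64_gt.N3a

/-! Row N3b. Bounds for `HH`, from `coef_bounds` (with `M + 1` in place of `M`, `p = pi1`),
`input_bounds`, `norm_GamC`, `norm_GamP`. Take `ρ` with `C * ρ ≤ min ρ0 1`; bounds for the size of
the arguments are the case `z2 = 0` of `input_bounds`.
-/

set_option autoImplicit false

open Real BoundedContinuousFunction MeasureTheory Set Filter Topology
open scoped NNReal ENNReal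

noncomputable section

namespace Pool.Agent.PS

variable {X : Type} [NormedAddCommGroup X] [NormedSpace ℝ X]


section generic

variable {A A' : Type} [NormedCommRing A] [NormedAlgebra ℝ A] [NormedCommRing A']
  [NormedAlgebra ℝ A']

theorem N3b_cC_add (b : BV A) (u : Fin 5 → A) (D0 D1 T D0' D1' T' : A) :
    b.cC u (D0 + D0') (D1 + D1') (T + T') = b.cC u D0 D1 T + b.cC u D0' D1' T' := by
  unfold BV.cC; ring

theorem N3b_cC_smul (b : BV A) (u : Fin 5 → A) (r : ℝ) (D0 D1 T : A) :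
    b.cC u (r • D0) (r • D1) (r • T) = r • b.cC u D0 D1 T := by
  unfold BV.cC; simp only [Algebra.smul_def]; ring

theorem N3b_cP_add (b : BV A) (u : Fin 5 → A) (p : A →L[ℝ] A') (lh mh D0 D1 T D0' D1' T' : A') :
    b.cP u p lh mh (D0 + D0') (D1 + D1') (T + T') =
      b.cP u p lh mh D0 D1 T + b.cP u p lh mh D0' D1' T' := by
  unfold BV.cP; ring

theorem N3b_cP_smul (b : BV A) (u : Fin 5 → A) (p : A →L[ℝ] A') (r : ℝ) (lh mh D0 D1 T : A') :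
    b.cP u p lh mh (r • D0) (r • D1) (r • T) = r • b.cP u p lh mh D0 D1 T := by
  unfold BV.cP; simp only [Algebra.smul_def]; ring

end generic

theorem N3b_two {V V' Z : Type} [NormedAddCommGroup V] [NormedSpace ℝ V] [NormedAddCommGroup V']
    [NormedSpace ℝ V'] [NormedAddCommGroup Z] [NormedSpace ℝ Z] (f : V →L[ℝ] Z) (g : V' →L[ℝ] Z)
    {a b c K K' : ℝ} (hf : ‖f‖ ≤ a) (hg : ‖g‖ ≤ c * b) (hc : 0 ≤ c) (x : V) (y : V')
    (hx : a * ‖x‖ ≤ K) (hy : b * ‖y‖ ≤ K') : ‖f x + g y‖ ≤ K + c * K' := by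
  have h1 : ‖f x‖ ≤ a * ‖x‖ :=
    (f.le_opNorm x).trans (mul_le_mul_of_nonneg_right hf (norm_nonneg _))
  have h2 : ‖g y‖ ≤ c * b * ‖y‖ :=
    (g.le_opNorm y).trans (mul_le_mul_of_nonneg_right hg (norm_nonneg _))
  have h3 : c * (b * ‖y‖) ≤ c * K' := mul_le_mul_of_nonneg_left hy hc
  have h4 := norm_add_le (f x) (g y)
  rw [mul_assoc] at h2
  linarith

theorem N3b_r1 {a x d0 d1 t C K : ℝ} (ha : 0 ≤ a) (hC : 0 ≤ C) (hx : x ≤ C * (d0 + d1 + t))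
    (h : a * d0 + a * d1 + a * t ≤ K) : a * x ≤ C * K :=
  calc a * x ≤ a * (C * (d0 + d1 + t)) := mul_le_mul_of_nonneg_left hx ha
    _ = C * (a * d0 + a * d1 + a * t) := by ring
    _ ≤ C * K := mul_le_mul_of_nonneg_left h hC

theorem N3b_r2 {a x u d0 d1 t e C K U E : ℝ} (ha : 0 ≤ a) (hC : 0 ≤ C) (hu : 0 ≤ u) (hK : 0 ≤ K)
    (hx : x ≤ C * (u * (d0 + d1 + t) + e)) (h : a * d0 + a * d1 + a * t ≤ K) (hU : u ≤ U)
    (he : a * e ≤ E) : a * x ≤ C * (U * K + E) :=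
  calc a * x ≤ a * (C * (u * (d0 + d1 + t) + e)) := mul_le_mul_of_nonneg_left hx ha
    _ = C * (u * (a * d0 + a * d1 + a * t) + a * e) := by ring
    _ ≤ C * (U * K + E) := mul_le_mul_of_nonneg_left (add_le_add
        ((mul_le_mul_of_nonneg_left h hu).trans (mul_le_mul_of_nonneg_right hU hK)) he) hC

theorem N3b_r3 {a x u d0 d1 t C K U : ℝ} (ha : 0 ≤ a) (hC : 0 ≤ C) (hu : 0 ≤ u) (hK : 0 ≤ K)
    (hx : x ≤ C * u * (d0 + d1 + t)) (h : a * d0 + a * d1 + a * t ≤ K) (hU : u ≤ U) :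
    a * x ≤ C * (U * K) :=
  calc a * x ≤ a * (C * u * (d0 + d1 + t)) := mul_le_mul_of_nonneg_left hx ha
    _ = C * (u * (a * d0 + a * d1 + a * t)) := by ring
    _ ≤ C * (U * K) := mul_le_mul_of_nonneg_left
        ((mul_le_mul_of_nonneg_left h hu).trans (mul_le_mul_of_nonneg_right hU hK)) hC

theorem Jets.HH_linear (T : Jets X) (B : Base) (J : ℕ) (τ : ℝ) (z' : X) :
    IsLinearMap ℝ (T.HH B J τ z') := by
  constructor
  · intro x y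
    have h1 : T.hC B J τ z' (x + y) = T.hC B J τ z' x + T.hC B J τ z' y := by
      unfold Jets.hC
      rw [← N3b_cC_add]
      simp only [map_add, smul_add, mul_add]
    have h2 : T.hP B J τ z' (x + y) = T.hP B J τ z' x + T.hP B J τ z' y := by
      unfold Jets.hP
      rw [← N3b_cP_add]
      simp only [map_add, smul_add, mul_add]
    unfold Jets.HH
    rw [h1, h2, map_add, map_add]
    abel
  · intro r x
    have h1 : T.hC B J τ z' (r • x) = r • T.hC B J τ z' x := by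
      unfold Jets.hC
      rw [← N3b_cC_smul]
      simp only [map_smul]
      rw [smul_comm (mm J : ℝ) r, mul_smul_comm r]
    have h2 : T.hP B J τ z' (r • x) = r • T.hP B J τ z' x := by
      unfold Jets.hP
      rw [← N3b_cP_smul]
      simp only [map_smul, mul_smul_comm]
      rw [smul_comm (mm J : ℝ) r]
    unfold Jets.HH
    rw [h1, h2, map_smul, map_smul, smul_add]
theorem Jets.HH_bounds (T : Jets X) (B : Base) : ∃ ρ > 0, ∃ C : ℝ, ∀ J,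
    (∀ τ ∈ Icc (0 : ℝ) 1, ∀ z1 : X, ‖z1‖ ≤ ρ → ‖(B.bv (wJ J)).dq (T.uu J τ z1)‖ ≤ 1 / 2) ∧
    (∀ z, ‖T.HH B J 0 0 z‖ ≤ C * T.nu J z) ∧
    ∀ τ ∈ Icc (0 : ℝ) 1, ∀ τ' ∈ Icc (0 : ℝ) 1, ∀ z1 z2 : X, ‖z1‖ ≤ ρ → ‖z2‖ ≤ ρ → ∀ z,
      ‖T.HH B J τ z1 z - T.HH B J τ' z2 z‖ ≤ C * (‖z1 - z2‖ + |τ - τ'| * ‖z2‖) * T.nu J z := by
  obtain ⟨M, hM⟩ := bv_bdd B
  obtain ⟨ρ0, hρ0, C0, hC0, hco⟩ := coef_bounds (M + 1)
  obtain ⟨C1, hC1, hin⟩ := T.input_bounds B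
  obtain ⟨CP, hCP⟩ := norm_GamP
  have hM0 : 0 ≤ M := (norm_nonneg _).trans (hM 0).2
  have hCP0 : 0 ≤ CP := by
    have h := (norm_nonneg _).trans (hCP 0)
    exact nonneg_of_mul_nonneg_left h (pow_pos (mm_pos 0) 3)
  have hmin : 0 < min ρ0 1 := lt_min hρ0 one_pos
  have hρ : 0 < min ρ0 1 / (C1 + 1) := div_pos hmin (by linarith)
  have hsm : ∀ z1 : X, ‖z1‖ ≤ min ρ0 1 / (C1 + 1) → C1 * ‖z1‖ ≤ min ρ0 1 := fun z1 h => by
    rw [le_div_iff₀ (by linarith)] at h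
    nlinarith [norm_nonneg z1]
  have hB : ∀ J, (B.bv (wJ J)).Bdd (M + 1) := fun J => by
    obtain ⟨h1, h2, h3, h4, h5, h6, h7, h8, h9, h10⟩ := (hM J).1
    have h : M ≤ M + 1 := by linarith
    exact ⟨h1.trans h, h2.trans h, h3.trans h, h4.trans h, h5.trans h, h6.trans h, h7.trans h,
      h8.trans h, h9.trans h, h10.trans h⟩
  have hsz : ∀ J, ∀ τ ∈ Icc (0 : ℝ) 1, ∀ z1 : X, ‖z1‖ ≤ min ρ0 1 / (C1 + 1) →
      ‖T.uu J τ z1‖ ≤ ρ0 ∧ ‖T.lh J τ z1‖ ≤ M + 1 ∧ ‖T.mh B J τ z1‖ ≤ M + 1 ∧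
      ∀ z : X, (mm J : ℝ) ^ 2 * ‖T.uu J τ z1 3 * (mm J : ℝ) • sinE (wJ J) (mm J) (T.JF J z)‖ ≤
        T.nu J z := fun J τ hτ z1 hz => by
    obtain ⟨h1, h2, h3, h4⟩ := (hin J).1 τ hτ τ hτ z1 0
    have e : ‖z1 - 0‖ + |τ - τ| * ‖(0 : X)‖ = ‖z1‖ := by simp
    have k1 := (hsm z1 hz).trans (min_le_left _ _)
    have k2 := (hsm z1 hz).trans (min_le_right _ _)
    rw [e, T.uu_zero, sub_zero] at h1
    rw [e, T.lh_zero, sub_zero] at h2
    rw [e, T.mh_zero] at h3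
    refine ⟨h1.trans k1, by linarith, ?_, fun z => ?_⟩
    · have h5 : ‖W.single (wJ J) 0 B.mu0‖ ≤ M := by
        rw [W.norm_single, (wJ J).w_zero, one_mul]; exact (hM J).2
      have h6 := norm_add_le (T.mh B J τ z1 - W.single (wJ J) 0 B.mu0) (W.single (wJ J) 0 B.mu0)
      rw [sub_add_cancel] at h6
      linarith
    · have h5 := h4 z
      rw [e, T.uu_zero, Pi.zero_apply, sub_zero] at h5
      exact h5.trans (mul_le_of_le_one_left (T.nu_nonneg J z) k2)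
  refine ⟨_, hρ, (C0 * (2 * C1 + 1) + CP * (C0 * (3 * C1))) +
    (C0 * (C1 * (2 * C1 + 1) + C1) + CP * (C0 * (3 * C1 * (3 * C1)))), fun J => ⟨?_, ?_, ?_⟩⟩
  · intro τ hτ z1 hz
    exact (hco (A1 J) (A0 J) (pi1 (wJ J)) (B.bv (wJ J)) _ _ (norm_pi1 _) (hB J)
      (hsz J τ hτ z1 hz).1 (hsz J τ hτ z1 hz).1).1
  · intro z
    have h0 : (0 : ℝ) ∈ Icc (0 : ℝ) 1 := ⟨le_rfl, zero_le_one⟩
    obtain ⟨s1, s2, s3, s4⟩ := hsz J 0 h0 0 (by rw [norm_zero]; exact hρ.le)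
    obtain ⟨-, c1, -, c3⟩ := hco (A1 J) (A0 J) (pi1 (wJ J)) (B.bv (wJ J)) _ _ (norm_pi1 _) (hB J)
      s1 s1
    obtain ⟨i1, i2, i3, i4, i5⟩ := (hin J).2 z
    have hν := T.nu_nonneg J z
    have hx : (mm J : ℝ) ^ 2 * ‖T.hC B J 0 0 z‖ ≤ C0 * ((2 * C1 + 1) * T.nu J z) :=
      N3b_r1 (by positivity) hC0 (c1 _ _ _) (by linarith [s4 z])
    have hy : (mm J : ℝ) ^ 3 * ‖T.hP B J 0 0 z‖ ≤ C0 * (3 * C1 * T.nu J z) :=
      N3b_r1 (by positivity) hC0 (c3 _ _ _ _ s2 s3 s2 s3 _ _ _).1 (by linarith)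
    refine (N3b_two (GamC J) (GamP J) (norm_GamC J) (hCP J) hCP0 _ _ hx hy).trans ?_
    have hp : 0 ≤ (C0 * (C1 * (2 * C1 + 1) + C1) + CP * (C0 * (3 * C1 * (3 * C1)))) *
      T.nu J z := by positivity
    linarith
  · intro τ hτ τ' hτ' z1 z2 hz1 hz2 z
    obtain ⟨s1, s2, s3, s4⟩ := hsz J τ hτ z1 hz1
    obtain ⟨t1, t2, t3, -⟩ := hsz J τ' hτ' z2 hz2
    obtain ⟨-, -, c2, c3⟩ := hco (A1 J) (A0 J) (pi1 (wJ J)) (B.bv (wJ J)) _ _ (norm_pi1 _) (hB J)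
      s1 t1
    obtain ⟨i1, i2, i3, i4, i5⟩ := (hin J).2 z
    obtain ⟨d1, d2, d3, d4⟩ := (hin J).1 τ hτ τ' hτ' z1 z2
    have d5 := d4 z
    rw [sub_mul] at d5
    have hν := T.nu_nonneg J z
    have hδ : 0 ≤ ‖z1 - z2‖ + |τ - τ'| * ‖z2‖ := by positivity
    generalize ‖z1 - z2‖ + |τ - τ'| * ‖z2‖ = δ at *
    have hx : (mm J : ℝ) ^ 2 * ‖T.hC B J τ z1 z - T.hC B J τ' z2 z‖ ≤
        C0 * (C1 * δ * ((2 * C1 + 1) * T.nu J z) + C1 * δ * T.nu J z) :=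
      N3b_r2 (by positivity) hC0 (norm_nonneg _) (by positivity) (c2 _ _ _ _)
        (by linarith [s4 z]) d1 d5
    have hy : (mm J : ℝ) ^ 3 * ‖T.hP B J τ z1 z - T.hP B J τ' z2 z‖ ≤
        C0 * (3 * C1 * δ * (3 * C1 * T.nu J z)) :=
      N3b_r3 (by positivity) hC0 (by positivity) (by positivity)
        (c3 _ _ _ _ s2 s3 t2 t3 _ _ _).2 (by linarith) (by linarith)
    have e : T.HH B J τ z1 z - T.HH B J τ' z2 z =
        GamC J (T.hC B J τ z1 z - T.hC B J τ' z2 z) +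
          GamP J (T.hP B J τ z1 z - T.hP B J τ' z2 z) := by
      unfold Jets.HH
      rw [map_sub, map_sub]
      abel
    rw [e]
    refine (N3b_two (GamC J) (GamP J) (norm_GamC J) (hCP J) hCP0 _ _ hx hy).trans ?_
    have hp : 0 ≤ (C0 * (2 * C1 + 1) + CP * (C0 * (3 * C1))) * δ * T.nu J z := by positivity
    linarith

end Pool.Agent.PS
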