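import Pool.Agent.P.MP_6c3c64_gt.N1
import Pool.Agent.P.MP_6c3c64_gt.K0

/-! Algebraic lemmas for row N5b. -/

set_option autoImplicit false

open Real BoundedContinuousFunction MeasureTheory Set Filter Topology
open scoped NNReal ENNReal

noncomputable section

namespace Pool.Agent.PS

theorem N5b_det3_frame (a ψ : ℝ) (p q r : ℝ × ℝ × ℝ) :
    det3 (frame a ψ p) (frame a ψ q) (frame a ψ r) = det3 p q r := by
  have h1 := rho_sq a
  have h2 := sin_sq_add_cos_sq ψ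
  have h0 := (rho_pos a).ne'
  have e : det3 (frame a ψ p) (frame a ψ q) (frame a ψ r) =
      det3 p q r * ((1 + a ^ 2) * (sin ψ ^ 2 + cos ψ ^ 2)) / rho a ^ 2 := by
    simp only [det3, frame]
    field_simp
    ring
  rw [e, h2, h1]
  field_simp

theorem N5b_frame_sub (a ψ : ℝ) (p q : ℝ × ℝ × ℝ) :
    frame a ψ p - frame a ψ q = frame a ψ (p - q) := by
  simp only [frame, Prod.mk_sub_mk, Prod.fst_sub, Prod.snd_sub, Prod.mk.injEq]
  refine ⟨?_, ?_, ?_⟩ <;> ring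

theorem N5b_det_cyl (t s n A b l r u x' d dx dp : ℝ) :
    det3 (n - t * A, b, s * A) (-(t * (l + u * x')), r + l * x', s * (l + u * x'))
      (d - t * dx, dp, s * dx) =
    r * (n * s * dx - s * A * d) - l * (n * s * dp - s * b * d)
      + x' * (l * (n * s * dx - s * A * d) - u * (n * s * dp - s * b * d)) := by
  simp only [det3]
  ring

theorem N5b_sq (a ψ n A b : ℝ) :
    (frame a ψ (n - tanh (xc a ψ) * A, b, sech (xc a ψ) * A)).1 ^ 2 +
      (frame a ψ (n - tanh (xc a ψ) * A, b, sech (xc a ψ) * A)).2.1 ^ 2 =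
    (n * sech (xc a ψ)) ^ 2 + ((A - tanh (xc a ψ) * n) * (-(a * sin ψ) / rho a)
      + b * (cosh (xc a ψ) / rho a)) ^ 2 := by
  have h1 := rho_sq a
  have h2 := sin_sq_add_cos_sq ψ
  have h0 := (rho_pos a).ne'
  have h3 := cosh_xc_sq a ψ
  have h4 := (cosh_pos (xc a ψ)).ne'
  rw [tanh_eq, sinh_xc, sech]
  simp only [frame]
  generalize cosh (xc a ψ) = c at *
  generalize rho a = ρ at *
  generalize sin ψ = S at *
  generalize cos ψ = C at *
  field_simp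
  grind

theorem N5b_wc (a ψ : ℝ) : wc a ψ =
    ((cosh (xc a ψ) / rho a : ℝ) + Complex.I * (-(a * sin ψ) / rho a : ℝ)) ^ 2 := by
  rw [wc]; push_cast; ring

theorem N5b_cs (a ψ : ℝ) : (cosh (xc a ψ) / rho a) ^ 2 + (-(a * sin ψ) / rho a) ^ 2 = 1 := by
  have h1 := rho_sq a
  have h2 := sin_sq_add_cos_sq ψ
  have h0 := (rho_pos a).ne'
  have h3 := cosh_xc_sq a ψ
  field_simp
  nlinarith

theorem N5b_inv {c s : ℝ} (h : c ^ 2 + s ^ 2 = 1) :
    (((c : ℂ) + Complex.I * s) ^ 2)⁻¹ = ((c : ℂ) - Complex.I * s) ^ 2 := by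
  refine inv_eq_of_mul_eq_one_right ?_
  have h' : (c : ℂ) ^ 2 + (s : ℂ) ^ 2 = 1 := by exact_mod_cast h
  have hI := Complex.I_sq
  rw [← mul_pow]
  have : ((c : ℂ) + Complex.I * s) * (c - Complex.I * s) = 1 := by
    linear_combination h' - (s : ℂ) ^ 2 * hI
  rw [this, one_pow]

theorem N5b_re {c s : ℝ} (h : c ^ 2 + s ^ 2 = 1) :
    (1 - (((c : ℂ) + Complex.I * s) ^ 2).re) / 2 = s ^ 2 := by
  simp [pow_two]
  nlinarith

section char

variable {A : Type} [NormedCommRing A] [NormedAlgebra ℝ A] (χ : A →L[ℝ] ℂ) (h1 : χ 1 = 1)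
  (hm : ∀ a b, χ (a * b) = χ a * χ b)
include h1 hm

theorem N5b_evQ (b : BV A) (u : Fin 5 → A) {N Nt β c s : ℝ} (hcs : c ^ 2 + s ^ 2 = 1)
    (hN : χ (b.NN u) = N) (hNt : χ (b.NT u) = Nt) (h2 : χ (u 2) = -(Complex.I * β))
    (hw : χ b.w = (c + Complex.I * s) ^ 2) (hwi : χ b.wi = (c - Complex.I * s) ^ 2) :
    χ (b.QQ u) = ((N ^ 2 + (Nt * s + β * c) ^ 2 : ℝ) : ℂ) := by
  have h' : (c : ℂ) ^ 2 + (s : ℂ) ^ 2 = 1 := by exact_mod_cast hcs
  have hI := Complex.I_sq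
  have htwo : χ 2 = 2 := by
    rw [show (2 : A) = 1 + 1 by norm_num, map_add, h1]; norm_num
  simp only [BV.QQ, pow_two, map_add, map_sub, map_smul, hm, hN, hNt, h2, hw, hwi, htwo,
    Complex.real_smul]
  push_cast
  grind

theorem N5b_evk [CompleteSpace A] [NormOneClass A] (hχ : ‖χ‖ ≤ 1) (b : BV A) (u : Fin 5 → A)
    {Q Q0 : ℝ} (hQ0 : 0 < Q0) (hQ : χ (b.QQ u) = Q) (hQ' : χ (b.QQ 0) = Q0)
    (hk : χ b.k0 = ((√Q0 ^ 3)⁻¹ : ℝ)) (hq : χ b.q0 = (Q0⁻¹ : ℝ)) (h : ‖b.dq u‖ ≤ 1 / 2) :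
    χ (b.kk u) = ((√Q ^ 3)⁻¹ : ℝ) := by
  have e : χ (b.dq u) = ((-((Q - Q0) * Q0⁻¹) : ℝ) : ℂ) := by
    rw [BV.dq, map_neg, hm, map_sub, hQ, hQ', hq]; push_cast; ring
  have hx : |-((Q - Q0) * Q0⁻¹)| < 1 := by
    have := χ.le_opNorm (b.dq u)
    rw [e, Complex.norm_real, Real.norm_eq_abs] at this
    nlinarith [norm_nonneg (b.dq u)]
  rw [BV.kk, hm, hk, map_binom χ h1 hm h e hx, ← Complex.ofReal_mul, ← mul_inv, ← mul_pow,
    ← sqrt_mul hQ0.le]
  congr 4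
  field_simp
  ring

end char

section ev

variable (ω : Wt) (φ x : ℝ) {w : ℂ} (hw : ‖w‖ = 1) (m : ℤ)
include hw

theorem N5b_ev1_cos (e : E1) :
    ev1 ω φ x w (cosE ω m e) = ((fstL e x * cos (m * φ) : ℝ) : ℂ) := by
  simp only [cosE, _root_.smul_apply, _root_.add_apply, map_smul, map_add, ev1_single ω φ x hw,
    ee_eq, Complex.real_smul, Int.cast_neg, neg_mul, cos_neg, sin_neg, zpow_zero]
  push_cast; ring
theorem N5b_ev1_sin (e : E1) :
    ev1 ω φ x w (sinE ω m e) = Complex.I * ((fstL e x * sin (m * φ) : ℝ) : ℂ) := by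
  simp only [sinE, _root_.smul_apply, _root_.sub_apply, map_smul, map_sub, ev1_single ω φ x hw,
    ee_eq, Complex.real_smul, Int.cast_neg, neg_mul, cos_neg, sin_neg, zpow_zero]
  push_cast; ring
theorem N5b_ev0_cos (e : E0) :
    ev0 ω φ x w (cosE ω m e) = ((e x * cos (m * φ) : ℝ) : ℂ) := by
  simp only [cosE, _root_.smul_apply, _root_.add_apply, map_smul, map_add, ev0_single ω φ x hw,
    ee_eq, Complex.real_smul, Int.cast_neg, neg_mul, cos_neg, sin_neg, zpow_zero]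
  push_cast; ring
theorem N5b_ev0_sin (e : E0) :
    ev0 ω φ x w (sinE ω m e) = Complex.I * ((e x * sin (m * φ) : ℝ) : ℂ) := by
  simp only [sinE, _root_.smul_apply, _root_.sub_apply, map_smul, map_sub, ev0_single ω φ x hw,
    ee_eq, Complex.real_smul, Int.cast_neg, neg_mul, cos_neg, sin_neg, zpow_zero]
  push_cast; ring

theorem N5b_ev1_const (e : E1) : ev1 ω φ x w (W.single ω 0 e) = (fstL e x : ℂ) := by
  rw [ev1_single ω φ x hw]; simp [ee_zero]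
theorem N5b_ev0_const (e : E0) : ev0 ω φ x w (W.single ω 0 e) = (e x : ℂ) := by
  rw [ev0_single ω φ x hw]; simp [ee_zero]

end ev

theorem N5b_wJ (J : ℕ) (n : ℤ) : (wJ J).w (0, n) = (27 / 5 : ℝ) ^ n.natAbs := by
  simp [wJ, wt]

theorem N5b_ev_series (J : ℕ) (φ x : ℝ) {w : ℂ} (hw : ‖w‖ = 1) (k : ℤ → E1)
    (hs : Summable fun n : ℤ => (27 / 5 : ℝ) ^ n.natAbs * ‖k n‖) {S : ℂ}
    (h : HasSum (fun n : ℤ => (fstL (k n) x : ℂ) * w ^ n) S) :
    ev1 (wJ J) φ x w (∑' n : ℤ, W.single (wJ J) (0, n) (k n)) = S := by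
  have h1 : Summable fun n : ℤ => W.single (wJ J) (0, n) (k n) :=
    W.summable_single (fun n : ℤ => ((0 : ℤ), n)) k (by simpa only [N5b_wJ] using hs)
  have h2 := h1.hasSum.mapL (ev1 (wJ J) φ x w)
  simp only [ev1_single _ φ x hw, ee_zero, mul_one] at h2
  exact h2.unique h

theorem N5b_tsum (J : ℕ) (τ : ℝ) (f : ℕ → ℝ) (hf : ∀ j, sw J τ j = 0 → f j = 0) :
    ∑' j, f j = ∑ j ∈ Finset.range (J + 1), f j :=
  tsum_eq_sum fun j hj => hf j (by
    rw [Finset.mem_range] at hj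
    simp only [sw]
    rw [if_neg (by omega), if_neg (by omega)])

end Pool.Agent.PS
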