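import Pool.Agent.P.MP_6c3c64_gt.Defs

/-! Row O0. The maps `GamC`, `GamP`, `II`, `Out` on monomials. Each is a `W.lift`; prove the
bound `‖T k‖ ≤ C * w k` and use `W.lift_single`, `W.norm_lift`. Weights:
`1 + |m| ≤ N (1 + |m| / N)` for `N ≥ 1`; `norm_prim`;
`(|m| + |n|) (107 / 20) ^ |n| ≤ C (1 + |m|) (27 / 5) ^ |n|`. `jOf (mm j) = j`.
-/

set_option autoImplicit false

open Real BoundedContinuousFunction MeasureTheory Set Filter Topology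
open scoped NNReal ENNReal

noncomputable section

namespace Pool.Agent.PS

theorem O0_wJ (J : ℕ) (k : ℤ × ℤ) :
    (wJ J).w k = (1 + |(k.1 : ℝ)| / mm J) ^ 3 * (27 / 5) ^ k.2.natAbs := rfl
theorem O0_wZ (k : ℤ × ℤ) :
    wZ.w k = (1 + |(k.1 : ℝ)|) ^ 2 * (107 / 20) ^ k.2.natAbs := by
  change (1 + |(k.1 : ℝ)| / 1) ^ 2 * (107 / 20) ^ k.2.natAbs = _
  rw [div_one]

theorem O0_base (J : ℕ) (x : ℝ) : 1 + x ≤ mm J * (1 + x / mm J) := by
  have h := mm_pos J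
  have h1 := one_le_mm J
  rw [mul_add, mul_one, mul_div_cancel₀ _ h.ne']
  linarith

theorem O0_geom (n : ℕ) : (1 + (n : ℝ)) * (107 / 20) ^ n ≤ 107 * (27 / 5) ^ n := by
  have h : 1 + (n : ℝ) * (1 / 107) ≤ (1 + 1 / 107) ^ n := one_add_mul_le_pow (by norm_num) n
  have e : (27 / 5 : ℝ) ^ n = (1 + 1 / 107) ^ n * (107 / 20) ^ n := by
    rw [← mul_pow]; norm_num
  rw [e, ← mul_assoc]
  refine mul_le_mul_of_nonneg_right ?_ (by positivity)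
  have : (0 : ℝ) ≤ n := n.cast_nonneg
  linarith

theorem O0_GamC_bound (J : ℕ) (k : ℤ × ℤ) :
    ‖(W.single wZ k : E1 →L[ℝ] ZZ)‖ ≤ (mm J : ℝ) ^ 2 * (wJ J).w k := by
  refine (W.opNorm_single k).trans ?_
  rw [O0_wZ, O0_wJ, ← mul_assoc]
  have hm := mm_pos J
  have h0 : 0 ≤ |(k.1 : ℝ)| := abs_nonneg _
  have h1 : 1 ≤ 1 + |(k.1 : ℝ)| / mm J := le_add_of_nonneg_right (by positivity)
  refine mul_le_mul ?_ (pow_le_pow_left₀ (by norm_num) (by norm_num) _) (by positivity)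
    (by positivity)
  calc (1 + |(k.1 : ℝ)|) ^ 2 ≤ (mm J * (1 + |(k.1 : ℝ)| / mm J)) ^ 2 :=
        pow_le_pow_left₀ (by positivity) (O0_base J _) 2
    _ = (mm J : ℝ) ^ 2 * (1 + |(k.1 : ℝ)| / mm J) ^ 2 := mul_pow _ _ _
    _ ≤ _ := mul_le_mul_of_nonneg_left (pow_le_pow_right₀ h1 (by norm_num)) (by positivity)

theorem O0_GamP_bound (J : ℕ) (k : ℤ × ℤ) :
    ‖(W.single wZ k : E1 →L[ℝ] ZZ) ∘L prim k.1 k.2‖ ≤
      (107000 * (mm J : ℝ) ^ 3) * (wJ J).w k := by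
  have hm := mm_pos J
  have h0 : 0 ≤ |(k.1 : ℝ)| := abs_nonneg _
  have hn : |(k.2 : ℝ)| = (k.2.natAbs : ℝ) := by
    rw [Nat.cast_natAbs, Int.cast_abs]
  have hn0 : (0 : ℝ) ≤ k.2.natAbs := Nat.cast_nonneg _
  have h1 : ‖(W.single wZ k : E1 →L[ℝ] ZZ) ∘L prim k.1 k.2‖ ≤
      wZ.w k * (1000 * (|(k.1 : ℝ)| + |(k.2 : ℝ)|)) :=
    (ContinuousLinearMap.opNorm_comp_le _ _).trans
      (mul_le_mul (W.opNorm_single k) (norm_prim _ _) (norm_nonneg _) (wZ.nonneg k))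
  refine h1.trans ?_
  rw [O0_wZ, O0_wJ, hn]
  have h2 : |(k.1 : ℝ)| + k.2.natAbs ≤ (1 + |(k.1 : ℝ)|) * (1 + k.2.natAbs) := by
    nlinarith [mul_nonneg h0 hn0]
  have h3 : (1 + |(k.1 : ℝ)|) ^ 3 ≤ (mm J : ℝ) ^ 3 * (1 + |(k.1 : ℝ)| / mm J) ^ 3 := by
    rw [← mul_pow]
    exact pow_le_pow_left₀ (by positivity) (O0_base J _) 3
  calc (1 + |(k.1 : ℝ)|) ^ 2 * (107 / 20) ^ k.2.natAbs * (1000 * (|(k.1 : ℝ)| + k.2.natAbs))
      ≤ (1 + |(k.1 : ℝ)|) ^ 2 * (107 / 20) ^ k.2.natAbs *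
          (1000 * ((1 + |(k.1 : ℝ)|) * (1 + k.2.natAbs))) := by gcongr
    _ = 1000 * (1 + |(k.1 : ℝ)|) ^ 3 * ((1 + (k.2.natAbs : ℝ)) * (107 / 20) ^ k.2.natAbs) := by
        ring
    _ ≤ 1000 * ((mm J : ℝ) ^ 3 * (1 + |(k.1 : ℝ)| / mm J) ^ 3) * (107 * (27 / 5) ^ k.2.natAbs) :=
        mul_le_mul (mul_le_mul_of_nonneg_left h3 (by norm_num)) (O0_geom _) (by positivity)
          (by positivity)
    _ = _ := by ring

theorem jOf_mm (j : ℕ) : jOf (mm j) = j := by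
  unfold jOf mm
  omega
theorem GamC_single (J : ℕ) (k : ℤ × ℤ) (e : E1) :
    GamC J (W.single (wJ J) k e) = W.single wZ k e :=
  W.lift_single (O0_GamC_bound J) k e
theorem GamP_single (J : ℕ) (k : ℤ × ℤ) (e : E0) :
    GamP J (W.single (wJ J) k e) = W.single wZ k (prim k.1 k.2 e) :=
  W.lift_single (O0_GamP_bound J) k e
theorem norm_GamC (J : ℕ) : ‖GamC J‖ ≤ (mm J : ℝ) ^ 2 := W.norm_lift (O0_GamC_bound J)
theorem norm_GamP : ∃ C : ℝ, ∀ J, ‖GamP J‖ ≤ C * (mm J : ℝ) ^ 3 :=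
  ⟨107000, fun J => W.norm_lift (O0_GamP_bound J)⟩

theorem O0_II_bound (a α : ℝ) (k : ℤ × ℤ) :
    ‖ee k.1 α • (ImnL k.1 k.2 a ∘L fstL)‖ ≤ (2 * π) * wZ.w k := by
  have h2 := two_pi_pos
  refine ContinuousLinearMap.opNorm_le_bound _ (mul_nonneg h2.le (wZ.nonneg k)) fun e => ?_
  rw [_root_.smul_apply, norm_smul, norm_ee, one_mul, ContinuousLinearMap.comp_apply]
  refine ((ImnL k.1 k.2 a).le_opNorm _).trans ?_
  exact mul_le_mul ((norm_ImnL _ _ _).trans (le_mul_of_one_le_right h2.le (wZ.one_le k)))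
    (norm_fstL_le e) (norm_nonneg _) (mul_nonneg h2.le (wZ.nonneg k))

theorem II_single (a α : ℝ) (k : ℤ × ℤ) (e : E1) :
    II a α (W.single wZ k e) = ee k.1 α * Imn k.1 k.2 a (fstL e) := by
  rw [II, W.lift_single (O0_II_bound a α)]
  rfl

theorem norm_coutK (Z : ChainData) (j : ℕ) (n : ℤ) :
    ‖coutK Z j n‖ ≤ Z.C * (107 / 20) ^ n.natAbs := by
  have h : ‖(if n < 0 then mir else 1 : E1 →L[ℝ] E1)‖ ≤ 1 := by
    split_ifs
    · exact norm_mir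
    · exact ContinuousLinearMap.norm_id_le
  refine (ContinuousLinearMap.opNorm_comp_le _ _).trans ?_
  exact (mul_le_of_le_one_right (norm_nonneg _) h).trans (Z.norm_ch1 j n.natAbs)

theorem O0_C_nonneg (Z : ChainData) : 0 ≤ Z.C := by
  have h := (norm_nonneg _).trans (Z.norm_ch1 0 0)
  simpa using h

theorem O0_norm_outK (Z : ChainData) (j : ℕ) (n : ℤ) (e : E1) :
    ‖outK Z j n e‖ ≤ (mm j : ℝ) ^ 2 * (2 * (Z.C * (107 / 20) ^ n.natAbs * ‖e‖)) := by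
  have h1 : ‖sndL (coutK Z j n e)‖ ≤ Z.C * (107 / 20) ^ n.natAbs * ‖e‖ :=
    (norm_sndL_le _).trans (((coutK Z j n).le_opNorm e).trans
      (mul_le_mul_of_nonneg_right (norm_coutK Z j n) (norm_nonneg _)))
  have h2 : ∀ c : E0, ‖res ((1 + refl : E0 →L[ℝ] E0) c)‖ ≤ 2 * ‖c‖ := fun c => by
    have h3 : ‖refl c‖ ≤ ‖c‖ :=
      (refl.le_opNorm c).trans (mul_le_of_le_one_left (norm_nonneg _) norm_refl)
    have h4 : ‖(1 + refl : E0 →L[ℝ] E0) c‖ ≤ 2 * ‖c‖ := by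
      change ‖c + refl c‖ ≤ _
      linarith [norm_add_le c (refl c)]
    exact ((res.le_opNorm _).trans (mul_le_of_le_one_left (norm_nonneg _) norm_res)).trans h4
  change ‖((mm j : ℝ) ^ 2) • res ((1 + refl : E0 →L[ℝ] E0) (sndL (coutK Z j n e)))‖ ≤ _
  rw [norm_smul, Real.norm_of_nonneg (by positivity)]
  exact mul_le_mul_of_nonneg_left ((h2 _).trans (by linarith)) (by positivity)

theorem O0_Out_bound (Z : ChainData) (k : ℤ × ℤ) :
    ‖(if k.1 = mm (jOf k.1) then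
      lp.singleContinuousLinearMap ℝ (fun _ : ℕ => Y0) 1 (jOf k.1) ∘L outK Z (jOf k.1) k.2
      else 0 : E1 →L[ℝ] YY)‖ ≤ (2 * Z.C) * wZ.w k := by
  have hC := O0_C_nonneg Z
  have h0 : 0 ≤ 2 * Z.C * wZ.w k := mul_nonneg (by positivity) (wZ.nonneg k)
  split_ifs with h
  · refine ContinuousLinearMap.opNorm_le_bound _ h0 fun e => ?_
    change ‖lp.single (E := fun _ : ℕ => Y0) 1 (jOf k.1) (outK Z (jOf k.1) k.2 e)‖ ≤ _
    rw [lp.norm_single (by norm_num)]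
    refine (O0_norm_outK Z _ _ e).trans ?_
    rw [O0_wZ]
    have h1 : (mm (jOf k.1) : ℝ) = |(k.1 : ℝ)| := by
      have h2 : (k.1 : ℝ) = (mm (jOf k.1) : ℝ) := by exact_mod_cast h
      rw [h2, abs_of_pos (mm_pos _), ← h2]
    rw [h1]
    have h3 : |(k.1 : ℝ)| ^ 2 ≤ (1 + |(k.1 : ℝ)|) ^ 2 :=
      pow_le_pow_left₀ (abs_nonneg _) (by linarith) 2
    calc _ ≤ (1 + |(k.1 : ℝ)|) ^ 2 * (2 * (Z.C * (107 / 20) ^ k.2.natAbs * ‖e‖)) :=
          mul_le_mul_of_nonneg_right h3 (by positivity)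
      _ = _ := by ring
  · exact ContinuousLinearMap.opNorm_le_bound _ h0 fun e => by
      rw [_root_.zero_apply, norm_zero]; positivity

theorem Out_single (Z : ChainData) (k : ℤ × ℤ) (e : E1) (j : ℕ) :
    Out Z (W.single wZ k e) j = if k.1 = mm j then outK Z j k.2 e else 0 := by
  rw [Out, W.lift_single (O0_Out_bound Z)]
  by_cases h : k.1 = mm j
  · have hj : jOf k.1 = j := by rw [h, jOf_mm]
    rw [if_pos h, hj, if_pos h]
    exact lp.single_apply_self (E := fun _ : ℕ => Y0) 1 j _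
  · rw [if_neg h]
    split_ifs with h'
    · have hj : j ≠ jOf k.1 := fun hj => h (by rw [hj]; exact h')
      exact lp.single_apply_ne (E := fun _ : ℕ => Y0) 1 (jOf k.1) _ hj
    · rfl

theorem O0_mm_le {J j : ℕ} (h : j ≤ J) : (mm j : ℝ) ≤ mm J := by
  have : mm j ≤ mm J := by unfold mm; omega
  exact_mod_cast this

theorem O0_w_le (J : ℕ) (m : ℤ) (c : ℝ) (h : |(m : ℝ)| ≤ c * mm J) :
    (wJ J).w (m, 0) ≤ (1 + c) ^ 3 := by
  rw [O0_wJ]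
  have hm := mm_pos J
  simp only [Int.natAbs_zero, pow_zero, mul_one]
  refine pow_le_pow_left₀ (by positivity) ?_ 3
  have := (div_le_iff₀ hm).2 h
  linarith

theorem O0_single_le {E : Type} [NormedCommRing E] [NormedAlgebra ℝ E] (J : ℕ) (m : ℤ) (c : ℝ)
    (h : |(m : ℝ)| ≤ c * mm J) (e : E) : ‖W.single (wJ J) (m, 0) e‖ ≤ (1 + c) ^ 3 * ‖e‖ := by
  rw [W.norm_single]
  exact mul_le_mul_of_nonneg_right (O0_w_le J m c h) (norm_nonneg _)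

theorem O0_abs_mm {J j : ℕ} (h : j ≤ J) : |(((mm j : ℕ) : ℤ) : ℝ)| ≤ 1 * mm J := by
  rw [Int.cast_natCast, abs_of_pos (mm_pos j), one_mul]; exact O0_mm_le h

theorem O0_abs_neg_mm {J j : ℕ} (h : j ≤ J) : |((-((mm j : ℕ) : ℤ) : ℤ) : ℝ)| ≤ 1 * mm J := by
  rw [Int.cast_neg, abs_neg]; exact O0_abs_mm h

theorem norm_cosE {E : Type} [NormedCommRing E] [NormedAlgebra ℝ E] (J j : ℕ) (h : j ≤ J)
    (e : E) : ‖cosE (wJ J) (mm j) e‖ ≤ 8 * ‖e‖ := by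
  change ‖(1 / 2 : ℝ) • (W.single (wJ J) (mm j, 0) e + W.single (wJ J) (-(mm j : ℤ), 0) e)‖ ≤ _
  have h1 := O0_single_le J _ 1 (O0_abs_mm h) e
  have h2 := O0_single_le J _ 1 (O0_abs_neg_mm h) e
  have h3 := norm_add_le (W.single (wJ J) (mm j, 0) e) (W.single (wJ J) (-(mm j : ℤ), 0) e)
  rw [norm_smul, Real.norm_of_nonneg (by norm_num)]
  norm_num at h1 h2 ⊢
  linarith

theorem norm_sinE {E : Type} [NormedCommRing E] [NormedAlgebra ℝ E] (J j : ℕ) (h : j ≤ J)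
    (e : E) : ‖sinE (wJ J) (mm j) e‖ ≤ 8 * ‖e‖ := by
  change ‖(1 / 2 : ℝ) • (W.single (wJ J) (mm j, 0) e - W.single (wJ J) (-(mm j : ℤ), 0) e)‖ ≤ _
  have h1 := O0_single_le J _ 1 (O0_abs_mm h) e
  have h2 := O0_single_le J _ 1 (O0_abs_neg_mm h) e
  have h3 := norm_sub_le (W.single (wJ J) (mm j, 0) e) (W.single (wJ J) (-(mm j : ℤ), 0) e)
  rw [norm_smul, Real.norm_of_nonneg (by norm_num)]
  norm_num at h1 h2 ⊢
  linarith

theorem O0_prod_le {E : Type} [NormedCommRing E] [NormedAlgebra ℝ E] (J : ℕ) (m m' : ℤ)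
    (h : |(m : ℝ)| ≤ 1 * mm J) (h' : |(m' : ℝ)| ≤ 1 * mm J) (e e' : E) :
    ‖W.single (wJ J) (m, 0) e * W.single (wJ J) (m', 0) e'‖ ≤ 27 * ‖e * e'‖ := by
  rw [W.single_mul_single, Prod.mk_add_mk, add_zero]
  have h2 : |((m + m' : ℤ) : ℝ)| ≤ 2 * mm J := by
    rw [Int.cast_add]
    linarith [abs_add_le (m : ℝ) m']
  have := O0_single_le J _ 2 h2 (e * e')
  norm_num at this ⊢
  exact this

theorem norm_sinE_mul {E : Type} [NormedCommRing E] [NormedAlgebra ℝ E] (J i j : ℕ) (hi : i ≤ J)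
    (hj : j ≤ J) (e e' : E) :
    ‖sinE (wJ J) (mm i) e * sinE (wJ J) (mm j) e'‖ ≤ 64 * ‖e * e'‖ := by
  change ‖((1 / 2 : ℝ) • (W.single (wJ J) (mm i, 0) e - W.single (wJ J) (-(mm i : ℤ), 0) e)) *
    ((1 / 2 : ℝ) • (W.single (wJ J) (mm j, 0) e' - W.single (wJ J) (-(mm j : ℤ), 0) e'))‖ ≤ _
  have h1 := O0_prod_le J _ _ (O0_abs_mm hi) (O0_abs_mm hj) e e'
  have h2 := O0_prod_le J _ _ (O0_abs_mm hi) (O0_abs_neg_mm hj) e e'
  have h3 := O0_prod_le J _ _ (O0_abs_neg_mm hi) (O0_abs_mm hj) e e'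
  have h4 := O0_prod_le J _ _ (O0_abs_neg_mm hi) (O0_abs_neg_mm hj) e e'
  generalize W.single (wJ J) (mm i, 0) e = a at *
  generalize W.single (wJ J) (-(mm i : ℤ), 0) e = b at *
  generalize W.single (wJ J) (mm j, 0) e' = c at *
  generalize W.single (wJ J) (-(mm j : ℤ), 0) e' = d at *
  rw [smul_mul_smul_comm, norm_smul, Real.norm_of_nonneg (by norm_num)]
  have e1 : (a - b) * (c - d) = (a * c - a * d) - (b * c - b * d) := by ring
  have h5 := norm_sub_le (a * c - a * d) (b * c - b * d)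
  have h6 := norm_sub_le (a * c) (a * d)
  have h7 := norm_sub_le (b * c) (b * d)
  have h8 := norm_nonneg (e * e')
  rw [e1]
  linarith

end Pool.Agent.PS
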