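import Mathlib

/-! Polynomial functions on the unit sphere of R^3: the algebra, its L2 inner product,
the action of O(3), rotation derivations, the degree filtration and the harmonic projections. -/

set_option autoImplicit false

namespace Pool.Agent.MMO

open MeasureTheory
open scoped RealInnerProductSpace

noncomputable section

abbrev E3 : Type := EuclideanSpace ℝ (Fin 3)
abbrev Sph : Type := Metric.sphere (0 : E3) 1
abbrev O3 : Type := E3 ≃ₗᵢ[ℝ] E3

/-- surface measure of the unit sphere -/
def sig : Measure Sph := (volume : Measure E3).toSphere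

instance : IsFiniteMeasure sig := by unfold sig; infer_instance
instance : sig.IsOpenPosMeasure := by unfold sig; infer_instance

/-- coordinate functions on the sphere -/
def crd (i : Fin 3) : C(Sph, ℝ) := ⟨fun x => (x : E3) i, by fun_prop⟩

def evP : MvPolynomial (Fin 3) ℝ →ₐ[ℝ] C(Sph, ℝ) := MvPolynomial.aeval crd

/-- polynomial functions on the sphere -/
def Pol : Type := evP.range

instance : CommRing Pol := inferInstanceAs (CommRing evP.range)
instance : Algebra ℝ Pol := inferInstanceAs (Algebra ℝ evP.range)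

def toC : Pol →ₐ[ℝ] C(Sph, ℝ) := evP.range.val
def mkP : MvPolynomial (Fin 3) ℝ →ₐ[ℝ] Pol := evP.rangeRestrict

theorem toC_injective : Function.Injective toC := Subtype.val_injective
theorem mkP_surjective : Function.Surjective mkP := evP.rangeRestrict_surjective
theorem toC_mkP (P : MvPolynomial (Fin 3) ℝ) : toC (mkP P) = evP P := rfl

theorem toC_mkP_apply (P : MvPolynomial (Fin 3) ℝ) (x : Sph) :
    toC (mkP P) x = MvPolynomial.eval (fun i => (x : E3) i) P := by
  rw [toC_mkP]
  induction P using MvPolynomial.induction_on with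
  | C a => simp [evP]
  | add p q hp hq => simp [hp, hq]
  | mul_X p i hp => rw [map_mul, ContinuousMap.mul_apply, hp]; simp [evP, crd]

/-- the coordinate `x_i` as a polynomial function -/
def X (i : Fin 3) : Pol := mkP (MvPolynomial.X i)

@[simp] theorem toC_X (i : Fin 3) (x : Sph) : toC (X i) x = (x : E3) i := by
  simp [X, toC_mkP_apply]

theorem Pol.ext' {p q : Pol} (h : ∀ x, toC p x = toC q x) : p = q :=
  toC_injective (ContinuousMap.ext h)

theorem Pol.induction {M : Pol → Prop} (p : Pol) (hC : ∀ a : ℝ, M (algebraMap ℝ Pol a))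
    (hadd : ∀ p q, M p → M q → M (p + q)) (hX : ∀ p i, M p → M (p * X i)) : M p := by
  obtain ⟨P, rfl⟩ := mkP_surjective p
  induction P using MvPolynomial.induction_on with
  | C a => simpa [← MvPolynomial.algebraMap_eq] using hC a
  | add p q hp hq => simpa using hadd _ _ hp hq
  | mul_X p i hp => simpa [X] using hX _ i hp

theorem adjoin_X : Algebra.adjoin ℝ (Set.range X) = ⊤ := by
  rw [eq_top_iff]
  intro p _
  induction p using Pol.induction with
  | hC a => exact Subalgebra.algebraMap_mem _ a
  | hadd p q hp hq => exact add_mem (hp trivial) (hq trivial)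
  | hX p i hp => exact mul_mem (hp trivial) (Algebra.subset_adjoin ⟨i, rfl⟩)

theorem der_ext {D₁ D₂ : Derivation ℝ Pol Pol} (h : ∀ i, D₁ (X i) = D₂ (X i)) : D₁ = D₂ :=
  Derivation.ext_of_adjoin_eq_top _ adjoin_X (by rintro _ ⟨i, rfl⟩; exact h i)

theorem sph_sq (x : Sph) : (x : E3) 0 ^ 2 + (x : E3) 1 ^ 2 + (x : E3) 2 ^ 2 = 1 := by
  have h : ‖(x : E3)‖ = 1 := by simp
  have h2 := EuclideanSpace.norm_sq_eq (x : E3)
  simp only [h, Fin.sum_univ_three, Real.norm_eq_abs, sq_abs] at h2
  linarith

theorem X_sq : X 0 * X 0 + X 1 * X 1 + X 2 * X 2 = 1 := by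
  apply Pol.ext'
  intro x
  have := sph_sq x
  simp only [map_add, map_mul, map_one, ContinuousMap.add_apply, ContinuousMap.mul_apply, toC_X,
    ContinuousMap.one_apply]
  linarith

/-! The L2 inner product. -/

theorem integrable_cont (f : C(Sph, ℝ)) : Integrable f sig :=
  f.continuous.integrable_of_hasCompactSupport (HasCompactSupport.of_compactSpace f)

@[reducible] def polCore : InnerProductSpace.Core ℝ Pol where
  inner p q := ∫ x, toC p x * toC q x ∂sig
  conj_inner_symm p q := by simp [mul_comm]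
  re_inner_nonneg p := by
    simp only [RCLike.re_to_real]
    exact integral_nonneg fun x => mul_self_nonneg _
  add_left p q r := by
    simp only [map_add, ContinuousMap.add_apply, add_mul]
    exact integral_add (integrable_cont (toC p * toC r)) (integrable_cont (toC q * toC r))
  smul_left p q a := by
    simp only [map_smul, ContinuousMap.smul_apply, smul_eq_mul, mul_assoc, conj_trivial]
    exact integral_const_mul _ _
  definite p h := by
    have h1 : (fun x => toC p x * toC p x) = 0 := by
      have hc : Continuous fun x => toC p x * toC p x := by fun_prop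
      have := (integral_eq_zero_iff_of_nonneg (fun x => mul_self_nonneg (toC p x))
        (integrable_cont (toC p * toC p))).1 h
      exact (hc.ae_eq_iff_eq sig continuous_const).1 this
    apply Pol.ext'
    intro x
    simpa using congrFun h1 x

instance : NormedAddCommGroup Pol := @InnerProductSpace.Core.toNormedAddCommGroup ℝ Pol _ _ _ polCore
instance : InnerProductSpace ℝ Pol := InnerProductSpace.ofCore polCore.toCore

theorem inner_pol (p q : Pol) : ⟪p, q⟫ = ∫ x, toC p x * toC q x ∂sig := rfl

/-! The action of O(3). -/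

def sphMap (g : O3) : C(Sph, Sph) :=
  ⟨fun x => ⟨g x, by simp⟩, by fun_prop⟩

@[simp] theorem sphMap_coe (g : O3) (x : Sph) : (sphMap g x : E3) = g x := rfl

theorem apply_eq_sum (g : O3) (x : E3) (i : Fin 3) :
    g x i = ∑ j, g (EuclideanSpace.single j 1) i * x j := by
  have hx : x = ∑ j, x j • EuclideanSpace.single j (1 : ℝ) := by
    ext k; simp [Finset.sum_apply, Pi.single_apply]
  conv_lhs => rw [hx]
  simp [Finset.sum_apply, mul_comm]

theorem comp_mem (g : O3) (p : Pol) : (toC p).comp (sphMap g) ∈ evP.range := by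
  induction p using Pol.induction with
  | hC a => exact Subalgebra.algebraMap_mem _ a
  | hadd p q hp hq => simpa using add_mem hp hq
  | hX p i hp =>
    have : (toC (X i)).comp (sphMap g) ∈ evP.range := by
      have h : (toC (X i)).comp (sphMap g)
          = toC (∑ j, g (EuclideanSpace.single j 1) i • X j) := by
        ext x
        simp [apply_eq_sum g x i]
      rw [h]
      exact (∑ j, g (EuclideanSpace.single j 1) i • X j).2
    simpa using mul_mem hp this

/-- `act g p = p ∘ g` -/
def act (g : O3) : Pol →ₐ[ℝ] Pol :=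
  ((ContinuousMap.compRightAlgHom ℝ ℝ (sphMap g)).comp toC).codRestrict evP.range (comp_mem g)

@[simp] theorem toC_act (g : O3) (p : Pol) (x : Sph) : toC (act g p) x = toC p (sphMap g x) := rfl

/-- rotation by the angle `t` about the axis `a`, as a linear map -/
def rotL (a : Fin 3) (t : ℝ) : E3 →ₗ[ℝ] E3 where
  toFun x := WithLp.toLp 2 fun k =>
    if k = a + 1 then Real.cos t * x (a + 1) - Real.sin t * x (a + 2)
    else if k = a + 2 then Real.sin t * x (a + 1) + Real.cos t * x (a + 2) else x k
  map_add' x y := by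
    ext k
    simp only [PiLp.add_apply]
    split_ifs <;> ring
  map_smul' c x := by
    ext k
    simp only [PiLp.smul_apply, smul_eq_mul, RingHom.id_apply]
    split_ifs <;> ring

theorem rotL_norm (a : Fin 3) (t : ℝ) (x : E3) : ‖rotL a t x‖ = ‖x‖ := by
  rw [EuclideanSpace.norm_eq, EuclideanSpace.norm_eq]
  congr 1
  have := Real.cos_sq_add_sin_sq t
  fin_cases a <;>
    simp [rotL, Fin.sum_univ_three, Real.norm_eq_abs, sq_abs]
  · linear_combination (x 1 ^ 2 + x 2 ^ 2) * this
  · linear_combination (x 2 ^ 2 + x 0 ^ 2) * this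
  · linear_combination (x 0 ^ 2 + x 1 ^ 2) * this

def rot (a : Fin 3) (t : ℝ) : O3 :=
  LinearIsometry.toLinearIsometryEquiv ⟨rotL a t, rotL_norm a t⟩ rfl

theorem rot_apply (a : Fin 3) (t : ℝ) (x : E3) (k : Fin 3) : rot a t x k =
    if k = a + 1 then Real.cos t * x (a + 1) - Real.sin t * x (a + 2)
    else if k = a + 2 then Real.sin t * x (a + 1) + Real.cos t * x (a + 2) else x k := rfl

/-- the reflection changing the sign of the coordinate `a` -/
def reflL (a : Fin 3) : E3 →ₗ[ℝ] E3 where
  toFun x := WithLp.toLp 2 fun k => if k = a then -x k else x k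
  map_add' x y := by
    ext k
    simp only [PiLp.add_apply]
    split_ifs <;> ring
  map_smul' c x := by
    ext k
    simp only [PiLp.smul_apply, smul_eq_mul, RingHom.id_apply]
    split_ifs <;> ring

theorem reflL_norm (a : Fin 3) (x : E3) : ‖reflL a x‖ = ‖x‖ := by
  rw [EuclideanSpace.norm_eq, EuclideanSpace.norm_eq]
  congr 1
  refine Finset.sum_congr rfl fun k _ => ?_
  simp only [reflL, LinearMap.coe_mk, AddHom.coe_mk]
  split_ifs <;> simp

def refl (a : Fin 3) : O3 :=
  LinearIsometry.toLinearIsometryEquiv ⟨reflL a, reflL_norm a⟩ rfl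

theorem refl_apply (a : Fin 3) (x : E3) (k : Fin 3) :
    refl a x k = if k = a then -x k else x k := rfl

/-- the antipodal map -/
def ant : O3 := LinearIsometryEquiv.neg ℝ

theorem ant_apply (x : E3) : ant x = -x := rfl

/-! Rotation derivations. -/

def Lmv (a : Fin 3) : Derivation ℝ (MvPolynomial (Fin 3) ℝ) (MvPolynomial (Fin 3) ℝ) :=
  MvPolynomial.mkDerivation ℝ fun k =>
    if k = a + 1 then -MvPolynomial.X (a + 2) else if k = a + 2 then MvPolynomial.X (a + 1) else 0

theorem hasDerivAt_rot_mv (a : Fin 3) (P : MvPolynomial (Fin 3) ℝ) (x : E3) (t : ℝ) :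
    HasDerivAt (fun s => MvPolynomial.eval (fun i => rot a s x i) P)
      (MvPolynomial.eval (fun i => rot a t x i) (Lmv a P)) t := by
  induction P using MvPolynomial.induction_on with
  | C c =>
    have : Lmv a (MvPolynomial.C c) = 0 := (Lmv a).map_algebraMap c
    simpa [this] using hasDerivAt_const t c
  | add p q hp hq => simpa using hp.fun_add hq
  | mul_X p i hp =>
    have hi : HasDerivAt (fun s => rot a s x i)
        (MvPolynomial.eval (fun i => rot a t x i) (Lmv a (MvPolynomial.X i))) t := by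
      have h1 := ((Real.hasDerivAt_cos t).mul_const (x (a + 1))).fun_sub
        ((Real.hasDerivAt_sin t).mul_const (x (a + 2)))
      have h2 := ((Real.hasDerivAt_sin t).mul_const (x (a + 1))).fun_add
        ((Real.hasDerivAt_cos t).mul_const (x (a + 2)))
      have h12 : a + 2 ≠ a + 1 := by fin_cases a <;> decide
      simp only [Lmv, MvPolynomial.mkDerivation_X, rot_apply]
      split_ifs with hk1 hk2
      · refine h1.congr_deriv ?_
        simp [h12]; ring
      · refine h2.congr_deriv ?_
        simp; ring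
      · simpa using hasDerivAt_const t (x i)
    have := hp.fun_mul hi
    simp only [map_mul, MvPolynomial.eval_X, Derivation.leibniz, smul_eq_mul, map_add]
    refine this.congr_deriv ?_
    ring

theorem rot_zero (a : Fin 3) (x : E3) : rot a 0 x = x := by
  ext k
  rw [rot_apply]
  split_ifs with h1 h2 <;> simp [*]

theorem Lmv_ker (a : Fin 3) (P : MvPolynomial (Fin 3) ℝ) (h : mkP P = 0) : mkP (Lmv a P) = 0 := by
  apply Pol.ext'
  intro x
  have h1 := hasDerivAt_rot_mv a P x 0
  have h2 : (fun s => MvPolynomial.eval (fun i => rot a s x i) P) = fun _ => 0 := by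
    funext s
    have := toC_mkP_apply P (sphMap (rot a s) x)
    rw [h] at this
    simpa using this.symm
  rw [h2] at h1
  have := h1.unique (hasDerivAt_const 0 0)
  rw [toC_mkP_apply]
  simpa [rot_zero] using this

/-- `L a = x_{a+1} ∂_{a+2} - x_{a+2} ∂_{a+1}`, the component `a` of `x × ∇` -/
def L (a : Fin 3) : Derivation ℝ Pol Pol :=
  Derivation.liftOfSurjective mkP_surjective (Lmv_ker a)

theorem L_mkP (a : Fin 3) (P : MvPolynomial (Fin 3) ℝ) : L a (mkP P) = mkP (Lmv a P) :=
  Derivation.liftOfSurjective_apply mkP_surjective (Lmv_ker a) P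

theorem L_X (a k : Fin 3) :
    L a (X k) = if k = a + 1 then -X (a + 2) else if k = a + 2 then X (a + 1) else 0 := by
  rw [X, L_mkP, Lmv, MvPolynomial.mkDerivation_X]
  split_ifs <;> simp [X]

theorem hasDerivAt_rot (a : Fin 3) (p : Pol) (x : Sph) (t : ℝ) :
    HasDerivAt (fun s => toC p (sphMap (rot a s) x)) (toC (L a p) (sphMap (rot a t) x)) t := by
  obtain ⟨P, rfl⟩ := mkP_surjective p
  simp only [L_mkP, toC_mkP_apply, sphMap_coe]
  exact hasDerivAt_rot_mv a P x t

/-- the component `i` of the spherical gradient -/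
def nab (i : Fin 3) : Derivation ℝ Pol Pol := X (i + 2) • L (i + 1) - X (i + 1) • L (i + 2)

/-- multiplication operator -/
def mulP (b : Pol) : Pol →ₗ[ℝ] Pol := LinearMap.mulLeft ℝ b

@[simp] theorem mulP_apply (b p : Pol) : mulP b p = b * p := rfl

/-- the derivative `∂_i` of the `k`-homogeneous extension, restricted to the sphere -/
def Dk (k : ℝ) (i : Fin 3) : Pol →ₗ[ℝ] Pol := (nab i : Pol →ₗ[ℝ] Pol) + k • mulP (X i)

/-- the spherical Laplacian -/
def Lap : Pol →ₗ[ℝ] Pol := ∑ a, (L a : Pol →ₗ[ℝ] Pol) ∘ₗ (L a : Pol →ₗ[ℝ] Pol)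

/-! The degree filtration and the harmonic projections. -/

def U1 : Submodule ℝ Pol := Submodule.span ℝ (insert 1 (Set.range X))

/-- polynomial functions of degree at most `l` -/
def U (l : ℕ) : Submodule ℝ Pol := U1 ^ l

instance (l : ℕ) : FiniteDimensional ℝ (U l) := by
  have : U1.FG := Submodule.fg_span ((Set.finite_range X).insert 1)
  exact Module.Finite.iff_fg.2 (this.pow l)

theorem one_mem_U1 : (1 : Pol) ∈ U1 := Submodule.subset_span (Set.mem_insert _ _)
theorem X_mem_U1 (i : Fin 3) : X i ∈ U1 :=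
  Submodule.subset_span (Set.mem_insert_of_mem _ ⟨i, rfl⟩)

theorem mul_mem_U {k l : ℕ} {p q : Pol} (hp : p ∈ U k) (hq : q ∈ U l) : p * q ∈ U (k + l) := by
  rw [U, pow_add]; exact Submodule.mul_mem_mul hp hq

theorem U_succ (l : ℕ) : U (l + 1) = U l * U1 := pow_succ _ _

theorem one_mem_U (l : ℕ) : (1 : Pol) ∈ U l := by
  simpa [U] using Submodule.pow_mem_pow U1 one_mem_U1 l

theorem U_mono {k l : ℕ} (h : k ≤ l) : U k ≤ U l := by
  intro p hp
  obtain ⟨d, rfl⟩ := Nat.exists_eq_add_of_le h
  simpa using mul_mem_U hp (one_mem_U d)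

theorem X_mem_U (i : Fin 3) : X i ∈ U 1 := by simpa [U] using X_mem_U1 i

theorem exists_mem_U (p : Pol) : ∃ l, p ∈ U l := by
  induction p using Pol.induction with
  | hC a => exact ⟨0, by
      rw [Algebra.algebraMap_eq_smul_one]; exact Submodule.smul_mem _ _ (one_mem_U 0)⟩
  | hadd p q hp hq =>
    obtain ⟨k, hk⟩ := hp
    obtain ⟨l, hl⟩ := hq
    exact ⟨max k l, add_mem (U_mono (le_max_left _ _) hk) (U_mono (le_max_right _ _) hl)⟩
  | hX p i hp =>
    obtain ⟨k, hk⟩ := hp
    exact ⟨k + 1, mul_mem_U hk (X_mem_U i)⟩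

/-- orthogonal projection onto `U l` -/
def Pj (l : ℕ) : Pol →ₗ[ℝ] Pol := ((U l).starProjection : Pol →L[ℝ] Pol)

/-- projection onto the spherical harmonics of degree `l` -/
def pr : ℕ → (Pol →ₗ[ℝ] Pol)
  | 0 => Pj 0
  | l + 1 => Pj (l + 1) - Pj l

/-- spherical harmonics of degree `l` -/
def Hm (l : ℕ) : Submodule ℝ Pol := LinearMap.range (pr l)

theorem Pj_of_mem {l : ℕ} {p : Pol} (h : p ∈ U l) : Pj l p = p :=
  Submodule.starProjection_eq_self_iff.2 h

theorem pr_eq_zero_of_lt {d l : ℕ} {p : Pol} (h : p ∈ U d) (hl : d < l) : pr l p = 0 := by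
  obtain ⟨l, rfl⟩ := Nat.exists_eq_succ_of_ne_zero (by omega : l ≠ 0)
  simp [pr, Pj_of_mem (U_mono (by omega) h : p ∈ U (l + 1)), Pj_of_mem (U_mono (by omega) h : p ∈ U l)]

theorem gsum_supp (A : ℕ → (Pol →ₗ[ℝ] Pol)) {d : ℕ} {p : Pol} (h : p ∈ U d) :
    (Function.support fun l => A l (pr l p)) ⊆ (Finset.range (d + 1) : Set ℕ) := by
  intro l hl
  by_contra hc
  simp only [Finset.coe_range, Set.mem_Iio, not_lt] at hc
  exact hl (by simp [pr_eq_zero_of_lt h (by omega : d < l)])

theorem gsum_fin (A : ℕ → (Pol →ₗ[ℝ] Pol)) (p : Pol) :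
    (Function.support fun l => A l (pr l p)).Finite := by
  obtain ⟨d, hd⟩ := exists_mem_U p
  exact (Finset.finite_toSet _).subset (gsum_supp A hd)

/-- the operator acting as `A l` on the harmonics of degree `l` -/
def gsum (A : ℕ → (Pol →ₗ[ℝ] Pol)) : Pol →ₗ[ℝ] Pol where
  toFun p := ∑ᶠ l, A l (pr l p)
  map_add' p q := by
    simp only [map_add]
    exact finsum_add_distrib (gsum_fin A p) (gsum_fin A q)
  map_smul' c p := by
    simp only [map_smul, RingHom.id_apply]
    exact (smul_finsum' c (gsum_fin A p)).symm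

theorem gsum_eq (A : ℕ → (Pol →ₗ[ℝ] Pol)) {d : ℕ} {p : Pol} (h : p ∈ U d) :
    gsum A p = ∑ l ∈ Finset.range (d + 1), A l (pr l p) :=
  finsum_eq_sum_of_support_subset _ (gsum_supp A h)

/-- the multiplier acting as the scalar `m l` on the harmonics of degree `l` -/
def mult (m : ℕ → ℝ) : Pol →ₗ[ℝ] Pol := gsum fun l => m l • LinearMap.id

theorem mult_eq (m : ℕ → ℝ) {d : ℕ} {p : Pol} (h : p ∈ U d) :
    mult m p = ∑ l ∈ Finset.range (d + 1), m l • pr l p := gsum_eq _ h

/-- degree raising part of the multiplication by `x_i` -/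
def Xp (i : Fin 3) : Pol →ₗ[ℝ] Pol := gsum fun l => pr (l + 1) ∘ₗ mulP (X i)

/-- degree lowering part of the multiplication by `x_i` -/
def Xm (i : Fin 3) : Pol →ₗ[ℝ] Pol := mulP (X i) - Xp i

end

end Pool.Agent.MMO
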