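import Pool.Agent.P.MP_6c3c64_gt.Defs

/-! Row Z1. Bounded solution operators of `v' = a v + c` from a barrier.
Let `A x = ∫_0^x a`. `exists_res_base`: `R c x = exp (A x) * ∫ s in x0..x, exp (-A s) * c s`; the
function `exp (-A x) * Wf x - ∫ s in x0..x, exp (-A s)` has nonnegative derivative and vanishes at
`x0`, which gives the bound on both sides of `x0`. `exists_res_top`:
`R c x = -exp (A x) * ∫ s in Ioi x, exp (-A s) * c s`; the function
`exp (-A x) * Wf x + ∫ s in x1..x, exp (-A s)` is antitone, which gives integrability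
(`integrableOn_Ioi_of_intervalIntegral_norm_bounded`) and the bound.
Uniqueness: `exp (-A x) * v x` is constant.
-/

set_option autoImplicit false

open Real BoundedContinuousFunction MeasureTheory Set Filter Topology
open scoped NNReal ENNReal

noncomputable section

namespace Pool.Agent.PS

/-- primitive of the coefficient -/
def Z1_A (a : E0) (x : ℝ) : ℝ := ∫ s in (0 : ℝ)..x, a s

/-- the integrating factor -/
def Z1_E (a : E0) (x : ℝ) : ℝ := exp (-Z1_A a x)

theorem Z1_dA (a : E0) (x : ℝ) : HasDerivAt (Z1_A a) (a x) x :=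
  (a.continuous.integral_hasStrictDerivAt 0 x).hasDerivAt

theorem Z1_pos (a : E0) (x : ℝ) : 0 < Z1_E a x := exp_pos _

theorem Z1_dE (a : E0) (x : ℝ) : HasDerivAt (Z1_E a) (-(a x * Z1_E a x)) x :=
  HasDerivAt.congr_deriv (f := Z1_E a) (Z1_dA a x).neg.exp (by simp only [Z1_E, Pi.neg_apply]; ring)

theorem Z1_cont (a : E0) : Continuous (Z1_E a) :=
  continuous_iff_continuousAt.2 fun x => (Z1_dE a x).continuousAt

theorem Z1_mk (a : E0) (I : E0 → ℝ → ℝ) (hadd : ∀ c c' x, I (c + c') x = I c x + I c' x)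
    (hsmul : ∀ (r : ℝ) c x, I (r • c) x = r * I c x) (w : ℝ → ℝ) (M : ℝ) (hw : ∀ x, w x ≤ M)
    (hd : ∀ c x, HasDerivAt (I c) (Z1_E a x * c x) x)
    (hb : ∀ c x, |I c x| ≤ ‖c‖ * (Z1_E a x * w x)) :
    ∃ R : E0 →L[ℝ] E0, IsRes a R ∧ (∀ c x, R c x = I c x / Z1_E a x) ∧
      ∀ c x, |R c x| ≤ ‖c‖ * w x := by
  have d : ∀ c x, HasDerivAt (fun x => I c x / Z1_E a x) (a x * (I c x / Z1_E a x) + c x) x := by
    intro c x
    refine ((hd c x).div (Z1_dE a x) (Z1_pos a x).ne').congr_deriv ?_
    have := (Z1_pos a x).ne'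
    field_simp
    ring
  have b : ∀ c x, |I c x / Z1_E a x| ≤ ‖c‖ * w x := fun c x => by
    rw [abs_div, abs_of_pos (Z1_pos a x), div_le_iff₀ (Z1_pos a x)]
    refine (hb c x).trans (le_of_eq ?_)
    ring
  have b' : ∀ c x, |I c x / Z1_E a x| ≤ M * ‖c‖ := fun c x =>
    (b c x).trans (by rw [mul_comm]; exact mul_le_mul_of_nonneg_right (hw x) (norm_nonneg _))
  refine ⟨LinearMap.mkContinuous
    { toFun := fun c => mkB (fun x => I c x / Z1_E a x)
        (continuous_iff_continuousAt.2 fun x => (d c x).continuousAt) (M * ‖c‖) (b' c)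
      map_add' := fun c c' => by
        ext x
        simp only [mkB_apply, BoundedContinuousFunction.add_apply, hadd, add_div]
      map_smul' := fun r c => by
        ext x
        simp only [mkB_apply, BoundedContinuousFunction.smul_apply, smul_eq_mul, RingHom.id_apply,
          hsmul, mul_div_assoc] } M fun c => norm_le_of_abs (b' c), d, fun _ _ => rfl, b⟩

theorem Z1_const (a : E0) (v : ℝ → ℝ) (hv : ∀ x, HasDerivAt v (a x * v x) x) (x y : ℝ) :
    Z1_E a x * v x = Z1_E a y * v y := by
  have h : ∀ x, HasDerivAt (fun x => Z1_E a x * v x) 0 x := fun x =>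
    ((Z1_dE a x).mul (hv x)).congr_deriv (by ring)
  exact is_const_of_deriv_eq_zero (fun x => (h x).differentiableAt) (fun x => (h x).deriv) x y

theorem Z1_le (a c : E0) (s : ℝ) : ‖Z1_E a s * c s‖ ≤ ‖c‖ * Z1_E a s := by
  rw [Real.norm_eq_abs, abs_mul, abs_of_pos (Z1_pos a s), mul_comm]
  exact mul_le_mul_of_nonneg_right (abs_le_norm c s) (Z1_pos a s).le

theorem exists_res_base (a : E0) (x0 : ℝ) (Wf Wd : ℝ → ℝ) (M : ℝ)
    (hW : ∀ x, HasDerivAt Wf (Wd x) x) (h0 : Wf x0 = 0) (hb : ∀ x, |Wf x| ≤ M)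
    (hi : ∀ x, a x * Wf x + 1 ≤ Wd x) :
    ∃ R : E0 →L[ℝ] E0, IsRes a R ∧ (∀ c, R c x0 = 0) ∧ ∀ c x, |R c x| ≤ ‖c‖ * |Wf x| := by
  have hc := Z1_cont a
  have hm : Monotone fun x => Z1_E a x * Wf x - ∫ s in x0..x, Z1_E a s :=
    monotone_of_hasDerivAt_nonneg (fun x => ((Z1_dE a x).mul (hW x)).sub
      (hc.integral_hasStrictDerivAt x0 x).hasDerivAt) fun x => by
        have := mul_le_mul_of_nonneg_left (hi x) (Z1_pos a x).le
        simp only [Pi.zero_apply]
        linarith
  have key : ∀ x, |∫ s in x0..x, Z1_E a s| ≤ Z1_E a x * |Wf x| := fun x => by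
    rcases le_total x0 x with h | h
    · have h1 := hm h
      simp only [h0, mul_zero, intervalIntegral.integral_same, sub_zero] at h1
      rw [abs_of_nonneg (intervalIntegral.integral_nonneg h fun s _ => (Z1_pos a s).le)]
      have := mul_le_mul_of_nonneg_left (le_abs_self (Wf x)) (Z1_pos a x).le
      linarith
    · have h1 := hm h
      simp only [h0, mul_zero, intervalIntegral.integral_same, sub_zero] at h1
      rw [intervalIntegral.integral_symm] at h1 ⊢
      rw [abs_neg, abs_of_nonneg (intervalIntegral.integral_nonneg h fun s _ => (Z1_pos a s).le)]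
      have := mul_le_mul_of_nonneg_left (neg_le_abs (Wf x)) (Z1_pos a x).le
      linarith
  obtain ⟨R, h1, h2, h3⟩ := Z1_mk a (fun c x => ∫ s in x0..x, Z1_E a s * c s)
    (fun c c' x => by
      simp only [BoundedContinuousFunction.add_apply, mul_add]
      exact intervalIntegral.integral_add ((hc.mul c.continuous).intervalIntegrable _ _)
        ((hc.mul c'.continuous).intervalIntegrable _ _))
    (fun r c x => by
      simp only [BoundedContinuousFunction.smul_apply, smul_eq_mul, mul_left_comm _ r]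
      exact intervalIntegral.integral_const_mul _ _)
    (fun x => |Wf x|) M hb
    (fun c x => ((hc.mul c.continuous).integral_hasStrictDerivAt x0 x).hasDerivAt)
    (fun c x => by
      refine (intervalIntegral.norm_integral_le_abs_of_norm_le
        (Eventually.of_forall (Z1_le a c))
        ((continuous_const.mul hc).intervalIntegrable _ _)).trans ?_
      rw [intervalIntegral.integral_const_mul, abs_mul, abs_norm]
      exact mul_le_mul_of_nonneg_left (key x) (norm_nonneg _))
  exact ⟨R, h1, fun c => by simp [h2], h3⟩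

theorem exists_res_top (a : E0) (Wf Wd : ℝ → ℝ) (M : ℝ)
    (hW : ∀ x, HasDerivAt Wf (Wd x) x) (h0 : ∀ x, 0 ≤ Wf x) (hb : ∀ x, Wf x ≤ M)
    (hi : ∀ x, Wd x ≤ a x * Wf x - 1) :
    ∃ R : E0 →L[ℝ] E0, IsRes a R ∧ ∀ c x, |R c x| ≤ ‖c‖ * Wf x := by
  have hc := Z1_cont a
  have key : ∀ x y, x ≤ y → ∫ s in x..y, Z1_E a s ≤ Z1_E a x * Wf x := fun x y hxy => by
    have hm : Antitone fun y => Z1_E a y * Wf y + ∫ s in x..y, Z1_E a s :=
      antitone_of_hasDerivAt_nonpos (fun y => ((Z1_dE a y).mul (hW y)).add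
        (hc.integral_hasStrictDerivAt x y).hasDerivAt) fun y => by
          have := mul_le_mul_of_nonneg_left (hi y) (Z1_pos a y).le
          simp only [Pi.zero_apply]
          linarith
    have h1 := hm hxy
    simp only [intervalIntegral.integral_same, add_zero] at h1
    have := mul_nonneg (Z1_pos a y).le (h0 y)
    linarith
  have hint : ∀ x, IntegrableOn (Z1_E a) (Ioi x) := fun x =>
    integrableOn_Ioi_of_intervalIntegral_norm_bounded (Z1_E a x * Wf x) x (b := id)
      (fun y => (hc.intervalIntegrable x y).1) tendsto_id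
      ((eventually_ge_atTop x).mono fun y hy => by
        simp only [Real.norm_eq_abs, abs_of_pos (Z1_pos a _)]
        exact key x y hy)
  have hle : ∀ x, ∫ s in Ioi x, Z1_E a s ≤ Z1_E a x * Wf x := fun x =>
    le_of_tendsto (intervalIntegral_tendsto_integral_Ioi x (hint x) tendsto_id)
      ((eventually_ge_atTop x).mono fun y hy => key x y hy)
  have hic : ∀ (c : E0) x, IntegrableOn (fun s => Z1_E a s * c s) (Ioi x) := fun c x =>
    Integrable.mono' ((hint x).const_mul ‖c‖) (hc.mul c.continuous).aestronglyMeasurable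
      (Eventually.of_forall (Z1_le a c))
  obtain ⟨R, h1, -, h3⟩ := Z1_mk a (fun c x => -∫ s in Ioi x, Z1_E a s * c s)
    (fun c c' x => by
      simp only [BoundedContinuousFunction.add_apply, mul_add]
      rw [integral_add (hic c x) (hic c' x), neg_add])
    (fun r c x => by
      simp only [BoundedContinuousFunction.smul_apply, smul_eq_mul, mul_left_comm _ r]
      rw [integral_const_mul, mul_neg])
    Wf M hb
    (fun c x => by
      have e : (fun x => -∫ s in Ioi x, Z1_E a s * c s) = fun x =>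
          (∫ s in (0 : ℝ)..x, Z1_E a s * c s) - ∫ s in Ioi 0, Z1_E a s * c s := funext fun x => by
        rw [← intervalIntegral.integral_Ioi_sub_Ioi' (hic c 0) (hic c x)]
        ring
      rw [e]
      exact ((hc.mul c.continuous).integral_hasStrictDerivAt 0 x).hasDerivAt.sub_const _)
    (fun c x => by
      rw [abs_neg]
      refine (norm_integral_le_of_norm_le ((hint x).const_mul ‖c‖)
        (Eventually.of_forall (Z1_le a c))).trans ?_
      rw [integral_const_mul]
      exact mul_le_mul_of_nonneg_left (hle x) (norm_nonneg _))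
  exact ⟨R, h1, h3⟩

theorem res_unique_base (a : E0) (x0 : ℝ) (v : ℝ → ℝ) (hv : ∀ x, HasDerivAt v (a x * v x) x)
    (h0 : v x0 = 0) (x : ℝ) : v x = 0 := by
  have h := Z1_const a v hv x x0
  rw [h0, mul_zero] at h
  exact (mul_eq_zero.1 h).resolve_left (Z1_pos a x).ne'

theorem res_unique_top (a : E0) {δ : ℝ} (hδ : 0 < δ) (ha : ∀ x, δ ≤ a x) (v : ℝ → ℝ) (M : ℝ)
    (hb : ∀ x, |v x| ≤ M) (hv : ∀ x, HasDerivAt v (a x * v x) x) (x : ℝ) : v x = 0 := by
  by_contra hx
  have hp : 0 < |v x| := abs_pos.2 hx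
  have hM : 0 ≤ M := (abs_nonneg _).trans (hb x)
  set t := M / (δ * |v x|) with ht
  have ht0 : 0 ≤ t := by positivity
  have hm : Monotone fun y => Z1_A a y - δ * y :=
    monotone_of_hasDerivAt_nonneg (fun y => (Z1_dA a y).sub ((hasDerivAt_id y).const_mul δ))
      fun y => by
        simp only [Pi.zero_apply]
        linarith [ha y]
  have h1 := hm (le_add_of_nonneg_right ht0 : x ≤ x + t)
  have h2 : v (x + t) = exp (Z1_A a (x + t) - Z1_A a x) * v x := by
    have h := Z1_const a v hv x (x + t)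
    rw [sub_eq_add_neg, exp_add, mul_assoc]
    change _ = _ * (Z1_E a x * v x)
    rw [h, Z1_E, ← mul_assoc, ← exp_add, add_neg_cancel, exp_zero, one_mul]
  have h3 := hb (x + t)
  rw [h2, abs_mul, abs_of_pos (exp_pos _)] at h3
  have h4 : δ * t + 1 ≤ exp (Z1_A a (x + t) - Z1_A a x) :=
    (add_one_le_exp _).trans (exp_le_exp.2 (by simp only at h1; linarith))
  have h5 : δ * t * |v x| = M := by
    rw [ht]
    field_simp
  nlinarith [mul_le_mul_of_nonneg_right h4 hp.le]

end Pool.Agent.PS
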