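import Pool.Agent.P.MP_6c3c64_gt.Z1

/-! Row Z2. The resolvent of one step. Notation: `t = tanh x`, `α = m - 2 n t`,
`κ = 2 n sech ^ 2 = -α'`, and `abB m n = 2 α + 2 t`. As `m` is odd, `m ≠ 2 n`.
Case `d = m - 2 n ≥ 1`: `exists_res_top` with `Wf = A / α`, `A = 21 / 10`. With `s = 2 n (1 - t) ≥ 0`:
`α = d + s`, `κ = s (1 + t) ≤ 2 s`, so `κ / α ^ 2 ≤ 1 / 2`, and `A (1 - gam - 1 / 2) ≥ 1`.
`‖R‖ ≤ A / d ≤ A (1 + 2 n) / m`, `‖Zst‖ ≤ 1 + 2 A (1 + 1 / d)`.
Case `D = 2 n - m ≥ 1`: `exists_res_base` at `x0 = artanh (m / (2 n))` with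
`Wf = -A α / (α ^ 2 + b)`, `b = κ x0 = D (1 + t0) ≥ max D (4 / 3)`,
`Wd = A κ (b - α ^ 2) / (α ^ 2 + b) ^ 2`. One has `κ - b = α (t0 + t)`, so `|κ - b| ≤ 2 |α|`. With
`s = b - α ^ 2`: `α ^ 2 (α ^ 2 + b) + κ s ≥ s ^ 2 + 2 α ^ 2 b - 2 |α| |s|`,
`(α ^ 2 + b) ^ 2 = s ^ 2 + 4 α ^ 2 b`, `|α| ≤ (α ^ 2 + b) / 2`; the barrier inequality follows from
`(1 - θ) s ^ 2 + (2 - 4 θ) α ^ 2 b ≥ 2 |α| |s|`, `θ = 1 / A + gam / 2`, true when
`(1 - θ) (2 - 4 θ) b ≥ 1`. Take `A = 21 / 10` if `D ≥ 441` and `A = 5` otherwise.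
`|Wf| ≤ A / 2`, `‖Zst‖ ≤ 1 + 2 A + A / √b`.
-/

set_option autoImplicit false

open Real BoundedContinuousFunction MeasureTheory Set Filter Topology
open scoped NNReal ENNReal

noncomputable section

namespace Pool.Agent.PS

theorem Z2_norms {R : E0 →L[ℝ] E0} {w : ℝ → ℝ} {m n M K : ℝ} (hM0 : 0 ≤ M) (hK0 : 0 ≤ K)
    (h : ∀ c x, |R c x| ≤ ‖c‖ * w x) (hM : ∀ x, w x ≤ M) (hK : ∀ x, |abB m n x| * w x ≤ K) :
    ‖R‖ ≤ M ∧ ‖Zst R m n‖ ≤ 1 + K := by
  refine ⟨R.opNorm_le_bound hM0 fun c => norm_le_of_abs fun x => (h c x).trans ?_,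
    ContinuousLinearMap.opNorm_le_bound _ (by linarith) fun c => norm_le_of_abs fun x => ?_⟩
  · rw [mul_comm]
    exact mul_le_mul_of_nonneg_right (hM x) (norm_nonneg _)
  · have e : Zst R m n c x = c x + abB m n x * R c x := rfl
    have h1 := mul_le_mul_of_nonneg_left (h c x) (abs_nonneg (abB m n x))
    have h2 := mul_le_mul_of_nonneg_left (hK x) (norm_nonneg c)
    rw [e]
    refine (abs_add_le _ _).trans ?_
    rw [abs_mul]
    nlinarith [abs_le_norm c x]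

theorem Z2_deriv (m n x : ℝ) :
    HasDerivAt (fun x => m - 2 * n * tanh x) (-(2 * n * (1 - tanh x ^ 2))) x := by
  refine (((hasDerivAt_tanh' x).const_mul (2 * n)).const_sub m).congr_deriv ?_
  rw [← tanh_sq_add_sech_sq x]
  ring

theorem Z2_gt {g : ℝ} (hg0 : 0 ≤ g) (hg : g ≤ gam) (x : ℝ) : |g * tanh x| ≤ 1 / 100 := by
  rw [abs_mul, abs_of_nonneg hg0]
  exact (mul_le_of_le_one_right hg0 (abs_tanh_le_one x)).trans hg

theorem Z2_top {m n g : ℝ} (hn : 0 ≤ n) (hd : 1 ≤ m - 2 * n) (hg0 : 0 ≤ g) (hg : g ≤ gam) :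
    ∃ R : E0 →L[ℝ] E0, IsRes (alpB m n + g • tanhB) R ∧ ‖R‖ ≤ 21 / 10 / (m - 2 * n) ∧
      ‖Zst R m n‖ ≤ 1 + (21 / 5 + 21 / 5 / (m - 2 * n)) := by
  have ht := fun x => abs_le.1 (abs_tanh_le_one x)
  have hα : ∀ x, m - 2 * n ≤ m - 2 * n * tanh x := fun x => by nlinarith [ht x]
  have hα0 : ∀ x, 0 < m - 2 * n * tanh x := fun x => by linarith [hα x]
  have hb : ∀ x, 21 / 10 / (m - 2 * n * tanh x) ≤ 21 / 10 / (m - 2 * n) := fun x =>
    div_le_div_of_nonneg_left (by norm_num) (by linarith) (hα x)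
  obtain ⟨R, h1, h2⟩ := exists_res_top (alpB m n + g • tanhB)
    (fun x => 21 / 10 / (m - 2 * n * tanh x))
    (fun x => 21 / 10 * (2 * n * (1 - tanh x ^ 2)) / (m - 2 * n * tanh x) ^ 2) _
    (fun x => ((hasDerivAt_const x (21 / 10 : ℝ)).div (Z2_deriv m n x) (hα0 x).ne').congr_deriv
      (by ring)) (fun x => (div_pos (by norm_num) (hα0 x)).le) hb fun x => by
      have e : (alpB m n + g • tanhB) x = m - 2 * n * tanh x + g * tanh x := by simp
      have a1 := abs_le.1 (Z2_gt hg0 hg x)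
      have a2 := hα x
      have a3 := ht x
      have a4 : 0 ≤ 2 * n * (1 - tanh x) := mul_nonneg (by linarith) (by linarith)
      have b1 : 21 / 10 * (2 * n * (1 - tanh x ^ 2)) / (m - 2 * n * tanh x) ^ 2 ≤ 21 / 20 := by
        rw [div_le_iff₀ (pow_pos (hα0 x) 2)]
        nlinarith [sq_nonneg (m - 2 * n - 2 * n * (1 - tanh x)), mul_nonneg a4 (sub_nonneg.2 hd),
          mul_nonneg a4 (sub_nonneg.2 a3.2)]
      have b2 : 41 / 20 ≤ (m - 2 * n * tanh x + g * tanh x) * (21 / 10 / (m - 2 * n * tanh x)) := by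
        rw [← mul_div_assoc, le_div_iff₀ (hα0 x)]
        linarith
      rw [e]
      linarith
  have hd0 : 0 < m - 2 * n := by linarith
  refine ⟨R, h1, Z2_norms (by positivity) (by positivity) h2 hb fun x => ?_⟩
  have a1 : |abB m n x| ≤ 2 * (m - 2 * n * tanh x) + 2 := by
    rw [abB_apply]
    exact abs_le.2 ⟨by linarith [ht x, hα0 x], by linarith [ht x]⟩
  refine (mul_le_mul_of_nonneg_right a1 (div_pos (by norm_num) (hα0 x)).le).trans ?_
  have e : 2 * (m - 2 * n * tanh x) * (21 / 10 / (m - 2 * n * tanh x)) = 21 / 5 := by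
    have := (hα0 x).ne'
    field_simp
    norm_num
  have e2 : 21 / 5 / (m - 2 * n) = 2 * (21 / 10 / (m - 2 * n)) := by ring
  rw [add_mul, e, e2]
  linarith [hb x]

theorem Z2_poly {A θ α b τ e : ℝ} (hA : 0 < A) (hθ : A * (θ - 1 / 200) = 1) (hp : θ < 1)
    (h : 1 ≤ (1 - θ) * (2 - 4 * θ) * b) (hb : 1 ≤ b) (hτ : |τ| ≤ 2) (he : |e| ≤ 1 / 100) :
    (α ^ 2 + b) ^ 2 ≤
      A * ((b + α * τ) * (b - α ^ 2) + α ^ 2 * (α ^ 2 + b) + e * α * (α ^ 2 + b)) := by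
  have h1 : |α * τ * (b - α ^ 2)| ≤ 2 * (|α| * |b - α ^ 2|) := by
    rw [abs_mul, abs_mul]
    nlinarith [mul_nonneg (abs_nonneg α) (abs_nonneg (b - α ^ 2))]
  have h2 : |e * α| ≤ (α ^ 2 + b) / 200 := by
    rw [abs_mul]
    nlinarith [sq_nonneg (|α| - 1), sq_abs α, abs_nonneg α]
  have h3 : 2 * (|α| * |b - α ^ 2|) ≤ (1 - θ) * (b - α ^ 2) ^ 2 + (2 - 4 * θ) * α ^ 2 * b := by
    refine le_of_mul_le_mul_left ?_ (sub_pos.2 hp)
    rw [← sq_abs (b - α ^ 2)]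
    nlinarith [sq_nonneg ((1 - θ) * |b - α ^ 2| - |α|), sq_abs α,
      mul_le_mul_of_nonneg_right h (sq_nonneg α)]
  have h4 := mul_le_mul_of_nonneg_right (abs_le.1 h2).1 (show 0 ≤ α ^ 2 + b by positivity)
  have h5 : (θ - 1 / 200) * (α ^ 2 + b) ^ 2 ≤
      (b + α * τ) * (b - α ^ 2) + α ^ 2 * (α ^ 2 + b) + e * α * (α ^ 2 + b) := by
    nlinarith [(abs_le.1 h1).1]
  have h6 := mul_le_mul_of_nonneg_left h5 hA.le
  rwa [← mul_assoc, hθ, one_mul] at h6

theorem Z2_base {m n g A θ r : ℝ} (hm : 0 < m) (hmn : m < 2 * n) (hg0 : 0 ≤ g) (hg : g ≤ gam)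
    (hA : 0 < A) (hθ : A * (θ - 1 / 200) = 1) (hp : θ < 1) (hr : 1 ≤ r)
    (h : 1 ≤ (1 - θ) * (2 - 4 * θ) * ((2 * n - m) * (1 + m / (2 * n))))
    (hb : r ^ 2 ≤ (2 * n - m) * (1 + m / (2 * n))) :
    ∃ R : E0 →L[ℝ] E0, IsRes (alpB m n + g • tanhB) R ∧
      (∀ x, tanh x = m / (2 * n) → ∀ c, R c x = 0) ∧ ‖R‖ ≤ A / 2 ∧
      ‖Zst R m n‖ ≤ 1 + (2 * A + A / r) := by
  have hn : 0 < 2 * n := hm.trans hmn
  have hn' : n ≠ 0 := fun h0 => by simp [h0] at hn
  have t0 : 0 < m / (2 * n) := div_pos hm hn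
  have t1 : m / (2 * n) < 1 := (div_lt_one hn).2 hmn
  have hx0 := tanh_artanh (x := m / (2 * n)) ⟨by linarith, t1⟩
  have hκ : ∀ t, 2 * n * (1 - t ^ 2) =
      (2 * n - m) * (1 + m / (2 * n)) + (m - 2 * n * t) * (m / (2 * n) + t) := fun t => by
    field_simp
    ring
  have hz : m - 2 * n * (m / (2 * n)) = 0 := by field_simp; ring
  generalize (2 * n - m) * (1 + m / (2 * n)) = b at h hb hκ
  have hb1 : 1 ≤ b := by nlinarith
  have hQ : ∀ α : ℝ, 0 < α ^ 2 + b := fun α => by positivity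
  have habs : ∀ α : ℝ, |-A * α / (α ^ 2 + b)| = A * |α| / (α ^ 2 + b) := fun α => by
    rw [abs_div, abs_mul, abs_neg, abs_of_pos hA, abs_of_pos (hQ α)]
  have hbd : ∀ α : ℝ, |-A * α / (α ^ 2 + b)| ≤ A / 2 := fun α => by
    rw [habs, div_le_iff₀ (hQ α)]
    nlinarith [sq_nonneg (|α| - 1), sq_abs α]
  obtain ⟨R, h1, h2, h3⟩ := exists_res_base (alpB m n + g • tanhB) (artanh (m / (2 * n)))
    (fun x => -A * (m - 2 * n * tanh x) / ((m - 2 * n * tanh x) ^ 2 + b))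
    (fun x => A * (2 * n * (1 - tanh x ^ 2)) * (b - (m - 2 * n * tanh x) ^ 2) /
      ((m - 2 * n * tanh x) ^ 2 + b) ^ 2) _
    (fun x => (((Z2_deriv m n x).const_mul (-A)).div (((Z2_deriv m n x).pow 2).add_const b)
      (hQ _).ne').congr_deriv (by simp only [Pi.pow_apply]; ring))
    (by simp only [hx0, hz, mul_zero, zero_div]) (fun x => hbd _) fun x => by
      have e : (alpB m n + g • tanhB) x = m - 2 * n * tanh x + g * tanh x := by simp
      have a1 := abs_le.1 (abs_tanh_le_one x)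
      have a2 := Z2_poly (α := m - 2 * n * tanh x) (τ := m / (2 * n) + tanh x) hA hθ hp h hb1
        (abs_le.2 ⟨by linarith, by linarith⟩) (Z2_gt hg0 hg x)
      rw [e, hκ]
      generalize m - 2 * n * tanh x = α at *
      have a3 := (hQ α).ne'
      rw [le_div_iff₀ (pow_pos (hQ α) 2)]
      have e2 : ((α + g * tanh x) * (-A * α / (α ^ 2 + b)) + 1) * (α ^ 2 + b) ^ 2 =
          (α ^ 2 + b) ^ 2 - A * (α ^ 2 * (α ^ 2 + b) + g * tanh x * α * (α ^ 2 + b)) := by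
        field_simp
        ring
      rw [e2]
      linarith
  have hr0 : 0 < r := by linarith
  refine ⟨R, h1, fun x hx c => ?_, Z2_norms (by positivity) (by positivity) h3 (fun x => hbd _)
    fun x => ?_⟩
  · rw [tanh_injective (hx.trans hx0.symm)]
    exact h2 c
  · have a1 : |abB m n x| ≤ 2 * |m - 2 * n * tanh x| + 2 := by
      have := abs_le.1 (abs_tanh_le_one x)
      rw [abB_apply]
      exact abs_le.2 ⟨by linarith [neg_abs_le (m - 2 * n * tanh x)],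
        by linarith [le_abs_self (m - 2 * n * tanh x)]⟩
    refine (mul_le_mul_of_nonneg_right a1 (abs_nonneg _)).trans ?_
    generalize m - 2 * n * tanh x = α
    rw [habs, ← mul_div_assoc, div_le_iff₀ (hQ α)]
    have a2 : 2 * |α| ≤ (α ^ 2 + b) / r := by
      rw [le_div_iff₀ hr0]
      nlinarith [sq_nonneg (|α| - r), sq_abs α]
    have a3 := mul_le_mul_of_nonneg_left a2 hA.le
    have e : A / r * (α ^ 2 + b) = A * ((α ^ 2 + b) / r) := by ring
    rw [add_mul (2 * A), e]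
    nlinarith [sq_abs α, mul_pos hA (lt_of_lt_of_le one_pos hb1)]

theorem exists_stepRes (m n : ℕ) (hm : Odd m) (h3 : 3 ≤ m) (hn : 1 ≤ n) (g : ℝ) (hg0 : 0 ≤ g)
    (hg : g ≤ gam) : ∃ R : E0 →L[ℝ] E0, StepRes m n g R := by
  have hm3 : (3 : ℝ) ≤ m := by exact_mod_cast h3
  have hn1 : (1 : ℝ) ≤ n := by exact_mod_cast hn
  obtain ⟨k, hk⟩ := hm
  rcases lt_or_gt_of_ne (show m ≠ 2 * n by omega) with h | h
  · have hD : (m : ℝ) + 1 ≤ 2 * n := by exact_mod_cast h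
    have t0 : 0 < (m : ℝ) / (2 * n) := by positivity
    have hR : ∀ A : ℝ, A ≤ 5 → A / 2 ≤ 5 * (1 + 2 * n) / m := fun A hA => by
      rw [le_div_iff₀ (by linarith)]
      nlinarith
    by_cases hc : 441 ≤ |(m : ℤ) - 2 * n|
    · have h1 : (m : ℝ) + 441 ≤ 2 * n := by
        rw [abs_of_neg (by omega)] at hc
        exact_mod_cast (show m + 441 ≤ 2 * n by omega)
      have hb : (441 : ℝ) ≤ (2 * n - m) * (1 + m / (2 * n)) := by nlinarith
      obtain ⟨R, r1, r2, r3, r4⟩ := Z2_base (m := m) (n := n) (A := 21 / 10)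
        (θ := 10 / 21 + 1 / 200) (r := 21) (by linarith) (by linarith) hg0 hg (by norm_num)
        (by norm_num) (by norm_num) (by norm_num) (by linarith) (by linarith)
      exact ⟨R, r1, fun _ => r2, r3.trans (hR _ (by norm_num)), by
        rw [if_pos hc]; exact r4.trans (by norm_num)⟩
    · have hb : (4 / 3 : ℝ) ≤ (2 * n - m) * (1 + m / (2 * n)) := by
        have : (1 / 3 : ℝ) ≤ (2 * n - m) * (m / (2 * n)) := by
          rw [← mul_div_assoc, le_div_iff₀ (by linarith)]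
          nlinarith
        linarith
      obtain ⟨R, r1, r2, r3, r4⟩ := Z2_base (m := m) (n := n) (A := 5)
        (θ := 1 / 5 + 1 / 200) (r := 1) (by linarith) (by linarith) hg0 hg (by norm_num)
        (by norm_num) (by norm_num) le_rfl (by linarith) (by linarith)
      exact ⟨R, r1, fun _ => r2, r3.trans (hR _ le_rfl), by
        rw [if_neg hc]; exact r4.trans (by norm_num)⟩
  · have hD : 2 * (n : ℝ) + 1 ≤ m := by exact_mod_cast h
    obtain ⟨R, r1, r3, r4⟩ := Z2_top (m := m) (n := n) (by linarith) (by linarith) hg0 hg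
    refine ⟨R, r1, fun h' => absurd h' (by omega), r3.trans ?_, r4.trans ?_⟩
    · rw [div_le_div_iff₀ (by linarith) (by linarith)]
      nlinarith
    · split_ifs with hc
      · have h1 : 2 * (n : ℝ) + 441 ≤ m := by
          rw [abs_of_pos (by omega)] at hc
          exact_mod_cast (show 2 * n + 441 ≤ m by omega)
        have : (21 / 5 : ℝ) / (m - 2 * n) ≤ 1 / 10 := by
          rw [div_le_iff₀ (by linarith)]
          linarith
        linarith
      · have : (21 / 5 : ℝ) / (m - 2 * n) ≤ 21 / 5 := div_le_self (by norm_num) (by linarith)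
        linarith

end Pool.Agent.PS
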